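import Mathlib

/-!
# Weighted l^1 algebras of Laurent series (Wiener algebras)
-/

open scoped BigOperators
noncomputable section
namespace Pool.Agent.Lib_MP_1858fb_w

/-- A submultiplicative weight on the integers. -/
structure Wt where
  w : ℤ → ℝ
  pos : ∀ k, 0 < w k
  zero : w 0 = 1
  sub : ∀ i j, w (i + j) ≤ w i * w j

/-- The weighted l^1 space of two sided sequences. The element stored at `k` is
the coefficient times the weight. -/
@[nolint unusedArguments]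
def W (_ω : Wt) : Type := lp (fun _ : ℤ => ℂ) 1

variable {ω : Wt}

instance : NormedAddCommGroup (W ω) :=
  inferInstanceAs (NormedAddCommGroup (lp (fun _ : ℤ => ℂ) 1))
instance : NormedSpace ℂ (W ω) :=
  inferInstanceAs (NormedSpace ℂ (lp (fun _ : ℤ => ℂ) 1))
instance : CompleteSpace (W ω) :=
  inferInstanceAs (CompleteSpace (lp (fun _ : ℤ => ℂ) 1))

namespace W

/-- the coefficient at `k`, as a function. -/
def co (f : W ω) (k : ℤ) : ℂ := (f : lp (fun _ : ℤ => ℂ) 1).1 k / (ω.w k : ℂ)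

theorem w_ne (ω : Wt) (k : ℤ) : (ω.w k : ℂ) ≠ 0 := by
  exact_mod_cast (ω.pos k).ne'

theorem norm_w (ω : Wt) (k : ℤ) : ‖(ω.w k : ℂ)‖ = ω.w k := by
  rw [Complex.norm_real, Real.norm_of_nonneg (ω.pos k).le]

theorem co_norm (f : W ω) (k : ℤ) :
    ‖f.co k‖ * ω.w k = ‖(f : lp (fun _ : ℤ => ℂ) 1).1 k‖ := by
  unfold co
  rw [norm_div, norm_w, div_mul_cancel₀ _ (ω.pos k).ne']

theorem summ (f : W ω) : Summable fun k => ‖f.co k‖ * ω.w k := by
  have h := (lp.memℓp (f : lp (fun _ : ℤ => ℂ) 1)).summable (by norm_num)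
  refine h.congr fun k => ?_
  rw [co_norm]
  simp

theorem norm_eq (f : W ω) : ‖f‖ = ∑' k, ‖f.co k‖ * ω.w k := by
  have h := lp.norm_eq_tsum_rpow (p := 1) (by norm_num) (f : lp (fun _ : ℤ => ℂ) 1)
  simp only [ENNReal.toReal_one, Real.rpow_one, div_one] at h
  refine Eq.trans h ?_
  refine tsum_congr fun k => ?_
  rw [co_norm]

theorem ext {f g : W ω} (h : ∀ k, f.co k = g.co k) : f = g := by
  apply lp.ext
  funext k
  have := h k
  unfold co at this
  rw [div_left_inj' (w_ne ω k)] at this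
  exact this

/-- The element with given coefficients. -/
def ofSeq (a : ℤ → ℂ) (h : Summable fun k => ‖a k‖ * ω.w k) : W ω :=
  (⟨fun k => a k * (ω.w k : ℂ), by
    apply memℓp_gen
    refine h.congr fun k => ?_
    rw [norm_mul, norm_w]
    simp⟩ : lp (fun _ : ℤ => ℂ) 1)

@[simp] theorem co_ofSeq (a : ℤ → ℂ) (h : Summable fun k => ‖a k‖ * ω.w k) (k : ℤ) :
    (ofSeq a h).co k = a k := by
  show a k * (ω.w k : ℂ) / (ω.w k : ℂ) = a k
  rw [mul_div_assoc, div_self (w_ne ω k), mul_one]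

@[simp] theorem co_add (f g : W ω) (k : ℤ) : (f + g).co k = f.co k + g.co k := by
  show ((f : lp (fun _ : ℤ => ℂ) 1) + (g : lp (fun _ : ℤ => ℂ) 1)).1 k / _ = _
  unfold co
  rw [← add_div]
  rfl

@[simp] theorem co_sub (f g : W ω) (k : ℤ) : (f - g).co k = f.co k - g.co k := by
  show ((f : lp (fun _ : ℤ => ℂ) 1) - (g : lp (fun _ : ℤ => ℂ) 1)).1 k / _ = _
  unfold co
  rw [← sub_div]
  rfl

@[simp] theorem co_neg (f : W ω) (k : ℤ) : (-f).co k = - f.co k := by
  show (-(f : lp (fun _ : ℤ => ℂ) 1)).1 k / _ = _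
  unfold co
  rw [← neg_div]
  rfl

@[simp] theorem co_zero (k : ℤ) : (0 : W ω).co k = 0 := by
  show (0 : lp (fun _ : ℤ => ℂ) 1).1 k / _ = _
  exact zero_div _

@[simp] theorem co_smul (c : ℂ) (f : W ω) (k : ℤ) : (c • f).co k = c * f.co k := by
  show (c • (f : lp (fun _ : ℤ => ℂ) 1)).1 k / _ = _
  unfold co
  rw [← mul_div_assoc]
  rfl

theorem norm_co_le (f : W ω) (k : ℤ) : ‖f.co k‖ * ω.w k ≤ ‖f‖ := by
  rw [norm_eq]
  exact f.summ.le_tsum k (fun j _ => mul_nonneg (norm_nonneg _) (ω.pos j).le)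

theorem norm_le_of {f : W ω} {C : ℝ} (h : ∑' k, ‖f.co k‖ * ω.w k ≤ C) : ‖f‖ ≤ C := by
  rw [norm_eq]; exact h

/-! ### Multiplication -/

theorem summ_prod (f g : W ω) :
    Summable fun p : ℤ × ℤ => (‖f.co p.1‖ * ω.w p.1) * (‖g.co p.2‖ * ω.w p.2) :=
  f.summ.mul_of_nonneg g.summ (fun j => mul_nonneg (norm_nonneg _) (ω.pos j).le)
    (fun j => mul_nonneg (norm_nonneg _) (ω.pos j).le)

/-- shear of the plane. -/
def shear : ℤ × ℤ ≃ ℤ × ℤ where
  toFun p := (p.2, p.1 - p.2)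
  invFun p := (p.1 + p.2, p.1)
  left_inv p := by ext <;> simp
  right_inv p := by ext <;> simp

theorem summ_conv (f g : W ω) :
    Summable fun p : ℤ × ℤ => ‖f.co p.2 * g.co (p.1 - p.2)‖ * ω.w p.1 := by
  have h := (Equiv.summable_iff shear).2 (summ_prod f g)
  refine Summable.of_nonneg_of_le (fun p => mul_nonneg (norm_nonneg _) (ω.pos _).le)
    (fun p => ?_) h
  show _ ≤ (‖f.co p.2‖ * ω.w p.2) * (‖g.co (p.1 - p.2)‖ * ω.w (p.1 - p.2))
  have h3 : ω.w p.1 ≤ ω.w p.2 * ω.w (p.1 - p.2) := by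
    have := ω.sub p.2 (p.1 - p.2)
    rwa [add_sub_cancel] at this
  rw [norm_mul]
  calc ‖f.co p.2‖ * ‖g.co (p.1 - p.2)‖ * ω.w p.1
      ≤ ‖f.co p.2‖ * ‖g.co (p.1 - p.2)‖ * (ω.w p.2 * ω.w (p.1 - p.2)) :=
        mul_le_mul_of_nonneg_left h3 (by positivity)
    _ = _ := by ring

theorem summ_conv' (f g : W ω) (n : ℤ) :
    Summable fun i => ‖f.co i * g.co (n - i)‖ := by
  have h := (summ_conv f g).prod_factor n
  have h2 := h.mul_right (ω.w n)⁻¹
  refine h2.congr fun i => ?_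
  rw [mul_assoc, mul_inv_cancel₀ (ω.pos n).ne', mul_one]

/-- coefficients of the product. -/
def conv (f g : W ω) (n : ℤ) : ℂ := ∑' i, f.co i * g.co (n - i)

theorem norm_conv_le (f g : W ω) (n : ℤ) :
    ‖conv f g n‖ * ω.w n ≤ ∑' i, ‖f.co i * g.co (n - i)‖ * ω.w n := by
  rw [tsum_mul_right]
  exact mul_le_mul_of_nonneg_right (norm_tsum_le_tsum_norm (summ_conv' f g n)) (ω.pos n).le

theorem summ_mul (f g : W ω) : Summable fun n => ‖conv f g n‖ * ω.w n :=
  Summable.of_nonneg_of_le (fun n => mul_nonneg (norm_nonneg _) (ω.pos _).le)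
    (norm_conv_le f g) (summ_conv f g).prod

instance : Mul (W ω) := ⟨fun f g => ofSeq (conv f g) (summ_mul f g)⟩

theorem co_mul (f g : W ω) (n : ℤ) : (f * g).co n = ∑' i, f.co i * g.co (n - i) :=
  co_ofSeq _ _ _

theorem norm_mul_le' (f g : W ω) : ‖f * g‖ ≤ ‖f‖ * ‖g‖ := by
  have h1 : ‖f * g‖ ≤ ∑' n, ∑' i, ‖f.co i * g.co (n - i)‖ * ω.w n := by
    rw [norm_eq]
    refine (f * g).summ.tsum_le_tsum (fun n => ?_) (summ_conv f g).prod
    rw [co_mul]
    exact norm_conv_le f g n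
  refine h1.trans ?_
  have h4 := Equiv.tsum_eq shear
    (fun p : ℤ × ℤ => (‖f.co p.1‖ * ω.w p.1) * (‖g.co p.2‖ * ω.w p.2))
  rw [← Summable.tsum_prod (summ_conv f g), norm_eq f, norm_eq g,
    f.summ.tsum_mul_tsum g.summ (summ_prod f g), ← h4]
  refine (summ_conv f g).tsum_le_tsum (fun p => ?_)
    ((Equiv.summable_iff shear).2 (summ_prod f g))
  show _ ≤ (‖f.co p.2‖ * ω.w p.2) * (‖g.co (p.1 - p.2)‖ * ω.w (p.1 - p.2))
  have h3 : ω.w p.1 ≤ ω.w p.2 * ω.w (p.1 - p.2) := by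
    have := ω.sub p.2 (p.1 - p.2)
    rwa [add_sub_cancel] at this
  rw [norm_mul]
  calc ‖f.co p.2‖ * ‖g.co (p.1 - p.2)‖ * ω.w p.1
      ≤ ‖f.co p.2‖ * ‖g.co (p.1 - p.2)‖ * (ω.w p.2 * ω.w (p.1 - p.2)) :=
        mul_le_mul_of_nonneg_left h3 (by positivity)
    _ = _ := by ring

theorem mul_comm' (f g : W ω) : f * g = g * f := by
  apply ext
  intro n
  rw [co_mul, co_mul, ← Equiv.tsum_eq (Equiv.subLeft n)]
  refine tsum_congr fun i => ?_
  simp only [Equiv.subLeft_apply, sub_sub_cancel]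
  ring

theorem summ_conv1 (f g : W ω) (n : ℤ) : Summable fun i => f.co i * g.co (n - i) :=
  (summ_conv' f g n).of_norm

theorem add_mul' (f g h : W ω) : (f + g) * h = f * h + g * h := by
  apply ext
  intro n
  rw [co_add, co_mul, co_mul, co_mul, ← (summ_conv1 f h n).tsum_add (summ_conv1 g h n)]
  refine tsum_congr fun i => ?_
  rw [co_add]; ring

theorem smul_mul' (c : ℂ) (f h : W ω) : (c • f) * h = c • (f * h) := by
  apply ext
  intro n
  rw [co_smul, co_mul, co_mul, ← tsum_mul_left]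
  refine tsum_congr fun i => ?_
  rw [co_smul]; ring

/-- a monomial. -/
def mono (ω : Wt) (k : ℤ) (c : ℂ) : W ω :=
  ofSeq (Pi.single k c) (by
    refine summable_of_ne_finset_zero (s := {k}) fun j hj => ?_
    rw [Finset.mem_singleton] at hj
    rw [Pi.single_eq_of_ne hj, norm_zero, zero_mul])

theorem co_mono (k : ℤ) (c : ℂ) (j : ℤ) : (mono ω k c).co j = if j = k then c else 0 := by
  unfold mono
  rw [co_ofSeq, Pi.single_apply]

theorem norm_mono (k : ℤ) (c : ℂ) : ‖mono ω k c‖ = ‖c‖ * ω.w k := by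
  rw [norm_eq, tsum_eq_single k]
  · rw [co_mono, if_pos rfl]
  · intro j hj
    rw [co_mono, if_neg hj, norm_zero, zero_mul]

instance : One (W ω) := ⟨mono ω 0 1⟩

theorem one_def : (1 : W ω) = mono ω 0 1 := rfl

theorem co_one (k : ℤ) : (1 : W ω).co k = if k = 0 then 1 else 0 := co_mono 0 1 k

theorem co_mono_mul (k : ℤ) (c : ℂ) (f : W ω) (n : ℤ) :
    (mono ω k c * f).co n = c * f.co (n - k) := by
  rw [co_mul, tsum_eq_single k]
  · rw [co_mono, if_pos rfl]
  · intro j hj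
    rw [co_mono, if_neg hj, zero_mul]

theorem one_mul' (f : W ω) : 1 * f = f := by
  apply ext
  intro n
  rw [one_def, co_mono_mul, one_mul, sub_zero]

/-- another shear -/
def shear2 : ℤ × ℤ ≃ ℤ × ℤ where
  toFun p := (p.2, p.1 - p.2)
  invFun p := (p.1 + p.2, p.1)
  left_inv p := by ext <;> simp
  right_inv p := by ext <;> simp

theorem mul_assoc' (f g h : W ω) : f * g * h = f * (g * h) := by
  apply ext
  intro n
  have hs : Summable fun p : ℤ × ℤ => f.co p.1 * g.co p.2 * h.co (n - p.1 - p.2) := by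
    apply Summable.of_norm
    refine Summable.of_nonneg_of_le (fun p => norm_nonneg _) (fun p => ?_)
      ((summ_prod f g).mul_left (‖h‖ / ω.w n))
    have h1 := norm_co_le h (n - p.1 - p.2)
    have h2 : ω.w n ≤ ω.w p.1 * ω.w p.2 * ω.w (n - p.1 - p.2) := by
      have e1 := ω.sub (p.1 + p.2) (n - p.1 - p.2)
      have e2 : p.1 + p.2 + (n - p.1 - p.2) = n := by ring
      rw [e2] at e1
      exact e1.trans (mul_le_mul_of_nonneg_right (ω.sub _ _) (ω.pos _).le)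
    rw [norm_mul, norm_mul, div_mul_eq_mul_div, le_div_iff₀ (ω.pos n)]
    calc ‖f.co p.1‖ * ‖g.co p.2‖ * ‖h.co (n - p.1 - p.2)‖ * ω.w n
        ≤ ‖f.co p.1‖ * ‖g.co p.2‖ * ‖h.co (n - p.1 - p.2)‖ *
          (ω.w p.1 * ω.w p.2 * ω.w (n - p.1 - p.2)) :=
          mul_le_mul_of_nonneg_left h2 (by positivity)
      _ = (‖h.co (n - p.1 - p.2)‖ * ω.w (n - p.1 - p.2)) *
          ((‖f.co p.1‖ * ω.w p.1) * (‖g.co p.2‖ * ω.w p.2)) := by ring
      _ ≤ ‖h‖ * ((‖f.co p.1‖ * ω.w p.1) * (‖g.co p.2‖ * ω.w p.2)) :=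
          mul_le_mul_of_nonneg_right h1
            (mul_nonneg (mul_nonneg (norm_nonneg _) (ω.pos _).le)
              (mul_nonneg (norm_nonneg _) (ω.pos _).le))
  have hs2 := (Equiv.summable_iff shear2).2 hs
  have e1 : (f * g * h).co n =
      ∑' p : ℤ × ℤ, f.co p.1 * g.co p.2 * h.co (n - p.1 - p.2) := by
    rw [← Equiv.tsum_eq shear2]
    refine Eq.trans ?_ (Summable.tsum_prod hs2).symm
    rw [co_mul]
    refine tsum_congr fun i => ?_
    rw [co_mul, ← tsum_mul_right]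
    refine tsum_congr fun j => ?_
    show f.co j * g.co (i - j) * h.co (n - i) = f.co j * g.co (i - j) * h.co (n - j - (i - j))
    congr 2
    ring
  have e2 : (f * (g * h)).co n =
      ∑' p : ℤ × ℤ, f.co p.1 * g.co p.2 * h.co (n - p.1 - p.2) := by
    rw [Summable.tsum_prod hs, co_mul]
    refine tsum_congr fun i => ?_
    rw [co_mul, ← tsum_mul_left]
    refine tsum_congr fun j => ?_
    ring
  rw [e1, e2]

instance : CommRing (W ω) :=
  { (inferInstance : AddCommGroup (W ω)) with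
    mul := (· * ·)
    one := 1
    mul_assoc := mul_assoc'
    one_mul := one_mul'
    mul_one := fun f => by rw [mul_comm', one_mul']
    left_distrib := fun f g h => by rw [mul_comm' f, add_mul', mul_comm' g, mul_comm' h]
    right_distrib := add_mul'
    mul_comm := mul_comm'
    zero_mul := fun f => by
      apply ext; intro n; rw [co_mul]; simp
    mul_zero := fun f => by
      apply ext; intro n; rw [co_mul]; simp }

instance : NormedCommRing (W ω) :=
  { (inferInstance : NormedAddCommGroup (W ω)), (inferInstance : CommRing (W ω)) with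
    norm_mul_le := norm_mul_le' }

instance : Algebra ℂ (W ω) :=
  Algebra.ofModule smul_mul' (fun c f g => by
    rw [mul_comm' f, smul_mul', mul_comm' g])

instance : NormedAlgebra ℂ (W ω) :=
  { (inferInstance : Algebra ℂ (W ω)) with
    norm_smul_le := fun c f => norm_smul_le c f }

instance : NormOneClass (W ω) := ⟨by
  rw [one_def, norm_mono, norm_one, ω.zero, one_mul]⟩

/-! ### Supports -/

/-- all exponents of `f` lie in `S`. -/
def Supp (S : Set ℤ) (f : W ω) : Prop := ∀ k, k ∉ S → f.co k = 0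

theorem Supp.mono_set {S T : Set ℤ} (h : S ⊆ T) {f : W ω} (hf : Supp S f) : Supp T f :=
  fun k hk => hf k (fun h2 => hk (h h2))

theorem supp_univ (f : W ω) : Supp Set.univ f := fun k hk => absurd (Set.mem_univ k) hk

theorem Supp.add {S : Set ℤ} {f g : W ω} (hf : Supp S f) (hg : Supp S g) : Supp S (f + g) :=
  fun k hk => by rw [co_add, hf k hk, hg k hk, add_zero]

theorem Supp.sub {S : Set ℤ} {f g : W ω} (hf : Supp S f) (hg : Supp S g) : Supp S (f - g) :=
  fun k hk => by rw [co_sub, hf k hk, hg k hk, sub_zero]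

theorem Supp.neg {S : Set ℤ} {f : W ω} (hf : Supp S f) : Supp S (-f) :=
  fun k hk => by rw [co_neg, hf k hk, neg_zero]

theorem Supp.smul {S : Set ℤ} {f : W ω} (c : ℂ) (hf : Supp S f) : Supp S (c • f) :=
  fun k hk => by rw [co_smul, hf k hk, mul_zero]

theorem supp_zero (S : Set ℤ) : Supp S (0 : W ω) := fun k _ => co_zero k

theorem Supp.mul {S T U : Set ℤ} (h : ∀ i ∈ S, ∀ j ∈ T, i + j ∈ U) {f g : W ω}
    (hf : Supp S f) (hg : Supp T g) : Supp U (f * g) := by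
  intro n hn
  rw [co_mul]
  have : ∀ i, f.co i * g.co (n - i) = 0 := by
    intro i
    by_cases hi : i ∈ S
    · by_cases hj : n - i ∈ T
      · exact absurd (by simpa using h i hi (n - i) hj) hn
      · rw [hg _ hj, mul_zero]
    · rw [hf _ hi, zero_mul]
  simp only [this, tsum_zero]

theorem supp_mono {S : Set ℤ} {k : ℤ} (hk : k ∈ S) (c : ℂ) : Supp S (mono ω k c) := by
  intro j hj
  rw [co_mono, if_neg]
  rintro rfl
  exact hj hk

theorem supp_one {S : Set ℤ} (h0 : (0 : ℤ) ∈ S) : Supp S (1 : W ω) := supp_mono h0 1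

theorem continuous_co (k : ℤ) : Continuous fun f : W ω => f.co k := by
  have h : LipschitzWith (Real.toNNReal (ω.w k)⁻¹) fun f : W ω => f.co k := by
    refine LipschitzWith.of_dist_le_mul fun f g => ?_
    rw [dist_eq_norm, dist_eq_norm, Real.coe_toNNReal _ (inv_nonneg.2 (ω.pos k).le),
      inv_mul_eq_div, le_div_iff₀ (ω.pos k), ← co_sub]
    exact norm_co_le _ _
  exact h.continuous

theorem isClosed_supp (S : Set ℤ) : IsClosed {f : W ω | Supp S f} := by
  have : {f : W ω | Supp S f} = ⋂ k : ℤ, {f : W ω | k ∉ S → f.co k = 0} := by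
    ext f; simp [Supp]
  rw [this]
  refine isClosed_iInter fun k => ?_
  by_cases hk : k ∈ S
  · simp [hk]
  · simp only [hk, not_false_eq_true, forall_const]
    exact isClosed_eq (continuous_co k) continuous_const

/-- The closed subalgebra of elements with exponents in `S`. -/
def subalg (ω : Wt) (S : Set ℤ) (h0 : (0 : ℤ) ∈ S) (hS : ∀ i ∈ S, ∀ j ∈ S, i + j ∈ S) :
    Subalgebra ℂ (W ω) where
  carrier := {f | Supp S f}
  mul_mem' hf hg := Supp.mul hS hf hg
  add_mem' hf hg := Supp.add hf hg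
  algebraMap_mem' c := by
    show Supp S _
    rw [Algebra.algebraMap_eq_smul_one]
    exact (supp_one h0).smul c

theorem mem_subalg {S : Set ℤ} {h0 : (0 : ℤ) ∈ S} {hS : ∀ i ∈ S, ∀ j ∈ S, i + j ∈ S}
    {f : W ω} : f ∈ subalg ω S h0 hS ↔ Supp S f := Iff.rfl

theorem isClosed_subalg (ω : Wt) (S : Set ℤ) (h0 : (0 : ℤ) ∈ S)
    (hS : ∀ i ∈ S, ∀ j ∈ S, i + j ∈ S) : IsClosed (subalg ω S h0 hS : Set (W ω)) :=
  isClosed_supp S

instance (ω : Wt) (S : Set ℤ) (h0 : (0 : ℤ) ∈ S) (hS : ∀ i ∈ S, ∀ j ∈ S, i + j ∈ S) :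
    CompleteSpace (subalg ω S h0 hS) :=
  (isClosed_subalg ω S h0 hS).completeSpace_coe

/-! ### Projections and change of weight -/

theorem summ_ind {ω ω' : Wt} {S : Set ℤ} (h : ∀ k ∈ S, ω'.w k ≤ ω.w k) (f : W ω) :
    Summable fun k => ‖S.indicator f.co k‖ * ω'.w k := by
  refine Summable.of_nonneg_of_le (fun k => mul_nonneg (norm_nonneg _) (ω'.pos k).le)
    (fun k => ?_) f.summ
  by_cases hk : k ∈ S
  · rw [Set.indicator_of_mem hk]
    exact mul_le_mul_of_nonneg_left (h k hk) (norm_nonneg _)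
  · rw [Set.indicator_of_notMem hk, norm_zero, zero_mul]
    exact mul_nonneg (norm_nonneg _) (ω.pos k).le

/-- The part of `f` with exponents in `S`, in the algebra with weight `ω'`. -/
def lift {ω ω' : Wt} (S : Set ℤ) (h : ∀ k ∈ S, ω'.w k ≤ ω.w k) : W ω →L[ℂ] W ω' :=
  LinearMap.mkContinuous
    { toFun := fun f => ofSeq (S.indicator f.co) (summ_ind h f)
      map_add' := fun f g => by
        apply ext; intro k
        rw [co_ofSeq, co_add, co_ofSeq, co_ofSeq]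
        by_cases hk : k ∈ S
        · simp [Set.indicator_of_mem hk]
        · simp [Set.indicator_of_notMem hk]
      map_smul' := fun c f => by
        apply ext; intro k
        rw [co_ofSeq, RingHom.id_apply, co_smul, co_ofSeq]
        by_cases hk : k ∈ S
        · simp [Set.indicator_of_mem hk]
        · simp [Set.indicator_of_notMem hk] } 1 (fun f => by
    rw [one_mul, norm_eq, norm_eq]
    refine Summable.tsum_le_tsum (fun k => ?_) (W.summ _) f.summ
    show ‖(ofSeq (S.indicator f.co) (summ_ind h f)).co k‖ * _ ≤ _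
    rw [co_ofSeq]
    by_cases hk : k ∈ S
    · rw [Set.indicator_of_mem hk]
      exact mul_le_mul_of_nonneg_left (h k hk) (norm_nonneg _)
    · rw [Set.indicator_of_notMem hk, norm_zero, zero_mul]
      exact mul_nonneg (norm_nonneg _) (ω.pos k).le)

theorem co_lift {ω ω' : Wt} (S : Set ℤ) (h : ∀ k ∈ S, ω'.w k ≤ ω.w k) (f : W ω) (k : ℤ) :
    (lift S h f).co k = S.indicator f.co k := co_ofSeq _ (summ_ind h f) _

theorem co_lift_mem {ω ω' : Wt} {S : Set ℤ} (h : ∀ k ∈ S, ω'.w k ≤ ω.w k) (f : W ω) {k : ℤ}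
    (hk : k ∈ S) : (lift S h f).co k = f.co k := by
  rw [co_lift, Set.indicator_of_mem hk]

theorem supp_lift {ω ω' : Wt} {S : Set ℤ} (h : ∀ k ∈ S, ω'.w k ≤ ω.w k) (f : W ω) :
    Supp S (lift S h f) := fun k hk => by
  rw [co_lift, Set.indicator_of_notMem hk]

theorem norm_lift_le {ω ω' : Wt} {S : Set ℤ} (h : ∀ k ∈ S, ω'.w k ≤ ω.w k) (f : W ω) :
    ‖lift S h f‖ ≤ ‖f‖ := by
  have h2 := (lift S h).le_of_opNorm_le (LinearMap.mkContinuous_norm_le _ zero_le_one _) f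
  rwa [one_mul] at h2

theorem lift_mul {ω ω' : Wt} {S : Set ℤ} (h : ∀ k ∈ S, ω'.w k ≤ ω.w k)
    (hS : ∀ i ∈ S, ∀ j ∈ S, i + j ∈ S) {f g : W ω} (hf : Supp S f) (hg : Supp S g) :
    lift S h (f * g) = lift S h f * lift S h g := by
  apply ext
  intro n
  by_cases hn : n ∈ S
  · rw [co_lift_mem h _ hn, co_mul, co_mul]
    refine tsum_congr fun i => ?_
    rw [co_lift, co_lift]
    congr 1
    · by_cases hi : i ∈ S
      · rw [Set.indicator_of_mem hi]
      · rw [Set.indicator_of_notMem hi, hf i hi]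
    · by_cases hi : n - i ∈ S
      · rw [Set.indicator_of_mem hi]
      · rw [Set.indicator_of_notMem hi, hg _ hi]
  · rw [supp_lift h _ n hn, Supp.mul hS (supp_lift h f) (supp_lift h g) n hn]

theorem lift_one {ω ω' : Wt} {S : Set ℤ} (h : ∀ k ∈ S, ω'.w k ≤ ω.w k) (h0 : (0 : ℤ) ∈ S) :
    lift S h (1 : W ω) = (1 : W ω') := by
  apply ext
  intro n
  rw [co_lift, co_one]
  by_cases hn : n ∈ S
  · rw [Set.indicator_of_mem hn, co_one]
  · rw [Set.indicator_of_notMem hn, if_neg]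
    rintro rfl
    exact hn h0

/-- Restriction to a smaller weight. -/
def res {ω ω' : Wt} (h : ∀ k, ω'.w k ≤ ω.w k) : W ω →ₐ[ℂ] W ω' :=
  AlgHom.ofLinearMap (lift Set.univ (fun k _ => h k)).toLinearMap
    (lift_one _ (Set.mem_univ 0))
    (fun f g => lift_mul _ (fun _ _ _ _ => Set.mem_univ _) (supp_univ f) (supp_univ g))

theorem co_res {ω ω' : Wt} (h : ∀ k, ω'.w k ≤ ω.w k) (f : W ω) (k : ℤ) :
    (res h f).co k = f.co k := co_lift_mem (fun k _ => h k) f (Set.mem_univ k)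

theorem norm_res_le {ω ω' : Wt} (h : ∀ k, ω'.w k ≤ ω.w k) (f : W ω) : ‖res h f‖ ≤ ‖f‖ :=
  norm_lift_le (fun k _ => h k) f

theorem res_injective {ω ω' : Wt} (h : ∀ k, ω'.w k ≤ ω.w k) :
    Function.Injective (res h) := by
  intro f g hfg
  apply ext
  intro k
  rw [← co_res h f, ← co_res h g, hfg]

theorem supp_res {ω ω' : Wt} (h : ∀ k, ω'.w k ≤ ω.w k) {S : Set ℤ} {f : W ω} :
    Supp S (res h f) ↔ Supp S f := by
  simp only [Supp, co_res]

/-- The part of `f` with exponents in `S`. -/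
def proj (S : Set ℤ) : W ω →L[ℂ] W ω := lift S (fun _ _ => le_rfl)

theorem co_proj (S : Set ℤ) (f : W ω) (k : ℤ) : (proj S f).co k = S.indicator f.co k :=
  co_lift _ _ _ _

theorem supp_proj (S : Set ℤ) (f : W ω) : Supp S (proj S f) := supp_lift _ _

theorem proj_of_supp {S : Set ℤ} {f : W ω} (hf : Supp S f) : proj S f = f := by
  apply ext
  intro k
  rw [co_proj]
  by_cases hk : k ∈ S
  · rw [Set.indicator_of_mem hk]
  · rw [Set.indicator_of_notMem hk, hf k hk]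

theorem proj_add_compl (S : Set ℤ) (f : W ω) : proj S f + proj Sᶜ f = f := by
  apply ext
  intro k
  rw [co_add, co_proj, co_proj]
  by_cases hk : k ∈ S
  · rw [Set.indicator_of_mem hk, Set.indicator_of_notMem (fun h : k ∈ Sᶜ => h hk), add_zero]
  · rw [Set.indicator_of_notMem hk, Set.indicator_of_mem (by exact hk), zero_add]

theorem norm_proj_le (S : Set ℤ) (f : W ω) : ‖proj S f‖ ≤ ‖f‖ := norm_lift_le _ _

theorem norm_proj_add (S : Set ℤ) (f : W ω) : ‖proj S f‖ + ‖proj Sᶜ f‖ = ‖f‖ := by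
  rw [norm_eq (proj S f), norm_eq (proj Sᶜ f), norm_eq f,
    ← (proj S f).summ.tsum_add (proj Sᶜ f).summ]
  refine tsum_congr fun k => ?_
  rw [co_proj, co_proj]
  by_cases hk : k ∈ S
  · rw [Set.indicator_of_mem hk, Set.indicator_of_notMem (fun h : k ∈ Sᶜ => h hk)]
    simp
  · rw [Set.indicator_of_notMem hk, Set.indicator_of_mem (by exact hk)]
    simp

/-! ### Factorisation -/

/-- Birkhoff factorisation near 1. -/
theorem exists_factor (S : Set ℤ) {e : W ω} {δ : ℝ} (hδ : δ ≤ 1 / 4) (he : ‖e‖ ≤ δ) :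
    ∃ p q : W ω, Supp S p ∧ Supp Sᶜ q ∧ (1 + p) * (1 + q) = 1 + e ∧
      ‖p‖ + ‖q‖ ≤ 2 * δ := by
  have hδ0 : 0 ≤ δ := (norm_nonneg _).trans he
  set T : W ω → W ω := fun u => e - proj S u * proj Sᶜ u with hT
  have hmaps : Set.MapsTo T (Metric.closedBall 0 (2 * δ)) (Metric.closedBall 0 (2 * δ)) := by
    intro u hu
    rw [mem_closedBall_zero_iff] at hu ⊢
    have h1 := norm_proj_add S u
    have h2 : ‖proj S u * proj Sᶜ u‖ ≤ ‖proj S u‖ * ‖proj Sᶜ u‖ := norm_mul_le _ _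
    have h3 : ‖T u‖ ≤ ‖e‖ + ‖proj S u * proj Sᶜ u‖ := norm_sub_le _ _
    have h4 := norm_nonneg (proj S u)
    have h5 := norm_nonneg (proj Sᶜ u)
    nlinarith [sq_nonneg (‖proj S u‖ - ‖proj Sᶜ u‖)]
  have hlip : ∀ u ∈ Metric.closedBall (0 : W ω) (2 * δ), ∀ v ∈ Metric.closedBall (0 : W ω) (2 * δ),
      ‖T u - T v‖ ≤ 1 / 2 * ‖u - v‖ := by
    intro u hu v hv
    rw [mem_closedBall_zero_iff] at hu hv
    have e1 : T u - T v = - (proj S (u - v) * proj Sᶜ u + proj S v * proj Sᶜ (u - v)) := by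
      simp only [hT, map_sub]
      ring
    rw [e1, norm_neg]
    have h1 := norm_proj_add S (u - v)
    have h2 : ‖proj Sᶜ u‖ ≤ 1 / 2 := (norm_proj_le _ _).trans (hu.trans (by linarith))
    have h3 : ‖proj S v‖ ≤ 1 / 2 := (norm_proj_le _ _).trans (hv.trans (by linarith))
    calc ‖proj S (u - v) * proj Sᶜ u + proj S v * proj Sᶜ (u - v)‖
        ≤ ‖proj S (u - v) * proj Sᶜ u‖ + ‖proj S v * proj Sᶜ (u - v)‖ := norm_add_le _ _
      _ ≤ ‖proj S (u - v)‖ * ‖proj Sᶜ u‖ + ‖proj S v‖ * ‖proj Sᶜ (u - v)‖ :=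
          add_le_add (norm_mul_le _ _) (norm_mul_le _ _)
      _ ≤ ‖proj S (u - v)‖ * (1 / 2) + (1 / 2) * ‖proj Sᶜ (u - v)‖ := by
          gcongr
      _ = 1 / 2 * ‖u - v‖ := by rw [← h1]; ring
  have hcl : IsClosed (Metric.closedBall (0 : W ω) (2 * δ)) := Metric.isClosed_closedBall
  have hcomp : IsComplete (Metric.closedBall (0 : W ω) (2 * δ)) := hcl.isComplete
  have hK : ContractingWith (1 / 2 : NNReal) (hmaps.restrict T _ _) := by
    refine ⟨by rw [← NNReal.coe_lt_coe]; norm_num, ?_⟩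
    refine LipschitzWith.of_dist_le_mul fun u v => ?_
    rw [Subtype.dist_eq, Subtype.dist_eq, dist_eq_norm, dist_eq_norm]
    simpa using hlip u.1 u.2 v.1 v.2
  obtain ⟨u, hu, hfix, -⟩ := hK.exists_fixedPoint' hcomp hmaps
    (Metric.mem_closedBall_self (by linarith)) (edist_ne_top _ _)
  refine ⟨proj S u, proj Sᶜ u, supp_proj _ _, supp_proj _ _, ?_, ?_⟩
  · have h1 : e - proj S u * proj Sᶜ u = u := hfix
    have h2 := proj_add_compl S u
    linear_combination h2 - h1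
  · rw [norm_proj_add]
    exact mem_closedBall_zero_iff.1 hu

/-- `1 + p` has an inverse with exponents in `S`. -/
theorem exists_inv {S : Set ℤ} (h0 : (0 : ℤ) ∈ S) (hS : ∀ i ∈ S, ∀ j ∈ S, i + j ∈ S)
    {p : W ω} (hp : Supp S p) (hn : ‖p‖ < 1) : ∃ u : W ω, Supp S u ∧ (1 + p) * u = 1 := by
  have h1 : ‖(⟨-p, hp.neg⟩ : subalg ω S h0 hS)‖ < 1 := by
    show ‖-p‖ < 1
    rwa [norm_neg]
  have h2 := isUnit_one_sub_of_norm_lt_one h1
  obtain ⟨u, hu⟩ := h2.exists_right_inv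
  refine ⟨u.1, u.2, ?_⟩
  have h3 := congrArg Subtype.val hu
  have h4 : (1 + p) * u.1 = (1 - -p) * u.1 := by rw [sub_neg_eq_add]
  rw [h4]
  exact h3

/-- Elements with finitely many exponents. -/
theorem eq_sum_of_supp {s : Finset ℤ} {f : W ω} (hf : Supp (s : Set ℤ) f) :
    f = ∑ k ∈ s, mono ω k (f.co k) := by
  classical
  have hsum : ∀ (t : Finset ℤ) (j : ℤ), (∑ k ∈ t, mono ω k (f.co k)).co j =
      ∑ k ∈ t, (mono ω k (f.co k)).co j := by
    intro t j
    induction t using Finset.induction_on with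
    | empty => simp
    | insert a t ha ih => rw [Finset.sum_insert ha, Finset.sum_insert ha, co_add, ih]
  apply ext
  intro j
  rw [hsum]
  simp only [co_mono]
  rw [Finset.sum_ite_eq]
  by_cases hj : j ∈ s
  · rw [if_pos hj]
  · rw [if_neg hj]
    exact hf j (by simpa using hj)

/-! ### Evaluation -/

/-- The value at `t`. -/
def val (t : ℂ) (f : W ω) : ℂ := ∑' k, f.co k * t ^ k

theorem summ_val {S : Set ℤ} {t : ℂ} (hb : ∀ i ∈ S, ‖t ^ i‖ ≤ ω.w i) {f : W ω}
    (hf : Supp S f) : Summable fun k => ‖f.co k * t ^ k‖ := by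
  refine Summable.of_nonneg_of_le (fun k => norm_nonneg _) (fun k => ?_) f.summ
  by_cases hk : k ∈ S
  · rw [norm_mul]
    exact mul_le_mul_of_nonneg_left (hb k hk) (norm_nonneg _)
  · rw [hf k hk, zero_mul, norm_zero, zero_mul]

theorem norm_val_le {S : Set ℤ} {t : ℂ} (hb : ∀ i ∈ S, ‖t ^ i‖ ≤ ω.w i) {f : W ω}
    (hf : Supp S f) : ‖val t f‖ ≤ ‖f‖ := by
  refine (norm_tsum_le_tsum_norm (summ_val hb hf)).trans ?_
  rw [norm_eq]
  refine (summ_val hb hf).tsum_le_tsum (fun k => ?_) f.summ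
  by_cases hk : k ∈ S
  · rw [norm_mul]
    exact mul_le_mul_of_nonneg_left (hb k hk) (norm_nonneg _)
  · rw [hf k hk, zero_mul, norm_zero, zero_mul]

theorem val_add {S : Set ℤ} {t : ℂ} (hb : ∀ i ∈ S, ‖t ^ i‖ ≤ ω.w i) {f g : W ω}
    (hf : Supp S f) (hg : Supp S g) : val t (f + g) = val t f + val t g := by
  unfold val
  rw [← (summ_val hb hf).of_norm.tsum_add (summ_val hb hg).of_norm]
  refine tsum_congr fun k => ?_
  rw [co_add]; ring

theorem val_smul (t c : ℂ) (f : W ω) : val t (c • f) = c * val t f := by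
  unfold val
  rw [← tsum_mul_left]
  refine tsum_congr fun k => ?_
  rw [co_smul]; ring

theorem val_mono (t : ℂ) (k : ℤ) (c : ℂ) : val t (mono ω k c) = c * t ^ k := by
  unfold val
  rw [tsum_eq_single k]
  · rw [co_mono, if_pos rfl]
  · intro j hj
    rw [co_mono, if_neg hj, zero_mul]

theorem val_one (t : ℂ) : val t (1 : W ω) = 1 := by
  rw [one_def, val_mono]; simp

theorem val_mul {S : Set ℤ} {t : ℂ} (hS : ∀ i ∈ S, ∀ j ∈ S, t ^ (i + j) = t ^ i * t ^ j)
    (hb : ∀ i ∈ S, ‖t ^ i‖ ≤ ω.w i) {f g : W ω}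
    (hf : Supp S f) (hg : Supp S g) : val t (f * g) = val t f * val t g := by
  have h1 := tsum_mul_tsum_of_summable_norm (f := fun k : ℤ => f.co k * t ^ k)
    (g := fun k : ℤ => g.co k * t ^ k) (summ_val hb hf) (summ_val hb hg)
  have h2 : Summable fun p : ℤ × ℤ => (f.co p.1 * t ^ p.1) * (g.co p.2 * t ^ p.2) :=
    summable_mul_of_summable_norm (f := fun k : ℤ => f.co k * t ^ k)
      (g := fun k : ℤ => g.co k * t ^ k) (summ_val hb hf) (summ_val hb hg)
  have h3 := (Equiv.summable_iff shear).2 h2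
  unfold val
  have h4 := Equiv.tsum_eq shear
    (fun p : ℤ × ℤ => (f.co p.1 * t ^ p.1) * (g.co p.2 * t ^ p.2))
  rw [h1, ← h4]
  refine Eq.trans ?_ (Summable.tsum_prod h3).symm
  refine tsum_congr fun n => ?_
  rw [co_mul, ← tsum_mul_right]
  refine tsum_congr fun i => ?_
  show f.co i * g.co (n - i) * t ^ n = f.co i * t ^ i * (g.co (n - i) * t ^ (n - i))
  by_cases hi : i ∈ S
  · by_cases hj : n - i ∈ S
    · have := hS i hi (n - i) hj
      rw [add_sub_cancel] at this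
      rw [this]; ring
    · rw [hg _ hj]; ring
  · rw [hf _ hi]; ring

/-- Evaluation at a nonzero point as an algebra homomorphism. -/
def ev (t : ℂ) (h0 : t ≠ 0) (ht : ∀ k : ℤ, ‖t ^ k‖ ≤ ω.w k) : W ω →ₐ[ℂ] ℂ :=
  AlgHom.ofLinearMap
    { toFun := val t
      map_add' := fun f g => val_add (S := Set.univ) (fun i _ => ht i) (supp_univ f) (supp_univ g)
      map_smul' := fun c f => val_smul t c f }
    (val_one t)
    (fun f g => val_mul (S := Set.univ) (fun i _ j _ => zpow_add₀ h0 i j) (fun i _ => ht i)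
      (supp_univ f) (supp_univ g))

theorem ev_apply (t : ℂ) (h0 : t ≠ 0) (ht : ∀ k : ℤ, ‖t ^ k‖ ≤ ω.w k) (f : W ω) :
    ev t h0 ht f = val t f := rfl

theorem norm_ev_le (t : ℂ) (h0 : t ≠ 0) (ht : ∀ k : ℤ, ‖t ^ k‖ ≤ ω.w k) (f : W ω) :
    ‖ev t h0 ht f‖ ≤ ‖f‖ := norm_val_le (S := Set.univ) (fun i _ => ht i) (supp_univ f)

theorem val_lift {ω ω' : Wt} {S : Set ℤ} (h : ∀ k ∈ S, ω'.w k ≤ ω.w k) {f : W ω}
    (hf : Supp S f) (t : ℂ) : val t (lift S h f) = val t f := by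
  unfold val
  refine tsum_congr fun k => ?_
  rw [co_lift]
  by_cases hk : k ∈ S
  · rw [Set.indicator_of_mem hk]
  · rw [Set.indicator_of_notMem hk, hf k hk]

end W

/-! ### The weights of a circle and of an annulus -/

/-- The weight of the circle of radius `r`. -/
def Wt.rad (r : ℝ) (h : 0 < r) : Wt where
  w k := r ^ k
  pos k := zpow_pos h k
  zero := zpow_zero r
  sub i j := (zpow_add₀ h.ne' i j).le

/-- The weight of the annulus between two radii. -/
def Wt.ann (r₁ r₂ : ℝ) (h₁ : 0 < r₁) (h₂ : 0 < r₂) : Wt where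
  w k := max (r₁ ^ k) (r₂ ^ k)
  pos k := lt_max_of_lt_left (zpow_pos h₁ k)
  zero := by simp
  sub i j := by
    have p1 := zpow_pos h₁ i
    have p2 := zpow_pos h₁ j
    have p3 := zpow_pos h₂ i
    have p4 := zpow_pos h₂ j
    rw [zpow_add₀ h₁.ne', zpow_add₀ h₂.ne']
    exact max_le (mul_le_mul (le_max_left _ _) (le_max_left _ _) p2.le
      (p1.le.trans (le_max_left _ _)))
      (mul_le_mul (le_max_right _ _) (le_max_right _ _) p4.le (p3.le.trans (le_max_right _ _)))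

theorem Wt.ann_nonneg {r₁ r₂ : ℝ} (h₁ : 0 < r₁) (h : r₁ ≤ r₂) {k : ℤ} (hk : 0 ≤ k) :
    (Wt.ann r₁ r₂ h₁ (h₁.trans_le h)).w k = (Wt.rad r₂ (h₁.trans_le h)).w k := by
  show max (r₁ ^ k) (r₂ ^ k) = r₂ ^ k
  obtain ⟨n, rfl⟩ := Int.eq_ofNat_of_zero_le hk
  rw [max_eq_right]
  rw [zpow_natCast, zpow_natCast]
  exact pow_le_pow_left₀ h₁.le h n

theorem Wt.ann_nonpos {r₁ r₂ : ℝ} (h₁ : 0 < r₁) (h : r₁ ≤ r₂) {k : ℤ} (hk : k ≤ 0) :
    (Wt.ann r₁ r₂ h₁ (h₁.trans_le h)).w k = (Wt.rad r₁ h₁).w k := by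
  show max (r₁ ^ k) (r₂ ^ k) = r₁ ^ k
  obtain ⟨n, hn⟩ := Int.eq_ofNat_of_zero_le (neg_nonneg.2 hk)
  have hk2 : k = -(n : ℤ) := by
    have : -k = (n : ℤ) := hn
    omega
  rw [hk2, max_eq_left]
  rw [zpow_neg, zpow_neg, zpow_natCast, zpow_natCast]
  exact inv_anti₀ (pow_pos h₁ n) (pow_le_pow_left₀ h₁.le h n)

theorem Wt.rad_le_ann_left {r₁ r₂ : ℝ} (h₁ : 0 < r₁) (h₂ : 0 < r₂) (k : ℤ) :
    (Wt.rad r₁ h₁).w k ≤ (Wt.ann r₁ r₂ h₁ h₂).w k := le_max_left _ _

theorem Wt.rad_le_ann_right {r₁ r₂ : ℝ} (h₁ : 0 < r₁) (h₂ : 0 < r₂) (k : ℤ) :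
    (Wt.rad r₂ h₂).w k ≤ (Wt.ann r₁ r₂ h₁ h₂).w k := le_max_right _ _

/-- points of the closed annulus satisfy the bound of `ev`. -/
theorem Wt.ann_zpow_le {r₁ r₂ : ℝ} (h₁ : 0 < r₁) (h₂ : 0 < r₂) {t : ℂ} (ht1 : r₁ ≤ ‖t‖)
    (ht2 : ‖t‖ ≤ r₂) (k : ℤ) : ‖t ^ k‖ ≤ (Wt.ann r₁ r₂ h₁ h₂).w k := by
  show ‖t ^ k‖ ≤ max (r₁ ^ k) (r₂ ^ k)
  rw [norm_zpow]
  rcases le_total 0 k with hk | hk
  · obtain ⟨n, rfl⟩ := Int.eq_ofNat_of_zero_le hk
    refine le_trans ?_ (le_max_right _ _)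
    rw [zpow_natCast, zpow_natCast]
    exact pow_le_pow_left₀ (norm_nonneg _) ht2 n
  · obtain ⟨n, hn⟩ := Int.eq_ofNat_of_zero_le (neg_nonneg.2 hk)
    have hk2 : k = -(n : ℤ) := by
      have : -k = (n : ℤ) := hn
      omega
    refine le_trans ?_ (le_max_left _ _)
    rw [hk2, zpow_neg, zpow_neg, zpow_natCast, zpow_natCast]
    exact inv_anti₀ (pow_pos h₁ n) (pow_le_pow_left₀ h₁.le ht1 n)

theorem Wt.rad_zpow_le {r : ℝ} (h : 0 < r) {t : ℂ} (ht : ‖t‖ = r) (k : ℤ) :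
    ‖t ^ k‖ ≤ (Wt.rad r h).w k := by
  show ‖t ^ k‖ ≤ r ^ k
  rw [norm_zpow, ht]

end Pool.Agent.Lib_MP_1858fb_w
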