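import Mathlib

/-!
Formal deformation of a curve modulo a fixed divisor: if all first order obstructions vanish, a point of a variety with
values in polynomials of degree at most `d`, together with first order deformations, extends to a
formal power series of such points.
-/

open Polynomial

namespace Pool.Agent.VF.Fm

variable {K : Type*} [Field K] {σ : Type*} {M : Type*}

/-- The power series whose coefficients of degree less than `k` vanish. -/
def J (σ : Type*) (R : Type*) [CommRing R] (k : ℕ) : Ideal (MvPowerSeries σ R) where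
  carrier := {f | ∀ μ : σ →₀ ℕ, μ.degree < k → MvPowerSeries.coeff μ f = 0}
  zero_mem' := fun μ _ => by simp
  add_mem' := fun hf hg μ hμ => by rw [map_add, hf μ hμ, hg μ hμ, add_zero]
  smul_mem' := fun c f hf μ hμ => by
    classical
    rw [smul_eq_mul, MvPowerSeries.coeff_mul]
    refine Finset.sum_eq_zero fun p hp => ?_
    rw [Finset.HasAntidiagonal.mem_antidiagonal] at hp
    have h1 : p.2.degree ≤ μ.degree := by
      rw [← hp, map_add]; exact Nat.le_add_left _ _
    rw [hf p.2 (lt_of_le_of_lt h1 hμ), mul_zero]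

section

variable {R : Type*} [CommRing R]

theorem mem_J {k : ℕ} {f : MvPowerSeries σ R} :
    f ∈ J σ R k ↔ ∀ μ : σ →₀ ℕ, μ.degree < k → MvPowerSeries.coeff μ f = 0 := Iff.rfl

theorem J_anti {a b : ℕ} (h : a ≤ b) : J σ R b ≤ J σ R a :=
  fun _ hf μ hμ => hf μ (lt_of_lt_of_le hμ h)

theorem mul_mem_J {a b : ℕ} {f g : MvPowerSeries σ R} (hf : f ∈ J σ R a) (hg : g ∈ J σ R b) :
    f * g ∈ J σ R (a + b) := by
  classical
  intro μ hμ
  rw [MvPowerSeries.coeff_mul]
  refine Finset.sum_eq_zero fun p hp => ?_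
  rw [Finset.HasAntidiagonal.mem_antidiagonal] at hp
  have h1 : p.1.degree + p.2.degree = μ.degree := by rw [← hp, map_add]
  rcases lt_or_ge p.1.degree a with h2 | h2
  · rw [hf p.1 h2, zero_mul]
  · rw [hg p.2 (by omega), mul_zero]

theorem coeff_mul_of_mem_J {k : ℕ} (f : MvPowerSeries σ R) {h : MvPowerSeries σ R}
    (hh : h ∈ J σ R k) {μ : σ →₀ ℕ} (hμ : μ.degree = k) :
    MvPowerSeries.coeff μ (f * h) = MvPowerSeries.constantCoeff f * MvPowerSeries.coeff μ h := by
  classical
  rw [MvPowerSeries.coeff_mul, Finset.sum_eq_single (0, μ)]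
  · rfl
  · intro p hp hne
    rw [Finset.HasAntidiagonal.mem_antidiagonal] at hp
    have h1 : p.1.degree + p.2.degree = μ.degree := by rw [← hp, map_add]
    rcases Nat.eq_zero_or_pos p.1.degree with h2 | h2
    · exfalso
      apply hne
      have h3 : p.1 = 0 := (Finsupp.degree_eq_zero_iff p.1).1 h2
      rw [h3, zero_add] at hp
      exact Prod.ext h3 hp
    · rw [hh p.2 (by omega), mul_zero]
  · intro h
    exact absurd (Finset.HasAntidiagonal.mem_antidiagonal.2 (zero_add μ)) h

theorem eq_zero_of_mem_J {f : MvPowerSeries σ R} (h : ∀ n, f ∈ J σ R n) : f = 0 := by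
  ext μ
  exact h (μ.degree + 1) μ (Nat.lt_succ_self _)

end

section

variable {R : Type*} [CommRing R] {A : Type*} [CommRing A] [Algebra A R]

theorem aeval_sub_mem {S : Type*} [CommRing S] [Algebra A S] (𝔞 : Ideal S) {F F' : M → S}
    (h : ∀ j, F j - F' j ∈ 𝔞) (E : MvPolynomial M A) :
    MvPolynomial.aeval F E - MvPolynomial.aeval F' E ∈ 𝔞 := by
  induction E using MvPolynomial.induction_on with
  | C a => simp
  | add p q hp hq =>
    have h1 : MvPolynomial.aeval F (p + q) - MvPolynomial.aeval F' (p + q) =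
        (MvPolynomial.aeval F p - MvPolynomial.aeval F' p) +
        (MvPolynomial.aeval F q - MvPolynomial.aeval F' q) := by rw [map_add, map_add]; ring
    rw [h1]; exact 𝔞.add_mem hp hq
  | mul_X p i hp =>
    have h1 : MvPolynomial.aeval F (p * MvPolynomial.X i) -
        MvPolynomial.aeval F' (p * MvPolynomial.X i) =
        F i * (MvPolynomial.aeval F p - MvPolynomial.aeval F' p) +
        MvPolynomial.aeval F' p * (F i - F' i) := by
      rw [map_mul, map_mul, MvPolynomial.aeval_X, MvPolynomial.aeval_X]; ring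
    rw [h1]
    exact 𝔞.add_mem (𝔞.mul_mem_left _ hp) (𝔞.mul_mem_left _ (h i))

/-- First order Taylor expansion. -/
theorem taylor_mem [Fintype M] {S : Type*} [CommRing S] [Algebra A S] (𝔞 𝔟 : Ideal S)
    (hab : ∀ x ∈ 𝔞, ∀ y ∈ 𝔞, x * y ∈ 𝔟) (F Δ : M → S) (hΔ : ∀ j, Δ j ∈ 𝔞)
    (E : MvPolynomial M A) :
    MvPolynomial.aeval (fun j => F j + Δ j) E - MvPolynomial.aeval F E -
      ∑ j, MvPolynomial.aeval F (MvPolynomial.pderiv j E) * Δ j ∈ 𝔟 := by
  classical
  induction E using MvPolynomial.induction_on with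
  | C a => simp
  | add p q hp hq =>
    have h1 : MvPolynomial.aeval (fun j => F j + Δ j) (p + q) - MvPolynomial.aeval F (p + q) -
        ∑ j, MvPolynomial.aeval F (MvPolynomial.pderiv j (p + q)) * Δ j =
        (MvPolynomial.aeval (fun j => F j + Δ j) p - MvPolynomial.aeval F p -
          ∑ j, MvPolynomial.aeval F (MvPolynomial.pderiv j p) * Δ j) +
        (MvPolynomial.aeval (fun j => F j + Δ j) q - MvPolynomial.aeval F q -
          ∑ j, MvPolynomial.aeval F (MvPolynomial.pderiv j q) * Δ j) := by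
      simp only [map_add, add_mul, Finset.sum_add_distrib]; ring
    rw [h1]; exact 𝔟.add_mem hp hq
  | mul_X p i hp =>
    have h0 : ∑ j, MvPolynomial.aeval F (MvPolynomial.pderiv j (p * MvPolynomial.X i)) * Δ j =
        (∑ j, MvPolynomial.aeval F (MvPolynomial.pderiv j p) * Δ j) * F i +
          MvPolynomial.aeval F p * Δ i := by
      have h2 : ∀ j, MvPolynomial.aeval F (MvPolynomial.pderiv j (p * MvPolynomial.X i)) * Δ j =
          MvPolynomial.aeval F (MvPolynomial.pderiv j p) * Δ j * F i +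
            (if j = i then MvPolynomial.aeval F p * Δ i else 0) := by
        intro j
        rw [MvPolynomial.pderiv_mul, map_add, map_mul, map_mul, MvPolynomial.aeval_X,
          MvPolynomial.pderiv_X]
        by_cases hj : j = i
        · subst hj
          simp only [Pi.single_eq_same, map_one, mul_one, if_true]
          ring
        · rw [Pi.single_eq_of_ne (Ne.symm hj), if_neg hj, map_zero, mul_zero, add_zero, add_zero]
          ring
      simp only [h2, Finset.sum_add_distrib, Finset.sum_mul]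
      rw [Finset.sum_ite_eq' Finset.univ i (fun _ => MvPolynomial.aeval F p * Δ i)]
      simp
    have hsum : ∑ j, MvPolynomial.aeval F (MvPolynomial.pderiv j p) * Δ j ∈ 𝔞 :=
      𝔞.sum_mem fun j _ => 𝔞.mul_mem_left _ (hΔ j)
    have h1 : MvPolynomial.aeval (fun j => F j + Δ j) (p * MvPolynomial.X i) -
        MvPolynomial.aeval F (p * MvPolynomial.X i) -
        ∑ j, MvPolynomial.aeval F (MvPolynomial.pderiv j (p * MvPolynomial.X i)) * Δ j =
        (F i + Δ i) * (MvPolynomial.aeval (fun j => F j + Δ j) p - MvPolynomial.aeval F p -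
          ∑ j, MvPolynomial.aeval F (MvPolynomial.pderiv j p) * Δ j) +
        (∑ j, MvPolynomial.aeval F (MvPolynomial.pderiv j p) * Δ j) * Δ i := by
      rw [h0, map_mul, map_mul, MvPolynomial.aeval_X, MvPolynomial.aeval_X]; ring
    rw [h1]
    exact 𝔟.add_mem (𝔟.mul_mem_left _ hp) (hab _ hsum _ (hΔ i))

end

/-! ### Degrees of the coefficients -/

/-- All coefficients of the power series have degree at most `n`. -/
def DegLE (n : ℕ) (f : MvPowerSeries σ K[X]) : Prop :=
  ∀ μ, (MvPowerSeries.coeff μ f).natDegree ≤ n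

theorem DegLE.add {n : ℕ} {f g : MvPowerSeries σ K[X]} (hf : DegLE n f) (hg : DegLE n g) :
    DegLE n (f + g) := fun μ => by
  rw [map_add]; exact (natDegree_add_le _ _).trans (max_le (hf μ) (hg μ))

theorem degLE_zero (n : ℕ) : DegLE n (0 : MvPowerSeries σ K[X]) := fun μ => by simp

theorem DegLE.sum {n : ℕ} {ι : Type*} (s : Finset ι) {f : ι → MvPowerSeries σ K[X]}
    (hf : ∀ i ∈ s, DegLE n (f i)) : DegLE n (∑ i ∈ s, f i) := by
  classical
  induction s using Finset.induction_on with
  | empty => simpa using degLE_zero n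
  | insert a s ha ih =>
    rw [Finset.sum_insert ha]
    exact (hf a (Finset.mem_insert_self a s)).add
      (ih fun i hi => hf i (Finset.mem_insert_of_mem hi))

theorem DegLE.mul {m n : ℕ} {f g : MvPowerSeries σ K[X]} (hf : DegLE m f) (hg : DegLE n g) :
    DegLE (m + n) (f * g) := fun μ => by
  classical
  rw [MvPowerSeries.coeff_mul]
  refine natDegree_sum_le_of_forall_le _ _ fun p _ => natDegree_mul_le.trans ?_
  exact add_le_add (hf p.1) (hg p.2)

theorem degLE_algebraMap (c : K) : DegLE 0 (algebraMap K (MvPowerSeries σ K[X]) c) := fun μ => by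
  classical
  rw [MvPowerSeries.algebraMap_apply, MvPowerSeries.coeff_C]
  split_ifs
  · rw [Polynomial.algebraMap_apply]; simp
  · simp

theorem DegLE.pow {n : ℕ} {f : MvPowerSeries σ K[X]} (hf : DegLE n f) (k : ℕ) :
    DegLE (n * k) (f ^ k) := by
  induction k with
  | zero => simpa using degLE_algebraMap (σ := σ) (1 : K)
  | succ k ih => rw [pow_succ, Nat.mul_succ]; exact ih.mul hf

theorem DegLE.prod {ι : Type*} (s : Finset ι) {n : ι → ℕ} {f : ι → MvPowerSeries σ K[X]}
    (hf : ∀ i ∈ s, DegLE (n i) (f i)) : DegLE (∑ i ∈ s, n i) (∏ i ∈ s, f i) := by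
  classical
  induction s using Finset.induction_on with
  | empty => simpa using degLE_algebraMap (σ := σ) (1 : K)
  | insert a s ha ih =>
    rw [Finset.sum_insert ha, Finset.prod_insert ha]
    exact (hf a (Finset.mem_insert_self a s)).mul
      (ih fun i hi => hf i (Finset.mem_insert_of_mem hi))

theorem degLE_aeval [Fintype M] {d e : ℕ} {F : M → MvPowerSeries σ K[X]} (hF : ∀ j, DegLE d (F j))
    {E : MvPolynomial M K} (hE : E.IsHomogeneous e) :
    DegLE (d * e) (MvPolynomial.aeval F E) := by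
  rw [MvPolynomial.aeval_def, MvPolynomial.eval₂_eq']
  refine DegLE.sum _ fun s hs => ?_
  have h1 : ∑ i, s i = e := by
    have := hE (MvPolynomial.mem_support_iff.1 hs)
    rw [Finsupp.weight_apply, Finsupp.sum_fintype] at this
    · simpa using this
    · simp
  have h2 : d * e = 0 + ∑ i, d * s i := by rw [← Finset.mul_sum, h1, zero_add]
  rw [h2]
  exact (degLE_algebraMap _).mul (DegLE.prod _ fun i _ => (hF i).pow (s i))

/-- The power series all of whose coefficients are divisible by `Π`. -/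
def Dv (σ : Type*) {R : Type*} [CommRing R] (P : R) : Ideal (MvPowerSeries σ R) where
  carrier := {f | ∀ μ : σ →₀ ℕ, P ∣ MvPowerSeries.coeff μ f}
  zero_mem' := fun μ => by simp
  add_mem' := fun hf hg μ => by rw [map_add]; exact dvd_add (hf μ) (hg μ)
  smul_mem' := fun c f hf μ => by
    classical
    rw [smul_eq_mul, MvPowerSeries.coeff_mul]
    exact Finset.dvd_sum fun p _ => (hf p.2).mul_left _

theorem aeval_C_series (F0 : M → K[X]) (E : MvPolynomial M K) :
    MvPolynomial.aeval (fun j => (MvPowerSeries.C (F0 j) : MvPowerSeries σ K[X])) E =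
      MvPowerSeries.C (MvPolynomial.aeval F0 E) := by
  induction E using MvPolynomial.induction_on with
  | C a => rw [MvPolynomial.aeval_C, MvPolynomial.aeval_C, MvPowerSeries.algebraMap_apply]
  | add p q hp hq => rw [map_add, map_add, map_add, hp, hq]
  | mul_X p i hp =>
    rw [map_mul, map_mul, map_mul, hp, MvPolynomial.aeval_X, MvPolynomial.aeval_X]

/-! ### The recursion -/

/-- The state of the recursion: all equations of `I` hold up to degree `< k`. -/
structure State [Fintype M] (I : Ideal (MvPolynomial M K)) (d : ℕ) (P : K[X]) (F0 : M → K[X])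
    (g : σ → M → K[X]) (k : ℕ) (F : M → MvPowerSeries σ K[X]) : Prop where
  deg : ∀ j, DegLE d (F j)
  dvd : ∀ j, F j - MvPowerSeries.C (F0 j) ∈ Dv σ P
  zero : ∀ j, MvPowerSeries.constantCoeff (F j) = F0 j
  one : ∀ i j, MvPowerSeries.coeff (Finsupp.single i 1) (F j) = g i j
  eqs : ∀ E ∈ I, MvPolynomial.aeval F E ∈ J σ K[X] k

theorem constantCoeff_aeval (F : M → MvPowerSeries σ K[X]) (E : MvPolynomial M K) :
    MvPowerSeries.constantCoeff (MvPolynomial.aeval F E) =
      MvPolynomial.aeval (fun j => MvPowerSeries.constantCoeff (F j)) E := by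
  induction E using MvPolynomial.induction_on with
  | C a =>
    rw [MvPolynomial.aeval_C, MvPolynomial.aeval_C, MvPowerSeries.algebraMap_apply,
      MvPowerSeries.constantCoeff_C]
  | add p q hp hq => rw [map_add, map_add, map_add, hp, hq]
  | mul_X p i hp =>
    rw [map_mul, map_mul, map_mul, hp, MvPolynomial.aeval_X, MvPolynomial.aeval_X]

theorem state_start [Fintype M] [Fintype σ] (I : Ideal (MvPolynomial M K)) (d : ℕ) (P : K[X])
    (F0 : M → K[X]) (g : σ → M → K[X]) (hF0d : ∀ j, (F0 j).natDegree ≤ d) (hgd : ∀ i j, (g i j).natDegree ≤ d)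
    (hgP : ∀ i j, P ∣ g i j) (hF0 : ∀ E ∈ I, MvPolynomial.aeval F0 E = 0)
    (hg : ∀ i, ∀ E ∈ I, ∑ j, MvPolynomial.aeval F0 (MvPolynomial.pderiv j E) * g i j = 0) :
    ∃ F : M → MvPowerSeries σ K[X], State I d P F0 g 2 F := by
  classical
  set C0 : M → MvPowerSeries σ K[X] := fun j => MvPowerSeries.C (F0 j) with hC0
  set Δ : M → MvPowerSeries σ K[X] := fun j => ∑ i, MvPowerSeries.X i * MvPowerSeries.C (g i j)
    with hΔ
  have hcX : ∀ (μ : σ →₀ ℕ) (i : σ) (c : K[X]), MvPowerSeries.coeff μ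
      (MvPowerSeries.X i * MvPowerSeries.C c) = if μ = Finsupp.single i 1 then c else 0 := by
    intro μ i c
    rw [MvPowerSeries.coeff_mul_C, MvPowerSeries.coeff_X]
    split_ifs <;> simp
  have hcΔ : ∀ (μ : σ →₀ ℕ) (j : M), MvPowerSeries.coeff μ (Δ j) =
      ∑ i, if μ = Finsupp.single i 1 then g i j else 0 := by
    intro μ j
    rw [hΔ]
    simp only [map_sum, hcX]
  have hΔJ : ∀ j, Δ j ∈ J σ K[X] 1 := by
    intro j μ hμ
    have h0 : μ = 0 := (Finsupp.degree_eq_zero_iff μ).1 (by omega)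
    rw [hcΔ, h0]
    refine Finset.sum_eq_zero fun i _ => if_neg fun h => ?_
    have := DFunLike.congr_fun h i
    simp at this
  have hmap : ∀ E : MvPolynomial M K, MvPolynomial.aeval C0 E =
      MvPowerSeries.C (MvPolynomial.aeval F0 E) := fun E => aeval_C_series F0 E
  refine ⟨fun j => C0 j + Δ j, ⟨fun j μ => ?_, fun j => ?_, fun j => ?_, fun i j => ?_,
    fun E hE => ?_⟩⟩
  · rw [map_add, hcΔ]
    refine (natDegree_add_le _ _).trans (max_le ?_ ?_)
    · rw [hC0]
      show (MvPowerSeries.coeff μ (MvPowerSeries.C (F0 j))).natDegree ≤ d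
      rw [MvPowerSeries.coeff_C]
      split_ifs
      · exact hF0d j
      · simp
    · refine natDegree_sum_le_of_forall_le _ _ fun i _ => ?_
      split_ifs
      · exact hgd i j
      · simp
  · have h5 : C0 j + Δ j - MvPowerSeries.C (F0 j) = Δ j := by rw [hC0]; ring
    rw [h5]
    intro μ
    rw [hcΔ]
    refine Finset.dvd_sum fun i _ => ?_
    split_ifs
    · exact hgP i j
    · exact dvd_zero _
  · rw [map_add, hC0]
    show MvPowerSeries.constantCoeff (MvPowerSeries.C (F0 j)) + _ = _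
    rw [MvPowerSeries.constantCoeff_C]
    have h0 : MvPowerSeries.constantCoeff (Δ j) = 0 := by
      rw [← MvPowerSeries.coeff_zero_eq_constantCoeff_apply]
      exact hΔJ j 0 (by simp)
    rw [h0, add_zero]
  · rw [map_add, hcΔ, hC0]
    show MvPowerSeries.coeff (Finsupp.single i 1) (MvPowerSeries.C (F0 j)) + _ = _
    rw [MvPowerSeries.coeff_C, if_neg (by simp), zero_add, Finset.sum_eq_single i]
    · simp
    · intro b _ hb
      exact if_neg fun h => hb (by
        have := (Finsupp.single_left_inj (one_ne_zero)).1 h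
        exact this.symm)
    · simp
  · have h1 := taylor_mem (J σ K[X] 1) (J σ K[X] 2) (fun x hx y hy => mul_mem_J hx hy) C0 Δ hΔJ E
    have h2 : MvPolynomial.aeval C0 E = 0 := by rw [hmap, hF0 E hE, map_zero]
    have h3 : ∑ j, MvPolynomial.aeval C0 (MvPolynomial.pderiv j E) * Δ j = 0 := by
      have h4 : ∀ j, MvPolynomial.aeval C0 (MvPolynomial.pderiv j E) * Δ j =
          ∑ i, MvPowerSeries.X i *
            MvPowerSeries.C (MvPolynomial.aeval F0 (MvPolynomial.pderiv j E) * g i j) := by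
        intro j
        rw [hmap, hΔ]
        simp only [Finset.mul_sum, map_mul]
        exact Finset.sum_congr rfl fun i _ => by ring
      simp only [h4]
      rw [Finset.sum_comm]
      refine Finset.sum_eq_zero fun i _ => ?_
      rw [← Finset.mul_sum, ← map_sum, hg i E hE, map_zero, mul_zero]
    rw [h2, h3, sub_zero, sub_zero] at h1
    exact h1

theorem state_step [Fintype M] [Fintype σ] (I : Ideal (MvPolynomial M K)) (d : ℕ) (P : K[X])
    (F0 : M → K[X]) (g : σ → M → K[X]) (hF0 : ∀ E ∈ I, MvPolynomial.aeval F0 E = 0)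
    (hobs : ∀ o : MvPolynomial M K → K[X],
      (∀ E ∈ I, ∀ G, o (G * E) = MvPolynomial.aeval F0 G * o E) →
      (∀ E ∈ I, ∀ E' ∈ I, o (E + E') = o E + o E') →
      (∀ E ∈ I, P ∣ o E) → (∀ E ∈ I, ∀ e, E.IsHomogeneous e → (o E).natDegree ≤ d * e) →
      ∃ δ : M → K[X], (∀ j, P ∣ δ j) ∧ (∀ j, (δ j).natDegree ≤ d) ∧
        ∀ E ∈ I, ∑ j, MvPolynomial.aeval F0 (MvPolynomial.pderiv j E) * δ j = o E)
    {k : ℕ} (hk : 2 ≤ k) {F : M → MvPowerSeries σ K[X]} (hF : State I d P F0 g k F) :
    ∃ F' : M → MvPowerSeries σ K[X], State I d P F0 g (k + 1) F' ∧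
      ∀ j, F' j - F j ∈ J σ K[X] k := by
  classical
  have hPE : ∀ E ∈ I, ∀ μ, P ∣ MvPowerSeries.coeff μ (MvPolynomial.aeval F E) := by
    intro E hE μ
    have h1 := aeval_sub_mem (A := K) (Dv σ P) hF.dvd E
    rw [aeval_C_series, hF0 E hE, map_zero, sub_zero] at h1
    exact h1 μ
  have hsol : ∀ μ : σ →₀ ℕ, μ.degree = k → ∃ δ : M → K[X], (∀ j, P ∣ δ j) ∧
      (∀ j, (δ j).natDegree ≤ d) ∧
      ∀ E ∈ I, ∑ j, MvPolynomial.aeval F0 (MvPolynomial.pderiv j E) * δ j =
        - MvPowerSeries.coeff μ (MvPolynomial.aeval F E) := by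
    intro μ hμ
    refine hobs (fun E => - MvPowerSeries.coeff μ (MvPolynomial.aeval F E)) ?_ ?_ ?_ ?_
    · intro E hE G
      show - MvPowerSeries.coeff μ (MvPolynomial.aeval F (G * E)) =
        MvPolynomial.aeval F0 G * - MvPowerSeries.coeff μ (MvPolynomial.aeval F E)
      rw [map_mul, coeff_mul_of_mem_J _ (hF.eqs E hE) hμ, constantCoeff_aeval]
      simp only [hF.zero]
      ring
    · intro E _ E' _
      show - MvPowerSeries.coeff μ (MvPolynomial.aeval F (E + E')) = _
      rw [map_add, map_add]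
      ring
    · intro E hE
      exact (hPE E hE μ).neg_right
    · intro E _ e he
      show (- MvPowerSeries.coeff μ (MvPolynomial.aeval F E)).natDegree ≤ d * e
      rw [natDegree_neg]
      exact degLE_aeval hF.deg he μ
  choose! δ hδP hδd hδ using hsol
  set Δ : M → MvPowerSeries σ K[X] := fun j μ => if μ.degree = k then δ μ j else 0 with hΔdef
  have hcΔ : ∀ j μ, MvPowerSeries.coeff μ (Δ j) = if μ.degree = k then δ μ j else 0 :=
    fun j μ => rfl
  have hΔ : ∀ j, Δ j ∈ J σ K[X] k := fun j μ hμ => by rw [hcΔ, if_neg (by omega)]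
  refine ⟨fun j => F j + Δ j, ⟨fun j => (hF.deg j).add fun μ => ?_, fun j => ?_, fun j => ?_,
    fun i j => ?_, fun E hE => ?_⟩, fun j => by simpa using hΔ j⟩
  · rw [hcΔ]
    split_ifs with h
    · exact hδd μ h j
    · simp
  · have h5 : F j + Δ j - MvPowerSeries.C (F0 j) = (F j - MvPowerSeries.C (F0 j)) + Δ j := by ring
    rw [h5]
    refine (Dv σ P).add_mem (hF.dvd j) fun μ => ?_
    rw [hcΔ]
    split_ifs with h
    · exact hδP μ h j
    · exact dvd_zero _
  · rw [map_add, hF.zero j, ← MvPowerSeries.coeff_zero_eq_constantCoeff_apply, hΔ j 0 (by simp; omega),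
      add_zero]
  · rw [map_add, hF.one i j, hΔ j _ (by rw [Finsupp.degree_single]; omega), add_zero]
  · intro μ hμ
    have h1 := taylor_mem (J σ K[X] k) (J σ K[X] (k + k)) (fun x hx y hy => mul_mem_J hx hy) F Δ hΔ E
      μ (by omega)
    rw [map_sub, map_sub, sub_sub, sub_eq_zero] at h1
    rw [h1]
    rcases Nat.lt_or_ge μ.degree k with h2 | h2
    · rw [hF.eqs E hE μ h2, zero_add]
      exact (J σ K[X] k).sum_mem (fun j _ => (J σ K[X] k).mul_mem_left _ (hΔ j)) μ h2
    · have h3 : μ.degree = k := by omega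
      rw [map_sum]
      have h4 : ∀ j, MvPowerSeries.coeff μ (MvPolynomial.aeval F (MvPolynomial.pderiv j E) * Δ j) =
          MvPolynomial.aeval F0 (MvPolynomial.pderiv j E) * δ μ j := by
        intro j
        rw [coeff_mul_of_mem_J _ (hΔ j) h3, constantCoeff_aeval, hcΔ, if_pos h3]
        simp only [hF.zero]
      simp only [h4]
      rw [hδ μ h3 E hE]
      ring

/-- **Formal deformation.** -/
theorem exists_formal [Fintype M] [Fintype σ] (I : Ideal (MvPolynomial M K)) (d : ℕ) (P : K[X])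
    (F0 : M → K[X]) (g : σ → M → K[X]) (hF0d : ∀ j, (F0 j).natDegree ≤ d) (hgd : ∀ i j, (g i j).natDegree ≤ d)
    (hgP : ∀ i j, P ∣ g i j) (hF0 : ∀ E ∈ I, MvPolynomial.aeval F0 E = 0)
    (hg : ∀ i, ∀ E ∈ I, ∑ j, MvPolynomial.aeval F0 (MvPolynomial.pderiv j E) * g i j = 0)
    (hobs : ∀ o : MvPolynomial M K → K[X],
      (∀ E ∈ I, ∀ G, o (G * E) = MvPolynomial.aeval F0 G * o E) →
      (∀ E ∈ I, ∀ E' ∈ I, o (E + E') = o E + o E') →
      (∀ E ∈ I, P ∣ o E) → (∀ E ∈ I, ∀ e, E.IsHomogeneous e → (o E).natDegree ≤ d * e) →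
      ∃ δ : M → K[X], (∀ j, P ∣ δ j) ∧ (∀ j, (δ j).natDegree ≤ d) ∧
        ∀ E ∈ I, ∑ j, MvPolynomial.aeval F0 (MvPolynomial.pderiv j E) * δ j = o E) :
    ∃ F : M → MvPowerSeries σ K[X],
      (∀ j μ, (MvPowerSeries.coeff μ (F j)).natDegree ≤ d) ∧
      (∀ j μ, μ ≠ 0 → P ∣ MvPowerSeries.coeff μ (F j)) ∧
      (∀ j, MvPowerSeries.constantCoeff (F j) = F0 j) ∧
      (∀ i j, MvPowerSeries.coeff (Finsupp.single i 1) (F j) = g i j) ∧
      ∀ E ∈ I, MvPolynomial.aeval F E = 0 := by
  classical
  obtain ⟨Fs, hFs⟩ := state_start I d P F0 g hF0d hgd hgP hF0 hg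
  have hstep : ∀ (n : ℕ) (F : {F : M → MvPowerSeries σ K[X] // State I d P F0 g (n + 2) F}),
      ∃ F' : {F : M → MvPowerSeries σ K[X] // State I d P F0 g (n + 1 + 2) F},
        ∀ j, F'.1 j - F.1 j ∈ J σ K[X] (n + 2) := by
    intro n F
    obtain ⟨F', h1, h2⟩ := state_step I d P F0 g hF0 hobs (by omega) F.2
    exact ⟨⟨F', h1⟩, h2⟩
  choose next hnext using hstep
  let s : ∀ n : ℕ, {F : M → MvPowerSeries σ K[X] // State I d P F0 g (n + 2) F} := fun n =>
    Nat.rec ⟨Fs, hFs⟩ (fun n F => next n F) n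
  have hs : ∀ n j, (s (n + 1)).1 j - (s n).1 j ∈ J σ K[X] (n + 2) := fun n j => hnext n (s n) j
  have hst : ∀ (μ : σ →₀ ℕ) (n : ℕ), μ.degree ≤ n → ∀ j,
      MvPowerSeries.coeff μ ((s n).1 j) = MvPowerSeries.coeff μ ((s μ.degree).1 j) := by
    intro μ n hn
    induction n, hn using Nat.le_induction with
    | base => intro j; rfl
    | succ n hn ih =>
      intro j
      rw [← ih j]
      have h1 := hs n j μ (by omega)
      rw [map_sub, sub_eq_zero] at h1
      exact h1
  let F : M → MvPowerSeries σ K[X] := fun j μ => MvPowerSeries.coeff μ ((s μ.degree).1 j)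
  have hF : ∀ j μ, MvPowerSeries.coeff μ (F j) = MvPowerSeries.coeff μ ((s μ.degree).1 j) :=
    fun j μ => rfl
  have hFs' : ∀ n j, F j - (s n).1 j ∈ J σ K[X] (n + 1) := by
    intro n j μ hμ
    rw [map_sub, hF, hst μ n (by omega) j, sub_self]
  refine ⟨F, fun j μ => ?_, fun j μ hμ => ?_, fun j => ?_, fun i j => ?_, fun E hE => ?_⟩
  · rw [hF]; exact (s μ.degree).2.deg j μ
  · rw [hF]
    have h1 := (s μ.degree).2.dvd j μ
    rw [map_sub, MvPowerSeries.coeff_C, if_neg hμ, sub_zero] at h1
    exact h1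
  · rw [← MvPowerSeries.coeff_zero_eq_constantCoeff_apply, hF,
      MvPowerSeries.coeff_zero_eq_constantCoeff_apply]
    exact (s _).2.zero j
  · rw [hF]; exact (s _).2.one i j
  · refine eq_zero_of_mem_J fun n => ?_
    have h1 := aeval_sub_mem (A := K) (J σ K[X] (n + 1)) (hFs' n) E
    have h2 := J_anti (by omega : n + 1 ≤ n + 2) ((s n).2.eqs E hE)
    have h3 := (J σ K[X] (n + 1)).add_mem h1 h2
    rw [sub_add_cancel] at h3
    exact J_anti (by omega) h3

end Pool.Agent.VF.Fm

namespace Pool.Agent.VF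

alias exists_formal := Fm.exists_formal

end Pool.Agent.VF
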