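import Pool.Agent.Lib_MP_1858fb_w.Defs

/-! MP_1858fb_ag: second file of definitions: products, charts, families. -/

namespace Pool.Agent.VF

open MvPolynomial

section

variable {k : Type} [Field k]

/-- The product of two sets of points, as a set of points indexed by the sum of the types. -/
def prodSet {σ τ : Type} (V : Set (σ → k)) (W : Set (τ → k)) : Set (σ ⊕ τ → k) :=
  {x | (fun i => x (Sum.inl i)) ∈ V ∧ (fun j => x (Sum.inr j)) ∈ W}

/-- An algebraic chart of `V` (smooth of codimension `c`) near the point `x`: the coordinates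
in `A` are free, the other `c` polynomials `Φ i` are equations of `V`, the Jacobian determinant
of `Φ` is not zero at `x`, and where `H` does not vanish the equations define `V`. -/
structure Chart {N : ℕ} (c : ℕ) (V : Set (Fin (N + 1) → k)) (x : Fin (N + 1) → k) where
  A : Finset (Fin (N + 1))
  hA : A.card + c = N + 1
  Φ : Fin (N + 1) → MvPolynomial (Fin (N + 1)) k
  hΦA : ∀ i ∈ A, Φ i = X i
  hΦ : ∀ i, i ∉ A → Φ i ∈ van V
  H : MvPolynomial (Fin (N + 1)) k
  hdet : aeval x (Matrix.det (Matrix.of fun i j => pderiv j (Φ i))) ≠ 0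
  hH : aeval x H ≠ 0
  gen : ∀ G ∈ van V, H * G ∈ Ideal.span (Φ '' {i | i ∉ A})
  good : ∀ x' : Fin (N + 1) → k, (∀ i, i ∉ A → aeval x' (Φ i) = 0) → aeval x' H ≠ 0 → x' ∈ V

/-- Value of a polynomial in one variable `Θ` over `k[W, Z]` at `(w, z, θ)`. -/
noncomputable def evT {N : ℕ} {R : Type} [CommRing R] [Algebra k R] (w z : Fin (N + 1) → R)
    (θ : R) (P : Polynomial (MvPolynomial (Fin (N + 1) ⊕ Fin (N + 1)) k)) : R :=
  Polynomial.eval₂ ((aeval (Sum.elim w z) :
    MvPolynomial (Fin (N + 1) ⊕ Fin (N + 1)) k →ₐ[k] R) : _ →+* R) θ P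

/-- An algebraic family of curves of degree `d` in `V` through two general points `w`, `z`
(at `(1 : 0)` and `(0 : 1)`) and through the fixed points `vs i` at the parameters `(1 : cm i)`.
For `w, z ∈ V` with `D(w, z) δ = 1` every root `θ` of `P(w, z; ·)` is simple and gives the curve
with the coefficients `δ * Q(w, z; θ)`. -/
structure Family {N m : ℕ} (V : Set (Fin (N + 1) → k)) (cm : Fin m → k)
    (vs : Fin m → Fin (N + 1) → k) (d : ℕ) where
  D : MvPolynomial (Fin (N + 1) ⊕ Fin (N + 1)) k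
  P : Polynomial (MvPolynomial (Fin (N + 1) ⊕ Fin (N + 1)) k)
  Q : Fin (d + 1) → Fin (N + 1) → Polynomial (MvPolynomial (Fin (N + 1) ⊕ Fin (N + 1)) k)
  hD : D ∉ van (prodSet V V)
  hlead : P.leadingCoeff = D
  hdeg : 0 < P.natDegree
  simple : ∀ w ∈ V, ∀ z ∈ V, ∀ δ θ : k, aeval (Sum.elim w z) D * δ = 1 → evT w z θ P = 0 →
    evT w z θ (Polynomial.derivative P) ≠ 0
  curve : ∀ w ∈ V, ∀ z ∈ V, ∀ δ θ : k, aeval (Sum.elim w z) D * δ = 1 → evT w z θ P = 0 →
    IsCurve V (fun j i => δ * evT w z θ (Q j i))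
  start : ∀ w ∈ V, ∀ z ∈ V, ∀ δ θ : k, aeval (Sum.elim w z) D * δ = 1 → evT w z θ P = 0 →
    ∀ i, δ * evT w z θ (Q 0 i) = w i
  stop : ∀ w ∈ V, ∀ z ∈ V, ∀ δ θ : k, aeval (Sum.elim w z) D * δ = 1 → evT w z θ P = 0 →
    ∀ i, δ * evT w z θ (Q (Fin.last d) i) = z i
  marks : ∀ w ∈ V, ∀ z ∈ V, ∀ δ θ : k, aeval (Sum.elim w z) D * δ = 1 → evT w z θ P = 0 →
    ∀ l, val (fun j i => δ * evT w z θ (Q j i)) 1 (cm l) = vs l

/-- The coefficients of the curve of the family, over any `k`-algebra. -/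
noncomputable def Family.coef {N m : ℕ} {V : Set (Fin (N + 1) → k)} {cm : Fin m → k}
    {vs : Fin m → Fin (N + 1) → k} {d : ℕ} (Fam : Family V cm vs d) {R : Type} [CommRing R]
    [Algebra k R] (w z : Fin (N + 1) → R) (δ θ : R) : Fin (d + 1) → Fin (N + 1) → R :=
  fun j i => δ * evT w z θ (Fam.Q j i)

end

end Pool.Agent.VF
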