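import Pool.Agent.Lib_MP_1858fb_w.Inj

/-!
# Polynomials vanishing on a small piece of a variety

`I` is a prime ideal of polynomials, `v` a zero of `I`, `x i` are polynomials vanishing at `v` whose
differentials together with those of the members of `I` span everything (smoothness).  A polynomial
which vanishes along a parametrisation `ψ` (of germs of functions or formal power series) with
`x i ∘ ψ = ξ i + O(2)` lies in `I`.
-/

open MvPolynomial Filter Topology Asymptotics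

namespace Pool.Agent.VF

section ideal

variable {k σ ι : Type*} [Field k]

/-- The maximal ideal of a point. -/
noncomputable def mAt (v : σ → k) : Ideal (MvPolynomial σ k) :=
  Ideal.span (Set.range fun l => X l - C (v l))

lemma X_sub_mem_mAt (v : σ → k) (l : σ) : X l - C (v l) ∈ mAt v :=
  Ideal.subset_span ⟨l, rfl⟩

lemma eval_of_mem_mAt {v : σ → k} {f : MvPolynomial σ k} (hf : f ∈ mAt v) : eval v f = 0 := by
  have h : mAt v ≤ RingHom.ker (eval v) := by
    rw [mAt, Ideal.span_le]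
    rintro _ ⟨l, rfl⟩
    simp
  exact h hf

lemma sub_eval_mem_mAt (v : σ → k) (f : MvPolynomial σ k) : f - C (eval v f) ∈ mAt v := by
  induction f using MvPolynomial.induction_on with
  | C a => simp
  | add p q hp hq =>
    have : p + q - C (eval v (p + q)) = (p - C (eval v p)) + (q - C (eval v q)) := by
      rw [map_add, C_add]; ring
    rw [this]
    exact Ideal.add_mem _ hp hq
  | mul_X p l hp =>
    have : p * X l - C (eval v (p * X l)) = (p - C (eval v p)) * X l +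
        C (eval v p) * (X l - C (v l)) := by
      rw [map_mul, eval_X, C_mul]; ring
    rw [this]
    exact Ideal.add_mem _ (Ideal.mul_mem_right _ _ hp)
      (Ideal.mul_mem_left _ _ (X_sub_mem_mAt v l))

lemma mem_mAt_iff {v : σ → k} {f : MvPolynomial σ k} : f ∈ mAt v ↔ eval v f = 0 := by
  refine ⟨eval_of_mem_mAt, fun h => ?_⟩
  have := sub_eval_mem_mAt v f
  rwa [h, map_zero, sub_zero] at this

/-- Taylor expansion to the first order. -/
lemma sub_linear_mem [Fintype σ] (v : σ → k) (f : MvPolynomial σ k) :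
    f - C (eval v f) - ∑ i, C (eval v (pderiv i f)) * (X i - C (v i)) ∈ mAt v ^ 2 := by
  classical
  induction f using MvPolynomial.induction_on with
  | C a => simp
  | add p q hp hq =>
    have : p + q - C (eval v (p + q)) - ∑ i, C (eval v (pderiv i (p + q))) * (X i - C (v i))
        = (p - C (eval v p) - ∑ i, C (eval v (pderiv i p)) * (X i - C (v i))) +
          (q - C (eval v q) - ∑ i, C (eval v (pderiv i q)) * (X i - C (v i))) := by
      simp only [map_add, add_mul, Finset.sum_add_distrib]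
      ring
    rw [this]
    exact Ideal.add_mem _ hp hq
  | mul_X p l hp =>
    have h1 : ∀ i, C (eval v (pderiv i (p * X l))) * (X i - C (v i)) =
        C (v l) * (C (eval v (pderiv i p)) * (X i - C (v i))) +
          (if i = l then C (eval v p) * (X l - C (v l)) else 0) := by
      intro i
      rw [pderiv_mul, pderiv_X]
      by_cases h : i = l
      · subst h
        simp only [Pi.single_eq_same, mul_one, map_add, map_mul, eval_X, if_true]
        ring
      · rw [Pi.single_eq_of_ne (Ne.symm h), if_neg h]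
        simp only [mul_zero, add_zero, map_mul, eval_X]
        ring
    have : p * X l - C (eval v (p * X l)) -
        ∑ i, C (eval v (pderiv i (p * X l))) * (X i - C (v i)) =
        (p - C (eval v p)) * (X l - C (v l)) +
          C (v l) * (p - C (eval v p) - ∑ i, C (eval v (pderiv i p)) * (X i - C (v i))) := by
      simp only [h1, Finset.sum_add_distrib, Finset.sum_ite_eq', Finset.mem_univ, if_true,
        ← Finset.mul_sum, map_mul, eval_X]
      ring
    rw [this]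
    refine Ideal.add_mem _ ?_ (Ideal.mul_mem_left _ _ hp)
    rw [pow_two]
    exact Ideal.mul_mem_mul (sub_eval_mem_mAt v p) (X_sub_mem_mAt v l)

/-- The gradient at a point. -/
noncomputable def grad (v : σ → k) : MvPolynomial σ k →ₗ[k] (σ → k) where
  toFun f := fun i => eval v (pderiv i f)
  map_add' f g := by funext i; simp
  map_smul' c f := by funext i; simp

/-- The smoothness condition in terms of gradients. -/
lemma gen_of_grad [Fintype σ] (I : Ideal (MvPolynomial σ k)) (v : σ → k)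
    (hv : ∀ f ∈ I, eval v f = 0) (x : ι → MvPolynomial σ k) (hxv : ∀ i, eval v (x i) = 0)
    (hspan : Submodule.span k (Set.range (fun i => grad v (x i)) ∪ grad v '' (I : Set _)) = ⊤)
    (l : σ) : X l - C (v l) ∈ (Ideal.span (Set.range x) ⊔ mAt v ^ 2 ⊔ I) := by
  classical
  -- every vector is the gradient of an element of the left ideal
  have h1 : ∀ w : σ → k, ∃ f ∈ (Ideal.span (Set.range x) ⊔ I : Ideal (MvPolynomial σ k)),
      eval v f = 0 ∧ grad v f = w := by
    intro w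
    have hw : w ∈ Submodule.span k (Set.range (fun i => grad v (x i)) ∪ grad v '' (I : Set _)) := by
      rw [hspan]; trivial
    induction hw using Submodule.span_induction with
    | mem w hw =>
      rcases hw with ⟨i, rfl⟩ | ⟨f, hf, rfl⟩
      · exact ⟨x i, Ideal.mem_sup_left (Ideal.subset_span ⟨i, rfl⟩), hxv i, rfl⟩
      · exact ⟨f, Ideal.mem_sup_right hf, hv f hf, rfl⟩
    | zero => exact ⟨0, Ideal.zero_mem _, by simp, by simp⟩
    | add a b _ _ ha hb =>
      obtain ⟨f, hf, hf0, hfa⟩ := ha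
      obtain ⟨g, hg, hg0, hgb⟩ := hb
      exact ⟨f + g, Ideal.add_mem _ hf hg, by rw [map_add, hf0, hg0, add_zero],
        by rw [map_add, hfa, hgb]⟩
    | smul c a _ ha =>
      obtain ⟨f, hf, hf0, hfa⟩ := ha
      refine ⟨c • f, ?_, by simp [hf0], by rw [map_smul, hfa]⟩
      rw [MvPolynomial.smul_eq_C_mul]
      exact Ideal.mul_mem_left _ _ hf
  obtain ⟨f, hf, hf0, hfl⟩ := h1 (Pi.single l 1)
  have h2 := sub_linear_mem v f
  have h3 : ∑ i, C (eval v (pderiv i f)) * (X i - C (v i)) = X l - C (v l) := by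
    have : ∀ i, eval v (pderiv i f) = (Pi.single l 1 : σ → k) i := fun i => congrFun hfl i
    simp only [this]
    rw [Finset.sum_eq_single l]
    · simp
    · intro i _ hi
      rw [Pi.single_eq_of_ne hi]; simp
    · intro h; exact absurd (Finset.mem_univ _) h
  rw [h3, hf0, map_zero, sub_zero] at h2
  have h4 : X l - C (v l) = f - (f - (X l - C (v l))) := by ring
  rw [h4]
  refine Ideal.sub_mem _ ?_ ?_
  · have h5 : (Ideal.span (Set.range x) ⊔ I : Ideal (MvPolynomial σ k)) ≤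
        Ideal.span (Set.range x) ⊔ mAt v ^ 2 ⊔ I :=
      sup_le_sup_right le_sup_left _
    exact h5 hf
  · exact Ideal.mem_sup_left (Ideal.mem_sup_right h2)

variable (I : Ideal (MvPolynomial σ k)) (v : σ → k)

/-- The maximal ideal of a point in the coordinate ring. -/
noncomputable def nAt : Ideal (MvPolynomial σ k ⧸ I) := (mAt v).map (Ideal.Quotient.mk I)

variable {I v}

lemma exists_of_mem_nAt {b : MvPolynomial σ k ⧸ I} (hb : b ∈ nAt I v) :
    ∃ f ∈ mAt v, Ideal.Quotient.mk I f = b :=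
  (Ideal.mem_map_iff_of_surjective _ Ideal.Quotient.mk_surjective).mp hb

lemma nAt_ne_top (hv : ∀ f ∈ I, eval v f = 0) : nAt I v ≠ ⊤ := by
  intro h
  have h1 : (1 : MvPolynomial σ k ⧸ I) ∈ nAt I v := by rw [h]; trivial
  obtain ⟨f, hf, hf1⟩ := exists_of_mem_nAt h1
  have h2 : f - 1 ∈ I := by
    rw [← Ideal.Quotient.eq, hf1, map_one]
  have h3 := hv _ h2
  rw [map_sub, eval_of_mem_mAt hf, map_one] at h3
  simp at h3

lemma exists_const (b : MvPolynomial σ k ⧸ I) :
    ∃ c : k, b - algebraMap k (MvPolynomial σ k ⧸ I) c ∈ nAt I v := by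
  obtain ⟨f, rfl⟩ := Ideal.Quotient.mk_surjective b
  refine ⟨eval v f, ?_⟩
  have : Ideal.Quotient.mk I f - algebraMap k (MvPolynomial σ k ⧸ I) (eval v f)
      = Ideal.Quotient.mk I (f - C (eval v f)) := by
    rw [map_sub]; rfl
  rw [this]
  exact Ideal.mem_map_of_mem _ (sub_eval_mem_mAt v f)

lemma nAt_gen {x : ι → MvPolynomial σ k}
    (hgen : ∀ l, X l - C (v l) ∈ (Ideal.span (Set.range x) ⊔ mAt v ^ 2 ⊔ I)) :
    nAt I v ≤ Ideal.span (Set.range fun i => Ideal.Quotient.mk I (x i)) ⊔ nAt I v ^ 2 := by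
  have h1 : mAt v ≤ Ideal.span (Set.range x) ⊔ mAt v ^ 2 ⊔ I := by
    rw [mAt, Ideal.span_le]
    rintro _ ⟨l, rfl⟩
    exact hgen l
  have h2 := Ideal.map_mono (f := Ideal.Quotient.mk I) h1
  rw [Ideal.map_sup, Ideal.map_sup, Ideal.map_span, Ideal.map_pow, Ideal.map_quotient_self,
    sup_bot_eq, ← Set.range_comp] at h2
  exact h2

end ideal

section germs

variable {σ ι : Type*} [Fintype ι]

/-- Functions near `0` which are `O(‖ξ‖ ^ p)`. -/
def bigO (ι : Type*) [Fintype ι] (p : ℕ) : AddSubgroup ((ι → ℂ) → ℂ) where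
  carrier := {g | g =O[𝓝 0] fun ξ : ι → ℂ => ‖ξ‖ ^ p}
  add_mem' := fun ha hb => ha.add hb
  zero_mem' := isBigO_zero _ _
  neg_mem' := fun ha => ha.neg_left

lemma bigO_mul (p q : ℕ) (a b : (ι → ℂ) → ℂ) (ha : a ∈ bigO ι p) (hb : b ∈ bigO ι q) :
    a * b ∈ bigO ι (p + q) := by
  have h : (a * b) =O[𝓝 0] fun ξ : ι → ℂ => ‖ξ‖ ^ p * ‖ξ‖ ^ q := IsBigO.mul ha hb
  have e : (fun ξ : ι → ℂ => ‖ξ‖ ^ p * ‖ξ‖ ^ q) = fun ξ => ‖ξ‖ ^ (p + q) := by
    funext ξ; rw [pow_add]
  rw [e] at h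
  exact h

lemma bigO_smul (p : ℕ) (c : ℂ) (a : (ι → ℂ) → ℂ) (ha : a ∈ bigO ι p) :
    algebraMap ℂ ((ι → ℂ) → ℂ) c * a ∈ bigO ι p := by
  have h : (fun ξ => c * a ξ) =O[𝓝 0] fun ξ : ι → ℂ => ‖ξ‖ ^ p := IsBigO.const_mul_left ha c
  exact h

/-- A form of degree `d` which is `O(‖ξ‖ ^ (d + 1))` vanishes. -/
lemma form_eq_zero (d : ℕ) (P : MvPolynomial ι ℂ) (hP : P.IsHomogeneous d)
    (h : (fun ξ : ι → ℂ => eval ξ P) =O[𝓝 0] fun ξ : ι → ℂ => ‖ξ‖ ^ (d + 1)) : P = 0 := by
  apply MvPolynomial.funext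
  intro ξ
  rw [map_zero]
  by_contra hne
  -- restrict to the line `t ξ`
  have ht : Tendsto (fun t : ℝ => (t : ℂ) • ξ) (𝓝 0) (𝓝 0) := by
    have : Continuous fun t : ℝ => (t : ℂ) • ξ := by fun_prop
    simpa using this.tendsto 0
  have h1 := h.comp_tendsto ht
  obtain ⟨c, hc⟩ := h1.bound
  have h2 : ∀ t : ℝ, eval ((t : ℂ) • ξ) P = (t : ℂ) ^ d * eval ξ P := by
    intro t
    rw [eval_eq, eval_eq, Finset.mul_sum]
    refine Finset.sum_congr rfl fun s hs => ?_
    have hdeg : s.degree = d := by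
      have := hP (mem_support_iff.mp hs)
      rwa [Pi.one_def, ← Finsupp.degree_eq_weight_one] at this
    have h3 : ∏ i ∈ s.support, ((t : ℂ) • ξ) i ^ s i
        = (t : ℂ) ^ d * ∏ i ∈ s.support, ξ i ^ s i := by
      rw [← hdeg, Finsupp.degree_apply, ← Finset.prod_pow_eq_pow_sum, ← Finset.prod_mul_distrib]
      refine Finset.prod_congr rfl fun i _ => ?_
      rw [Pi.smul_apply, smul_eq_mul, mul_pow]
    rw [h3]; ring
  have h3 : ∀ᶠ t : ℝ in 𝓝[>] 0, ‖eval ξ P‖ ≤ c * ‖ξ‖ ^ (d + 1) * t := by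
    filter_upwards [nhdsWithin_le_nhds hc, self_mem_nhdsWithin] with t ht ht0
    have ht0' : 0 < t := ht0
    simp only [Function.comp] at ht
    rw [h2, norm_mul, norm_pow, norm_smul, Complex.norm_real, Real.norm_of_nonneg ht0'.le,
      norm_pow, norm_mul, norm_norm, Real.norm_of_nonneg ht0'.le] at ht
    have hpos : 0 < t ^ d := pow_pos ht0' d
    have h4 : t ^ d * ‖eval ξ P‖ ≤ t ^ d * (c * ‖ξ‖ ^ (d + 1) * t) := by
      calc t ^ d * ‖eval ξ P‖ ≤ c * (t * ‖ξ‖) ^ (d + 1) := ht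
        _ = _ := by ring
    exact le_of_mul_le_mul_left h4 hpos
  have h5 : Tendsto (fun t : ℝ => c * ‖ξ‖ ^ (d + 1) * t) (𝓝[>] 0) (𝓝 0) := by
    have : Continuous fun t : ℝ => c * ‖ξ‖ ^ (d + 1) * t := by fun_prop
    have h6 := this.tendsto 0
    rw [mul_zero] at h6
    exact h6.mono_left nhdsWithin_le_nhds
  have h7 := ge_of_tendsto h5 h3
  exact hne (norm_le_zero_iff.mp h7)

/-- **A polynomial vanishing on a small piece of a variety vanishes on it.** -/
theorem mem_of_vanish_near [Finite σ] (I : Ideal (MvPolynomial σ ℂ)) [I.IsPrime] (v : σ → ℂ)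
    (hv : ∀ f ∈ I, eval v f = 0) (x : ι → MvPolynomial σ ℂ) (hxv : ∀ i, eval v (x i) = 0)
    (hgen : ∀ l, X l - C (v l) ∈ (Ideal.span (Set.range x) ⊔ mAt v ^ 2 ⊔ I))
    (ψ : (ι → ℂ) → (σ → ℂ))
    (hψ : ∀ l, (fun ξ => ψ ξ l - v l) =O[𝓝 0] fun ξ : ι → ℂ => ‖ξ‖)
    (hψx : ∀ i, (fun ξ => eval (ψ ξ) (x i) - ξ i) =O[𝓝 0] fun ξ : ι → ℂ => ‖ξ‖ ^ 2)
    (hψI : ∀ᶠ ξ in 𝓝 0, ∀ f ∈ I, eval (ψ ξ) f = 0)
    (f : MvPolynomial σ ℂ) (hf : ∀ᶠ ξ in 𝓝 0, eval (ψ ξ) f = 0) : f ∈ I := by
  classical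
  have _ := Fintype.ofFinite σ
  set ψ' : (ι → ℂ) → (σ → ℂ) := fun ξ => if ∀ f ∈ I, eval (ψ ξ) f = 0 then ψ ξ else v with hψ'
  have hev : ∀ᶠ ξ in 𝓝 0, ψ' ξ = ψ ξ := hψI.mono fun ξ hξ => if_pos hξ
  have hI' : ∀ ξ, ∀ f ∈ I, eval (ψ' ξ) f = 0 := by
    intro ξ f hf
    by_cases h : ∀ f ∈ I, eval (ψ ξ) f = 0
    · rw [hψ']; simp only [if_pos h]; exact h f hf
    · rw [hψ']; simp only [if_neg h]; exact hv f hf
  -- the homomorphism
  let φ0 : MvPolynomial σ ℂ →ₐ[ℂ] ((ι → ℂ) → ℂ) := aeval fun l ξ => ψ' ξ l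
  have hφ0 : ∀ f ξ, φ0 f ξ = eval (ψ' ξ) f := by
    intro f ξ
    have : (Pi.evalAlgHom ℂ (fun _ : ι → ℂ => ℂ) ξ).comp φ0 = aeval (ψ' ξ) := by
      apply MvPolynomial.algHom_ext
      intro l
      simp [φ0]
    have h2 := congrArg (fun g => g f) this
    simp only [AlgHom.comp_apply, Pi.evalAlgHom_apply] at h2
    rw [h2, aeval_eq_eval]
  let φ : (MvPolynomial σ ℂ ⧸ I) →ₐ[ℂ] ((ι → ℂ) → ℂ) :=
    Ideal.Quotient.liftₐ I φ0 fun f hf => by
      funext ξ
      rw [hφ0, hI' ξ f hf]; rfl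
  have hφ : ∀ f ξ, φ (Ideal.Quotient.mk I f) ξ = eval (ψ' ξ) f := fun f ξ => hφ0 f ξ
  have hone : (fun _ : ι → ℂ => (1 : ℝ)) = fun ξ : ι → ℂ => ‖ξ‖ ^ 0 := by
    funext ξ; rw [pow_zero]
  have hconst : ∀ c : ℂ, (fun _ : ι → ℂ => c) ∈ bigO ι 0 := by
    intro c
    show (fun _ : ι → ℂ => c) =O[𝓝 0] fun ξ : ι → ℂ => ‖ξ‖ ^ 0
    rw [← hone]
    exact isBigO_const_const c one_ne_zero _
  -- elements of `𝔫` are `O(‖ξ‖)`
  have hl : ∀ l, (fun ξ => ψ' ξ l - v l) ∈ bigO ι 1 := by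
    intro l
    show (fun ξ => ψ' ξ l - v l) =O[𝓝 0] fun ξ : ι → ℂ => ‖ξ‖ ^ 1
    have e : (fun ξ : ι → ℂ => ‖ξ‖ ^ 1) = fun ξ => ‖ξ‖ := by funext ξ; rw [pow_one]
    rw [e]
    exact (hψ l).congr' (hev.mono fun ξ hξ => by simp only [hξ]) EventuallyEq.rfl
  have hlt : ∀ {g : (ι → ℂ) → ℂ}, g ∈ bigO ι 1 → g ∈ bigO ι 0 := by
    intro g hg
    have h1 : (fun ξ : ι → ℂ => ‖ξ‖ ^ 1) =O[𝓝 0] fun ξ : ι → ℂ => ‖ξ‖ ^ 0 := by
      rw [← hone]
      have : Continuous fun ξ : ι → ℂ => ‖ξ‖ ^ 1 := by fun_prop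
      exact this.continuousAt.norm.isBoundedUnder_le.isBigO_one ℝ
    exact IsBigO.trans hg h1
  have h0φ : ∀ f, φ0 f ∈ bigO ι 0 := by
    intro f
    induction f using MvPolynomial.induction_on with
    | C a =>
      have : φ0 (C a) = fun _ => a := by
        funext ξ; rw [hφ0, eval_C]
      rw [this]
      exact hconst a
    | add p q hp hq => rw [map_add]; exact AddSubgroup.add_mem _ hp hq
    | mul_X p l hp =>
      rw [map_mul]
      refine bigO_mul 0 0 _ _ hp ?_
      have : φ0 (X l) = (fun ξ => ψ' ξ l - v l) + fun _ => v l := by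
        funext ξ; rw [hφ0, eval_X]; simp
      rw [this]
      exact AddSubgroup.add_mem _ (hlt (hl l)) (hconst _)
  have h1φ : ∀ b ∈ nAt I v, φ b ∈ bigO ι 1 := by
    intro b hb
    obtain ⟨f, hf, rfl⟩ := exists_of_mem_nAt hb
    have h2 : φ (Ideal.Quotient.mk I f) = φ0 f := rfl
    rw [h2]
    refine Submodule.span_induction (p := fun f _ => φ0 f ∈ bigO ι 1) ?_ ?_ ?_ ?_ hf
    · rintro _ ⟨l, rfl⟩
      have : φ0 (X l - C (v l)) = fun ξ => ψ' ξ l - v l := by
        funext ξ; rw [hφ0, map_sub, eval_X, eval_C]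
      simp only
      rw [this]
      exact hl l
    · rw [map_zero]; exact AddSubgroup.zero_mem _
    · intro a b _ _ ha hb
      rw [map_add]; exact AddSubgroup.add_mem _ ha hb
    · intro a b _ hb
      rw [smul_eq_mul, map_mul]
      have := bigO_mul 0 1 _ _ (h0φ a) hb
      rwa [zero_add] at this
  have hxn : ∀ i, Ideal.Quotient.mk I (x i) ∈ nAt I v := fun i =>
    Ideal.mem_map_of_mem _ (mem_mAt_iff.mpr (hxv i))
  have key := eq_zero_of_flat (k := ℂ) (B := MvPolynomial σ ℂ ⧸ I) (R := (ι → ℂ) → ℂ)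
    (nAt I v) (nAt_ne_top hv) exists_const (fun i => Ideal.Quotient.mk I (x i)) hxn (nAt_gen hgen)
    (φ : _ →+* _) (bigO ι)
    (fun b => by
      obtain ⟨f, rfl⟩ := Ideal.Quotient.mk_surjective b
      exact h0φ f) h1φ bigO_mul
    (by
      intro d P hP hmem
      have hd : ∀ i, φ (Ideal.Quotient.mk I (x i)) - (fun ξ => ξ i) ∈ bigO ι 2 := by
        intro i
        show (fun ξ => φ (Ideal.Quotient.mk I (x i)) ξ - ξ i) =O[𝓝 0] fun ξ : ι → ℂ => ‖ξ‖ ^ 2
        refine (hψx i).congr' (hev.mono fun ξ hξ => ?_) EventuallyEq.rfl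
        simp only
        rw [hφ, hξ]
      have hX : ∀ i, (fun ξ : ι → ℂ => ξ i) ∈ bigO ι 1 := by
        intro i
        show (fun ξ : ι → ℂ => ξ i) =O[𝓝 0] fun ξ : ι → ℂ => ‖ξ‖ ^ 1
        refine IsBigO.of_bound 1 (Eventually.of_forall fun ξ => ?_)
        rw [pow_one, one_mul, norm_norm]
        exact norm_le_pi_norm ξ i
      have h2 := form_sub_mem (k := ℂ) (bigO ι) (hconst 1) bigO_mul bigO_smul
        (fun i => φ (Ideal.Quotient.mk I (x i))) (fun i ξ => ξ i)
        (fun i => h1φ _ (hxn i)) hX hd d P hP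
      have h3 : aeval (fun i => φ (Ideal.Quotient.mk I (x i))) P
          = φ (aeval (fun i => Ideal.Quotient.mk I (x i)) P) :=
        (comp_aeval_apply (fun i => Ideal.Quotient.mk I (x i)) φ P).symm
      rw [h3] at h2
      have h4 : aeval (fun i => (fun ξ : ι → ℂ => ξ i)) P ∈ bigO ι (d + 1) := by
        have := AddSubgroup.sub_mem _ hmem h2
        rw [show ((φ : (MvPolynomial σ ℂ ⧸ I) →+* ((ι → ℂ) → ℂ))
          (aeval (fun i => Ideal.Quotient.mk I (x i)) P)) =
          φ (aeval (fun i => Ideal.Quotient.mk I (x i)) P) from rfl, sub_sub_cancel] at this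
        exact this
      refine form_eq_zero d P hP ?_
      have h5 : (aeval (fun i => (fun ξ : ι → ℂ => ξ i)) P : (ι → ℂ) → ℂ)
          = fun ξ => eval ξ P := by
        funext ξ
        have : (Pi.evalAlgHom ℂ (fun _ : ι → ℂ => ℂ) ξ).comp
            (aeval (fun i => (fun ξ : ι → ℂ => ξ i))) = aeval ξ := by
          apply MvPolynomial.algHom_ext
          intro l
          simp
        have h6 := congrArg (fun g => g P) this
        simp only [AlgHom.comp_apply, Pi.evalAlgHom_apply] at h6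
        rw [h6, aeval_eq_eval]
      rw [h5] at h4
      exact h4)
    (Ideal.Quotient.mk I f)
    (by
      intro d
      show (fun ξ => φ (Ideal.Quotient.mk I f) ξ) =O[𝓝 0] fun ξ : ι → ℂ => ‖ξ‖ ^ d
      refine (isBigO_zero _ _).congr' ?_ EventuallyEq.rfl
      filter_upwards [hf, hev] with ξ h1 h2
      rw [hφ, h2, h1])
  exact Ideal.Quotient.eq_zero_iff_mem.mp key

end germs

section series

variable {k σ ι : Type*} [Field k]

/-- The formal version: a polynomial which vanishes at a formal parametrisation lies in `I`. -/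
theorem mem_of_vanish_formal [Finite σ] [Finite ι] (I : Ideal (MvPolynomial σ k)) [I.IsPrime]
    (v : σ → k)
    (hv : ∀ f ∈ I, eval v f = 0) (x : ι → MvPolynomial σ k) (hxv : ∀ i, eval v (x i) = 0)
    (hgen : ∀ l, X l - C (v l) ∈ (Ideal.span (Set.range x) ⊔ mAt v ^ 2 ⊔ I))
    (Ψ : σ → MvPowerSeries ι k) (hΨ : ∀ l, MvPowerSeries.constantCoeff (Ψ l) = v l)
    (hΨx : ∀ i s, s.degree = 1 → MvPowerSeries.coeff s (aeval Ψ (x i)) =
      MvPowerSeries.coeff s (MvPowerSeries.X i : MvPowerSeries ι k))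
    (hΨI : ∀ f ∈ I, aeval Ψ f = 0)
    (f : MvPolynomial σ k) (hf : aeval Ψ f = 0) : f ∈ I := by
  classical
  have _ := Fintype.ofFinite σ
  let φ : (MvPolynomial σ k ⧸ I) →ₐ[k] MvPowerSeries ι k := Ideal.Quotient.liftₐ I (aeval Ψ) hΨI
  have hφ : ∀ f, φ (Ideal.Quotient.mk I f) = aeval Ψ f := fun f => rfl
  have hc : ∀ f, MvPowerSeries.constantCoeff (aeval Ψ f : MvPowerSeries ι k) = eval v f := by
    intro f
    induction f using MvPolynomial.induction_on with
    | C a =>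
      rw [aeval_C, eval_C, MvPowerSeries.algebraMap_apply]
      simp
    | add p q hp hq => rw [map_add, map_add, hp, hq, map_add]
    | mul_X p l hp => rw [map_mul, map_mul, hp, aeval_X, hΨ, map_mul, eval_X]
  have hinj := injective_to_powerSeries (nAt I v) (nAt_ne_top hv) exists_const
    (fun i => Ideal.Quotient.mk I (x i))
    (fun i => Ideal.mem_map_of_mem _ (mem_mAt_iff.mpr (hxv i))) (nAt_gen hgen) φ
    (by
      intro b hb
      obtain ⟨g, hg, rfl⟩ := exists_of_mem_nAt hb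
      rw [hφ, hc, eval_of_mem_mAt hg])
    (fun i s hs => by rw [hφ]; exact hΨx i s hs)
  have : φ (Ideal.Quotient.mk I f) = φ 0 := by rw [hφ, hf, map_zero]
  exact Ideal.Quotient.eq_zero_iff_mem.mp (hinj this)

end series

end Pool.Agent.VF
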