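import Pool.Agent.Lib_MP_1858fb_w.Defs2

/-! V1: scaling, homogeneous components, finitely many open forms. -/

namespace Pool.Agent.VF

open MvPolynomial

section

variable {k : Type} [Field k]

private theorem aeval_smul_of_hom {σ : Type} {E : MvPolynomial σ k} {n : ℕ}
    (hE : E.IsHomogeneous n) (x : σ → k) (a : k) :
    aeval (a • x) E = a ^ n * aeval x E := by
  classical
  rw [aeval_eq_eval₂Hom, aeval_eq_eval₂Hom, coe_eval₂Hom, coe_eval₂Hom, eval₂_eq, eval₂_eq,
    Finset.mul_sum]
  refine Finset.sum_congr rfl fun d hd => ?_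
  have h1 : d.degree = n := by
    have h0 := hE (mem_support_iff.mp hd)
    rw [← h0]
    exact DFunLike.congr_fun (Finsupp.degree_eq_weight_one (R := ℕ) (σ := σ)) d
  have h2 : ∏ i ∈ d.support, (a • x) i ^ d i = a ^ n * ∏ i ∈ d.support, x i ^ d i := by
    rw [← h1, Finsupp.degree_apply, ← Finset.prod_pow_eq_pow_sum, ← Finset.prod_mul_distrib]
    exact Finset.prod_congr rfl fun i _ => by simp [mul_pow]
  rw [h2]
  ring

theorem smul_mem_of_locClosed {N : ℕ} {V : Set (Fin (N + 1) → k)} (hV : LocClosed V)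
    {x : Fin (N + 1) → k} (hx : x ∈ V) {a : k} (ha : a ≠ 0) : a • x ∈ V := by
  obtain ⟨I, J, hhom, rfl⟩ := hV
  obtain ⟨h0, hI, G, hG, hGx⟩ := hx
  refine ⟨smul_ne_zero ha h0, fun E hE => ?_, G, hG, ?_⟩
  · obtain ⟨e, he⟩ := hhom E (Or.inl hE)
    rw [aeval_smul_of_hom he, hI E hE, mul_zero]
  · obtain ⟨e, he⟩ := hhom G (Or.inr hG)
    rw [aeval_smul_of_hom he]
    exact mul_ne_zero (pow_ne_zero _ ha) hGx

theorem van_homogeneousComponent [Infinite k] {N : ℕ} {V : Set (Fin (N + 1) → k)}
    (hV : LocClosed V) {E : MvPolynomial (Fin (N + 1)) k} (hE : E ∈ van V) (n : ℕ) :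
    homogeneousComponent n E ∈ van V := by
  intro x hx
  set f : Polynomial k := ∑ i ∈ Finset.range (E.totalDegree + 1),
    Polynomial.monomial i (aeval x (homogeneousComponent i E)) with hf
  have hval : ∀ a : k, f.eval a = aeval (a • x) E := by
    intro a
    conv_rhs => rw [← sum_homogeneousComponent E]
    rw [hf, Polynomial.eval_finsetSum, map_sum]
    refine Finset.sum_congr rfl fun i _ => ?_
    rw [Polynomial.eval_monomial, aeval_smul_of_hom (homogeneousComponent_isHomogeneous i E),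
      mul_comm]
  have hzero : f = 0 := by
    apply Polynomial.eq_zero_of_infinite_isRoot
    refine Set.Infinite.mono (s := {a : k | a ≠ 0}) (fun a ha => ?_) ?_
    · change f.eval a = 0
      rw [hval]
      exact hE _ (smul_mem_of_locClosed hV hx ha)
    · have : ({a : k | a ≠ 0} : Set k) = {(0 : k)}ᶜ := rfl
      rw [this]
      exact (Set.finite_singleton (0 : k)).infinite_compl
  rcases lt_or_ge E.totalDegree n with h | h
  · rw [homogeneousComponent_eq_zero _ _ h, map_zero]
  · have h1 : f.coeff n = aeval x (homogeneousComponent n E) := by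
      rw [hf, Polynomial.finsetSum_coeff, Finset.sum_eq_single n]
      · simp
      · intro b _ hb
        rw [Polynomial.coeff_monomial, if_neg hb]
      · intro hn
        exact absurd (Finset.mem_range.mpr (by omega)) hn
    rw [← h1, hzero, Polynomial.coeff_zero]

/-- finitely many forms that define the open part of `V` (they all vanish at `0`) -/
theorem exists_open_forms {N : ℕ} {V : Set (Fin (N + 1) → k)} (hV : LocClosed V) :
    ∃ (s : ℕ) (G : Fin s → MvPolynomial (Fin (N + 1)) k) (e : Fin s → ℕ),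
      (∀ i, (G i).IsHomogeneous (e i)) ∧ (∀ i, 0 < e i) ∧
      ∀ x, x ∈ V ↔ (∀ E ∈ van V, aeval x E = 0) ∧ ∃ i, aeval x (G i) ≠ 0 := by
  classical
  obtain ⟨I, J, hhom, hVeq⟩ := hV
  have hfg : (Ideal.span J).FG := IsNoetherian.noetherian _
  obtain ⟨J0, hJ0, hspan⟩ := (Submodule.fg_span_iff_fg_span_finset_subset J).mp hfg
  have hchoice : ∀ g : J0, ∃ e : ℕ, (g : MvPolynomial (Fin (N + 1)) k).IsHomogeneous e :=
    fun g => hhom _ (Or.inr (hJ0 g.2))
  choose eg heg using hchoice
  let ι := J0 × Fin (N + 1)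
  let φ : ι ≃ Fin (Fintype.card ι) := Fintype.equivFin ι
  refine ⟨Fintype.card ι, fun i => ((φ.symm i).1 : MvPolynomial (Fin (N + 1)) k) * X (φ.symm i).2,
    fun i => eg (φ.symm i).1 + 1, fun i => (heg _).mul (isHomogeneous_X _ _),
    fun i => Nat.succ_pos _, fun x => ?_⟩
  have hkey : (∃ i, aeval x (((φ.symm i).1 : MvPolynomial (Fin (N + 1)) k) * X (φ.symm i).2) ≠ 0) ↔
      x ≠ 0 ∧ ∃ G ∈ J, aeval x G ≠ 0 := by
    constructor
    · rintro ⟨i, hi⟩
      rw [map_mul, aeval_X] at hi
      refine ⟨fun h => ?_, _, hJ0 (φ.symm i).1.2, left_ne_zero_of_mul hi⟩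
      exact right_ne_zero_of_mul hi (by rw [h]; rfl)
    · rintro ⟨h0, G, hG, hGx⟩
      obtain ⟨j, hj⟩ : ∃ j, x j ≠ 0 := by
        by_contra h
        push Not at h
        exact h0 (funext h)
      obtain ⟨g, hg, hgx⟩ : ∃ g ∈ J0, aeval x g ≠ 0 := by
        by_contra h
        push Not at h
        have h1 : Ideal.span (J0 : Set (MvPolynomial (Fin (N + 1)) k)) ≤
            RingHom.ker (aeval x : MvPolynomial (Fin (N + 1)) k →ₐ[k] k) :=
          Ideal.span_le.mpr fun g hg => h g hg
        have h2 : G ∈ Ideal.span (J0 : Set (MvPolynomial (Fin (N + 1)) k)) := by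
          have : G ∈ Ideal.span J := Ideal.subset_span hG
          rw [Ideal.span, hspan] at this
          exact this
        exact hGx (h1 h2)
      refine ⟨φ (⟨g, hg⟩, j), ?_⟩
      rw [Equiv.symm_apply_apply, map_mul, aeval_X]
      exact mul_ne_zero hgx hj
  rw [hkey]
  constructor
  · intro hx
    refine ⟨fun E hE => hE x hx, ?_⟩
    rw [hVeq] at hx
    exact ⟨hx.1, hx.2.2⟩
  · rintro ⟨h1, h2, h3⟩
    rw [hVeq]
    refine ⟨h2, fun E hE => h1 E (fun y hy => ?_), h3⟩
    rw [hVeq] at hy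
    exact hy.2.1 E hE

end

end Pool.Agent.VF
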