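import Pool.Agent.Lib_MP_1858fb_w.Generic

/-!
# Transfer of solutions of systems of polynomial equations
-/

namespace Pool.Agent.VFree

open Polynomial

universe w

/-- the ideal of a system is proper if there is a solution somewhere -/
theorem span_ne_top {k σ L : Type*} [CommRing k] (S : Set (MvPolynomial σ k)) [CommRing L]
    [Nontrivial L] (φ : k →+* L) (x : σ → L) (hx : ∀ f ∈ S, MvPolynomial.eval₂ φ x f = 0) :
    Ideal.span S ≠ ⊤ := by
  intro h
  have hle : Ideal.span S ≤ RingHom.ker (MvPolynomial.eval₂Hom φ x) := by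
    rw [Ideal.span_le]
    intro f hf
    exact hx f hf
  have h1 : (1 : MvPolynomial σ k) ∈ RingHom.ker (MvPolynomial.eval₂Hom φ x) :=
    hle (h ▸ Submodule.mem_top)
  rw [RingHom.mem_ker, map_one] at h1
  exact one_ne_zero h1

/-- (T1) **Transfer**: a system of polynomial equations over an algebraically closed field which
is solvable in some nonzero ring over `k` is solvable in `k`. -/
theorem transfer {k : Type*} [Field k] [IsAlgClosed k] {σ : Type*} [Finite σ]
    (S : Set (MvPolynomial σ k)) {L : Type*} [CommRing L] [Nontrivial L] (φ : k →+* L)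
    (x : σ → L) (hx : ∀ f ∈ S, MvPolynomial.eval₂ φ x f = 0) :
    ∃ y : σ → k, ∀ f ∈ S, MvPolynomial.eval y f = 0 := by
  by_contra hno
  push Not at hno
  have h0 : MvPolynomial.zeroLocus k (Ideal.span S) = ∅ := by
    rw [Set.eq_empty_iff_forall_notMem]
    intro y hy
    obtain ⟨f, hf, hne⟩ := hno y
    have h1 := MvPolynomial.mem_zeroLocus_iff.1 hy f (Ideal.subset_span hf)
    apply hne
    rw [← MvPolynomial.coe_aeval_eq_eval]
    exact h1
  have h1 := MvPolynomial.vanishingIdeal_zeroLocus_eq_radical (K := k) (Ideal.span S)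
  rw [h0, MvPolynomial.vanishingIdeal_empty] at h1
  exact span_ne_top S φ x hx (Ideal.radical_eq_top.1 h1.symm)

/-- (T2) a nonzero finitely generated algebra over an algebraically closed field has a point -/
theorem exists_point {k : Type*} [Field k] [IsAlgClosed k] (A : Type*) [CommRing A] [Nontrivial A]
    [Algebra k A] [Algebra.FiniteType k A] : Nonempty (A →ₐ[k] k) := by
  obtain ⟨m, hm⟩ := Ideal.exists_maximal A
  letI : Field (A ⧸ m) := Ideal.Quotient.field m
  haveI : Algebra.FiniteType k (A ⧸ m) := inferInstance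
  haveI : Module.Finite k (A ⧸ m) := finite_of_finite_type_of_isJacobsonRing k (A ⧸ m)
  haveI : Algebra.IsAlgebraic k (A ⧸ m) := inferInstance
  let g : (A ⧸ m) →ₐ[k] k := IsAlgClosed.lift
  exact ⟨g.comp (Ideal.Quotient.mkₐ k m)⟩

/-- homomorphisms into algebraically closed fields extend to integral extensions -/
theorem exists_extend {A C : Type*} [CommRing A] [CommRing C] [Algebra A C]
    [Algebra.IsIntegral A C] {R : Type*} [Field R] [IsAlgClosed R] (φ : A →+* R)
    (hker : RingHom.ker (algebraMap A C) ≤ RingHom.ker φ) :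
    ∃ ψ : C →+* R, ψ.comp (algebraMap A C) = φ := by
  haveI : (RingHom.ker φ).IsPrime := RingHom.ker_isPrime φ
  obtain ⟨Q, -, hQ, hQP⟩ := Ideal.exists_ideal_over_prime_of_isIntegral (RingHom.ker φ)
    (⊥ : Ideal C) (by rw [← RingHom.ker_eq_comap_bot]; exact hker)
  haveI := hQ
  have hlift : ∀ a ∈ Q.comap (algebraMap A C), φ a = 0 := by
    intro a ha
    rw [hQP] at ha
    exact ha
  let φ' : A ⧸ Q.comap (algebraMap A C) →+* R := Ideal.Quotient.lift _ φ hlift
  have hinj : Function.Injective φ' := by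
    apply RingHom.lift_injective_of_ker_le_ideal
    rw [hQP]
  letI : Algebra (A ⧸ Q.comap (algebraMap A C)) R := φ'.toAlgebra
  haveI : IsDomain (C ⧸ Q) := Ideal.Quotient.isDomain Q
  haveI : IsDomain (A ⧸ Q.comap (algebraMap A C)) := Ideal.Quotient.isDomain _
  haveI : Module.IsTorsionFree (A ⧸ Q.comap (algebraMap A C)) (C ⧸ Q) :=
    Module.isTorsionFree_iff_algebraMap_injective.2 Ideal.algebraMap_quotient_injective
  haveI : Module.IsTorsionFree (A ⧸ Q.comap (algebraMap A C)) R :=
    Module.isTorsionFree_iff_algebraMap_injective.2 hinj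
  haveI : Algebra.IsIntegral (A ⧸ Q.comap (algebraMap A C)) (C ⧸ Q) :=
    Algebra.IsIntegral.quotient
  haveI : Algebra.IsAlgebraic (A ⧸ Q.comap (algebraMap A C)) (C ⧸ Q) :=
    Algebra.IsIntegral.isAlgebraic
  let g : (C ⧸ Q) →ₐ[A ⧸ Q.comap (algebraMap A C)] R := IsAlgClosed.lift
  refine ⟨(g : (C ⧸ Q) →+* R).comp (Ideal.Quotient.mk Q), RingHom.ext fun a => ?_⟩
  have h1 : Ideal.Quotient.mk Q (algebraMap A C a) =
      algebraMap (A ⧸ Q.comap (algebraMap A C)) (C ⧸ Q) (Ideal.Quotient.mk _ a) := rfl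
  simp only [RingHom.comp_apply, RingHom.coe_coe]
  rw [h1, g.commutes]
  rfl

/-- (T3) **Generic solvability**, every characteristic: a finite system over a domain `B` that is
solvable over a dense set of points is solvable in every algebraically closed field over `B` in
which one fixed nonzero element `D` of `B` does not vanish. -/
theorem family_field {B : Type*} [CommRing B] [IsDomain B] {σ : Type*} [Finite σ]
    (S : Finset (MvPolynomial σ B))
    (h : ∀ b : B, b ≠ 0 → ∃ (R : Type) (_ : Field R) (φ : B →+* R), φ b ≠ 0 ∧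
      ∃ x : σ → R, ∀ f ∈ S, MvPolynomial.eval₂ φ x f = 0) :
    ∃ D : B, D ≠ 0 ∧ ∀ (R : Type*) [Field R] [IsAlgClosed R] (φ : B →+* R), φ D ≠ 0 →
      ∃ x : σ → R, ∀ f ∈ S, MvPolynomial.eval₂ φ x f = 0 := by
  classical
  haveI := Fintype.ofFinite σ
  let K := FractionRing B
  obtain ⟨m, hm, hle⟩ := Ideal.exists_le_maximal _ (map_ne_top S h)
  let F := MvPolynomial σ K ⧸ m
  letI : Field F := Ideal.Quotient.field m
  haveI : Algebra.FiniteType K F := inferInstance
  haveI : Module.Finite K F := finite_of_finite_type_of_isJacobsonRing K F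
  haveI : Algebra.IsAlgebraic K F := inferInstance
  haveI : IsScalarTower B K F := inferInstance
  let x : σ → F := fun i => Ideal.Quotient.mk m (MvPolynomial.X i)
  have hx : ∀ f ∈ S, MvPolynomial.eval₂ (algebraMap B F) x f = 0 := by
    intro f hf
    have e2 : ∀ f : MvPolynomial σ B, MvPolynomial.eval₂ (algebraMap B F) x f =
        ((Ideal.Quotient.mk m).comp (MvPolynomial.map (algebraMap B K))) f := by
      intro f
      induction f using MvPolynomial.induction_on with
      | C a =>
        rw [MvPolynomial.eval₂_C]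
        simp only [RingHom.comp_apply, MvPolynomial.map_C]
        rfl
      | add p q hp hq => rw [MvPolynomial.eval₂_add, hp, hq, map_add]
      | mul_X p i hp =>
        rw [MvPolynomial.eval₂_mul, hp, MvPolynomial.eval₂_X, map_mul]
        congr 1
        simp only [RingHom.comp_apply, MvPolynomial.map_X]
        rfl
    rw [e2 f]
    apply Ideal.Quotient.eq_zero_iff_mem.2
    exact hle (Ideal.mem_map_of_mem _ (Ideal.subset_span hf))
  have hinj : Function.Injective (algebraMap B F) :=
    (algebraMap K F).injective.comp (IsFractionRing.injective B K)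
  have halg : ∀ y : F, IsAlgebraic B y := fun y =>
    (IsFractionRing.isAlgebraic_iff B K F).2 (Algebra.IsAlgebraic.isAlgebraic y)
  have hmul : ∀ i, ∃ d : B, d ≠ 0 ∧ IsIntegral B (d • x i) := fun i =>
    (halg (x i)).exists_integral_multiple
  choose d hd hdi using hmul
  refine ⟨∏ i, d i, Finset.prod_ne_zero_iff.2 fun i _ => hd i, ?_⟩
  intro R _ _ φ hφ
  set D : B := ∏ i, d i with hD
  have hD0 : D ≠ 0 := Finset.prod_ne_zero_iff.2 fun i _ => hd i
  let C := integralClosure B F
  have hint : ∀ i, D • x i ∈ C := by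
    intro i
    have h1 : D = (∏ j ∈ Finset.univ.erase i, d j) * d i := by
      rw [hD, Finset.prod_erase_mul _ _ (Finset.mem_univ i)]
    rw [h1, mul_smul, Algebra.smul_def]
    exact IsIntegral.mul isIntegral_algebraMap (hdi i)
  let y : σ → C := fun i => ⟨D • x i, hint i⟩
  haveI : Algebra.IsIntegral B C := inferInstance
  obtain ⟨ψ, hψ⟩ := exists_extend (A := B) (C := C) φ (by
    have h1 : Function.Injective (algebraMap B C) := by
      intro a b hab
      apply hinj
      have := congrArg (algebraMap C F) hab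
      rwa [← IsScalarTower.algebraMap_apply, ← IsScalarTower.algebraMap_apply] at this
    rw [(RingHom.injective_iff_ker_eq_bot _).1 h1]
    exact bot_le)
  have hψ' : ∀ b, ψ (algebraMap B C b) = φ b := fun b => by rw [← hψ]; rfl
  -- invert `D`
  let A := Localization.Away (algebraMap B C D)
  have hDF : algebraMap C F (algebraMap B C D) ≠ 0 := by
    rw [← IsScalarTower.algebraMap_apply]
    intro h0
    exact hD0 (hinj (by rw [h0, map_zero]))
  let j : A →+* F := IsLocalization.Away.lift (algebraMap B C D) (g := algebraMap C F)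
    (isUnit_iff_ne_zero.2 hDF)
  have hj : ∀ c, j (algebraMap C A c) = algebraMap C F c := fun c =>
    IsLocalization.Away.lift_eq _ _ c
  have hjinj : Function.Injective j := by
    rw [injective_iff_map_eq_zero]
    intro a ha
    obtain ⟨n, c, hc⟩ := IsLocalization.Away.surj (algebraMap B C D) a
    have h1 : algebraMap C F c = 0 := by
      rw [← hj, ← hc, map_mul, ha, zero_mul]
    have h2 : c = 0 := Subtype.ext h1
    rw [h2, map_zero] at hc
    exact (IsUnit.mul_left_eq_zero
      ((IsLocalization.Away.algebraMap_isUnit (algebraMap B C D)).pow n)).1 hc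
  have hψD : IsUnit (ψ (algebraMap B C D)) := by
    rw [hψ']
    exact isUnit_iff_ne_zero.2 hφ
  let ψ' : A →+* R := IsLocalization.Away.lift (algebraMap B C D) hψD
  have hψ'' : ∀ c, ψ' (algebraMap C A c) = ψ c := fun c => IsLocalization.Away.lift_eq _ _ c
  obtain ⟨e, he⟩ := (IsLocalization.Away.algebraMap_isUnit (S := A)
    (algebraMap B C D)).exists_left_inv
  let z : σ → A := fun i => e * algebraMap C A (y i)
  have hz : ∀ i, j (z i) = x i := by
    intro i
    have h1 : algebraMap C F (y i) = algebraMap B F D * x i := by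
      change (D • x i : F) = _
      rw [Algebra.smul_def]
    have h2 : j e * algebraMap B F D = 1 := by
      rw [IsScalarTower.algebraMap_apply B C F, ← hj, ← map_mul, he, map_one]
    rw [map_mul, hj, h1, ← mul_assoc, h2, one_mul]
  refine ⟨fun i => ψ' (z i), ?_⟩
  intro f hf
  have h1 : MvPolynomial.eval₂ ((algebraMap C A).comp (algebraMap B C)) z f = 0 := by
    apply hjinj
    rw [map_zero, MvPolynomial.eval₂_comp_left, ← hx f hf]
    congr 1
    · refine RingHom.ext fun b => ?_
      simp only [RingHom.comp_apply]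
      rw [hj, ← IsScalarTower.algebraMap_apply]
    · funext i
      exact hz i
  have h2 := congrArg ψ' h1
  rw [map_zero, MvPolynomial.eval₂_comp_left] at h2
  rw [← h2]
  congr 1
  refine RingHom.ext fun b => ?_
  simp only [RingHom.comp_apply]
  rw [hψ'', hψ']

/-- from a solution in the algebraic closure to a solution in a finite extension -/
theorem exists_finite_ext {B : Type*} [CommRing B] {σ : Type*} [Finite σ]
    (S : Set (MvPolynomial σ B)) {R : Type*} [Field R] (φ : B →+* R)
    (x : σ → AlgebraicClosure R)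
    (hx : ∀ f ∈ S, MvPolynomial.eval₂ ((algebraMap R (AlgebraicClosure R)).comp φ) x f = 0) :
    ∃ E : IntermediateField R (AlgebraicClosure R), FiniteDimensional R E ∧
      ∃ x : σ → E, ∀ f ∈ S, MvPolynomial.eval₂ ((algebraMap R E).comp φ) x f = 0 := by
  refine ⟨IntermediateField.adjoin R (Set.range x), ?_, ?_⟩
  · haveI : Finite (Set.range x) := Set.finite_range x
    exact IntermediateField.finiteDimensional_adjoin
      (fun y _ => Algebra.IsIntegral.isIntegral y)
  · refine ⟨fun i => ⟨x i, IntermediateField.subset_adjoin R _ ⟨i, rfl⟩⟩, fun f hf => ?_⟩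
    apply (algebraMap (IntermediateField.adjoin R (Set.range x)) (AlgebraicClosure R)).injective
    rw [map_zero, MvPolynomial.eval₂_comp_left, ← hx f hf]
    congr 1

/-- (T4) generic solvability in finite extensions of arbitrary fields over `B` -/
theorem family_finite {B : Type*} [CommRing B] [IsDomain B] {σ : Type*} [Finite σ]
    (S : Finset (MvPolynomial σ B))
    (h : ∀ b : B, b ≠ 0 → ∃ (R : Type) (_ : Field R) (φ : B →+* R), φ b ≠ 0 ∧
      ∃ x : σ → R, ∀ f ∈ S, MvPolynomial.eval₂ φ x f = 0) :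
    ∃ D : B, D ≠ 0 ∧ ∀ (R : Type*) [Field R] (φ : B →+* R), φ D ≠ 0 →
      ∃ E : IntermediateField R (AlgebraicClosure R), FiniteDimensional R E ∧
        ∃ x : σ → E, ∀ f ∈ S, MvPolynomial.eval₂ ((algebraMap R E).comp φ) x f = 0 := by
  obtain ⟨D, hD, hfam⟩ := family_field S h
  refine ⟨D, hD, fun R _ φ hφ => ?_⟩
  obtain ⟨x, hx⟩ := hfam (AlgebraicClosure R) ((algebraMap R (AlgebraicClosure R)).comp φ) (by
    rw [RingHom.comp_apply]
    intro h0
    exact hφ ((algebraMap R (AlgebraicClosure R)).injective (by rw [h0, map_zero])))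
  exact exists_finite_ext (S : Set (MvPolynomial σ B)) φ x hx

/-- Hilbert: a system over a Noetherian ring can be replaced by a finite one -/
theorem exists_finset_span {B : Type*} [CommRing B] [IsNoetherianRing B] {σ : Type*} [Finite σ]
    (S : Set (MvPolynomial σ B)) :
    ∃ T : Finset (MvPolynomial σ B), Ideal.span (T : Set (MvPolynomial σ B)) = Ideal.span S :=
  (isNoetherianRing_iff_ideal_fg _).1 inferInstance (Ideal.span S)

/-- a solution of a system solves the whole ideal -/
theorem eval₂_eq_zero_of_span {B R : Type*} [CommRing B] [CommRing R] {σ : Type*}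
    {S T : Set (MvPolynomial σ B)} (hT : S ⊆ Ideal.span T) {φ : B →+* R} {x : σ → R}
    (hx : ∀ f ∈ T, MvPolynomial.eval₂ φ x f = 0) : ∀ f ∈ S, MvPolynomial.eval₂ φ x f = 0 := by
  have hle : Ideal.span T ≤ RingHom.ker (MvPolynomial.eval₂Hom φ x) := by
    rw [Ideal.span_le]
    intro f hf
    exact hx f hf
  exact fun f hf => hle (hT hf)

/-- (T5) generic solvability, infinite systems over Noetherian domains -/
theorem family_finite_set {B : Type*} [CommRing B] [IsDomain B] [IsNoetherianRing B] {σ : Type*}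
    [Finite σ] (S : Set (MvPolynomial σ B))
    (h : ∀ b : B, b ≠ 0 → ∃ (R : Type) (_ : Field R) (φ : B →+* R), φ b ≠ 0 ∧
      ∃ x : σ → R, ∀ f ∈ S, MvPolynomial.eval₂ φ x f = 0) :
    ∃ D : B, D ≠ 0 ∧ (∀ (R : Type w) [Field R] [IsAlgClosed R] (φ : B →+* R), φ D ≠ 0 →
      ∃ x : σ → R, ∀ f ∈ S, MvPolynomial.eval₂ φ x f = 0) ∧
      ∀ (R : Type w) [Field R] (φ : B →+* R), φ D ≠ 0 →
      ∃ E : IntermediateField R (AlgebraicClosure R), FiniteDimensional R E ∧
        ∃ x : σ → E, ∀ f ∈ S, MvPolynomial.eval₂ ((algebraMap R E).comp φ) x f = 0 := by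
  obtain ⟨T, hT⟩ := exists_finset_span S
  have hST : S ⊆ Ideal.span (T : Set (MvPolynomial σ B)) := by
    rw [hT]
    exact Ideal.subset_span
  have hTS : (T : Set (MvPolynomial σ B)) ⊆ Ideal.span S := by
    rw [← hT]
    exact Ideal.subset_span
  have h' : ∀ b : B, b ≠ 0 → ∃ (R : Type) (_ : Field R) (φ : B →+* R), φ b ≠ 0 ∧
      ∃ x : σ → R, ∀ f ∈ T, MvPolynomial.eval₂ φ x f = 0 := by
    intro b hb
    obtain ⟨R, _, φ, hφ, x, hx⟩ := h b hb
    exact ⟨R, _, φ, hφ, x, fun f hf => eval₂_eq_zero_of_span hTS hx f hf⟩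
  obtain ⟨D, hD, hfam⟩ := family_field T h'
  refine ⟨D, hD, ?_, ?_⟩
  · intro R _ _ φ hφ
    obtain ⟨x, hx⟩ := hfam R φ hφ
    exact ⟨x, eval₂_eq_zero_of_span hST hx⟩
  · intro R _ φ hφ
    obtain ⟨x, hx⟩ := hfam (AlgebraicClosure R) ((algebraMap R (AlgebraicClosure R)).comp φ) (by
      rw [RingHom.comp_apply]
      intro h0
      exact hφ ((algebraMap R (AlgebraicClosure R)).injective (by rw [h0, map_zero])))
    exact exists_finite_ext S φ x (eval₂_eq_zero_of_span hST hx)

/-- (T5) the generic family with one parameter `t`, infinite systems over Noetherian domains -/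
theorem generic_family_set {B : Type*} [CommRing B] [IsDomain B] [CharZero B]
    [IsNoetherianRing B] {σ : Type*} [Finite σ] (S : Set (MvPolynomial σ B))
    (h : ∀ b : B, b ≠ 0 → ∃ (R : Type) (_ : Field R) (φ : B →+* R), φ b ≠ 0 ∧
      ∃ x : σ → R, ∀ f ∈ S, MvPolynomial.eval₂ φ x f = 0) :
    ∃ (D : B) (P : B[X]) (Q : σ → B[X]), D ≠ 0 ∧ 0 < P.natDegree ∧ P.leadingCoeff = D ∧
      ∀ (R : Type*) [CommRing R] (φ : B →+* R) (t : R), IsUnit (φ D) → P.eval₂ φ t = 0 →
        IsUnit ((derivative P).eval₂ φ t) ∧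
        ∀ x : σ → R, (∀ i, φ D * x i = (Q i).eval₂ φ t) →
          ∀ f ∈ S, MvPolynomial.eval₂ φ x f = 0 := by
  obtain ⟨T, hT⟩ := exists_finset_span S
  have hST : S ⊆ Ideal.span (T : Set (MvPolynomial σ B)) := by
    rw [hT]
    exact Ideal.subset_span
  have hTS : (T : Set (MvPolynomial σ B)) ⊆ Ideal.span S := by
    rw [← hT]
    exact Ideal.subset_span
  obtain ⟨D, P, Q, hD, hP, hl, hfam⟩ := generic_family T (by
    intro b hb
    obtain ⟨R, _, φ, hφ, x, hx⟩ := h b hb
    exact ⟨R, _, φ, hφ, x, fun f hf => eval₂_eq_zero_of_span hTS hx f hf⟩)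
  refine ⟨D, P, Q, hD, hP, hl, fun R _ φ t hφ ht => ?_⟩
  obtain ⟨h1, h2⟩ := hfam R φ t hφ ht
  exact ⟨h1, fun x hx => eval₂_eq_zero_of_span hST (h2 x hx)⟩

end Pool.Agent.VFree
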