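import Pool.Agent.Lib_MP_1858fb_w.ObsR
import Mathlib.RingTheory.PrincipalIdealDomain
import Mathlib.LinearAlgebra.Dimension.Constructions
import Mathlib.LinearAlgebra.Matrix.Rank

/-!
# The obstruction lemma for a submodule of the vectors of polynomials

`W` is a submodule of `K[X]^ι`, for example the vectors that are proportional to `F` at some marks.
-/

set_option autoImplicit false
set_option linter.unusedSectionVars false

namespace Pool.Agent.VF.ObsR

open Polynomial

variable {k K ι : Type*} [Field k] [Field K] [Algebra k K] [Fintype ι]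

variable {F : ι → K[X]} {I : Ideal (MvPolynomial ι k)} {d : ℕ}

/-- Local solutions give a solution without bound for the degree. -/
lemma obs_affine [IsAlgClosed K] (W : Submodule K[X] (ι → K[X]))
    (o : MvPolynomial ι k → K[X])
    (hloc : ∀ a : K, ∃ u : K[X], u.eval a ≠ 0 ∧
      ∃ δ ∈ W, ∀ E ∈ I, ∑ i, dif F E i * δ i = u * o E) :
    ∃ δ ∈ W, ∀ E ∈ I, ∑ i, dif F E i * δ i = o E := by
  let J : Ideal K[X] :=
    { carrier := {u | ∃ δ ∈ W, ∀ E ∈ I, ∑ i, dif F E i * δ i = u * o E}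
      zero_mem' := ⟨0, W.zero_mem, fun E _ => by simp⟩
      add_mem' := by
        rintro u u' ⟨δ, hδ, h⟩ ⟨δ', hδ', h'⟩
        refine ⟨δ + δ', W.add_mem hδ hδ', fun E hE => ?_⟩
        simp only [Pi.add_apply, mul_add, Finset.sum_add_distrib]
        rw [h E hE, h' E hE, add_mul]
      smul_mem' := by
        rintro c u ⟨δ, hδ, h⟩
        refine ⟨c • δ, W.smul_mem c hδ, fun E hE => ?_⟩
        rw [smul_eq_mul, mul_assoc, ← h E hE, Finset.mul_sum]
        exact Finset.sum_congr rfl fun i _ => by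
          rw [Pi.smul_apply, smul_eq_mul]
          ring }
  have h1 : (1 : K[X]) ∈ J := by
    obtain ⟨p, hp⟩ := (IsPrincipalIdealRing.principal J).principal
    by_cases hdeg : p.degree = 0
    · have : J = ⊤ := by
        rw [hp]
        exact Ideal.span_singleton_eq_top.mpr (isUnit_iff_degree_eq_zero.mpr hdeg)
      rw [this]
      trivial
    · exfalso
      obtain ⟨a, ha⟩ := IsAlgClosed.exists_root p hdeg
      obtain ⟨u, hu, hu'⟩ := hloc a
      have huJ : u ∈ J := hu'
      rw [hp] at huJ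
      obtain ⟨q, hq⟩ := Ideal.mem_span_singleton.mp huJ
      apply hu
      rw [hq, eval_mul, IsRoot.def.mp ha, zero_mul]
  obtain ⟨δ, hδ, h⟩ := h1
  exact ⟨δ, hδ, fun E hE => by rw [h E hE, one_mul]⟩

/-- The degree is lowered step by step. -/
lemma obs_degree_W (hFd : ∀ i, (F i).natDegree ≤ d) (W : Submodule K[X] (ι → K[X]))
    (hinf : ∀ x : ι → K, (∀ E ∈ I, ∀ e, E.IsHomogeneous e →
        ∑ i, (dif F E i).coeff (d * (e - 1)) * x i = 0) →
      ∃ g ∈ W, IsSec F I d g ∧ ∀ i, (g i).coeff d = x i)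
    {o : MvPolynomial ι k → K[X]}
    (hod : ∀ E ∈ I, ∀ e, E.IsHomogeneous e → (o E).natDegree ≤ d * e) (m : ℕ) :
    ∀ δ ∈ W, (∀ i, (δ i).natDegree ≤ d + m) → (∀ E ∈ I, ∑ i, dif F E i * δ i = o E) →
      ∃ δ ∈ W, (∀ i, (δ i).natDegree ≤ d) ∧ ∀ E ∈ I, ∑ i, dif F E i * δ i = o E := by
  induction m with
  | zero => exact fun δ hW h1 h2 => ⟨δ, hW, h1, h2⟩
  | succ m ih =>
    intro δ hδW hδd hδ
    obtain ⟨g, hgW, hg, hgc⟩ := hinf (fun i => (δ i).coeff (d + (m + 1))) (fun E hE e he => by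
      rcases Nat.eq_zero_or_pos e with rfl | hpos
      · have hz : ∀ i, dif F E i = 0 := by
          intro i
          have h1 := MvPolynomial.totalDegree_eq_zero_iff_eq_C.mp
            (Nat.le_zero.mp he.totalDegree_le)
          rw [dif, h1, MvPolynomial.pderiv_C, map_zero]
        simp [hz]
      · have h1 : ∑ i, (dif F E i).coeff (d * (e - 1)) * (δ i).coeff (d + (m + 1)) =
            (∑ i, dif F E i * δ i).coeff (d * (e - 1) + (d + (m + 1))) := by
          rw [finsetSum_coeff]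
          refine Finset.sum_congr rfl fun i _ => ?_
          rw [coeff_mul_add_eq_of_natDegree_le (natDegree_dif_le hFd he i) (hδd i)]
        rw [h1, hδ E hE]
        apply coeff_eq_zero_of_natDegree_lt
        obtain ⟨e', rfl⟩ := Nat.exists_eq_succ_of_ne_zero hpos.ne'
        refine lt_of_le_of_lt (hod E hE _ he) ?_
        simp only [Nat.succ_eq_add_one, Nat.add_sub_cancel, Nat.mul_add]
        omega)
    refine ih (δ - (X ^ (m + 1) : K[X]) • g) (W.sub_mem hδW (W.smul_mem _ hgW)) (fun i => ?_)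
      (fun E hE => ?_)
    · rw [Pi.sub_apply, Pi.smul_apply, smul_eq_mul, natDegree_le_iff_coeff_eq_zero]
      intro n hn
      rw [coeff_sub, coeff_X_pow_mul']
      rcases Nat.lt_or_ge (d + (m + 1)) n with h | h
      · rw [coeff_eq_zero_of_natDegree_lt (lt_of_le_of_lt (hδd i) h), if_pos (by omega),
          coeff_eq_zero_of_natDegree_lt (lt_of_le_of_lt (hg.1 i) (by omega)), sub_zero]
      · have hn' : n = d + (m + 1) := by omega
        rw [hn', if_pos (by omega), Nat.add_sub_cancel, hgc, sub_self]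
    · simp only [Pi.sub_apply, Pi.smul_apply, smul_eq_mul, mul_sub, Finset.sum_sub_distrib]
      rw [hδ E hE]
      have : ∑ i, dif F E i * (X ^ (m + 1) * g i) = X ^ (m + 1) * ∑ i, dif F E i * g i := by
        rw [Finset.mul_sum]
        exact Finset.sum_congr rfl fun i _ => by ring
      rw [this, hg.2 E hE, mul_zero, sub_zero]

/-- **The obstruction lemma for a submodule.** -/
theorem obs_W [IsAlgClosed K] (hFd : ∀ i, (F i).natDegree ≤ d) (W : Submodule K[X] (ι → K[X]))
    (o : MvPolynomial ι k → K[X])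
    (hloc : ∀ a : K, ∃ u : K[X], u.eval a ≠ 0 ∧
      ∃ δ ∈ W, ∀ E ∈ I, ∑ i, dif F E i * δ i = u * o E)
    (hinf : ∀ x : ι → K, (∀ E ∈ I, ∀ e, E.IsHomogeneous e →
        ∑ i, (dif F E i).coeff (d * (e - 1)) * x i = 0) →
      ∃ g ∈ W, IsSec F I d g ∧ ∀ i, (g i).coeff d = x i)
    (hod : ∀ E ∈ I, ∀ e, E.IsHomogeneous e → (o E).natDegree ≤ d * e) :
    ∃ δ ∈ W, (∀ i, (δ i).natDegree ≤ d) ∧ ∀ E ∈ I, ∑ i, dif F E i * δ i = o E := by
  obtain ⟨δ, hW, hδ⟩ := obs_affine W o hloc
  refine obs_degree_W hFd W hinf hod (∑ i, (δ i).natDegree) δ hW (fun i => ?_) hδ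
  have := Finset.single_le_sum (f := fun i => (δ i).natDegree) (fun _ _ => Nat.zero_le _)
    (Finset.mem_univ i)
  have h2 : (δ i).natDegree ≤ ∑ i, (δ i).natDegree := this
  omega

/-- Linear equations with independent rows at a point, with control of divisibility. -/
lemma loc_sol' {r : ℕ} (A : Fin r → ι → K[X]) (b : Fin r → K[X]) (a : K)
    (h : LinearIndependent K (fun j i => (A j i).eval a)) :
    ∃ u : K[X], u.eval a ≠ 0 ∧ ∃ δ : ι → K[X], (∀ p : K[X], (∀ j, p ∣ b j) → ∀ i, p ∣ δ i) ∧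
      ∀ j, ∑ i, A j i * δ i = u * b j := by
  classical
  -- solve for the unit vectors
  have h1 : ∀ l : Fin r, ∃ u : K[X], u.eval a ≠ 0 ∧ ∃ δ : ι → K[X], ∀ j,
      ∑ i, A j i * δ i = u * (if j = l then 1 else 0) := fun l => loc_sol A _ a h
  choose u hu δ hδ using h1
  refine ⟨∏ l, u l, ?_, fun i => ∑ l, (∏ l' ∈ Finset.univ.erase l, u l') * b l * δ l i,
    fun p hp i => ?_, fun j => ?_⟩
  · rw [eval_prod]
    exact Finset.prod_ne_zero_iff.mpr fun l _ => hu l
  · refine Finset.dvd_sum fun l _ => ?_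
    exact Dvd.dvd.mul_right (Dvd.dvd.mul_left (hp l) _) _
  · have h2 : ∑ i, A j i * ∑ l, (∏ l' ∈ Finset.univ.erase l, u l') * b l * δ l i =
        ∑ l, (∏ l' ∈ Finset.univ.erase l, u l') * b l * ∑ i, A j i * δ l i := by
      simp only [Finset.mul_sum]
      rw [Finset.sum_comm]
      exact Finset.sum_congr rfl fun l _ => Finset.sum_congr rfl fun i _ => by ring
    rw [h2]
    simp only [hδ]
    rw [Finset.sum_eq_single j]
    · rw [if_pos rfl, mul_one, ← Finset.mul_prod_erase Finset.univ u (Finset.mem_univ j)]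
      ring
    · intro l _ hl
      rw [if_neg (fun h => hl h.symm), mul_zero, mul_zero]
    · intro h
      exact absurd (Finset.mem_univ j) h

/-- The vectors of polynomials that are proportional to `F` at the marks. -/
def markW {w : Type*} (F : ι → K[X]) (c : w → K) : Submodule K[X] (ι → K[X]) where
  carrier := {δ | ∀ m, ∃ ρ : K, ∀ i, (δ i).eval (c m) = ρ * (F i).eval (c m)}
  zero_mem' := fun m => ⟨0, fun i => by simp⟩
  add_mem' := by
    intro δ δ' h h' m
    obtain ⟨ρ, hρ⟩ := h m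
    obtain ⟨ρ', hρ'⟩ := h' m
    exact ⟨ρ + ρ', fun i => by rw [Pi.add_apply, eval_add, hρ, hρ', add_mul]⟩
  smul_mem' := by
    intro p δ h m
    obtain ⟨ρ, hρ⟩ := h m
    exact ⟨p.eval (c m) * ρ, fun i => by
      rw [Pi.smul_apply, smul_eq_mul, eval_mul, hρ, mul_assoc]⟩

lemma mem_markW {w : Type*} {c : w → K} {δ : ι → K[X]} :
    δ ∈ markW F c ↔ ∀ m, ∃ ρ : K, ∀ i, (δ i).eval (c m) = ρ * (F i).eval (c m) := Iff.rfl

/-- **The obstruction lemma with marks.** -/
theorem obs_marks [IsAlgClosed K] {w : Type*} [Fintype w] (c : w → K)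
    (hFd : ∀ i, (F i).natDegree ≤ d)
    (hF : ∀ E ∈ I, MvPolynomial.aeval F E = 0) {r : ℕ} (hloc : ∀ a : K, LocGen F I r a)
    (hinf : ∀ x : ι → K, (∀ E ∈ I, ∀ e, E.IsHomogeneous e →
        ∑ i, (dif F E i).coeff (d * (e - 1)) * x i = 0) →
      ∃ g ∈ markW F c, IsSec F I d g ∧ ∀ i, (g i).coeff d = x i)
    {o : MvPolynomial ι k → K[X]} (ho : IsDer F I o)
    (hoc : ∀ E ∈ I, ∀ m, (o E).eval (c m) = 0)
    (hod : ∀ E ∈ I, ∀ e, E.IsHomogeneous e → (o E).natDegree ≤ d * e) :
    ∃ δ ∈ markW F c, (∀ i, (δ i).natDegree ≤ d) ∧ ∀ E ∈ I, ∑ i, dif F E i * δ i = o E := by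
  classical
  refine obs_W hFd (markW F c) o (fun a => ?_) hinf hod
  obtain ⟨E, hE, hli, hG⟩ := hloc a
  obtain ⟨u, hu, δ, hdvd, hδ⟩ := loc_sol' (fun j => dif F (E j)) (fun j => o (E j)) a hli
  set p : K[X] := ∏ m ∈ Finset.univ.filter (fun m => c m ≠ a), (X - C (c m)) with hp
  refine ⟨p * u, ?_, fun i => p * δ i, fun m => ⟨0, fun i => ?_⟩, fun P hP => ?_⟩
  · rw [eval_mul, hp, eval_prod]
    refine mul_ne_zero (Finset.prod_ne_zero_iff.mpr fun m hm => ?_) hu
    rw [eval_sub, eval_X, eval_C]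
    exact sub_ne_zero.mpr (Ne.symm (Finset.mem_filter.mp hm).2)
  · rw [zero_mul, eval_mul]
    by_cases hm : c m = a
    · have h1 : (X - C (c m)) ∣ δ i := hdvd _ (fun j => by
        rw [dvd_iff_isRoot]
        exact hoc _ (hE j) m) i
      rw [dvd_iff_isRoot] at h1
      rw [IsRoot.def.mp h1, mul_zero]
    · rw [hp, eval_prod, Finset.prod_eq_zero (i := m), zero_mul]
      · exact Finset.mem_filter.mpr ⟨Finset.mem_univ _, hm⟩
      · rw [eval_sub, eval_X, eval_C, sub_self]
  · obtain ⟨G, hG, hGP⟩ := hG P hP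
    have h1 : ∑ i, dif F P i * δ i = u * o P :=
      (isDer_dif hF δ).ext (ho.smul u) hE hδ hP hG hGP
    have h2 : ∑ i, dif F P i * (p * δ i) = p * ∑ i, dif F P i * δ i := by
      rw [Finset.mul_sum]
      exact Finset.sum_congr rfl fun i _ => by ring
    rw [h2, h1, mul_assoc]

/-- Sections whose leading coefficients are independent span the tangent space at infinity. -/
lemma inf_of_indep (W : Submodule K[X] (ι → K[X])) {r : ℕ} {κ : Type*} [Fintype κ]
    (A : Fin r → ι → K) (hA : LinearIndependent K A)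
    (hAT : ∀ x : ι → K, (∀ E ∈ I, ∀ e, E.IsHomogeneous e →
        ∑ i, (dif F E i).coeff (d * (e - 1)) * x i = 0) → ∀ j, ∑ i, A j i * x i = 0)
    (s : κ → ι → K[X]) (hsW : ∀ c, s c ∈ W) (hs : ∀ c, IsSec F I d (s c))
    (hsA : ∀ c j, ∑ i, A j i * (s c i).coeff d = 0)
    (hli : LinearIndependent K (fun c i => (s c i).coeff d))
    (hcard : Fintype.card κ + r = Fintype.card ι) (x : ι → K)
    (hx : ∀ E ∈ I, ∀ e, E.IsHomogeneous e →
        ∑ i, (dif F E i).coeff (d * (e - 1)) * x i = 0) :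
    ∃ g ∈ W, IsSec F I d g ∧ ∀ i, (g i).coeff d = x i := by
  classical
  set M : Matrix (Fin r) ι K := Matrix.of A with hM
  have hker : ∀ y : ι → K, y ∈ LinearMap.ker M.mulVecLin ↔ ∀ j, ∑ i, A j i * y i = 0 := by
    intro y
    rw [LinearMap.mem_ker, Matrix.mulVecLin_apply]
    constructor
    · intro h j
      exact congrFun h j
    · intro h
      ext j
      exact h j
  have hrank : M.rank = r := by
    have h1 : LinearIndependent K M.row := hA
    rw [h1.rank_matrix, Fintype.card_fin]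
  have hfin : Module.finrank K (LinearMap.ker M.mulVecLin) = Fintype.card κ := by
    have h1 := M.mulVecLin.finrank_range_add_finrank_ker
    rw [Module.finrank_fintype_fun_eq_card] at h1
    have h2 : Module.finrank K (LinearMap.range M.mulVecLin) = r := hrank
    omega
  set b : κ → LinearMap.ker M.mulVecLin :=
    fun c => ⟨fun i => (s c i).coeff d, (hker _).mpr fun j => hsA c j⟩ with hb
  have hbli : LinearIndependent K b := by
    apply LinearIndependent.of_comp (LinearMap.ker M.mulVecLin).subtype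
    exact hli
  have hspan := hbli.span_eq_top_of_card_eq_finrank' hfin.symm
  have hxk : x ∈ LinearMap.ker M.mulVecLin := (hker x).mpr (hAT x hx)
  have hxs : (⟨x, hxk⟩ : LinearMap.ker M.mulVecLin) ∈ Submodule.span K (Set.range b) := by
    rw [hspan]
    trivial
  obtain ⟨a, ha⟩ := (Submodule.mem_span_range_iff_exists_fun K).mp hxs
  have hax : ∀ i, ∑ c, a c * (s c i).coeff d = x i := by
    intro i
    have h1 := congrFun (congrArg Subtype.val ha) i
    simpa [hb] using h1
  refine ⟨∑ c, (C (a c) : K[X]) • s c, W.sum_mem fun c _ => W.smul_mem _ (hsW c),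
    ⟨fun i => ?_, fun E hE => ?_⟩, fun i => ?_⟩
  · rw [Finset.sum_apply]
    refine natDegree_sum_le_of_forall_le _ _ fun c _ => ?_
    rw [Pi.smul_apply, smul_eq_mul]
    exact (natDegree_C_mul_le _ _).trans ((hs c).1 i)
  · have h1 : ∑ i, dif F E i * (∑ c, (C (a c) : K[X]) • s c) i =
        ∑ c, C (a c) * ∑ i, dif F E i * s c i := by
      simp only [Finset.sum_apply, Pi.smul_apply, smul_eq_mul, Finset.mul_sum]
      rw [Finset.sum_comm]
      exact Finset.sum_congr rfl fun c _ => Finset.sum_congr rfl fun i _ => by ring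
    rw [h1]
    exact Finset.sum_eq_zero fun c _ => by rw [(hs c).2 E hE, mul_zero]
  · rw [Finset.sum_apply, finsetSum_coeff, ← hax i]
    exact Finset.sum_congr rfl fun c _ => by rw [Pi.smul_apply, smul_eq_mul, coeff_C_mul]

end Pool.Agent.VF.ObsR
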