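import Mathlib

/-!
# MP_1858fb_ag: definitions (very free curves in a locally closed subset of projective space)

Everything is written with homogeneous coordinate vectors: a subset of projective `N`-space
over `k` is given by the set `V` of its homogeneous coordinate vectors (its cone without `0`).
-/

namespace Pool.Agent.VF

open MvPolynomial

section Basic

variable {k : Type} [Field k]

/-- The ideal of the polynomials that vanish at every point of `V`. -/
def van {σ : Type} (V : Set (σ → k)) : Ideal (MvPolynomial σ k) where
  carrier := {E | ∀ x ∈ V, aeval x E = 0}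
  add_mem' := by
    intro a b ha hb x hx
    rw [map_add, ha x hx, hb x hx, add_zero]
  zero_mem' := by
    intro x _
    exact map_zero _
  smul_mem' := by
    intro c a ha x hx
    rw [smul_eq_mul, map_mul, ha x hx, mul_zero]

/-- The differential of the polynomial `E` at the point `x`, applied to the vector `w`:
the sum of `(dE/dX_j)(x) * w_j`. -/
noncomputable def dif {σ : Type} [Fintype σ] {R : Type} [CommRing R] [Algebra k R]
    (E : MvPolynomial σ k) (x w : σ → R) : R :=
  ∑ j, aeval x (pderiv j E) * w j

/-- The value at `(p, q)` of the tuple of binary forms of degree `d` whose coefficient at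
`p^(d-j) q^j` is `F j`. -/
def val {κ : Type} {R : Type} [CommSemiring R] {d : ℕ} (F : Fin (d + 1) → κ → R) (p q : R) :
    κ → R :=
  fun i => ∑ j : Fin (d + 1), F j i * (p ^ (d - (j : ℕ)) * q ^ (j : ℕ))

/-- `V` is the set of the homogeneous coordinate vectors of the points of a locally closed
subset of projective space: the common zeros of the forms in `I` at which the forms in `J`
do not all vanish. -/
def LocClosed {N : ℕ} (V : Set (Fin (N + 1) → k)) : Prop :=
  ∃ I J : Set (MvPolynomial (Fin (N + 1)) k),
    (∀ E ∈ I ∪ J, ∃ e : ℕ, E.IsHomogeneous e) ∧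
    V = {x | x ≠ 0 ∧ (∀ E ∈ I, aeval x E = 0) ∧ ∃ G ∈ J, aeval x G ≠ 0}

/-- `V` is irreducible: it is not empty and the ideal of the polynomials that vanish on it
is prime. -/
def Irred {σ : Type} (V : Set (σ → k)) : Prop :=
  V.Nonempty ∧ ∀ E G : MvPolynomial σ k, E * G ∈ van V → E ∈ van V ∨ G ∈ van V

/-- `V` is smooth of codimension `c` at `x`: near `x` the ideal of `V` is generated by `c`
polynomials whose differentials at `x` are linearly independent. -/
def SmoothAt {σ : Type} [Fintype σ] (c : ℕ) (V : Set (σ → k)) (x : σ → k) : Prop :=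
  ∃ (E : Fin c → MvPolynomial σ k) (H : MvPolynomial σ k),
    (∀ i, E i ∈ van V) ∧
    LinearIndependent k (fun (i : Fin c) (j : σ) => aeval x (pderiv j (E i))) ∧
    aeval x H ≠ 0 ∧
    ∀ G ∈ van V, H * G ∈ Ideal.span (Set.range E)

/-- The tangent space of (the cone over) `V` at `x`. -/
noncomputable def Tan {σ : Type} [Fintype σ] (V : Set (σ → k)) (x : σ → k) :
    Submodule k (σ → k) where
  carrier := {w | ∀ E ∈ van V, dif E x w = 0}
  add_mem' := by
    intro a b ha hb E hE
    have h1 := ha E hE
    have h2 := hb E hE
    simp only [dif, Pi.add_apply, mul_add, Finset.sum_add_distrib] at h1 h2 ⊢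
    rw [h1, h2, add_zero]
  zero_mem' := by
    intro E _
    simp [dif]
  smul_mem' := by
    intro c a ha E hE
    have h1 := ha E hE
    simp only [dif, Pi.smul_apply, smul_eq_mul] at h1 ⊢
    have : ∑ j, aeval x (pderiv j E) * (c * a j) = c * ∑ j, aeval x (pderiv j E) * a j := by
      rw [Finset.mul_sum]
      exact Finset.sum_congr rfl fun j _ => by ring
    rw [this, h1, mul_zero]

/-- The tuple `F` of binary forms of degree `d` is a morphism from the projective line to `V`:
its value at every point `(p, q) ≠ (0, 0)` belongs to `V`. -/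
def IsCurve {N d : ℕ} (V : Set (Fin (N + 1) → k)) (F : Fin (d + 1) → Fin (N + 1) → k) : Prop :=
  ∀ p q : k, (p ≠ 0 ∨ q ≠ 0) → val F p q ∈ V

/-- The tuple `G` of binary forms (of some degree `e`) is tangent to the cone over `V` along
the curve `F`: its value at `(p, q)` is tangent to `V` at the value of `F`. -/
def IsTangent {N d e : ℕ} (V : Set (Fin (N + 1) → k)) (F : Fin (d + 1) → Fin (N + 1) → k)
    (G : Fin (e + 1) → Fin (N + 1) → k) : Prop :=
  ∀ p q : k, val G p q ∈ Tan V (val F p q)

/-- The curve `F` in `V` is very free: for any two distinct points `(p : q)`, `(p' : q')` of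
the projective line the sections of the pull back of the tangent bundle of `V` take arbitrary
values at the two points. A section is given by a tuple `G` of binary forms of the same degree
as `F` that is tangent to the cone over `V`; a tangent vector of `V` at the point with
homogeneous coordinates `x` is a vector tangent to the cone at `x` modulo multiples of `x`. -/
def VeryFree {N d : ℕ} (V : Set (Fin (N + 1) → k)) (F : Fin (d + 1) → Fin (N + 1) → k) :
    Prop :=
  ∀ p q p' q' : k, p * q' - p' * q ≠ 0 →
    ∀ w ∈ Tan V (val F p q), ∀ w' ∈ Tan V (val F p' q'),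
      ∃ G : Fin (d + 1) → Fin (N + 1) → k, IsTangent V F G ∧
        (∃ a : k, val G p q = w + a • val F p q) ∧
        (∃ a' : k, val G p' q' = w' + a' • val F p' q')

/-- The tuples of forms of degree `d - e` that are tangent to the cone over `V` along `F`
span the tangent space at every point of the curve. -/
def Span {N d : ℕ} (V : Set (Fin (N + 1) → k)) (F : Fin (d + 1) → Fin (N + 1) → k) (e : ℕ) :
    Prop :=
  e ≤ d ∧ ∀ p q : k, (p ≠ 0 ∨ q ≠ 0) → ∀ w ∈ Tan V (val F p q),
    ∃ G : Fin (d - e + 1) → Fin (N + 1) → k, IsTangent V F G ∧ val G p q = w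

end Basic

end Pool.Agent.VF
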