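import Mathlib
import Pool.Agent.Lib_MP_1858fb_w.Defs
import Pool.Agent.Lib_MP_1858fb_w.Inj2

/-!
# MP_1858fb_ag, piece CHART, algebraic part (any field)

Choice of coordinates at a smooth point: an invertible minor (avoiding one coordinate `i₀` that
does not vanish at the point, when the set is a cone), and the parameters generate the
cotangent space.
-/

set_option autoImplicit false

namespace Pool.Agent.VF

open MvPolynomial

/-- an invertible minor of linearly independent rows -/
theorem exists_minor {k : Type*} [Field k] {ι M : Type*} [Fintype ι] [DecidableEq ι] [Fintype M]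
    (a : ι → M → k) (ha : LinearIndependent k a) :
    ∃ e : ι → M, Function.Injective e ∧ (Matrix.of (fun i j => a i (e j))).det ≠ 0 := by
  classical
  let A : Matrix ι M k := Matrix.of a
  have hr : A.rank = Fintype.card ι := by
    have : LinearIndependent k A.row := ha
    exact this.rank_matrix
  have htop : Submodule.span k (Set.range A.col) = ⊤ := by
    apply Submodule.eq_top_of_finrank_eq
    rw [← Matrix.rank_eq_finrank_span_cols, hr, Module.finrank_fintype_fun_eq_card]
  obtain ⟨κ, c, hc, hsp, hli⟩ := exists_linearIndependent' k A.col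
  have : Fintype κ := Fintype.ofInjective c hc
  let b : Module.Basis κ k (ι → k) := Module.Basis.mk hli (by rw [hsp, htop])
  have hcard : Fintype.card ι = Fintype.card κ := by
    rw [← Module.finrank_eq_card_basis b, Module.finrank_fintype_fun_eq_card]
  let s : ι ≃ κ := Fintype.equivOfCardEq hcard
  refine ⟨c ∘ s, hc.comp s.injective, ?_⟩
  have h1 : LinearIndependent k (Matrix.of (fun i j => a i ((c ∘ s) j)) : Matrix ι ι k).col :=
    hli.comp s s.injective
  have h2 := Matrix.linearIndependent_cols_iff_isUnit.1 h1
  rw [Matrix.isUnit_iff_isUnit_det] at h2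
  exact h2.ne_zero

/-- Rows that vanish on a vector `x` with `x i₀ ≠ 0` stay independent without the column `i₀`. -/
theorem li_restrict {k : Type*} [Field k] {ι σ : Type*} [Fintype ι] [Fintype σ]
    (r : ι → σ → k) (hr : LinearIndependent k r) (x : σ → k) (i₀ : σ) (hx0 : x i₀ ≠ 0)
    (hrel : ∀ i, ∑ j, r i j * x j = 0) :
    LinearIndependent k (fun (i : ι) (j : {j : σ // j ≠ i₀}) => r i j) := by
  classical
  rw [Fintype.linearIndependent_iff] at hr ⊢
  intro g hg
  apply hr g
  have h1 : ∀ j : σ, j ≠ i₀ → ∑ i, g i * r i j = 0 := by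
    intro j hj
    have := congrFun hg ⟨j, hj⟩
    simpa [Finset.sum_apply] using this
  have h2 : (∑ i, g i * r i i₀) * x i₀ = 0 := by
    have e1 : ∑ j, (∑ i, g i * r i j) * x j = 0 := by
      have : ∀ j, (∑ i, g i * r i j) * x j = ∑ i, g i * (r i j * x j) := by
        intro j
        rw [Finset.sum_mul]
        exact Finset.sum_congr rfl fun i _ => by ring
      simp_rw [this]
      rw [Finset.sum_comm]
      simp_rw [← Finset.mul_sum, hrel]
      simp
    rw [Finset.sum_eq_single i₀] at e1
    · exact e1
    · intro j _ hj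
      rw [h1 j hj, zero_mul]
    · intro h; exact absurd (Finset.mem_univ _) h
  have h3 : ∑ i, g i * r i i₀ = 0 := by
    rcases mul_eq_zero.1 h2 with h | h
    · exact h
    · exact absurd h hx0
  funext j
  simp only [Finset.sum_apply, Pi.smul_apply, smul_eq_mul, Pi.zero_apply]
  by_cases hj : j = i₀
  · rw [hj]; exact h3
  · exact h1 j hj

section line

variable {k : Type} [Field k] {σ : Type} [Fintype σ]

/-- the restriction of a polynomial to the line `t ↦ t x` -/
noncomputable def onLine (x : σ → k) : MvPolynomial σ k →ₐ[k] Polynomial k :=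
  aeval fun j => Polynomial.C (x j) * Polynomial.X

omit [Fintype σ] in
theorem eval_onLine (x : σ → k) (t : k) (E : MvPolynomial σ k) :
    (onLine x E).eval t = aeval (t • x) E := by
  have h : (Polynomial.aeval t).comp (onLine x) = aeval (t • x) := by
    apply MvPolynomial.algHom_ext
    intro j
    rw [AlgHom.comp_apply, onLine, aeval_X, aeval_X, map_mul, Polynomial.aeval_C,
      Polynomial.aeval_X, Pi.smul_apply, smul_eq_mul, mul_comm]
    rfl
  have h2 := congrArg (fun g => g E) h
  simp only [AlgHom.comp_apply] at h2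
  rw [← h2, Polynomial.coe_aeval_eq_eval]

theorem derivative_onLine (x : σ → k) (E : MvPolynomial σ k) :
    Polynomial.derivative (onLine x E) = ∑ j, onLine x (pderiv j E) * Polynomial.C (x j) := by
  classical
  induction E using MvPolynomial.induction_on with
  | C a => simp [onLine]
  | add p q hp hq =>
    simp only [map_add, hp, hq, add_mul, Finset.sum_add_distrib]
  | mul_X p l hp =>
    have e1 : onLine x (X l) = Polynomial.C (x l) * Polynomial.X := by simp [onLine]
    have e2 : ∀ j, onLine x (pderiv j (p * X l)) * Polynomial.C (x j) =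
        (Polynomial.C (x l) * Polynomial.X) * (onLine x (pderiv j p) * Polynomial.C (x j)) +
          (if j = l then onLine x p * Polynomial.C (x l) else 0) := by
      intro j
      rw [Derivation.leibniz, pderiv_X]
      simp only [smul_eq_mul, map_add, map_mul, e1]
      by_cases h : j = l
      · subst h
        simp only [Pi.single_eq_same, map_one, mul_one, if_true]
        ring
      · rw [Pi.single_eq_of_ne (Ne.symm h) , if_neg h, map_zero]
        ring
    simp_rw [e2]
    rw [Finset.sum_add_distrib, ← Finset.mul_sum, ← hp, Finset.sum_ite_eq' Finset.univ l]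
    simp only [Finset.mem_univ, if_true, map_mul, e1, Polynomial.derivative_mul,
      Polynomial.derivative_C, Polynomial.derivative_X, mul_one, zero_mul, zero_add]
    ring

/-- **Euler**: the differential at `x` of a polynomial that vanishes on a cone kills `x`. -/
theorem euler [Infinite k] {V : Set (σ → k)} (hcone : ∀ x ∈ V, ∀ c : k, c ≠ 0 → c • x ∈ V)
    {x : σ → k} (hx : x ∈ V) {E : MvPolynomial σ k} (hE : E ∈ van V) :
    ∑ j, aeval x (pderiv j E) * x j = 0 := by
  have h0 : onLine x E = 0 := by
    have h1 : Polynomial.X * onLine x E = 0 := by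
      apply Polynomial.eq_zero_of_infinite_isRoot
      refine Set.infinite_univ.mono ?_
      intro t _
      show (Polynomial.X * onLine x E).eval t = 0
      rw [Polynomial.eval_mul, Polynomial.eval_X, eval_onLine]
      by_cases ht : t = 0
      · rw [ht, zero_mul]
      · rw [hE _ (hcone x hx t ht), mul_zero]
    rcases mul_eq_zero.1 h1 with h | h
    · exact absurd h Polynomial.X_ne_zero
    · exact h
  have h2 := derivative_onLine x E
  rw [h0, map_zero] at h2
  have h3 := congrArg (Polynomial.eval 1) h2
  rw [Polynomial.eval_zero, Polynomial.eval_finsetSum] at h3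
  rw [h3]
  refine Finset.sum_congr rfl fun j _ => ?_
  rw [Polynomial.eval_mul, eval_onLine, Polynomial.eval_C, one_smul]

/-- the same for the homogeneity of the vanishing ideal: it is enough to know the cone property -/
theorem dif_self [Infinite k] {V : Set (σ → k)} (hcone : ∀ x ∈ V, ∀ c : k, c ≠ 0 → c • x ∈ V)
    {x : σ → k} (hx : x ∈ V) : x ∈ Tan V x :=
  fun _ hE => euler hcone hx hE

/-- **The coordinates at a smooth point of a cone.** -/
theorem exists_minor_cone [Infinite k] {c : ℕ} {V : Set (σ → k)}
    (hcone : ∀ x ∈ V, ∀ a : k, a ≠ 0 → a • x ∈ V) {x : σ → k} (hx : x ∈ V) (i₀ : σ)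
    (hx0 : x i₀ ≠ 0) (hs : SmoothAt c V x) :
    ∃ (E : Fin c → MvPolynomial σ k) (H : MvPolynomial σ k) (e : Fin c → σ),
      (∀ i, E i ∈ van V) ∧ aeval x H ≠ 0 ∧ (∀ G ∈ van V, H * G ∈ Ideal.span (Set.range E)) ∧
      Function.Injective e ∧ (∀ i, e i ≠ i₀) ∧
      (Matrix.of fun i j => aeval x (pderiv (e j) (E i))).det ≠ 0 := by
  classical
  obtain ⟨E, H, hE, hli, hH, hloc⟩ := hs
  obtain ⟨e, he, hdet⟩ := exists_minor _ (li_restrict _ hli x i₀ hx0
    fun i => euler hcone hx (hE i))
  exact ⟨E, H, fun i => (e i : σ), hE, hH, hloc, fun i j h => he (Subtype.ext h),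
    fun i => (e i).2, hdet⟩

/-- **The coordinates at a smooth point**, without a cone. -/
theorem exists_minor_smooth {c : ℕ} {V : Set (σ → k)} {x : σ → k} (hs : SmoothAt c V x) :
    ∃ (E : Fin c → MvPolynomial σ k) (H : MvPolynomial σ k) (e : Fin c → σ),
      (∀ i, E i ∈ van V) ∧ aeval x H ≠ 0 ∧ (∀ G ∈ van V, H * G ∈ Ideal.span (Set.range E)) ∧
      Function.Injective e ∧ (Matrix.of fun i j => aeval x (pderiv (e j) (E i))).det ≠ 0 := by
  classical
  obtain ⟨E, H, hE, hli, hH, hloc⟩ := hs
  obtain ⟨e, he, hdet⟩ := exists_minor _ hli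
  exact ⟨E, H, e, hE, hH, hloc, he, hdet⟩

end line

section gen

variable {k : Type*} [Field k] {σ : Type*} [Fintype σ]

/-- With an invertible minor `e` of the differentials at `v` of members of `I`, the other
coordinates generate the cotangent space. -/
theorem gen_of_minor {c : ℕ} (I : Ideal (MvPolynomial σ k)) (v : σ → k)
    (hv : ∀ f ∈ I, eval v f = 0) (E : Fin c → MvPolynomial σ k) (hE : ∀ i, E i ∈ I)
    (e : Fin c → σ) (he : Function.Injective e)
    (hdet : (Matrix.of fun i j => eval v (pderiv (e j) (E i))).det ≠ 0) (l : σ) :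
    X l - C (v l) ∈ (Ideal.span (Set.range fun j : {j : σ // j ∉ Set.range e} =>
      (X (j : σ) - C (v j) : MvPolynomial σ k)) ⊔ mAt v ^ 2 ⊔ I) := by
  classical
  refine gen_of_grad I v hv _ (fun i => by simp) ?_ l
  set S : Submodule k (σ → k) := Submodule.span k
    (Set.range (fun j : {j : σ // j ∉ Set.range e} =>
      grad v (X (j : σ) - C (v j) : MvPolynomial σ k)) ∪ grad v '' (I : Set _)) with hS
  have h1 : ∀ j : σ, j ∉ Set.range e → (Pi.single j 1 : σ → k) ∈ S := by
    intro j hj
    apply Submodule.subset_span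
    left
    refine ⟨⟨j, hj⟩, ?_⟩
    funext i
    show eval v (pderiv i (X j - C (v j))) = (Pi.single j 1 : σ → k) i
    rw [map_sub, pderiv_C, sub_zero, pderiv_X]
    by_cases h : i = j
    · subst h; simp
    · rw [Pi.single_eq_of_ne h, Pi.single_eq_of_ne (Ne.symm h), map_zero]
  set M : Matrix (Fin c) (Fin c) k := Matrix.of fun i j => eval v (pderiv (e j) (E i)) with hM
  have h2 : ∀ i, ∑ j, M i j • (Pi.single (e j) 1 : σ → k) ∈ S := by
    intro i
    have e0 : ∑ j, M i j • (Pi.single (e j) 1 : σ → k) =
        grad v (E i) - ∑ l ∈ Finset.univ.filter (fun l => l ∉ Set.range e),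
          eval v (pderiv l (E i)) • (Pi.single l 1 : σ → k) := by
      have e1 : grad v (E i) = ∑ l, eval v (pderiv l (E i)) • (Pi.single l 1 : σ → k) := by
        funext l
        show eval v (pderiv l (E i)) = _
        simp [Finset.sum_apply, Pi.single_apply]
      have e2 : ∑ j, M i j • (Pi.single (e j) 1 : σ → k) =
          ∑ l ∈ Finset.univ.filter (fun l => l ∈ Set.range e),
            eval v (pderiv l (E i)) • (Pi.single l 1 : σ → k) := by
        have : Finset.univ.filter (fun l => l ∈ Set.range e) = Finset.univ.image e := by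
          ext l
          simp
        rw [this, Finset.sum_image (fun a _ b _ h => he h)]
        rfl
      rw [e1, e2, eq_sub_iff_add_eq, Finset.sum_filter_add_sum_filter_not]
    rw [e0]
    refine Submodule.sub_mem _ (Submodule.subset_span (Or.inr ⟨E i, hE i, rfl⟩)) ?_
    refine Submodule.sum_mem _ fun l hl => Submodule.smul_mem _ _ (h1 l ?_)
    exact (Finset.mem_filter.1 hl).2
  have h3 : ∀ j, (Pi.single (e j) 1 : σ → k) ∈ S := by
    intro j
    have hinv : M⁻¹ * M = 1 := Matrix.nonsing_inv_mul M (Ne.isUnit hdet)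
    have e1 : (Pi.single (e j) 1 : σ → k) =
        ∑ i, M⁻¹ j i • ∑ l, M i l • (Pi.single (e l) 1 : σ → k) := by
      simp_rw [Finset.smul_sum, smul_smul]
      rw [Finset.sum_comm]
      simp_rw [← Finset.sum_smul]
      have : ∀ l, ∑ i, M⁻¹ j i * M i l = (1 : Matrix (Fin c) (Fin c) k) j l := by
        intro l
        rw [← hinv, Matrix.mul_apply]
      simp_rw [this, Matrix.one_apply, ite_smul, one_smul, zero_smul]
      simp
    rw [e1]
    exact Submodule.sum_mem _ fun i _ => Submodule.smul_mem _ _ (h2 i)
  rw [eq_top_iff]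
  intro w _
  have e2 : w = ∑ j, w j • (Pi.single j 1 : σ → k) := by
    funext i
    simp [Finset.sum_apply, Pi.single_apply]
  rw [e2]
  refine Submodule.sum_mem _ fun j _ => Submodule.smul_mem _ _ ?_
  by_cases hj : j ∈ Set.range e
  · obtain ⟨i, rfl⟩ := hj
    exact h3 i
  · exact h1 j hj

end gen

end Pool.Agent.VF
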