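import Mathlib
import Pool.Agent.Lib_MP_1858fb_w.ChartA

/-!
# MP_1858fb_ag, piece CHART, analytic part: leading forms along arcs

`I` prime, `v` a zero of `I`, `x i` polynomials vanishing at `v` that generate the cotangent space.
A polynomial `G ∉ I` has a leading form `P ≠ 0` in the `x i`, and `G` does not vanish at the points
`≠ v` near `v` of an arc in the zero set of `I` with `x i = t * d i`, if `P (d) ≠ 0`.
Everything over an arbitrary nontrivially normed field `𝕜` over `k`.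
-/

set_option autoImplicit false

namespace Pool.Agent.VF

open MvPolynomial Filter Topology Asymptotics

section lead

variable {k σ ι : Type*} [Field k]

/-- **The leading form** of a polynomial at a smooth point. -/
theorem exists_lead [Finite σ] [Finite ι] (I : Ideal (MvPolynomial σ k)) [I.IsPrime] (v : σ → k)
    (hv : ∀ f ∈ I, eval v f = 0) (x : ι → MvPolynomial σ k) (hxv : ∀ i, eval v (x i) = 0)
    (hgen : ∀ l, X l - C (v l) ∈ (Ideal.span (Set.range x) ⊔ mAt v ^ 2 ⊔ I))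
    (G : MvPolynomial σ k) (hG : G ∉ I) :
    ∃ (d : ℕ) (P : MvPolynomial ι k), P.IsHomogeneous d ∧ P ≠ 0 ∧
      G - aeval x P ∈ mAt v ^ (d + 1) ⊔ I := by
  classical
  set n : Ideal (MvPolynomial σ k ⧸ I) := nAt I v with hn
  set b : MvPolynomial σ k ⧸ I := Ideal.Quotient.mk I G with hb
  have hne : b ≠ 0 := by
    intro h
    exact hG (Ideal.Quotient.eq_zero_iff_mem.mp h)
  have hK := Ideal.iInf_pow_eq_bot_of_isDomain n (nAt_ne_top hv)
  have hex : ∃ i, b ∉ n ^ i := by
    by_contra hall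
    push Not at hall
    apply hne
    have : b ∈ (⨅ i, n ^ i : Ideal (MvPolynomial σ k ⧸ I)) := (Ideal.mem_iInf).mpr hall
    rwa [hK, Ideal.mem_bot] at this
  obtain ⟨d, hd⟩ : ∃ d, Nat.find hex = d + 1 := by
    refine ⟨Nat.find hex - 1, ?_⟩
    have : Nat.find hex ≠ 0 := by
      intro h
      have := Nat.find_spec hex
      rw [h, pow_zero] at this
      exact this (by simp)
    omega
  have hbd : b ∈ n ^ d := by
    have := Nat.find_min hex (m := d) (by omega)
    simpa using this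
  have hbd1 : b ∉ n ^ (d + 1) := by
    have := Nat.find_spec hex
    rwa [hd] at this
  obtain ⟨P, hP, hPb⟩ := exists_form n exists_const
    (fun i => Ideal.Quotient.mk I (x i))
    (fun i => Ideal.mem_map_of_mem _ (mem_mAt_iff.mpr (hxv i))) (nAt_gen hgen) d b hbd
  refine ⟨d, P, hP, ?_, ?_⟩
  · intro h0
    rw [h0, map_zero, sub_zero] at hPb
    exact hbd1 hPb
  · have e1 : b - aeval (fun i => Ideal.Quotient.mk I (x i)) P =
        Ideal.Quotient.mk I (G - aeval x P) := by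
      rw [map_sub, hb]
      congr 1
      have h2 : (aeval fun i => Ideal.Quotient.mk I (x i) :
          MvPolynomial ι k →ₐ[k] (MvPolynomial σ k ⧸ I)) =
            (Ideal.Quotient.mkₐ k I).comp (aeval x) := by
        apply MvPolynomial.algHom_ext
        intro i
        simp
      rw [h2]
      rfl
    rw [e1, hn, nAt, ← Ideal.map_pow] at hPb
    obtain ⟨f, hf, hfe⟩ := (Ideal.mem_map_iff_of_surjective _
      Ideal.Quotient.mk_surjective).mp hPb
    have h3 : G - aeval x P - f ∈ I := by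
      rw [← Ideal.Quotient.eq, hfe]
    have h4 : G - aeval x P = f + (G - aeval x P - f) := by ring
    rw [h4]
    exact Ideal.add_mem _ (Ideal.mem_sup_left hf) (Ideal.mem_sup_right h3)

end lead

/-- homogeneity in any algebra -/
theorem aeval_mul_hom {k ι A : Type*} [Field k] [CommRing A] [Algebra k A]
    {P : MvPolynomial ι k} {D : ℕ} (hP : P.IsHomogeneous D) (t : A) (d : ι → A) :
    aeval (fun i => t * d i) P = t ^ D * aeval d P := by
  rw [aeval_def, aeval_def, eval₂_eq, eval₂_eq, Finset.mul_sum]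
  refine Finset.sum_congr rfl fun s hs => ?_
  have h : ∑ i ∈ s.support, s i = D := by
    have h1 := hP (mem_support_iff.1 hs)
    simpa [Finsupp.weight_apply, Finsupp.sum] using h1
  simp_rw [mul_pow, Finset.prod_mul_distrib, Finset.prod_pow_eq_pow_sum, h]
  ring

section arcs

variable {k σ ι : Type*} [Field k] {𝕜 : Type*} [NontriviallyNormedField 𝕜] [Algebra k 𝕜]

/-- Functions of `t` which are `O(t ^ p)`. -/
def bigT (𝕜 : Type*) [NontriviallyNormedField 𝕜] (p : ℕ) : AddSubgroup (𝕜 → 𝕜) where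
  carrier := {g | g =O[𝓝 0] fun t : 𝕜 => t ^ p}
  add_mem' := fun ha hb => ha.add hb
  zero_mem' := isBigO_zero _ _
  neg_mem' := fun ha => ha.neg_left

/-- the values of the polynomials along an arc -/
noncomputable def alongArc (x : 𝕜 → σ → 𝕜) : MvPolynomial σ k →ₐ[k] (𝕜 → 𝕜) :=
  aeval fun l t => x t l

theorem alongArc_apply (x : 𝕜 → σ → 𝕜) (f : MvPolynomial σ k) (t : 𝕜) :
    alongArc x f t = aeval (x t) f := by
  have : (Pi.evalAlgHom k (fun _ : 𝕜 => 𝕜) t).comp (alongArc x) = aeval (x t) := by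
    apply MvPolynomial.algHom_ext
    intro l
    simp [alongArc]
  have h2 := congrArg (fun g => g f) this
  simpa using h2

theorem bigT_mul (p q : ℕ) (a b : 𝕜 → 𝕜) (ha : a ∈ bigT 𝕜 p) (hb : b ∈ bigT 𝕜 q) :
    a * b ∈ bigT 𝕜 (p + q) := by
  have := IsBigO.mul (show a =O[𝓝 0] fun t : 𝕜 => t ^ p from ha)
    (show b =O[𝓝 0] fun t : 𝕜 => t ^ q from hb)
  show (a * b) =O[𝓝 0] fun t : 𝕜 => t ^ (p + q)
  refine this.congr (fun _ => rfl) (fun t => by rw [pow_add])

theorem const_mem_bigT (c : 𝕜) : (fun _ => c) ∈ bigT 𝕜 0 := by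
  show (fun _ : 𝕜 => c) =O[𝓝 0] fun t : 𝕜 => t ^ 0
  simp only [pow_zero]
  exact isBigO_const_const _ one_ne_zero _

/-- The values of a member of `𝔪 ^ p` along an arc through `v` are `O(t ^ p)`. -/
theorem mAt_pow_bigT (x : 𝕜 → σ → 𝕜) (v : σ → k)
    (hx : ∀ l, (fun t => x t l - algebraMap k 𝕜 (v l)) =O[𝓝 0] fun t : 𝕜 => t)
    (p : ℕ) (f : MvPolynomial σ k) (hf : f ∈ mAt v ^ p) :
    (fun t => aeval (x t) f) =O[𝓝 0] fun t : 𝕜 => t ^ p := by
  have hX1 : ∀ l, alongArc x (X l - C (v l) : MvPolynomial σ k) ∈ bigT 𝕜 1 := by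
    intro l
    show (alongArc x (X l - C (v l) : MvPolynomial σ k)) =O[𝓝 0] fun t : 𝕜 => t ^ 1
    refine (hx l).congr (fun t => ?_) (fun t => (pow_one t).symm)
    rw [alongArc_apply, map_sub, aeval_X, aeval_C]
  have h10 : ∀ g ∈ bigT 𝕜 1, g ∈ bigT 𝕜 0 := by
    intro g hg
    have hg' : g =O[𝓝 0] fun t : 𝕜 => t ^ 1 := hg
    show g =O[𝓝 0] fun t : 𝕜 => t ^ 0
    refine hg'.trans ?_
    simp only [pow_zero, pow_one]
    exact (continuous_id.tendsto (0 : 𝕜)).isBigO_one 𝕜
  have h0 : ∀ f : MvPolynomial σ k, (alongArc x f : 𝕜 → 𝕜) ∈ bigT 𝕜 0 := by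
    intro f
    induction f using MvPolynomial.induction_on with
    | C a =>
      have : (alongArc x (C a : MvPolynomial σ k) : 𝕜 → 𝕜) = fun _ => algebraMap k 𝕜 a := by
        funext t
        rw [alongArc_apply, aeval_C]
      rw [this]
      exact const_mem_bigT _
    | add p q hp hq => rw [map_add]; exact AddSubgroup.add_mem _ hp hq
    | mul_X p l hp =>
      rw [map_mul]
      refine bigT_mul 0 0 _ _ hp ?_
      have e1 : (alongArc x (X l : MvPolynomial σ k) : 𝕜 → 𝕜) =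
          alongArc x (X l - C (v l) : MvPolynomial σ k) + fun _ => algebraMap k 𝕜 (v l) := by
        funext t
        rw [Pi.add_apply, alongArc_apply, alongArc_apply, map_sub, aeval_C, sub_add_cancel]
      rw [e1]
      exact AddSubgroup.add_mem _ (h10 _ (hX1 l)) (const_mem_bigT _)
  have h1 : ∀ b ∈ mAt v, (alongArc x b : 𝕜 → 𝕜) ∈ bigT 𝕜 1 := by
    intro b hb
    refine Submodule.span_induction ?_ ?_ ?_ ?_ hb
    · rintro _ ⟨l, rfl⟩
      exact hX1 l
    · rw [map_zero]; exact AddSubgroup.zero_mem _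
    · intro a b _ _ ha hb
      rw [map_add]; exact AddSubgroup.add_mem _ ha hb
    · intro a b _ hb
      rw [smul_eq_mul, map_mul]
      have := bigT_mul 0 1 _ _ (h0 a) hb
      rwa [zero_add] at this
  have key := map_pow_mem (mAt v) (alongArc x : MvPolynomial σ k →ₐ[k] (𝕜 → 𝕜)).toRingHom
    (bigT 𝕜) h0 h1 bigT_mul p f hf
  have key2 : (alongArc x f) =O[𝓝 0] fun t : 𝕜 => t ^ p := key
  exact key2.congr (fun t => alongArc_apply x f t) (fun _ => rfl)

/-- **The arc lemma.** -/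
theorem arc_ne (I : Ideal (MvPolynomial σ k)) (v : σ → k) (y : ι → MvPolynomial σ k)
    (G : MvPolynomial σ k) {D : ℕ} (P : MvPolynomial ι k) (hP : P.IsHomogeneous D)
    (hGP : G - aeval y P ∈ mAt v ^ (D + 1) ⊔ I)
    (x : 𝕜 → σ → 𝕜)
    (hx : ∀ l, (fun t => x t l - algebraMap k 𝕜 (v l)) =O[𝓝 0] fun t : 𝕜 => t)
    (hI : ∀ᶠ t in 𝓝 (0 : 𝕜), ∀ f ∈ I, aeval (x t) f = 0)
    (d : ι → 𝕜) (hd : ∀ᶠ t in 𝓝 (0 : 𝕜), ∀ i, aeval (x t) (y i) = t * d i)
    (hne : aeval d P ≠ 0) :
    ∀ᶠ t in 𝓝[≠] (0 : 𝕜), aeval (x t) G ≠ 0 := by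
  obtain ⟨f, hf, g, hg, hfg⟩ := Submodule.mem_sup.mp hGP
  obtain ⟨c, hc⟩ := (mAt_pow_bigT x v hx (D + 1) f hf).bound
  have hsm : ∀ᶠ t in 𝓝 (0 : 𝕜), c * ‖t‖ < ‖aeval d P‖ := by
    have h1 : Tendsto (fun t : 𝕜 => c * ‖t‖) (𝓝 0) (𝓝 (c * ‖(0 : 𝕜)‖)) :=
      (continuous_const.mul continuous_norm).tendsto 0
    rw [norm_zero, mul_zero] at h1
    exact h1.eventually_lt_const (norm_pos_iff.2 hne)
  have hall := hc.and (hsm.and (hI.and hd))
  filter_upwards [hall.filter_mono nhdsWithin_le_nhds, self_mem_nhdsWithin] with t ht ht0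
  obtain ⟨h1, h2, h3, h4⟩ := ht
  have ht0' : t ≠ 0 := ht0
  have e1 : aeval (x t) (aeval y P) = t ^ D * aeval d P := by
    have e2 : aeval (x t) (aeval y P) = aeval (fun i => t * d i) P := by
      have : (aeval (x t) : MvPolynomial σ k →ₐ[k] 𝕜).comp (aeval y) =
          aeval (fun i => t * d i) := by
        apply MvPolynomial.algHom_ext
        intro i
        simp [h4 i]
      have h5 := congrArg (fun g => g P) this
      simpa using h5
    rw [e2, aeval_mul_hom hP]
  have e4 : aeval (x t) G = t ^ D * aeval d P + aeval (x t) f := by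
    have : G = aeval y P + (f + g) := by rw [hfg]; ring
    rw [this, map_add, map_add, h3 g hg, add_zero, e1]
  intro h0
  rw [e4] at h0
  have h5 : ‖t ^ D * aeval d P‖ = ‖aeval (x t) f‖ := by
    rw [eq_neg_of_add_eq_zero_left h0, norm_neg]
  rw [norm_mul, norm_pow] at h5
  have h6 : ‖aeval (x t) f‖ ≤ c * (‖t‖ ^ (D + 1)) := by
    have := h1
    rwa [norm_pow] at this
  have htp : 0 < ‖t‖ ^ D := pow_pos (norm_pos_iff.2 ht0') D
  have h7 : c * ‖t‖ ^ (D + 1) = ‖t‖ ^ D * (c * ‖t‖) := by ring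
  have h8 : ‖t‖ ^ D * (c * ‖t‖) < ‖t‖ ^ D * ‖aeval d P‖ := mul_lt_mul_of_pos_left h2 htp
  linarith

end arcs

end Pool.Agent.VF
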