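import Pool.Agent.Lib_MP_1858fb_w.Defs2

/-!
# MP_1858fb_ag, piece V3: the ideal of a product, irreducibility and smoothness of a product
-/

namespace Pool.Agent.VF

open MvPolynomial

namespace V3

variable {k : Type} [Field k] {σ τ : Type}

theorem aeval_elim_inl (x : σ → k) (y : τ → k) (f : MvPolynomial σ k) :
    aeval (Sum.elim x y) (rename (Sum.inl : σ → σ ⊕ τ) f) = aeval x f := by
  rw [aeval_rename]; rfl

theorem aeval_elim_inr (x : σ → k) (y : τ → k) (f : MvPolynomial τ k) :
    aeval (Sum.elim x y) (rename (Sum.inr : τ → σ ⊕ τ) f) = aeval y f := by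
  rw [aeval_rename]; rfl

omit [Field k] in
theorem eq_elim (u : σ ⊕ τ → k) :
    u = Sum.elim (fun a => u (Sum.inl a)) (fun b => u (Sum.inr b)) := by
  ext (a | b) <;> rfl

omit [Field k] in
theorem mem_prod {V : Set (σ → k)} {W : Set (τ → k)} {x : σ → k} {y : τ → k} (hx : x ∈ V)
    (hy : y ∈ W) : Sum.elim x y ∈ prodSet V W := ⟨hx, hy⟩

/-- the first variables are specialised -/
noncomputable def left (x : σ → k) : MvPolynomial (σ ⊕ τ) k →ₐ[k] MvPolynomial τ k :=
  aeval (Sum.elim (fun a => C (x a)) X)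

/-- the second variables are specialised -/
noncomputable def right (y : τ → k) : MvPolynomial (σ ⊕ τ) k →ₐ[k] MvPolynomial σ k :=
  aeval (Sum.elim X (fun b => C (y b)))

theorem aeval_left (x : σ → k) (y : τ → k) (f : MvPolynomial (σ ⊕ τ) k) :
    aeval y (left x f) = aeval (Sum.elim x y) f := by
  have : (aeval y).comp (left x) = (aeval (Sum.elim x y) : MvPolynomial (σ ⊕ τ) k →ₐ[k] k) := by
    apply MvPolynomial.algHom_ext
    rintro (a | b) <;> simp [left]
  exact DFunLike.congr_fun this f

theorem aeval_right (x : σ → k) (y : τ → k) (f : MvPolynomial (σ ⊕ τ) k) :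
    aeval x (right y f) = aeval (Sum.elim x y) f := by
  have : (aeval x).comp (right y) = (aeval (Sum.elim x y) : MvPolynomial (σ ⊕ τ) k →ₐ[k] k) := by
    apply MvPolynomial.algHom_ext
    rintro (a | b) <;> simp [right]
  exact DFunLike.congr_fun this f

theorem left_inl (x : σ → k) (f : MvPolynomial σ k) :
    left x (rename (Sum.inl : σ → σ ⊕ τ) f) = C (aeval x f) := by
  have : (left x).comp (rename (Sum.inl : σ → σ ⊕ τ)) =
      (Algebra.ofId k (MvPolynomial τ k)).comp (aeval x) := by
    apply MvPolynomial.algHom_ext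
    intro a
    simp [left, Algebra.ofId_apply, algebraMap_eq]
  exact DFunLike.congr_fun this f

theorem left_inr (x : σ → k) (f : MvPolynomial τ k) :
    left x (rename (Sum.inr : τ → σ ⊕ τ) f) = f := by
  have : (left x).comp (rename (Sum.inr : τ → σ ⊕ τ)) = AlgHom.id k (MvPolynomial τ k) := by
    apply MvPolynomial.algHom_ext
    intro a
    simp [left]
  exact DFunLike.congr_fun this f

theorem exists_ne {V : Set (σ → k)} {f : MvPolynomial σ k} (h : f ∉ van V) :
    ∃ w ∈ V, aeval w f ≠ 0 := by
  by_contra hcon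
  push Not at hcon
  exact h hcon

/-- the ideal generated by the two ideals -/
noncomputable def sumI (V : Set (σ → k)) (W : Set (τ → k)) : Ideal (MvPolynomial (σ ⊕ τ) k) :=
  Ideal.map (rename Sum.inl : MvPolynomial σ k →ₐ[k] MvPolynomial (σ ⊕ τ) k) (van V) ⊔
      Ideal.map (rename Sum.inr : MvPolynomial τ k →ₐ[k] MvPolynomial (σ ⊕ τ) k) (van W)

theorem inl_mem {V : Set (σ → k)} (W : Set (τ → k)) {f : MvPolynomial σ k} (hf : f ∈ van V) :
    rename Sum.inl f ∈ sumI V W :=
  Ideal.mem_sup_left (Ideal.mem_map_of_mem _ hf)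

theorem inr_mem (V : Set (σ → k)) {W : Set (τ → k)} {f : MvPolynomial τ k} (hf : f ∈ van W) :
    rename Sum.inr f ∈ sumI V W :=
  Ideal.mem_sup_right (Ideal.mem_map_of_mem _ hf)

theorem sumI_le (V : Set (σ → k)) (W : Set (τ → k)) : sumI V W ≤ van (prodSet V W) := by
  refine sup_le (Ideal.map_le_iff_le_comap.2 ?_) (Ideal.map_le_iff_le_comap.2 ?_)
  · intro f hf u hu
    rw [eq_elim u]
    exact (aeval_elim_inl _ _ f).trans (hf _ hu.1)
  · intro f hf u hu
    rw [eq_elim u]
    exact (aeval_elim_inr _ _ f).trans (hf _ hu.2)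

/-- every polynomial is a finite sum of products modulo `sumI`, where the second factors are
independent modulo `van W` -/
theorem exists_repr (V : Set (σ → k)) (W : Set (τ → k)) {ι : Type} (l : ι → MvPolynomial τ k)
    (hl : ∀ f : MvPolynomial τ k, ∃ c : ι →₀ k, f - c.sum (fun i z => z • l i) ∈ van W)
    (E : MvPolynomial (σ ⊕ τ) k) :
    ∃ a : ι →₀ MvPolynomial σ k,
      E - a.sum (fun i z => rename Sum.inl z * rename Sum.inr (l i)) ∈ sumI V W := by
  classical
  have hadd : ∀ E E' : MvPolynomial (σ ⊕ τ) k,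
      (∃ a : ι →₀ MvPolynomial σ k,
        E - a.sum (fun i z => rename Sum.inl z * rename Sum.inr (l i)) ∈ sumI V W) →
      (∃ a : ι →₀ MvPolynomial σ k,
        E' - a.sum (fun i z => rename Sum.inl z * rename Sum.inr (l i)) ∈ sumI V W) →
      (∃ a : ι →₀ MvPolynomial σ k,
        (E + E') - a.sum (fun i z => rename Sum.inl z * rename Sum.inr (l i)) ∈ sumI V W) := by
    rintro E E' ⟨a, ha⟩ ⟨a', ha'⟩
    refine ⟨a + a', ?_⟩
    rw [Finsupp.sum_add_index' (fun i => by simp) (fun i b c => by rw [map_add, add_mul])]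
    have := Ideal.add_mem _ ha ha'
    have e : (E + E') - (a.sum (fun i z => rename Sum.inl z * rename Sum.inr (l i)) +
        a'.sum (fun i z => rename Sum.inl z * rename Sum.inr (l i))) =
        (E - a.sum (fun i z => rename Sum.inl z * rename Sum.inr (l i))) +
        (E' - a'.sum (fun i z => rename Sum.inl z * rename Sum.inr (l i))) := by ring
    rw [e]
    exact this
  have hprod : ∀ (f : MvPolynomial σ k) (g : MvPolynomial τ k),
      (∃ a : ι →₀ MvPolynomial σ k, (rename Sum.inl f * rename Sum.inr g :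
        MvPolynomial (σ ⊕ τ) k) -
        a.sum (fun i z => rename Sum.inl z * rename Sum.inr (l i)) ∈ sumI V W) := by
    intro f g
    obtain ⟨c, hc⟩ := hl g
    refine ⟨c.mapRange (fun z => z • f) (zero_smul _ _), ?_⟩
    rw [Finsupp.sum_mapRange_index (fun i => by simp)]
    have e : (rename Sum.inl f * rename Sum.inr g : MvPolynomial (σ ⊕ τ) k) -
        c.sum (fun i z => rename Sum.inl (z • f) * rename Sum.inr (l i)) =
        rename Sum.inl f * rename Sum.inr (g - c.sum (fun i z => z • l i)) := by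
      rw [map_sub, mul_sub, map_finsuppSum, Finsupp.sum, Finsupp.sum, Finset.mul_sum]
      congr 1
      refine Finset.sum_congr rfl fun i _ => ?_
      rw [map_smul, map_smul, smul_mul_assoc, mul_smul_comm]
    rw [e]
    exact Ideal.mul_mem_left _ _ (inr_mem V hc)
  induction E using MvPolynomial.induction_on' with
  | add p q hp hq => exact hadd _ _ hp hq
  | monomial u a =>
    have h1 : (monomial u a : MvPolynomial (σ ⊕ τ) k) =
        rename Sum.inl (monomial (u.comapDomain Sum.inl Sum.inl_injective.injOn) a) *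
        rename Sum.inr (monomial (u.comapDomain Sum.inr Sum.inr_injective.injOn) 1) := by
      rw [rename_monomial, rename_monomial, monomial_mul, mul_one]
      have h2 : u = Finsupp.mapDomain Sum.inl (u.comapDomain Sum.inl Sum.inl_injective.injOn) +
          Finsupp.mapDomain Sum.inr (u.comapDomain Sum.inr Sum.inr_injective.injOn) := ?_
      · rw [← h2]
      refine Finsupp.ext ?_
      rintro (i | i)
      · rw [Finsupp.add_apply, Finsupp.mapDomain_apply Sum.inl_injective,
          Finsupp.mapDomain_of_notMem_range _ _ (by simp), Finsupp.comapDomain_apply, add_zero]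
      · rw [Finsupp.add_apply, Finsupp.mapDomain_apply Sum.inr_injective,
          Finsupp.mapDomain_of_notMem_range _ _ (by simp), Finsupp.comapDomain_apply, zero_add]
    rw [h1]
    exact hprod _ _

theorem exists_lift (W : Set (τ → k)) : ∃ (ι : Type) (l : ι → MvPolynomial τ k),
    (∀ f : MvPolynomial τ k, ∃ c : ι →₀ k, f - c.sum (fun i z => z • l i) ∈ van W) ∧
    ∀ c : ι →₀ k, c.sum (fun i z => z • l i) ∈ van W → c = 0 := by
  let b := Module.Basis.ofVectorSpace k (MvPolynomial τ k ⧸ van W)
  choose l hl using fun i => Ideal.Quotient.mk_surjective (I := van W) (b i)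
  have key : ∀ c : _ →₀ k, (Ideal.Quotient.mk (van W)) (c.sum (fun i z => z • l i)) =
      c.sum (fun i z => z • b i) := by
    intro c
    rw [Finsupp.sum, Finsupp.sum, map_sum]
    refine Finset.sum_congr rfl fun i _ => ?_
    rw [← hl i]
    exact map_smul (Ideal.Quotient.mkₐ k (van W)) (c i) (l i)
  refine ⟨_, l, ?_, ?_⟩
  · intro f
    refine ⟨b.repr (Ideal.Quotient.mk (van W) f), ?_⟩
    rw [← Ideal.Quotient.eq, key]
    exact (b.linearCombination_repr _).symm
  · intro c hc
    rw [← Ideal.Quotient.eq_zero_iff_mem, key] at hc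
    have := b.linearIndependent
    rw [linearIndependent_iff] at this
    exact this c hc

theorem le_sumI (V : Set (σ → k)) (W : Set (τ → k)) : van (prodSet V W) ≤ sumI V W := by
  intro E hE
  obtain ⟨ι, l, hl1, hl2⟩ := exists_lift W
  obtain ⟨a, ha⟩ := exists_repr V W l hl1 E
  have hz : a.sum (fun i z => rename Sum.inl z * rename Sum.inr (l i)) ∈ van (prodSet V W) := by
    have := Ideal.sub_mem _ hE (sumI_le V W ha)
    rwa [sub_sub_cancel] at this
  have hai : ∀ i, a i ∈ van V := by
    intro i x hx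
    have h1 : (a.mapRange (fun z => aeval x z) (map_zero _)).sum (fun i z => z • l i) ∈ van W := by
      rw [Finsupp.sum_mapRange_index (h := fun i (z : k) => z • l i) (fun i => zero_smul _ _)]
      intro y hy
      have h2 := hz _ (mem_prod hx hy)
      rw [← aeval_left, Finsupp.sum, map_sum] at h2
      rw [← h2]
      congr 1
      rw [Finsupp.sum]
      refine Finset.sum_congr rfl fun j _ => ?_
      rw [map_mul, left_inl, left_inr, C_mul']
    have h3 := hl2 _ h1
    have := DFunLike.congr_fun h3 i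
    simpa using this
  have h4 : a.sum (fun i z => rename Sum.inl z * rename Sum.inr (l i)) ∈ sumI V W :=
    Ideal.sum_mem _ fun i _ => Ideal.mul_mem_right _ _ (inl_mem W (hai i))
  have := Ideal.add_mem _ ha h4
  rwa [sub_add_cancel] at this

theorem pderiv_inl_inl (a : σ) (f : MvPolynomial σ k) :
    pderiv (Sum.inl a) (rename (Sum.inl : σ → σ ⊕ τ) f) = rename Sum.inl (pderiv a f) :=
  pderiv_rename Sum.inl_injective a f

theorem pderiv_inr_inr (a : τ) (f : MvPolynomial τ k) :
    pderiv (Sum.inr a) (rename (Sum.inr : τ → σ ⊕ τ) f) = rename Sum.inr (pderiv a f) :=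
  pderiv_rename Sum.inr_injective a f

theorem pderiv_inr_inl (a : τ) (f : MvPolynomial σ k) :
    pderiv (Sum.inr a) (rename (Sum.inl : σ → σ ⊕ τ) f) = 0 := by
  classical
  refine pderiv_eq_zero_of_notMem_vars fun h => ?_
  have := vars_rename (Sum.inl : σ → σ ⊕ τ) f h
  simp at this

theorem pderiv_inl_inr (a : σ) (f : MvPolynomial τ k) :
    pderiv (Sum.inl a) (rename (Sum.inr : τ → σ ⊕ τ) f) = 0 := by
  classical
  refine pderiv_eq_zero_of_notMem_vars fun h => ?_
  have := vars_rename (Sum.inr : τ → σ ⊕ τ) f h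
  simp at this

end V3

section

variable {k : Type} [Field k]

theorem van_prodSet {σ τ : Type} (V : Set (σ → k)) (W : Set (τ → k)) :
    van (prodSet V W) = Ideal.map (rename Sum.inl : _ →ₐ[k] MvPolynomial (σ ⊕ τ) k) (van V) ⊔
      Ideal.map (rename Sum.inr : _ →ₐ[k] MvPolynomial (σ ⊕ τ) k) (van W) :=
  le_antisymm (V3.le_sumI V W) (V3.sumI_le V W)

theorem irred_prodSet {σ τ : Type} {V : Set (σ → k)} {W : Set (τ → k)} (hV : Irred V)
    (hW : Irred W) : Irred (prodSet V W) := by
  obtain ⟨x0, hx0⟩ := hV.1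
  obtain ⟨y0, hy0⟩ := hW.1
  refine ⟨⟨_, V3.mem_prod hx0 hy0⟩, ?_⟩
  intro f g hfg
  by_contra hcon
  push Not at hcon
  obtain ⟨hf, hg⟩ := hcon
  obtain ⟨u0, hu0, hf0⟩ := V3.exists_ne hf
  obtain ⟨u1, hu1, hg1⟩ := V3.exists_ne hg
  rw [V3.eq_elim u0, ← V3.aeval_right] at hf0
  rw [V3.eq_elim u1, ← V3.aeval_right] at hg1
  have hFG : V3.right (fun b => u0 (Sum.inr b)) f * V3.right (fun b => u1 (Sum.inr b)) g ∉
      van V := fun h => (hV.2 _ _ h).elim (fun h => hf0 (h _ hu0.1)) (fun h => hg1 (h _ hu1.1))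
  obtain ⟨w, hw, hne⟩ := V3.exists_ne hFG
  rw [map_mul, V3.aeval_right, V3.aeval_right] at hne
  have hG : V3.left w f * V3.left w g ∉ van W := by
    intro h
    rcases hW.2 _ _ h with h | h
    · refine left_ne_zero_of_mul hne ?_
      rw [← V3.aeval_left]
      exact h _ hu0.2
    · refine right_ne_zero_of_mul hne ?_
      rw [← V3.aeval_left]
      exact h _ hu1.2
  obtain ⟨z, hz, hne2⟩ := V3.exists_ne hG
  rw [map_mul, V3.aeval_left, V3.aeval_left, ← map_mul] at hne2
  exact hne2 (hfg _ (V3.mem_prod hw hz))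

theorem smoothAt_prodSet {σ τ : Type} [Fintype σ] [Fintype τ] {c c' : ℕ} {V : Set (σ → k)}
    {W : Set (τ → k)} {x : σ → k} {y : τ → k} (hx : SmoothAt c V x) (hy : SmoothAt c' W y) :
    SmoothAt (c + c') (prodSet V W) (Sum.elim x y) := by
  obtain ⟨E, H, hE, hlin, hH, hgen⟩ := hx
  obtain ⟨E', H', hE', hlin', hH', hgen'⟩ := hy
  have hr1 : Ideal.map (rename Sum.inl : _ →ₐ[k] MvPolynomial (σ ⊕ τ) k)
      (Ideal.span (Set.range E)) ≤ Ideal.span (Set.range (Fin.append
        (fun i => (rename Sum.inl (E i) : MvPolynomial (σ ⊕ τ) k))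
        (fun i => rename Sum.inr (E' i)))) := by
    rw [Ideal.map_span, Ideal.span_le]
    rintro _ ⟨_, ⟨i, rfl⟩, rfl⟩
    refine Ideal.subset_span ⟨Fin.castAdd c' i, ?_⟩
    rw [Fin.append_left]
  have hr2 : Ideal.map (rename Sum.inr : _ →ₐ[k] MvPolynomial (σ ⊕ τ) k)
      (Ideal.span (Set.range E')) ≤ Ideal.span (Set.range (Fin.append
        (fun i => (rename Sum.inl (E i) : MvPolynomial (σ ⊕ τ) k))
        (fun i => rename Sum.inr (E' i)))) := by
    rw [Ideal.map_span, Ideal.span_le]
    rintro _ ⟨_, ⟨i, rfl⟩, rfl⟩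
    refine Ideal.subset_span ⟨Fin.natAdd c i, ?_⟩
    rw [Fin.append_right]
  refine ⟨Fin.append (fun i => rename Sum.inl (E i)) (fun i => rename Sum.inr (E' i)),
    rename Sum.inl H * rename Sum.inr H', ?_, ?_, ?_, ?_⟩
  · intro i
    refine Fin.addCases (fun i => ?_) (fun i => ?_) i
    · rw [Fin.append_left]
      exact V3.sumI_le V W (V3.inl_mem W (hE i))
    · rw [Fin.append_right]
      exact V3.sumI_le V W (V3.inr_mem V (hE' i))
  · rw [Fintype.linearIndependent_iff] at hlin hlin' ⊢
    intro g hg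
    have h1 : ∀ i, g (Fin.castAdd c' i) = 0 := by
      refine hlin (fun i => g (Fin.castAdd c' i)) ?_
      ext j
      have := congrFun hg (Sum.inl j)
      rw [Finset.sum_apply, Fin.sum_univ_add] at this
      simp only [Pi.smul_apply, Fin.append_left, Fin.append_right, V3.pderiv_inl_inl,
        V3.pderiv_inl_inr, map_zero, smul_zero, Finset.sum_const_zero, add_zero,
        V3.aeval_elim_inl] at this
      rw [Finset.sum_apply]
      exact this
    have h2 : ∀ i, g (Fin.natAdd c i) = 0 := by
      refine hlin' (fun i => g (Fin.natAdd c i)) ?_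
      ext j
      have := congrFun hg (Sum.inr j)
      rw [Finset.sum_apply, Fin.sum_univ_add] at this
      simp only [Pi.smul_apply, Fin.append_left, Fin.append_right, V3.pderiv_inr_inr,
        V3.pderiv_inr_inl, map_zero, smul_zero, Finset.sum_const_zero, zero_add,
        V3.aeval_elim_inr] at this
      rw [Finset.sum_apply]
      exact this
    intro i
    exact Fin.addCases h1 h2 i
  · rw [map_mul, V3.aeval_elim_inl, V3.aeval_elim_inr]
    exact mul_ne_zero hH hH'
  · intro G hG
    have hG2 := V3.le_sumI V W hG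
    have hle : V3.sumI V W ≤ Submodule.comap (LinearMap.mulLeft (MvPolynomial (σ ⊕ τ) k)
        (rename Sum.inl H * rename Sum.inr H' : MvPolynomial (σ ⊕ τ) k))
        (Ideal.span (Set.range (Fin.append
        (fun i => (rename Sum.inl (E i) : MvPolynomial (σ ⊕ τ) k))
        (fun i => rename Sum.inr (E' i))))) := by
      refine sup_le (Ideal.map_le_iff_le_comap.2 ?_) (Ideal.map_le_iff_le_comap.2 ?_)
      · intro f hf
        have h3 := hr1 (Ideal.mem_map_of_mem _ (hgen f hf))
        rw [map_mul] at h3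
        have h4 := Ideal.mul_mem_left _ (rename Sum.inr H') h3
        have e : rename Sum.inl H * rename Sum.inr H' * rename Sum.inl f =
          (rename Sum.inr H' * (rename Sum.inl H * rename Sum.inl f) :
            MvPolynomial (σ ⊕ τ) k) := by ring
        rw [← e] at h4
        exact h4
      · intro f hf
        have h3 := hr2 (Ideal.mem_map_of_mem _ (hgen' f hf))
        rw [map_mul] at h3
        have h4 := Ideal.mul_mem_left _ (rename Sum.inl H) h3
        have e : rename Sum.inl H * rename Sum.inr H' * rename Sum.inr f =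
          (rename Sum.inl H * (rename Sum.inr H' * rename Sum.inr f) :
            MvPolynomial (σ ⊕ τ) k) := by ring
        rw [← e] at h4
        exact h4
    exact hle hG2

end

end Pool.Agent.VF
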