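import Pool.Agent.Lib_MP_1858fb_w.FamSys
import Pool.Agent.Lib_MP_1858fb_w.Van3
import Pool.Agent.Lib_MP_1858fb_s.Alg

/-!
# MP_1858fb_ag: the formal point of the system of equations of the family (piece V8, part B)

* `toPoly_eqs`: equations that hold at all values hold for the polynomials;
* `certificate`: over a local ring, the open conditions have a certificate;
* `formal_hom`: the injective homomorphism given by the end points of the formal deformation;
* `formal_sol`: the solution of the system over the fraction field of `k[[x_1, …, x_r]]`.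
-/

set_option autoImplicit false

namespace Pool.Agent.VF

open MvPolynomial

section Eq

variable {k : Type} [Field k]

theorem map_aeval_toPoly {R S : Type} [CommRing R] [Algebra k R] [CommRing S] [Algebra k S]
    {N d : ℕ} (F : Fin (d + 1) → Fin (N + 1) → R) (φ : R →ₐ[k] S)
    (E : MvPolynomial (Fin (N + 1)) k) :
    (aeval (toPoly F) E).map (φ : R →+* S) = aeval (toPoly fun j i => φ (F j i)) E := by
  have h1 : ∀ q : Polynomial R, q.map (φ : R →+* S) = Polynomial.mapAlgHom φ q := by
    intro q
    rfl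
  rw [h1, MvPolynomial.comp_aeval_apply]
  congr 1
  congr 1
  funext i
  rw [← h1, map_toPoly]
  rfl

theorem toPoly_eqs {R : Type} [CommRing R] [IsDomain R] [Infinite R] [Algebra k R]
    {N d : ℕ} (F : Fin (d + 1) → Fin (N + 1) → R) (E : MvPolynomial (Fin (N + 1)) k)
    (h : ∀ t : R, aeval (val F 1 t) E = 0) : aeval (toPoly F) E = 0 := by
  refine Polynomial.funext fun t => ?_
  rw [eval_aeval_toPoly, h t, Polynomial.eval_zero]

/-- degree and leading coefficient of a monomial in the polynomials `f i` of degree `≤ d` -/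
theorem mon_deg {R κ : Type} [CommRing R] {d : ℕ} (f : κ → Polynomial R)
    (hf : ∀ i, (f i).natDegree ≤ d) (m : κ → ℕ) (s : Finset κ) :
    (∏ i ∈ s, f i ^ m i).natDegree ≤ (∑ i ∈ s, m i) * d ∧
      (∏ i ∈ s, f i ^ m i).coeff ((∑ i ∈ s, m i) * d) = ∏ i ∈ s, (f i).coeff d ^ m i := by
  classical
  induction s using Finset.induction_on with
  | empty => simp
  | insert a s ha ih =>
    rw [Finset.prod_insert ha, Finset.sum_insert ha, Finset.prod_insert ha, add_mul]
    have h1 : (f a ^ m a).natDegree ≤ m a * d :=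
      (Polynomial.natDegree_pow_le).trans (Nat.mul_le_mul_left _ (hf a))
    constructor
    · exact (Polynomial.natDegree_mul_le).trans (add_le_add h1 ih.1)
    · rw [Polynomial.coeff_mul_add_eq_of_natDegree_le h1 ih.1, ih.2,
        Polynomial.coeff_pow_of_natDegree_le (hf a)]

theorem deg_aeval_homogeneous {R κ : Type} [CommRing R] [Algebra k R] {d e : ℕ}
    (f : κ → Polynomial R) (hf : ∀ i, (f i).natDegree ≤ d) {G : MvPolynomial κ k}
    (hG : G.IsHomogeneous e) :
    (aeval f G).natDegree ≤ e * d ∧
      (aeval f G).coeff (e * d) = aeval (fun i => (f i).coeff d) G := by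
  have hsum : ∀ m ∈ G.support, ∑ i ∈ m.support, m i = e := by
    intro m hm
    have := hG (mem_support_iff.1 hm)
    rw [Finsupp.weight_apply] at this
    simpa [Finsupp.sum] using this
  rw [MvPolynomial.aeval_def, MvPolynomial.eval₂_eq, MvPolynomial.aeval_def,
    MvPolynomial.eval₂_eq]
  constructor
  · refine Polynomial.natDegree_sum_le_of_forall_le _ _ fun m hm => ?_
    have h1 := (mon_deg f hf m m.support).1
    rw [hsum m hm] at h1
    refine (Polynomial.natDegree_mul_le).trans ?_
    rw [Polynomial.algebraMap_apply, Polynomial.natDegree_C, zero_add]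
    exact h1
  · rw [Polynomial.finsetSum_coeff]
    refine Finset.sum_congr rfl fun m hm => ?_
    have h1 := (mon_deg f hf m m.support).2
    rw [hsum m hm] at h1
    rw [Polynomial.algebraMap_apply, Polynomial.coeff_C_mul, h1]

/-- The certificate over a local ring. -/
theorem certificate [IsAlgClosed k] {R : Type} [CommRing R] [IsLocalRing R] [Algebra k R]
    (π : R →ₐ[k] k) {N d s : ℕ} (F : Fin (d + 1) → Fin (N + 1) → R)
    (G : Fin s → MvPolynomial (Fin (N + 1)) k)
    (e : Fin s → ℕ) (hG : ∀ a, (G a).IsHomogeneous (e a))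
    (h0 : ∀ t : k, ∃ a, aeval (val (fun j i => π (F j i)) 1 t) (G a) ≠ 0)
    (hoo : ∃ a, aeval (fun i => π (F (Fin.last d) i)) (G a) ≠ 0) :
    ∃ (M : ℕ) (c : Fin s → Fin (M + 1) → R),
      ∑ a, toPoly (fun (n : Fin (M + 1)) (a : Fin s) => c a n) a * aeval (toPoly F) (G a) = 1 := by
  have hsurj : Function.Surjective (π : R →+* k) := by
    intro x
    exact ⟨algebraMap k R x, by simp⟩
  obtain ⟨l₀, hl₀⟩ := hoo
  have hd := deg_aeval_homogeneous (toPoly F) (natDegree_toPoly_le F) (hG l₀)
  have hc : (aeval (toPoly F) (G l₀)).coeff (e l₀ * d) = aeval (F (Fin.last d)) (G l₀) := by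
    rw [hd.2]
    congr 2
    funext i
    have := toPoly_coeff F i (Fin.last d)
    rwa [Fin.val_last] at this
  have hπ : π (aeval (F (Fin.last d)) (G l₀)) = aeval (fun i => π (F (Fin.last d) i)) (G l₀) := by
    rw [MvPolynomial.comp_aeval_apply]
  have hu : IsUnit ((aeval (toPoly F) (G l₀)).coeff (e l₀ * d)) := by
    by_contra h
    have h1 : (aeval (toPoly F) (G l₀)).coeff (e l₀ * d) ∈ IsLocalRing.maximalIdeal R :=
      (IsLocalRing.mem_maximalIdeal _).2 h
    have h2 : IsLocalRing.maximalIdeal R = RingHom.ker (π : R →+* k) := by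
      have := RingHom.ker_isMaximal_of_surjective (π : R →+* k) hsurj
      exact (IsLocalRing.eq_maximalIdeal this).symm
    rw [h2, RingHom.mem_ker, hc] at h1
    exact hl₀ (by rw [← hπ]; exact h1)
  have hlc : (aeval (toPoly F) (G l₀)).leadingCoeff =
      (aeval (toPoly F) (G l₀)).coeff (e l₀ * d) := by
    have h1 : e l₀ * d ≤ (aeval (toPoly F) (G l₀)).natDegree :=
      Polynomial.le_natDegree_of_ne_zero hu.ne_zero
    rw [Polynomial.leadingCoeff, le_antisymm hd.1 h1]
  have htop : Ideal.span (Set.range fun a => aeval (toPoly F) (G a)) = ⊤ := by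
    refine VFS.nak (π : R →+* k) hsurj _ l₀ (hlc ▸ hu) ?_
    by_contra hne
    obtain ⟨P, hP, hle⟩ := Ideal.exists_le_maximal _ hne
    have hPp : P.IsPrincipal := inferInstance
    obtain ⟨g, hg⟩ := hPp
    have hgP : P = Ideal.span {g} := hg
    have hval : ∀ a (t : k), ((aeval (toPoly F) (G a)).map (π : R →+* k)).eval t =
        aeval (val (fun j i => π (F j i)) 1 t) (G a) := by
      intro a t
      rw [map_aeval_toPoly, eval_aeval_toPoly]
    have hroot : ∀ t : k, g.eval t ≠ 0 := by
      intro t ht
      obtain ⟨a, ha⟩ := h0 t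
      apply ha
      rw [← hval]
      have h1 : ((aeval (toPoly F) (G a)).map (π : R →+* k)) ∈ P :=
        hle (Ideal.subset_span ⟨a, rfl⟩)
      rw [hgP, Ideal.mem_span_singleton] at h1
      obtain ⟨q, hq⟩ := h1
      rw [hq, Polynomial.eval_mul, ht, zero_mul]
    have hdeg : g.degree ≠ 0 := by
      intro hd
      apply hP.ne_top
      have hg0 : g ≠ 0 := by
        intro h
        exact hroot 0 (by rw [h, Polynomial.eval_zero])
      rw [hgP, Ideal.span_singleton_eq_top]
      rw [Polynomial.eq_C_of_degree_eq_zero hd] at hg0 ⊢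
      exact Polynomial.isUnit_C.2 (IsUnit.mk0 _ (fun h => hg0 (by rw [h, Polynomial.C_0])))
    obtain ⟨x, hx⟩ := IsAlgClosed.exists_root g hdeg
    exact hroot x hx
  -- extract the coefficients
  have h1 : (1 : Polynomial R) ∈ Ideal.span (Set.range fun a => aeval (toPoly F) (G a)) := by
    rw [htop]; trivial
  rw [Ideal.span, Submodule.mem_span_range_iff_exists_fun] at h1
  obtain ⟨u, hu1⟩ := h1
  let M : ℕ := Finset.univ.sup fun a => (u a).natDegree
  refine ⟨M, fun a n => (u a).coeff n, ?_⟩
  rw [← hu1]
  refine Finset.sum_congr rfl fun a _ => ?_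
  rw [smul_eq_mul]
  congr 1
  have h2 : (u a).natDegree < M + 1 :=
    Nat.lt_succ_of_le (Finset.le_sup (f := fun a => (u a).natDegree) (Finset.mem_univ a))
  conv_rhs => rw [(u a).as_sum_range' (M + 1) h2]
  rw [Finset.sum_range]
  unfold toPoly
  refine Finset.sum_congr rfl fun n _ => ?_
  rw [Polynomial.C_mul_X_pow_eq_monomial]

end Eq

section Formal

variable {k : Type} [Field k]

/-- The homomorphism given by the end points of the formal deformation kills the equations of
`V × V` and nothing else. -/
theorem formal_hom {N d r : ℕ} {V : Set (Fin (N + 1) → k)}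
    (F : Fin (d + 1) → Fin (N + 1) → MvPowerSeries (Fin r) k)
    (h2 : ∀ E ∈ van V, ∀ p q : MvPowerSeries (Fin r) k, aeval (val F p q) E = 0)
    (h4 : ∀ g : MvPolynomial (Fin (N + 1) ⊕ Fin (N + 1)) k,
      aeval (Sum.elim (F 0) (F (Fin.last d))) g = 0 → g ∈ van (prodSet V V)) :
    ∃ φ : MvPolynomial (Fin (N + 1) ⊕ Fin (N + 1)) k →ₐ[k] FractionRing (MvPowerSeries (Fin r) k),
      (∀ g, φ g = 0 ↔ g ∈ van (prodSet V V)) ∧
      (∀ i, φ (X (Sum.inl i)) = algebraMap _ _ (F 0 i)) ∧
      (∀ i, φ (X (Sum.inr i)) = algebraMap _ _ (F (Fin.last d) i)) := by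
  let R := MvPowerSeries (Fin r) k
  let K := FractionRing R
  let ι : R →ₐ[k] K := IsScalarTower.toAlgHom k R K
  have hι : Function.Injective ι := IsFractionRing.injective R K
  let φ : MvPolynomial (Fin (N + 1) ⊕ Fin (N + 1)) k →ₐ[k] K :=
    ι.comp (aeval (Sum.elim (F 0) (F (Fin.last d))))
  have hv0 : val F 1 0 = F 0 := by
    funext i
    unfold val
    rw [Finset.sum_eq_single (0 : Fin (d + 1))]
    · simp
    · intro j _ hj
      have : (j : ℕ) ≠ 0 := fun h => hj (Fin.ext h)
      rw [zero_pow this, mul_zero, mul_zero]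
    · intro h
      exact absurd (Finset.mem_univ _) h
  have hv1 : val F 0 1 = F (Fin.last d) := by
    funext i
    unfold val
    rw [Finset.sum_eq_single (Fin.last d)]
    · simp
    · intro j _ hj
      have : d - (j : ℕ) ≠ 0 := by
        have h1 := j.2
        have h2 : (j : ℕ) ≠ d := fun h => hj (Fin.ext h)
        omega
      rw [zero_pow this, zero_mul, mul_zero]
    · intro h
      exact absurd (Finset.mem_univ _) h
  refine ⟨φ, ?_, ?_, ?_⟩
  · intro g
    constructor
    · intro hg
      refine h4 g (hι ?_)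
      rw [map_zero]
      exact hg
    · intro hg
      rw [van_prodSet] at hg
      have hle : Ideal.map (rename Sum.inl : _ →ₐ[k] MvPolynomial (Fin (N + 1) ⊕ Fin (N + 1)) k)
          (van V) ⊔ Ideal.map (rename Sum.inr : _ →ₐ[k]
            MvPolynomial (Fin (N + 1) ⊕ Fin (N + 1)) k) (van V) ≤ RingHom.ker φ := by
        refine sup_le (Ideal.map_le_iff_le_comap.2 fun E hE => ?_)
          (Ideal.map_le_iff_le_comap.2 fun E hE => ?_)
        · rw [Ideal.mem_comap, RingHom.mem_ker]
          change ι (aeval (Sum.elim (F 0) (F (Fin.last d))) (rename Sum.inl E)) = 0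
          rw [aeval_rename, Sum.elim_comp_inl, ← hv0, h2 E hE, map_zero]
        · rw [Ideal.mem_comap, RingHom.mem_ker]
          change ι (aeval (Sum.elim (F 0) (F (Fin.last d))) (rename Sum.inr E)) = 0
          rw [aeval_rename, Sum.elim_comp_inr, ← hv1, h2 E hE, map_zero]
      exact hle hg
  · intro i
    change ι (aeval (Sum.elim (F 0) (F (Fin.last d))) (X (Sum.inl i))) = _
    rw [aeval_X]
    rfl
  · intro i
    change ι (aeval (Sum.elim (F 0) (F (Fin.last d))) (X (Sum.inr i))) = _
    rw [aeval_X]
    rfl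

/-- The solution of the system over the fraction field of the ring of power series. -/
theorem formal_sol [IsAlgClosed k] {N d m s r : ℕ} {V : Set (Fin (N + 1) → k)}
    {F0 : Fin (d + 1) → Fin (N + 1) → k} (hF0 : IsCurve V F0) (cm : Fin m → k)
    (G : Fin s → MvPolynomial (Fin (N + 1)) k) (e : Fin s → ℕ)
    (hG : ∀ a, (G a).IsHomogeneous (e a)) (hGV : ∀ x ∈ V, ∃ a, aeval x (G a) ≠ 0)
    (F : Fin (d + 1) → Fin (N + 1) → MvPowerSeries (Fin r) k)
    (h1 : ∀ j i, MvPowerSeries.constantCoeff (F j i) = F0 j i)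
    (h2 : ∀ E ∈ van V, ∀ p q : MvPowerSeries (Fin r) k, aeval (val F p q) E = 0)
    (h3 : ∀ l i, val F 1 (MvPowerSeries.C (cm l)) i = MvPowerSeries.C (val F0 1 (cm l) i)) :
    ∃ (M : ℕ) (x : Unk N d M s → FractionRing (MvPowerSeries (Fin r) k)),
      Sol V G cm (fun l => val F0 1 (cm l)) (fun i => algebraMap _ _ (F 0 i))
        (fun i => algebraMap _ _ (F (Fin.last d) i)) (fun j i => x (Sum.inl (j, i)))
        (toPoly fun (n : Fin (M + 1)) (a : Fin s) => x (Sum.inr (a, n))) := by
  let R := MvPowerSeries (Fin r) k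
  let K := FractionRing R
  let ι : R →ₐ[k] K := IsScalarTower.toAlgHom k R K
  let π : R →ₐ[k] k :=
    { (MvPowerSeries.constantCoeff : R →+* k) with
      commutes' := fun a => by
        change MvPowerSeries.constantCoeff (algebraMap k R a) = a
        rw [MvPowerSeries.algebraMap_apply]
        simp }
  have hπ : ∀ f, π f = MvPowerSeries.constantCoeff f := fun _ => rfl
  have hF0' : (fun j i => π (F j i)) = F0 := by
    funext j i
    rw [hπ, h1]
  have hkinf : Infinite k := IsAlgClosed.instInfinite
  have hRdom : IsDomain R := NoZeroDivisors.to_isDomain R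
  have hRinf : Infinite R := Infinite.of_injective (MvPowerSeries.C : k →+* R)
    (MvPowerSeries.C_injective)
  obtain ⟨M, c, hc⟩ := certificate π F G e hG (by
      intro t
      rw [hF0']
      exact hGV _ (hF0 1 t (Or.inl one_ne_zero))) (by
      have : (fun i => π (F (Fin.last d) i)) = val F0 0 1 := by
        funext i
        rw [hπ, h1]
        unfold val
        rw [Finset.sum_eq_single (Fin.last d)]
        · simp
        · intro j _ hj
          have : d - (j : ℕ) ≠ 0 := by
            have h1 := j.2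
            have h2 : (j : ℕ) ≠ d := fun h => hj (Fin.ext h)
            omega
          rw [zero_pow this, zero_mul, mul_zero]
        · intro h
          exact absurd (Finset.mem_univ _) h
      rw [this]
      exact hGV _ (hF0 0 1 (Or.inr one_ne_zero)))
  refine ⟨M, Sum.elim (fun ji => ι (F ji.1 ji.2)) (fun an => ι (c an.1 an.2)), ?_⟩
  refine ⟨fun i => rfl, fun i => rfl, fun l i => ?_, fun E hE => ?_, ?_⟩
  · have h := congrArg ι (h3 l i)
    have e1 : ι (MvPowerSeries.C (val F0 1 (cm l) i)) = algebraMap k K (val F0 1 (cm l) i) := by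
      have : (MvPowerSeries.C (val F0 1 (cm l) i) : R) = algebraMap k R (val F0 1 (cm l) i) := rfl
      rw [this, AlgHom.commutes]
    have e2 : ι (MvPowerSeries.C (cm l)) = algebraMap k K (cm l) := by
      have : (MvPowerSeries.C (cm l) : R) = algebraMap k R (cm l) := rfl
      rw [this, AlgHom.commutes]
    rw [e1] at h
    rw [← h]
    have h5 := map_val_fam (ι : R →+* K) F 1 (MvPowerSeries.C (cm l)) i
    rw [map_one] at h5
    change _ = (ι : R →+* K) _
    rw [h5]
    change _ = val (fun j i => ι (F j i)) 1 (ι (MvPowerSeries.C (cm l))) i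
    rw [e2]
    rfl
  · change aeval (toPoly fun j i => ι (F j i)) E = 0
    rw [← map_aeval_toPoly, toPoly_eqs F E (fun t => h2 E hE 1 t), Polynomial.map_zero]
  · have h := congrArg (Polynomial.map (ι : R →+* K)) hc
    rw [Polynomial.map_sum, Polynomial.map_one] at h
    rw [← h]
    refine Finset.sum_congr rfl fun a _ => ?_
    rw [Polynomial.map_mul, map_aeval_toPoly, map_toPoly]
    rfl

end Formal

end Pool.Agent.VF
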