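import Mathlib
import Pool.Agent.Lib_MP_1858fb_w.Formal

/-!
Formal deformation with denominators: the integral form over a domain `O`, with a denominator `c`
of the solution operator of the linearised problem and a fixed divisor `P`.
-/

open Polynomial

namespace Pool.Agent.VF.FmInt

open Pool.Agent.VF.Fm

variable {k : Type*} [Field k] {O : Type*} [CommRing O] [Algebra k O] {σ : Type*} {M : Type*}

/-- All coefficients of the power series have degree at most `n`. -/
def DegLE (n : ℕ) (f : MvPowerSeries σ O[X]) : Prop :=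
  ∀ μ, (MvPowerSeries.coeff μ f).natDegree ≤ n

theorem DegLE.add {n : ℕ} {f g : MvPowerSeries σ O[X]} (hf : DegLE n f) (hg : DegLE n g) :
    DegLE n (f + g) := fun μ => by
  rw [map_add]; exact (natDegree_add_le _ _).trans (max_le (hf μ) (hg μ))

theorem degLE_zero (n : ℕ) : DegLE n (0 : MvPowerSeries σ O[X]) := fun μ => by simp

theorem DegLE.sum {n : ℕ} {ι : Type*} (s : Finset ι) {f : ι → MvPowerSeries σ O[X]}
    (hf : ∀ i ∈ s, DegLE n (f i)) : DegLE n (∑ i ∈ s, f i) := by
  classical
  induction s using Finset.induction_on with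
  | empty => simpa using degLE_zero n
  | insert a s ha ih =>
    rw [Finset.sum_insert ha]
    exact (hf a (Finset.mem_insert_self a s)).add
      (ih fun i hi => hf i (Finset.mem_insert_of_mem hi))

theorem DegLE.mul {m n : ℕ} {f g : MvPowerSeries σ O[X]} (hf : DegLE m f) (hg : DegLE n g) :
    DegLE (m + n) (f * g) := fun μ => by
  classical
  rw [MvPowerSeries.coeff_mul]
  refine natDegree_sum_le_of_forall_le _ _ fun p _ => natDegree_mul_le.trans ?_
  exact add_le_add (hf p.1) (hg p.2)

theorem degLE_C {n : ℕ} {a : O[X]} (ha : a.natDegree ≤ n) :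
    DegLE n (MvPowerSeries.C a : MvPowerSeries σ O[X]) := fun μ => by
  classical
  rw [MvPowerSeries.coeff_C]
  split_ifs
  · exact ha
  · simp

theorem degLE_algebraMap (c : k) : DegLE 0 (algebraMap k (MvPowerSeries σ O[X]) c) := fun μ => by
  classical
  rw [MvPowerSeries.algebraMap_apply, MvPowerSeries.coeff_C]
  split_ifs
  · rw [Polynomial.algebraMap_apply]; simp
  · simp

theorem DegLE.pow {n : ℕ} {f : MvPowerSeries σ O[X]} (hf : DegLE n f) (m : ℕ) :
    DegLE (n * m) (f ^ m) := by
  induction m with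
  | zero => simpa using degLE_C (σ := σ) (O := O) (n := 0) (a := 1) (by simp)
  | succ m ih => rw [pow_succ, Nat.mul_succ]; exact ih.mul hf

theorem DegLE.prod {ι : Type*} (s : Finset ι) {n : ι → ℕ} {f : ι → MvPowerSeries σ O[X]}
    (hf : ∀ i ∈ s, DegLE (n i) (f i)) : DegLE (∑ i ∈ s, n i) (∏ i ∈ s, f i) := by
  classical
  induction s using Finset.induction_on with
  | empty => simpa using degLE_C (σ := σ) (O := O) (n := 0) (a := 1) (by simp)
  | insert a s ha ih =>
    rw [Finset.sum_insert ha, Finset.prod_insert ha]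
    exact (hf a (Finset.mem_insert_self a s)).mul
      (ih fun i hi => hf i (Finset.mem_insert_of_mem hi))

theorem degLE_aeval [Fintype M] {d e : ℕ} {F : M → MvPowerSeries σ O[X]} (hF : ∀ j, DegLE d (F j))
    {E : MvPolynomial M k} (hE : E.IsHomogeneous e) :
    DegLE (d * e) (MvPolynomial.aeval F E) := by
  rw [MvPolynomial.aeval_def, MvPolynomial.eval₂_eq']
  refine DegLE.sum _ fun s hs => ?_
  have h1 : ∑ i, s i = e := by
    have := hE (MvPolynomial.mem_support_iff.1 hs)
    rw [Finsupp.weight_apply, Finsupp.sum_fintype] at this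
    · simpa using this
    · simp
  have h2 : d * e = 0 + ∑ i, d * s i := by rw [← Finset.mul_sum, h1, zero_add]
  rw [h2]
  exact (degLE_algebraMap _).mul (DegLE.prod _ fun i _ => (hF i).pow (s i))

theorem aeval_C_series (R : M → O[X]) (E : MvPolynomial M k) :
    MvPolynomial.aeval (fun j => (MvPowerSeries.C (R j) : MvPowerSeries σ O[X])) E =
      MvPowerSeries.C (MvPolynomial.aeval R E) := by
  induction E using MvPolynomial.induction_on with
  | C a => rw [MvPolynomial.aeval_C, MvPolynomial.aeval_C, MvPowerSeries.algebraMap_apply]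
  | add p q hp hq => rw [map_add, map_add, map_add, hp, hq]
  | mul_X p i hp =>
    rw [map_mul, map_mul, map_mul, hp, MvPolynomial.aeval_X, MvPolynomial.aeval_X]

theorem constantCoeff_aeval (F : M → MvPowerSeries σ O[X]) (E : MvPolynomial M k) :
    MvPowerSeries.constantCoeff (MvPolynomial.aeval F E) =
      MvPolynomial.aeval (fun j => MvPowerSeries.constantCoeff (F j)) E := by
  induction E using MvPolynomial.induction_on with
  | C a =>
    rw [MvPolynomial.aeval_C, MvPolynomial.aeval_C, MvPowerSeries.algebraMap_apply,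
      MvPowerSeries.constantCoeff_C]
  | add p q hp hq => rw [map_add, map_add, map_add, hp, hq]
  | mul_X p i hp =>
    rw [map_mul, map_mul, map_mul, hp, MvPolynomial.aeval_X, MvPolynomial.aeval_X]

/-- The tuple `R + c Δ`. -/
noncomputable def tup (R : M → O[X]) (c : O) (Δ : M → MvPowerSeries σ O[X]) :
    M → MvPowerSeries σ O[X] :=
  fun j => MvPowerSeries.C (R j) + MvPowerSeries.C (C c) * Δ j

/-- The state of the recursion. -/
structure State [Fintype M] (I : Ideal (MvPolynomial M k)) (d : ℕ) (P : O[X]) (c : O) (R : M → O[X])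
    (g : σ → M → O[X]) (n : ℕ) (Δ : M → MvPowerSeries σ O[X]) : Prop where
  deg : ∀ j, DegLE d (Δ j)
  dvd : ∀ j μ, P ∣ MvPowerSeries.coeff μ (Δ j)
  zero : ∀ j, MvPowerSeries.constantCoeff (Δ j) = 0
  one : ∀ i j, MvPowerSeries.coeff (Finsupp.single i 1) (Δ j) = g i j
  big : ∀ j (μ : σ →₀ ℕ), n ≤ μ.degree → MvPowerSeries.coeff μ (Δ j) = 0
  eqs : ∀ E ∈ I, MvPolynomial.aeval (tup R c Δ) E ∈ J σ O[X] n

/-- The coefficients of the equations: the linear part and a part divisible by `c² P`. -/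
theorem coeff_aeval_tup [Fintype M] (P : O[X]) (c : O) (R : M → O[X])
    {Δ : M → MvPowerSeries σ O[X]} (hP : ∀ j μ, P ∣ MvPowerSeries.coeff μ (Δ j))
    (E : MvPolynomial M k) (hE : MvPolynomial.aeval R E = 0) (μ : σ →₀ ℕ) :
    ∃ q : O[X], MvPowerSeries.coeff μ (MvPolynomial.aeval (tup R c Δ) E) =
      C c * ∑ j, MvPolynomial.aeval R (MvPolynomial.pderiv j E) * MvPowerSeries.coeff μ (Δ j) +
        C c * (C c * (P * q)) := by
  have h1 := taylor_mem (A := k) (Dv σ (C c * P)) (Dv σ ((C c * P) * (C c * P)))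
    (fun x hx y hy μ => by
      classical
      rw [MvPowerSeries.coeff_mul]
      exact Finset.dvd_sum fun p _ => mul_dvd_mul (hx p.1) (hy p.2))
    (fun j => MvPowerSeries.C (R j)) (fun j => MvPowerSeries.C (C c) * Δ j)
    (fun j μ => by
      rw [MvPowerSeries.coeff_C_mul]
      exact mul_dvd_mul_left _ (hP j μ)) E
  have h2 := h1 μ
  obtain ⟨q, hq⟩ := h2
  rw [map_sub, map_sub, aeval_C_series, hE, map_zero, map_zero, sub_zero, sub_eq_iff_eq_add] at hq
  refine ⟨P * q, ?_⟩
  have h3 : MvPolynomial.aeval (tup R c Δ) E = MvPolynomial.aeval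
      (fun j => (MvPowerSeries.C (R j) : MvPowerSeries σ O[X]) + MvPowerSeries.C (C c) * Δ j) E := rfl
  rw [h3, hq, map_sum]
  have h4 : ∀ j, MvPowerSeries.coeff μ (MvPolynomial.aeval
      (fun j => (MvPowerSeries.C (R j) : MvPowerSeries σ O[X])) (MvPolynomial.pderiv j E) *
        (MvPowerSeries.C (C c) * Δ j)) =
      C c * (MvPolynomial.aeval R (MvPolynomial.pderiv j E) * MvPowerSeries.coeff μ (Δ j)) := by
    intro j
    rw [aeval_C_series, MvPowerSeries.coeff_C_mul, MvPowerSeries.coeff_C_mul]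
    ring
  simp only [h4]
  rw [← Finset.mul_sum]
  ring

theorem state_start [Fintype M] [Fintype σ] (I : Ideal (MvPolynomial M k)) (d : ℕ) (P : O[X])
    (c : O) (R : M → O[X]) (g : σ → M → O[X]) (hgd : ∀ i j, (g i j).natDegree ≤ d)
    (hgP : ∀ i j, P ∣ g i j) (hR : ∀ E ∈ I, MvPolynomial.aeval R E = 0)
    (hg : ∀ i, ∀ E ∈ I, ∑ j, MvPolynomial.aeval R (MvPolynomial.pderiv j E) * g i j = 0) :
    ∃ Δ : M → MvPowerSeries σ O[X], State I d P c R g 2 Δ := by
  classical
  set Δ : M → MvPowerSeries σ O[X] := fun j => ∑ i, MvPowerSeries.X i * MvPowerSeries.C (g i j)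
    with hΔ
  have hcX : ∀ (μ : σ →₀ ℕ) (i : σ) (a : O[X]), MvPowerSeries.coeff μ
      (MvPowerSeries.X i * MvPowerSeries.C a) = if μ = Finsupp.single i 1 then a else 0 := by
    intro μ i a
    rw [MvPowerSeries.coeff_mul_C, MvPowerSeries.coeff_X]
    split_ifs <;> simp
  have hcΔ : ∀ (μ : σ →₀ ℕ) (j : M), MvPowerSeries.coeff μ (Δ j) =
      ∑ i, if μ = Finsupp.single i 1 then g i j else 0 := by
    intro μ j
    rw [hΔ]
    simp only [map_sum, hcX]
  have hΔJ : ∀ j, Δ j ∈ J σ O[X] 1 := by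
    intro j μ hμ
    have h0 : μ = 0 := (Finsupp.degree_eq_zero_iff μ).1 (by omega)
    rw [hcΔ, h0]
    refine Finset.sum_eq_zero fun i _ => if_neg fun h => ?_
    have := DFunLike.congr_fun h i
    simp at this
  refine ⟨Δ, ⟨fun j μ => ?_, fun j μ => ?_, fun j => ?_, fun i j => ?_, fun j μ hμ => ?_,
    fun E hE => ?_⟩⟩
  · rw [hcΔ]
    refine natDegree_sum_le_of_forall_le _ _ fun i _ => ?_
    split_ifs
    · exact hgd i j
    · simp
  · rw [hcΔ]
    refine Finset.dvd_sum fun i _ => ?_
    split_ifs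
    · exact hgP i j
    · exact dvd_zero _
  · rw [← MvPowerSeries.coeff_zero_eq_constantCoeff_apply]
    exact hΔJ j 0 (by simp)
  · rw [hcΔ, Finset.sum_eq_single i]
    · simp
    · intro b _ hb
      exact if_neg fun h => hb (by
        have := (Finsupp.single_left_inj (one_ne_zero)).1 h
        exact this.symm)
    · simp
  · rw [hcΔ]
    refine Finset.sum_eq_zero fun i _ => if_neg fun h => ?_
    rw [h, Finsupp.degree_single] at hμ
    omega
  · have h1 := taylor_mem (A := k) (J σ O[X] 1) (J σ O[X] 2) (fun x hx y hy => mul_mem_J hx hy)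
      (fun j => MvPowerSeries.C (R j)) (fun j => MvPowerSeries.C (C c) * Δ j)
      (fun j => (J σ O[X] 1).mul_mem_left _ (hΔJ j)) E
    have h3 : ∑ j, MvPolynomial.aeval (fun j => (MvPowerSeries.C (R j) : MvPowerSeries σ O[X]))
        (MvPolynomial.pderiv j E) * (MvPowerSeries.C (C c) * Δ j) = 0 := by
      have h4 : ∀ j, MvPolynomial.aeval (fun j => (MvPowerSeries.C (R j) : MvPowerSeries σ O[X]))
          (MvPolynomial.pderiv j E) * (MvPowerSeries.C (C c) * Δ j) =
          ∑ i, MvPowerSeries.C (C c) * (MvPowerSeries.X i *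
            MvPowerSeries.C (MvPolynomial.aeval R (MvPolynomial.pderiv j E) * g i j)) := by
        intro j
        rw [aeval_C_series, hΔ]
        simp only [Finset.mul_sum, map_mul]
        exact Finset.sum_congr rfl fun i _ => by ring
      simp only [h4]
      rw [Finset.sum_comm]
      refine Finset.sum_eq_zero fun i _ => ?_
      rw [← Finset.mul_sum, ← Finset.mul_sum, ← map_sum, hg i E hE, map_zero, mul_zero, mul_zero]
    rw [h3, sub_zero, aeval_C_series, hR E hE, map_zero, sub_zero] at h1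
    exact h1

theorem state_step [IsDomain O] [Fintype M] [Fintype σ] (I : Ideal (MvPolynomial M k)) (d : ℕ)
    (P : O[X]) (c : O) (hc : c ≠ 0) (R : M → O[X]) (g : σ → M → O[X])
    (hRd : ∀ j, (R j).natDegree ≤ d) (hR : ∀ E ∈ I, MvPolynomial.aeval R E = 0)
    (hobs : ∀ o : MvPolynomial M k → O[X],
      (∀ E ∈ I, ∀ G, o (G * E) = MvPolynomial.aeval R G * o E) →
      (∀ E ∈ I, ∀ E' ∈ I, o (E + E') = o E + o E') →
      (∀ E ∈ I, P ∣ o E) → (∀ E ∈ I, ∀ e, E.IsHomogeneous e → (o E).natDegree ≤ d * e) →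
      (∀ E ∈ I, C c ∣ o E) →
      ∃ δ : M → O[X], (∀ j, P ∣ δ j) ∧ (∀ j, (δ j).natDegree ≤ d) ∧
        ∀ E ∈ I, ∑ j, MvPolynomial.aeval R (MvPolynomial.pderiv j E) * δ j = o E)
    {n : ℕ} (hn : 2 ≤ n) {Δ : M → MvPowerSeries σ O[X]} (hΔ : State I d P c R g n Δ) :
    ∃ Δ' : M → MvPowerSeries σ O[X], State I d P c R g (n + 1) Δ' ∧
      ∀ j, Δ' j - Δ j ∈ J σ O[X] n := by
  classical
  have hCc : (C c : O[X]) ≠ 0 := by simpa using hc
  have hsol : ∀ μ : σ →₀ ℕ, μ.degree = n → ∃ δ : M → O[X], (∀ j, P ∣ δ j) ∧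
      (∀ j, (δ j).natDegree ≤ d) ∧
      ∀ E ∈ I, C c * ∑ j, MvPolynomial.aeval R (MvPolynomial.pderiv j E) * δ j =
        - MvPowerSeries.coeff μ (MvPolynomial.aeval (tup R c Δ) E) := by
    intro μ hμ
    have hex : ∀ E : MvPolynomial M k, ∃ r : O[X], E ∈ I →
        MvPowerSeries.coeff μ (MvPolynomial.aeval (tup R c Δ) E) = C c * (C c * (P * r)) := by
      intro E
      by_cases hE : E ∈ I
      · obtain ⟨q, hq⟩ := coeff_aeval_tup P c R hΔ.dvd E (hR E hE) μ
        refine ⟨q, fun _ => ?_⟩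
        rw [hq]
        have h0 : ∀ j, MvPowerSeries.coeff μ (Δ j) = 0 := fun j => hΔ.big j μ (by omega)
        simp [h0]
      · exact ⟨0, fun h => absurd h hE⟩
    choose r hr using hex
    have hval : ∀ E ∈ I, C c * (-(C c * (P * r E))) =
        - MvPowerSeries.coeff μ (MvPolynomial.aeval (tup R c Δ) E) := fun E hE => by
      rw [hr E hE]; ring
    obtain ⟨δ, h1, h2, h3⟩ := hobs (fun E => -(C c * (P * r E))) (fun E hE G => by
        apply mul_left_cancel₀ hCc
        show C c * (-(C c * (P * r (G * E)))) = C c * (MvPolynomial.aeval R G * -(C c * (P * r E)))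
        have h5 : C c * (MvPolynomial.aeval R G * -(C c * (P * r E))) =
            MvPolynomial.aeval R G * (C c * (-(C c * (P * r E)))) := by ring
        rw [hval _ (I.mul_mem_left G hE), h5, hval E hE, map_mul,
          coeff_mul_of_mem_J _ (hΔ.eqs E hE) hμ, constantCoeff_aeval]
        have h6 : (fun j => MvPowerSeries.constantCoeff (tup R c Δ j)) = R := by
          funext j
          simp [tup, hΔ.zero j]
        rw [h6]
        ring)
      (fun E hE E' hE' => by
        apply mul_left_cancel₀ hCc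
        show C c * (-(C c * (P * r (E + E')))) = C c * (-(C c * (P * r E)) + -(C c * (P * r E')))
        rw [mul_add, hval _ (I.add_mem hE hE'), hval E hE, hval E' hE', map_add, map_add]
        ring)
      (fun E _ => ⟨-(C c * r E), by ring⟩)
      (fun E hE e he => by
        show (-(C c * (P * r E))).natDegree ≤ d * e
        have h7 : (C c * (-(C c * (P * r E)))).natDegree ≤ d * e := by
          rw [hval E hE, natDegree_neg]
          refine degLE_aeval (fun j => ?_) he μ
          refine (degLE_C (hRd j)).add ?_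
          have := (degLE_C (σ := σ) (n := 0) (a := (C c : O[X])) (by simp)).mul (hΔ.deg j)
          rwa [zero_add] at this
        rwa [natDegree_C_mul hc] at h7)
      (fun E _ => ⟨-(P * r E), by ring⟩)
    exact ⟨δ, h1, h2, fun E hE => by rw [h3 E hE]; exact hval E hE⟩
  choose! δ hδP hδd hδ using hsol
  set D : M → MvPowerSeries σ O[X] := fun j μ => if μ.degree = n then δ μ j else 0 with hDdef
  have hcD : ∀ j μ, MvPowerSeries.coeff μ (D j) = if μ.degree = n then δ μ j else 0 :=
    fun j μ => rfl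
  have hD : ∀ j, D j ∈ J σ O[X] n := fun j μ hμ => by rw [hcD, if_neg (by omega)]
  refine ⟨fun j => Δ j + D j, ⟨fun j => (hΔ.deg j).add fun μ => ?_, fun j μ => ?_, fun j => ?_,
    fun i j => ?_, fun j μ hμ => ?_, fun E hE => ?_⟩, fun j => by simpa using hD j⟩
  · rw [hcD]
    split_ifs with h
    · exact hδd μ h j
    · simp
  · rw [map_add, hcD]
    refine dvd_add (hΔ.dvd j μ) ?_
    split_ifs with h
    · exact hδP μ h j
    · exact dvd_zero _
  · rw [map_add, hΔ.zero j, ← MvPowerSeries.coeff_zero_eq_constantCoeff_apply,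
      hD j 0 (by simp; omega), add_zero]
  · rw [map_add, hΔ.one i j, hD j _ (by rw [Finsupp.degree_single]; omega), add_zero]
  · rw [map_add, hΔ.big j μ (by omega), hcD, if_neg (by omega), add_zero]
  · intro μ hμ
    have h0 : tup R c (fun j => Δ j + D j) =
        fun j => tup R c Δ j + MvPowerSeries.C (C c) * D j := by
      funext j
      simp only [tup]
      ring
    have h1 := taylor_mem (A := k) (J σ O[X] n) (J σ O[X] (n + n))
      (fun x hx y hy => mul_mem_J hx hy) (tup R c Δ) (fun j => MvPowerSeries.C (C c) * D j)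
      (fun j => (J σ O[X] n).mul_mem_left _ (hD j)) E μ (by omega)
    rw [map_sub, map_sub, sub_sub, sub_eq_zero] at h1
    rw [h0, h1]
    rcases Nat.lt_or_ge μ.degree n with h2 | h2
    · rw [hΔ.eqs E hE μ h2, zero_add]
      exact (J σ O[X] n).sum_mem (fun j _ => (J σ O[X] n).mul_mem_left _
        ((J σ O[X] n).mul_mem_left _ (hD j))) μ h2
    · have h3 : μ.degree = n := by omega
      rw [map_sum]
      have h6 : (fun j => MvPowerSeries.constantCoeff (tup R c Δ j)) = R := by
        funext j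
        simp [tup, hΔ.zero j]
      have h4 : ∀ j, MvPowerSeries.coeff μ (MvPolynomial.aeval (tup R c Δ)
          (MvPolynomial.pderiv j E) * (MvPowerSeries.C (C c) * D j)) =
          C c * (MvPolynomial.aeval R (MvPolynomial.pderiv j E) * δ μ j) := by
        intro j
        rw [coeff_mul_of_mem_J _ ((J σ O[X] n).mul_mem_left _ (hD j)) h3, constantCoeff_aeval,
          MvPowerSeries.coeff_C_mul, hcD, if_pos h3, h6]
        ring
      simp only [h4]
      rw [← Finset.mul_sum, hδ μ h3 E hE]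
      ring

/-- **Formal deformation, integral form.** -/
theorem exists_formal_int [IsDomain O] [Fintype M] [Fintype σ] (I : Ideal (MvPolynomial M k))
    (d : ℕ) (P : O[X]) (c : O) (hc : c ≠ 0) (R : M → O[X]) (g : σ → M → O[X])
    (hRd : ∀ j, (R j).natDegree ≤ d) (hgd : ∀ i j, (g i j).natDegree ≤ d)
    (hgP : ∀ i j, P ∣ g i j) (hR : ∀ E ∈ I, MvPolynomial.aeval R E = 0)
    (hg : ∀ i, ∀ E ∈ I, ∑ j, MvPolynomial.aeval R (MvPolynomial.pderiv j E) * g i j = 0)
    (hobs : ∀ o : MvPolynomial M k → O[X],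
      (∀ E ∈ I, ∀ G, o (G * E) = MvPolynomial.aeval R G * o E) →
      (∀ E ∈ I, ∀ E' ∈ I, o (E + E') = o E + o E') →
      (∀ E ∈ I, P ∣ o E) → (∀ E ∈ I, ∀ e, E.IsHomogeneous e → (o E).natDegree ≤ d * e) →
      (∀ E ∈ I, C c ∣ o E) →
      ∃ δ : M → O[X], (∀ j, P ∣ δ j) ∧ (∀ j, (δ j).natDegree ≤ d) ∧
        ∀ E ∈ I, ∑ j, MvPolynomial.aeval R (MvPolynomial.pderiv j E) * δ j = o E) :
    ∃ Δ : M → MvPowerSeries σ O[X],
      (∀ j μ, (MvPowerSeries.coeff μ (Δ j)).natDegree ≤ d) ∧
      (∀ j μ, P ∣ MvPowerSeries.coeff μ (Δ j)) ∧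
      (∀ j, MvPowerSeries.constantCoeff (Δ j) = 0) ∧
      (∀ i j, MvPowerSeries.coeff (Finsupp.single i 1) (Δ j) = g i j) ∧
      ∀ E ∈ I, MvPolynomial.aeval
        (fun j => MvPowerSeries.C (R j) + MvPowerSeries.C (C c) * Δ j) E = 0 := by
  classical
  obtain ⟨Δs, hΔs⟩ := state_start I d P c R g hgd hgP hR hg
  have hstep : ∀ (n : ℕ) (F : {F : M → MvPowerSeries σ O[X] // State I d P c R g (n + 2) F}),
      ∃ F' : {F : M → MvPowerSeries σ O[X] // State I d P c R g (n + 1 + 2) F},
        ∀ j, F'.1 j - F.1 j ∈ J σ O[X] (n + 2) := by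
    intro n F
    obtain ⟨F', h1, h2⟩ := state_step I d P c hc R g hRd hR hobs (by omega) F.2
    exact ⟨⟨F', h1⟩, h2⟩
  choose next hnext using hstep
  let s : ∀ n : ℕ, {F : M → MvPowerSeries σ O[X] // State I d P c R g (n + 2) F} := fun n =>
    Nat.rec ⟨Δs, hΔs⟩ (fun n F => next n F) n
  have hs : ∀ n j, (s (n + 1)).1 j - (s n).1 j ∈ J σ O[X] (n + 2) := fun n j => hnext n (s n) j
  have hst : ∀ (μ : σ →₀ ℕ) (n : ℕ), μ.degree ≤ n → ∀ j,
      MvPowerSeries.coeff μ ((s n).1 j) = MvPowerSeries.coeff μ ((s μ.degree).1 j) := by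
    intro μ n hn
    induction n, hn using Nat.le_induction with
    | base => intro j; rfl
    | succ n hn ih =>
      intro j
      rw [← ih j]
      have h1 := hs n j μ (by omega)
      rw [map_sub, sub_eq_zero] at h1
      exact h1
  let F : M → MvPowerSeries σ O[X] := fun j μ => MvPowerSeries.coeff μ ((s μ.degree).1 j)
  have hF : ∀ j μ, MvPowerSeries.coeff μ (F j) = MvPowerSeries.coeff μ ((s μ.degree).1 j) :=
    fun j μ => rfl
  have hFs' : ∀ n j, F j - (s n).1 j ∈ J σ O[X] (n + 1) := by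
    intro n j μ hμ
    rw [map_sub, hF, hst μ n (by omega) j, sub_self]
  refine ⟨F, fun j μ => ?_, fun j μ => ?_, fun j => ?_, fun i j => ?_, fun E hE => ?_⟩
  · rw [hF]; exact (s μ.degree).2.deg j μ
  · rw [hF]; exact (s μ.degree).2.dvd j μ
  · rw [← MvPowerSeries.coeff_zero_eq_constantCoeff_apply, hF,
      MvPowerSeries.coeff_zero_eq_constantCoeff_apply]
    exact (s _).2.zero j
  · rw [hF]; exact (s _).2.one i j
  · refine eq_zero_of_mem_J fun n => ?_
    have h1 := aeval_sub_mem (A := k) (J σ O[X] (n + 1)) (F := tup R c F) (F' := tup R c (s n).1)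
      (fun j => by
        have h4 : tup R c F j - tup R c (s n).1 j =
            MvPowerSeries.C (C c) * (F j - (s n).1 j) := by
          simp only [tup]; ring
        rw [h4]
        exact (J σ O[X] (n + 1)).mul_mem_left _ (hFs' n j)) E
    have h2 := J_anti (by omega : n + 1 ≤ n + 2) ((s n).2.eqs E hE)
    have h3 := (J σ O[X] (n + 1)).add_mem h1 h2
    rw [sub_add_cancel] at h3
    exact J_anti (by omega) h3

end Pool.Agent.VF.FmInt

namespace Pool.Agent.VF

alias exists_formal_int := FmInt.exists_formal_int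

end Pool.Agent.VF
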