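import Pool.Agent.Lib_MP_1858fb_w.Formal
import Pool.Agent.Lib_MP_1858fb_w.Obs
import Pool.Agent.Lib_MP_1858fb_w.Defs
import Pool.Agent.Lib_MP_1858fb_w.Van1

/-!
The formal deformation of a curve in `V` with fixed marks, in terms of the definitions of
`Defs.lean`.
-/

namespace Pool.Agent.VF.Br

open MvPolynomial

section Poly

variable {R : Type} [CommRing R] {κ : Type} {d : ℕ}

/-- The tuple of polynomials in one variable of the tuple `F` of binary forms. -/
noncomputable def poly (F : Fin (d + 1) → κ → R) (i : κ) : Polynomial R :=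
  ∑ j : Fin (d + 1), Polynomial.C (F j i) * Polynomial.X ^ (j : ℕ)

theorem poly_natDegree (F : Fin (d + 1) → κ → R) (i : κ) : (poly F i).natDegree ≤ d := by
  refine Polynomial.natDegree_sum_le_of_forall_le _ _ fun j _ => ?_
  refine (Polynomial.natDegree_C_mul_X_pow_le _ _).trans ?_
  have := j.2
  omega

theorem poly_coeff (F : Fin (d + 1) → κ → R) (i : κ) (j : Fin (d + 1)) :
    (poly F i).coeff j = F j i := by
  rw [poly, Polynomial.finsetSum_coeff, Finset.sum_eq_single j]
  · simp
  · intro b _ hb
    rw [Polynomial.coeff_C_mul_X_pow, if_neg]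
    intro h
    exact hb (Fin.ext h.symm)
  · intro h
    exact absurd (Finset.mem_univ _) h

theorem poly_eval (F : Fin (d + 1) → κ → R) (i : κ) (x : R) :
    (poly F i).eval x = val F 1 x i := by
  rw [poly, val, Polynomial.eval_finsetSum]
  refine Finset.sum_congr rfl fun j _ => ?_
  simp

/-- The value at `(p, q)` of the binary form of degree `n` of the polynomial `u`. -/
noncomputable def hv (n : ℕ) (u : Polynomial R) (p q : R) : R :=
  aeval ![q, p] (u.homogenize n)

theorem hv_eq (n : ℕ) (u : Polynomial R) (p q : R) :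
    hv n u p q = ∑ j : Fin (n + 1), u.coeff j * (p ^ (n - (j : ℕ)) * q ^ (j : ℕ)) := by
  rw [hv, Polynomial.homogenize, map_sum, Finset.Nat.sum_antidiagonal_eq_sum_range_succ_mk,
    Finset.sum_range]
  refine Finset.sum_congr rfl fun j _ => ?_
  rw [aeval_monomial]
  simp [Finsupp.prod_fintype, Fin.prod_univ_two, mul_comm]

theorem hv_poly (F : Fin (d + 1) → κ → R) (i : κ) (p q : R) :
    hv d (poly F i) p q = val F p q i := by
  rw [hv_eq, val]
  exact Finset.sum_congr rfl fun j _ => by rw [poly_coeff]

theorem hv_mul {m n : ℕ} {u v : Polynomial R} (hu : u.natDegree ≤ m) (hv' : v.natDegree ≤ n)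
    (p q : R) : hv (m + n) (u * v) p q = hv m u p q * hv n v p q := by
  rw [hv, Polynomial.homogenize_mul _ _ hu hv', map_mul, hv, hv]

theorem hv_zero (n : ℕ) (p q : R) : hv n (0 : Polynomial R) p q = 0 := by
  rw [hv, Polynomial.homogenize_zero, map_zero]

theorem hv_one (n : ℕ) (p q : R) : hv n (1 : Polynomial R) p q = p ^ n := by
  rw [hv, Polynomial.homogenize_one]
  simp

theorem hv_sum {ι : Type} (s : Finset ι) (u : ι → Polynomial R) (n : ℕ) (p q : R) :
    hv n (∑ i ∈ s, u i) p q = ∑ i ∈ s, hv n (u i) p q := by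
  rw [hv, Polynomial.homogenize_finsetSum, map_sum]
  rfl

theorem hv_C_mul (n : ℕ) (a : R) (u : Polynomial R) (p q : R) :
    hv n (Polynomial.C a * u) p q = a * hv n u p q := by
  rw [hv, Polynomial.homogenize_C_mul, map_mul, hv]
  simp

theorem hv_prod {ι : Type} (s : Finset ι) (u : ι → Polynomial R) (n : ι → ℕ)
    (h : ∀ i ∈ s, (u i).natDegree ≤ n i) (p q : R) :
    hv (∑ i ∈ s, n i) (∏ i ∈ s, u i) p q = ∏ i ∈ s, hv (n i) (u i) p q := by
  rw [hv, Polynomial.homogenize_finsetProd h, map_prod]
  rfl

theorem hv_pow {n : ℕ} {u : Polynomial R} (h : u.natDegree ≤ n) (e : ℕ) (p q : R) :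
    hv (e * n) (u ^ e) p q = hv n u p q ^ e := by
  induction e with
  | zero => rw [pow_zero, pow_zero, Nat.zero_mul, hv_one, pow_zero]
  | succ e ih =>
    rw [Nat.succ_mul, pow_succ, hv_mul _ h, ih, pow_succ]
    refine Polynomial.natDegree_pow_le.trans ?_
    exact Nat.mul_le_mul_left _ h

theorem hv_linear (c p q : R) : hv 1 (Polynomial.X - Polynomial.C c) p q = q - c * p := by
  rw [hv_eq]
  simp [Fin.sum_univ_two]
  ring

end Poly

section Aeval

variable {k : Type} [CommRing k] {R : Type} [CommRing R] [Algebra k R] {κ : Type} {d : ℕ}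

/-- A form of degree `e` along the curve. -/
theorem aeval_hv {u : κ → Polynomial R} (hu : ∀ i, (u i).natDegree ≤ d) {E : MvPolynomial κ k}
    {e : ℕ} (hE : E.IsHomogeneous e) (p q : R) :
    aeval (fun i => hv d (u i) p q) E = hv (d * e) (aeval u E) p q := by
  rw [aeval_def, aeval_def, eval₂_eq, eval₂_eq, hv_sum]
  refine Finset.sum_congr rfl fun s hs => ?_
  have hse : s.degree = e := by
    have := hE (MvPolynomial.mem_support_iff.mp hs)
    rw [Finsupp.degree_eq_weight_one]
    exact this
  have hde : d * e = ∑ i ∈ s.support, s i * d := by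
    rw [← Finset.sum_mul, ← hse, Finsupp.degree_apply, mul_comm]
  rw [Polynomial.algebraMap_apply, hv_C_mul, hde, hv_prod]
  · congr 1
    exact Finset.prod_congr rfl fun i _ => (hv_pow (hu i) _ _ _).symm
  · intro i _
    exact Polynomial.natDegree_pow_le.trans (Nat.mul_le_mul_left _ (hu i))

theorem hv_zero_one {n : ℕ} (u : Polynomial R) : hv n u 0 1 = u.coeff n := by
  rw [hv_eq, Finset.sum_eq_single (Fin.last n)]
  · simp
  · intro b _ hb
    have h1 : (b : ℕ) < n := by
      rcases Nat.lt_or_ge (b : ℕ) n with h | h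
      · exact h
      · exact absurd (Fin.ext (by have := b.2; simp only [Fin.val_last]; omega)) hb
    rw [zero_pow (by omega), zero_mul, mul_zero]
  · intro h
    exact absurd (Finset.mem_univ _) h

/-- The leading coefficient of a form along the curve. -/
theorem aeval_coeff {u : κ → Polynomial R} (hu : ∀ i, (u i).natDegree ≤ d)
    {E : MvPolynomial κ k} {e : ℕ} (hE : E.IsHomogeneous e) :
    (aeval u E).coeff (d * e) = aeval (fun i => (u i).coeff d) E := by
  rw [← hv_zero_one, ← aeval_hv hu hE]
  simp only [hv_zero_one]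

theorem val_zero_one (F : Fin (d + 1) → κ → R) (i : κ) : val F 0 1 i = F (Fin.last d) i := by
  rw [← hv_poly, hv_zero_one, ← poly_coeff F i (Fin.last d)]
  rfl

theorem val_one_zero (F : Fin (d + 1) → κ → R) (i : κ) : val F 1 0 i = F 0 i := by
  rw [← poly_eval, ← Polynomial.coeff_zero_eq_eval_zero, ← poly_coeff F i 0]
  rfl

end Aeval

section Curve

variable {k : Type} [Field k] {N d : ℕ} {V : Set (Fin (N + 1) → k)}
  {F : Fin (d + 1) → Fin (N + 1) → k}

theorem eval_aeval_poly (F : Fin (d + 1) → Fin (N + 1) → k) (E : MvPolynomial (Fin (N + 1)) k)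
    (x : k) : (aeval (poly F) E).eval x = aeval (val F 1 x) E := by
  have h : (Polynomial.aeval x : Polynomial k →ₐ[k] k) (aeval (poly F) E) =
      aeval (fun i => (Polynomial.aeval x : Polynomial k →ₐ[k] k) (poly F i)) E := by
    rw [← AlgHom.comp_apply, comp_aeval]
  rw [← Polynomial.coe_aeval_eq_eval]
  refine h.trans ?_
  congr 2
  funext i
  rw [Polynomial.coe_aeval_eq_eval, poly_eval]

theorem aeval_poly_eq_zero [Infinite k] (hF : IsCurve V F) {E : MvPolynomial (Fin (N + 1)) k}
    (hE : E ∈ van V) : aeval (poly F) E = 0 := by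
  refine Polynomial.funext fun x => ?_
  rw [eval_aeval_poly, Polynomial.eval_zero]
  exact hE _ (hF 1 x (Or.inl one_ne_zero))

theorem dif_eval (F : Fin (d + 1) → Fin (N + 1) → k) (E : MvPolynomial (Fin (N + 1)) k) (a : k)
    (x : Fin (N + 1) → k) :
    ∑ i, (Obs.dif (poly F) E i).eval a * x i = dif E (val F 1 a) x := by
  rw [dif]
  refine Finset.sum_congr rfl fun i _ => ?_
  rw [Obs.dif, eval_aeval_poly]

theorem isSec_poly [Infinite k] {D : ℕ} {G : Fin (D + 1) → Fin (N + 1) → k}
    (hG : IsTangent V F G) : Obs.IsSec (poly F) (van V) D (poly G) := by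
  refine ⟨poly_natDegree G, fun E hE => Polynomial.funext fun x => ?_⟩
  rw [Polynomial.eval_finsetSum, Polynomial.eval_zero]
  have h1 := hG 1 x E hE
  rw [← dif_eval] at h1
  rw [← h1]
  refine Finset.sum_congr rfl fun i _ => ?_
  rw [Polynomial.eval_mul, poly_eval]

theorem locGen_poly {c : ℕ} {a : k} (h : SmoothAt c V (val F 1 a)) :
    Obs.LocGen (poly F) (van V) c a := by
  obtain ⟨E, H, hE, hli, hH, hgen⟩ := h
  refine ⟨E, hE, ?_, fun P hP => ⟨H, ?_, hgen P hP⟩⟩
  · convert hli using 3
    rw [Obs.dif, eval_aeval_poly]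
  · intro h0
    apply hH
    rw [← eval_aeval_poly, h0, Polynomial.eval_zero]

/-- At infinity it is enough to test tangency on forms. -/
theorem mem_tan_of_forms [Infinite k] (hV : LocClosed V) {y x : Fin (N + 1) → k}
    (h : ∀ E ∈ van V, ∀ e, E.IsHomogeneous e → dif E y x = 0) : x ∈ Tan V y := by
  intro E hE
  have h1 : dif E y x = ∑ n ∈ Finset.range (E.totalDegree + 1),
      dif (homogeneousComponent n E) y x := by
    conv_lhs => rw [← sum_homogeneousComponent E]
    simp only [dif, map_sum, Finset.sum_mul]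
    rw [Finset.sum_comm]
  rw [h1]
  exact Finset.sum_eq_zero fun n _ => h _ (van_homogeneousComponent hV hE n) n
    (homogeneousComponent_isHomogeneous n E)

theorem dif_coeff {E : MvPolynomial (Fin (N + 1)) k} {e : ℕ}
    (hE : E.IsHomogeneous e) (x : Fin (N + 1) → k) :
    ∑ i, (Obs.dif (poly F) E i).coeff (d * (e - 1)) * x i = dif E (val F 0 1) x := by
  rw [dif]
  refine Finset.sum_congr rfl fun i _ => ?_
  rw [Obs.dif, aeval_coeff (poly_natDegree F) hE.pderiv]
  congr 3
  funext j
  rw [← hv_zero_one, hv_poly]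

end Curve

section Swap

variable {k : Type} [Field k] {σ : Type}

/-- Polynomials with power series coefficients, as power series with polynomial coefficients. -/
noncomputable def sw : Polynomial (MvPowerSeries σ k) →+* MvPowerSeries σ (Polynomial k) :=
  Polynomial.eval₂RingHom (MvPowerSeries.map (Polynomial.C : k →+* Polynomial k))
    (MvPowerSeries.C Polynomial.X)

theorem sw_coeff (u : Polynomial (MvPowerSeries σ k)) (μ : σ →₀ ℕ) (n : ℕ) :
    (MvPowerSeries.coeff μ (sw u)).coeff n = MvPowerSeries.coeff μ (u.coeff n) := by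
  induction u using Polynomial.induction_on' with
  | add u v hu hv => rw [map_add, map_add, Polynomial.coeff_add, hu, hv, Polynomial.coeff_add,
      map_add]
  | monomial m a =>
    rw [sw, Polynomial.coe_eval₂RingHom, Polynomial.eval₂_monomial, ← map_pow,
      MvPowerSeries.coeff_mul_C, MvPowerSeries.coeff_map, Polynomial.coeff_C_mul_X_pow,
      Polynomial.coeff_monomial]
    by_cases h : m = n
    · rw [if_pos h, if_pos h.symm]
    · rw [if_neg h, if_neg (fun h' => h h'.symm), map_zero]

theorem sw_injective : Function.Injective (sw : Polynomial (MvPowerSeries σ k) →+* _) := by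
  intro u v h
  ext n μ
  rw [← sw_coeff, ← sw_coeff, h]

theorem sw_algebraMap (a : k) :
    sw (algebraMap k (Polynomial (MvPowerSeries σ k)) a) =
      algebraMap k (MvPowerSeries σ (Polynomial k)) a := by
  rw [Polynomial.algebraMap_apply, sw, Polynomial.coe_eval₂RingHom, Polynomial.eval₂_C,
    MvPowerSeries.algebraMap_apply, MvPowerSeries.algebraMap_apply, MvPowerSeries.map_C]
  rfl

theorem sw_aeval {κ : Type} (u : κ → Polynomial (MvPowerSeries σ k)) (E : MvPolynomial κ k) :
    sw (aeval u E) = aeval (fun i => sw (u i)) E := by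
  rw [MvPolynomial.map_aeval, aeval_def, coe_eval₂Hom]
  congr 1
  exact RingHom.ext fun a => sw_algebraMap a

end Swap

end Pool.Agent.VF.Br

namespace Pool.Agent.VF

open MvPolynomial Br

section

variable {k : Type} [Field k]

theorem Span.of_succ {N d m : ℕ} {V : Set (Fin (N + 1) → k)}
    {F : Fin (d + 1) → Fin (N + 1) → k} (h : Span V F (m + 1)) : Span V F m := by
  obtain ⟨hmd, h⟩ := h
  refine ⟨by omega, fun p q hpq w hw => ?_⟩
  obtain ⟨g, hg, hgw⟩ := h p q hpq w hw
  -- a linear form with the value `1` at `(p, q)`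
  obtain ⟨a, b, hab⟩ : ∃ a b : k, a * p + b * q = 1 := by
    rcases hpq with hp | hq
    · exact ⟨p⁻¹, 0, by rw [inv_mul_cancel₀ hp]; ring⟩
    · exact ⟨0, q⁻¹, by rw [inv_mul_cancel₀ hq]; ring⟩
  have hd : d - m = 1 + (d - (m + 1)) := by omega
  set u : Polynomial k := Polynomial.C a + Polynomial.C b * Polynomial.X with hu
  have hu1 : u.natDegree ≤ 1 := by
    rw [hu]
    refine (Polynomial.natDegree_add_le _ _).trans ?_
    rw [Polynomial.natDegree_C]
    refine max_le (Nat.zero_le _) ?_
    exact (Polynomial.natDegree_C_mul_le _ _).trans Polynomial.natDegree_X_le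
  have huv : ∀ p q : k, hv 1 u p q = a * p + b * q := by
    intro p q
    rw [hv_eq]
    simp [Fin.sum_univ_two, hu]
  have hval : ∀ p q : k, ∀ i, val (d := d - m) (fun j i => (u * poly g i).coeff j) p q i =
      (a * p + b * q) * val g p q i := by
    intro p q i
    have h1 : hv (1 + (d - (m + 1))) (u * poly g i) p q = (a * p + b * q) * val g p q i := by
      rw [hv_mul hu1 (poly_natDegree g i), huv, hv_poly]
    rw [← h1, ← hd, hv_eq]
    rfl
  refine ⟨fun j i => (u * poly g i).coeff j, fun p' q' => ?_, ?_⟩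
  · have h2 : val (d := d - m) (fun j i => (u * poly g i).coeff j) p' q' =
        (a * p' + b * q') • val g p' q' := by
      funext i
      rw [hval, Pi.smul_apply, smul_eq_mul]
    rw [h2]
    exact Submodule.smul_mem _ _ (hg p' q')
  · funext i
    rw [hval, hab, one_mul, hgw]

/-- **The formal deformation with fixed marks.** -/
theorem exists_deformation [IsAlgClosed k] {N c d m r : ℕ}
    {V : Set (Fin (N + 1) → k)} (hV : LocClosed V)
    (hsm : ∀ x ∈ V, SmoothAt c V x) {F0 : Fin (d + 1) → Fin (N + 1) → k} (hF0 : IsCurve V F0)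
    (cm : Fin m → k) (hspan : Span V F0 m)
    (G : Fin r → Fin (d - m + 1) → Fin (N + 1) → k) (hG : ∀ s, IsTangent V F0 (G s)) :
    ∃ F : Fin (d + 1) → Fin (N + 1) → MvPowerSeries (Fin r) k,
      (∀ j i, MvPowerSeries.constantCoeff (F j i) = F0 j i) ∧
      (∀ s, ∀ p q : k, ∀ i,
        val (fun j i => MvPowerSeries.coeff (Finsupp.single s 1) (F j i)) p q i =
          (∏ l, (q - cm l * p)) * val (G s) p q i) ∧
      (∀ E ∈ van V, ∀ p q : MvPowerSeries (Fin r) k, aeval (val F p q) E = 0) ∧
      (∀ l i, val F 1 (MvPowerSeries.C (cm l)) i = MvPowerSeries.C (val F0 1 (cm l) i)) := by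
  classical
  have : Infinite k := IsAlgClosed.instInfinite
  obtain ⟨hmd, hsp⟩ := hspan
  set P : Polynomial k := ∏ l, (Polynomial.X - Polynomial.C (cm l)) with hP
  have hPd : P.natDegree = m := by
    rw [hP, Polynomial.natDegree_finsetProd_X_sub_C_eq_card]
    simp
  have hP0 : P ≠ 0 := by
    rw [hP]
    exact Finset.prod_ne_zero_iff.mpr fun l _ => Polynomial.X_sub_C_ne_zero _
  have hP1 : ∀ l, P.eval (cm l) = 0 := by
    intro l
    rw [hP, Polynomial.eval_prod]
    exact Finset.prod_eq_zero (Finset.mem_univ l) (by simp)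
  obtain ⟨Fh, hFd, hFP, hF0', hF1, hFE⟩ := exists_formal (σ := Fin r) (van V) d P (poly F0)
    (fun s i => P * poly (G s) i) (poly_natDegree F0) (fun s i => by
      refine Polynomial.natDegree_mul_le.trans ?_
      have := poly_natDegree (G s) i
      omega) (fun s i => dvd_mul_right _ _) (fun E hE => aeval_poly_eq_zero hF0 hE)
    (fun s E hE => by
      have h1 := (isSec_poly (hG s)).2 E hE
      have h2 : ∑ j, aeval (poly F0) (pderiv j E) * (P * poly (G s) j) =
          P * ∑ j, Obs.dif (poly F0) E j * poly (G s) j := by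
        rw [Finset.mul_sum]
        refine Finset.sum_congr rfl fun j _ => ?_
        rw [Obs.dif]
        ring
      rw [h2, h1, mul_zero])
    (fun o ho1 ho2 ho3 ho4 => by
      obtain ⟨δ, h1, h2, h3⟩ := Obs.obs_div (D := d - m) (poly_natDegree F0)
        (fun E hE => aeval_poly_eq_zero hF0 hE)
        (locGen_poly (a := 0) (hsm _ (hF0 1 0 (Or.inl one_ne_zero))))
        (fun a x hx => by
          obtain ⟨g, hg, hgx⟩ := hsp 1 a (Or.inl one_ne_zero) x (fun E hE => by
            rw [← dif_eval]
            exact hx E hE)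
          exact ⟨poly g, isSec_poly hg, fun i => by rw [poly_eval, hgx]⟩)
        (fun x hx => by
          obtain ⟨g, hg, hgx⟩ := hsp 0 1 (Or.inr one_ne_zero) x (mem_tan_of_forms hV
            (fun E hE e he => by
              rw [← dif_coeff he]
              exact hx E hE e he))
          exact ⟨poly g, isSec_poly hg, fun i => by rw [← hv_zero_one, hv_poly, hgx]⟩)
        hP0 (by omega) (o := o) ⟨fun E hE E' hE' => ho2 E hE E' hE', fun G E hE => ho1 E hE G⟩ ho3 ho4
      exact ⟨δ, h2, h1, h3⟩)
  set F : Fin (d + 1) → Fin (N + 1) → MvPowerSeries (Fin r) k :=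
    fun j i μ => (MvPowerSeries.coeff μ (Fh i)).coeff j with hF
  have hFc : ∀ (μ : Fin r →₀ ℕ) j i,
      MvPowerSeries.coeff μ (F j i) = (MvPowerSeries.coeff μ (Fh i)).coeff j := fun μ j i => rfl
  refine ⟨F, ?_, ?_, ?_, ?_⟩
  · intro j i
    rw [← MvPowerSeries.coeff_zero_eq_constantCoeff_apply, hFc,
      MvPowerSeries.coeff_zero_eq_constantCoeff_apply, hF0', poly_coeff]
  · intro s p q i
    have h1 : hv (m + (d - m)) (P * poly (G s) i) p q = (∏ l, (q - cm l * p)) * val (G s) p q i := by
      rw [hv_mul hPd.le (poly_natDegree _ _), hv_poly]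
      congr 1
      have h2 := hv_prod Finset.univ (fun l => Polynomial.X - Polynomial.C (cm l)) (fun _ => 1)
        (fun l _ => (Polynomial.natDegree_X_sub_C_le _)) p q
      simp only [Finset.sum_const, Finset.card_univ, Fintype.card_fin, smul_eq_mul, mul_one] at h2
      rw [hP, h2]
      exact Finset.prod_congr rfl fun l _ => hv_linear _ _ _
    rw [← h1, Nat.add_sub_cancel' hmd, hv_eq]
    refine Finset.sum_congr rfl fun j _ => ?_
    dsimp only
    rw [hFc, hF1]
  · -- the equations
    have hsw : ∀ i, sw (poly F i) = Fh i := by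
      intro i
      ext μ n
      rw [sw_coeff]
      rcases Nat.lt_or_ge n (d + 1) with h | h
      · have := poly_coeff F i ⟨n, h⟩
        simp only at this
        rw [this, hFc]
      · rw [Polynomial.coeff_eq_zero_of_natDegree_lt (lt_of_le_of_lt (poly_natDegree F i) h),
          Polynomial.coeff_eq_zero_of_natDegree_lt (lt_of_le_of_lt (hFd i μ) h), map_zero]
    have hzero : ∀ E ∈ van V, aeval (poly F) E = 0 := by
      intro E hE
      apply sw_injective
      rw [sw_aeval, map_zero, ← hFE E hE]
      congr 2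
      funext i
      exact hsw i
    intro E hE p q
    have hhom : ∀ n, aeval (val F p q) (homogeneousComponent n E) = 0 := by
      intro n
      have h1 := aeval_hv (poly_natDegree F) (homogeneousComponent_isHomogeneous n E) p q
      rw [hzero _ (van_homogeneousComponent hV hE n), hv_zero] at h1
      rw [← h1]
      congr 2
      funext i
      rw [hv_poly]
    rw [← sum_homogeneousComponent E, map_sum]
    exact Finset.sum_eq_zero fun n _ => hhom n
  · intro l i
    ext μ
    have h1 : MvPowerSeries.coeff μ (val F 1 (MvPowerSeries.C (cm l)) i) =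
        (MvPowerSeries.coeff μ (Fh i)).eval (cm l) := by
      rw [val, map_sum, Polynomial.eval_eq_sum_range' (Nat.lt_succ_of_le (hFd i μ)),
        Finset.sum_range]
      refine Finset.sum_congr rfl fun j _ => ?_
      rw [one_pow, one_mul, ← map_pow, MvPowerSeries.coeff_mul_C, hFc]
    rw [h1, MvPowerSeries.coeff_C]
    by_cases hμ : μ = 0
    · rw [if_pos hμ, hμ, MvPowerSeries.coeff_zero_eq_constantCoeff_apply, hF0', poly_eval]
    · rw [if_neg hμ]
      obtain ⟨v, hv'⟩ := hFP i μ hμ
      rw [hv', Polynomial.eval_mul, hP1, zero_mul]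

end

end Pool.Agent.VF
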