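import Pool.Agent.Lib_MP_1858fb_w.Defs2

/-! V2: dimension of the tangent space, algebraic charts. -/

namespace Pool.Agent.VF

open MvPolynomial

section

variable {k : Type} [Field k]

theorem dif_mul {σ : Type} [Fintype σ] (G E : MvPolynomial σ k) (x w : σ → k) :
    dif (G * E) x w = aeval x G * dif E x w + aeval x E * dif G x w := by
  simp only [dif, Derivation.leibniz, smul_eq_mul, map_add, map_mul, Finset.mul_sum,
    ← Finset.sum_add_distrib]
  exact Finset.sum_congr rfl fun j _ => by ring

theorem dif_sum {σ ι : Type} [Fintype σ] (s : Finset ι) (E : ι → MvPolynomial σ k) (x w : σ → k) :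
    dif (∑ l ∈ s, E l) x w = ∑ l ∈ s, dif (E l) x w := by
  simp only [dif, map_sum, Finset.sum_mul]
  exact Finset.sum_comm

theorem dif_X {σ : Type} [Fintype σ] (i : σ) (x w : σ → k) :
    dif (X i : MvPolynomial σ k) x w = w i := by
  classical
  simp only [dif, pderiv_X]
  rw [Finset.sum_eq_single i]
  · simp
  · intro j _ hj
    simp [Pi.single_eq_of_ne hj.symm]
  · simp

/-- the tangent space is cut out by the `c` equations -/
theorem mem_tan_iff_of_smoothAt {σ : Type} [Fintype σ] {c : ℕ} {V : Set (σ → k)} {x : σ → k}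
    (hx : x ∈ V) {E : Fin c → MvPolynomial σ k} {H : MvPolynomial σ k} (hE : ∀ i, E i ∈ van V)
    (hH : aeval x H ≠ 0) (hgen : ∀ G ∈ van V, H * G ∈ Ideal.span (Set.range E)) (w : σ → k) :
    w ∈ Tan V x ↔ ∀ i, dif (E i) x w = 0 := by
  constructor
  · intro hw i
    exact hw (E i) (hE i)
  · intro hw G hG
    obtain ⟨a, ha⟩ := (Ideal.mem_span_range_iff_exists_fun).1 (hgen G hG)
    have h1 : dif (H * G) x w = 0 := by
      rw [← ha, dif_sum]
      refine Finset.sum_eq_zero fun i _ => ?_
      rw [dif_mul, hw i, hE i x hx, mul_zero, zero_mul, add_zero]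
    rw [dif_mul, hG x hx, zero_mul, add_zero] at h1
    exact (mul_eq_zero.1 h1).resolve_left hH

theorem finrank_tan {σ : Type} [Fintype σ] {c : ℕ} {V : Set (σ → k)} {x : σ → k}
    (hx : x ∈ V) (hs : SmoothAt c V x) :
    Module.finrank k (Tan V x) + c = Fintype.card σ := by
  classical
  obtain ⟨E, H, hE, hli, hH, hgen⟩ := hs
  set M : Matrix (Fin c) σ k := Matrix.of fun i j => aeval x (pderiv j (E i)) with hM
  have hker : Tan V x = LinearMap.ker M.mulVecLin := by
    ext w
    rw [mem_tan_iff_of_smoothAt hx hE hH hgen, LinearMap.mem_ker, Matrix.mulVecLin_apply,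
      funext_iff]
    rfl
  have hrank : M.rank = c := by
    have h1 := LinearIndependent.rank_matrix (M := M) hli
    rwa [Fintype.card_fin] at h1
  have h2 := LinearMap.finrank_range_add_finrank_ker M.mulVecLin
  rw [Module.finrank_fintype_fun_eq_card] at h2
  rw [hker, add_comm, ← h2]
  congr 1
  exact hrank.symm

/-- a vector with vanishing free coordinates on which the equations vanish is zero -/
private theorem eq_zero_of_dif {N : ℕ} {x w : Fin (N + 1) → k}
    {Φ : Fin (N + 1) → MvPolynomial (Fin (N + 1)) k}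
    (hdet : aeval x (Matrix.det (Matrix.of fun i j => pderiv j (Φ i))) ≠ 0)
    (hw : ∀ i, dif (Φ i) x w = 0) : w = 0 := by
  by_contra hne
  apply hdet
  rw [AlgHom.map_det]
  exact Matrix.exists_mulVec_eq_zero_iff.1 ⟨w, hne, funext fun i => hw i⟩

/-- a tangent vector whose free coordinates vanish is zero -/
theorem Chart.tan_ext {N c : ℕ} {V : Set (Fin (N + 1) → k)} {x : Fin (N + 1) → k}
    (Ch : Chart c V x) {w : Fin (N + 1) → k} (hw : w ∈ Tan V x) (h0 : ∀ i ∈ Ch.A, w i = 0) :
    w = 0 := by
  refine eq_zero_of_dif Ch.hdet fun i => ?_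
  by_cases hi : i ∈ Ch.A
  · rw [Ch.hΦA i hi, dif_X, h0 i hi]
  · exact hw _ (Ch.hΦ i hi)

theorem exists_chart {N c : ℕ} {V : Set (Fin (N + 1) → k)} (hV : LocClosed V)
    {x : Fin (N + 1) → k} (hx : x ∈ V) (hs : SmoothAt c V x) : Nonempty (Chart c V x) := by
  classical
  obtain ⟨E, H, hE, hli, hH, hgen⟩ := hs
  obtain ⟨I, J, hhom, rfl⟩ := hV
  obtain ⟨hx0, hxI, G, hGJ, hGx⟩ := hx
  obtain ⟨j0, hj0⟩ : ∃ j, x j ≠ 0 := by
    by_contra hcon
    push Not at hcon
    exact hx0 (funext hcon)
  -- independent columns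
  set M : Matrix (Fin c) (Fin (N + 1)) k := Matrix.of fun i j => aeval x (pderiv j (E i)) with hM
  have hrank : M.rank = c := by
    have h1 := LinearIndependent.rank_matrix (M := M) hli
    rwa [Fintype.card_fin] at h1
  have hspan : Submodule.span k (Set.range M.col) = ⊤ := by
    apply Submodule.eq_top_of_finrank_eq
    rw [← Matrix.rank_eq_finrank_span_cols, hrank, Module.finrank_fintype_fun_eq_card,
      Fintype.card_fin]
  obtain ⟨κ, a, hainj, haspan, hali⟩ := exists_linearIndependent' k M.col
  have hfinκ : Finite κ := Finite.of_injective a hainj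
  let _ : Fintype κ := Fintype.ofFinite κ
  have hcard : Fintype.card κ = c := by
    have hb := Module.Basis.mk hali (by rw [haspan, hspan])
    have h1 := Module.finrank_eq_card_basis hb
    rw [Module.finrank_fintype_fun_eq_card, Fintype.card_fin] at h1
    exact h1.symm
  let B : Finset (Fin (N + 1)) := Finset.univ.image a
  have hB : B.card = c := by
    rw [Finset.card_image_of_injective _ hainj, Finset.card_univ, hcard]
  have hBmem : ∀ j, j ∈ B ↔ ∃ l, a l = j := by
    intro j
    simp [B]
  -- bijection of the dependent coordinates with the equations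
  let e : B ≃ Fin c := B.equivFinOfCardEq hB
  let Φ : Fin (N + 1) → MvPolynomial (Fin (N + 1)) k := fun i =>
    if h : i ∈ B then E (e ⟨i, h⟩) else X i
  have hΦB : ∀ i (h : i ∈ B), Φ i = E (e ⟨i, h⟩) := fun i h => dif_pos h
  have hΦX : ∀ i, i ∉ B → Φ i = X i := fun i h => dif_neg h
  have himage : Set.range E ⊆ Φ '' {i | i ∉ Bᶜ} := by
    rintro _ ⟨l, rfl⟩
    refine ⟨(e.symm l : Fin (N + 1)), ?_, ?_⟩
    · simp
    · rw [hΦB _ (e.symm l).2]
      simp
  have hnot : ∀ i, i ∉ Bᶜ ↔ i ∈ B := by
    intro i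
    simp
  have hvanI : ∀ F ∈ I, F ∈ van {x : Fin (N + 1) → k |
      x ≠ 0 ∧ (∀ E ∈ I, aeval x E = 0) ∧ ∃ G ∈ J, aeval x G ≠ 0} := by
    intro F hF y hy
    exact hy.2.1 F hF
  refine ⟨{ A := Bᶜ
            hA := ?_
            Φ := Φ
            hΦA := ?_
            hΦ := ?_
            H := H * G * X j0
            hdet := ?_
            hH := ?_
            gen := ?_
            good := ?_ }⟩
  · have h1 := Finset.card_add_card_compl B
    rw [hB, Fintype.card_fin] at h1
    omega
  · intro i hi
    exact hΦX i (by simpa using hi)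
  · intro i hi
    rw [hnot] at hi
    rw [hΦB i hi]
    exact hE _
  · intro hdet
    rw [AlgHom.map_det] at hdet
    obtain ⟨w, hw0, hw⟩ := Matrix.exists_mulVec_eq_zero_iff.2 hdet
    apply hw0
    have hw' : ∀ i, dif (Φ i) x w = 0 := fun i => congrFun hw i
    have h1 : ∀ i, i ∉ B → w i = 0 := by
      intro i hi
      have := hw' i
      rwa [hΦX i hi, dif_X] at this
    have h2 : ∀ l, dif (E l) x w = 0 := by
      intro l
      have := hw' (e.symm l : Fin (N + 1))
      rw [hΦB _ (e.symm l).2] at this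
      simpa using this
    have h3 : ∑ l : κ, w (a l) • M.col (a l) = 0 := by
      funext i
      have h4 := h2 i
      rw [dif, ← Finset.sum_subset (Finset.subset_univ B)
        (fun j _ hj => by rw [h1 j hj, mul_zero])] at h4
      rw [Finset.sum_image (fun _ _ _ _ h => hainj h)] at h4
      rw [Finset.sum_apply, Pi.zero_apply, ← h4]
      refine Finset.sum_congr rfl fun l _ => ?_
      simp [hM, mul_comm]
    have h5 := Fintype.linearIndependent_iff.1 hali (fun l => w (a l)) h3
    funext i
    by_cases hi : i ∈ B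
    · obtain ⟨l, rfl⟩ := (hBmem i).1 hi
      exact h5 l
    · exact h1 i hi
  · rw [map_mul, map_mul, aeval_X]
    exact mul_ne_zero (mul_ne_zero hH hGx) hj0
  · intro F hF
    have h1 : H * F ∈ Ideal.span (Φ '' {i | i ∉ Bᶜ}) := Ideal.span_mono himage (hgen F hF)
    have h2 : H * G * X j0 * F = G * X j0 * (H * F) := by ring
    rw [h2]
    exact Ideal.mul_mem_left _ _ h1
  · intro x' hx' hHx'
    rw [map_mul, map_mul, aeval_X] at hHx'
    have hH' : aeval x' H ≠ 0 := fun h => hHx' (by rw [h, zero_mul, zero_mul])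
    have hG' : aeval x' G ≠ 0 := fun h => hHx' (by rw [h, mul_zero, zero_mul])
    have hx0' : x' j0 ≠ 0 := fun h => hHx' (by rw [h, mul_zero])
    refine ⟨fun h => hx0' (by rw [h]; rfl), fun F hF => ?_, G, hGJ, hG'⟩
    obtain ⟨b, hb⟩ := (Ideal.mem_span_range_iff_exists_fun).1 (hgen F (hvanI F hF))
    have h1 : aeval x' H * aeval x' F = 0 := by
      rw [← map_mul, ← hb, map_sum]
      refine Finset.sum_eq_zero fun l _ => ?_
      have h2 := hx' (e.symm l : Fin (N + 1)) (by simp)
      rw [hΦB _ (e.symm l).2] at h2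
      rw [map_mul]
      have h3 : aeval x' (E l) = 0 := by simpa using h2
      rw [h3, mul_zero]
    exact (mul_eq_zero.1 h1).resolve_left hH'

end

end Pool.Agent.VF
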