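import Pool.Agent.Lib_MP_1858fb_w.Defs

/-!
# MP_1858fb_ag, piece V4

Very free (for pairs of points, modulo the radial directions) if and only if the tuples of forms
of degree `d - 1` tangent to the cone span. The radial directions come from `gl_2`: the
products of a linear form and of a directional derivative of `F` are tangent to the cone.
-/

namespace Pool.Agent.VF

open MvPolynomial

namespace V4

section Coeffs

variable {κ : Type} {R : Type} [CommRing R]

theorem val_apply {d : ℕ} (F : Fin (d + 1) → κ → R) (p q : R) (i : κ) :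
    val F p q i = ∑ j : Fin (d + 1), F j i * (p ^ (d - (j : ℕ)) * q ^ (j : ℕ)) := rfl

theorem val_add {d : ℕ} (F G : Fin (d + 1) → κ → R) (p q : R) :
    val (F + G) p q = val F p q + val G p q := by
  funext i
  simp only [val_apply, Pi.add_apply, add_mul, Finset.sum_add_distrib]

theorem val_smul {d : ℕ} (a : R) (F : Fin (d + 1) → κ → R) (p q : R) :
    val (a • F) p q = a • val F p q := by
  funext i
  simp only [val_apply, Pi.smul_apply, smul_eq_mul, Finset.mul_sum]
  exact Finset.sum_congr rfl fun j _ => by ring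

theorem map_val {S : Type} [CommRing S] (φ : R →+* S) {d : ℕ} (F : Fin (d + 1) → κ → R)
    (p q : R) (i : κ) :
    φ (val F p q i) = val (fun j i => φ (F j i)) (φ p) (φ q) i := by
  simp only [val_apply, map_sum, map_mul, map_pow]

theorem val_one_zero {d : ℕ} (F : Fin (d + 1) → κ → R) : val F 1 0 = F 0 := by
  funext i
  rw [val_apply, Finset.sum_eq_single (0 : Fin (d + 1))]
  · simp
  · intro j _ hj
    have : (j : ℕ) ≠ 0 := fun h => hj (Fin.ext h)
    simp [this]
  · simp

theorem val_zero_one {d : ℕ} (F : Fin (d + 1) → κ → R) : val F 0 1 = F (Fin.last d) := by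
  funext i
  rw [val_apply, Finset.sum_eq_single (Fin.last d)]
  · simp
  · intro j _ hj
    have h1 : (j : ℕ) ≠ d := fun h => hj (Fin.ext h)
    have h2 : d - (j : ℕ) ≠ 0 := by have := j.is_lt; omega
    simp [h2]
  · simp

/-- multiplication by `p` -/
def mulP {e : ℕ} (G : Fin (e + 1) → κ → R) : Fin (e + 1 + 1) → κ → R :=
  Fin.snoc (α := fun _ => κ → R) G 0

/-- multiplication by `q` -/
def mulQ {e : ℕ} (G : Fin (e + 1) → κ → R) : Fin (e + 1 + 1) → κ → R :=
  Fin.cons (α := fun _ => κ → R) 0 G

theorem val_mulP {e : ℕ} (G : Fin (e + 1) → κ → R) (p q : R) :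
    val (mulP G) p q = p • val G p q := by
  funext i
  rw [val_apply, Fin.sum_univ_castSucc, Pi.smul_apply, smul_eq_mul, val_apply, Finset.mul_sum]
  have h0 : mulP G (Fin.last (e + 1)) i = 0 := by
    simp [mulP]
  rw [h0, zero_mul, add_zero]
  refine Finset.sum_congr rfl fun j _ => ?_
  have h1 : mulP G (Fin.castSucc j) i = G j i := by
    simp [mulP]
  have h2 : e + 1 - ((Fin.castSucc j : Fin (e + 1 + 1)) : ℕ) = (e - (j : ℕ)) + 1 := by
    have := j.is_lt
    simp only [Fin.val_castSucc]
    omega
  rw [h1, h2, pow_succ, Fin.val_castSucc]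
  ring

theorem val_mulQ {e : ℕ} (G : Fin (e + 1) → κ → R) (p q : R) :
    val (mulQ G) p q = q • val G p q := by
  funext i
  rw [val_apply, Fin.sum_univ_succ, Pi.smul_apply, smul_eq_mul, val_apply, Finset.mul_sum]
  have h0 : mulQ G 0 i = 0 := by
    simp [mulQ]
  rw [h0, zero_mul, zero_add]
  refine Finset.sum_congr rfl fun j _ => ?_
  have h1 : mulQ G (Fin.succ j) i = G j i := by
    simp [mulQ]
  have h2 : e + 1 - ((Fin.succ j : Fin (e + 1 + 1)) : ℕ) = e - (j : ℕ) := by
    simp only [Fin.val_succ]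
    omega
  rw [h1, h2, Fin.val_succ, pow_succ]
  ring

/-- the derivative with respect to `p` -/
def derP {e : ℕ} (F : Fin (e + 1 + 1) → κ → R) : Fin (e + 1) → κ → R :=
  fun j i => ((e + 1 - (j : ℕ) : ℕ) : R) * F (Fin.castSucc j) i

/-- the derivative with respect to `q` -/
def derQ {e : ℕ} (F : Fin (e + 1 + 1) → κ → R) : Fin (e + 1) → κ → R :=
  fun j i => (((j : ℕ) + 1 : ℕ) : R) * F (Fin.succ j) i

theorem mulP_derP {e : ℕ} (F : Fin (e + 1 + 1) → κ → R) (p q : R) (i : κ) :
    p * val (derP F) p q i =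
      ∑ j : Fin (e + 1 + 1), F j i *
        (((e + 1 - (j : ℕ) : ℕ) : R) * (p ^ (e + 1 - (j : ℕ)) * q ^ (j : ℕ))) := by
  rw [val_apply, Finset.mul_sum]
  conv_rhs => rw [Fin.sum_univ_castSucc]
  have h0 : ((e + 1 - ((Fin.last (e + 1) : Fin (e + 1 + 1)) : ℕ) : ℕ) : R) = 0 := by
    simp
  rw [h0, zero_mul, mul_zero, add_zero]
  refine Finset.sum_congr rfl fun j _ => ?_
  have h2 : e + 1 - ((Fin.castSucc j : Fin (e + 1 + 1)) : ℕ) = (e - (j : ℕ)) + 1 := by
    have := j.is_lt
    simp only [Fin.val_castSucc]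
    omega
  have h3 : e + 1 - (j : ℕ) = (e - (j : ℕ)) + 1 := by
    have := j.is_lt
    omega
  rw [h2, derP, h3, pow_succ, Fin.val_castSucc]
  ring

theorem mulQ_derQ {e : ℕ} (F : Fin (e + 1 + 1) → κ → R) (p q : R) (i : κ) :
    q * val (derQ F) p q i =
      ∑ j : Fin (e + 1 + 1), F j i *
        (((j : ℕ) : R) * (p ^ (e + 1 - (j : ℕ)) * q ^ (j : ℕ))) := by
  rw [val_apply, Finset.mul_sum]
  conv_rhs => rw [Fin.sum_univ_succ]
  have h0 : (((0 : Fin (e + 1 + 1)) : ℕ) : R) = 0 := by
    simp
  rw [h0, zero_mul, mul_zero, zero_add]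
  refine Finset.sum_congr rfl fun j _ => ?_
  have h2 : e + 1 - ((Fin.succ j : Fin (e + 1 + 1)) : ℕ) = e - (j : ℕ) := by
    simp only [Fin.val_succ]
    omega
  rw [h2, derQ, Fin.val_succ, pow_succ]
  ring

/-- Euler's identity -/
theorem euler {e : ℕ} (F : Fin (e + 1 + 1) → κ → R) (p q : R) :
    p • val (derP F) p q + q • val (derQ F) p q = ((e + 1 : ℕ) : R) • val F p q := by
  funext i
  simp only [Pi.add_apply, Pi.smul_apply, smul_eq_mul]
  rw [mulP_derP, mulQ_derQ, val_apply, ← Finset.sum_add_distrib, Finset.mul_sum]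
  refine Finset.sum_congr rfl fun j _ => ?_
  have h : ((e + 1 : ℕ) : R) = ((e + 1 - (j : ℕ) : ℕ) : R) + ((j : ℕ) : R) := by
    rw [← Nat.cast_add]
    congr 1
    have := j.is_lt
    omega
  rw [h]
  ring

end Coeffs

section Deriv

variable {k : Type} [Field k]

/-- chain rule -/
theorem derivative_aeval {σ : Type} [Fintype σ] [DecidableEq σ] (x : σ → Polynomial k)
    (E : MvPolynomial σ k) :
    Polynomial.derivative (aeval x E) = dif E x (fun j => Polynomial.derivative (x j)) := by
  induction E using MvPolynomial.induction_on with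
  | C a =>
    simp [dif]
  | add p q hp hq =>
    rw [map_add, map_add, hp, hq]
    simp only [dif, map_add, add_mul, Finset.sum_add_distrib]
  | mul_X p i hp =>
    rw [map_mul, Polynomial.derivative_mul, hp, aeval_X]
    simp only [dif, pderiv_mul, map_add, map_mul, aeval_X, add_mul, Finset.sum_add_distrib,
      Finset.sum_mul]
    congr 1
    · exact Finset.sum_congr rfl fun j _ => by ring
    · rw [Finset.sum_eq_single i]
      · rw [pderiv_X_self, map_one]; ring
      · intro j _ hj
        rw [pderiv_X_of_ne hj.symm]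
        simp
      · simp

theorem map_dif {σ : Type} [Fintype σ] {R S : Type} [CommRing R] [CommRing S] [Algebra k R]
    [Algebra k S] (φ : R →ₐ[k] S) (E : MvPolynomial σ k) (x w : σ → R) :
    φ (dif E x w) = dif E (fun j => φ (x j)) (fun j => φ (w j)) := by
  have h : ∀ G : MvPolynomial σ k, φ (aeval x G) = aeval (fun j => φ (x j)) G := fun G => by
    rw [← AlgHom.comp_apply, comp_aeval]
  simp only [dif, map_sum, map_mul, h]

theorem dif_mul {σ : Type} [Fintype σ] (E G : MvPolynomial σ k) (x w : σ → k) :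
    dif (E * G) x w = aeval x E * dif G x w + aeval x G * dif E x w := by
  simp only [dif, pderiv_mul, map_add, map_mul, add_mul, Finset.sum_add_distrib,
    Finset.mul_sum]
  rw [add_comm]
  congr 1
  · exact Finset.sum_congr rfl fun j _ => by ring
  · exact Finset.sum_congr rfl fun j _ => by ring

theorem dif_sum {σ ι : Type} [Fintype σ] (s : Finset ι) (E : ι → MvPolynomial σ k)
    (x w : σ → k) : dif (∑ i ∈ s, E i) x w = ∑ i ∈ s, dif (E i) x w := by
  simp only [dif, map_sum, Finset.sum_mul]
  rw [Finset.sum_comm]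

theorem dif_add_right {σ : Type} [Fintype σ] (E : MvPolynomial σ k) (x w w' : σ → k) :
    dif E x (w + w') = dif E x w + dif E x w' := by
  simp only [dif, Pi.add_apply, mul_add, Finset.sum_add_distrib]

theorem dif_smul_right {σ : Type} [Fintype σ] (E : MvPolynomial σ k) (a : k) (x w : σ → k) :
    dif E x (a • w) = a * dif E x w := by
  simp only [dif, Pi.smul_apply, smul_eq_mul, Finset.mul_sum]
  exact Finset.sum_congr rfl fun j _ => by ring

/-- the curve `t ↦ val F (p + u t) (q + v t)` over `k[t]` -/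
noncomputable def ray {κ : Type} {d : ℕ} (F : Fin (d + 1) → κ → k) (p q u v : k) :
    κ → Polynomial k :=
  val (fun j i => Polynomial.C (F j i)) (Polynomial.C p + Polynomial.C u * Polynomial.X)
    (Polynomial.C q + Polynomial.C v * Polynomial.X)

theorem eval_ray {κ : Type} {d : ℕ} (F : Fin (d + 1) → κ → k) (p q u v t : k) (i : κ) :
    Polynomial.aeval t (ray F p q u v i) = val F (p + u * t) (q + v * t) i := by
  have h := map_val ((Polynomial.aeval t : Polynomial k →ₐ[k] k) : Polynomial k →+* k)
    (fun j i => Polynomial.C (F j i)) (Polynomial.C p + Polynomial.C u * Polynomial.X)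
    (Polynomial.C q + Polynomial.C v * Polynomial.X) i
  simpa [ray] using h

theorem derivative_val {κ : Type} {e : ℕ} (F : Fin (e + 1 + 1) → κ → k) (P Q : Polynomial k)
    (u v : k) (hP : Polynomial.derivative P = Polynomial.C u)
    (hQ : Polynomial.derivative Q = Polynomial.C v) (i : κ) :
    Polynomial.derivative (val (fun j i => Polynomial.C (F j i)) P Q i) =
      Polynomial.C u * val (fun j i => Polynomial.C (derP F j i)) P Q i +
      Polynomial.C v * val (fun j i => Polynomial.C (derQ F j i)) P Q i := by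
  rw [val_apply, val_apply, val_apply, Polynomial.derivative_sum]
  have h4 : ∀ j : Fin (e + 1 + 1), Polynomial.derivative (Polynomial.C (F j i) *
      (P ^ (e + 1 - (j : ℕ)) * Q ^ (j : ℕ))) =
      Polynomial.C (F j i) * (((e + 1 - (j : ℕ) : ℕ) : Polynomial k) *
        P ^ (e + 1 - (j : ℕ) - 1) * Polynomial.C u * Q ^ (j : ℕ)) +
      Polynomial.C (F j i) * (P ^ (e + 1 - (j : ℕ)) * (((j : ℕ) : Polynomial k) *
        Q ^ ((j : ℕ) - 1) * Polynomial.C v)) := by
    intro j
    rw [Polynomial.derivative_C_mul, Polynomial.derivative_mul, Polynomial.derivative_pow,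
      Polynomial.derivative_pow, hP, hQ, Polynomial.C_eq_natCast, Polynomial.C_eq_natCast]
    ring
  rw [Finset.sum_congr rfl fun j _ => h4 j, Finset.sum_add_distrib]
  congr 1
  · rw [Fin.sum_univ_castSucc, Finset.mul_sum]
    have h0 : ((e + 1 - ((Fin.last (e + 1) : Fin (e + 1 + 1)) : ℕ) : ℕ) : Polynomial k) = 0 := by
      simp
    rw [h0, zero_mul, zero_mul, zero_mul, mul_zero, add_zero]
    refine Finset.sum_congr rfl fun j _ => ?_
    have h5 : e + 1 - ((Fin.castSucc j : Fin (e + 1 + 1)) : ℕ) - 1 = e - (j : ℕ) := by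
      simp only [Fin.val_castSucc]
      omega
    rw [h5, derP, Fin.val_castSucc, Polynomial.C_mul, Polynomial.C_eq_natCast]
    ring
  · rw [Fin.sum_univ_succ, Finset.mul_sum]
    have h0 : (((0 : Fin (e + 1 + 1)) : ℕ) : Polynomial k) = 0 := by simp
    rw [h0, zero_mul, zero_mul, mul_zero, mul_zero, zero_add]
    refine Finset.sum_congr rfl fun j _ => ?_
    have h5 : e + 1 - ((Fin.succ j : Fin (e + 1 + 1)) : ℕ) = e - (j : ℕ) := by
      simp only [Fin.val_succ]
      omega
    rw [h5, derQ, Fin.val_succ, Polynomial.C_mul, Polynomial.C_eq_natCast, Nat.add_sub_cancel]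
    ring

theorem derivative_ray {κ : Type} {e : ℕ} (F : Fin (e + 1 + 1) → κ → k) (p q u v : k) (i : κ) :
    Polynomial.derivative (ray F p q u v i) =
      Polynomial.C u * ray (derP F) p q u v i + Polynomial.C v * ray (derQ F) p q u v i :=
  derivative_val F _ _ u v (by simp) (by simp) i

end Deriv

section Geometry

variable {k : Type} [Field k] {N : ℕ} {V : Set (Fin (N + 1) → k)}

theorem aeval_aeval_ray {d : ℕ} (F : Fin (d + 1) → Fin (N + 1) → k) (p q u v t : k)
    (E : MvPolynomial (Fin (N + 1)) k) :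
    Polynomial.aeval t (aeval (ray F p q u v) E) = aeval (val F (p + u * t) (q + v * t)) E := by
  rw [← AlgHom.comp_apply, comp_aeval]
  have h : (fun i => (Polynomial.aeval t : Polynomial k →ₐ[k] k) (ray F p q u v i)) =
      val F (p + u * t) (q + v * t) := funext fun i => eval_ray F p q u v t i
  rw [h]

theorem aeval_ray_eq_zero [Infinite k] {d : ℕ} {F : Fin (d + 1) → Fin (N + 1) → k}
    (hF : IsCurve V F) {E : MvPolynomial (Fin (N + 1)) k} (hE : E ∈ van V) (p q u v : k)
    (huv : u ≠ 0 ∨ v ≠ 0) : aeval (ray F p q u v) E = 0 := by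
  refine Polynomial.eq_zero_of_infinite_isRoot _ ?_
  have hroot : ∀ t : k, (p + u * t ≠ 0 ∨ q + v * t ≠ 0) →
      Polynomial.IsRoot (aeval (ray F p q u v) E) t := by
    intro t ht
    have h := aeval_aeval_ray F p q u v t E
    rw [Polynomial.coe_aeval_eq_eval] at h
    rw [Polynomial.IsRoot, h]
    exact hE _ (hF _ _ ht)
  rcases huv with hu | hv
  · refine Set.Infinite.mono ?_ (Set.finite_singleton (-p / u)).infinite_compl
    intro t ht
    refine hroot t (Or.inl fun h => ht ?_)
    rw [Set.mem_singleton_iff, eq_div_iff hu]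
    linear_combination h
  · refine Set.Infinite.mono ?_ (Set.finite_singleton (-q / v)).infinite_compl
    intro t ht
    refine hroot t (Or.inr fun h => ht ?_)
    rw [Set.mem_singleton_iff, eq_div_iff hv]
    linear_combination h

/-- directional derivatives of a curve in `V` are tangent to the cone -/
theorem tan_der [Infinite k] {e : ℕ} {F : Fin (e + 1 + 1) → Fin (N + 1) → k}
    (hF : IsCurve V F) (u v : k) : IsTangent V F (u • derP F + v • derQ F) := by
  intro p q
  rw [val_add, val_smul, val_smul]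
  by_cases huv : u ≠ 0 ∨ v ≠ 0
  · intro E hE
    have h1 := aeval_ray_eq_zero hF hE p q u v huv
    have h2 : Polynomial.derivative (aeval (ray F p q u v) E) = 0 := by
      rw [h1, Polynomial.derivative_zero]
    rw [derivative_aeval] at h2
    have h3 := congrArg (Polynomial.aeval (0 : k) : Polynomial k →ₐ[k] k) h2
    rw [map_dif, map_zero] at h3
    have h4 : (fun j => (Polynomial.aeval (0 : k) : Polynomial k →ₐ[k] k) (ray F p q u v j)) =
        val F p q := by
      funext j
      rw [eval_ray, mul_zero, mul_zero, add_zero, add_zero]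
    have h5 : (fun j => (Polynomial.aeval (0 : k) : Polynomial k →ₐ[k] k)
        (Polynomial.derivative (ray F p q u v j))) =
        u • val (derP F) p q + v • val (derQ F) p q := by
      funext j
      rw [derivative_ray, map_add, map_mul, map_mul, eval_ray, eval_ray, mul_zero, mul_zero,
        add_zero, add_zero, Polynomial.aeval_C, Polynomial.aeval_C]
      rfl
    rw [h4, h5] at h3
    exact h3
  · push Not at huv
    rw [huv.1, huv.2, zero_smul, zero_smul, add_zero]
    exact Submodule.zero_mem _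

/-- tangency is a closed condition -/
theorem tan_closed [Infinite k] {d e : ℕ} {F : Fin (d + 1) → Fin (N + 1) → k}
    {G : Fin (e + 1) → Fin (N + 1) → k} (p q u v t₀ : k)
    (h : ∀ t, t ≠ t₀ → val G (p + u * t) (q + v * t) ∈ Tan V (val F (p + u * t) (q + v * t))) :
    val G p q ∈ Tan V (val F p q) := by
  intro E hE
  have h1 : dif E (ray F p q u v) (ray G p q u v) = 0 := by
    refine Polynomial.eq_zero_of_infinite_isRoot _ ?_
    refine Set.Infinite.mono ?_ (Set.finite_singleton t₀).infinite_compl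
    intro t ht
    have h2 := map_dif (Polynomial.aeval t : Polynomial k →ₐ[k] k) E (ray F p q u v)
      (ray G p q u v)
    rw [funext fun j => eval_ray F p q u v t j, funext fun j => eval_ray G p q u v t j,
      h t ht E hE, Polynomial.coe_aeval_eq_eval] at h2
    exact h2
  have h2 := map_dif (Polynomial.aeval (0 : k) : Polynomial k →ₐ[k] k) E (ray F p q u v)
    (ray G p q u v)
  rw [h1, map_zero, funext fun j => eval_ray F p q u v 0 j,
    funext fun j => eval_ray G p q u v 0 j, mul_zero, mul_zero, add_zero, add_zero] at h2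
  exact h2.symm

theorem isTangent_of_mulP [Infinite k] {d e : ℕ} {F : Fin (d + 1) → Fin (N + 1) → k}
    {G : Fin (e + 1) → Fin (N + 1) → k} (h : IsTangent V F (mulP G)) : IsTangent V F G := by
  intro p q
  refine tan_closed p q 1 0 (-p) fun t ht => ?_
  have h1 := h (p + 1 * t) (q + 0 * t)
  rw [val_mulP] at h1
  have h2 : p + 1 * t ≠ 0 := fun h0 => ht (by linear_combination h0)
  have h3 := (Tan V (val F (p + 1 * t) (q + 0 * t))).smul_mem (p + 1 * t)⁻¹ h1
  rwa [smul_smul, inv_mul_cancel₀ h2, one_smul] at h3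

theorem isTangent_of_mulQ [Infinite k] {d e : ℕ} {F : Fin (d + 1) → Fin (N + 1) → k}
    {G : Fin (e + 1) → Fin (N + 1) → k} (h : IsTangent V F (mulQ G)) : IsTangent V F G := by
  intro p q
  refine tan_closed p q 0 1 (-q) fun t ht => ?_
  have h1 := h (p + 0 * t) (q + 1 * t)
  rw [val_mulQ] at h1
  have h2 : q + 1 * t ≠ 0 := fun h0 => ht (by linear_combination h0)
  have h3 := (Tan V (val F (p + 0 * t) (q + 1 * t))).smul_mem (q + 1 * t)⁻¹ h1
  rwa [smul_smul, inv_mul_cancel₀ h2, one_smul] at h3

/-- multiplication by the linear form `α p + β q` -/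
def linMul {κ : Type} {R : Type} [CommRing R] {e : ℕ} (α β : R) (G : Fin (e + 1) → κ → R) :
    Fin (e + 1 + 1) → κ → R :=
  α • mulP G + β • mulQ G

theorem val_linMul {κ : Type} {R : Type} [CommRing R] {e : ℕ} (α β : R)
    (G : Fin (e + 1) → κ → R) (p q : R) :
    val (linMul α β G) p q = (α * p + β * q) • val G p q := by
  rw [linMul, val_add, val_smul, val_smul, val_mulP, val_mulQ, smul_smul, smul_smul, add_smul]

theorem isTangent_linMul {d e : ℕ} {F : Fin (d + 1) → Fin (N + 1) → k}
    {G : Fin (e + 1) → Fin (N + 1) → k} (hG : IsTangent V F G) (α β : k) :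
    IsTangent V F (linMul α β G) := by
  intro p q
  rw [val_linMul]
  exact Submodule.smul_mem _ _ (hG p q)

theorem isTangent_add {d e : ℕ} {F : Fin (d + 1) → Fin (N + 1) → k}
    {G G' : Fin (e + 1) → Fin (N + 1) → k} (hG : IsTangent V F G) (hG' : IsTangent V F G') :
    IsTangent V F (G + G') := by
  intro p q
  rw [val_add]
  exact Submodule.add_mem _ (hG p q) (hG' p q)

theorem isTangent_smul {d e : ℕ} {F : Fin (d + 1) → Fin (N + 1) → k}
    {G : Fin (e + 1) → Fin (N + 1) → k} (a : k) (hG : IsTangent V F G) :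
    IsTangent V F (a • G) := by
  intro p q
  rw [val_smul]
  exact Submodule.smul_mem _ _ (hG p q)

/-- dimension of the tangent space from below -/
theorem le_finrank_tan {c : ℕ} {x : Fin (N + 1) → k} (hx : x ∈ V) (hs : SmoothAt c V x) :
    N + 1 ≤ c + Module.finrank k (Tan V x) := by
  obtain ⟨E, H, hE, -, hH, hgen⟩ := hs
  let A : (Fin (N + 1) → k) →ₗ[k] (Fin c → k) :=
    { toFun := fun w i => dif (E i) x w
      map_add' := fun w w' => funext fun i => dif_add_right (E i) x w w'
      map_smul' := fun a w => funext fun i => dif_smul_right (E i) a x w }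
  have hker : LinearMap.ker A ≤ Tan V x := by
    intro w hw G hG
    have h1 : ∀ i, dif (E i) x w = 0 := fun i => congrFun (LinearMap.mem_ker.1 hw) i
    obtain ⟨a, ha⟩ := (Ideal.mem_span_range_iff_exists_fun).1 (hgen G hG)
    have h2 : dif (H * G) x w = 0 := by
      rw [← ha, dif_sum]
      refine Finset.sum_eq_zero fun i _ => ?_
      rw [dif_mul, h1 i, hE i x hx, mul_zero, zero_mul, add_zero]
    rw [dif_mul, hG x hx, zero_mul, add_zero] at h2
    exact (mul_eq_zero.1 h2).resolve_left hH
  have h1 := LinearMap.finrank_range_add_finrank_ker A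
  have h2 : Module.finrank k (LinearMap.range A) ≤ c := by
    have := Submodule.finrank_le (LinearMap.range A)
    simpa using this
  have h3 := Submodule.finrank_mono hker
  have h4 : Module.finrank k (Fin (N + 1) → k) = N + 1 := by simp
  omega

theorem exists_not_radial {c : ℕ} (hc : c < N) {x : Fin (N + 1) → k} (hx : x ∈ V)
    (hs : SmoothAt c V x) : ∃ w ∈ Tan V x, ∀ a : k, w ≠ a • x := by
  by_contra hcon
  push Not at hcon
  have h1 : Tan V x ≤ Submodule.span k {x} := by
    intro w hw
    obtain ⟨a, ha⟩ := hcon w hw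
    rw [ha]
    exact Submodule.smul_mem _ _ (Submodule.mem_span_singleton_self x)
  have h2 := Submodule.finrank_mono h1
  have h3 : Module.finrank k (Submodule.span k {x}) ≤ 1 := by
    have := finrank_span_le_card (R := k) ({x} : Set (Fin (N + 1) → k))
    simpa using this
  have h4 := le_finrank_tan hx hs
  omega

/-- a section with a prescribed value at one point that vanishes at another point -/
theorem exists_section [CharZero k] {e : ℕ} {F : Fin (e + 1 + 1) → Fin (N + 1) → k}
    (hF : IsCurve V F) (hvf : VeryFree V F) (p q p' q' : k) (hdet : p * q' - p' * q ≠ 0)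
    {w : Fin (N + 1) → k} (hw : w ∈ Tan V (val F p q)) :
    ∃ G : Fin (e + 1 + 1) → Fin (N + 1) → k, IsTangent V F G ∧ val G p q = w ∧
      val G p' q' = 0 := by
  obtain ⟨G, hG, ⟨a, ha⟩, a', ha'⟩ := hvf p q p' q' hdet w hw 0 (Submodule.zero_mem _)
  have hd : ((e + 1 : ℕ) : k) ≠ 0 := Nat.cast_ne_zero.2 (Nat.succ_ne_zero e)
  refine ⟨G + ((-a / (((e + 1 : ℕ) : k) * (p * q' - p' * q))) •
      linMul q' (-p') (p • derP F + q • derQ F) +
      (a' / (((e + 1 : ℕ) : k) * (p * q' - p' * q))) •
      linMul q (-p) (p' • derP F + q' • derQ F)), ?_, ?_, ?_⟩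
  · exact isTangent_add hG (isTangent_add
      (isTangent_smul _ (isTangent_linMul (tan_der hF p q) _ _))
      (isTangent_smul _ (isTangent_linMul (tan_der hF p' q') _ _)))
  · rw [val_add, val_add, val_smul, val_smul, val_linMul, val_linMul, ha, val_add, val_smul,
      val_smul, euler]
    have h1 : q * p + -p * q = 0 := by ring
    have h2 : q' * p + -p' * q = p * q' - p' * q := by ring
    rw [h1, h2, zero_smul, smul_zero, add_zero, smul_smul, smul_smul]
    have h3 : -a / (((e + 1 : ℕ) : k) * (p * q' - p' * q)) *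
        ((p * q' - p' * q) * ((e + 1 : ℕ) : k)) = -a := by
      field_simp
    rw [mul_assoc, h3, neg_smul, add_neg_cancel_right]
  · rw [val_add, val_add, val_smul, val_smul, val_linMul, val_linMul, ha']
    rw [val_add (p' • derP F), val_smul, val_smul, euler]
    have h1 : q' * p' + -p' * q' = 0 := by ring
    have h2 : q * p' + -p * q' = -(p * q' - p' * q) := by ring
    rw [h1, h2, zero_smul, smul_zero, zero_add, smul_smul, smul_smul]
    have h3 : a' / (((e + 1 : ℕ) : k) * (p * q' - p' * q)) *
        (-(p * q' - p' * q) * ((e + 1 : ℕ) : k)) = -a' := by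
      field_simp
    rw [mul_assoc, h3, zero_add, neg_smul, add_neg_cancel]

theorem exists_lower [CharZero k] {e : ℕ} {F : Fin (e + 1 + 1) → Fin (N + 1) → k}
    (hF : IsCurve V F) (hvf : VeryFree V F) (p q : k) (hpq : p ≠ 0 ∨ q ≠ 0)
    {w : Fin (N + 1) → k} (hw : w ∈ Tan V (val F p q)) :
    ∃ G : Fin (e + 1) → Fin (N + 1) → k, IsTangent V F G ∧ val G p q = w := by
  by_cases hq : q = 0
  · have hp : p ≠ 0 := by tauto
    obtain ⟨G, hG, h1, h2⟩ := exists_section hF hvf p q 0 1 (by simpa using hp) hw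
    rw [val_zero_one] at h2
    have h3 : mulP (fun j : Fin (e + 1) => G (Fin.castSucc j)) = G := by
      funext j
      refine Fin.lastCases ?_ (fun j => ?_) j
      · simp [mulP, h2]
      · simp [mulP]
    rw [← h3] at hG h1
    refine ⟨p • fun j : Fin (e + 1) => G (Fin.castSucc j),
      isTangent_smul _ (isTangent_of_mulP hG), ?_⟩
    rw [val_mulP] at h1
    rw [val_smul, h1]
  · obtain ⟨G, hG, h1, h2⟩ := exists_section hF hvf p q 1 0 (by simpa using hq) hw
    rw [val_one_zero] at h2
    have h3 : mulQ (fun j : Fin (e + 1) => G (Fin.succ j)) = G := by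
      funext j
      refine Fin.cases ?_ (fun j => ?_) j
      · simp [mulQ, h2]
      · simp [mulQ]
    rw [← h3] at hG h1
    refine ⟨q • fun j : Fin (e + 1) => G (Fin.succ j),
      isTangent_smul _ (isTangent_of_mulQ hG), ?_⟩
    rw [val_mulQ] at h1
    rw [val_smul, h1]

end Geometry

end V4

section

variable {k : Type} [Field k]

/-- very free (pairs of points, modulo the radial direction) implies that the tuples of forms
of degree `d - 1` tangent to the cone span (uses `gl_2` for the radial directions) -/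
theorem span_one_of_veryFree [CharZero k] {N c d : ℕ} (hc : c < N)
    {V : Set (Fin (N + 1) → k)} (hV : LocClosed V) (hsm : ∀ x ∈ V, SmoothAt c V x)
    {F : Fin (d + 1) → Fin (N + 1) → k} (hF : IsCurve V F) (hvf : VeryFree V F) :
    Span V F 1 := by
  rcases Nat.eq_zero_or_pos d with rfl | hd
  · exfalso
    have hx : val F 1 0 ∈ V := hF 1 0 (Or.inl one_ne_zero)
    obtain ⟨w, hw, hnot⟩ := V4.exists_not_radial hc hx (hsm _ hx)
    obtain ⟨G, -, ⟨a, ha⟩, a', ha'⟩ := hvf 1 0 0 1 (by simp) w hw 0 (Submodule.zero_mem _)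
    have h1 : val G 0 1 = val G 1 0 := by
      rw [V4.val_zero_one, V4.val_one_zero]; rfl
    have h2 : val F 0 1 = val F 1 0 := by
      rw [V4.val_zero_one, V4.val_one_zero]; rfl
    rw [h1, ha, h2, zero_add] at ha'
    refine hnot (a' - a) ?_
    rw [sub_smul, ← ha', add_sub_cancel_right]
  · obtain ⟨e, rfl⟩ : ∃ e, d = e + 1 := ⟨d - 1, by omega⟩
    refine ⟨Nat.succ_pos e, fun p q hpq w hw => ?_⟩
    exact V4.exists_lower hF hvf p q hpq hw

theorem veryFree_of_span_one {N d : ℕ} {V : Set (Fin (N + 1) → k)}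
    {F : Fin (d + 1) → Fin (N + 1) → k} (h : Span V F 1) : VeryFree V F := by
  obtain ⟨hd, hs⟩ := h
  obtain ⟨e, rfl⟩ : ∃ e, d = e + 1 := ⟨d - 1, by omega⟩
  intro p q p' q' hdet w hw w' hw'
  have hpq : p ≠ 0 ∨ q ≠ 0 := by
    by_contra hcon
    push Not at hcon
    exact hdet (by rw [hcon.1, hcon.2]; ring)
  have hpq' : p' ≠ 0 ∨ q' ≠ 0 := by
    by_contra hcon
    push Not at hcon
    exact hdet (by rw [hcon.1, hcon.2]; ring)
  obtain ⟨G, hG, h1⟩ := hs p q hpq w hw
  obtain ⟨G', hG', h1'⟩ := hs p' q' hpq' w' hw'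
  change Fin (e + 1) → Fin (N + 1) → k at G G'
  have hG1 : IsTangent V F G := hG
  have hG1' : IsTangent V F G' := hG'
  have h2 : val G p q = w := h1
  have h2' : val G' p' q' = w' := h1'
  refine ⟨(p * q' - p' * q)⁻¹ • V4.linMul q' (-p') G +
    (-(p * q' - p' * q)⁻¹) • V4.linMul q (-p) G', ?_, ⟨0, ?_⟩, ⟨0, ?_⟩⟩
  · exact V4.isTangent_add (V4.isTangent_smul _ (V4.isTangent_linMul hG1 _ _))
      (V4.isTangent_smul _ (V4.isTangent_linMul hG1' _ _))
  · rw [V4.val_add, V4.val_smul, V4.val_smul, V4.val_linMul, V4.val_linMul, h2]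
    have h3 : q * p + -p * q = 0 := by ring
    have h4 : q' * p + -p' * q = p * q' - p' * q := by ring
    rw [h3, h4, zero_smul, zero_smul, smul_zero, smul_smul, inv_mul_cancel₀ hdet, one_smul]
  · rw [V4.val_add, V4.val_smul, V4.val_smul, V4.val_linMul, V4.val_linMul, h2']
    have h3 : q' * p' + -p' * q' = 0 := by ring
    have h4 : q * p' + -p * q' = -(p * q' - p' * q) := by ring
    rw [h3, h4, zero_smul, zero_smul, smul_zero, smul_smul, neg_mul_neg, inv_mul_cancel₀ hdet,
      one_smul, zero_add, add_zero]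

end

end Pool.Agent.VF
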