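import Pool.Agent.Lib_MP_1858fb_w.Defs

/-! MP_1858fb_ag, piece V6: sections that vanish at one point and span at another one give
`Span V F 1` (partial fractions by hand). -/

namespace Pool.Agent.VF.V6

variable {k : Type} [Field k]

section linalg

open Polynomial

variable {M : Type} [Fintype M] [DecidableEq M] {c n : ℕ}

omit [DecidableEq M] in
theorem surjective_of_rows (A0 : Matrix (Fin c) M k)
    (h : LinearIndependent k (fun i => A0 i)) : Function.Surjective A0.mulVecLin := by
  have hr : A0.rank = c := by
    have := LinearIndependent.rank_matrix (M := A0) h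
    simpa using this
  rw [← LinearMap.range_eq_top]
  apply Submodule.eq_top_of_finrank_eq
  rw [← Matrix.rank, hr]
  simp

omit [DecidableEq M] in
theorem finrank_ker_of_rows (A0 : Matrix (Fin c) M k)
    (h : LinearIndependent k (fun i => A0 i)) :
    Module.finrank k (LinearMap.ker A0.mulVecLin) + c = Fintype.card M := by
  have h1 := LinearMap.finrank_range_add_finrank_ker A0.mulVecLin
  rw [LinearMap.range_eq_top.2 (surjective_of_rows A0 h), finrank_top,
    Module.finrank_fintype_fun_eq_card, Module.finrank_fintype_fun_eq_card,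
    Fintype.card_fin] at h1
  omega

omit [DecidableEq M] in
theorem exists_coeff_of_ker (A0 : Matrix (Fin c) M k)
    (h : LinearIndependent k (fun i => A0 i)) (hn : n + c = Fintype.card M)
    (δ : Fin n → M → k) (hδ : ∀ l, A0.mulVec (δ l) = 0) (hind : LinearIndependent k δ)
    (ε : M → k) (hε : A0.mulVec ε = 0) : ∃ g : Fin n → k, ∀ a, ε a = ∑ l, g l * δ l a := by
  have hfin : Module.finrank k (LinearMap.ker A0.mulVecLin) = n := by
    have := finrank_ker_of_rows A0 h
    omega
  set δ' : Fin n → LinearMap.ker A0.mulVecLin := fun l => ⟨δ l, hδ l⟩ with hδ'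
  have hind'' : LinearIndependent k δ' := by
    apply LinearIndependent.of_comp (LinearMap.ker A0.mulVecLin).subtype
    exact hind
  have hspan := hind''.span_eq_top_of_card_eq_finrank' (by rw [hfin, Fintype.card_fin])
  have hmem : (⟨ε, hε⟩ : LinearMap.ker A0.mulVecLin) ∈
      Submodule.span k (Set.range δ') := by rw [hspan]; exact Submodule.mem_top
  obtain ⟨g, hg⟩ := (Submodule.mem_span_range_iff_exists_fun k).1 hmem
  refine ⟨g, fun a => ?_⟩
  have h1 := congrArg Subtype.val hg
  have h2 := congrFun h1 a
  simpa [hδ'] using h2.symm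

omit [DecidableEq M] in
/-- a right inverse of a matrix with independent rows -/
theorem exists_right_inverse (A0 : Matrix (Fin c) M k)
    (h : LinearIndependent k (fun i => A0 i)) : ∃ B : Matrix M (Fin c) k, A0 * B = 1 := by
  have hs : Function.Surjective A0.mulVecLin := surjective_of_rows A0 h
  choose B hB using fun j : Fin c => hs (Pi.single j 1)
  refine ⟨Matrix.of fun i j => B j i, ?_⟩
  ext i j
  have h1 := congrFun (hB j) i
  rw [Matrix.mulVecLin_apply] at h1
  rw [Matrix.mul_apply, Matrix.one_apply]
  rw [Matrix.mulVec, dotProduct] at h1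
  simp only [Matrix.of_apply]
  rw [h1, Pi.single_apply]

variable (A : Matrix (Fin c) M k[X]) (p0 : k)

theorem exists_det (hrows : LinearIndependent k (fun i => fun j => (A i j).eval p0)) :
    ∃ B : Matrix M (Fin c) k, (A * B.map C).det.eval p0 = 1 ∧
      (A.map (Polynomial.eval p0)) * B = 1 := by
  obtain ⟨B, hB⟩ := exists_right_inverse (A.map (Polynomial.eval p0)) hrows
  refine ⟨B, ?_, hB⟩
  have h1 : (A * B.map C).det.eval p0 = ((A * B.map C).map (Polynomial.eval p0)).det := by
    have := RingHom.map_det (Polynomial.evalRingHom p0) (A * B.map C)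
    simpa [RingHom.mapMatrix_apply, Polynomial.coe_evalRingHom] using this
  have h2 : (A * B.map C).map (Polynomial.eval p0) = (A.map (Polynomial.eval p0)) * B := by
    ext i j
    simp [Matrix.mul_apply, Polynomial.eval_finsetSum]
  rw [h1, h2, hB, Matrix.det_one]

/-- a section with a prescribed value -/
theorem exists_section (hrows : LinearIndependent k (fun i => fun j => (A i j).eval p0))
    (w : M → k) (hw : (A.map (Polynomial.eval p0)).mulVec w = 0) :
    ∃ ε : M → k[X], A.mulVec ε = 0 ∧ ∀ a, (ε a).eval p0 = w a := by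
  obtain ⟨B, hdet, hB⟩ := exists_det A p0 hrows
  set w' : M → k[X] := fun a => C (w a) with hw'
  set D := (A * B.map C) with hD
  have hev : ∀ i, (A.mulVec w' i).eval p0 = 0 := by
    intro i
    have := congrFun hw i
    simp only [Matrix.mulVec, dotProduct, Matrix.map_apply, Pi.zero_apply] at this
    simp only [Matrix.mulVec, dotProduct, hw', Polynomial.eval_finsetSum, Polynomial.eval_mul,
      Polynomial.eval_C]
    exact this
  refine ⟨fun a => D.det * w' a - ((B.map C).mulVec (D.adjugate.mulVec (A.mulVec w'))) a, ?_, ?_⟩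
  · have h1 : (fun a => D.det * w' a - ((B.map C).mulVec (D.adjugate.mulVec (A.mulVec w'))) a) =
        D.det • w' - (B.map C).mulVec (D.adjugate.mulVec (A.mulVec w')) := by
      funext a; simp
    rw [h1, Matrix.mulVec_sub, Matrix.mulVec_smul, Matrix.mulVec_mulVec, ← hD,
      Matrix.mulVec_mulVec, Matrix.mul_adjugate, Matrix.smul_mulVec, Matrix.one_mulVec, sub_self]
  · intro a
    have h2 : ∀ j, ((D.adjugate.mulVec (A.mulVec w')) j).eval p0 = 0 := by
      intro j
      simp only [Matrix.mulVec, dotProduct, Polynomial.eval_finsetSum, Polynomial.eval_mul]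
      refine Finset.sum_eq_zero fun l _ => ?_
      have := hev l
      simp only [Matrix.mulVec, dotProduct, Polynomial.eval_finsetSum, Polynomial.eval_mul]
        at this
      rw [this, mul_zero]
    have h3 : (((B.map C).mulVec (D.adjugate.mulVec (A.mulVec w'))) a).eval p0 = 0 := by
      rw [Matrix.mulVec, dotProduct, Polynomial.eval_finsetSum]
      refine Finset.sum_eq_zero fun l _ => ?_
      rw [Polynomial.eval_mul, h2 l, mul_zero]
    show (D.det * w' a - ((B.map C).mulVec (D.adjugate.mulVec (A.mulVec w'))) a).eval p0 = w a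
    rw [Polynomial.eval_sub, h3, Polynomial.eval_mul, hdet]
    simp [hw']

/-- a relation over the polynomials -/
theorem exists_relation (hrows : LinearIndependent k (fun i => fun j => (A i j).eval p0))
    (hn : n + c = Fintype.card M) (δ : Fin n → M → k[X]) (hδ : ∀ l, A.mulVec (δ l) = 0)
    (hind : LinearIndependent k[X] δ) (ε : M → k[X]) (hε : A.mulVec ε = 0) :
    ∃ b : k[X], b ≠ 0 ∧ ∃ u : Fin n → k[X], ∀ a, b * ε a = ∑ l, u l * δ l a := by
  obtain ⟨B, hdet, -⟩ := exists_det A p0 hrows
  set K := FractionRing k[X] with hK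
  have hinj : Function.Injective (algebraMap k[X] K) := IsFractionRing.injective _ _
  set A' : Matrix (Fin c) M K := A.map (algebraMap k[X] K) with hA'
  set up : (M → k[X]) →ₗ[k[X]] (M → K) :=
    { toFun := fun v a => algebraMap k[X] K (v a)
      map_add' := by intro v w; funext a; simp
      map_smul' := by intro r v; funext a; simp [Algebra.smul_def] } with hup
  have hupinj : Function.Injective up := by
    intro v w h
    funext a
    exact hinj (congrFun h a)
  have hker : ∀ v : M → k[X], A.mulVec v = 0 → up v ∈ LinearMap.ker A'.mulVecLin := by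
    intro v hv
    rw [LinearMap.mem_ker, Matrix.mulVecLin_apply]
    funext i
    have := congrArg (algebraMap k[X] K) (congrFun hv i)
    simpa [Matrix.mulVec, dotProduct, hA', hup] using this
  -- surjectivity
  set D := (A * B.map C) with hD
  have hD0 : algebraMap k[X] K D.det ≠ 0 := by
    intro h
    have : D.det = 0 := hinj (by rw [h, map_zero])
    rw [this] at hdet
    simp at hdet
  have hsurj : Function.Surjective A'.mulVecLin := by
    intro y
    set D' : Matrix (Fin c) (Fin c) K := D.map (algebraMap k[X] K) with hD'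
    have hD'det : D'.det = algebraMap k[X] K D.det := by
      have := RingHom.map_det (algebraMap k[X] K) D
      simpa [RingHom.mapMatrix_apply] using this.symm
    have hAB : A' * ((B.map C).map (algebraMap k[X] K)) = D' := by
      rw [hA', hD', hD, Matrix.map_mul]
    have hu : IsUnit D'.det := by rw [hD'det]; exact isUnit_iff_ne_zero.2 hD0
    refine ⟨((B.map C).map (algebraMap k[X] K)).mulVec (D'⁻¹.mulVec y), ?_⟩
    rw [Matrix.mulVecLin_apply, Matrix.mulVec_mulVec, hAB, Matrix.mulVec_mulVec,
      Matrix.mul_nonsing_inv _ hu, Matrix.one_mulVec]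
  have hfin : Module.finrank K (LinearMap.ker A'.mulVecLin) = n := by
    have h1 := LinearMap.finrank_range_add_finrank_ker A'.mulVecLin
    rw [LinearMap.range_eq_top.2 hsurj, finrank_top, Module.finrank_fintype_fun_eq_card,
      Module.finrank_fintype_fun_eq_card, Fintype.card_fin] at h1
    omega
  have hind' : LinearIndependent K (fun l => up (δ l)) := by
    rw [← LinearIndependent.iff_fractionRing k[X] K]
    exact hind.map' up (LinearMap.ker_eq_bot.2 hupinj)
  set δ' : Fin n → LinearMap.ker A'.mulVecLin := fun l => ⟨up (δ l), hker _ (hδ l)⟩ with hδ'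
  have hind'' : LinearIndependent K δ' := by
    apply LinearIndependent.of_comp (LinearMap.ker A'.mulVecLin).subtype
    exact hind'
  have hspan := hind''.span_eq_top_of_card_eq_finrank' (by rw [hfin, Fintype.card_fin])
  have hmem : (⟨up ε, hker _ hε⟩ : LinearMap.ker A'.mulVecLin) ∈
      Submodule.span K (Set.range δ') := by rw [hspan]; exact Submodule.mem_top
  obtain ⟨g, hg⟩ := (Submodule.mem_span_range_iff_exists_fun K).1 hmem
  have hg' : ∀ a, ∑ l, g l * algebraMap k[X] K (δ l a) = algebraMap k[X] K (ε a) := by
    intro a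
    have h1 := congrArg Subtype.val hg
    have h2 := congrFun h1 a
    simpa [hδ', hup] using h2
  obtain ⟨b, hb⟩ := IsLocalization.exist_integer_multiples_of_finite
    (nonZeroDivisors k[X]) g
  choose u hu using hb
  refine ⟨(b : k[X]), nonZeroDivisors.ne_zero b.2, u, ?_⟩
  intro a
  apply hinj
  rw [map_mul, map_sum, ← hg' a, Finset.mul_sum]
  refine Finset.sum_congr rfl fun l _ => ?_
  rw [map_mul, hu l, Algebra.smul_def]
  ring

omit [Fintype M] [DecidableEq M] in
/-- independence from the top coefficients -/
theorem indep_of_top {D : ℕ} (δ : Fin n → M → k[X]) (hdeg : ∀ l a, (δ l a).natDegree ≤ D)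
    (h : LinearIndependent k (fun l a => (δ l a).coeff D)) : LinearIndependent k[X] δ := by
  rw [Fintype.linearIndependent_iff]
  intro g hg
  have main : ∀ m : ℕ, (∀ l, (g l).natDegree ≤ m) → ∀ l, g l = 0 := by
    intro m
    induction m with
    | zero =>
      intro hm l
      have htop : ∀ l, (g l).coeff 0 = 0 := by
        rw [Fintype.linearIndependent_iff] at h
        apply h
        funext a
        have h1 := congrArg (fun f => Polynomial.coeff f (0 + D)) (congrFun hg a)
        simp only [Finset.sum_apply, Pi.smul_apply, smul_eq_mul, Polynomial.finsetSum_coeff,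
          Pi.zero_apply, Polynomial.coeff_zero] at h1 ⊢
        rw [← h1]
        refine Finset.sum_congr rfl fun l _ => ?_
        exact (Polynomial.coeff_mul_add_eq_of_natDegree_le (hm l) (hdeg l a)).symm
      rw [Polynomial.eq_C_of_natDegree_le_zero (hm l), htop l, map_zero]
    | succ m ih =>
      intro hm l
      have htop : ∀ l, (g l).coeff (m + 1) = 0 := by
        rw [Fintype.linearIndependent_iff] at h
        apply h
        funext a
        have h1 := congrArg (fun f => Polynomial.coeff f ((m + 1) + D)) (congrFun hg a)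
        simp only [Finset.sum_apply, Pi.smul_apply, smul_eq_mul, Polynomial.finsetSum_coeff,
          Pi.zero_apply, Polynomial.coeff_zero] at h1 ⊢
        rw [← h1]
        refine Finset.sum_congr rfl fun l _ => ?_
        exact (Polynomial.coeff_mul_add_eq_of_natDegree_le (hm l) (hdeg l a)).symm
      refine ih (fun l => ?_) l
      rw [Polynomial.natDegree_le_iff_coeff_eq_zero]
      intro i hi
      rcases Nat.lt_or_ge (m + 1) i with h2 | h2
      · exact Polynomial.coeff_eq_zero_of_natDegree_lt (lt_of_le_of_lt (hm l) h2)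
      · have : i = m + 1 := by omega
        rw [this]; exact htop l
  exact main (Finset.univ.sup fun l => (g l).natDegree)
    (fun l => Finset.le_sup (f := fun l => (g l).natDegree) (Finset.mem_univ l))

/-- partial fractions -/
theorem exists_partial {D : ℕ} (δ : Fin n → M → k[X]) (hdeg : ∀ l a, (δ l a).natDegree ≤ D)
    (ε : M → k[X]) (b : k[X]) (hb : b ≠ 0) (u : Fin n → k[X])
    (h : ∀ a, b * ε a = ∑ l, u l * δ l a) :
    ∃ (e : ℕ) (r : Fin n → k[X]) (ρ : M → k[X]), (∀ a, (ρ a).natDegree ≤ D) ∧
      (∀ a, (ρ a).eval p0 = (ε a).eval p0) ∧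
      ∀ a, (X - C p0) ^ e * ρ a = ∑ l, r l * δ l a := by
  obtain ⟨v, hv, hvd⟩ := Polynomial.exists_eq_pow_rootMultiplicity_mul_and_not_dvd b hb p0
  set e := b.rootMultiplicity p0 with he
  set L : k[X] := X - C p0 with hL
  have hcop : IsCoprime v (L ^ (e + 1)) := by
    apply IsCoprime.pow_right
    apply IsCoprime.symm
    exact (Polynomial.irreducible_X_sub_C p0).coprime_iff_not_dvd.2 hvd
  have hLm : (L ^ (e + 1)).Monic := (Polynomial.monic_X_sub_C p0).pow _
  have hLe : (L ^ e).Monic := (Polynomial.monic_X_sub_C p0).pow _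
  obtain ⟨v', t, hvt⟩ := hcop
  set r : Fin n → k[X] := fun l => (u l * v') %ₘ (L ^ (e + 1)) with hr
  have hrdeg : ∀ l, (r l).natDegree ≤ e := by
    intro l
    have h1 := Polynomial.natDegree_modByMonic_lt (u l * v') hLm (by
      intro h1
      have h2 := congrArg Polynomial.natDegree h1
      rw [Polynomial.natDegree_pow, hL, Polynomial.natDegree_X_sub_C, Polynomial.natDegree_one]
        at h2
      omega)
    have h2 : (L ^ (e + 1)).natDegree = e + 1 := by
      rw [Polynomial.natDegree_pow, hL, Polynomial.natDegree_X_sub_C, mul_one]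
    show ((u l * v') %ₘ (L ^ (e + 1))).natDegree ≤ e
    omega
  have hrcong : ∀ l, L ^ (e + 1) ∣ v * r l - u l := by
    intro l
    have h1 : r l = u l * v' - L ^ (e + 1) * ((u l * v') /ₘ (L ^ (e + 1))) := by
      have := Polynomial.modByMonic_add_div (u l * v') (L ^ (e + 1))
      rw [hr]
      simp only
      linear_combination this
    refine ⟨- t * u l - v * ((u l * v') /ₘ (L ^ (e + 1))), ?_⟩
    rw [h1]
    linear_combination (u l) * hvt
  have hdiv : ∀ a, L ^ (e + 1) ∣ (∑ l, r l * δ l a) - L ^ e * ε a := by
    intro a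
    have h1 : L ^ (e + 1) ∣ v * ((∑ l, r l * δ l a) - L ^ e * ε a) := by
      have h2 : v * ((∑ l, r l * δ l a) - L ^ e * ε a) = ∑ l, (v * r l - u l) * δ l a := by
        have h3 : v * (L ^ e * ε a) = ∑ l, u l * δ l a := by
          rw [← h a, hv]; ring
        rw [mul_sub, h3, Finset.mul_sum, ← Finset.sum_sub_distrib]
        exact Finset.sum_congr rfl fun l _ => by ring
      rw [h2]
      exact Finset.dvd_sum fun l _ => Dvd.dvd.mul_right (hrcong l) _
    have hc2 : IsCoprime (L ^ (e + 1)) v := ⟨t, v', by rw [← hvt]; ring⟩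
    exact hc2.dvd_of_dvd_mul_left h1
  choose s hs using hdiv
  refine ⟨e, r, fun a => ε a + L * s a, ?_, ?_, ?_⟩
  · intro a
    have h1 : L ^ e * (ε a + L * s a) = ∑ l, r l * δ l a := by
      have := hs a
      rw [pow_succ] at this
      linear_combination -this
    have h2 : (∑ l, r l * δ l a).natDegree ≤ e + D := by
      apply Polynomial.natDegree_sum_le_of_forall_le
      intro l _
      exact (Polynomial.natDegree_mul_le).trans (Nat.add_le_add (hrdeg l) (hdeg l a))
    have h3 : (L ^ e * (ε a + L * s a)).natDegree = e + (ε a + L * s a).natDegree ∨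
        (ε a + L * s a) = 0 := by
      by_cases h0 : ε a + L * s a = 0
      · exact Or.inr h0
      · left
        rw [hLe.natDegree_mul' h0, Polynomial.natDegree_pow, hL, Polynomial.natDegree_X_sub_C,
          mul_one]
    show (ε a + L * s a).natDegree ≤ D
    rcases h3 with h3 | h3
    · rw [h1] at h3
      omega
    · rw [h3]; simp
  · intro a
    show (ε a + L * s a).eval p0 = (ε a).eval p0
    simp [hL]
  · intro a
    have := hs a
    rw [pow_succ] at this
    linear_combination -this

end linalg

end Pool.Agent.VF.V6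

namespace Pool.Agent.VF

open MvPolynomial

namespace V6

variable {k : Type} [Field k]

/-- the polynomials of a tuple of forms along a line -/
noncomputable def line {κ : Type} {d : ℕ} (F : Fin (d + 1) → κ → k) (x y : Polynomial k) :
    κ → Polynomial k :=
  val (fun j i => Polynomial.C (F j i)) x y

theorem eval_line {κ : Type} {d : ℕ} (F : Fin (d + 1) → κ → k) (x y : Polynomial k) (s : k)
    (i : κ) : (line F x y i).eval s = val F (x.eval s) (y.eval s) i := by
  simp [line, val, Polynomial.eval_finsetSum]

theorem eval_aeval {σ : Type} (E : MvPolynomial σ k) (x : σ → Polynomial k) (s : k) :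
    (aeval x E).eval s = aeval (fun i => (x i).eval s) E := by
  have h := MvPolynomial.comp_aeval_apply (R := k) (f := x) (Polynomial.aeval s) E
  simpa [Polynomial.coe_aeval_eq_eval] using h

theorem eval_dif {σ : Type} [Fintype σ] (E : MvPolynomial σ k) (x w : σ → Polynomial k) (s : k) :
    (dif E x w).eval s = dif E (fun i => (x i).eval s) (fun i => (w i).eval s) := by
  simp only [dif, Polynomial.eval_finsetSum, Polynomial.eval_mul, eval_aeval]

theorem eq_zero_of_eval [Infinite k] (φ : Polynomial k) (S : Finset k)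
    (h : ∀ s, s ∉ S → φ.eval s = 0) : φ = 0 := by
  apply Polynomial.eq_zero_of_infinite_isRoot
  have h1 : (↑S : Set k)ᶜ.Infinite := S.finite_toSet.infinite_compl
  exact h1.mono fun s hs => h s (by simpa using hs)

/-- continuity of the tangency along a line -/
theorem tan_of_cofinite [Infinite k] {N d e : ℕ} (V : Set (Fin (N + 1) → k))
    (F : Fin (d + 1) → Fin (N + 1) → k) (G : Fin (e + 1) → Fin (N + 1) → k) (p q a b : k)
    (S : Finset k) (h : ∀ s, s ∉ S →
      val G (p + a * s) (q + b * s) ∈ Tan V (val F (p + a * s) (q + b * s))) :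
    val G p q ∈ Tan V (val F p q) := by
  intro E hE
  set x : Polynomial k := Polynomial.C p + Polynomial.C a * Polynomial.X with hx
  set y : Polynomial k := Polynomial.C q + Polynomial.C b * Polynomial.X with hy
  have hxs : ∀ s, x.eval s = p + a * s := by intro s; simp [hx]
  have hys : ∀ s, y.eval s = q + b * s := by intro s; simp [hy]
  have key : ∀ s, (dif E (line F x y) (line G x y)).eval s =
      dif E (val F (p + a * s) (q + b * s)) (val G (p + a * s) (q + b * s)) := by
    intro s
    rw [eval_dif]
    have h1 : (fun i => (line F x y i).eval s) = val F (p + a * s) (q + b * s) := by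
      funext i
      rw [eval_line, hxs, hys]
    have h2 : (fun i => (line G x y i).eval s) = val G (p + a * s) (q + b * s) := by
      funext i
      rw [eval_line, hxs, hys]
    rw [h1, h2]
  have hφ : dif E (line F x y) (line G x y) = 0 :=
    eq_zero_of_eval _ S fun s hs => by rw [key]; exact h s hs E hE
  have h0 := key 0
  rw [hφ] at h0
  simpa using h0.symm

section dif

variable {σ : Type} [Fintype σ] {R : Type} [CommRing R] [Algebra k R]

theorem dif_mul (E G : MvPolynomial σ k) (x w : σ → R) :
    dif (E * G) x w = aeval x E * dif G x w + aeval x G * dif E x w := by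
  simp only [dif, Finset.mul_sum, ← Finset.sum_add_distrib]
  refine Finset.sum_congr rfl fun j _ => ?_
  rw [pderiv_mul, map_add, map_mul, map_mul]
  ring

theorem dif_add (E G : MvPolynomial σ k) (x w : σ → R) :
    dif (E + G) x w = dif E x w + dif G x w := by
  simp only [dif, ← Finset.sum_add_distrib]
  refine Finset.sum_congr rfl fun j _ => ?_
  rw [map_add, map_add]
  ring

theorem dif_zero (x w : σ → R) : dif (0 : MvPolynomial σ k) x w = 0 := by
  simp [dif]

theorem dif_of_mem_span {ι : Type} {E : ι → MvPolynomial σ k} {x w : σ → R}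
    (h0 : ∀ i, aeval x (E i) = 0) (hd : ∀ i, dif (E i) x w = 0) {G : MvPolynomial σ k}
    (hG : G ∈ Ideal.span (Set.range E)) : aeval x G = 0 ∧ dif G x w = 0 := by
  induction hG using Submodule.span_induction with
  | mem G hG =>
    obtain ⟨i, rfl⟩ := hG
    exact ⟨h0 i, hd i⟩
  | zero => exact ⟨map_zero _, dif_zero _ _⟩
  | add a b _ _ ha hb =>
    exact ⟨by rw [map_add, ha.1, hb.1, add_zero], by rw [dif_add, ha.2, hb.2, add_zero]⟩
  | smul a b _ hb =>
    refine ⟨by rw [smul_eq_mul, map_mul, hb.1, mul_zero], ?_⟩
    rw [smul_eq_mul, dif_mul, hb.1, hb.2, mul_zero, zero_mul, add_zero]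

theorem mul_dif_eq_zero {ι : Type} {E : ι → MvPolynomial σ k} {x w : σ → R}
    (h0 : ∀ i, aeval x (E i) = 0) (hd : ∀ i, dif (E i) x w = 0) {G H : MvPolynomial σ k}
    (hG : H * G ∈ Ideal.span (Set.range E)) (hGx : aeval x G = 0) :
    aeval x H * dif G x w = 0 := by
  have h := (dif_of_mem_span h0 hd hG).2
  rw [dif_mul, hGx, zero_mul, add_zero] at h
  exact h

end dif



section main

variable {σ : Type} [Fintype σ]

theorem mem_tan_of_ker {V : Set (σ → k)} {x : σ → k} (hx : x ∈ V) {c : ℕ}
    {E : Fin c → MvPolynomial σ k} {H : MvPolynomial σ k} (hE : ∀ i, E i ∈ van V)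
    (hH : aeval x H ≠ 0) (hgen : ∀ G ∈ van V, H * G ∈ Ideal.span (Set.range E)) {w : σ → k}
    (hw : ∀ i, dif (E i) x w = 0) : w ∈ Tan V x := by
  intro G hG
  have h := mul_dif_eq_zero (x := x) (w := w) (fun i => hE i x hx) hw (hgen G hG) (hG x hx)
  exact (mul_eq_zero.1 h).resolve_left hH

theorem exists_basis {c : ℕ} {V : Set (σ → k)} {x : σ → k} (hx : x ∈ V) (hs : SmoothAt c V x) :
    ∃ (n : ℕ) (w : Fin n → σ → k), n + c = Fintype.card σ ∧ LinearIndependent k w ∧
      ∀ l, w l ∈ Tan V x := by
  obtain ⟨E, H, hE, hlin, hH, hgen⟩ := hs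
  set A0 : Matrix (Fin c) σ k := Matrix.of fun i j => aeval x (pderiv j (E i)) with hA0
  have h1 := finrank_ker_of_rows A0 hlin
  set b := Module.finBasis k (LinearMap.ker A0.mulVecLin) with hb
  refine ⟨_, fun l => (b l : σ → k), h1, ?_, ?_⟩
  · exact b.linearIndependent.map' (LinearMap.ker A0.mulVecLin).subtype
      (Submodule.ker_subtype _)
  · intro l
    apply mem_tan_of_ker hx hE hH hgen
    intro i
    exact congrFun (b l).2 i

end main

section val

variable {N D : ℕ}

theorem val_smul_smul (G : Fin (D + 1) → Fin (N + 1) → k) (t p q : k) (a : Fin (N + 1)) :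
    val G (t * p) (t * q) a = t ^ D * val G p q a := by
  simp only [val, Finset.mul_sum]
  refine Finset.sum_congr rfl fun j _ => ?_
  have hj : D = (D - (j : ℕ)) + j := by have := j.2; omega
  rw [mul_pow, mul_pow]
  conv_rhs => rw [show t ^ D = t ^ (D - (j : ℕ)) * t ^ (j : ℕ) by rw [← pow_add, ← hj]]
  ring

theorem val_zero_right (G : Fin (D + 1) → Fin (N + 1) → k) (p : k) (a : Fin (N + 1)) :
    val G p 0 a = p ^ D * G 0 a := by
  rw [val, Finset.sum_eq_single (0 : Fin (D + 1))]
  · simp; ring
  · intro j _ hj
    have : (j : ℕ) ≠ 0 := fun h => hj (Fin.ext h)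
    rw [zero_pow this]; ring
  · intro h; exact absurd (Finset.mem_univ _) h

theorem val_zero_one (G : Fin (D + 1) → Fin (N + 1) → k) (a : Fin (N + 1)) :
    val G 0 1 a = G (Fin.last D) a := by
  rw [val, Finset.sum_eq_single (Fin.last D)]
  · simp
  · intro j _ hj
    have h1 : (j : ℕ) < D := Fin.val_lt_last hj
    have : D - (j : ℕ) ≠ 0 := by omega
    rw [zero_pow this]; ring
  · intro h; exact absurd (Finset.mem_univ _) h

/-- division by the first variable -/
theorem val_castSucc (G : Fin (D + 2) → Fin (N + 1) → k) (h : ∀ a, G (Fin.last (D + 1)) a = 0)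
    (p q : k) (a : Fin (N + 1)) :
    val G p q a = p * val (fun j : Fin (D + 1) => G j.castSucc) p q a := by
  simp only [val, Fin.sum_univ_castSucc (n := D + 1), h a, zero_mul, add_zero, Finset.mul_sum]
  refine Finset.sum_congr rfl fun j _ => ?_
  have hj : D + 1 - ((Fin.castSucc j : Fin (D + 2)) : ℕ) = (D - (j : ℕ)) + 1 := by
    have := j.2
    simp only [Fin.val_castSucc]
    omega
  rw [hj, pow_succ]
  simp only [Fin.val_castSucc]
  ring

theorem natDegree_line_le (δ : Fin (D + 1) → Fin (N + 1) → k) (q0 : k) (a : Fin (N + 1)) :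
    (line δ Polynomial.X (Polynomial.C q0) a).natDegree ≤ D := by
  unfold line val
  apply Polynomial.natDegree_sum_le_of_forall_le
  intro j _
  refine (Polynomial.natDegree_C_mul_le _ _).trans ?_
  refine (Polynomial.natDegree_mul_le).trans ?_
  rw [Polynomial.natDegree_X_pow, ← Polynomial.C_pow, Polynomial.natDegree_C]
  omega

theorem coeff_line (δ : Fin (D + 1) → Fin (N + 1) → k) (q0 : k) (a : Fin (N + 1)) :
    (line δ Polynomial.X (Polynomial.C q0) a).coeff D = δ 0 a := by
  rw [line, val, Polynomial.finsetSum_coeff, Finset.sum_eq_single (0 : Fin (D + 1))]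
  · simp
  · intro j _ hj
    have h0 : (j : ℕ) ≠ 0 := fun h => hj (Fin.ext h)
    have h1 := j.2
    rw [Polynomial.coeff_C_mul, ← Polynomial.C_pow, Polynomial.coeff_mul_C,
      Polynomial.coeff_X_pow, if_neg (by omega)]
    ring
  · intro h; exact absurd (Finset.mem_univ _) h

/-- the forms of a tuple of polynomials -/
theorem exists_forms (ρ : Fin (N + 1) → Polynomial k) (hρ : ∀ a, (ρ a).natDegree ≤ D) {q0 : k}
    (hq : q0 ≠ 0) : ∃ G : Fin (D + 1) → Fin (N + 1) → k, ∀ l a, val G l q0 a = (ρ a).eval l := by
  refine ⟨fun j a => (ρ a).coeff (D - j) / q0 ^ (j : ℕ), fun l a => ?_⟩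
  have h1 : val (fun (j : Fin (D + 1)) a => (ρ a).coeff (D - j) / q0 ^ (j : ℕ)) l q0 a =
      ∑ j : Fin (D + 1), (fun i : ℕ => (ρ a).coeff (D - i) * l ^ (D - i)) (j : ℕ) := by
    rw [val]
    refine Finset.sum_congr rfl fun j _ => ?_
    field_simp
  rw [h1, Fin.sum_univ_eq_sum_range (fun i : ℕ => (ρ a).coeff (D - i) * l ^ (D - i)) (D + 1),
    Polynomial.eval_eq_sum_range' (Nat.lt_succ_of_le (hρ a))]
  have h2 := Finset.sum_range_reflect (fun i : ℕ => (ρ a).coeff i * l ^ i) (D + 1)
  rw [Nat.succ_eq_add_one, ← h2]
  refine Finset.sum_congr rfl fun j hj => ?_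
  have : D + 1 - 1 - j = D - j := by omega
  rw [this]

end val

end V6

section

open V6

variable {k : Type} [Field k]
/-- sections of degree `d` that vanish at `(0 : 1)` and span at `(1 : 0)` give `Span V F 1` -/
theorem span_one_of_sections [IsAlgClosed k] {N c d : ℕ} {V : Set (Fin (N + 1) → k)}
    (hsm : ∀ x ∈ V, SmoothAt c V x) {F : Fin (d + 1) → Fin (N + 1) → k} (hF : IsCurve V F)
    (hG : ∀ w ∈ Tan V (val F 1 0), ∃ G : Fin (d + 1) → Fin (N + 1) → k,
      IsTangent V F G ∧ val G 0 1 = 0 ∧ val G 1 0 = w) : 1 ≤ d → Span V F 1 := by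
  classical
  intro hd
  obtain ⟨D, rfl⟩ : ∃ D, d = D + 1 := ⟨d - 1, by omega⟩
  refine ⟨hd, ?_⟩
  -- the basic sections
  obtain ⟨n, w0, hn, hw0, hw0T⟩ := exists_basis (hF 1 0 (Or.inl one_ne_zero))
    (hsm _ (hF 1 0 (Or.inl one_ne_zero)))
  choose G0 hG0T hG01 hG10 using fun l => hG (w0 l) (hw0T l)
  have hlast : ∀ l a, G0 l (Fin.last (D + 1)) a = 0 := by
    intro l a
    rw [← val_zero_one (G0 l) a, hG01 l]
    rfl
  set δ : Fin n → Fin (D + 1) → Fin (N + 1) → k := fun l j => G0 l j.castSucc with hδ
  have hδv : ∀ l p q a, val (G0 l) p q a = p * val (δ l) p q a := fun l p q a =>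
    val_castSucc (G0 l) (hlast l) p q a
  have hδ10 : ∀ l a, val (δ l) 1 0 a = w0 l a := by
    intro l a
    have h1 := hδv l 1 0 a
    rw [hG10 l, one_mul] at h1
    exact h1.symm
  have hδ0 : ∀ l a, δ l 0 a = w0 l a := by
    intro l a
    have h1 := val_zero_right (δ l) 1 a
    rw [one_pow, one_mul, hδ10] at h1
    exact h1.symm
  have hδT : ∀ l, IsTangent V F (δ l) := by
    intro l p q
    have hne : ∀ p q : k, p ≠ 0 → val (δ l) p q ∈ Tan V (val F p q) := by
      intro p q hp
      have h1 : val (δ l) p q = p⁻¹ • val (G0 l) p q := by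
        funext a
        rw [Pi.smul_apply, smul_eq_mul, hδv, ← mul_assoc, inv_mul_cancel₀ hp, one_mul]
      rw [h1]
      exact Submodule.smul_mem _ _ (hG0T l p q)
    apply tan_of_cofinite V F (δ l) p q 1 0 {-p}
    intro s hs
    apply hne
    intro h
    apply hs
    rw [Finset.mem_singleton]
    linear_combination h
  intro p0 q0 hpq w hw
  show ∃ G : Fin (D + 1) → Fin (N + 1) → k, IsTangent V F G ∧ val G p0 q0 = w
  obtain ⟨E, H, hE, hlin, hH, hgen⟩ := hsm _ (hF p0 q0 hpq)
  by_cases hq : q0 = 0
  · -- the point `(1 : 0)`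
    subst hq
    have hp : p0 ≠ 0 := by simpa using hpq
    have hind : LinearIndependent k (fun l => val (δ l) p0 0) := by
      have h1 : (fun l => val (δ l) p0 0) = fun l => (p0 ^ D) • w0 l := by
        funext l a
        rw [val_zero_right, hδ0, Pi.smul_apply, smul_eq_mul]
      rw [h1]
      exact hw0.units_smul (fun _ => (Units.mk0 (p0 ^ D) (pow_ne_zero D hp)))
    obtain ⟨g, hg⟩ := exists_coeff_of_ker
      (Matrix.of fun i j => aeval (val F p0 0) (pderiv j (E i))) hlin hn
      (fun l => val (δ l) p0 0) (fun l => by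
        funext i
        exact hδT l p0 0 (E i) (hE i)) hind w (by
        funext i
        exact hw (E i) (hE i))
    refine ⟨fun j a => ∑ l, g l * δ l j a, ?_, ?_⟩
    · intro p q
      have h1 : val (fun j a => ∑ l, g l * δ l j a) p q = ∑ l, g l • val (δ l) p q := by
        funext a
        simp only [val, Finset.sum_apply, Pi.smul_apply, smul_eq_mul, Finset.mul_sum,
          Finset.sum_mul]
        rw [Finset.sum_comm]
        refine Finset.sum_congr rfl fun l _ => Finset.sum_congr rfl fun j _ => ?_
        ring
      rw [h1]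
      exact Submodule.sum_mem _ fun l _ => Submodule.smul_mem _ _ (hδT l p q)
    · funext a
      rw [hg a]
      simp only [val, Finset.mul_sum, Finset.sum_mul]
      rw [Finset.sum_comm]
      refine Finset.sum_congr rfl fun l _ => Finset.sum_congr rfl fun j _ => ?_
      ring
  · -- the other points: the line `q = q0`
    set x : Fin (N + 1) → Polynomial k := line F Polynomial.X (Polynomial.C q0) with hx
    have hxe : ∀ s, (fun i => (x i).eval s) = val F s q0 := by
      intro s
      funext i
      rw [hx, eval_line]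
      simp
    have hxV : ∀ G ∈ van V, aeval x G = 0 := by
      intro G hG
      apply eq_zero_of_eval _ ∅
      intro s _
      rw [eval_aeval, hxe]
      exact hG _ (hF s q0 (Or.inr hq))
    set A : Matrix (Fin c) (Fin (N + 1)) (Polynomial k) :=
      Matrix.of fun i j => aeval x (pderiv j (E i)) with hA
    have hAe : ∀ i j, (A i j).eval p0 = aeval (val F p0 q0) (pderiv j (E i)) := by
      intro i j
      rw [hA, Matrix.of_apply, eval_aeval, hxe]
    have hrows : LinearIndependent k (fun i => fun j => (A i j).eval p0) := by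
      have h1 : (fun i => fun j => (A i j).eval p0) =
          fun (i : Fin c) (j : Fin (N + 1)) => aeval (val F p0 q0) (pderiv j (E i)) := by
        funext i j
        exact hAe i j
      rw [h1]
      exact hlin
    obtain ⟨ε, hε0, hεw⟩ := exists_section A p0 hrows w (by
      funext i
      have h1 := hw (E i) (hE i)
      simp only [Matrix.mulVec, dotProduct, Matrix.map_apply, Pi.zero_apply]
      rw [dif] at h1
      rw [← h1]
      exact Finset.sum_congr rfl fun j _ => by rw [hAe])
    set δ' : Fin n → Fin (N + 1) → Polynomial k := fun l =>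
      line (δ l) Polynomial.X (Polynomial.C q0) with hδ'
    have hδ'e : ∀ l s a, (δ' l a).eval s = val (δ l) s q0 a := by
      intro l s a
      rw [hδ', eval_line]
      simp
    have hδ'A : ∀ l, A.mulVec (δ' l) = 0 := by
      intro l
      funext i
      show dif (E i) x (δ' l) = 0
      apply eq_zero_of_eval _ ∅
      intro s _
      rw [eval_dif, hxe]
      have h1 : (fun a => (δ' l a).eval s) = val (δ l) s q0 := by
        funext a
        exact hδ'e l s a
      rw [h1]
      exact hδT l s q0 (E i) (hE i)
    have hind : LinearIndependent (Polynomial k) δ' := by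
      apply indep_of_top (D := D) δ' (fun l a => natDegree_line_le (δ l) q0 a)
      have h1 : (fun l a => (δ' l a).coeff D) = w0 := by
        funext l a
        rw [hδ', coeff_line, hδ0]
      rw [h1]
      exact hw0
    obtain ⟨b, hb, u, hu⟩ := exists_relation A p0 hrows hn δ' hδ'A hind ε hε0
    obtain ⟨e, r, ρ, hρd, hρe, hρ⟩ := exists_partial p0 δ'
      (fun l a => natDegree_line_le (δ l) q0 a) ε b hb u hu
    obtain ⟨G, hGv⟩ := exists_forms ρ hρd hq
    refine ⟨G, ?_, ?_⟩
    · intro p1 q1
      apply tan_of_cofinite V F G p1 q1 ((p0 + 1) / q0) 1 {-q1, -(p1 * q0 - p0 * q1)}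
      intro s hs
      rw [Finset.mem_insert, Finset.mem_singleton, not_or] at hs
      set p := p1 + (p0 + 1) / q0 * s with hp
      set q := q1 + 1 * s with hq'
      have hqne : q ≠ 0 := by
        intro h
        apply hs.1
        rw [hq'] at h
        linear_combination h
      have hpq' : p * q0 - p0 * q ≠ 0 := by
        intro h
        apply hs.2
        have h2 : p * q0 = p1 * q0 + (p0 + 1) * s := by
          rw [hp]; field_simp
        rw [h2, hq'] at h
        linear_combination h
      set t := q0 / q with ht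
      have htne : t ≠ 0 := div_ne_zero hq hqne
      have htq : t * q = q0 := by rw [ht]; field_simp
      have htp : t * p ≠ p0 := by
        intro h
        apply hpq'
        have : t * p * q = p0 * q := by rw [h]
        have h3 : t * p * q = p * q0 := by rw [← htq]; ring
        rw [← h3, this, sub_self]
      have hL : (t * p - p0) ^ e ≠ 0 := pow_ne_zero _ (sub_ne_zero.2 htp)
      have hval : val G p q = ((t * p - p0) ^ e)⁻¹ • ∑ l, (r l).eval (t * p) • val (δ l) p q := by
        funext a
        have h1 := val_smul_smul G t p q a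
        rw [htq, hGv] at h1
        have h2 := congrArg (Polynomial.eval (t * p)) (hρ a)
        simp only [Polynomial.eval_mul, Polynomial.eval_pow, Polynomial.eval_sub,
          Polynomial.eval_X, Polynomial.eval_C, Polynomial.eval_finsetSum] at h2
        have h3 : ∀ l, (δ' l a).eval (t * p) = t ^ D * val (δ l) p q a := by
          intro l
          rw [hδ'e, ← htq, val_smul_smul]
        simp only [h3] at h2
        rw [h1] at h2
        have h4 : (t * p - p0) ^ e * val G p q a = ∑ l, (r l).eval (t * p) * val (δ l) p q a := by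
          have h5 : t ^ D * ((t * p - p0) ^ e * val G p q a) =
              t ^ D * ∑ l, (r l).eval (t * p) * val (δ l) p q a := by
            rw [Finset.mul_sum]
            calc t ^ D * ((t * p - p0) ^ e * val G p q a)
                = (t * p - p0) ^ e * (t ^ D * val G p q a) := by ring
              _ = _ := h2
              _ = _ := Finset.sum_congr rfl fun l _ => by ring
          exact mul_left_cancel₀ (pow_ne_zero D htne) h5
        rw [Pi.smul_apply, smul_eq_mul, Finset.sum_apply]
        simp only [Pi.smul_apply, smul_eq_mul]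
        rw [← h4, ← mul_assoc, inv_mul_cancel₀ hL, one_mul]
      rw [hval]
      exact Submodule.smul_mem _ _ (Submodule.sum_mem _ fun l _ =>
        Submodule.smul_mem _ _ (hδT l p q))
    · funext a
      rw [hGv, hρe, hεw]

end

end Pool.Agent.VF
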