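import Mathlib
import Pool.Agent.Lib_MP_1858fb_w.Defs2

/-!
# MP_1858fb_ag, V8 part A: the finite system whose solutions are the curves of the family

Tuples of binary forms as polynomials in `q` (at `p = 1`), the system over a `k`-algebra `B`, and
the meaning of its solutions.
-/

set_option autoImplicit false

namespace Pool.Agent.VF

open MvPolynomial

section toPoly

/-- the polynomial in one variable (the value at `(1, X)`) -/
noncomputable def toPoly {κ R : Type} [CommSemiring R] {d : ℕ} (F : Fin (d + 1) → κ → R) (i : κ) :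
    Polynomial R :=
  ∑ j : Fin (d + 1), Polynomial.C (F j i) * Polynomial.X ^ (j : ℕ)

variable {κ R : Type} [CommSemiring R] {d : ℕ}

theorem toPoly_coeff (F : Fin (d + 1) → κ → R) (i : κ) (j : Fin (d + 1)) :
    (toPoly F i).coeff (j : ℕ) = F j i := by
  unfold toPoly
  rw [Polynomial.finsetSum_coeff, Finset.sum_eq_single j]
  · rw [Polynomial.coeff_C_mul, Polynomial.coeff_X_pow_self, mul_one]
  · intro b _ hb
    rw [Polynomial.coeff_C_mul, Polynomial.coeff_X_pow, if_neg, mul_zero]
    intro h
    exact hb (Fin.ext h.symm)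
  · intro h
    exact absurd (Finset.mem_univ j) h

theorem natDegree_toPoly_le (F : Fin (d + 1) → κ → R) (i : κ) : (toPoly F i).natDegree ≤ d := by
  unfold toPoly
  refine Polynomial.natDegree_sum_le_of_forall_le _ _ fun j _ => ?_
  exact (Polynomial.natDegree_C_mul_X_pow_le _ _).trans (by have := j.2; omega)

theorem eval_toPoly (F : Fin (d + 1) → κ → R) (i : κ) (x : R) :
    (toPoly F i).eval x = val F 1 x i := by
  unfold toPoly val
  rw [Polynomial.eval_finset_sum]
  apply Finset.sum_congr rfl
  intro j _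
  rw [Polynomial.eval_mul, Polynomial.eval_C, Polynomial.eval_pow, Polynomial.eval_X, one_pow, one_mul]

theorem map_toPoly {R' : Type} [CommSemiring R'] (φ : R →+* R') (F : Fin (d + 1) → κ → R) (i : κ) :
    (toPoly F i).map φ = toPoly (fun j i => φ (F j i)) i := by
  unfold toPoly
  rw [Polynomial.map_sum]
  apply Finset.sum_congr rfl
  intro j _
  rw [Polynomial.map_mul, Polynomial.map_C, Polynomial.map_pow, Polynomial.map_X]

theorem map_val_fam {R' : Type} [CommSemiring R'] (φ : R →+* R') (F : Fin (d + 1) → κ → R) (p q : R)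
    (i : κ) : φ (val F p q i) = val (fun j i => φ (F j i)) (φ p) (φ q) i := by
  unfold val
  rw [map_sum]
  apply Finset.sum_congr rfl
  intro j _
  rw [map_mul, map_mul, map_pow, map_pow]

end toPoly

section sol

variable {k : Type} [Field k]

/-- The curve `F` with the certificate `c` over the `k`-algebra `R`: start `w`, end `z`, marks,
equations of `V`, and the value at `(1 : X)` lies in the open part. -/
structure Sol {N d m s : ℕ} (V : Set (Fin (N + 1) → k)) (G : Fin s → MvPolynomial (Fin (N + 1)) k)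
    (cm : Fin m → k) (vs : Fin m → Fin (N + 1) → k) {R : Type} [CommRing R] [Algebra k R]
    (w z : Fin (N + 1) → R) (F : Fin (d + 1) → Fin (N + 1) → R) (c : Fin s → Polynomial R) :
    Prop where
  start : ∀ i, F 0 i = w i
  stop : ∀ i, F (Fin.last d) i = z i
  marks : ∀ l i, val F 1 (algebraMap k R (cm l)) i = algebraMap k R (vs l i)
  eqs : ∀ E ∈ van V, aeval (toPoly F) E = 0
  cert : ∑ a, c a * aeval (toPoly F) (G a) = 1

theorem eval_aeval_toPoly {N d : ℕ} {R : Type} [CommRing R] [Algebra k R]
    (F : Fin (d + 1) → Fin (N + 1) → R) (E : MvPolynomial (Fin (N + 1)) k) (x : R) :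
    (aeval (toPoly F) E).eval x = aeval (val F 1 x) E := by
  have h1 : (aeval (toPoly F) E).eval x =
      ((Polynomial.aeval x : Polynomial R →ₐ[R] R).restrictScalars k) (aeval (toPoly F) E) := by
    rw [AlgHom.restrictScalars_apply, Polynomial.aeval_def, Algebra.algebraMap_self,
      Polynomial.eval₂_id]
  rw [h1, comp_aeval_apply]
  congr 2
  funext i
  rw [AlgHom.restrictScalars_apply, Polynomial.aeval_def, Algebra.algebraMap_self,
    Polynomial.eval₂_id, eval_toPoly]

/-- over `k` a solution is a curve in `V` -/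
theorem Sol.isCurve {N d m s : ℕ} {V : Set (Fin (N + 1) → k)}
    {G : Fin s → MvPolynomial (Fin (N + 1)) k} {cm : Fin m → k} {vs : Fin m → Fin (N + 1) → k}
    {w z : Fin (N + 1) → k} {F : Fin (d + 1) → Fin (N + 1) → k} {c : Fin s → Polynomial k}
    (h : Sol V G cm vs w z F c) (hz : z ∈ V)
    (hsc : ∀ x ∈ V, ∀ a : k, a ≠ 0 → a • x ∈ V)
    (hG : ∀ x, x ∈ V ↔ (∀ E ∈ van V, aeval x E = 0) ∧ ∃ i, aeval x (G i) ≠ 0) :
    IsCurve V F := by
  intro p q hpq
  by_cases hp : p = 0
  · have hq : q ≠ 0 := hpq.resolve_left (fun h => h hp)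
    have h1 : val F p q = q ^ d • z := by
      funext i
      unfold val
      rw [Finset.sum_eq_single (Fin.last d)]
      · rw [Fin.val_last, Nat.sub_self, pow_zero, one_mul, h.stop, Pi.smul_apply, smul_eq_mul,
          mul_comm]
      · intro j _ hj
        have h2 : d - (j : ℕ) ≠ 0 := by
          have h3 : (j : ℕ) ≠ d := fun h3 => hj (Fin.ext h3)
          have := j.2
          omega
        rw [hp, zero_pow h2, zero_mul, mul_zero]
      · intro h3
        exact absurd (Finset.mem_univ _) h3
    rw [h1]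
    exact hsc z hz _ (pow_ne_zero _ hq)
  · have h1 : val F p q = p ^ d • val F 1 (q / p) := by
      funext i
      unfold val
      rw [Pi.smul_apply, smul_eq_mul, Finset.mul_sum]
      apply Finset.sum_congr rfl
      intro j _
      have h2 : p ^ d = p ^ (d - (j : ℕ)) * p ^ (j : ℕ) := by
        rw [← pow_add]
        congr 1
        have := j.2
        omega
      rw [one_pow, one_mul, div_pow, h2]
      field_simp
    rw [h1]
    refine hsc _ ?_ _ (pow_ne_zero _ hp)
    rw [hG]
    refine ⟨fun E hE => ?_, ?_⟩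
    · rw [← eval_aeval_toPoly, h.eqs E hE, Polynomial.eval_zero]
    · by_contra hcon
      push Not at hcon
      have h2 := congrArg (Polynomial.eval (q / p)) h.cert
      rw [Polynomial.eval_finset_sum, Polynomial.eval_one] at h2
      rw [Finset.sum_eq_zero] at h2
      · exact zero_ne_one h2
      · intro a _
        rw [Polynomial.eval_mul, eval_aeval_toPoly, hcon a, mul_zero]

end sol

section sys

variable {k : Type} [Field k] {N : ℕ} (d M : ℕ) {m s g : ℕ}
  (E : Fin g → MvPolynomial (Fin (N + 1)) k) (G : Fin s → MvPolynomial (Fin (N + 1)) k)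
  (cm : Fin m → k) (vs : Fin m → Fin (N + 1) → k)
  {B : Type} [CommRing B] [Algebra k B] (w z : Fin (N + 1) → B)

/-- the unknowns: coefficients of the curve and of the certificate -/
abbrev Unk (N d M s : ℕ) : Type := (Fin (d + 1) × Fin (N + 1)) ⊕ (Fin s × Fin (M + 1))

/-- the generic tuple -/
noncomputable def genF (B : Type) [CommRing B] (N d M s : ℕ) (j : Fin (d + 1)) (i : Fin (N + 1)) :
    MvPolynomial (Unk N d M s) B := X (Sum.inl (j, i))

/-- the generic certificate -/
noncomputable def genC (B : Type) [CommRing B] (N d M s : ℕ) (a : Fin s) :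
    Polynomial (MvPolynomial (Unk N d M s) B) :=
  toPoly (fun (n : Fin (M + 1)) (a : Fin s) => (X (Sum.inr (a, n)) : MvPolynomial (Unk N d M s) B)) a

open Classical in
/-- the system -/
noncomputable def sys : Finset (MvPolynomial (Unk N d M s) B) :=
  (Finset.univ.image fun i => genF B N d M s 0 i - C (w i)) ∪
  (Finset.univ.image fun i => genF B N d M s (Fin.last d) i - C (z i)) ∪
  (Finset.univ.image fun x : Fin m × Fin (N + 1) =>
    val (genF B N d M s) 1 (algebraMap k _ (cm x.1)) x.2 - algebraMap k _ (vs x.1 x.2)) ∪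
  (Finset.univ.biUnion fun l => (aeval (toPoly (genF B N d M s)) (E l)).coeffs) ∪
  (∑ a, genC B N d M s a * aeval (toPoly (genF B N d M s)) (G a) - 1).coeffs

theorem coeffs_iff {T R : Type} [CommRing T] [CommRing R] (ψ : T →+* R) (p : Polynomial T) :
    (∀ f ∈ p.coeffs, ψ f = 0) ↔ p.map ψ = 0 := by
  constructor
  · intro h
    ext n
    rw [Polynomial.coeff_map, Polynomial.coeff_zero]
    by_cases h0 : p.coeff n = 0
    · rw [h0, map_zero]
    · exact h _ (Polynomial.mem_coeffs_iff.mpr ⟨n, Polynomial.mem_support_iff.mpr h0, rfl⟩)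
  · intro h f hf
    obtain ⟨n, _, rfl⟩ := Polynomial.mem_coeffs_iff.mp hf
    rw [← Polynomial.coeff_map, h, Polynomial.coeff_zero]

variable {E}

/-- the meaning of the system -/
theorem sys_iff {V : Set (Fin (N + 1) → k)} (hE : Ideal.span (Set.range E) = van V)
    {R : Type} [CommRing R] [Algebra k R] (φ : B →ₐ[k] R) (x : Unk N d M s → R) :
    (∀ f ∈ sys d M E G cm vs w z, eval₂ (φ : B →+* R) x f = 0) ↔
      Sol V G cm vs (fun i => φ (w i)) (fun i => φ (z i)) (fun j i => x (Sum.inl (j, i)))
        (toPoly fun (n : Fin (M + 1)) (a : Fin s) => x (Sum.inr (a, n))) := by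
  classical
  let ψ : MvPolynomial (Unk N d M s) B →ₐ[k] R :=
    { (eval₂Hom (φ : B →+* R) x) with
      commutes' := by
        intro r
        show eval₂Hom (φ : B →+* R) x (algebraMap k (MvPolynomial (Unk N d M s) B) r) = _
        rw [IsScalarTower.algebraMap_apply k B (MvPolynomial (Unk N d M s) B),
          MvPolynomial.algebraMap_eq, eval₂Hom_C]
        exact φ.commutes r }
  have hψ : ∀ f, eval₂ (φ : B →+* R) x f = ψ f := fun f => rfl
  have hψX : ∀ u, ψ (X u) = x u := fun u => eval₂_X _ _ _
  have hψC : ∀ b, ψ (C b) = φ b := fun b => eval₂_C _ _ _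
  have hF : ∀ i, (toPoly (genF B N d M s) i).map (ψ : MvPolynomial (Unk N d M s) B →+* R) =
      toPoly (fun j i => x (Sum.inl (j, i))) i := by
    intro i
    rw [map_toPoly]
    congr 1
    funext j i
    exact hψX _
  have hae : ∀ E' : MvPolynomial (Fin (N + 1)) k,
      (aeval (toPoly (genF B N d M s)) E').map (ψ : MvPolynomial (Unk N d M s) B →+* R) =
        aeval (toPoly (fun j i => x (Sum.inl (j, i)))) E' := by
    intro E'
    have h1 : (aeval (toPoly (genF B N d M s)) E').map (ψ : MvPolynomial (Unk N d M s) B →+* R) =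
        Polynomial.mapAlgHom ψ (aeval (toPoly (genF B N d M s)) E') := rfl
    rw [h1, comp_aeval_apply]
    congr 2
    funext i
    exact hF i
  have hc : ∀ a, (genC B N d M s a).map (ψ : MvPolynomial (Unk N d M s) B →+* R) =
      toPoly (fun (n : Fin (M + 1)) (a : Fin s) => x (Sum.inr (a, n))) a := by
    intro a
    unfold genC
    rw [map_toPoly]
    congr 1
    funext n a
    exact hψX _
  have h1 : (∀ i, ψ (genF B N d M s 0 i - C (w i)) = 0) ↔ ∀ i, x (Sum.inl (0, i)) = φ (w i) := by
    apply forall_congr'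
    intro i
    rw [map_sub, hψC, sub_eq_zero]
    exact Iff.of_eq (congrArg (· = φ (w i)) (hψX _))
  have h2 : (∀ i, ψ (genF B N d M s (Fin.last d) i - C (z i)) = 0) ↔
      ∀ i, x (Sum.inl (Fin.last d, i)) = φ (z i) := by
    apply forall_congr'
    intro i
    rw [map_sub, hψC, sub_eq_zero]
    exact Iff.of_eq (congrArg (· = φ (z i)) (hψX _))
  have h3 : (∀ u : Fin m × Fin (N + 1), ψ (val (genF B N d M s) 1 (algebraMap k _ (cm u.1)) u.2 -
      algebraMap k _ (vs u.1 u.2)) = 0) ↔
      ∀ l i, val (fun j i => x (Sum.inl (j, i))) 1 (algebraMap k R (cm l)) i =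
        algebraMap k R (vs l i) := by
    rw [Prod.forall]
    apply forall_congr'
    intro l
    apply forall_congr'
    intro i
    rw [map_sub, ψ.commutes, sub_eq_zero]
    have h4 := map_val_fam (ψ : MvPolynomial (Unk N d M s) B →+* R) (genF B N d M s) 1 (algebraMap k _ (cm l)) i
    have h5 : (ψ : MvPolynomial (Unk N d M s) B →+* R) (algebraMap k _ (cm l)) =
        algebraMap k R (cm l) := ψ.commutes _
    rw [map_one, h5] at h4
    have h6 : (fun j i => (ψ : MvPolynomial (Unk N d M s) B →+* R) (genF B N d M s j i)) =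
        fun j i => x (Sum.inl (j, i)) := by
      funext j i
      exact hψX _
    rw [h6] at h4
    exact Iff.of_eq (congrArg (· = algebraMap k R (vs l i)) h4)
  have h4 : (∀ l, ∀ f ∈ (aeval (toPoly (genF B N d M s)) (E l)).coeffs, ψ f = 0) ↔
      ∀ E' ∈ van V, aeval (toPoly (fun j i => x (Sum.inl (j, i)))) E' = 0 := by
    have h5 : ∀ l, (∀ f ∈ (aeval (toPoly (genF B N d M s)) (E l)).coeffs, ψ f = 0) ↔
        aeval (toPoly (fun j i => x (Sum.inl (j, i)))) (E l) = 0 := by
      intro l
      rw [← hae]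
      exact coeffs_iff (ψ : MvPolynomial (Unk N d M s) B →+* R) _
    rw [forall_congr' h5]
    constructor
    · intro h E' hE'
      rw [← hE] at hE'
      have h6 : Ideal.span (Set.range E) ≤ RingHom.ker
          (aeval (toPoly (fun j i => x (Sum.inl (j, i)))) :
            MvPolynomial (Fin (N + 1)) k →ₐ[k] Polynomial R) := by
        rw [Ideal.span_le]
        rintro _ ⟨l, rfl⟩
        exact h l
      exact h6 hE'
    · intro h l
      exact h _ (hE ▸ Ideal.subset_span ⟨l, rfl⟩)
  have h5 : (∀ f ∈ (∑ a, genC B N d M s a * aeval (toPoly (genF B N d M s)) (G a) - 1).coeffs,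
      (ψ : MvPolynomial (Unk N d M s) B →+* R) f = 0) ↔ ∑ a, toPoly (fun (n : Fin (M + 1)) (a : Fin s) => x (Sum.inr (a, n))) a *
        aeval (toPoly (fun j i => x (Sum.inl (j, i)))) (G a) = 1 := by
    rw [coeffs_iff (ψ : MvPolynomial (Unk N d M s) B →+* R), Polynomial.map_sub, Polynomial.map_one, Polynomial.map_sum,
      sub_eq_zero]
    apply Iff.of_eq
    congr 1
    apply Finset.sum_congr rfl
    intro a _
    rw [Polynomial.map_mul, hae, hc]
  simp only [hψ]
  unfold sys
  simp only [Finset.mem_union, Finset.mem_image, Finset.mem_univ, true_and, Finset.mem_biUnion]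
  constructor
  · intro h
    refine ⟨h1.mp ?_, h2.mp ?_, h3.mp ?_, h4.mp ?_, h5.mp ?_⟩
    · exact fun i => h _ (Or.inl (Or.inl (Or.inl (Or.inl ⟨i, rfl⟩))))
    · exact fun i => h _ (Or.inl (Or.inl (Or.inl (Or.inr ⟨i, rfl⟩))))
    · exact fun u => h _ (Or.inl (Or.inl (Or.inr ⟨u, rfl⟩)))
    · exact fun l f hf => h _ (Or.inl (Or.inr ⟨l, hf⟩))
    · exact fun f hf => h _ (Or.inr hf)
  · rintro ⟨g1, g2, g3, g4, g5⟩ f ((((⟨i, rfl⟩ | ⟨i, rfl⟩) | ⟨u, rfl⟩) | ⟨l, hf⟩) | hf)
    · exact h1.mpr g1 i
    · exact h2.mpr g2 i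
    · exact h3.mpr g3 u
    · exact h4.mpr g4 l f hf
    · exact h5.mpr g5 f hf

end sys

end Pool.Agent.VF
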