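import Pool.Agent.Lib_MP_1858fb_w.Formal

/-!
Formal deformation of a curve with MARKED POINTS, projectively: at a mark `c` all coefficients of
the deformation are proportional to the vector `F₀(c)`. Any field, any characteristic.
-/

open Polynomial

namespace Pool.Agent.VF.Fm

variable {K : Type*} [Field K] {σ : Type*} {M : Type*} {ι : Type*}

/-- The vector of polynomials `δ` is proportional to `F₀` at all marks. -/
def Marked (c : ι → K) (F0 δ : M → K[X]) : Prop :=
  ∀ a, ∃ s : K, ∀ j, (δ j).eval (c a) = s * (F0 j).eval (c a)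

theorem Marked.zero (c : ι → K) (F0 : M → K[X]) : Marked c F0 (fun _ => 0) :=
  fun a => ⟨0, fun j => by simp⟩

theorem Marked.self (c : ι → K) (F0 : M → K[X]) : Marked c F0 F0 :=
  fun a => ⟨1, fun j => by simp⟩

theorem Marked.add {c : ι → K} {F0 δ δ' : M → K[X]} (h : Marked c F0 δ) (h' : Marked c F0 δ') :
    Marked c F0 (fun j => δ j + δ' j) := fun a => by
  obtain ⟨s, hs⟩ := h a
  obtain ⟨s', hs'⟩ := h' a
  exact ⟨s + s', fun j => by rw [eval_add, hs, hs', add_mul]⟩

theorem Marked.sum {c : ι → K} {F0 : M → K[X]} {τ : Type*} (t : Finset τ) {δ : τ → M → K[X]}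
    (h : ∀ x ∈ t, Marked c F0 (δ x)) : Marked c F0 (fun j => ∑ x ∈ t, δ x j) := by
  classical
  induction t using Finset.induction_on with
  | empty => simpa using Marked.zero c F0
  | insert x t hx ih =>
    simp only [Finset.sum_insert hx]
    exact (h x (Finset.mem_insert_self x t)).add
      (ih fun y hy => h y (Finset.mem_insert_of_mem hy))

/-- The state of the recursion: all equations of `I` hold up to degree `< k`. -/
structure StateM [Fintype M] (I : Ideal (MvPolynomial M K)) (d : ℕ) (c : ι → K) (F0 : M → K[X])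
    (g : σ → M → K[X]) (k : ℕ) (F : M → MvPowerSeries σ K[X]) : Prop where
  deg : ∀ j, DegLE d (F j)
  mark : ∀ μ, Marked c F0 fun j => MvPowerSeries.coeff μ (F j)
  zero : ∀ j, MvPowerSeries.constantCoeff (F j) = F0 j
  one : ∀ i j, MvPowerSeries.coeff (Finsupp.single i 1) (F j) = g i j
  eqs : ∀ E ∈ I, MvPolynomial.aeval F E ∈ J σ K[X] k

theorem map_evalRingHom_coeff (c : K) (f : MvPowerSeries σ K[X]) (μ : σ →₀ ℕ) :
    MvPowerSeries.coeff μ (MvPowerSeries.map (evalRingHom c) f) =
      (MvPowerSeries.coeff μ f).eval c := by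
  rw [MvPowerSeries.coeff_map, coe_evalRingHom]

/-- If all coefficients of `F` are proportional to `v = F₀(c)` at `c`, then so is `F(c)`. -/
theorem mark_series {c : ι → K} {F0 : M → K[X]} {F : M → MvPowerSeries σ K[X]}
    (h : ∀ μ, Marked c F0 fun j => MvPowerSeries.coeff μ (F j)) (a : ι) :
    ∃ S : MvPowerSeries σ K, ∀ j, MvPowerSeries.map (evalRingHom (c a)) (F j) =
      S * algebraMap K _ ((F0 j).eval (c a)) := by
  choose s hs using fun μ => h μ a
  let S : MvPowerSeries σ K := fun μ => s μ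
  have hS : ∀ μ, MvPowerSeries.coeff μ S = s μ := fun μ => rfl
  refine ⟨S, fun j => ?_⟩
  ext μ
  rw [map_evalRingHom_coeff, hs, MvPowerSeries.algebraMap_apply, MvPowerSeries.coeff_mul_C, hS]
  rfl

theorem aeval_smul_vec {R : Type*} [CommRing R] [Algebra K R] (v : M → K) (S : R)
    {E : MvPolynomial M K} {e : ℕ} (hE : E.IsHomogeneous e) :
    MvPolynomial.aeval (fun j => S * algebraMap K R (v j)) E =
      S ^ e * algebraMap K R (MvPolynomial.aeval v E) := by
  rw [MvPolynomial.aeval_def, MvPolynomial.eval₂_eq, MvPolynomial.aeval_def,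
    MvPolynomial.eval₂_eq, map_sum, Finset.mul_sum]
  refine Finset.sum_congr rfl fun s hs => ?_
  have h2 : ∑ i ∈ s.support, s i = e := by
    have h3 := hE (MvPolynomial.mem_support_iff.1 hs)
    rw [Finsupp.weight_apply] at h3
    simpa [Finsupp.sum] using h3
  simp only [mul_pow, Finset.prod_mul_distrib, map_mul, map_prod, map_pow]
  rw [Finset.prod_pow_eq_pow_sum, h2]
  simp only [Algebra.algebraMap_self_apply]
  ring

/-- homogeneous equations of the deformation vanish at the marks -/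
theorem eval_coeff_aeval_eq_zero {I : Ideal (MvPolynomial M K)} {c : ι → K} {F0 : M → K[X]}
    {F : M → MvPowerSeries σ K[X]} (hF0 : ∀ E ∈ I, MvPolynomial.aeval F0 E = 0)
    (h : ∀ μ, Marked c F0 fun j => MvPowerSeries.coeff μ (F j)) {E : MvPolynomial M K}
    (hE : E ∈ I) {e : ℕ} (he : E.IsHomogeneous e) (μ : σ →₀ ℕ) (a : ι) :
    (MvPowerSeries.coeff μ (MvPolynomial.aeval F E)).eval (c a) = 0 := by
  obtain ⟨S, hS⟩ := mark_series h a
  rw [← map_evalRingHom_coeff]
  have h0 : ∀ b : K, MvPowerSeries.map (evalRingHom (c a)) (algebraMap K (MvPowerSeries σ K[X]) b) =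
      algebraMap K (MvPowerSeries σ K) b := by
    intro b
    rw [MvPowerSeries.algebraMap_apply, MvPowerSeries.map_C, MvPowerSeries.algebraMap_apply]
    simp
  have h1 : MvPowerSeries.map (evalRingHom (c a)) (MvPolynomial.aeval F E) =
      MvPolynomial.aeval (fun j => MvPowerSeries.map (evalRingHom (c a)) (F j)) E := by
    rw [MvPolynomial.aeval_def, MvPolynomial.aeval_def, MvPolynomial.hom_eval₂]
    congr 1
    ext b : 1
    exact h0 b
  have h2 : MvPolynomial.aeval (fun j => (F0 j).eval (c a)) E = 0 := by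
    have h3 := congrArg (Polynomial.eval (c a)) (hF0 E hE)
    rw [eval_zero, ← coe_evalRingHom, MvPolynomial.aeval_def, MvPolynomial.hom_eval₂] at h3
    rw [MvPolynomial.aeval_def, ← h3]
    congr 1
    ext b : 1
    simp
  rw [h1]
  simp only [hS]
  rw [aeval_smul_vec _ _ he, h2, map_zero, mul_zero, map_zero]

theorem StateM.toState {I : Ideal (MvPolynomial M K)} {d : ℕ} {c : ι → K} [Fintype M]
    {F0 : M → K[X]} {g : σ → M → K[X]} {k : ℕ} {F : M → MvPowerSeries σ K[X]}
    (h : StateM I d c F0 g k F) : State I d (1 : K[X]) F0 g k F where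
  deg := h.deg
  dvd j μ := one_dvd _
  zero := h.zero
  one := h.one
  eqs := h.eqs

theorem stateM_start [Fintype M] [Fintype σ] (I : Ideal (MvPolynomial M K)) (d : ℕ) (c : ι → K)
    (F0 : M → K[X]) (g : σ → M → K[X]) (hF0d : ∀ j, (F0 j).natDegree ≤ d)
    (hgd : ∀ i j, (g i j).natDegree ≤ d) (hgc : ∀ i, Marked c F0 (g i))
    (hF0 : ∀ E ∈ I, MvPolynomial.aeval F0 E = 0)
    (hg : ∀ i, ∀ E ∈ I, ∑ j, MvPolynomial.aeval F0 (MvPolynomial.pderiv j E) * g i j = 0) :
    ∃ F : M → MvPowerSeries σ K[X], StateM I d c F0 g 2 F := by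
  classical
  set C0 : M → MvPowerSeries σ K[X] := fun j => MvPowerSeries.C (F0 j) with hC0
  set Δ : M → MvPowerSeries σ K[X] := fun j => ∑ i, MvPowerSeries.X i * MvPowerSeries.C (g i j)
    with hΔ
  have hcX : ∀ (μ : σ →₀ ℕ) (i : σ) (c : K[X]), MvPowerSeries.coeff μ
      (MvPowerSeries.X i * MvPowerSeries.C c) = if μ = Finsupp.single i 1 then c else 0 := by
    intro μ i c
    rw [MvPowerSeries.coeff_mul_C, MvPowerSeries.coeff_X]
    split_ifs <;> simp
  have hcΔ : ∀ (μ : σ →₀ ℕ) (j : M), MvPowerSeries.coeff μ (Δ j) =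
      ∑ i, if μ = Finsupp.single i 1 then g i j else 0 := by
    intro μ j
    rw [hΔ]
    simp only [map_sum, hcX]
  have hΔJ : ∀ j, Δ j ∈ J σ K[X] 1 := by
    intro j μ hμ
    have h0 : μ = 0 := (Finsupp.degree_eq_zero_iff μ).1 (by omega)
    rw [hcΔ, h0]
    refine Finset.sum_eq_zero fun i _ => if_neg fun h => ?_
    have := DFunLike.congr_fun h i
    simp at this
  have hmap : ∀ E : MvPolynomial M K, MvPolynomial.aeval C0 E =
      MvPowerSeries.C (MvPolynomial.aeval F0 E) := fun E => aeval_C_series F0 E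
  refine ⟨fun j => C0 j + Δ j, ⟨fun j μ => ?_, fun μ => ?_, fun j => ?_, fun i j => ?_,
    fun E hE => ?_⟩⟩
  · rw [map_add, hcΔ]
    refine (natDegree_add_le _ _).trans (max_le ?_ ?_)
    · rw [hC0]
      show (MvPowerSeries.coeff μ (MvPowerSeries.C (F0 j))).natDegree ≤ d
      rw [MvPowerSeries.coeff_C]
      split_ifs
      · exact hF0d j
      · simp
    · refine natDegree_sum_le_of_forall_le _ _ fun i _ => ?_
      split_ifs
      · exact hgd i j
      · simp
  · have h6 : (fun j => MvPowerSeries.coeff μ (C0 j + Δ j)) =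
        fun j => (if μ = 0 then F0 j else 0) + ∑ i, if μ = Finsupp.single i 1 then g i j else 0 := by
      funext j
      rw [map_add, hcΔ, hC0]
      show MvPowerSeries.coeff μ (MvPowerSeries.C (F0 j)) + _ = _
      rw [MvPowerSeries.coeff_C]
    rw [h6]
    refine Marked.add ?_ (Marked.sum _ fun i _ => ?_)
    · by_cases h : μ = 0
      · simpa [h] using Marked.self c F0
      · simpa [h] using Marked.zero c F0
    · by_cases h : μ = Finsupp.single i 1
      · simpa [h] using hgc i
      · simpa [h] using Marked.zero c F0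
  · rw [map_add, hC0]
    show MvPowerSeries.constantCoeff (MvPowerSeries.C (F0 j)) + _ = _
    rw [MvPowerSeries.constantCoeff_C]
    have h0 : MvPowerSeries.constantCoeff (Δ j) = 0 := by
      rw [← MvPowerSeries.coeff_zero_eq_constantCoeff_apply]
      exact hΔJ j 0 (by simp)
    rw [h0, add_zero]
  · rw [map_add, hcΔ, hC0]
    show MvPowerSeries.coeff (Finsupp.single i 1) (MvPowerSeries.C (F0 j)) + _ = _
    rw [MvPowerSeries.coeff_C, if_neg (by simp), zero_add, Finset.sum_eq_single i]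
    · simp
    · intro b _ hb
      exact if_neg fun h => hb (by
        have := (Finsupp.single_left_inj (one_ne_zero)).1 h
        exact this.symm)
    · simp
  · have h1 := taylor_mem (J σ K[X] 1) (J σ K[X] 2) (fun x hx y hy => mul_mem_J hx hy) C0 Δ hΔJ E
    have h2 : MvPolynomial.aeval C0 E = 0 := by rw [hmap, hF0 E hE, map_zero]
    have h3 : ∑ j, MvPolynomial.aeval C0 (MvPolynomial.pderiv j E) * Δ j = 0 := by
      have h4 : ∀ j, MvPolynomial.aeval C0 (MvPolynomial.pderiv j E) * Δ j =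
          ∑ i, MvPowerSeries.X i *
            MvPowerSeries.C (MvPolynomial.aeval F0 (MvPolynomial.pderiv j E) * g i j) := by
        intro j
        rw [hmap, hΔ]
        simp only [Finset.mul_sum, map_mul]
        exact Finset.sum_congr rfl fun i _ => by ring
      simp only [h4]
      rw [Finset.sum_comm]
      refine Finset.sum_eq_zero fun i _ => ?_
      rw [← Finset.mul_sum, ← map_sum, hg i E hE, map_zero, mul_zero]
    rw [h2, h3, sub_zero, sub_zero] at h1
    exact h1

theorem stateM_step [Fintype M] [Fintype σ] (I : Ideal (MvPolynomial M K)) (d : ℕ) (c : ι → K)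
    (F0 : M → K[X]) (g : σ → M → K[X]) (hF0 : ∀ E ∈ I, MvPolynomial.aeval F0 E = 0)
    (hobs : ∀ o : MvPolynomial M K → K[X],
      (∀ E ∈ I, ∀ G, o (G * E) = MvPolynomial.aeval F0 G * o E) →
      (∀ E ∈ I, ∀ E' ∈ I, o (E + E') = o E + o E') →
      (∀ E ∈ I, ∀ e, E.IsHomogeneous e → ∀ a, (o E).eval (c a) = 0) →
      (∀ E ∈ I, ∀ e, E.IsHomogeneous e → (o E).natDegree ≤ d * e) →
      ∃ δ : M → K[X], Marked c F0 δ ∧ (∀ j, (δ j).natDegree ≤ d) ∧
        ∀ E ∈ I, ∑ j, MvPolynomial.aeval F0 (MvPolynomial.pderiv j E) * δ j = o E)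
    {k : ℕ} (hk : 2 ≤ k) {F : M → MvPowerSeries σ K[X]} (hF : StateM I d c F0 g k F) :
    ∃ F' : M → MvPowerSeries σ K[X], StateM I d c F0 g (k + 1) F' ∧
      ∀ j, F' j - F j ∈ J σ K[X] k := by
  classical
  have hsol : ∀ μ : σ →₀ ℕ, μ.degree = k → ∃ δ : M → K[X], Marked c F0 δ ∧
      (∀ j, (δ j).natDegree ≤ d) ∧
      ∀ E ∈ I, ∑ j, MvPolynomial.aeval F0 (MvPolynomial.pderiv j E) * δ j =
        - MvPowerSeries.coeff μ (MvPolynomial.aeval F E) := by
    intro μ hμ
    refine hobs (fun E => - MvPowerSeries.coeff μ (MvPolynomial.aeval F E)) ?_ ?_ ?_ ?_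
    · intro E hE G
      show - MvPowerSeries.coeff μ (MvPolynomial.aeval F (G * E)) =
        MvPolynomial.aeval F0 G * - MvPowerSeries.coeff μ (MvPolynomial.aeval F E)
      rw [map_mul, coeff_mul_of_mem_J _ (hF.eqs E hE) hμ, constantCoeff_aeval]
      simp only [hF.zero]
      ring
    · intro E _ E' _
      show - MvPowerSeries.coeff μ (MvPolynomial.aeval F (E + E')) = _
      rw [map_add, map_add]
      ring
    · intro E hE e he a
      rw [eval_neg, eval_coeff_aeval_eq_zero hF0 hF.mark hE he, neg_zero]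
    · intro E _ e he
      show (- MvPowerSeries.coeff μ (MvPolynomial.aeval F E)).natDegree ≤ d * e
      rw [natDegree_neg]
      exact degLE_aeval hF.deg he μ
  choose! δ hδP hδd hδ using hsol
  set Δ : M → MvPowerSeries σ K[X] := fun j μ => if μ.degree = k then δ μ j else 0 with hΔdef
  have hcΔ : ∀ j μ, MvPowerSeries.coeff μ (Δ j) = if μ.degree = k then δ μ j else 0 :=
    fun j μ => rfl
  have hΔ : ∀ j, Δ j ∈ J σ K[X] k := fun j μ hμ => by rw [hcΔ, if_neg (by omega)]
  refine ⟨fun j => F j + Δ j, ⟨fun j => (hF.deg j).add fun μ => ?_, fun μ => ?_, fun j => ?_,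
    fun i j => ?_, fun E hE => ?_⟩, fun j => by simpa using hΔ j⟩
  · rw [hcΔ]
    split_ifs with h
    · exact hδd μ h j
    · simp
  · have h6 : (fun j => MvPowerSeries.coeff μ (F j + Δ j)) =
        fun j => MvPowerSeries.coeff μ (F j) + (if μ.degree = k then δ μ j else 0) := by
      funext j
      rw [map_add, hcΔ]
    rw [h6]
    refine (hF.mark μ).add ?_
    by_cases h : μ.degree = k
    · simpa [h] using hδP μ h
    · simpa [h] using Marked.zero c F0
  · rw [map_add, hF.zero j, ← MvPowerSeries.coeff_zero_eq_constantCoeff_apply, hΔ j 0 (by simp; omega),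
      add_zero]
  · rw [map_add, hF.one i j, hΔ j _ (by rw [Finsupp.degree_single]; omega), add_zero]
  · intro μ hμ
    have h1 := taylor_mem (J σ K[X] k) (J σ K[X] (k + k)) (fun x hx y hy => mul_mem_J hx hy) F Δ hΔ E
      μ (by omega)
    rw [map_sub, map_sub, sub_sub, sub_eq_zero] at h1
    rw [h1]
    rcases Nat.lt_or_ge μ.degree k with h2 | h2
    · rw [hF.eqs E hE μ h2, zero_add]
      exact (J σ K[X] k).sum_mem (fun j _ => (J σ K[X] k).mul_mem_left _ (hΔ j)) μ h2
    · have h3 : μ.degree = k := by omega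
      rw [map_sum]
      have h4 : ∀ j, MvPowerSeries.coeff μ (MvPolynomial.aeval F (MvPolynomial.pderiv j E) * Δ j) =
          MvPolynomial.aeval F0 (MvPolynomial.pderiv j E) * δ μ j := by
        intro j
        rw [coeff_mul_of_mem_J _ (hΔ j) h3, constantCoeff_aeval, hcΔ, if_pos h3]
        simp only [hF.zero]
      simp only [h4]
      rw [hδ μ h3 E hE]
      ring

/-- **Formal deformation with marked points.** -/
theorem exists_formal_marks [Fintype M] [Fintype σ] (I : Ideal (MvPolynomial M K)) (d : ℕ)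
    (c : ι → K) (F0 : M → K[X]) (g : σ → M → K[X]) (hF0d : ∀ j, (F0 j).natDegree ≤ d)
    (hgd : ∀ i j, (g i j).natDegree ≤ d) (hgc : ∀ i, Marked c F0 (g i))
    (hF0 : ∀ E ∈ I, MvPolynomial.aeval F0 E = 0)
    (hg : ∀ i, ∀ E ∈ I, ∑ j, MvPolynomial.aeval F0 (MvPolynomial.pderiv j E) * g i j = 0)
    (hobs : ∀ o : MvPolynomial M K → K[X],
      (∀ E ∈ I, ∀ G, o (G * E) = MvPolynomial.aeval F0 G * o E) →
      (∀ E ∈ I, ∀ E' ∈ I, o (E + E') = o E + o E') →
      (∀ E ∈ I, ∀ e, E.IsHomogeneous e → ∀ a, (o E).eval (c a) = 0) →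
      (∀ E ∈ I, ∀ e, E.IsHomogeneous e → (o E).natDegree ≤ d * e) →
      ∃ δ : M → K[X], Marked c F0 δ ∧ (∀ j, (δ j).natDegree ≤ d) ∧
        ∀ E ∈ I, ∑ j, MvPolynomial.aeval F0 (MvPolynomial.pderiv j E) * δ j = o E) :
    ∃ F : M → MvPowerSeries σ K[X],
      (∀ j μ, (MvPowerSeries.coeff μ (F j)).natDegree ≤ d) ∧
      (∀ μ, Marked c F0 fun j => MvPowerSeries.coeff μ (F j)) ∧
      (∀ j, MvPowerSeries.constantCoeff (F j) = F0 j) ∧
      (∀ i j, MvPowerSeries.coeff (Finsupp.single i 1) (F j) = g i j) ∧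
      ∀ E ∈ I, MvPolynomial.aeval F E = 0 := by
  classical
  obtain ⟨Fs, hFs⟩ := stateM_start I d c F0 g hF0d hgd hgc hF0 hg
  have hstep : ∀ (n : ℕ) (F : {F : M → MvPowerSeries σ K[X] // StateM I d c F0 g (n + 2) F}),
      ∃ F' : {F : M → MvPowerSeries σ K[X] // StateM I d c F0 g (n + 1 + 2) F},
        ∀ j, F'.1 j - F.1 j ∈ J σ K[X] (n + 2) := by
    intro n F
    obtain ⟨F', h1, h2⟩ := stateM_step I d c F0 g hF0 hobs (by omega) F.2
    exact ⟨⟨F', h1⟩, h2⟩
  choose next hnext using hstep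
  let s : ∀ n : ℕ, {F : M → MvPowerSeries σ K[X] // StateM I d c F0 g (n + 2) F} := fun n =>
    Nat.rec ⟨Fs, hFs⟩ (fun n F => next n F) n
  have hs : ∀ n j, (s (n + 1)).1 j - (s n).1 j ∈ J σ K[X] (n + 2) := fun n j => hnext n (s n) j
  have hst : ∀ (μ : σ →₀ ℕ) (n : ℕ), μ.degree ≤ n → ∀ j,
      MvPowerSeries.coeff μ ((s n).1 j) = MvPowerSeries.coeff μ ((s μ.degree).1 j) := by
    intro μ n hn
    induction n, hn using Nat.le_induction with
    | base => intro j; rfl
    | succ n hn ih =>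
      intro j
      rw [← ih j]
      have h1 := hs n j μ (by omega)
      rw [map_sub, sub_eq_zero] at h1
      exact h1
  let F : M → MvPowerSeries σ K[X] := fun j μ => MvPowerSeries.coeff μ ((s μ.degree).1 j)
  have hF : ∀ j μ, MvPowerSeries.coeff μ (F j) = MvPowerSeries.coeff μ ((s μ.degree).1 j) :=
    fun j μ => rfl
  have hFs' : ∀ n j, F j - (s n).1 j ∈ J σ K[X] (n + 1) := by
    intro n j μ hμ
    rw [map_sub, hF, hst μ n (by omega) j, sub_self]
  refine ⟨F, fun j μ => ?_, fun μ => ?_, fun j => ?_, fun i j => ?_, fun E hE => ?_⟩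
  · rw [hF]; exact (s μ.degree).2.deg j μ
  · have h6 : (fun j => MvPowerSeries.coeff μ (F j)) =
        fun j => MvPowerSeries.coeff μ ((s μ.degree).1 j) := funext fun j => hF j μ
    rw [h6]; exact (s μ.degree).2.mark μ
  · rw [← MvPowerSeries.coeff_zero_eq_constantCoeff_apply, hF,
      MvPowerSeries.coeff_zero_eq_constantCoeff_apply]
    exact (s _).2.zero j
  · rw [hF]; exact (s _).2.one i j
  · refine eq_zero_of_mem_J fun n => ?_
    have h1 := aeval_sub_mem (A := K) (J σ K[X] (n + 1)) (hFs' n) E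
    have h2 := J_anti (by omega : n + 1 ≤ n + 2) ((s n).2.eqs E hE)
    have h3 := (J σ K[X] (n + 1)).add_mem h1 h2
    rw [sub_add_cancel] at h3
    exact J_anti (by omega) h3

end Pool.Agent.VF.Fm
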