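import Pool.Agent.Lib_MP_1858fb_w.Obs
import Pool.Agent.Lib_MP_1858fb_w.FormalM

/-!
The obstruction lemma with MARKED POINTS, projectively: it is enough that the sections of degree
`≤ d - m` span the tangent space of the cone at every point TOGETHER WITH the vector `F` itself.
Any algebraically closed field, any characteristic.
-/

set_option autoImplicit false
set_option linter.unusedSectionVars false

namespace Pool.Agent.VF.Obs

open Polynomial Pool.Agent.VF.Fm

variable {k ι : Type*} [Field k] [Fintype ι]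

variable {F : ι → k[X]} {I : Ideal (MvPolynomial ι k)} {d : ℕ}

theorem sum_homog_add {o : MvPolynomial ι k → k[X]}
    (hadd : ∀ E ∈ I, ∀ E' ∈ I, o (E + E') = o E + o E') (h0 : o 0 = 0)
    {E : ℕ → MvPolynomial ι k} (s : Finset ℕ) (hE : ∀ e ∈ s, E e ∈ I) :
    o (∑ e ∈ s, E e) = ∑ e ∈ s, o (E e) := by
  classical
  induction s using Finset.induction_on with
  | empty => simpa using h0
  | insert a s ha ih =>
    rw [Finset.sum_insert ha, Finset.sum_insert ha,
      hadd _ (hE a (Finset.mem_insert_self a s)) _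
        (I.sum_mem fun e he => hE e (Finset.mem_insert_of_mem he)),
      ih fun e he => hE e (Finset.mem_insert_of_mem he)]

/-- Euler: `F` is a section of its own cone tangent bundle. -/
theorem isSec_self (hI : ∀ E ∈ I, ∀ e, MvPolynomial.homogeneousComponent e E ∈ I)
    (hFd : ∀ i, (F i).natDegree ≤ d) (hF : ∀ E ∈ I, MvPolynomial.aeval F E = 0) :
    IsSec F I d F := by
  refine ⟨hFd, fun E hE => ?_⟩
  have h1 : ∀ e, ∑ i, dif F (MvPolynomial.homogeneousComponent e E) i * F i = 0 := by
    intro e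
    have h2 := (MvPolynomial.homogeneousComponent_isHomogeneous e E).sum_X_mul_pderiv
    have h3 := congrArg (MvPolynomial.aeval F) h2
    rw [map_sum, map_nsmul, hF _ (hI E hE e), smul_zero] at h3
    rw [← h3]
    refine Finset.sum_congr rfl fun i _ => ?_
    rw [map_mul, MvPolynomial.aeval_X, mul_comm]
    rfl
  have h4 : E = ∑ e ∈ Finset.range (E.totalDegree + 1), MvPolynomial.homogeneousComponent e E :=
    (MvPolynomial.sum_homogeneousComponent E).symm
  have h5 := sum_homog_add (I := I) (o := fun E => ∑ i, dif F E i * F i)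
    (fun E _ E' _ => by simp only [dif_add, add_mul, Finset.sum_add_distrib])
    (by simp [dif]) (E := fun e => MvPolynomial.homogeneousComponent e E)
    (Finset.range (E.totalDegree + 1)) (fun e _ => hI E hE e)
  rw [← h4] at h5
  rw [h5]
  exact Finset.sum_eq_zero fun e _ => h1 e

theorem IsSec.add {D : ℕ} {g h : ι → k[X]} (hg : IsSec F I D g) (hh : IsSec F I D h) :
    IsSec F I D (fun i => g i + h i) :=
  ⟨fun i => (natDegree_add_le _ _).trans (max_le (hg.1 i) (hh.1 i)), fun E hE => by
    simp only [mul_add, Finset.sum_add_distrib, hg.2 E hE, hh.2 E hE, add_zero]⟩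

theorem IsSec.mul {D D' : ℕ} {g : ι → k[X]} (hg : IsSec F I D g) (r : k[X])
    (hr : r.natDegree + D ≤ D') : IsSec F I D' (fun i => r * g i) :=
  ⟨fun i => natDegree_mul_le.trans (by have := hg.1 i; omega), fun E hE => by
    have h1 : ∀ i, dif F E i * (r * g i) = r * (dif F E i * g i) := fun i => by ring
    simp only [h1, ← Finset.mul_sum, hg.2 E hE, mul_zero]⟩

theorem IsSec.sum {D : ℕ} {τ : Type*} (s : Finset τ) {g : τ → ι → k[X]}
    (hg : ∀ t ∈ s, IsSec F I D (g t)) : IsSec F I D (fun i => ∑ t ∈ s, g t i) := by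
  classical
  induction s using Finset.induction_on with
  | empty => exact ⟨fun i => by simp, fun E hE => by simp⟩
  | insert a s ha ih =>
    simp only [Finset.sum_insert ha]
    exact (hg a (Finset.mem_insert_self a s)).add
      (ih fun t ht => hg t (Finset.mem_insert_of_mem ht))

/-- **The obstruction lemma with marked points.** -/
theorem obs_marks [IsAlgClosed k] {m : ℕ} (hm : m ≤ d) {c : Fin m → k}
    (hc : Function.Injective c)
    (hI : ∀ E ∈ I, ∀ e, MvPolynomial.homogeneousComponent e E ∈ I)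
    (hFd : ∀ i, (F i).natDegree ≤ d) (hF : ∀ E ∈ I, MvPolynomial.aeval F E = 0)
    {r : ℕ} {a₀ : k} (hloc : LocGen F I r a₀)
    (hsp : ∀ a : k, ∀ x : ι → k, (∀ E ∈ I, ∑ i, (dif F E i).eval a * x i = 0) →
      ∃ g, IsSec F I (d - m) g ∧ ∃ s : k, ∀ i, (g i).eval a = x i + s * (F i).eval a)
    (hinf : ∀ x : ι → k, (∀ E ∈ I, ∀ e, E.IsHomogeneous e →
        ∑ i, (dif F E i).coeff (d * (e - 1)) * x i = 0) →
      ∃ g, IsSec F I (d - m) g ∧
        ∃ s : k, ∀ i, (g i).coeff (d - m) = x i + s * (F i).coeff d)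
    (o : MvPolynomial ι k → k[X])
    (hmul : ∀ E ∈ I, ∀ G, o (G * E) = MvPolynomial.aeval F G * o E)
    (hadd : ∀ E ∈ I, ∀ E' ∈ I, o (E + E') = o E + o E')
    (hmk : ∀ E ∈ I, ∀ e, E.IsHomogeneous e → ∀ a, (o E).eval (c a) = 0)
    (hdeg : ∀ E ∈ I, ∀ e, E.IsHomogeneous e → (o E).natDegree ≤ d * e) :
    ∃ δ : ι → k[X], Marked c F δ ∧ (∀ j, (δ j).natDegree ≤ d) ∧
      ∀ E ∈ I, ∑ j, MvPolynomial.aeval F (MvPolynomial.pderiv j E) * δ j = o E := by
  classical
  have hder : IsDer F I o := ⟨hadd, fun G E hE => hmul E hE G⟩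
  have hFs : IsSec F I d F := isSec_self hI hFd hF
  have hev : ∀ E ∈ I, ∀ a, (o E).eval (c a) = 0 := by
    intro E hE a
    have h4 : E = ∑ e ∈ Finset.range (E.totalDegree + 1),
        MvPolynomial.homogeneousComponent e E := (MvPolynomial.sum_homogeneousComponent E).symm
    have h5 := sum_homog_add hadd hder.zero (E := fun e => MvPolynomial.homogeneousComponent e E)
      (Finset.range (E.totalDegree + 1)) (fun e _ => hI E hE e)
    rw [← h4] at h5
    rw [h5, eval_finsetSum]
    exact Finset.sum_eq_zero fun e _ =>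
      hmk _ (hI E hE e) e (MvPolynomial.homogeneousComponent_isHomogeneous e E) a
  obtain ⟨δ, hδd, hδ⟩ := obs (D := d) hFd hF hloc
    (fun a x hx => by
      obtain ⟨g, hg, s, hs⟩ := hsp a x hx
      refine ⟨fun i => (1 : k[X]) * g i + C (-s) * F i,
        (hg.mul 1 (by simp)).add (hFs.mul (C (-s)) (by simp)), fun i => ?_⟩
      simp only [one_mul, eval_add, eval_mul, eval_C, hs i]
      ring)
    (fun x hx => by
      obtain ⟨g, hg, s, hs⟩ := hinf x hx
      refine ⟨fun i => X ^ m * g i + C (-s) * F i,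
        (hg.mul (X ^ m) (by rw [natDegree_X_pow]; omega)).add (hFs.mul (C (-s)) (by simp)),
        fun i => ?_⟩
      have h1 : (X ^ m * g i).coeff d = (g i).coeff (d - m) := by
        conv_lhs => rw [show d = (d - m) + m by omega]
        rw [coeff_X_pow_mul]
      rw [coeff_add, h1, coeff_C_mul, hs i]
      ring)
    hder (fun E hE e he => by
      have := hdeg E hE _ he
      rwa [Nat.mul_add, Nat.mul_one] at this)
  -- correction at the marks
  have htan : ∀ a : Fin m, ∀ E ∈ I, ∑ i, (dif F E i).eval (c a) * (δ i).eval (c a) = 0 := by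
    intro a E hE
    have h1 := congrArg (Polynomial.eval (c a)) (hδ E hE)
    rw [hev E hE a, eval_finsetSum] at h1
    rw [← h1]
    exact Finset.sum_congr rfl fun i _ => by rw [eval_mul]
  choose γ hγ s hs using fun a : Fin m => hsp (c a) (fun i => (δ i).eval (c a)) (htan a)
  let P : Fin m → k[X] := fun a => ∏ b ∈ Finset.univ.erase a, (X - C (c b))
  have hPdeg : ∀ a, (P a).natDegree + 1 ≤ m := by
    intro a
    have h1 : (P a).natDegree = (Finset.univ.erase a).card := by
      rw [natDegree_prod_of_monic _ _ fun b _ => monic_X_sub_C (c b)]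
      simp
    rw [h1, Finset.card_erase_of_mem (Finset.mem_univ a), Finset.card_univ, Fintype.card_fin]
    have := a.2
    omega
  have hP0 : ∀ a, (P a).eval (c a) ≠ 0 := by
    intro a
    rw [eval_prod, Finset.prod_ne_zero_iff]
    intro b hb
    rw [eval_sub, eval_X, eval_C, sub_ne_zero]
    exact fun h => (Finset.ne_of_mem_erase hb) (hc h.symm)
  have hPb : ∀ a b, b ≠ a → (P a).eval (c b) = 0 := by
    intro a b hb
    rw [eval_prod]
    exact Finset.prod_eq_zero (Finset.mem_erase.2 ⟨hb, Finset.mem_univ b⟩) (by simp)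
  have hcor : IsSec F I d (fun i => ∑ a, (C (-((P a).eval (c a))⁻¹) * P a) * γ a i) := by
    refine IsSec.sum _ fun a _ => (hγ a).mul _ ?_
    have h1 := natDegree_C_mul_le (-((P a).eval (c a))⁻¹) (P a)
    have h2 := hPdeg a
    omega
  refine ⟨fun i => δ i + ∑ a, (C (-((P a).eval (c a))⁻¹) * P a) * γ a i, fun b => ?_,
    fun i => (natDegree_add_le _ _).trans (max_le (hδd i) (hcor.1 i)), fun E hE => ?_⟩
  · refine ⟨- s b, fun i => ?_⟩
    rw [eval_add, eval_finsetSum, Finset.sum_eq_single b]
    · rw [eval_mul, eval_mul, eval_C, hs b i, neg_mul, inv_mul_cancel₀ (hP0 b)]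
      ring
    · intro a _ hab
      rw [eval_mul, eval_mul, hPb a b (Ne.symm hab), mul_zero, zero_mul]
    · intro h
      exact absurd (Finset.mem_univ b) h
  · have h1 := hδ E hE
    have h2 := hcor.2 E hE
    simp only [mul_add, Finset.sum_add_distrib]
    simp only [dif] at h1 h2
    rw [h1, h2, add_zero]

end Pool.Agent.VF.Obs
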