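import Pool.Agent.Lib_MP_1858fb_w.Ift

/-!
The implicit function theorem for polynomial systems over a commutative Banach algebra:
derivatives, differentiability of every order, naturality.
-/

namespace Pool.Agent.VF

open Filter Topology MvPolynomial

section Lip

variable {A : Type*} [NormedCommRing A]

/-- Polynomial maps are bounded on bounded sets. -/
theorem polyBdd {σ : Type*} [Fintype σ] (φ : MvPolynomial σ A) (R : ℝ) :
    ∃ M : ℝ, 0 ≤ M ∧ ∀ x : σ → A, ‖x‖ ≤ R → ‖eval x φ‖ ≤ M := by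
  induction φ using MvPolynomial.induction_on with
  | C a => exact ⟨‖a‖, norm_nonneg _, fun x _ => by rw [eval_C]⟩
  | add p q hp hq =>
    obtain ⟨M, hM0, hM⟩ := hp
    obtain ⟨M', hM0', hM'⟩ := hq
    refine ⟨M + M', add_nonneg hM0 hM0', fun x hx => ?_⟩
    rw [map_add]
    exact (norm_add_le _ _).trans (add_le_add (hM x hx) (hM' x hx))
  | mul_X p j hp =>
    obtain ⟨M, hM0, hM⟩ := hp
    refine ⟨M * |R|, mul_nonneg hM0 (abs_nonneg _), fun x hx => ?_⟩
    rw [map_mul, eval_X]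
    have hxj : ‖x j‖ ≤ |R| := (norm_le_pi_norm x j).trans (hx.trans (le_abs_self R))
    exact (norm_mul_le _ _).trans (mul_le_mul (hM x hx) hxj (norm_nonneg _) hM0)

/-- Polynomial maps are Lipschitz on bounded sets. -/
theorem polyLip {σ : Type*} [Fintype σ] (φ : MvPolynomial σ A) (R : ℝ) :
    ∃ L : ℝ, 0 ≤ L ∧ ∀ x y : σ → A, ‖x‖ ≤ R → ‖y‖ ≤ R →
      ‖eval x φ - eval y φ‖ ≤ L * ‖x - y‖ := by
  induction φ using MvPolynomial.induction_on with
  | C a => exact ⟨0, le_rfl, fun x y _ _ => by simp⟩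
  | add p q hp hq =>
    obtain ⟨M, hM0, hM⟩ := hp
    obtain ⟨M', hM0', hM'⟩ := hq
    refine ⟨M + M', add_nonneg hM0 hM0', fun x y hx hy => ?_⟩
    have e : eval x (p + q) - eval y (p + q) =
        (eval x p - eval y p) + (eval x q - eval y q) := by
      rw [map_add, map_add]; ring
    rw [e, add_mul]
    exact (norm_add_le _ _).trans (add_le_add (hM x y hx hy) (hM' x y hx hy))
  | mul_X p j hp =>
    obtain ⟨L, hL0, hL⟩ := hp
    obtain ⟨M, hM0, hM⟩ := polyBdd p R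
    refine ⟨L * |R| + M, add_nonneg (mul_nonneg hL0 (abs_nonneg _)) hM0,
      fun x y hx hy => ?_⟩
    have e : eval x (p * X j) - eval y (p * X j) =
        (eval x p - eval y p) * x j + eval y p * (x j - y j) := by
      rw [map_mul, map_mul, eval_X, eval_X]; ring
    rw [e, add_mul]
    have hxj : ‖x j‖ ≤ |R| := (norm_le_pi_norm x j).trans (hx.trans (le_abs_self R))
    have h1 : ‖x j - y j‖ ≤ ‖x - y‖ := norm_le_pi_norm (x - y) j
    have h2 : ‖(eval x p - eval y p) * x j‖ ≤ L * |R| * ‖x - y‖ := by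
      calc ‖(eval x p - eval y p) * x j‖ ≤ ‖eval x p - eval y p‖ * ‖x j‖ := norm_mul_le _ _
        _ ≤ (L * ‖x - y‖) * |R| :=
          mul_le_mul (hL x y hx hy) hxj (norm_nonneg _) (mul_nonneg hL0 (norm_nonneg _))
        _ = L * |R| * ‖x - y‖ := by ring
    have h3 : ‖eval y p * (x j - y j)‖ ≤ M * ‖x - y‖ :=
      (norm_mul_le _ _).trans (mul_le_mul (hM y hy) h1 (norm_nonneg _) hM0)
    exact (norm_add_le _ _).trans (add_le_add h2 h3)

end Lip

section Core

variable (𝕜 : Type*) [NontriviallyNormedField 𝕜] {A : Type*} [NormedCommRing A]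
  [NormedAlgebra 𝕜 A] [CompleteSpace A]
variable {m p : Type*} [Fintype m] [DecidableEq m] [Fintype p]

/-- The map given by the system. -/
noncomputable def sysMap (E : m → MvPolynomial (m ⊕ p) A) (v : (p → A) × (m → A)) : m → A :=
  fun i => eval (Sum.elim v.2 v.1) (E i)

/-- The derivative of the map given by the system. -/
noncomputable def sysDer (E : m → MvPolynomial (m ⊕ p) A) (x0 : m → A) (p0 : p → A) :
    (p → A) × (m → A) →L[𝕜] (m → A) :=
  ContinuousLinearMap.pi fun i => (∑ s, (eval (Sum.elim x0 p0) (pderiv s (E i))) •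
        (ContinuousLinearMap.proj (R := 𝕜) (φ := fun _ : m ⊕ p => A) s)).comp (elimCLM 𝕜 m p)

omit [CompleteSpace A] [DecidableEq m] in
theorem sysDer_apply (E : m → MvPolynomial (m ⊕ p) A) (x0 : m → A) (p0 : p → A)
    (v : (p → A) × (m → A)) (i : m) : sysDer 𝕜 E x0 p0 v i =
      ∑ j, eval (Sum.elim x0 p0) (pderiv (Sum.inl j) (E i)) * v.2 j +
      ∑ l, eval (Sum.elim x0 p0) (pderiv (Sum.inr l) (E i)) * v.1 l := by
  simp only [sysDer, ContinuousLinearMap.comp_apply,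
      ContinuousLinearMap.pi_apply, elimCLM_apply]
  simp only [add_apply, sum_apply, smul_apply,
      ContinuousLinearMap.proj_apply, smul_eq_mul, Fintype.sum_sum_type,
      Sum.elim_inl, Sum.elim_inr]

omit [CompleteSpace A] [DecidableEq m] in
theorem sysMap_strict (E : m → MvPolynomial (m ⊕ p) A) (x0 : m → A) (p0 : p → A) :
    HasStrictFDerivAt (sysMap E) (sysDer 𝕜 E x0 p0) (p0, x0) := by
  rw [hasStrictFDerivAt_pi']
  intro i
  have h1 : HasStrictFDerivAt (𝕜 := 𝕜) (fun y : (m ⊕ p) → A => eval y (E i))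
      (∑ s, (eval (Sum.elim x0 p0) (pderiv s (E i))) •
        (ContinuousLinearMap.proj (R := 𝕜) (φ := fun _ : m ⊕ p => A) s))
        (elimCLM 𝕜 m p (p0, x0)) := by
    rw [elimCLM_apply]
    exact hasStrictFDerivAt_mvPoly (E i) (Sum.elim x0 p0)
  have h2 := h1.comp (p0, x0) (elimCLM 𝕜 (A := A) m p).hasStrictFDerivAt
  have e1 : (fun x => eval (elimCLM 𝕜 m p x) (E i)) = fun v => sysMap E v i := by
    funext v
    simp only [elimCLM_apply, sysMap]
  rw [e1] at h2
  exact h2.congr_fderiv (ContinuousLinearMap.ext fun v => rfl)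

omit [CompleteSpace A] in
theorem sysDer_inv (E : m → MvPolynomial (m ⊕ p) A) (x0 : m → A) (p0 : p → A)
    (hJ : IsUnit (jac E x0 p0).det) :
    (sysDer 𝕜 E x0 p0 ∘L .inr 𝕜 (p → A) (m → A)).IsInvertible := by
  refine ⟨ContinuousLinearEquiv.equivOfInverse (mulVecCLM 𝕜 (jac E x0 p0))
    (mulVecCLM 𝕜 (jac E x0 p0)⁻¹) ?_ ?_, ?_⟩
  · intro v
    rw [mulVecCLM_apply, mulVecCLM_apply, Matrix.mulVec_mulVec,
      Matrix.nonsing_inv_mul _ hJ, Matrix.one_mulVec]
  · intro v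
    rw [mulVecCLM_apply, mulVecCLM_apply, Matrix.mulVec_mulVec,
      Matrix.mul_nonsing_inv _ hJ, Matrix.one_mulVec]
  · refine ContinuousLinearMap.ext fun v => ?_
    change mulVecCLM 𝕜 (jac E x0 p0) v = sysDer 𝕜 E x0 p0 (ContinuousLinearMap.inr 𝕜 _ _ v)
    rw [mulVecCLM_apply]
    ext i
    rw [sysDer_apply]
    simp only [ContinuousLinearMap.inr_apply, Pi.zero_apply, mul_zero, Finset.sum_const_zero,
      add_zero]
    rfl

/-- The germ of the implicit function at one point. -/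
theorem ift_core (E : m → MvPolynomial (m ⊕ p) A) (x0 : m → A) (p0 : p → A)
    (h0 : ∀ i, eval (Sum.elim x0 p0) (E i) = 0) (hJ : IsUnit (jac E x0 p0).det) :
    ∃ (X : (p → A) → (m → A)) (D : (p → A) →L[𝕜] (m → A)), X p0 = x0 ∧
      HasStrictFDerivAt X D p0 ∧
      (∀ v i, ∑ j, eval (Sum.elim x0 p0) (pderiv (Sum.inl j) (E i)) * D v j +
        ∑ l, eval (Sum.elim x0 p0) (pderiv (Sum.inr l) (E i)) * v l = 0) ∧
      (∀ᶠ v : (p → A) × (m → A) in 𝓝 (p0, x0),
        (∀ i, eval (Sum.elim v.2 v.1) (E i) = 0) ↔ X v.1 = v.2) := by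
  have hs := sysMap_strict 𝕜 E x0 p0
  have hinv := sysDer_inv 𝕜 E x0 p0 hJ
  have hf0 : sysMap E (p0, x0) = 0 := by
    funext i
    exact h0 i
  have hiff := hs.eventually_apply_eq_iff_implicitFunctionOfProdDomain hinv
  refine ⟨hs.implicitFunctionOfProdDomain hinv,
    (-(sysDer 𝕜 E x0 p0 ∘L .inr 𝕜 _ _).inverse ∘L (sysDer 𝕜 E x0 p0 ∘L .inl 𝕜 _ _)),
    (hiff.self_of_nhds).1 rfl, hs.hasStrictFDerivAt_implicitFunctionOfProdDomain hinv, ?_, ?_⟩
  · intro v i
    set D := (-(sysDer 𝕜 E x0 p0 ∘L .inr 𝕜 _ _).inverse ∘L (sysDer 𝕜 E x0 p0 ∘L .inl 𝕜 _ _))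
      with hD
    have h1 : sysDer 𝕜 E x0 p0 (v, D v) = 0 := by
      have h2 : (v, D v) = (ContinuousLinearMap.inl 𝕜 (p → A) (m → A) v) +
          (ContinuousLinearMap.inr 𝕜 (p → A) (m → A) (D v)) := by
        simp
      rw [h2, map_add]
      have h3 : sysDer 𝕜 E x0 p0 (ContinuousLinearMap.inr 𝕜 (p → A) (m → A) (D v)) =
          - sysDer 𝕜 E x0 p0 (ContinuousLinearMap.inl 𝕜 (p → A) (m → A) v) := by
        obtain ⟨e, he⟩ := hinv
        have h4 : ∀ w, sysDer 𝕜 E x0 p0 (ContinuousLinearMap.inr 𝕜 (p → A) (m → A) w) = e w := by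
          intro w
          have := congrArg (fun T : (m → A) →L[𝕜] (m → A) => T w) he
          simpa using this.symm
        rw [h4, hD]
        have h5 : (sysDer 𝕜 E x0 p0 ∘L .inr 𝕜 (p → A) (m → A)).inverse =
            (e.symm : (m → A) →L[𝕜] (m → A)) := by
          rw [← he]
          exact ContinuousLinearMap.inverse_equiv e
        rw [h5]
        simp
      rw [h3]
      simp
    have h6 := congrFun h1 i
    rw [sysDer_apply] at h6
    simpa using h6
  · filter_upwards [hiff] with v hv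
    rw [← hv, hf0]
    constructor
    · intro h
      funext i
      exact h i
    · intro h i
      exact congrFun h i

omit [CompleteSpace A] [Fintype m] [DecidableEq m] [Fintype p] in
/-- Two germs of solutions at a point agree. -/
theorem germ_eq (E : m → MvPolynomial (m ⊕ p) A) {x1 : m → A} {q : p → A}
    {X Y : (p → A) → (m → A)}
    (hX : ∀ᶠ v : (p → A) × (m → A) in 𝓝 (q, x1),
      (∀ i, eval (Sum.elim v.2 v.1) (E i) = 0) ↔ X v.1 = v.2)
    (hYq : Y q = x1) (hYc : ContinuousAt Y q)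
    (hY : ∀ᶠ v : (p → A) × (m → A) in 𝓝 (q, x1),
      (∀ i, eval (Sum.elim v.2 v.1) (E i) = 0) ↔ Y v.1 = v.2) :
    X =ᶠ[𝓝 q] Y := by
  have h1 : Tendsto (fun q' => (q', Y q')) (𝓝 q) (𝓝 (q, x1)) := by
    refine tendsto_id.prodMk_nhds ?_
    rw [← hYq]
    exact hYc
  filter_upwards [h1.eventually hX, h1.eventually hY] with q' a b
  exact a.1 (b.2 rfl)

/-- `X` is the local implicit function of the system `E` near `(x0, p0)`. -/
structure LocSol (E : m → MvPolynomial (m ⊕ p) A) (x0 : m → A) (p0 : p → A)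
    (X : (p → A) → (m → A)) (ε δ L : ℝ) : Prop where
  ε_pos : 0 < ε
  δ_pos : 0 < δ
  L_nonneg : 0 ≤ L
  base : X p0 = x0
  near : ∀ q, ‖q - p0‖ < δ → ‖X q - x0‖ < ε
  sol : ∀ q, ‖q - p0‖ < δ → ∀ i, eval (Sum.elim (X q) q) (E i) = 0
  unit : ∀ q, ‖q - p0‖ < δ → IsUnit (jac E (X q) q).det
  uniq : ∀ q x, ‖q - p0‖ < δ → ‖x - x0‖ < ε →
    (∀ i, eval (Sum.elim x q) (E i) = 0) → x = X q
  lip : ∀ q q', ‖q - p0‖ < δ → ‖q' - p0‖ < δ → ‖X q - X q'‖ ≤ L * ‖q - q'‖
  deriv : ∀ q, ‖q - p0‖ < δ → ∃ D : (p → A) →L[𝕜] (m → A), HasStrictFDerivAt X D q ∧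
    ∀ v i, ∑ j, eval (Sum.elim (X q) q) (pderiv (Sum.inl j) (E i)) * D v j +
        ∑ l, eval (Sum.elim (X q) q) (pderiv (Sum.inr l) (E i)) * v l = 0

/-- **The implicit function theorem** with derivatives on a whole ball. -/
theorem exists_locSol (E : m → MvPolynomial (m ⊕ p) A) (x0 : m → A) (p0 : p → A)
    (h0 : ∀ i, eval (Sum.elim x0 p0) (E i) = 0) (hJ : IsUnit (jac E x0 p0).det) :
    ∃ (X : (p → A) → (m → A)) (ε δ L : ℝ), LocSol 𝕜 E x0 p0 X ε δ L := by
  obtain ⟨X, D, hX0, hXs, -, hiff⟩ := ift_core 𝕜 E x0 p0 h0 hJ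
  have htend : Tendsto X (𝓝 p0) (𝓝 x0) := by
    have := hXs.continuousAt
    rwa [ContinuousAt, hX0] at this
  obtain ⟨K, s, hs, hlip⟩ := hXs.exists_lipschitzOnWith
  have hdet : ∀ᶠ v : (p → A) × (m → A) in 𝓝 (p0, x0), IsUnit (jac E v.2 v.1).det := by
    have hc : Continuous (fun v : (p → A) × (m → A) => (jac E v.2 v.1).det) := by
      refine Continuous.matrix_det ?_
      refine continuous_pi fun i => continuous_pi fun j => ?_
      have h1 : Continuous (fun v : (p → A) × (m → A) => elimCLM 𝕜 m p v) :=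
        (elimCLM 𝕜 m p).continuous
      have h2 : Continuous (fun v : (p → A) × (m → A) => Sum.elim v.2 v.1) := by
        simpa only [elimCLM_apply] using h1
      exact (MvPolynomial.continuous_eval _).comp h2
    exact (hc.continuousAt (x := (p0, x0))).eventually_mem (Units.isOpen.mem_nhds hJ)
  have hpair : Tendsto (fun q => (q, X q)) (𝓝 p0) (𝓝 (p0, x0)) :=
    (tendsto_id).prodMk_nhds htend
  have h4 : ∀ᶠ q in 𝓝 p0, IsUnit (jac E (X q) q).det := hpair.eventually hdet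
  have hiff2 := hpair.eventually hiff.eventually_nhds
  have hiff' := hiff
  rw [nhds_prod_eq, Filter.eventually_prod_iff] at hiff'
  obtain ⟨pa, hpa, pb, hpb, hab⟩ := hiff'
  obtain ⟨ε, hε, hεb⟩ := Metric.eventually_nhds_iff.1 hpb
  have h6 : ∀ᶠ q in 𝓝 p0, ‖X q - x0‖ < ε := by
    have := htend.eventually (Metric.ball_mem_nhds x0 hε)
    filter_upwards [this] with q hq
    simpa [dist_eq_norm] using hq
  have h7 : ∀ᶠ q in 𝓝 p0, pa q ∧ ‖X q - x0‖ < ε ∧ IsUnit (jac E (X q) q).det ∧ q ∈ s ∧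
      (∀ᶠ v : (p → A) × (m → A) in 𝓝 (q, X q),
        (∀ i, eval (Sum.elim v.2 v.1) (E i) = 0) ↔ X v.1 = v.2) := by
    filter_upwards [hpa, h6, h4, hs, hiff2] with q a b c d e using ⟨a, b, c, d, e⟩
  obtain ⟨δ, hδ, hδb⟩ := Metric.eventually_nhds_iff.1 h7
  have hball : ∀ q, ‖q - p0‖ < δ → pa q ∧ ‖X q - x0‖ < ε ∧ IsUnit (jac E (X q) q).det ∧ q ∈ s ∧
      (∀ᶠ v : (p → A) × (m → A) in 𝓝 (q, X q),
        (∀ i, eval (Sum.elim v.2 v.1) (E i) = 0) ↔ X v.1 = v.2) := by
    intro q hq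
    exact hδb (y := q) (by simpa [dist_eq_norm] using hq)
  have hsol : ∀ q, ‖q - p0‖ < δ → ∀ i, eval (Sum.elim (X q) q) (E i) = 0 := by
    intro q hq
    exact (hball q hq).2.2.2.2.self_of_nhds.2 rfl
  refine ⟨X, ε, δ, K, hε, hδ, K.2, hX0, fun q hq => (hball q hq).2.1, hsol,
    fun q hq => (hball q hq).2.2.1, ?_, ?_, ?_⟩
  · intro q x hq hx hE
    exact ((hab (hball q hq).1 (hεb (y := x) (by simpa [dist_eq_norm] using hx))).1 hE).symm
  · intro q q' hq hq'
    have := hlip.dist_le_mul q (hball q hq).2.2.2.1 q' (hball q' hq').2.2.2.1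
    simpa [dist_eq_norm] using this
  · intro q hq
    obtain ⟨Y, D', hY0, hYs, hYd, hYiff⟩ :=
      ift_core 𝕜 E (X q) q (hsol q hq) (hball q hq).2.2.1
    have heq : X =ᶠ[𝓝 q] Y :=
      germ_eq E (hball q hq).2.2.2.2 hY0 hYs.continuousAt hYiff
    exact ⟨D', hYs.congr_of_eventuallyEq heq.symm, hYd⟩

omit [NormedAlgebra 𝕜 A] [CompleteSpace A] in
theorem pi_map_norm_le {B : Type*} [NormedCommRing B] (φ : A →+* B) {C : ℝ}
    (hC : ∀ a, ‖φ a‖ ≤ C * ‖a‖) {κ : Type*} [Fintype κ] (a b : κ → A) :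
    ‖(fun i => φ (a i)) - (fun i => φ (b i))‖ ≤ |C| * ‖a - b‖ := by
  rw [pi_norm_le_iff_of_nonneg (mul_nonneg (abs_nonneg _) (norm_nonneg _))]
  intro i
  simp only [Pi.sub_apply]
  rw [← map_sub]
  refine (hC _).trans ?_
  exact mul_le_mul (le_abs_self C) (norm_le_pi_norm (a - b) i) (norm_nonneg _) (abs_nonneg _)

omit [CompleteSpace A] in
variable {𝕜} in
/-- **Naturality**: a bounded ring homomorphism maps the implicit function over `A` to the
implicit function over `B`. -/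
theorem LocSol.map {𝕜' : Type*} [NontriviallyNormedField 𝕜'] {B : Type*} [NormedCommRing B]
    [NormedAlgebra 𝕜' B] {E : m → MvPolynomial (m ⊕ p) A} {x0 : m → A} {p0 : p → A}
    {X : (p → A) → (m → A)} {ε δ L : ℝ} (h : LocSol 𝕜 E x0 p0 X ε δ L)
    (φ : A →+* B) {C : ℝ} (hC : ∀ a, ‖φ a‖ ≤ C * ‖a‖)
    {X' : (p → B) → (m → B)} {ε' δ' L' : ℝ}
    (h' : LocSol 𝕜' (fun i => MvPolynomial.map φ (E i)) (fun i => φ (x0 i)) (fun i => φ (p0 i))
      X' ε' δ' L') :
    ∃ δ₁ > 0, δ₁ ≤ δ ∧ ∀ q, ‖q - p0‖ < δ₁ →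
      ‖(fun i => φ (q i)) - (fun i => φ (p0 i))‖ < δ' ∧
      (fun i => φ (X q i)) = X' (fun i => φ (q i)) := by
  have hC1 : 0 < |C| + 1 := by positivity
  have hL1 : 0 < L + 1 := by linarith [h.L_nonneg]
  refine ⟨min δ (min (δ' / (|C| + 1)) (ε' / ((|C| + 1) * (L + 1)))),
    lt_min h.δ_pos (lt_min (div_pos h'.δ_pos hC1) (div_pos h'.ε_pos (mul_pos hC1 hL1))),
    min_le_left _ _, ?_⟩
  intro q hq
  have h1 : ‖q - p0‖ < δ := hq.trans_le (min_le_left _ _)
  have h2 : ‖q - p0‖ < δ' / (|C| + 1) :=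
    hq.trans_le ((min_le_right _ _).trans (min_le_left _ _))
  have h3 : ‖q - p0‖ < ε' / ((|C| + 1) * (L + 1)) :=
    hq.trans_le ((min_le_right _ _).trans (min_le_right _ _))
  have h4 : ‖(fun i => φ (q i)) - (fun i => φ (p0 i))‖ < δ' := by
    refine (pi_map_norm_le φ hC q p0).trans_lt ?_
    rw [lt_div_iff₀ hC1] at h2
    nlinarith [norm_nonneg (q - p0), abs_nonneg C]
  refine ⟨h4, h'.uniq _ _ h4 ?_ ?_⟩
  · have h5 : ‖X q - x0‖ ≤ L * ‖q - p0‖ := by
      have := h.lip q p0 h1 (by simpa using h.δ_pos)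
      rwa [h.base] at this
    refine (pi_map_norm_le φ hC (X q) x0).trans_lt ?_
    rw [lt_div_iff₀ (mul_pos hC1 hL1)] at h3
    have h6 : |C| * ‖X q - x0‖ ≤ |C| * (L * ‖q - p0‖) :=
      mul_le_mul_of_nonneg_left h5 (abs_nonneg _)
    have h7 : |C| * (L * ‖q - p0‖) ≤ ‖q - p0‖ * ((|C| + 1) * (L + 1)) := by
      have h8 : 0 ≤ ‖q - p0‖ := norm_nonneg _
      have h9 : 0 ≤ |C| := abs_nonneg _
      have h10 : 0 ≤ L := h.L_nonneg
      have h11 : 0 ≤ ‖q - p0‖ * (|C| + L + 1) := by positivity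
      nlinarith
    linarith
  · intro i
    have h5 := h.sol q h1 i
    have h6 : eval (Sum.elim (fun i => φ (X q i)) (fun i => φ (q i)))
        (MvPolynomial.map φ (E i)) = φ (eval (Sum.elim (X q) q) (E i)) := by
      rw [MvPolynomial.eval_map, MvPolynomial.eval, MvPolynomial.coe_eval₂Hom,
        MvPolynomial.eval₂_comp_left φ]
      congr 1
      funext s
      cases s <;> rfl
    rw [h6, h5, map_zero]

end Core

section Smooth

variable (𝕜 : Type*) [RCLike 𝕜] {A : Type*} [NormedCommRing A] [NormedAlgebra 𝕜 A]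

/-- Polynomial maps are differentiable to every order. -/
theorem contDiff_mvPoly {σ : Type*} [Fintype σ] (φ : MvPolynomial σ A) (n : WithTop ℕ∞) :
    ContDiff 𝕜 n (fun y : σ → A => eval y φ) := by
  induction φ using MvPolynomial.induction_on with
  | C a =>
    simp only [eval_C]
    exact contDiff_const
  | add p q hp hq =>
    simp only [map_add]
    exact hp.add hq
  | mul_X p j hp =>
    simp only [map_mul, eval_X]
    exact hp.mul (contDiff_apply 𝕜 A j)

variable [CompleteSpace A] {m p : Type*} [Fintype m] [DecidableEq m] [Fintype p]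

omit [CompleteSpace A] [DecidableEq m] in
theorem sysMap_contDiff (E : m → MvPolynomial (m ⊕ p) A) (n : WithTop ℕ∞) :
    ContDiff 𝕜 n (sysMap E) := by
  rw [contDiff_pi]
  intro i
  have h1 : ContDiff 𝕜 n (fun v : (p → A) × (m → A) => eval (elimCLM 𝕜 m p v) (E i)) :=
    (contDiff_mvPoly 𝕜 (E i) n).comp (elimCLM 𝕜 (A := A) m p).contDiff
  simp only [elimCLM_apply] at h1
  exact h1

variable {𝕜} in
/-- The implicit function is differentiable to every order. -/
theorem LocSol.contDiffAt {E : m → MvPolynomial (m ⊕ p) A} {x0 : m → A} {p0 : p → A}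
    {X : (p → A) → (m → A)} {ε δ L : ℝ} (h : LocSol 𝕜 E x0 p0 X ε δ L) (q : p → A)
    (hq : ‖q - p0‖ < δ) (n : WithTop ℕ∞) : ContDiffAt 𝕜 n X q := by
  have hc : ContDiffAt 𝕜 ⊤ (sysMap E) (q, X q) := (sysMap_contDiff 𝕜 E ⊤).contDiffAt
  have hfd : fderiv 𝕜 (sysMap E) (q, X q) = sysDer 𝕜 E (X q) q :=
    (sysMap_strict 𝕜 E (X q) q).hasFDerivAt.fderiv
  have hinv : (fderiv 𝕜 (sysMap E) (q, X q) ∘L .inr 𝕜 (p → A) (m → A)).IsInvertible := by
    rw [hfd]
    exact sysDer_inv 𝕜 E (X q) q (h.unit q hq)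
  have htop : (⊤ : WithTop ℕ∞) ≠ 0 := by simp
  have h1 := hc.contDiffAt_implicitFunction htop hinv
  have h2 := hc.eventually_apply_implicitFunction htop hinv
  have h3 := hc.implicitFunction_apply_self htop hinv
  set Y := hc.implicitFunction htop hinv with hY
  have h0 : sysMap E (q, X q) = 0 := by
    funext i
    exact h.sol q hq i
  have h4 : ∀ᶠ q' in 𝓝 q, ‖q' - p0‖ < δ := by
    have h5 : Continuous fun q' : p → A => ‖q' - p0‖ := by fun_prop
    exact h5.continuousAt.eventually_lt continuousAt_const hq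
  have h5 : ∀ᶠ q' in 𝓝 q, ‖Y q' - x0‖ < ε := by
    have h6 : ContinuousAt (fun q' => ‖Y q' - x0‖) q := by
      have := h1.continuousAt
      fun_prop
    refine h6.eventually_lt continuousAt_const ?_
    rw [h3]
    exact h.near q hq
  have h7 : Y =ᶠ[𝓝 q] X := by
    filter_upwards [h2, h4, h5] with q' a b c
    refine h.uniq q' (Y q') b c ?_
    intro i
    rw [h0] at a
    exact congrFun a i
  exact (h1.congr_of_eventuallyEq h7.symm).of_le le_top

end Smooth

end Pool.Agent.VF
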