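import Mathlib
import Pool.Agent.Lib_MP_1858fb_w.ChartC
import Pool.Agent.Lib_MP_1858fb_w.Ift2

/-!
# MP_1858fb_ag: holomorphic arcs through a smooth point

`exists_arc`: for a polynomial `G` that does not vanish identically on the irreducible locally
closed `V` and a smooth point `v` there is a holomorphic arc in `V` through `v` on which `G` does
not vanish identically.
-/

set_option autoImplicit false

namespace Pool.Agent.VF

open MvPolynomial Filter Topology Asymptotics

/-- splitting of the coordinates -/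
noncomputable def splitEquiv {c : ℕ} {σ : Type*} (e : Fin c → σ) (he : Function.Injective e) :
    Fin c ⊕ {j : σ // j ∉ Set.range e} ≃ σ :=
  Equiv.ofBijective (Sum.elim e fun j => (j : σ)) (by
    classical
    constructor
    · rintro (a | a) (b | b) h
      · exact congrArg Sum.inl (he h)
      · exact absurd ⟨a, h⟩ b.2
      · exact absurd ⟨b, h.symm⟩ a.2
      · exact congrArg Sum.inr (Subtype.ext h)
    · intro j
      by_cases hj : j ∈ Set.range e
      · obtain ⟨i, rfl⟩ := hj
        exact ⟨Sum.inl i, rfl⟩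
      · exact ⟨Sum.inr ⟨j, hj⟩, rfl⟩)

theorem splitEquiv_inl {c : ℕ} {σ : Type*} (e : Fin c → σ) (he : Function.Injective e)
    (i : Fin c) : splitEquiv e he (Sum.inl i) = e i := rfl

theorem splitEquiv_inr {c : ℕ} {σ : Type*} (e : Fin c → σ) (he : Function.Injective e)
    (j : {j : σ // j ∉ Set.range e}) : splitEquiv e he (Sum.inr j) = (j : σ) := rfl

theorem Irred.isPrime {k : Type} [Field k] {σ : Type} {V : Set (σ → k)} (h : Irred V) :
    (van V).IsPrime := by
  refine ⟨?_, fun {x y} hxy => h.2 x y hxy⟩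
  intro htop
  obtain ⟨x, hx⟩ := h.1
  have h1 : (1 : MvPolynomial σ k) ∈ van V := by rw [htop]; trivial
  have h2 := h1 x hx
  rw [map_one] at h2
  exact one_ne_zero h2

/-- **Holomorphic arcs through a smooth point.** -/
theorem exists_arc {N c : ℕ} {V : Set (Fin (N + 1) → ℂ)} (hV : LocClosed V) (hirr : Irred V)
    {v : Fin (N + 1) → ℂ} (hv : v ∈ V) (hs : SmoothAt c V v)
    (G : MvPolynomial (Fin (N + 1)) ℂ) (hG : G ∉ van V) :
    ∃ (r : ℝ) (a : ℂ → Fin (N + 1) → ℂ) (t₀ : ℂ), 0 < r ∧
      (∀ i, DifferentiableOn ℂ (fun t => a t i) (Metric.ball 0 r)) ∧ a 0 = v ∧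
      (∀ t ∈ Metric.ball (0 : ℂ) r, a t ∈ V) ∧ t₀ ∈ Metric.ball (0 : ℂ) r ∧
      aeval (a t₀) G ≠ 0 := by
  classical
  obtain ⟨E, H, e, hE, hH, hloc, he, hdet⟩ := exists_minor_smooth hs
  have hprime := hirr.isPrime
  have hv0 : ∀ f ∈ van V, eval v f = 0 := by
    intro f hf
    have := hf v hv
    rwa [aeval_eq_eval] at this
  have hdet' : (Matrix.of fun i j => eval v (pderiv (e j) (E i))).det ≠ 0 := by
    simpa only [aeval_eq_eval] using hdet
  -- the leading form and a direction
  obtain ⟨D, P, hP, hP0, hGP⟩ := exists_lead (van V) v hv0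
    (fun j : {j : Fin (N + 1) // j ∉ Set.range e} =>
      (X (j : Fin (N + 1)) - C (v j) : MvPolynomial (Fin (N + 1)) ℂ)) (fun i => by simp)
    (fun l => gen_of_minor (van V) v hv0 E hE e he hdet' l) G hG
  obtain ⟨d, hd⟩ : ∃ d : {j : Fin (N + 1) // j ∉ Set.range e} → ℂ, eval d P ≠ 0 := by
    by_contra hcon
    push Not at hcon
    exact hP0 (MvPolynomial.funext fun x => by rw [hcon x, map_zero])
  -- the solution of the equations
  set s := splitEquiv e he with hsdef
  set E' : Fin c → MvPolynomial (Fin c ⊕ {j : Fin (N + 1) // j ∉ Set.range e}) ℂ :=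
    fun i => rename s.symm (E i) with hE'
  set x0 : Fin c → ℂ := fun i => v (e i) with hx0
  set p0 : {j : Fin (N + 1) // j ∉ Set.range e} → ℂ := fun j => v j with hp0
  have hjoin : ∀ (u : Fin c → ℂ) (q : {j : Fin (N + 1) // j ∉ Set.range e} → ℂ)
      (f : MvPolynomial (Fin (N + 1)) ℂ),
      eval (Sum.elim u q) (rename s.symm f) = eval (Sum.elim u q ∘ s.symm) f := by
    intro u q f
    rw [eval_rename]
  have hbase : Sum.elim x0 p0 ∘ s.symm = v := by
    funext l
    obtain ⟨z, rfl⟩ := s.surjective l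
    rw [Function.comp_apply, Equiv.symm_apply_apply]
    rcases z with i | j
    · rfl
    · rfl
  have h0 : ∀ i, eval (Sum.elim x0 p0) (E' i) = 0 := by
    intro i
    rw [hE', hjoin, hbase]
    exact hv0 _ (hE i)
  have hJ : IsUnit (jac E' x0 p0).det := by
    have : jac E' x0 p0 = Matrix.of fun i j => eval v (pderiv (e j) (E i)) := by
      ext i j
      show eval (Sum.elim x0 p0) (pderiv (Sum.inl j) (rename s.symm (E i))) = _
      have h1 : (Sum.inl j : Fin c ⊕ {j : Fin (N + 1) // j ∉ Set.range e}) = s.symm (e j) := by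
        rw [Equiv.eq_symm_apply]
        rfl
      rw [h1, pderiv_rename s.symm.injective, hjoin, hbase]
      rfl
    rw [this]
    exact Ne.isUnit hdet'
  obtain ⟨Xs, ε, δ, L, hX⟩ := exists_locSol (𝕜 := ℂ) E' x0 p0 h0 hJ
  set q : ℂ → {j : Fin (N + 1) // j ∉ Set.range e} → ℂ := fun t => p0 + t • d with hq
  set a : ℂ → Fin (N + 1) → ℂ := fun t => Sum.elim (Xs (q t)) (q t) ∘ s.symm with ha
  have ha_inl : ∀ t i, a t (e i) = Xs (q t) i := by
    intro t i
    have : s.symm (e i) = Sum.inl i := by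
      rw [Equiv.symm_apply_eq]; rfl
    simp only [ha, Function.comp_apply, this, Sum.elim_inl]
  have ha_inr : ∀ t (j : {j : Fin (N + 1) // j ∉ Set.range e}), a t j = v j + t * d j := by
    intro t j
    have : s.symm (j : Fin (N + 1)) = Sum.inr j := by
      rw [Equiv.symm_apply_eq]; rfl
    simp only [ha, Function.comp_apply, this, Sum.elim_inr, hq, Pi.add_apply, Pi.smul_apply,
      smul_eq_mul, hp0]
  have ha0 : a 0 = v := by
    have : q 0 = p0 := by simp [hq]
    simp only [ha, this, hX.base]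
    exact hbase
  have hqcont : Continuous q := by
    rw [hq]; fun_prop
  -- the ball on which everything is defined
  have hnear : ∀ᶠ t in 𝓝 (0 : ℂ), ‖q t - p0‖ < δ := by
    have h1 : Tendsto (fun t => ‖q t - p0‖) (𝓝 0) (𝓝 ‖q 0 - p0‖) :=
      ((hqcont.sub continuous_const).norm).tendsto 0
    have h2 : ‖q 0 - p0‖ = 0 := by simp [hq]
    rw [h2] at h1
    exact h1.eventually_lt_const hX.δ_pos
  have hEa : ∀ t, ‖q t - p0‖ < δ → ∀ i, eval (a t) (E i) = 0 := by
    intro t ht i
    have := hX.sol (q t) ht i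
    rwa [hE', hjoin] at this
  have hdiff : ∀ t, ‖q t - p0‖ < δ → ∀ l, DifferentiableAt ℂ (fun t => a t l) t := by
    intro t ht l
    obtain ⟨z, rfl⟩ := s.surjective l
    rcases z with i | j
    · have e1 : (fun t => a t (s (Sum.inl i))) = fun t => Xs (q t) i := by
        funext t
        exact ha_inl t i
      rw [e1]
      obtain ⟨Dq, hDq, -⟩ := hX.deriv (q t) ht
      have h1 : DifferentiableAt ℂ Xs (q t) := hDq.hasFDerivAt.differentiableAt
      have h2 : DifferentiableAt ℂ q t := by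
        rw [hq]; fun_prop
      have h3 : DifferentiableAt ℂ (fun t => Xs (q t)) t := h1.comp t h2
      exact (differentiableAt_pi.1 h3) i
    · have e1 : (fun t => a t (s (Sum.inr j))) = fun t => v j + t * d j := by
        funext t
        exact ha_inr t j
      rw [e1]
      fun_prop
  have hd0 : ‖q 0 - p0‖ < δ := by
    have h2 : ‖q 0 - p0‖ = 0 := by simp [hq]
    rw [h2]
    exact hX.δ_pos
  have hacont : ContinuousAt a 0 := by
    rw [continuousAt_pi]
    intro l
    exact (hdiff 0 hd0 l).continuousAt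
  have hev : ∀ F : MvPolynomial (Fin (N + 1)) ℂ, eval v F ≠ 0 → ∀ᶠ t in 𝓝 (0 : ℂ),
      eval (a t) F ≠ 0 := by
    intro F hF
    have h1 : ContinuousAt (fun t => eval (a t) F) 0 := by
      have h2 : ContinuousAt (fun x : Fin (N + 1) → ℂ => eval x F) (a 0) :=
        (MvPolynomial.continuous_eval F).continuousAt
      exact ContinuousAt.comp (f := a) h2 hacont
    have h3 : eval (a 0) F ≠ 0 := by rw [ha0]; exact hF
    exact h1.eventually_ne h3
  have hHv : eval v H ≠ 0 := by rwa [aeval_eq_eval] at hH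
  have hvan : ∀ᶠ t in 𝓝 (0 : ℂ), ∀ f ∈ van V, aeval (a t) f = 0 := by
    filter_upwards [hnear, hev H hHv] with t ht hHt f hf
    rw [aeval_eq_eval]
    have h1 := hloc f hf
    have h2 : Ideal.span (Set.range E) ≤ RingHom.ker (eval (a t)) := by
      rw [Ideal.span_le]
      rintro _ ⟨i, rfl⟩
      exact hEa t ht i
    have h3 := h2 h1
    rw [RingHom.mem_ker, map_mul] at h3
    rcases mul_eq_zero.1 h3 with h | h
    · exact absurd h hHt
    · exact h
  obtain ⟨I, J, hIJ, hVeq⟩ := hV
  have hIV : ∀ f ∈ I, f ∈ van V := by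
    intro f hf x hx
    rw [hVeq] at hx
    exact hx.2.1 f hf
  have hmem : ∀ᶠ t in 𝓝 (0 : ℂ), a t ∈ V := by
    have hv' := hv
    rw [hVeq] at hv'
    obtain ⟨hvne, -, G0, hG0, hG0v⟩ := hv'
    obtain ⟨l, hl⟩ := Function.ne_iff.1 hvne
    have h1 := hev G0 (by rwa [aeval_eq_eval] at hG0v)
    have h2 := hev (X l) (by rw [eval_X]; exact hl)
    filter_upwards [hvan, h1, h2] with t ht1 ht2 ht3
    rw [hVeq]
    refine ⟨?_, fun f hf => ht1 f (hIV f hf), G0, hG0, by rw [aeval_eq_eval]; exact ht2⟩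
    intro h
    rw [eval_X, h] at ht3
    exact ht3 rfl
  obtain ⟨r, hr, hball⟩ := Metric.eventually_nhds_iff_ball.1 (hnear.and hmem)
  have hne : ∀ᶠ t in 𝓝[≠] (0 : ℂ), aeval (a t) G ≠ 0 := by
    refine arc_ne (van V) v _ G P hP hGP a ?_ hvan d ?_ (by rwa [aeval_eq_eval])
    · intro l
      have h1 := (hdiff 0 hd0 l).isBigO_sub
      simp only [ha0, sub_zero] at h1
      exact h1
    · refine Eventually.of_forall fun t j => ?_
      rw [map_sub, aeval_X, aeval_C, ha_inr]
      simp
  obtain ⟨t₀, ht₀⟩ := (hne.and (nhdsWithin_le_nhds (Metric.ball_mem_nhds (0 : ℂ) hr))).exists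
  refine ⟨r, a, t₀, hr, ?_, ha0, fun t ht => (hball t ht).2, ht₀.2, ht₀.1⟩
  intro i t ht
  exact (hdiff t (hball t ht).1 i).differentiableWithinAt

end Pool.Agent.VF
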