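import Pool.Agent.Lib_MP_1858fb_w.Base0
import Pool.Agent.Lib_MP_1858fb_w.Arc

/-!
# MP_1858fb_ag, B1: an analytic disc through a point and a root of the family on it
-/

namespace Pool.Agent.VF

open MvPolynomial

/-- An analytic disc `α` in `V` through `v`, already pulled back by `t = τ^e` and rescaled, and a
holomorphic root `θ` on the punctured disc. -/
theorem exists_base {N c d m : ℕ} {V : Set (Fin (N + 1) → ℂ)} (hV : LocClosed V)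
    (hirr : Irred V) (hsm : ∀ x ∈ V, SmoothAt c V x) {cm : Fin m → ℂ}
    {vs : Fin m → Fin (N + 1) → ℂ} (Fam : Family V cm vs d) {v : Fin (N + 1) → ℂ} (hv : v ∈ V)
    (Ch : Chart c V v) :
    ∃ y ∈ V, ∃ (ρ : ℝ) (α : ℂ → Fin (N + 1) → ℂ) (θ : ℂ → ℂ), 1 < ρ ∧
      (∀ i, DifferentiableOn ℂ (fun τ => α τ i) (Metric.ball 0 ρ)) ∧ α 0 = v ∧
      (∀ τ ∈ Metric.ball (0 : ℂ) ρ, α τ ∈ V ∧ aeval (α τ) Ch.H ≠ 0 ∧
        aeval (α τ) (Matrix.det (Matrix.of fun i j => pderiv j (Ch.Φ i))) ≠ 0) ∧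
      DifferentiableOn ℂ θ (Metric.ball 0 ρ \ {0}) ∧
      ∀ τ ∈ Metric.ball (0 : ℂ) ρ, τ ≠ 0 →
        aeval (Sum.elim y (α τ)) Fam.D ≠ 0 ∧ evT y (α τ) (θ τ) Fam.P = 0 :=
  exists_base_of_arc Fam Ch (fun G hG => exists_arc hV hirr hv (hsm v hv) G hG)

end Pool.Agent.VF
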