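import Pool.Agent.Lib_MP_1858fb_w.BaseRoot

/-!
# MP_1858fb_ag: `exists_base` from the existence of arcs

`exists_base_of_arc`: the hypothesis `harc` says that for each polynomial `G` that does not vanish
identically on `V` there is an arc in `V` through `v` on which `G` does not vanish identically.
-/

namespace Pool.Agent.VF

open MvPolynomial

/-- The specialisation of the first group of variables. -/
theorem exists_specialise {N : ℕ} (D : MvPolynomial (Fin (N + 1) ⊕ Fin (N + 1)) ℂ)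
    (y : Fin (N + 1) → ℂ) : ∃ G : MvPolynomial (Fin (N + 1)) ℂ,
      ∀ z : Fin (N + 1) → ℂ, aeval z G = aeval (Sum.elim y z) D := by
  refine ⟨aeval (Sum.elim (fun i => C (y i)) X) D, fun z => ?_⟩
  have h : (aeval z : MvPolynomial (Fin (N + 1)) ℂ →ₐ[ℂ] ℂ).comp
      (aeval (Sum.elim (fun i => C (y i)) X)) = aeval (Sum.elim y z) := by
    apply MvPolynomial.algHom_ext
    rintro (i | i)
    · simp [AlgHom.comp_apply]
    · simp [AlgHom.comp_apply]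
  exact congrArg (fun g => g D) h

theorem exists_base_of_arc {N c d m : ℕ} {V : Set (Fin (N + 1) → ℂ)} {cm : Fin m → ℂ}
    {vs : Fin m → Fin (N + 1) → ℂ} (Fam : Family V cm vs d) {v : Fin (N + 1) → ℂ}
    (Ch : Chart c V v)
    (harc : ∀ G : MvPolynomial (Fin (N + 1)) ℂ, G ∉ van V →
      ∃ (r : ℝ) (a : ℂ → Fin (N + 1) → ℂ) (t₀ : ℂ), 0 < r ∧
        (∀ i, DifferentiableOn ℂ (fun t => a t i) (Metric.ball 0 r)) ∧ a 0 = v ∧
        (∀ t ∈ Metric.ball (0 : ℂ) r, a t ∈ V) ∧ t₀ ∈ Metric.ball (0 : ℂ) r ∧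
        aeval (a t₀) G ≠ 0) :
    ∃ y ∈ V, ∃ (ρ : ℝ) (α : ℂ → Fin (N + 1) → ℂ) (θ : ℂ → ℂ), 1 < ρ ∧
      (∀ i, DifferentiableOn ℂ (fun τ => α τ i) (Metric.ball 0 ρ)) ∧ α 0 = v ∧
      (∀ τ ∈ Metric.ball (0 : ℂ) ρ, α τ ∈ V ∧ aeval (α τ) Ch.H ≠ 0 ∧
        aeval (α τ) (Matrix.det (Matrix.of fun i j => pderiv j (Ch.Φ i))) ≠ 0) ∧
      DifferentiableOn ℂ θ (Metric.ball 0 ρ \ {0}) ∧
      ∀ τ ∈ Metric.ball (0 : ℂ) ρ, τ ≠ 0 →
        aeval (Sum.elim y (α τ)) Fam.D ≠ 0 ∧ evT y (α τ) (θ τ) Fam.P = 0 := by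
  have h1 : ∃ x ∈ prodSet V V, aeval x Fam.D ≠ 0 := by
    by_contra hcon
    push Not at hcon
    exact Fam.hD hcon
  obtain ⟨x, ⟨hx1, hx2⟩, hxD⟩ := h1
  have hxe : x = Sum.elim (fun i => x (Sum.inl i)) (fun j => x (Sum.inr j)) := by
    ext (i | j) <;> rfl
  obtain ⟨G, hG⟩ := exists_specialise Fam.D (fun i => x (Sum.inl i))
  have hGV : G ∉ van V := by
    intro h
    have h2 := h _ hx2
    rw [hG, ← hxe] at h2
    exact hxD h2
  obtain ⟨r, a, t₀, hr, ha, ha0, haV, ht₀, haG⟩ := harc G hGV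
  refine ⟨_, hx1, ?_⟩
  refine base_of_arc Fam hx1 Ch hr ha ha0 haV ht₀ ?_
  rw [← hG]
  exact haG

end Pool.Agent.VF
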