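import Mathlib

/-!
# Roots of a polynomial over a punctured disc become single valued after a root extraction
-/

set_option autoImplicit false

namespace Pool.Agent.VF1858.Mono

open Filter Topology Polynomial

theorem isInvertible_of_apply_one (L : ℂ →L[ℂ] ℂ) (h : L 1 ≠ 0) : L.IsInvertible := by
  refine ⟨ContinuousLinearEquiv.unitsEquivAut ℂ (Units.mk0 (L 1) h), ?_⟩
  ext
  simp

theorem local_root {E : Type*} [NormedAddCommGroup E] [NormedSpace ℂ E] [CompleteSpace E]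
    (Q : E → Polynomial ℂ) (d : ℕ) (w0 : E) (θ0 : ℂ)
    (hdeg : ∀ᶠ w in 𝓝 w0, (Q w).natDegree ≤ d)
    (hcoef : ∀ i, ContDiffAt ℂ 1 (fun w => (Q w).coeff i) w0)
    (hroot : (Q w0).IsRoot θ0) (hsimple : (Q w0).derivative.eval θ0 ≠ 0) :
    ∃ ψ : E → ℂ, ψ w0 = θ0 ∧ DifferentiableAt ℂ ψ w0 ∧
      ∀ᶠ v in 𝓝 (w0, θ0), (Q v.1).IsRoot v.2 ↔ ψ v.1 = v.2 := by
  let F : E × ℂ → ℂ := fun v => ∑ i ∈ Finset.range (d + 1), (Q v.1).coeff i * v.2 ^ i
  have hF : ContDiffAt ℂ 1 F (w0, θ0) := by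
    refine ContDiffAt.sum fun i _ => ?_
    exact ((hcoef i).comp (w0, θ0) contDiffAt_fst).mul (contDiffAt_snd.pow i)
  have hstrict : HasStrictFDerivAt F (fderiv ℂ F (w0, θ0)) (w0, θ0) :=
    hF.hasStrictFDerivAt one_ne_zero
  have heval : ∀ᶠ v in 𝓝 (w0, θ0), (Q v.1).eval v.2 = F v := by
    have : ∀ᶠ v : E × ℂ in 𝓝 (w0, θ0), (Q v.1).natDegree ≤ d :=
      (continuous_fst.tendsto (w0, θ0)).eventually hdeg
    filter_upwards [this] with v hv
    exact Polynomial.eval_eq_sum_range' (Nat.lt_succ_of_le hv) v.2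
  have h0 : ∀ θ, F (w0, θ) = (Q w0).eval θ := by
    intro θ
    exact (Polynomial.eval_eq_sum_range' (Nat.lt_succ_of_le hdeg.self_of_nhds) θ).symm
  have hF0 : F (w0, θ0) = 0 := (h0 θ0).trans hroot
  have hd : (fderiv ℂ F (w0, θ0) ∘L ContinuousLinearMap.inr ℂ E ℂ) 1 =
      (Q w0).derivative.eval θ0 := by
    have h1 : HasFDerivAt (fun θ : ℂ => F (w0, θ))
        (fderiv ℂ F (w0, θ0) ∘L ContinuousLinearMap.inr ℂ E ℂ) θ0 := by
      have := hstrict.hasFDerivAt.comp θ0 (hasFDerivAt_prodMk_right w0 θ0)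
      exact this
    have h2 : HasFDerivAt (fun θ : ℂ => F (w0, θ))
        (ContinuousLinearMap.toSpanSingleton ℂ ((Q w0).derivative.eval θ0)) θ0 := by
      have := (Q w0).hasDerivAt θ0
      simp only [h0]
      exact this.hasFDerivAt
    rw [h1.unique h2]
    simp
  have hinv : (fderiv ℂ F (w0, θ0) ∘L ContinuousLinearMap.inr ℂ E ℂ).IsInvertible :=
    isInvertible_of_apply_one _ (by rw [hd]; exact hsimple)
  refine ⟨hstrict.implicitFunctionOfProdDomain hinv, ?_, ?_, ?_⟩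
  · exact (hstrict.eventually_apply_eq_iff_implicitFunctionOfProdDomain hinv).self_of_nhds.mp rfl
  · exact (hstrict.hasStrictFDerivAt_implicitFunctionOfProdDomain hinv).hasFDerivAt.differentiableAt
  · filter_upwards [hstrict.eventually_apply_eq_iff_implicitFunctionOfProdDomain hinv, heval]
      with v hv hv2
    rw [Polynomial.IsRoot.def, hv2, ← hv, hF0]


section cover

variable (U : Set ℂ) (Q : ℂ → Polynomial ℂ) (d : ℕ)

/-- the curve of the roots over `U` -/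
abbrev Cov : Type := {p : U × ℂ // (Q p.1).IsRoot p.2}

/-- the projection to `U` -/
def pr (e : Cov U Q) : U := e.1.1

variable {U Q d}

theorem continuous_pr : Continuous (pr U Q) := by
  unfold pr
  fun_prop

theorem continuous_eval (hcoef : ∀ i, ContinuousOn (fun w => (Q w).coeff i) U)
    (hdeg : ∀ w ∈ U, (Q w).natDegree = d) :
    Continuous (fun p : U × ℂ => (Q p.1).eval p.2) := by
  have h : (fun p : U × ℂ => (Q p.1).eval p.2) =
      fun p : U × ℂ => ∑ i ∈ Finset.range (d + 1), (Q p.1).coeff i * p.2 ^ i := by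
    funext p
    exact Polynomial.eval_eq_sum_range' (Nat.lt_succ_of_le (hdeg p.1 p.1.2).le) p.2
  rw [h]
  refine continuous_finsetSum _ fun i _ => ?_
  have h1 : Continuous (fun w : U => (Q w).coeff i) :=
    continuousOn_iff_continuous_domRestrict.mp (hcoef i)
  exact (h1.comp continuous_fst).mul (continuous_snd.pow i)

theorem root_bound (hcoef : ∀ i, ContinuousOn (fun w => (Q w).coeff i) U)
    (hdeg : ∀ w ∈ U, (Q w).natDegree = d) (hd : 0 < d) {K : Set U} (hK : IsCompact K) :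
    ∃ R : ℝ, ∀ w ∈ K, ∀ θ, (Q w).IsRoot θ → ‖θ‖ ≤ R := by
  have h1 : ∀ i, Continuous (fun w : U => (Q w).coeff i) := fun i =>
    continuousOn_iff_continuous_domRestrict.mp (hcoef i)
  have hlc : ∀ w : U, (Q w).coeff d ≠ 0 := by
    intro w h
    have h2 : (Q w).leadingCoeff = 0 := by
      rw [Polynomial.leadingCoeff, hdeg w w.2]; exact h
    have h3 : Q w = 0 := Polynomial.leadingCoeff_eq_zero.mp h2
    have := hdeg w w.2
    rw [h3, Polynomial.natDegree_zero] at this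
    omega
  have h2 : Continuous (fun w : U => (∑ i ∈ Finset.range d, ‖(Q w).coeff i‖) / ‖(Q w).coeff d‖ + 1) := by
    refine Continuous.add (Continuous.div (continuous_finsetSum _ fun i _ => (h1 i).norm)
      (h1 d).norm fun w => ?_) continuous_const
    exact norm_ne_zero_iff.mpr (hlc w)
  obtain ⟨C, hC⟩ := hK.exists_bound_of_continuousOn h2.continuousOn
  refine ⟨C, fun w hw θ hθ => ?_⟩
  have hne : Q w ≠ 0 := by
    intro h
    exact hlc w (by rw [h]; simp)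
  have h3 := hθ.norm_lt_cauchyBound hne
  have h4 : ((Q w).cauchyBound : ℝ) ≤ (∑ i ∈ Finset.range d, ‖(Q w).coeff i‖) / ‖(Q w).coeff d‖ + 1 := by
    unfold Polynomial.cauchyBound
    rw [Polynomial.leadingCoeff, hdeg w w.2]
    push_cast
    gcongr
    have h8 : (Finset.range d).sup (fun x => ‖(Q w).coeff x‖₊) ≤
        ∑ i ∈ Finset.range d, ‖(Q w).coeff i‖₊ :=
      Finset.sup_le fun i hi => Finset.single_le_sum (f := fun i => ‖(Q w).coeff i‖₊)
        (fun _ _ => zero_le) hi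
    calc (((Finset.range d).sup fun x => ‖(Q w).coeff x‖₊ : NNReal) : ℝ)
        ≤ ((∑ i ∈ Finset.range d, ‖(Q w).coeff i‖₊ : NNReal) : ℝ) := by exact_mod_cast h8
      _ = ∑ i ∈ Finset.range d, ‖(Q w).coeff i‖ := by push_cast; rfl
  have h5 := hC w hw
  rw [Real.norm_eq_abs] at h5
  have h6 := le_abs_self ((∑ i ∈ Finset.range d, ‖(Q w).coeff i‖) / ‖(Q w).coeff d‖ + 1)
  have h7 : ‖θ‖ < ((Q w).cauchyBound : ℝ) := by exact_mod_cast h3
  linarith

/-- the hypotheses: degree `d > 0`, only simple roots, holomorphic coefficients -/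
structure Hyp (U : Set ℂ) (Q : ℂ → Polynomial ℂ) (d : ℕ) : Prop where
  hU : IsOpen U
  hd : 0 < d
  hdeg : ∀ w ∈ U, (Q w).natDegree = d
  hsep : ∀ w ∈ U, (Q w).Separable
  hcoef : ∀ i, DifferentiableOn ℂ (fun w => (Q w).coeff i) U

theorem Hyp.local_root (h : Hyp U Q d) {w0 : ℂ} (hw0 : w0 ∈ U) {θ0 : ℂ} (hroot : (Q w0).IsRoot θ0) :
    ∃ ψ : ℂ → ℂ, ψ w0 = θ0 ∧ DifferentiableAt ℂ ψ w0 ∧
      ∀ᶠ v in 𝓝 (w0, θ0), (Q v.1).IsRoot v.2 ↔ ψ v.1 = v.2 := by
  refine Mono.local_root Q d w0 θ0 ?_ ?_ hroot ?_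
  · filter_upwards [h.hU.mem_nhds hw0] with w hw
    exact (h.hdeg w hw).le
  · intro i
    exact ((h.hcoef i).contDiffOn h.hU).contDiffAt (h.hU.mem_nhds hw0)
  · obtain ⟨a, b, hab⟩ := h.hsep w0 hw0
    intro h0
    have := congrArg (Polynomial.eval θ0) hab
    rw [Polynomial.eval_add, Polynomial.eval_mul, Polynomial.eval_mul, h0, hroot.eq_zero] at this
    simp at this

theorem Hyp.isProperMap (h : Hyp U Q d) : IsProperMap (pr U Q) := by
  have : LocallyCompactSpace U := h.hU.locallyCompactSpace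
  rw [isProperMap_iff_isCompact_preimage]
  refine ⟨continuous_pr, fun {K} hK => ?_⟩
  have hc : ∀ i, ContinuousOn (fun w => (Q w).coeff i) U := fun i => (h.hcoef i).continuousOn
  obtain ⟨R, hR⟩ := root_bound hc h.hdeg h.hd hK
  have hcl : IsClosed {p : U × ℂ | (Q p.1).IsRoot p.2} :=
    isClosed_eq (continuous_eval hc h.hdeg) continuous_const
  have h1 : pr U Q ⁻¹' K = (Subtype.val : Cov U Q → U × ℂ) ⁻¹' (K ×ˢ Metric.closedBall 0 R) := by
    ext e
    constructor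
    · intro he
      exact ⟨he, mem_closedBall_zero_iff.mpr (hR _ he _ e.2)⟩
    · intro he
      exact he.1
  rw [h1]
  exact hcl.isClosedEmbedding_subtypeVal.isCompact_preimage (hK.prod (isCompact_closedBall 0 R))

theorem Hyp.finite_fiber (h : Hyp U Q d) (w : U) : (pr U Q ⁻¹' {w}).Finite := by
  have hne : Q w ≠ 0 := by
    intro h0
    have := h.hdeg w w.2
    rw [h0, Polynomial.natDegree_zero] at this
    have := h.hd
    omega
  refine Set.Finite.of_finite_image (f := fun e : Cov U Q => e.1.2) ?_ ?_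
  · refine (Q w).roots.toFinset.finite_toSet.subset ?_
    rintro _ ⟨e, he, rfl⟩
    have he' : e.1.1 = w := he
    rw [Finset.mem_coe, Multiset.mem_toFinset, Polynomial.mem_roots hne, ← he']
    exact e.2
  · intro e he e' he' hee
    have h1 : e.1.1 = w := he
    have h2 : e'.1.1 = w := he'
    exact Subtype.ext (Prod.ext (h1.trans h2.symm) hee)

theorem Hyp.isOpenMap (h : Hyp U Q d) : IsOpenMap (pr U Q) := by
  rw [isOpenMap_iff_nhds_le]
  intro e s hs
  obtain ⟨ψ, hψ0, hψd, hψ⟩ := h.local_root e.1.1.2 e.2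
  rw [Filter.mem_map, nhds_subtype_eq_comap, Filter.mem_comap] at hs
  obtain ⟨T, hT, hTs⟩ := hs
  have hψc : Filter.Tendsto (fun w : U => ψ w) (𝓝 e.1.1) (𝓝 e.1.2) := by
    have h1 : Filter.Tendsto ψ (𝓝 (e.1.1 : ℂ)) (𝓝 e.1.2) := by
      have := hψd.continuousAt.tendsto
      rwa [hψ0] at this
    exact h1.comp (continuous_subtype_val.tendsto e.1.1)
  have h1 : Filter.Tendsto (fun w : U => (w, ψ w)) (𝓝 e.1.1) (𝓝 e.1) := by
    have := (Filter.tendsto_id (α := U) (x := 𝓝 e.1.1)).prodMk_nhds hψc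
    exact this
  have h2 : Filter.Tendsto (fun w : U => ((w : ℂ), ψ w)) (𝓝 e.1.1) (𝓝 ((e.1.1 : ℂ), e.1.2)) :=
    (continuous_subtype_val.tendsto e.1.1).prodMk_nhds hψc
  have h3 := h1.eventually_mem hT
  have h4 := h2.eventually hψ
  change s ∈ 𝓝 e.1.1
  filter_upwards [h3, h4] with w hw3 hw4
  have hr : (Q w).IsRoot (ψ w) := hw4.mpr rfl
  exact hTs (a := (⟨(w, ψ w), hr⟩ : Cov U Q)) hw3

theorem Hyp.isLocalHomeomorph (h : Hyp U Q d) : IsLocalHomeomorph (pr U Q) := by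
  rw [isLocalHomeomorph_iff_isOpenEmbedding_restrict]
  intro e
  obtain ⟨ψ, hψ0, hψd, hψ⟩ := h.local_root e.1.1.2 e.2
  have hc : Continuous (fun e : Cov U Q => ((e.1.1 : ℂ), e.1.2)) := by fun_prop
  have h1 := (hc.tendsto e).eventually hψ
  obtain ⟨S, hS1, hS2, hS3⟩ := mem_nhds_iff.mp h1
  refine ⟨S, hS2.mem_nhds hS3, ?_⟩
  refine IsOpenEmbedding.of_continuous_injective_isOpenMap ?_ ?_ ?_
  · exact continuous_pr.comp continuous_subtype_val
  · intro a b hab
    have ha := (hS1 a.2).mp a.1.2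
    have hb := (hS1 b.2).mp b.1.2
    have hab' : a.1.1.1 = b.1.1.1 := hab
    refine Subtype.ext (Subtype.ext (Prod.ext hab' ?_))
    rw [← ha, ← hb, hab']
  · exact h.isOpenMap.comp hS2.isOpenMap_subtype_val

theorem Hyp.isCoveringMap (h : Hyp U Q d) : IsCoveringMap (pr U Q) := by
  rw [isCoveringMap_iff_isCoveringMapOn_univ]
  refine h.isProperMap.isClosedMap.isCoveringMapOn_of_isLocalHomeomorphOn
    (fun w _ => h.finite_fiber w) ?_
  rw [Set.preimage_univ]
  exact (isLocalHomeomorph_iff_isLocalHomeomorphOn_univ).mp h.isLocalHomeomorph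

theorem Hyp.differentiableOn (h : Hyp U Q d) {θ : ℂ → ℂ} (hθ : ContinuousOn θ U)
    (hr : ∀ w ∈ U, (Q w).IsRoot (θ w)) : DifferentiableOn ℂ θ U := by
  intro w hw
  obtain ⟨ψ, hψ0, hψd, hψ⟩ := h.local_root hw (hr w hw)
  have hc : ContinuousAt θ w := hθ.continuousAt (h.hU.mem_nhds hw)
  have h1 : Filter.Tendsto (fun w' => (w', θ w')) (𝓝 w) (𝓝 (w, θ w)) :=
    Filter.tendsto_id.prodMk_nhds hc
  have h2 : θ =ᶠ[𝓝 w] ψ := by
    filter_upwards [h1.eventually hψ, h.hU.mem_nhds hw] with w' h3 h4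
    exact (h3.mp (hr w' h4)).symm
  exact (h2.differentiableAt_iff.mpr hψd).differentiableWithinAt

theorem Hyp.unique (h : Hyp U Q d) (hconn : IsPreconnected U) {θ θ' : ℂ → ℂ}
    (hθ : ContinuousOn θ U) (hr : ∀ w ∈ U, (Q w).IsRoot (θ w))
    (hθ' : ContinuousOn θ' U) (hr' : ∀ w ∈ U, (Q w).IsRoot (θ' w)) {w0 : ℂ} (hw0 : w0 ∈ U)
    (heq : θ w0 = θ' w0) {w : ℂ} (hw : w ∈ U) : θ w = θ' w := by
  have : PreconnectedSpace U := isPreconnected_iff_preconnectedSpace.mp hconn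
  have hc : Continuous (fun w : U => θ w) := continuousOn_iff_continuous_domRestrict.mp hθ
  have hc' : Continuous (fun w : U => θ' w) := continuousOn_iff_continuous_domRestrict.mp hθ'
  let g : U → Cov U Q := fun w => ⟨(w, θ w), hr w w.2⟩
  let g' : U → Cov U Q := fun w => ⟨(w, θ' w), hr' w w.2⟩
  have hg : Continuous g := by
    refine Continuous.subtype_mk (continuous_id.prodMk hc) _
  have hg' : Continuous g' := by
    refine Continuous.subtype_mk (continuous_id.prodMk hc') _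
  have h1 : g = g' := h.isCoveringMap.eq_of_comp_eq hg hg' rfl ⟨w0, hw0⟩
    (Subtype.ext (Prod.ext rfl heq))
  have h2 := congrFun h1 ⟨w, hw⟩
  exact congrArg (fun e : Cov U Q => e.1.2) h2

theorem Hyp.exists_root_on (h : Hyp U Q d) (hconv : Convex ℝ U) {w0 : ℂ} (hw0 : w0 ∈ U) {θ0 : ℂ}
    (hroot : (Q w0).IsRoot θ0) :
    ∃ θ : ℂ → ℂ, DifferentiableOn ℂ θ U ∧ (∀ w ∈ U, (Q w).IsRoot (θ w)) ∧ θ w0 = θ0 := by
  classical
  have : ContractibleSpace U := hconv.contractibleSpace ⟨w0, hw0⟩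
  have : LocallyPathConnectedSpace U := h.hU.locallyPathConnectedSpace
  obtain ⟨F, ⟨hF0, hF⟩, -⟩ := h.isCoveringMap.existsUnique_continuousMap_lifts
    (ContinuousMap.id U) ⟨w0, hw0⟩ ⟨(⟨w0, hw0⟩, θ0), hroot⟩ rfl
  have hF1 : ∀ w : U, (F w).1.1 = w := fun w => congrFun hF w
  obtain ⟨θ, hθ⟩ : ∃ θ : ℂ → ℂ, ∀ w : U, θ w = (F w).1.2 :=
    ⟨fun w => if hw : w ∈ U then (F ⟨w, hw⟩).1.2 else 0, by simp⟩
  have hr : ∀ w ∈ U, (Q w).IsRoot (θ w) := by
    intro w hw
    have h1 := (F ⟨w, hw⟩).2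
    rw [hF1 ⟨w, hw⟩] at h1
    rw [hθ ⟨w, hw⟩]
    exact h1
  have hc : ContinuousOn θ U := by
    rw [continuousOn_iff_continuous_domRestrict]
    have : U.domRestrict θ = fun w => (F w).1.2 := funext hθ
    rw [this]
    fun_prop
  refine ⟨θ, h.differentiableOn hc hr, hr, ?_⟩
  rw [hθ ⟨w0, hw0⟩, hF0]

end cover

section main

theorem exists_root_fun (P : ℂ → Polynomial ℂ) (d : ℕ) (hd : 0 < d) (δ : ℝ) (hδ : 0 < δ)
    (hdeg : ∀ t, 0 < ‖t‖ → ‖t‖ < δ → (P t).natDegree = d)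
    (hsep : ∀ t, 0 < ‖t‖ → ‖t‖ < δ → (P t).Separable)
    (hcoef : ∀ i, DifferentiableOn ℂ (fun t => (P t).coeff i) {t | 0 < ‖t‖ ∧ ‖t‖ < δ}) :
    ∃ e : ℕ, 0 < e ∧ ∃ θ : ℂ → ℂ, DifferentiableOn ℂ θ {τ | 0 < ‖τ‖ ∧ ‖τ‖ ^ e < δ} ∧
      ∀ τ, 0 < ‖τ‖ → ‖τ‖ ^ e < δ → (P (τ ^ e)).IsRoot (θ τ) := by
  classical
  set U : Set ℂ := {w | w.re < Real.log δ} with hUdef
  have hUo : IsOpen U := isOpen_lt Complex.continuous_re continuous_const
  have hUc : Convex ℝ U := convex_halfSpace_re_lt _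
  have hexp : ∀ w ∈ U, 0 < ‖Complex.exp w‖ ∧ ‖Complex.exp w‖ < δ := by
    intro w hw
    rw [Complex.norm_exp]
    exact ⟨Real.exp_pos _, (Real.lt_log_iff_exp_lt hδ).mp hw⟩
  let Q : ℂ → Polynomial ℂ := fun w => P (Complex.exp w)
  have h : Hyp U Q d := by
    refine ⟨hUo, hd, fun w hw => hdeg _ (hexp w hw).1 (hexp w hw).2,
      fun w hw => hsep _ (hexp w hw).1 (hexp w hw).2, fun i => ?_⟩
    exact (hcoef i).comp Complex.differentiable_exp.differentiableOn fun w hw => hexp w hw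
  have hshift : ∀ (n : ℤ) (w : ℂ), w + n * (2 * Real.pi * Complex.I) ∈ U ↔ w ∈ U := by
    intro n w
    simp [hUdef]
  have hQshift : ∀ (n : ℤ) (w : ℂ), Q (w + n * (2 * Real.pi * Complex.I)) = Q w := by
    intro n w
    change P _ = P _
    rw [Complex.exp_add, Complex.exp_int_mul_two_pi_mul_I, mul_one]
  set w0 : ℂ := ((Real.log δ - 1 : ℝ) : ℂ) with hw0def
  have hw0 : w0 ∈ U := by
    simp [hUdef, hw0def]
  obtain ⟨θ0, hθ0⟩ : ∃ θ0, (Q w0).IsRoot θ0 := by
    refine IsAlgClosed.exists_root _ ?_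
    rw [Polynomial.degree_eq_natDegree]
    · rw [h.hdeg w0 hw0]
      exact_mod_cast hd.ne'
    · intro h0
      have := h.hdeg w0 hw0
      rw [h0, Polynomial.natDegree_zero] at this
      omega
  obtain ⟨θ, hθd, hθr, -⟩ := h.exists_root_on hUc hw0 hθ0
  have hne : Q w0 ≠ 0 := by
    intro h0
    have := h.hdeg w0 hw0
    rw [h0, Polynomial.natDegree_zero] at this
    omega
  -- pigeonhole
  obtain ⟨k, l, hkl, hkl'⟩ : ∃ k l : ℕ, k < l ∧
      θ (w0 + (k : ℤ) * (2 * Real.pi * Complex.I)) = θ (w0 + (l : ℤ) * (2 * Real.pi * Complex.I)) := by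
    let f : ℕ → {x // x ∈ (Q w0).roots.toFinset} := fun k =>
      ⟨θ (w0 + (k : ℤ) * (2 * Real.pi * Complex.I)), by
        rw [Multiset.mem_toFinset, Polynomial.mem_roots hne]
        have := hθr (w0 + (k : ℤ) * (2 * Real.pi * Complex.I)) ((hshift _ _).mpr hw0)
        rwa [hQshift] at this⟩
    obtain ⟨k, l, hkl, hkl'⟩ := Finite.exists_ne_map_eq_of_infinite f
    have h1 := congrArg Subtype.val hkl'
    rcases lt_or_gt_of_ne hkl with h2 | h2
    · exact ⟨k, l, h2, h1⟩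
    · exact ⟨l, k, h2, h1.symm⟩
  obtain ⟨e, he, hel⟩ : ∃ e : ℕ, 0 < e ∧ l = k + e := ⟨l - k, by omega, by omega⟩
  have hper1 : ∀ w ∈ U, θ (w + (e : ℤ) * (2 * Real.pi * Complex.I)) = θ w := by
    intro w hw
    have hc : ContinuousOn (fun w => θ (w + (e : ℤ) * (2 * Real.pi * Complex.I))) U := by
      refine hθd.continuousOn.comp (by fun_prop) fun w hw => (hshift _ _).mpr hw
    refine h.unique hUc.isPreconnected hc (fun w hw => ?_) hθd.continuousOn hθr
      (w0 := w0 + (k : ℤ) * (2 * Real.pi * Complex.I)) ((hshift _ _).mpr hw0) ?_ hw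
    · have := hθr _ ((hshift e w).mpr hw)
      rwa [hQshift] at this
    · rw [hkl', hel]
      congr 1
      push_cast
      ring
  have hper : ∀ (n : ℤ) (w : ℂ), w ∈ U →
      θ (w + (e * n : ℤ) * (2 * Real.pi * Complex.I)) = θ w := by
    intro n
    induction n using Int.induction_on with
    | zero => intro w hw; simp
    | succ n ih =>
      intro w hw
      rw [← ih w hw, ← hper1 (w + (e * n : ℤ) * (2 * Real.pi * Complex.I)) ((hshift _ _).mpr hw)]
      congr 1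
      push_cast
      ring
    | pred n ih =>
      intro w hw
      rw [← ih w hw, ← hper1 (w + (e * (-n - 1) : ℤ) * (2 * Real.pi * Complex.I))
        ((hshift _ _).mpr hw)]
      congr 1
      push_cast
      ring
  have hmem : ∀ τ : ℂ, 0 < ‖τ‖ → ‖τ‖ ^ e < δ → ∀ L : ℂ, Complex.exp L = τ → (e : ℂ) * L ∈ U := by
    intro τ hτ hτe L hL
    have h1 : ‖τ‖ = Real.exp L.re := by rw [← hL, Complex.norm_exp]
    rw [h1, ← Real.exp_nat_mul] at hτe
    have h2 := (Real.lt_log_iff_exp_lt hδ).mpr hτe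
    simpa [hUdef] using h2
  have hbr : ∀ τ : ℂ, 0 < ‖τ‖ → ‖τ‖ ^ e < δ → ∀ L : ℂ, Complex.exp L = τ →
      θ (e * Complex.log τ) = θ (e * L) := by
    intro τ hτ hτe L hL
    have hτ0 : τ ≠ 0 := norm_pos_iff.mp hτ
    have h1 : Complex.exp L = Complex.exp (Complex.log τ) := by rw [hL, Complex.exp_log hτ0]
    obtain ⟨n, hn⟩ := Complex.exp_eq_exp_iff_exists_int.mp h1
    have h2 := hper n (e * Complex.log τ) (hmem τ hτ hτe _ (Complex.exp_log hτ0))
    rw [← h2, hn]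
    congr 1
    push_cast
    ring
  refine ⟨e, he, fun τ => θ (e * Complex.log τ), ?_, ?_⟩
  · intro τ0 hτ0
    obtain ⟨hτ1, hτ2⟩ := hτ0
    have hτ00 : τ0 ≠ 0 := norm_pos_iff.mp hτ1
    obtain ⟨L, hLd, hL⟩ : ∃ L : ℂ → ℂ, DifferentiableAt ℂ L τ0 ∧ ∀ τ, τ ≠ 0 → Complex.exp (L τ) = τ := by
      by_cases hs : τ0 ∈ Complex.slitPlane
      · exact ⟨Complex.log, Complex.differentiableAt_log hs, fun τ hτ => Complex.exp_log hτ⟩
      · have hs' : -τ0 ∈ Complex.slitPlane := by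
          rw [Complex.mem_slitPlane_iff] at hs ⊢
          push Not at hs
          left
          rw [Complex.neg_re]
          have h3 : τ0.re ≠ 0 := fun h3 => hτ00 (Complex.ext h3 hs.2)
          have h4 := lt_of_le_of_ne hs.1 h3
          linarith
        refine ⟨fun τ => Complex.log (-τ) + Real.pi * Complex.I, ?_, ?_⟩
        · exact ((Complex.differentiableAt_log hs').comp τ0 differentiableAt_id.neg).add_const _
        · intro τ hτ
          rw [Complex.exp_add, Complex.exp_log (neg_ne_zero.mpr hτ), Complex.exp_pi_mul_I]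
          ring
    have hopen : IsOpen {τ : ℂ | 0 < ‖τ‖ ∧ ‖τ‖ ^ e < δ} :=
      (isOpen_lt continuous_const continuous_norm).inter
        (isOpen_lt (continuous_norm.pow e) continuous_const)
    have h1 : (fun τ => θ (e * Complex.log τ)) =ᶠ[𝓝 τ0] fun τ => θ (e * L τ) := by
      filter_upwards [hopen.mem_nhds ⟨hτ1, hτ2⟩] with τ hτ
      exact hbr τ hτ.1 hτ.2 (L τ) (hL τ (norm_pos_iff.mp hτ.1))
    have h2 : DifferentiableAt ℂ (fun τ => θ (e * L τ)) τ0 := by
      have h3 : DifferentiableAt ℂ θ (e * L τ0) :=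
        hθd.differentiableAt (hUo.mem_nhds (hmem τ0 hτ1 hτ2 (L τ0) (hL τ0 hτ00)))
      exact h3.comp τ0 (hLd.const_mul _)
    exact (h1.differentiableAt_iff.mpr h2).differentiableWithinAt
  · intro τ hτ hτe
    have hτ0 : τ ≠ 0 := norm_pos_iff.mp hτ
    have h1 := hθr _ (hmem τ hτ hτe _ (Complex.exp_log hτ0))
    have h2 : Complex.exp (e * Complex.log τ) = τ ^ e := by
      rw [Complex.exp_nat_mul, Complex.exp_log hτ0]
    rwa [show Q (e * Complex.log τ) = P (τ ^ e) from congrArg P h2] at h1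

end main

end Pool.Agent.VF1858.Mono
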