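import Pool.Agent.Lib_MP_1858fb_w.Defs2
import Pool.Agent.Lib_MP_1858fb_w.Monodromy

/-!
# MP_1858fb_ag: from an arc through `v` to the base of the gluing

`base_of_arc`: an arc `a` in `V` through `v` on which `D(y, ·)` does not vanish identically
gives, after `t = (s τ)^e`, the conclusion of `exists_base` for the point `y`.
-/

namespace Pool.Agent.VF

open MvPolynomial Metric Filter Topology

theorem differentiableOn_aeval {σ : Type} {U : Set ℂ} {b : ℂ → σ → ℂ}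
    (hb : ∀ i, DifferentiableOn ℂ (fun t => b t i) U) (G : MvPolynomial σ ℂ) :
    DifferentiableOn ℂ (fun t => aeval (b t) G) U := by
  induction G using MvPolynomial.induction_on with
  | C c =>
    simp only [aeval_C]
    exact differentiableOn_const _
  | add p q hp hq =>
    simp only [map_add]
    exact hp.add hq
  | mul_X p i hp =>
    simp only [map_mul, aeval_X]
    exact hp.mul (hb i)

/-- The polynomial `P(w, z; ·)` over the complex numbers. -/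
noncomputable def specP {N : ℕ} (w z : Fin (N + 1) → ℂ)
    (P : Polynomial (MvPolynomial (Fin (N + 1) ⊕ Fin (N + 1)) ℂ)) : Polynomial ℂ :=
  P.map ((aeval (Sum.elim w z) :
    MvPolynomial (Fin (N + 1) ⊕ Fin (N + 1)) ℂ →ₐ[ℂ] ℂ) : _ →+* ℂ)

theorem eval_specP {N : ℕ} (w z : Fin (N + 1) → ℂ)
    (P : Polynomial (MvPolynomial (Fin (N + 1) ⊕ Fin (N + 1)) ℂ)) (θ : ℂ) :
    (specP w z P).eval θ = evT w z θ P := by
  unfold specP evT
  rw [Polynomial.eval_map]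

theorem eval_derivative_specP {N : ℕ} (w z : Fin (N + 1) → ℂ)
    (P : Polynomial (MvPolynomial (Fin (N + 1) ⊕ Fin (N + 1)) ℂ)) (θ : ℂ) :
    (Polynomial.derivative (specP w z P)).eval θ = evT w z θ (Polynomial.derivative P) := by
  unfold specP evT
  rw [Polynomial.derivative_map, Polynomial.eval_map]

/-- An arc through `v` gives the base of the gluing. -/
theorem base_of_arc {N c d m : ℕ} {V : Set (Fin (N + 1) → ℂ)} {cm : Fin m → ℂ}
    {vs : Fin m → Fin (N + 1) → ℂ} (Fam : Family V cm vs d) {v y : Fin (N + 1) → ℂ} (hy : y ∈ V)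
    (Ch : Chart c V v) {r : ℝ} (hr : 0 < r) {a : ℂ → Fin (N + 1) → ℂ}
    (ha : ∀ i, DifferentiableOn ℂ (fun t => a t i) (ball 0 r)) (ha0 : a 0 = v)
    (haV : ∀ t ∈ ball (0 : ℂ) r, a t ∈ V) {t₀ : ℂ} (ht₀ : t₀ ∈ ball (0 : ℂ) r)
    (hD : aeval (Sum.elim y (a t₀)) Fam.D ≠ 0) :
    ∃ (ρ : ℝ) (α : ℂ → Fin (N + 1) → ℂ) (θ : ℂ → ℂ), 1 < ρ ∧
      (∀ i, DifferentiableOn ℂ (fun τ => α τ i) (ball 0 ρ)) ∧ α 0 = v ∧
      (∀ τ ∈ ball (0 : ℂ) ρ, α τ ∈ V ∧ aeval (α τ) Ch.H ≠ 0 ∧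
        aeval (α τ) (Matrix.det (Matrix.of fun i j => pderiv j (Ch.Φ i))) ≠ 0) ∧
      DifferentiableOn ℂ θ (ball 0 ρ \ {0}) ∧
      ∀ τ ∈ ball (0 : ℂ) ρ, τ ≠ 0 →
        aeval (Sum.elim y (α τ)) Fam.D ≠ 0 ∧ evT y (α τ) (θ τ) Fam.P = 0 := by
  classical
  have h0 : (0 : ℂ) ∈ ball (0 : ℂ) r := mem_ball_self hr
  have hsum : ∀ i, DifferentiableOn ℂ (fun t => (Sum.elim y (a t) : _ → ℂ) i) (ball 0 r) := by
    rintro (i | i)
    · simp only [Sum.elim_inl]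
      exact differentiableOn_const _
    · simp only [Sum.elim_inr]
      exact ha i
  have hDd := differentiableOn_aeval hsum Fam.D
  -- the discriminant function does not vanish near 0 except at 0
  have hiso : ∀ᶠ t in 𝓝[≠] (0 : ℂ), aeval (Sum.elim y (a t)) Fam.D ≠ 0 := by
    by_contra hcon
    have h1 : ∃ᶠ t in 𝓝[≠] (0 : ℂ), aeval (Sum.elim y (a t)) Fam.D = 0 := by
      intro h2
      exact hcon (h2.mono fun t ht => ht)
    have h2 := (hDd.analyticOnNhd isOpen_ball).eqOn_zero_of_preconnected_of_frequently_eq_zero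
      (convex_ball (0 : ℂ) r).isPreconnected h0 h1
    exact hD (h2 ht₀)
  have hH : ∀ᶠ t in 𝓝 (0 : ℂ), aeval (a t) Ch.H ≠ 0 := by
    have h1 : ContinuousAt (fun t => aeval (a t) Ch.H) 0 :=
      ((differentiableOn_aeval ha Ch.H).differentiableAt (isOpen_ball.mem_nhds h0)).continuousAt
    refine h1.eventually_ne ?_
    rw [ha0]
    exact Ch.hH
  have hdet : ∀ᶠ t in 𝓝 (0 : ℂ),
      aeval (a t) (Matrix.det (Matrix.of fun i j => pderiv j (Ch.Φ i))) ≠ 0 := by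
    have h1 : ContinuousAt
        (fun t => aeval (a t) (Matrix.det (Matrix.of fun i j => pderiv j (Ch.Φ i)))) 0 :=
      ((differentiableOn_aeval ha _).differentiableAt (isOpen_ball.mem_nhds h0)).continuousAt
    refine h1.eventually_ne ?_
    rw [ha0]
    exact Ch.hdet
  rw [eventually_nhdsWithin_iff] at hiso
  obtain ⟨δ', hδ'0, hδ'⟩ := Metric.eventually_nhds_iff_ball.1 ((hiso.and hH).and hdet)
  set δ : ℝ := min δ' r with hδdef
  have hδ0 : 0 < δ := lt_min hδ'0 hr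
  have hδr : ∀ t : ℂ, ‖t‖ < δ → t ∈ ball (0 : ℂ) r := fun t ht => by
    rw [mem_ball_zero_iff]
    exact ht.trans_le (min_le_right _ _)
  have hδall : ∀ t : ℂ, ‖t‖ < δ → (t ≠ 0 → aeval (Sum.elim y (a t)) Fam.D ≠ 0) ∧
      aeval (a t) Ch.H ≠ 0 ∧
      aeval (a t) (Matrix.det (Matrix.of fun i j => pderiv j (Ch.Φ i))) ≠ 0 := by
    intro t ht
    have h1 := hδ' t (by rw [mem_ball_zero_iff]; exact ht.trans_le (min_le_left _ _))
    exact ⟨fun h => h1.1.1 h, h1.1.2, h1.2⟩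
  let P : ℂ → Polynomial ℂ := fun t => specP y (a t) Fam.P
  have hlead : ∀ t : ℂ, 0 < ‖t‖ → ‖t‖ < δ →
      ((aeval (Sum.elim y (a t)) : MvPolynomial (Fin (N + 1) ⊕ Fin (N + 1)) ℂ →ₐ[ℂ] ℂ) : _ →+* ℂ)
        Fam.P.leadingCoeff ≠ 0 := by
    intro t ht1 ht2
    rw [Fam.hlead]
    exact (hδall t ht2).1 (norm_pos_iff.1 ht1)
  have hdeg : ∀ t : ℂ, 0 < ‖t‖ → ‖t‖ < δ → (P t).natDegree = Fam.P.natDegree := fun t h1 h2 =>
    Polynomial.natDegree_map_of_leadingCoeff_ne_zero _ (hlead t h1 h2)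
  have hsep : ∀ t : ℂ, 0 < ‖t‖ → ‖t‖ < δ → (P t).Separable := by
    intro t h1 h2
    show IsCoprime (P t) (Polynomial.derivative (P t))
    rw [Polynomial.isCoprime_iff_aeval_ne_zero_of_isAlgClosed ℂ ℂ]
    intro θ
    by_contra hcon
    push Not at hcon
    obtain ⟨h3, h4⟩ := hcon
    rw [Polynomial.coe_aeval_eq_eval] at h3 h4
    have h5 : evT y (a t) θ Fam.P = 0 := by
      rw [← eval_specP]
      exact h3
    have h6 : evT y (a t) θ (Polynomial.derivative Fam.P) = 0 := by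
      rw [← eval_derivative_specP]
      exact h4
    have hD' := (hδall t h2).1 (norm_pos_iff.1 h1)
    exact Fam.simple y hy (a t) (haV t (hδr t h2)) _ θ (mul_inv_cancel₀ hD') h5 h6
  have hcoef : ∀ i, DifferentiableOn ℂ (fun t => (P t).coeff i) {t | 0 < ‖t‖ ∧ ‖t‖ < δ} := by
    intro i
    have h1 : (fun t => (P t).coeff i) = fun t => aeval (Sum.elim y (a t)) (Fam.P.coeff i) := by
      ext t
      show (specP y (a t) Fam.P).coeff i = _
      unfold specP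
      rw [Polynomial.coeff_map]
      rfl
    rw [h1]
    exact (differentiableOn_aeval hsum _).mono fun t ht => hδr t ht.2
  obtain ⟨e, he, θ₀, hθd, hθr⟩ := VF1858.Mono.exists_root_fun P Fam.P.natDegree Fam.hdeg δ hδ0 hdeg
    hsep hcoef
  set s : ℝ := min 1 δ / 4 with hsdef
  have hs0 : 0 < s := by positivity
  have hs1 : 2 * s < 1 := by
    have : min 1 δ ≤ 1 := min_le_left _ _
    rw [hsdef]
    linarith
  have hsδ : 2 * s < δ := by
    have : min 1 δ ≤ δ := min_le_right _ _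
    rw [hsdef]
    linarith
  have hnorm : ∀ τ ∈ ball (0 : ℂ) 2, ‖(s : ℂ) * τ‖ < 2 * s := by
    intro τ hτ
    rw [mem_ball_zero_iff] at hτ
    rw [norm_mul, Complex.norm_real, Real.norm_of_nonneg hs0.le]
    nlinarith
  have hpow : ∀ τ ∈ ball (0 : ℂ) 2, ‖((s : ℂ) * τ)‖ ^ e < δ := by
    intro τ hτ
    have h1 := hnorm τ hτ
    calc ‖(s : ℂ) * τ‖ ^ e ≤ ‖(s : ℂ) * τ‖ ^ 1 :=
          pow_le_pow_of_le_one (norm_nonneg _) (h1.le.trans hs1.le) he
      _ = ‖(s : ℂ) * τ‖ := pow_one _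
      _ < δ := h1.trans hsδ
  have hpow' : ∀ τ ∈ ball (0 : ℂ) 2, ‖((s : ℂ) * τ) ^ e‖ < δ := fun τ hτ => by
    rw [norm_pow]
    exact hpow τ hτ
  have hmaps : Set.MapsTo (fun τ : ℂ => ((s : ℂ) * τ) ^ e) (ball 0 2) (ball 0 r) :=
    fun τ hτ => hδr _ (hpow' τ hτ)
  have hsne : (s : ℂ) ≠ 0 := by exact_mod_cast hs0.ne'
  refine ⟨2, fun τ => a (((s : ℂ) * τ) ^ e), fun τ => θ₀ ((s : ℂ) * τ), by norm_num, ?_, ?_, ?_,
    ?_, ?_⟩
  · intro i
    exact (ha i).comp (by fun_prop) hmaps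
  · show a (((s : ℂ) * 0) ^ e) = v
    rw [mul_zero, zero_pow he.ne', ha0]
  · intro τ hτ
    have h1 := hδall _ (hpow' τ hτ)
    exact ⟨haV _ (hmaps hτ), h1.2.1, h1.2.2⟩
  · refine hθd.comp (by fun_prop) fun τ hτ => ?_
    have hτ0 : τ ≠ 0 := hτ.2
    exact ⟨norm_pos_iff.2 (mul_ne_zero hsne hτ0), hpow τ hτ.1⟩
  · intro τ hτ hτ0
    have hne : (s : ℂ) * τ ≠ 0 := mul_ne_zero hsne hτ0
    refine ⟨(hδall _ (hpow' τ hτ)).1 (pow_ne_zero _ hne), ?_⟩
    have h1 := hθr ((s : ℂ) * τ) (norm_pos_iff.2 hne) (hpow τ hτ)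
    rw [← eval_specP]
    exact h1

end Pool.Agent.VF
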