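import Mathlib
set_option autoImplicit false
/-!
Weighted Wiener algebras of Laurent series: completion of the Laurent polynomials for the norm
`∑ ‖p k‖ ω k`, `ω` a submultiplicative weight on `ℤ`.
-/
noncomputable section
open scoped BigOperators
open Filter Topology UniformSpace

namespace Pool.Agent.Wien

/-- submultiplicative weights on `ℤ` -/
structure Wt where
  ω : ℤ → ℝ
  pos : ∀ k, 0 < ω k
  zero : ω 0 = 1
  mul : ∀ j k, ω (j + k) ≤ ω j * ω k

variable (w : Wt)

/-- Laurent polynomials with the weighted norm -/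
def LP (_w : Wt) : Type := AddMonoidAlgebra ℂ ℤ

instance : CommRing (LP w) := inferInstanceAs (CommRing (AddMonoidAlgebra ℂ ℤ))
instance : Algebra ℂ (LP w) := inferInstanceAs (Algebra ℂ (AddMonoidAlgebra ℂ ℤ))

variable {w}

/-- coefficients of a Laurent polynomial -/
def LP.cf (p : LP w) : ℤ →₀ ℂ := AddMonoidAlgebra.coeff (R := ℂ) (M := ℤ) p

/-- monomials -/
def LP.sg (w : Wt) (k : ℤ) (z : ℂ) : LP w := AddMonoidAlgebra.single (R := ℂ) (M := ℤ) k z

theorem LP.cf_add (p q : LP w) : (p + q).cf = p.cf + q.cf := rfl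
theorem LP.cf_zero : (0 : LP w).cf = 0 := rfl
theorem LP.cf_neg (p : LP w) : (-p).cf = -p.cf := rfl
theorem LP.cf_smul (c : ℂ) (p : LP w) : (c • p).cf = c • p.cf := rfl
theorem LP.cf_sg (k : ℤ) (z : ℂ) : (LP.sg w k z).cf = Finsupp.single k z := rfl
theorem LP.ext' {p q : LP w} (h : p.cf = q.cf) : p = q :=
  AddMonoidAlgebra.coeff_injective (R := ℂ) (M := ℤ) h

theorem LP.sg_mul (j k : ℤ) (a b : ℂ) : LP.sg w j a * LP.sg w k b = LP.sg w (j + k) (a * b) :=
  AddMonoidAlgebra.single_mul_single (R := ℂ) (M := ℤ) j k a b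

theorem LP.one_eq : (1 : LP w) = LP.sg w 0 1 := rfl

theorem LP.smul_sg (c : ℂ) (k : ℤ) (z : ℂ) : c • LP.sg w k z = LP.sg w k (c * z) :=
  AddMonoidAlgebra.smul_single (R := ℂ) (M := ℤ) c k z

theorem LP.sum_sg (p : LP w) : (p.cf.sum fun k z => LP.sg w k z) = p :=
  AddMonoidAlgebra.sum_coeff_single (R := ℂ) (M := ℤ) p

/-- the weighted norm -/
def LP.nrm (p : LP w) : ℝ := p.cf.sum fun k z => ‖z‖ * w.ω k

theorem LP.nrm_eq (p : LP w) (s : Finset ℤ) (h : p.cf.support ⊆ s) :
    p.nrm = ∑ k ∈ s, ‖p.cf k‖ * w.ω k :=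
  Finsupp.sum_of_support_subset _ h _ (by simp)

theorem LP.nrm_add (p q : LP w) : (p + q).nrm ≤ p.nrm + q.nrm := by
  classical
  have h : (p + q).cf.support ⊆ p.cf.support ∪ q.cf.support := by
    rw [LP.cf_add]; exact Finsupp.support_add
  rw [LP.nrm_eq _ _ h, LP.nrm_eq p _ Finset.subset_union_left,
    LP.nrm_eq q _ Finset.subset_union_right, ← Finset.sum_add_distrib]
  refine Finset.sum_le_sum fun k _ => ?_
  rw [← add_mul, LP.cf_add]
  exact mul_le_mul_of_nonneg_right (norm_add_le _ _) (w.pos k).le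

theorem LP.nrm_neg (p : LP w) : (-p).nrm = p.nrm := by
  rw [LP.nrm_eq (-p) p.cf.support (by rw [LP.cf_neg, Finsupp.support_neg]), LP.nrm_eq p _ subset_rfl,
    LP.cf_neg]
  simp

theorem LP.nrm_zero : (0 : LP w).nrm = 0 := by simp [LP.nrm, LP.cf_zero]

theorem LP.nrm_nonneg (p : LP w) : 0 ≤ p.nrm := by
  rw [LP.nrm_eq p _ subset_rfl]
  exact Finset.sum_nonneg fun k _ => mul_nonneg (norm_nonneg _) (w.pos k).le

theorem LP.eq_zero_of_nrm (p : LP w) (h : p.nrm = 0) : p = 0 := by
  rw [LP.nrm_eq p _ subset_rfl,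
    Finset.sum_eq_zero_iff_of_nonneg (fun k _ => mul_nonneg (norm_nonneg _) (w.pos k).le)] at h
  refine LP.ext' (Finsupp.ext fun k => ?_)
  rw [LP.cf_zero]
  by_cases hk : k ∈ p.cf.support
  · have := h k hk
    rcases mul_eq_zero.1 this with h1 | h1
    · simpa using h1
    · exact absurd h1 (w.pos k).ne'
  · simpa using hk

instance : NormedAddCommGroup (LP w) :=
  AddGroupNorm.toNormedAddCommGroup
    { toFun := LP.nrm
      map_zero' := LP.nrm_zero
      add_le' := LP.nrm_add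
      neg' := LP.nrm_neg
      eq_zero_of_map_eq_zero' := LP.eq_zero_of_nrm }

theorem LP.norm_def (p : LP w) : ‖p‖ = p.nrm := rfl

theorem LP.norm_sg (k : ℤ) (z : ℂ) : ‖LP.sg w k z‖ = ‖z‖ * w.ω k := by
  rw [LP.norm_def, LP.nrm, LP.cf_sg, Finsupp.sum_single_index (by simp)]

theorem LP.norm_mul (p q : LP w) : ‖p * q‖ ≤ ‖p‖ * ‖q‖ := by
  have h : p * q = ∑ j ∈ p.cf.support, ∑ k ∈ q.cf.support,
      LP.sg w (j + k) (p.cf j * q.cf k) := by
    conv_lhs => rw [← LP.sum_sg p, ← LP.sum_sg q]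
    simp only [Finsupp.sum, Finset.sum_mul_sum, LP.sg_mul]
  rw [h, LP.norm_def p, LP.norm_def q, LP.nrm_eq p _ subset_rfl, LP.nrm_eq q _ subset_rfl,
    Finset.sum_mul_sum]
  refine (norm_sum_le _ _).trans (Finset.sum_le_sum fun j _ => ?_)
  refine (norm_sum_le _ _).trans (Finset.sum_le_sum fun k _ => ?_)
  rw [LP.norm_sg, _root_.norm_mul]
  calc ‖p.cf j‖ * ‖q.cf k‖ * w.ω (j + k) ≤ ‖p.cf j‖ * ‖q.cf k‖ * (w.ω j * w.ω k) :=
        mul_le_mul_of_nonneg_left (w.mul j k) (by positivity)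
    _ = ‖p.cf j‖ * w.ω j * (‖q.cf k‖ * w.ω k) := by ring

instance : NormedCommRing (LP w) :=
  { (inferInstance : NormedAddCommGroup (LP w)), (inferInstance : CommRing (LP w)) with
    norm_mul_le := LP.norm_mul }

instance : NormedAlgebra ℂ (LP w) :=
  { (inferInstance : Algebra ℂ (LP w)) with
    norm_smul_le := fun c p => by
      rw [LP.norm_def, LP.norm_def, LP.nrm_eq (c • p) p.cf.support
        (by rw [LP.cf_smul]; exact Finsupp.support_smul), LP.nrm_eq p _ subset_rfl, Finset.mul_sum]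
      refine Finset.sum_le_sum fun k _ => ?_
      rw [LP.cf_smul, Finsupp.smul_apply, smul_eq_mul, norm_mul, mul_assoc] }

/-- the weighted Wiener algebra -/
abbrev W (w : Wt) : Type := Completion (LP w)

example : NormedCommRing (W w) := inferInstance
example : NormedAlgebra ℂ (W w) := inferInstance
example : CompleteSpace (W w) := inferInstance

/-- the monomial `T^k` -/
def X (w : Wt) (k : ℤ) : W w := ((LP.sg w k 1 : LP w) : Completion (LP w))

theorem coe_sg (k : ℤ) (z : ℂ) : ((LP.sg w k z : LP w) : W w) = z • X w k := by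
  rw [X, ← Completion.coe_smul, LP.smul_sg, mul_one]

theorem X_mul (j k : ℤ) : X w j * X w k = X w (j + k) := by
  rw [X, X, ← Completion.coe_mul, LP.sg_mul, mul_one, X]

theorem X_zero : X w 0 = 1 := by rw [X, ← LP.one_eq, Completion.coe_one]

theorem norm_X (k : ℤ) : ‖X w k‖ = w.ω k := by
  rw [X, Completion.norm_coe, LP.norm_sg]; simp

instance : NormOneClass (W w) := ⟨by rw [← X_zero, norm_X, w.zero]⟩

/-- coefficients of Laurent polynomials, as a continuous linear map -/
def cfL (w : Wt) (k : ℤ) : LP w →L[ℂ] ℂ :=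
  LinearMap.mkContinuous
    { toFun := fun p => p.cf k
      map_add' := fun p q => by rw [LP.cf_add]; rfl
      map_smul' := fun c p => by rw [LP.cf_smul]; rfl } (w.ω k)⁻¹ (fun p => by
      classical
      have hk := w.pos k
      rw [inv_mul_eq_div, le_div_iff₀ hk, LP.norm_def,
        LP.nrm_eq p (insert k p.cf.support) (Finset.subset_insert _ _)]
      exact Finset.single_le_sum (f := fun k => ‖p.cf k‖ * w.ω k)
        (fun j _ => mul_nonneg (norm_nonneg _) (w.pos j).le) (Finset.mem_insert_self _ _))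

/-- the `k`-th coefficient -/
def cf (w : Wt) (k : ℤ) : W w →L[ℂ] ℂ := (cfL w k).extend Completion.toComplL

theorem cf_coe (p : LP w) (k : ℤ) : cf w k (p : W w) = p.cf k := by
  have := ContinuousLinearMap.extend_eq (cfL w k) (e := (Completion.toComplL : LP w →L[ℂ] W w))
    (Completion.denseRange_coe) (Completion.isUniformInducing_coe _) p
  exact this

theorem cf_X (j k : ℤ) : cf w k (X w j) = if j = k then 1 else 0 := by
  rw [X, cf_coe, LP.cf_sg, Finsupp.single_apply]

end Pool.Agent.Wien
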