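import Pool.Agent.Lib_MP_1858fb_w.Char0E

/-!
# Very free curves over `K` give very free curves over `k`
-/

namespace Pool.Agent.VF

open MvPolynomial

section

variable {k : Type} [Field k] {N c d : ℕ} {K : Type} [Field K] [Algebra k K]

/-- specialization of the values of a tuple -/
theorem spec_val (A : Subalgebra k K) (s : A →ₐ[k] k) (F : Fin (d + 1) → Fin (N + 1) → A)
    (p q : k) :
    (∀ i, val (fun j i => s (F j i)) p q i = s (val F (algebraMap k A p) (algebraMap k A q) i)) ∧
    (∀ i, val (fun j i => (F j i : K)) (algebraMap k K p) (algebraMap k K q) i =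
      (val F (algebraMap k A p) (algebraMap k A q) i : A)) := by
  constructor
  · intro i
    have h1 := c0_val_map (s : A →+* k) F (algebraMap k A p) (algebraMap k A q) i
    have h2 : ∀ p : k, (s : A →+* k) (algebraMap k A p) = p := fun p => s.commutes p
    rw [h2, h2] at h1
    exact h1
  · intro i
    exact c0_val_map (A.val : A →+* K) F (algebraMap k A p) (algebraMap k A q) i

theorem descend [IsAlgClosed k] [CharZero k] [IsAlgClosed K] {m : ℕ} (hc : c < N)
    {I J : Set (MvPolynomial (Fin (N + 1)) k)}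
    (hIJ : ∀ E ∈ I ∪ J, ∃ e : ℕ, E.IsHomogeneous e)
    (hsm : ∀ x ∈ pts k I J, SmoothAt c (pts k I J) x)
    {F : Fin (d + 1) → Fin (N + 1) → K} (hF : IsCurve (pts K I J) F)
    (hvf : VeryFree (pts K I J) F) (vs : Fin m → Fin (N + 1) → k)
    (hvs : ∀ l, ∃ p q : K, (p ≠ 0 ∨ q ≠ 0) ∧ val F p q = up (vs l)) :
    ∃ F' : Fin (d + 1) → Fin (N + 1) → k, IsCurve (pts k I J) F' ∧ VeryFree (pts k I J) F' ∧
      ∀ l, ∃ p q : k, (p ≠ 0 ∨ q ≠ 0) ∧ val F' p q = vs l := by
  classical
  have : CharZero K := charZero_of_injective_algebraMap (algebraMap k K).injective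
  have hinf : Infinite k := IsAlgClosed.instInfinite
  have hIJK : LocClosed (pts K I J) := locClosed_pts hIJ
  have hsmK := smooth_up (K := K) hsm
  have hs : Span (pts K I J) F 1 := span_one_of_veryFree hc hIJK hsmK hF hvf
  have hd : 1 ≤ d := hs.1
  have hx0 : val F 1 0 ∈ pts K I J := hF 1 0 (Or.inl one_ne_zero)
  have hfr := finrank_tan hx0 (hsmK _ hx0)
  -- sections
  let D := Module.finrank K (Tan (pts K I J) (val F 1 0))
  let bas := Module.finBasis K (Tan (pts K I J) (val F 1 0))
  have hG0 : ∀ i : Fin D, ∃ G : Fin (d - 1 + 1) → Fin (N + 1) → K,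
      IsTangent (pts K I J) F G ∧ val G 1 0 = bas i := fun i =>
    hs.2 1 0 (Or.inl one_ne_zero) _ (bas i).2
  choose G hG hG1 using hG0
  have hli : LinearIndependent K (fun i : Fin D => val (G i) 1 0) := by
    have h1 : (fun i : Fin D => val (G i) 1 0) = fun i => (bas i : Fin (N + 1) → K) :=
      funext hG1
    rw [h1]
    exact bas.linearIndependent.map' (Tan (pts K I J) (val F 1 0)).subtype
      (Submodule.ker_subtype _)
  obtain ⟨B, hB⟩ := exists_right_inverse _ hli
  -- points
  have hpt : ∀ l, ∃ p q a b : K, a * p + b * q = 1 ∧ val F p q = up (vs l) := by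
    intro l
    obtain ⟨p, q, hpq, h⟩ := hvs l
    rcases hpq with h0 | h0
    · exact ⟨p, q, p⁻¹, 0, by rw [inv_mul_cancel₀ h0, zero_mul, add_zero], h⟩
    · exact ⟨p, q, 0, q⁻¹, by rw [inv_mul_cancel₀ h0, zero_mul, zero_add], h⟩
  choose P Q a b hab hPQ using hpt
  -- Bezout
  choose M n f H hH hbez using fun t : Fin 2 => exists_bezout hF t
  -- the finitely generated algebra
  let T : Set K := (Set.range fun x : Fin (d + 1) × Fin (N + 1) => F x.1 x.2) ∪
    (Set.range fun x : Fin D × Fin (d - 1 + 1) × Fin (N + 1) => G x.1 x.2.1 x.2.2) ∪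
    (Set.range fun x : Fin (N + 1) × Fin D => B x.1 x.2) ∪
    (Set.range P ∪ Set.range Q ∪ Set.range a ∪ Set.range b) ∪
    ⋃ t : Fin 2, ⋃ i : Fin (n t), ((f t i).coeffs : Set K)
  have hT : T.Finite := by
    refine Set.Finite.union (Set.Finite.union (Set.Finite.union (Set.Finite.union ?_ ?_) ?_) ?_) ?_
    · exact Set.finite_range _
    · exact Set.finite_range _
    · exact Set.finite_range _
    · exact (((Set.finite_range _).union (Set.finite_range _)).union
        (Set.finite_range _)).union (Set.finite_range _)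
    · exact Set.finite_iUnion fun t => Set.finite_iUnion fun i => Finset.finite_toSet _
  obtain ⟨s⟩ := exists_spec (k := k) T hT
  let A := Algebra.adjoin k T
  have hsub : ∀ x ∈ T, x ∈ A := fun x hx => Algebra.subset_adjoin hx
  have hFA : ∀ j i, F j i ∈ A := fun j i =>
    hsub _ (Or.inl (Or.inl (Or.inl (Or.inl ⟨(j, i), rfl⟩))))
  have hGA : ∀ l j i, G l j i ∈ A := fun l j i =>
    hsub _ (Or.inl (Or.inl (Or.inl (Or.inr ⟨(l, j, i), rfl⟩))))
  have hBA : ∀ l j, B l j ∈ A := fun l j => hsub _ (Or.inl (Or.inl (Or.inr ⟨(l, j), rfl⟩)))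
  have hPA : ∀ l, P l ∈ A := fun l =>
    hsub _ (Or.inl (Or.inr (Or.inl (Or.inl (Or.inl ⟨l, rfl⟩)))))
  have hQA : ∀ l, Q l ∈ A := fun l =>
    hsub _ (Or.inl (Or.inr (Or.inl (Or.inl (Or.inr ⟨l, rfl⟩)))))
  have haA : ∀ l, a l ∈ A := fun l => hsub _ (Or.inl (Or.inr (Or.inl (Or.inr ⟨l, rfl⟩))))
  have hbA : ∀ l, b l ∈ A := fun l => hsub _ (Or.inl (Or.inr (Or.inr ⟨l, rfl⟩)))
  have hfA : ∀ (t : Fin 2) (i : Fin (n t)) (u : Fin 2 →₀ ℕ), coeff u (f t i) ∈ A := by
    intro t i u
    by_cases hu : u ∈ (f t i).support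
    · refine hsub _ (Or.inr ?_)
      refine Set.mem_iUnion.2 ⟨t, Set.mem_iUnion.2 ⟨i, ?_⟩⟩
      exact MvPolynomial.coeff_mem_coeffs u (mem_support_iff.1 hu)
    · rw [notMem_support_iff.1 hu]
      exact zero_mem _
  let FA : Fin (d + 1) → Fin (N + 1) → A := fun j i => ⟨F j i, hFA j i⟩
  let GA : Fin D → Fin (d - 1 + 1) → Fin (N + 1) → A := fun l j i => ⟨G l j i, hGA l j i⟩
  let F' : Fin (d + 1) → Fin (N + 1) → k := fun j i => s (FA j i)
  let G' : Fin D → Fin (d - 1 + 1) → Fin (N + 1) → k := fun l j i => s (GA l j i)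
  -- polynomials in the values
  have hE : ∀ (E : MvPolynomial (Fin (N + 1)) k) (p q : k),
      aeval (val F' p q) E = s (aeval (val FA (algebraMap k A p) (algebraMap k A q)) E) ∧
      ((aeval (val FA (algebraMap k A p) (algebraMap k A q)) E : A) : K) =
        aeval (val F (algebraMap k K p) (algebraMap k K q)) E := by
    intro E p q
    obtain ⟨h1, h2⟩ := spec_val A s FA p q
    constructor
    · rw [comp_aeval_apply]
      congr 2
      funext i
      exact h1 i
    · have h3 := comp_aeval_apply (val FA (algebraMap k A p) (algebraMap k A q)) A.val E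
      refine h3.trans ?_
      congr 2
      funext i
      exact (h2 i).symm
  have hvan : ∀ E ∈ van (pts k I J), ∀ p q : K, aeval (val F p q) E = 0 := by
    intro E hE p q
    have h1 := c0_curve_eq hF ((map_mem_van (K := K)).2 hE)
    have h2 := aeval_bind F ![p, q] (MvPolynomial.map (algebraMap k K) E)
    rw [h1, map_zero, aeval_mapK] at h2
    exact h2.symm
  have hE0 : ∀ E : MvPolynomial (Fin (N + 1)) k, ∀ p q : k,
      aeval (val F (algebraMap k K p) (algebraMap k K q)) E = 0 → aeval (val F' p q) E = 0 := by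
    intro E p q h
    obtain ⟨h1, h2⟩ := hE E p q
    rw [h] at h2
    have h3 : aeval (val FA (algebraMap k A p) (algebraMap k A q)) E = 0 := Subtype.ext h2
    rw [h1, h3, map_zero]
  have hcurve : IsCurve (pts k I J) F' := by
    intro p q hpq
    have hJ : ∃ l, ∃ G0 ∈ J, aeval (val F' p q) (X l * G0) ≠ 0 := by
      by_contra hno
      push Not at hno
      have key : ∀ t : Fin 2, (![p, q] : Fin 2 → k) t = 0 := by
        intro t
        have h1 := hbez t (fun u => algebraMap k K ((![p, q] : Fin 2 → k) u))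
        have hfe : ∀ i : Fin (n t), ∃ y : A, (y : K) =
            aeval (fun u => algebraMap k K ((![p, q] : Fin 2 → k) u)) (f t i) := by
          intro i
          refine ⟨⟨_, ?_⟩, rfl⟩
          rw [(f t i).as_sum, map_sum]
          refine Subalgebra.sum_mem _ fun u _ => ?_
          rw [aeval_monomial]
          refine Subalgebra.mul_mem _ (hfA t i u) ?_
          exact Subalgebra.prod_mem _ fun w _ => Subalgebra.pow_mem _ (A.algebraMap_mem _) _
        choose y hy using hfe
        have h2 : (algebraMap k A ((![p, q] : Fin 2 → k) t)) ^ M t =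
            ∑ i, y i * aeval (val FA (algebraMap k A p) (algebraMap k A q)) (H t i) := by
          apply Subtype.ext
          push_cast
          simp only [hy]
          refine Eq.trans ?_ (h1.trans ?_)
          · rfl
          · refine Finset.sum_congr rfl fun i _ => ?_
            rw [(hE (H t i) p q).2]
            rfl
        have h3 := congrArg s h2
        rw [map_pow, AlgHom.commutes, map_sum] at h3
        have h4 : ∑ i, s (y i * aeval (val FA (algebraMap k A p) (algebraMap k A q)) (H t i)) =
            0 := by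
          refine Finset.sum_eq_zero fun i _ => ?_
          rw [map_mul, ← (hE (H t i) p q).1]
          obtain ⟨l, G0, hG0, hl⟩ := hH t i
          rw [hl, hno l G0 hG0, mul_zero]
        rw [h4] at h3
        by_contra hne
        exact pow_ne_zero _ hne h3
      rcases hpq with h | h
      · exact h (key 0)
      · exact h (key 1)
    obtain ⟨l, G0, hG0, hl⟩ := hJ
    rw [map_mul, aeval_X] at hl
    refine ⟨fun h0 => left_ne_zero_of_mul hl (congrFun h0 l), fun E hEI => ?_,
      G0, hG0, right_ne_zero_of_mul hl⟩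
    exact hE0 E p q (hvan E (fun x hx => hx.2.1 E hEI) _ _)
  -- tangent tuples
  have hGt : ∀ l, IsTangent (pts k I J) F' (G' l) := by
    intro l p q E hE'
    have h1 : dif E (val FA (algebraMap k A p) (algebraMap k A q))
        (val (GA l) (algebraMap k A p) (algebraMap k A q)) = 0 := by
      apply Subtype.ext
      have h2 := hG l (algebraMap k K p) (algebraMap k K q) _ ((map_mem_van (K := K)).2 hE')
      rw [c0_dif_map] at h2
      refine Eq.trans ?_ h2
      simp only [dif]
      push_cast
      refine Finset.sum_congr rfl fun j _ => ?_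
      rw [(hE (pderiv j E) p q).2, ← (spec_val A s (GA l) p q).2 j]
    simp only [dif]
    have h3 := congrArg s h1
    simp only [dif] at h3
    rw [map_sum, map_zero] at h3
    rw [← h3]
    refine Finset.sum_congr rfl fun j _ => ?_
    rw [map_mul, (hE (pderiv j E) p q).1, ← (spec_val A s (GA l) p q).1 j]
  have hli' : LinearIndependent k (fun i : Fin D => val (G' i) 1 0) := by
    apply linearIndependent_of_det _ (fun l j => s ⟨B l j, hBA l j⟩)
    have h1 : (Matrix.of fun i j : Fin D => ∑ l, val (G' i) 1 0 l * s ⟨B l j, hBA l j⟩) = 1 := by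
      ext i j
      rw [Matrix.of_apply, Matrix.one_apply]
      have sv := spec_val A s (GA i) 1 0
      simp only [map_one, map_zero] at sv
      have h2 : ∑ l, val (GA i) 1 0 l * ⟨B l j, hBA l j⟩ = (if i = j then 1 else 0 : A) := by
        apply Subtype.ext
        have h3 := hB i j
        have h5 : ((if i = j then 1 else 0 : A) : K) = if i = j then 1 else 0 := by
          split_ifs
          · rfl
          · rfl
        rw [h5, ← h3, AddSubmonoidClass.coe_finsetSum]
        refine Finset.sum_congr rfl fun l _ => ?_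
        have h7 := sv.2 l
        exact congrArg (fun y => y * B l j) h7.symm
      have h4 := congrArg s h2
      have h6 : s (if i = j then 1 else 0 : A) = if i = j then 1 else 0 := by
        split_ifs
        · exact map_one s
        · exact map_zero s
      rw [map_sum, h6] at h4
      rw [← h4]
      refine Finset.sum_congr rfl fun l _ => ?_
      rw [map_mul, ← sv.1 l]
    rw [h1, Matrix.det_one]
    exact one_ne_zero
  have hx1 : val F' 1 0 ∈ pts k I J := hcurve 1 0 (Or.inl one_ne_zero)
  have hfr' := finrank_tan hx1 (hsm _ hx1)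
  have hspan : Submodule.span k (Set.range fun i : Fin D => val (G' i) 1 0) =
      Tan (pts k I J) (val F' 1 0) := by
    apply Submodule.eq_of_le_of_finrank_eq
    · rw [Submodule.span_le]
      rintro _ ⟨i, rfl⟩
      exact hGt i 1 0
    · rw [finrank_span_eq_card hli', Fintype.card_fin]
      change Module.finrank K (Tan (pts K I J) (val F 1 0)) = _
      omega
  have hvf' : VeryFree (pts k I J) F' := by
    apply veryFree_of_span_one
    refine span_one_of_sections hsm hcurve ?_ hd
    intro w hw
    rw [← hspan, Submodule.mem_span_range_iff_exists_fun] at hw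
    obtain ⟨u, hu⟩ := hw
    have h2 : ∀ i ∈ (Finset.univ : Finset (Fin D)), IsTangent (pts k I J) F' (c0_mulP (G' i)) :=
      fun i _ => c0_isTangent_mulP hd (hGt i)
    obtain ⟨h3, h4⟩ := c0_isTangent_sum Finset.univ u h2
    refine ⟨_, h3, ?_, ?_⟩
    · rw [h4]
      refine Finset.sum_eq_zero fun i _ => ?_
      have h5 : val (c0_mulP (G' i)) (0 : k) 1 = 0 := by
        funext l
        rw [c0_val_mulP hd, zero_mul, Pi.zero_apply]
      rw [h5, smul_zero]
    · rw [h4, ← hu]
      refine Finset.sum_congr rfl fun i _ => ?_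
      congr 1
      funext l
      rw [c0_val_mulP hd, one_mul]
  refine ⟨F', hcurve, hvf', fun l => ?_⟩
  refine ⟨s ⟨P l, hPA l⟩, s ⟨Q l, hQA l⟩, ?_, ?_⟩
  · by_contra hno
    push Not at hno
    have h1 : (⟨a l, haA l⟩ : A) * ⟨P l, hPA l⟩ + ⟨b l, hbA l⟩ * ⟨Q l, hQA l⟩ = 1 :=
      Subtype.ext (hab l)
    have h2 := congrArg s h1
    rw [map_add, map_mul, map_mul, hno.1, hno.2, mul_zero, mul_zero, add_zero, map_one] at h2
    exact zero_ne_one h2
  · funext i
    have h1 := c0_val_map (s : A →+* k) FA ⟨P l, hPA l⟩ ⟨Q l, hQA l⟩ i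
    have h2 := c0_val_map (A.val : A →+* K) FA ⟨P l, hPA l⟩ ⟨Q l, hQA l⟩ i
    have h3 : val FA ⟨P l, hPA l⟩ ⟨Q l, hQA l⟩ i = algebraMap k A (vs l i) := by
      apply Subtype.ext
      refine h2.symm.trans ?_
      exact congrFun (hPQ l) i
    rw [h3] at h1
    exact h1.trans (s.commutes _)

end

end Pool.Agent.VF
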