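import Pool.Agent.Lib_MP_1858fb_w.Char0A
import Pool.Agent.Lib_MP_1858fb_w.Char0F

/-!
# The main statement over `ℂ` implies it over every algebraically closed field of
characteristic zero
-/

namespace Pool.Agent.VF

open MvPolynomial

/-- the main theorem over the field `k` -/
def MainStatement (k : Type) [Field k] : Prop :=
  ∀ (N c d m : ℕ) (V : Set (Fin (N + 1) → k)) (F0 : Fin (d + 1) → Fin (N + 1) → k)
    (vs : Fin m → Fin (N + 1) → k), c < N → LocClosed V → Irred V →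
    (∀ x ∈ V, SmoothAt c V x) → IsCurve V F0 → VeryFree V F0 → (∀ l, vs l ∈ V) →
    ∃ (d' : ℕ) (F : Fin (d' + 1) → Fin (N + 1) → k), IsCurve V F ∧ VeryFree V F ∧
      ∀ l, ∃ p q : k, (p ≠ 0 ∨ q ≠ 0) ∧ val F p q = vs l

section

variable {k : Type} [Field k] {K : Type} [Field K] [Algebra k K]

theorem c0_exists_preimage {σ : Type} (f : MvPolynomial σ K)
    (h : ∀ x ∈ (f.coeffs : Set K), ∃ y : k, algebraMap k K y = x) :
    ∃ f0 : MvPolynomial σ k, MvPolynomial.map (algebraMap k K) f0 = f := by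
  classical
  have h1 : ∀ m, ∃ y : k, algebraMap k K y = coeff m f := by
    intro m
    by_cases hm : m ∈ f.support
    · exact h _ (MvPolynomial.coeff_mem_coeffs m (mem_support_iff.1 hm))
    · exact ⟨0, by rw [notMem_support_iff.1 hm, map_zero]⟩
  choose y hy using h1
  refine ⟨∑ m ∈ f.support, monomial m (y m), ?_⟩
  rw [map_sum]
  simp only [map_monomial, hy]
  exact f.support_sum_monomial_coeff

theorem c0_homogeneous {σ : Type} {f : MvPolynomial σ k} {e : ℕ}
    (h : (MvPolynomial.map (algebraMap k K) f).IsHomogeneous e) : f.IsHomogeneous e := by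
  intro m hm
  apply h
  rw [coeff_map]
  exact (map_ne_zero_iff _ (algebraMap k K).injective).2 hm

end

theorem c0_finite {R : Type} [CommRing R] [IsNoetherianRing R] (S : Set R) :
    ∃ S' : Finset R, (S' : Set R) ⊆ S ∧ Ideal.span S = Ideal.span (S' : Set R) :=
  Submodule.fg_span_iff_fg_span_finset_subset S |>.1 (IsNoetherian.noetherian (Ideal.span S))

theorem c0_vanish {k σ : Type} [Field k] {S T : Set (MvPolynomial σ k)}
    (h : Ideal.span S = Ideal.span T) (x : σ → k) (hT : ∀ f ∈ T, aeval x f = 0) :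
    ∀ f ∈ S, aeval x f = 0 := by
  intro f hf
  have h1 : Ideal.span T ≤ RingHom.ker (aeval x : MvPolynomial σ k →ₐ[k] k) :=
    Ideal.span_le.2 fun g hg => hT g hg
  exact h1 (h ▸ Ideal.subset_span hf)

theorem mainStatement_of_complex (h : MainStatement ℂ) (k : Type) [Field k] [IsAlgClosed k]
    [CharZero k] : MainStatement k := by
  classical
  intro N c d m V F0 vs hc hV hirr hsm hF hvf hvs
  obtain ⟨I, J, hIJ, hVe⟩ := hV
  obtain ⟨I', hI', hIs⟩ := c0_finite I
  obtain ⟨J', hJ', hJs⟩ := c0_finite J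
  have hV' : V = {x | x ≠ 0 ∧ (∀ E ∈ I', aeval x E = 0) ∧ ∃ G ∈ J', aeval x G ≠ 0} := by
    rw [hVe]
    ext x
    simp only [Set.mem_setOf_eq]
    refine and_congr_right fun _ => and_congr ?_ ?_
    · exact ⟨fun h E hE => h E (hI' hE), fun h => c0_vanish hIs x fun f hf => h f hf⟩
    · constructor
      · rintro ⟨G, hG, hx⟩
        by_contra hno
        push Not at hno
        exact hx (c0_vanish hJs x (fun f hf => hno f hf) G hG)
      · rintro ⟨G, hG, hx⟩
        exact ⟨G, hJ' hG, hx⟩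
  -- smooth data
  have hD : ∀ x : V, ∃ D : Dat c (Fin (N + 1)) k, D.Good V ∧ aeval x.1 D.P ≠ 0 := fun x =>
    smoothAt_iff.1 (hsm x.1 x.2)
  choose D hDg hDP using hD
  obtain ⟨S', hS', hSs⟩ := c0_finite (Set.range fun x => (D x).P)
  choose pt hpt using fun i : S' => hS' i.2
  have hcov : ∀ x ∈ V, ∃ i : S', aeval x (D (pt i)).P ≠ 0 := by
    intro x hx
    by_contra hno
    push Not at hno
    refine hDP ⟨x, hx⟩ (c0_vanish hSs x (fun f hf => ?_) _ ⟨_, rfl⟩)
    have h1 := hno ⟨f, hf⟩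
    have h2 : (D (pt ⟨f, hf⟩)).P = f := hpt ⟨f, hf⟩
    rw [h2] at h1
    exact h1
  -- the small field
  let T : Set k := (⋃ f ∈ I', (f.coeffs : Set k)) ∪ (⋃ f ∈ J', (f.coeffs : Set k)) ∪
    (Set.range fun x : Fin (d + 1) × Fin (N + 1) => F0 x.1 x.2) ∪
    (Set.range fun x : Fin m × Fin (N + 1) => vs x.1 x.2) ∪
    (⋃ i : S', ⋃ b : Fin c, ((D (pt i)).E b).coeffs) ∪ (⋃ i : S', ((D (pt i)).H).coeffs) ∪
    (Set.range fun x : S' × Fin (N + 1) × Fin c => (D (pt x.1)).B x.2.1 x.2.2)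
  have hT : T.Finite := by
    refine Set.Finite.union (Set.Finite.union (Set.Finite.union (Set.Finite.union
      (Set.Finite.union (Set.Finite.union ?_ ?_) ?_) ?_) ?_) ?_) ?_
    · exact Set.Finite.biUnion I'.finite_toSet fun f _ => Finset.finite_toSet _
    · exact Set.Finite.biUnion J'.finite_toSet fun f _ => Finset.finite_toSet _
    · exact Set.finite_range _
    · exact Set.finite_range _
    · exact Set.finite_iUnion fun i => Set.finite_iUnion fun b => Finset.finite_toSet _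
    · exact Set.finite_iUnion fun i => Finset.finite_toSet _
    · exact Set.finite_range _
  obtain ⟨k0, _, _, _, hk0, hcard⟩ := VFChar0.exists_countable_closed k T hT.countable
  have : CharZero k0 := by
    have h1 := (algebraMap k0 k).charZero_iff (algebraMap k0 k).injective
    exact h1.2 inferInstance
  obtain ⟨j⟩ := VFChar0.exists_embedding k0 hcard
  let _ : Algebra k0 ℂ := j.toAlgebra
  have hTI : ∀ f ∈ I', ∀ x ∈ (f.coeffs : Set k), x ∈ T := fun f hf x hx =>
    Or.inl (Or.inl (Or.inl (Or.inl (Or.inl (Or.inl (Set.mem_biUnion hf hx))))))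
  have hTJ : ∀ f ∈ J', ∀ x ∈ (f.coeffs : Set k), x ∈ T := fun f hf x hx =>
    Or.inl (Or.inl (Or.inl (Or.inl (Or.inl (Or.inr (Set.mem_biUnion hf hx))))))
  have hTF : ∀ j i, F0 j i ∈ T := fun j i =>
    Or.inl (Or.inl (Or.inl (Or.inl (Or.inr ⟨(j, i), rfl⟩))))
  have hTv : ∀ j i, vs j i ∈ T := fun j i => Or.inl (Or.inl (Or.inl (Or.inr ⟨(j, i), rfl⟩)))
  have hTE : ∀ (i : S') (b : Fin c), ∀ x ∈ (((D (pt i)).E b).coeffs : Set k), x ∈ T :=
    fun i b x hx => Or.inl (Or.inl (Or.inr (Set.mem_iUnion.2 ⟨i, Set.mem_iUnion.2 ⟨b, hx⟩⟩)))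
  have hTH : ∀ (i : S'), ∀ x ∈ (((D (pt i)).H).coeffs : Set k), x ∈ T :=
    fun i x hx => Or.inl (Or.inr (Set.mem_iUnion.2 ⟨i, hx⟩))
  have hTB : ∀ (i : S') a b, (D (pt i)).B a b ∈ T := fun i a b => Or.inr ⟨(i, a, b), rfl⟩
  -- descent of the data
  let I0 : Set (MvPolynomial (Fin (N + 1)) k0) := {f | MvPolynomial.map (algebraMap k0 k) f ∈ I'}
  let J0 : Set (MvPolynomial (Fin (N + 1)) k0) := {f | MvPolynomial.map (algebraMap k0 k) f ∈ J'}
  have hIJ0 : ∀ E ∈ I0 ∪ J0, ∃ e : ℕ, E.IsHomogeneous e := by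
    rintro E (hE | hE)
    · obtain ⟨e, he⟩ := hIJ _ (Or.inl (hI' hE))
      exact ⟨e, c0_homogeneous he⟩
    · obtain ⟨e, he⟩ := hIJ _ (Or.inr (hJ' hE))
      exact ⟨e, c0_homogeneous he⟩
  have hVk : V = pts k I0 J0 := by
    rw [hV']
    ext x
    simp only [pts, Set.mem_setOf_eq]
    refine and_congr_right fun _ => and_congr ?_ ?_
    · constructor
      · intro h E hE
        rw [← aeval_mapK]
        exact h _ hE
      · intro h E hE
        obtain ⟨f0, rfl⟩ := c0_exists_preimage (k := k0) E fun x hx => hk0 x (hTI E hE x hx)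
        rw [aeval_mapK]
        exact h f0 hE
    · constructor
      · rintro ⟨G, hG, hx⟩
        obtain ⟨f0, rfl⟩ := c0_exists_preimage (k := k0) G fun x hx => hk0 x (hTJ G hG x hx)
        rw [aeval_mapK] at hx
        exact ⟨f0, hG, hx⟩
      · rintro ⟨G, hG, hx⟩
        exact ⟨_, hG, by rwa [aeval_mapK]⟩
  choose F00 hF00 using fun j i => hk0 _ (hTF j i)
  have hFe : (upF F00 : Fin (d + 1) → Fin (N + 1) → k) = F0 := by
    funext j i
    exact hF00 j i
  choose vs0 hvs0 using fun j i => hk0 _ (hTv j i)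
  have hve : ∀ l, (up (vs0 l) : Fin (N + 1) → k) = vs l := by
    intro l
    funext i
    exact hvs0 l i
  choose E0 hE0 using fun (i : S') (b : Fin c) =>
    c0_exists_preimage (k := k0) ((D (pt i)).E b) fun x hx => hk0 x (hTE i b x hx)
  choose H0 hH0 using fun (i : S') =>
    c0_exists_preimage (k := k0) (D (pt i)).H fun x hx => hk0 x (hTH i x hx)
  choose B0 hB0 using fun (i : S') a b => hk0 _ (hTB i a b)
  let D0 : S' → Dat c (Fin (N + 1)) k0 := fun i => ⟨E0 i, H0 i, B0 i⟩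
  have hD0 : ∀ i, (D0 i).up k = D (pt i) := by
    intro i
    simp only [Dat.up, D0, hE0, hH0, hB0]
  -- over the small field
  have hDg2 : ∀ i, (D (pt i)).Good (pts k I0 J0) := by
    intro i
    rw [← hVk]
    exact hDg _
  rw [hVk] at hirr hF hvf hvs
  have hcov2 : ∀ x ∈ pts k I0 J0, ∃ i : S', aeval x (D (pt i)).P ≠ 0 := by
    rw [← hVk]
    exact hcov
  rw [← hFe] at hF hvf
  have hirr0 : Irred (pts k0 I0 J0) := irred_down hirr
  have hsm0 : ∀ x ∈ pts k0 I0 J0, SmoothAt c (pts k0 I0 J0) x :=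
    smooth_down (K := k) D0 (fun i => by rw [hD0]; exact hDg2 i)
      (fun x hx => by simpa only [hD0] using hcov2 x hx)
  have hF1 : IsCurve (pts k0 I0 J0) F00 := isCurve_down hF
  have hvf1 : VeryFree (pts k0 I0 J0) F00 := veryFree_down hF1 hvf
  have hvs1 : ∀ l, vs0 l ∈ pts k0 I0 J0 := fun l => (up_mem (K := k)).1 (by
    rw [hve]
    exact hvs l)
  -- over the complex numbers
  obtain ⟨d', F, hFc, hFv, hFp⟩ := h N c d m (pts ℂ I0 J0) (upF F00) (fun l => up (vs0 l)) hc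
    (locClosed_pts hIJ0) (irred_up hirr0) (smooth_up hsm0) (c0_isCurve_up hF1)
    (veryFree_up hc hIJ0 hsm0 hF1 hvf1) (fun l => up_mem.2 (hvs1 l))
  obtain ⟨F', hF'c, hF'v, hF'p⟩ := descend hc hIJ0 hsm0 hFc hFv vs0 hFp
  rw [hVk]
  refine ⟨d', upF F', c0_isCurve_up hF'c, veryFree_up hc hIJ0 hsm0 hF'c hF'v, fun l => ?_⟩
  obtain ⟨p, q, hpq, hl⟩ := hF'p l
  refine ⟨algebraMap k0 k p, algebraMap k0 k q, ?_, ?_⟩
  · rcases hpq with h | h
    · exact Or.inl ((map_ne_zero_iff _ (algebraMap k0 k).injective).2 h)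
    · exact Or.inr ((map_ne_zero_iff _ (algebraMap k0 k).injective).2 h)
  · rw [val_upF, hl, hve]

end Pool.Agent.VF
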