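import Mathlib

/-!
# From `ℂ` to algebraically closed fields of characteristic zero

Finitely many (or countably many) elements of an algebraically closed field `k` of characteristic zero
lie in a countable algebraically closed subfield, and every countable field of characteristic zero
embeds into `ℂ`.
-/

open Cardinal

namespace Pool.Agent.VFChar0

universe u

/-- countably many elements lie in a countable algebraically closed subfield -/
theorem exists_countable_closed (k : Type u) [Field k] [IsAlgClosed k] [CharZero k] (s : Set k)
    (hs : s.Countable) :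
    ∃ (k0 : Type u) (_ : Field k0) (_ : IsAlgClosed k0) (_ : Algebra k0 k),
      (∀ x ∈ s, ∃ y : k0, algebraMap k0 k y = x) ∧ #k0 ≤ ℵ₀ := by
  classical
  let F := IntermediateField.adjoin ℚ s
  have hF : #F ≤ ℵ₀ := by
    have h1 := IntermediateField.lift_cardinalMk_adjoin_le ℚ s
    rw [Cardinal.lift_id'.{0, u}] at h1
    refine h1.trans (sup_le (sup_le ?_ ?_) le_rfl)
    · simp
    · rw [Cardinal.lift_id'.{0, u}]
      exact Cardinal.le_aleph0_iff_set_countable.2 hs
  let K := algebraicClosure F k
  have : IsAlgClosure F K := inferInstance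
  refine ⟨K, inferInstance, IsAlgClosure.isAlgClosed F, inferInstance, ?_, ?_⟩
  · intro x hx
    have hxF : x ∈ F := IntermediateField.subset_adjoin ℚ s hx
    refine ⟨algebraMap F K ⟨x, hxF⟩, ?_⟩
    rfl
  · refine (Algebra.IsAlgebraic.cardinalMk_le_max F K).trans ?_
    exact max_le hF le_rfl

/-- countable fields of characteristic zero embed into `ℂ` -/
theorem exists_embedding (k0 : Type u) [Field k0] [CharZero k0] (h : #k0 ≤ ℵ₀) :
    Nonempty (k0 →+* ℂ) := by
  classical
  let R := FractionRing (MvPolynomial ℝ k0)
  let K := AlgebraicClosure R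
  have hinj : Function.Injective (algebraMap k0 K) := (algebraMap k0 K).injective
  have : CharZero K := charZero_of_injective_algebraMap hinj
  have hR : #R = Cardinal.lift.{u} Cardinal.continuum.{0} := by
    rw [Cardinal.mk_fractionRing, MvPolynomial.cardinalMk_eq_max_lift, Cardinal.mk_real,
      Cardinal.lift_id'.{0, u}]
    have h1 : #k0 ≤ Cardinal.lift.{u} Cardinal.continuum.{0} := by
      refine h.trans ?_
      rw [Cardinal.lift_continuum]
      exact Cardinal.aleph0_le_continuum
    rw [sup_eq_right.2 h1]
    apply sup_eq_left.2
    rw [Cardinal.lift_continuum]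
    exact Cardinal.aleph0_le_continuum
  have hK : #K = Cardinal.lift.{u} Cardinal.continuum.{0} := by
    apply le_antisymm
    · refine (Algebra.IsAlgebraic.cardinalMk_le_max R K).trans ?_
      rw [hR]
      refine max_le le_rfl ?_
      rw [Cardinal.lift_continuum]
      exact Cardinal.aleph0_le_continuum
    · rw [← hR]
      exact Cardinal.mk_le_of_injective (algebraMap R K).injective
  have hK2 : ℵ₀ < #K := by
    rw [hK]
    simp [Cardinal.aleph0_lt_continuum]
  have hKC : Nonempty (K ≃ ℂ) := by
    rw [← Cardinal.lift_mk_eq']
    rw [hK]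
    simp
  obtain ⟨e⟩ := IsAlgClosed.ringEquiv_of_equiv_of_charZero hK2 hKC
  exact ⟨e.toRingHom.comp (algebraMap k0 K)⟩

end Pool.Agent.VFChar0
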