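import Pool.Agent.Lib_MP_1858fb_w.Spec

/-!
# Base change of locally closed sets along `k ⊆ K`

`pts K I J`: the points over `K` of the locally closed set given by the polynomials `I`, `J` over
`k`.  Vanishing ideals, irreducibility, smoothness, curves and tangent spaces under the extension
`K` of the algebraically closed field `k`.
-/

namespace Pool.Agent.VF

open MvPolynomial

section

variable {k : Type} [Field k] {σ : Type}

/-- the points over `K` of the locally closed set defined by `I` and `J` -/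
def pts (K : Type) [Field K] [Algebra k K] (I J : Set (MvPolynomial σ k)) : Set (σ → K) :=
  {x | x ≠ 0 ∧ (∀ E ∈ I, aeval x E = 0) ∧ ∃ G ∈ J, aeval x G ≠ 0}

variable {K : Type} [Field K] [Algebra k K]

/-- a point over `k` as a point over `K` -/
def up (x : σ → k) : σ → K := fun i => algebraMap k K (x i)

theorem aeval_up (x : σ → k) (f : MvPolynomial σ k) :
    aeval (up x : σ → K) f = algebraMap k K (aeval x f) :=
  MvPolynomial.aeval_algebraMap_apply K x f

theorem up_ne_zero {x : σ → k} : (up x : σ → K) ≠ 0 ↔ x ≠ 0 := by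
  rw [not_iff_not]
  constructor
  · intro h
    funext i
    have := congrFun h i
    exact (map_eq_zero_iff _ (algebraMap k K).injective).1 this
  · rintro rfl
    funext i
    exact map_zero _

theorem up_mem {I J : Set (MvPolynomial σ k)} {x : σ → k} :
    (up x : σ → K) ∈ pts K I J ↔ x ∈ pts k I J := by
  simp only [pts, Set.mem_setOf_eq, up_ne_zero, aeval_up, ne_eq,
    map_eq_zero_iff _ (algebraMap k K).injective]

theorem aeval_mapK (x : σ → K) (f : MvPolynomial σ k) :
    aeval x (MvPolynomial.map (algebraMap k K) f) = aeval x f := by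
  rw [MvPolynomial.aeval_map_algebraMap]

/-- specialization of a point of the locally closed set -/
theorem spec_pts [IsAlgClosed k] [Finite σ] {I J : Set (MvPolynomial σ k)} {x : σ → K}
    (hx : x ∈ pts K I J) (f : MvPolynomial σ k) (hf : aeval x f ≠ 0) :
    ∃ x0 ∈ pts k I J, (∀ g : MvPolynomial σ k, aeval x g = 0 → aeval x0 g = 0) ∧
      aeval x0 f ≠ 0 := by
  obtain ⟨h0, hI, G, hG, hGx⟩ := hx
  obtain ⟨i, hi⟩ : ∃ i, x i ≠ 0 := by
    by_contra hcon
    push Not at hcon
    exact h0 (funext hcon)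
  obtain ⟨x0, h1, h2⟩ := spec_points x (f * G * X i) (by
    rw [map_mul, map_mul, aeval_X]
    exact mul_ne_zero (mul_ne_zero hf hGx) hi)
  rw [map_mul, map_mul, aeval_X] at h2
  have h3 := left_ne_zero_of_mul h2
  refine ⟨x0, ⟨?_, fun E hE => h1 E (hI E hE), G, hG, right_ne_zero_of_mul h3⟩, h1,
    left_ne_zero_of_mul h3⟩
  rintro rfl
  exact right_ne_zero_of_mul h2 rfl

/-- polynomials over `k` that vanish on the set -/
theorem map_mem_van [IsAlgClosed k] [Finite σ] {I J : Set (MvPolynomial σ k)}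
    {f : MvPolynomial σ k} :
    MvPolynomial.map (algebraMap k K) f ∈ van (pts K I J) ↔ f ∈ van (pts k I J) := by
  constructor
  · intro h x hx
    have := h (up x) (up_mem.2 hx)
    rw [aeval_mapK, aeval_up] at this
    exact (map_eq_zero_iff _ (algebraMap k K).injective).1 this
  · intro h x hx
    rw [aeval_mapK]
    by_contra hne
    obtain ⟨x0, hx0, -, h2⟩ := spec_pts hx f hne
    exact h2 (h x0 hx0)

theorem co_mem_van {I J : Set (MvPolynomial σ k)} {E : MvPolynomial σ K}
    (hE : E ∈ van (pts K I J)) (φ : K →ₗ[k] k) : co φ E ∈ van (pts k I J) := by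
  intro x hx
  rw [aeval_co]
  have := hE (up x) (up_mem.2 hx)
  change φ (aeval (up x) E) = 0
  rw [this, map_zero]

/-- the vanishing ideal over `K` is generated by the vanishing ideal over `k` -/
theorem mem_van_iff [IsAlgClosed k] [Finite σ] {I J : Set (MvPolynomial σ k)}
    {E : MvPolynomial σ K} : E ∈ van (pts K I J) ↔
      E ∈ Ideal.span (MvPolynomial.map (algebraMap k K) '' (van (pts k I J) :
        Set (MvPolynomial σ k))) := by
  constructor
  · intro h
    exact mem_span_co E fun φ => co_mem_van h φ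
  · intro h
    refine Ideal.span_le.2 ?_ h
    rintro _ ⟨f, hf, rfl⟩
    exact map_mem_van.2 hf

/-- irreducibility goes up -/
theorem irred_up [IsAlgClosed k] [Finite σ] {I J : Set (MvPolynomial σ k)}
    (h : Irred (pts k I J)) : Irred (pts K I J) := by
  obtain ⟨⟨x, hx⟩, hirr⟩ := h
  refine ⟨⟨up x, up_mem.2 hx⟩, fun E G hEG => ?_⟩
  by_contra hno
  push Not at hno
  obtain ⟨hE, hG⟩ := hno
  have h1 : ∀ E : MvPolynomial σ K, E ∉ van (pts K I J) →
      ∃ φ : K →ₗ[k] k, co φ E ∉ van (pts k I J) := by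
    intro E hE
    by_contra hcon
    push Not at hcon
    exact hE (mem_van_iff.2 (mem_span_co E hcon))
  obtain ⟨φ, hφ⟩ := h1 E hE
  obtain ⟨ψ, hψ⟩ := h1 G hG
  have h2 : co φ E * co ψ G ∉ van (pts k I J) := fun hc => by
    rcases hirr _ _ hc with h | h
    · exact hφ h
    · exact hψ h
  have h3 : ∃ x0 ∈ pts k I J, aeval x0 (co φ E * co ψ G) ≠ 0 := by
    by_contra hcon
    push Not at hcon
    exact h2 hcon
  obtain ⟨x0, hx0, h4⟩ := h3
  rw [map_mul, aeval_co, aeval_co] at h4
  have h5 : aeval (up x0 : σ → K) E ≠ 0 := fun hc => left_ne_zero_of_mul h4 (by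
    change φ (aeval (up x0) E) = 0
    rw [hc, map_zero])
  have h6 : aeval (up x0 : σ → K) G ≠ 0 := fun hc => right_ne_zero_of_mul h4 (by
    change ψ (aeval (up x0) G) = 0
    rw [hc, map_zero])
  have h7 := hEG (up x0) (up_mem.2 hx0)
  rw [map_mul] at h7
  exact mul_ne_zero h5 h6 h7

/-- irreducibility goes down -/
theorem irred_down [IsAlgClosed k] [Finite σ] {I J : Set (MvPolynomial σ k)}
    (h : Irred (pts K I J)) : Irred (pts k I J) := by
  obtain ⟨⟨x, hx⟩, hirr⟩ := h
  constructor
  · obtain ⟨x0, hx0, -⟩ := spec_pts hx 1 (by rw [map_one]; exact one_ne_zero)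
    exact ⟨x0, hx0⟩
  · intro E G hEG
    have h1 := map_mem_van (K := K).2 hEG
    rw [map_mul] at h1
    rcases hirr _ _ h1 with h | h
    · exact Or.inl (map_mem_van.1 h)
    · exact Or.inr (map_mem_van.1 h)

theorem locClosed_pts {N : ℕ} {I J : Set (MvPolynomial (Fin (N + 1)) k)}
    (h : ∀ E ∈ I ∪ J, ∃ e : ℕ, E.IsHomogeneous e) : LocClosed (pts K I J) := by
  refine ⟨MvPolynomial.map (algebraMap k K) '' I, MvPolynomial.map (algebraMap k K) '' J, ?_, ?_⟩
  · rintro E (⟨E, hE, rfl⟩ | ⟨E, hE, rfl⟩)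
    · obtain ⟨e, he⟩ := h E (Or.inl hE)
      exact ⟨e, he.map _⟩
    · obtain ⟨e, he⟩ := h E (Or.inr hE)
      exact ⟨e, he.map _⟩
  · ext x
    simp only [pts, Set.mem_setOf_eq, Set.forall_mem_image, Set.exists_mem_image, aeval_mapK]

end

end Pool.Agent.VF
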