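import Pool.Agent.Lib_MP_1858fb_w.Char0B

/-!
# Smoothness along `k ⊆ K`
-/

namespace Pool.Agent.VF

open MvPolynomial

section

variable {k : Type} [Field k] {σ : Type} [Fintype σ] {c : ℕ}

/-- `c` polynomials, a polynomial `H` and a constant matrix -/
structure Dat (c : ℕ) (σ k : Type) [Field k] where
  E : Fin c → MvPolynomial σ k
  H : MvPolynomial σ k
  B : σ → Fin c → k

/-- the polynomial of the data: at its nonzeros the data give a smooth chart -/
noncomputable def Dat.P (D : Dat c σ k) : MvPolynomial σ k :=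
  D.H * (Matrix.of fun i j : Fin c => ∑ l, pderiv l (D.E i) * C (D.B l j)).det

/-- the equations are equations of `V` and generate its ideal where `H` does not vanish -/
def Dat.Good (D : Dat c σ k) (V : Set (σ → k)) : Prop :=
  (∀ i, D.E i ∈ van V) ∧ ∀ G ∈ van V, D.H * G ∈ Ideal.span (Set.range D.E)

theorem aeval_P {R : Type} [CommRing R] [Algebra k R] (D : Dat c σ k) (x : σ → R) :
    aeval x D.P = aeval x D.H * (Matrix.of fun i j : Fin c =>
      ∑ l, aeval x (pderiv l (D.E i)) * algebraMap k R (D.B l j)).det := by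
  rw [Dat.P, map_mul, AlgHom.map_det]
  congr 2
  ext i j
  simp [AlgHom.mapMatrix_apply]

/-- a family with a right inverse is linearly independent -/
theorem linearIndependent_of_det {R : Type} [Field R] (a : Fin c → σ → R) (b : σ → Fin c → R)
    (h : (Matrix.of fun i j : Fin c => ∑ l, a i l * b l j).det ≠ 0) : LinearIndependent R a := by
  classical
  rw [Fintype.linearIndependent_iff]
  intro g hg
  have h1 : g = 0 := by
    apply Matrix.eq_zero_of_vecMul_eq_zero h
    funext j
    have : ∑ i, g i * ∑ l, a i l * b l j = ∑ l, (∑ i, g i * a i l) * b l j := by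
      simp only [Finset.mul_sum, Finset.sum_mul]
      rw [Finset.sum_comm]
      exact Finset.sum_congr rfl fun l _ => Finset.sum_congr rfl fun i _ => by ring
    simp only [Matrix.vecMul, dotProduct, Matrix.of_apply, Pi.zero_apply]
    rw [this]
    refine Finset.sum_eq_zero fun l _ => ?_
    have h2 := congrFun hg l
    rw [Finset.sum_apply] at h2
    simp only [Pi.smul_apply, smul_eq_mul, Pi.zero_apply] at h2
    rw [h2, zero_mul]
  intro i
  rw [h1]
  rfl

/-- a linearly independent family has a right inverse -/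
theorem exists_right_inverse {R : Type} [Field R] (a : Fin c → σ → R)
    (h : LinearIndependent R a) :
    ∃ b : σ → Fin c → R, ∀ i j, ∑ l, a i l * b l j = if i = j then 1 else 0 := by
  classical
  obtain ⟨g, hg⟩ := LinearMap.exists_leftInverse_of_injective (Fintype.linearCombination R a)
    (LinearMap.ker_eq_bot.2 h.fintypeLinearCombination_injective)
  refine ⟨fun l j => g (Pi.single l 1) j, fun i j => ?_⟩
  have h1 : ∑ l, a i l * g (Pi.single l 1) j = g (a i) j := by
    have h2 : a i = ∑ l, a i l • (Pi.single l (1 : R) : σ → R) := by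
      funext l
      simp [Finset.sum_apply, Pi.single_apply]
    conv_rhs => rw [h2, map_sum, Finset.sum_apply]
    refine Finset.sum_congr rfl fun l _ => ?_
    rw [map_smul, Pi.smul_apply, smul_eq_mul]
  rw [h1]
  have h3 : a i = Fintype.linearCombination R a (Pi.single i 1) := by
    rw [Fintype.linearCombination_apply_single, one_smul]
  rw [h3, ← LinearMap.comp_apply, hg, LinearMap.id_apply, Pi.single_apply]
  simp only [eq_comm]

theorem smoothAt_iff {V : Set (σ → k)} {x : σ → k} :
    SmoothAt c V x ↔ ∃ D : Dat c σ k, D.Good V ∧ aeval x D.P ≠ 0 := by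
  classical
  constructor
  · rintro ⟨E, H, h1, h2, h3, h4⟩
    obtain ⟨b, hb⟩ := exists_right_inverse _ h2
    refine ⟨⟨E, H, b⟩, ⟨h1, h4⟩, ?_⟩
    rw [aeval_P]
    have : (Matrix.of fun i j : Fin c => ∑ l, aeval x (pderiv l (E i)) * algebraMap k k (b l j)) =
        1 := by
      ext i j
      rw [Matrix.of_apply, Matrix.one_apply, ← hb i j]
      rfl
    change aeval x H * (Matrix.of fun i j : Fin c =>
      ∑ l, aeval x (pderiv l (E i)) * algebraMap k k (b l j)).det ≠ 0
    rw [this, Matrix.det_one, mul_one]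
    exact h3
  · rintro ⟨D, ⟨h1, h4⟩, h5⟩
    rw [aeval_P] at h5
    exact ⟨D.E, D.H, h1, linearIndependent_of_det _ _ (right_ne_zero_of_mul h5),
      left_ne_zero_of_mul h5, h4⟩

variable {K : Type} [Field K] [Algebra k K]

/-- the data over `K` -/
noncomputable def Dat.up (D : Dat c σ k) (K : Type) [Field K] [Algebra k K] : Dat c σ K where
  E := fun i => MvPolynomial.map (algebraMap k K) (D.E i)
  H := MvPolynomial.map (algebraMap k K) D.H
  B := fun l j => algebraMap k K (D.B l j)

theorem aeval_up_P (D : Dat c σ k) (x : σ → K) : aeval x (D.up K).P = aeval x D.P := by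
  rw [aeval_P, aeval_P]
  simp only [Dat.up, aeval_mapK, pderiv_map]
  rfl

theorem good_up [IsAlgClosed k] {I J : Set (MvPolynomial σ k)} {D : Dat c σ k} :
    (D.up K).Good (pts K I J) ↔ D.Good (pts k I J) := by
  have himg : Set.range (D.up K).E = MvPolynomial.map (algebraMap k K) '' Set.range D.E := by
    rw [← Set.range_comp]
    rfl
  constructor
  · rintro ⟨h1, h2⟩
    refine ⟨fun i => map_mem_van.1 (h1 i), fun G hG => ?_⟩
    have h3 := h2 _ (map_mem_van.2 hG)
    rw [himg] at h3
    apply mem_span_of_map (K := K)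
    rw [map_mul]
    exact h3
  · rintro ⟨h1, h2⟩
    refine ⟨fun i => map_mem_van.2 (h1 i), fun G hG => ?_⟩
    rw [himg]
    rw [mem_van_iff] at hG
    induction hG using Submodule.span_induction with
    | mem x hx =>
      obtain ⟨f, hf, rfl⟩ := hx
      have h3 := h2 f hf
      have h4 := Ideal.mem_map_of_mem (MvPolynomial.map (algebraMap k K)) h3
      rw [Ideal.map_span, map_mul] at h4
      exact h4
    | zero =>
      rw [mul_zero]
      exact zero_mem _
    | add x y _ _ hx hy =>
      rw [mul_add]
      exact add_mem hx hy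
    | smul a x _ hx =>
      rw [smul_eq_mul, mul_left_comm]
      exact Ideal.mul_mem_left _ _ hx

/-- smoothness goes up -/
theorem smooth_up [IsAlgClosed k] {I J : Set (MvPolynomial σ k)}
    (h : ∀ x ∈ pts k I J, SmoothAt c (pts k I J) x) :
    ∀ x ∈ pts K I J, SmoothAt c (pts K I J) x := by
  intro x hx
  by_contra hno
  have key : ∀ D : Dat c σ k, D.Good (pts k I J) → aeval x D.P = 0 := by
    intro D hD
    by_contra hne
    exact hno (smoothAt_iff.2 ⟨D.up K, good_up.2 hD, by rw [aeval_up_P]; exact hne⟩)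
  obtain ⟨x0, hx0, h1, -⟩ := spec_pts hx 1 (by rw [map_one]; exact one_ne_zero)
  obtain ⟨D, hD, hDx⟩ := smoothAt_iff.1 (h x0 hx0)
  exact hDx (h1 _ (key D hD))

/-- smoothness goes down if finitely many data over `k` cover the set over `K` -/
theorem smooth_down [IsAlgClosed k] {I J : Set (MvPolynomial σ k)} {ι : Type}
    (D : ι → Dat c σ k) (hD : ∀ i, ((D i).up K).Good (pts K I J))
    (hcov : ∀ x ∈ pts K I J, ∃ i, aeval x ((D i).up K).P ≠ 0) :
    ∀ x ∈ pts k I J, SmoothAt c (pts k I J) x := by
  intro x hx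
  obtain ⟨i, hi⟩ := hcov (up x) (up_mem.2 hx)
  refine smoothAt_iff.2 ⟨D i, good_up.1 (hD i), fun hc => hi ?_⟩
  rw [aeval_up_P, aeval_up, hc, map_zero]

end

end Pool.Agent.VF
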