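import Pool.Agent.Lib_MP_1858fb_w.Char0C

/-!
# Curves and tangent spaces along `k ⊆ K`
-/

namespace Pool.Agent.VF

open MvPolynomial

section

variable {k : Type} [Field k] {N d e : ℕ}

/-- values commute with ring homomorphisms -/
theorem c0_val_map {R S : Type} [CommRing R] [CommRing S] (f : R →+* S)
    (F : Fin (d + 1) → Fin (N + 1) → R) (p q : R) (i : Fin (N + 1)) :
    val (fun j i => f (F j i)) (f p) (f q) i = f (val F p q i) := by
  simp only [val, map_sum, map_mul, map_pow]

/-- the coefficients as elements of `K` -/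
def upF {K : Type} [Field K] [Algebra k K] (F : Fin (d + 1) → Fin (N + 1) → k) :
    Fin (d + 1) → Fin (N + 1) → K := fun j i => algebraMap k K (F j i)

/-- the generic value -/
noncomputable def valP (F : Fin (d + 1) → Fin (N + 1) → k) :
    Fin (N + 1) → MvPolynomial (Fin 2) k := val (fun j i => C (F j i)) (X 0) (X 1)

theorem aeval_valP {R : Type} [CommRing R] [Algebra k R] (F : Fin (d + 1) → Fin (N + 1) → k)
    (x : Fin 2 → R) (i : Fin (N + 1)) :
    aeval x (valP F i) = val (fun j i => algebraMap k R (F j i)) (x 0) (x 1) i := by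
  simp only [valP, val, map_sum, map_mul, map_pow, aeval_X, aeval_C]

theorem aeval_bind {R : Type} [CommRing R] [Algebra k R] (F : Fin (d + 1) → Fin (N + 1) → k)
    (x : Fin 2 → R) (E : MvPolynomial (Fin (N + 1)) k) :
    aeval x (aeval (valP F) E) = aeval (val (fun j i => algebraMap k R (F j i)) (x 0) (x 1)) E := by
  rw [comp_aeval_apply]
  congr 2
  funext i
  exact aeval_valP F x i

theorem aeval_dif {R : Type} [CommRing R] [Algebra k R] (F : Fin (d + 1) → Fin (N + 1) → k)
    (G : Fin (e + 1) → Fin (N + 1) → k) (x : Fin 2 → R) (E : MvPolynomial (Fin (N + 1)) k) :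
    aeval x (dif E (valP F) (valP G)) =
      dif E (val (fun j i => algebraMap k R (F j i)) (x 0) (x 1))
        (val (fun j i => algebraMap k R (G j i)) (x 0) (x 1)) := by
  simp only [dif, map_sum, map_mul, aeval_bind, aeval_valP]

/-- the equations of a curve, as identities of polynomials -/
theorem c0_curve_eq [Infinite k] {V : Set (Fin (N + 1) → k)} {F : Fin (d + 1) → Fin (N + 1) → k}
    (hF : IsCurve V F) {E : MvPolynomial (Fin (N + 1)) k} (hE : E ∈ van V) :
    aeval (valP F) E = 0 := by
  have h1 : aeval (valP F) E * X 0 = 0 := by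
    apply MvPolynomial.funext
    intro x
    rw [map_mul, map_zero, eval_X]
    by_cases hx : x 0 = 0
    · rw [hx, mul_zero]
    · have h2 := aeval_bind F x E
      rw [← aeval_eq_eval] 
      have h3 : aeval x (aeval (valP F) E) = 0 := by
        rw [h2]
        exact hE _ (hF (x 0) (x 1) (Or.inl hx))
      rw [h3, zero_mul]
  rcases mul_eq_zero.1 h1 with h | h
  · exact h
  · exact absurd h (X_ne_zero 0)

/-- the equations of a tangent tuple, as identities of polynomials -/
theorem c0_tangent_eq [Infinite k] {V : Set (Fin (N + 1) → k)} {F : Fin (d + 1) → Fin (N + 1) → k}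
    {G : Fin (e + 1) → Fin (N + 1) → k} (hG : IsTangent V F G)
    {E : MvPolynomial (Fin (N + 1)) k} (hE : E ∈ van V) :
    dif E (valP F) (valP G) = 0 := by
  apply MvPolynomial.funext
  intro x
  have h2 := aeval_dif F G x E
  rw [map_zero, ← aeval_eq_eval, h2]
  exact hG (x 0) (x 1) E hE

variable {K : Type} [Field K] [Algebra k K]

theorem val_upF (F : Fin (d + 1) → Fin (N + 1) → k) (p q : k) :
    val (upF F : Fin (d + 1) → Fin (N + 1) → K) (algebraMap k K p) (algebraMap k K q) =
      up (val F p q) := by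
  funext i
  exact c0_val_map (algebraMap k K) F p q i

theorem c0_isCurve_up [IsAlgClosed k] {I J : Set (MvPolynomial (Fin (N + 1)) k)}
    {F : Fin (d + 1) → Fin (N + 1) → k} (hF : IsCurve (pts k I J) F) :
    IsCurve (pts K I J) (upF F) := by
  have hinf : Infinite k := IsAlgClosed.instInfinite
  intro p q hpq
  let x : Fin 2 → K := ![p, q]
  obtain ⟨i0, hi0⟩ : ∃ i0, x i0 ≠ 0 := by
    rcases hpq with h | h
    · exact ⟨0, h⟩
    · exact ⟨1, h⟩
  have key : ∀ f : MvPolynomial (Fin 2) k, aeval x f ≠ 0 → ∃ x0 : Fin 2 → k,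
      (∀ g : MvPolynomial (Fin 2) k, aeval x g = 0 → aeval x0 g = 0) ∧ aeval x0 f ≠ 0 ∧
        val F (x0 0) (x0 1) ∈ pts k I J := by
    intro f hf
    obtain ⟨x0, h1, h2⟩ := spec_points x (f * X i0) (by
      rw [map_mul, aeval_X]
      exact mul_ne_zero hf hi0)
    rw [map_mul, aeval_X] at h2
    refine ⟨x0, h1, left_ne_zero_of_mul h2, hF _ _ ?_⟩
    have h3 := right_ne_zero_of_mul h2
    fin_cases i0
    · exact Or.inl h3
    · exact Or.inr h3
  have e0 : ∀ x0 : Fin 2 → k, (fun j i => algebraMap k k (F j i)) = F := fun _ => rfl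
  refine ⟨?_, ?_, ?_⟩
  · intro h0
    obtain ⟨x0, h1, -, h2⟩ := key 1 (by rw [map_one]; exact one_ne_zero)
    apply h2.1
    funext i
    have h3 := h1 (valP F i) (by
      rw [aeval_valP]
      exact congrFun h0 i)
    rw [aeval_valP] at h3
    exact h3
  · intro E hE
    by_contra hne
    obtain ⟨x0, -, h1, h2⟩ := key (aeval (valP F) E) (by
      rw [aeval_bind]
      exact hne)
    rw [aeval_bind] at h1
    exact h1 (h2.2.1 E hE)
  · by_contra hno
    push Not at hno
    obtain ⟨x0, h1, -, h2⟩ := key 1 (by rw [map_one]; exact one_ne_zero)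
    obtain ⟨G, hG, hGx⟩ := h2.2.2
    apply hGx
    have h3 := h1 (aeval (valP F) G) (by
      rw [aeval_bind]
      exact hno G hG)
    rw [aeval_bind] at h3
    exact h3

theorem isCurve_down {I J : Set (MvPolynomial (Fin (N + 1)) k)}
    {F : Fin (d + 1) → Fin (N + 1) → k} (hF : IsCurve (pts K I J) (upF F)) :
    IsCurve (pts k I J) F := by
  intro p q hpq
  have h1 := hF (algebraMap k K p) (algebraMap k K q) (by
    rcases hpq with h | h
    · exact Or.inl (by rwa [Ne, map_eq_zero_iff _ (algebraMap k K).injective])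
    · exact Or.inr (by rwa [Ne, map_eq_zero_iff _ (algebraMap k K).injective]))
  rw [val_upF] at h1
  exact up_mem.1 h1

section tan

variable {σ : Type} [Fintype σ]

theorem c0_dif_map (E : MvPolynomial σ k) (x w : σ → K) :
    dif (MvPolynomial.map (algebraMap k K) E) x w = dif E x w := by
  simp only [dif, pderiv_map, aeval_mapK]

theorem c0_dif_mul {R : Type} [CommRing R] [Algebra k R] (A B : MvPolynomial σ k) (x w : σ → R) :
    dif (A * B) x w = aeval x A * dif B x w + aeval x B * dif A x w := by
  simp only [dif, Derivation.leibniz, map_add, smul_eq_mul, map_mul, Finset.mul_sum]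
  rw [← Finset.sum_add_distrib]
  exact Finset.sum_congr rfl fun j _ => by ring

theorem c0_dif_add {R : Type} [CommRing R] [Algebra k R] (A B : MvPolynomial σ k) (x w : σ → R) :
    dif (A + B) x w = dif A x w + dif B x w := by
  simp only [dif, map_add, add_mul, Finset.sum_add_distrib]

theorem c0_mem_tan_iff [IsAlgClosed k] {I J : Set (MvPolynomial σ k)} {x w : σ → K}
    (hx : ∀ E ∈ van (pts k I J), aeval x E = 0) :
    w ∈ Tan (pts K I J) x ↔ ∀ E ∈ van (pts k I J), dif E x w = 0 := by
  constructor
  · intro h E hE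
    rw [← c0_dif_map]
    exact h _ (map_mem_van.2 hE)
  · intro h E hE
    rw [mem_van_iff] at hE
    have key : aeval x E = 0 ∧ dif E x w = 0 := by
      induction hE using Submodule.span_induction with
      | mem y hy =>
        obtain ⟨f, hf, rfl⟩ := hy
        exact ⟨by rw [aeval_mapK]; exact hx f hf, by rw [c0_dif_map]; exact h f hf⟩
      | zero => exact ⟨map_zero _, by simp [dif]⟩
      | add y z _ _ hy hz =>
        exact ⟨by rw [map_add, hy.1, hz.1, add_zero], by rw [c0_dif_add, hy.2, hz.2, add_zero]⟩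
      | smul a y _ hy =>
        rw [smul_eq_mul]
        exact ⟨by rw [map_mul, hy.1, mul_zero], by rw [c0_dif_mul, hy.1, hy.2, mul_zero, zero_mul,
          add_zero]⟩
    exact key.2

theorem dif_up (E : MvPolynomial σ k) (x w : σ → k) :
    dif E (up x : σ → K) (up w) = algebraMap k K (dif E x w) := by
  simp only [dif, aeval_up, map_sum, map_mul]
  rfl

theorem dif_functional (E : MvPolynomial σ k) (x : σ → k) (w : σ → K) (φ : K →ₗ[k] k) :
    dif E x (fun i => φ (w i)) = φ (dif E (up x) w) := by
  simp only [dif, aeval_up, map_sum]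
  refine Finset.sum_congr rfl fun j _ => ?_
  rw [← Algebra.smul_def, map_smul, smul_eq_mul]

theorem tan_up [IsAlgClosed k] {I J : Set (MvPolynomial σ k)} {x w : σ → k}
    (hx : ∀ E ∈ van (pts k I J), aeval x E = 0) (hw : w ∈ Tan (pts k I J) x) :
    up w ∈ Tan (pts K I J) (up x : σ → K) := by
  rw [c0_mem_tan_iff (fun E hE => by rw [aeval_up, hx E hE, map_zero])]
  intro E hE
  rw [dif_up, hw E hE, map_zero]

theorem tan_functional [IsAlgClosed k] {I J : Set (MvPolynomial σ k)} {x : σ → k} {w : σ → K}
    (hw : w ∈ Tan (pts K I J) (up x : σ → K)) (φ : K →ₗ[k] k) :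
    (fun i => φ (w i)) ∈ Tan (pts k I J) x := by
  intro E hE
  rw [dif_functional, ← c0_dif_map, hw _ (map_mem_van.2 hE), map_zero]

end tan

/-- tangent tuples go up -/
theorem isTangent_up [IsAlgClosed k] {I J : Set (MvPolynomial (Fin (N + 1)) k)}
    {F : Fin (d + 1) → Fin (N + 1) → k} (hF : IsCurve (pts k I J) F)
    {G : Fin (e + 1) → Fin (N + 1) → k} (hG : IsTangent (pts k I J) F G) :
    IsTangent (pts K I J) (upF F) (upF G : Fin (e + 1) → Fin (N + 1) → K) := by
  have hinf : Infinite k := IsAlgClosed.instInfinite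
  intro p q
  rw [c0_mem_tan_iff]
  · intro E hE
    have h1 := aeval_dif F G ![p, q] E
    rw [c0_tangent_eq hG hE, map_zero] at h1
    exact h1.symm
  · intro E hE
    have h1 := aeval_bind F ![p, q] E
    rw [c0_curve_eq hF hE, map_zero] at h1
    exact h1.symm

/-- functionals of tangent tuples -/
theorem isTangent_functional [IsAlgClosed k] {I J : Set (MvPolynomial (Fin (N + 1)) k)}
    {F : Fin (d + 1) → Fin (N + 1) → k} {G : Fin (e + 1) → Fin (N + 1) → K}
    (hG : IsTangent (pts K I J) (upF F) G) (φ : K →ₗ[k] k) :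
    IsTangent (pts k I J) F (fun j i => φ (G j i)) ∧
      ∀ p q : k, val (fun j i => φ (G j i)) p q =
        fun i => φ (val G (algebraMap k K p) (algebraMap k K q) i) := by
  have h1 : ∀ p q : k, val (fun j i => φ (G j i)) p q =
        fun i => φ (val G (algebraMap k K p) (algebraMap k K q) i) := by
    intro p q
    funext i
    simp only [val, map_sum]
    refine Finset.sum_congr rfl fun j _ => ?_
    rw [← map_pow, ← map_pow, ← map_mul, mul_comm (G j i), ← Algebra.smul_def, map_smul,
      smul_eq_mul, mul_comm]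
  refine ⟨fun p q => ?_, h1⟩
  rw [h1]
  apply tan_functional (K := K)
  rw [← val_upF]
  exact hG _ _

/-- very free goes down for a fixed curve over `k` -/
theorem veryFree_down [IsAlgClosed k] {I J : Set (MvPolynomial (Fin (N + 1)) k)}
    {F : Fin (d + 1) → Fin (N + 1) → k} (hF : IsCurve (pts k I J) F)
    (h : VeryFree (pts K I J) (upF F)) : VeryFree (pts k I J) F := by
  have hinf : Infinite k := IsAlgClosed.instInfinite
  obtain ⟨φ, hφ⟩ := exists_retraction (k := k) (K := K)
  intro p q p' q' hpq w hw w' hw'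
  have hE : ∀ p q : k, ∀ E ∈ van (pts k I J), aeval (val F p q) E = 0 := by
    intro p q E hE
    have h1 := aeval_bind F ![p, q] E
    rw [c0_curve_eq hF hE, map_zero] at h1
    exact h1.symm
  have h1 := tan_up (K := K) (hE p q) hw
  have h2 := tan_up (K := K) (hE p' q') hw'
  rw [← val_upF] at h1 h2
  obtain ⟨G, hG, ⟨a, ha⟩, ⟨a', ha'⟩⟩ := h (algebraMap k K p) (algebraMap k K q)
    (algebraMap k K p') (algebraMap k K q') (by
      rw [← map_mul, ← map_mul, ← map_sub, Ne, map_eq_zero_iff _ (algebraMap k K).injective]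
      exact hpq) _ h1 _ h2
  obtain ⟨hG1, hG2⟩ := isTangent_functional hG φ
  refine ⟨_, hG1, ⟨φ a, ?_⟩, ⟨φ a', ?_⟩⟩
  · rw [hG2, ha, val_upF]
    funext i
    simp only [Pi.add_apply, Pi.smul_apply, map_add, up, smul_eq_mul]
    rw [mul_comm a, ← Algebra.smul_def, map_smul, smul_eq_mul, mul_comm (φ a),
      Algebra.algebraMap_eq_smul_one, map_smul, hφ, smul_eq_mul, mul_one]
  · rw [hG2, ha', val_upF]
    funext i
    simp only [Pi.add_apply, Pi.smul_apply, map_add, up, smul_eq_mul]
    rw [mul_comm a', ← Algebra.smul_def, map_smul, smul_eq_mul, mul_comm (φ a'),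
      Algebra.algebraMap_eq_smul_one, map_smul, hφ, smul_eq_mul, mul_one]

end

end Pool.Agent.VF
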