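import Pool.Agent.Lib_MP_1858fb_w.Char0D
import Pool.Agent.Lib_MP_1858fb_w.Van2
import Pool.Agent.Lib_MP_1858fb_w.Van4
import Pool.Agent.Lib_MP_1858fb_w.Van6

/-!
# Very free curves along `k ⊆ K`
-/

namespace Pool.Agent.VF

open MvPolynomial

section

variable {k : Type} [Field k] {N c d : ℕ}

/-- a tuple of forms of degree `d - 1` times the first variable -/
def c0_mulP {R : Type} [CommRing R] (G : Fin (d - 1 + 1) → Fin (N + 1) → R) :
    Fin (d + 1) → Fin (N + 1) → R :=
  fun j i => if h : (j : ℕ) < d - 1 + 1 then G ⟨j, h⟩ i else 0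

theorem c0_val_mulP {R : Type} [CommRing R] (hd : 1 ≤ d) (G : Fin (d - 1 + 1) → Fin (N + 1) → R)
    (p q : R) (i : Fin (N + 1)) : val (c0_mulP G) p q i = p * val G p q i := by
  obtain ⟨d', rfl⟩ : ∃ d', d = d' + 1 := ⟨d - 1, by omega⟩
  simp only [val]
  rw [Fin.sum_univ_castSucc, Finset.mul_sum]
  have h1 : c0_mulP G (Fin.last (d' + 1)) i = 0 := by
    simp [c0_mulP]
  rw [h1, zero_mul, add_zero]
  refine Finset.sum_congr rfl fun j _ => ?_
  have h2 : c0_mulP G j.castSucc i = G j i := by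
    have h3 : ((j.castSucc : Fin (d' + 1 + 1)) : ℕ) < d' + 1 - 1 + 1 := by
      simpa using j.2
    rw [c0_mulP, dif_pos h3]
    rfl
  rw [h2, Fin.val_castSucc]
  have h4 : d' + 1 - (j : ℕ) = (d' + 1 - 1 - (j : ℕ)) + 1 := by
    have := j.2
    omega
  rw [h4, pow_succ]
  ring

theorem c0_isTangent_mulP (hd : 1 ≤ d) {V : Set (Fin (N + 1) → k)}
    {F : Fin (d + 1) → Fin (N + 1) → k} {G : Fin (d - 1 + 1) → Fin (N + 1) → k}
    (hG : IsTangent V F G) : IsTangent V F (c0_mulP G) := by
  intro p q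
  have h1 : val (c0_mulP G) p q = p • val G p q := by
    funext i
    rw [c0_val_mulP hd, Pi.smul_apply, smul_eq_mul]
  rw [h1]
  exact (Tan V (val F p q)).smul_mem p (hG p q)

/-- linear combinations of tangent tuples -/
theorem c0_isTangent_sum {e : ℕ} {V : Set (Fin (N + 1) → k)} {F : Fin (d + 1) → Fin (N + 1) → k}
    {ι : Type} (s : Finset ι) (a : ι → k) {G : ι → Fin (e + 1) → Fin (N + 1) → k}
    (hG : ∀ i ∈ s, IsTangent V F (G i)) :
    IsTangent V F (fun j l => ∑ i ∈ s, a i * G i j l) ∧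
      ∀ p q : k, val (fun j l => ∑ i ∈ s, a i * G i j l) p q = ∑ i ∈ s, a i • val (G i) p q := by
  have h1 : ∀ p q : k, val (fun j l => ∑ i ∈ s, a i * G i j l) p q =
      ∑ i ∈ s, a i • val (G i) p q := by
    intro p q
    funext l
    simp only [val, Finset.sum_apply, Pi.smul_apply, smul_eq_mul, Finset.sum_mul, Finset.mul_sum]
    rw [Finset.sum_comm]
    exact Finset.sum_congr rfl fun i _ => Finset.sum_congr rfl fun j _ => by ring
  refine ⟨fun p q => ?_, h1⟩
  rw [h1]
  exact Submodule.sum_mem _ fun i hi => Submodule.smul_mem _ _ (hG i hi p q)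

variable {K : Type} [Field K] [Algebra k K]

/-- vectors over `K` are combinations of the vectors of their coordinates -/
theorem exists_coords {σ : Type} [Fintype σ] (w : σ → K) :
    ∃ (n : ℕ) (b : Fin n → K) (φ : Fin n → K →ₗ[k] k),
      ∀ l, w l = ∑ i, b i * algebraMap k K (φ i (w l)) := by
  classical
  let B := Module.Basis.ofVectorSpace k K
  let s : Finset _ := Finset.univ.biUnion fun l => (B.repr (w l)).support
  obtain ⟨e⟩ : Nonempty (Fin s.card ≃ s) := ⟨s.equivFin.symm⟩
  refine ⟨s.card, fun i => B (e i), fun i => B.coord (e i), fun l => ?_⟩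
  have h1 : w l = ∑ i ∈ s, B i * algebraMap k K (B.repr (w l) i) := by
    conv_lhs => rw [← B.linearCombination_repr (w l)]
    rw [Finsupp.linearCombination_apply, Finsupp.sum_of_support_subset (s := s)]
    · refine Finset.sum_congr rfl fun i _ => ?_
      rw [Algebra.smul_def, mul_comm]
    · intro i hi
      exact Finset.mem_biUnion.2 ⟨l, Finset.mem_univ _, hi⟩
    · intro i _
      rw [zero_smul]
  refine h1.trans ?_
  rw [← Finset.sum_coe_sort s, ← Equiv.sum_comp e]
  exact Finset.sum_congr rfl fun i _ => rfl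

/-- very free goes up for a fixed curve over `k` -/
theorem veryFree_up [IsAlgClosed k] [CharZero k] [IsAlgClosed K] (hc : c < N)
    {I J : Set (MvPolynomial (Fin (N + 1)) k)}
    (hIJ : ∀ E ∈ I ∪ J, ∃ e : ℕ, E.IsHomogeneous e)
    (hsm : ∀ x ∈ pts k I J, SmoothAt c (pts k I J) x)
    {F : Fin (d + 1) → Fin (N + 1) → k} (hF : IsCurve (pts k I J) F)
    (h : VeryFree (pts k I J) F) : VeryFree (pts K I J) (upF F) := by
  have hs : Span (pts k I J) F 1 := span_one_of_veryFree hc (locClosed_pts hIJ) hsm hF h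
  have hd : 1 ≤ d := hs.1
  apply veryFree_of_span_one
  refine span_one_of_sections (smooth_up hsm) (c0_isCurve_up hF) ?_ hd
  intro w hw
  have hv : val (upF F : Fin (d + 1) → Fin (N + 1) → K) 1 0 = up (val F 1 0) := by
    rw [← val_upF, map_one, map_zero]
  rw [hv] at hw
  obtain ⟨n, b, φ, hb⟩ := exists_coords (k := k) w
  have h1 : ∀ i : Fin n, ∃ G : Fin (d - 1 + 1) → Fin (N + 1) → k,
      IsTangent (pts k I J) F G ∧ val G 1 0 = fun l => φ i (w l) := fun i =>
    hs.2 1 0 (Or.inl one_ne_zero) _ (tan_functional hw (φ i))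
  choose G hG hG1 using h1
  have h2 : ∀ i ∈ (Finset.univ : Finset (Fin n)), IsTangent (pts K I J) (upF F)
      (upF (c0_mulP (G i)) : Fin (d + 1) → Fin (N + 1) → K) := fun i _ =>
    isTangent_up hF (c0_isTangent_mulP hd (hG i))
  obtain ⟨h3, h4⟩ := c0_isTangent_sum Finset.univ b h2
  refine ⟨_, h3, ?_, ?_⟩
  · rw [h4]
    refine Finset.sum_eq_zero fun i _ => ?_
    have h5 : val (upF (c0_mulP (G i)) : Fin (d + 1) → Fin (N + 1) → K) 0 1 = 0 := by
      have h6 := val_upF (K := K) (c0_mulP (G i)) 0 1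
      rw [map_zero, map_one] at h6
      rw [h6]
      funext l
      simp only [up, c0_val_mulP hd, zero_mul, map_zero, Pi.zero_apply]
    rw [h5, smul_zero]
  · rw [h4]
    funext l
    rw [Finset.sum_apply, hb l]
    refine Finset.sum_congr rfl fun i _ => ?_
    have h6 := val_upF (K := K) (c0_mulP (G i)) 1 0
    rw [map_zero, map_one] at h6
    rw [h6, Pi.smul_apply, smul_eq_mul]
    simp only [up, c0_val_mulP hd, one_mul, hG1]

/-- Bezout certificate for the open conditions -/
theorem exists_bezout [IsAlgClosed K] {I J : Set (MvPolynomial (Fin (N + 1)) k)}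
    {F : Fin (d + 1) → Fin (N + 1) → K} (hF : IsCurve (pts K I J) F) (t : Fin 2) :
    ∃ (M n : ℕ) (f : Fin n → MvPolynomial (Fin 2) K) (G : Fin n → MvPolynomial (Fin (N + 1)) k),
      (∀ i, ∃ l, ∃ G0 ∈ J, G i = X l * G0) ∧
      ∀ x : Fin 2 → K, x t ^ M = ∑ i, aeval x (f i) * aeval (val F (x 0) (x 1)) (G i) := by
  let h : MvPolynomial (Fin (N + 1)) k → MvPolynomial (Fin 2) K := fun G => aeval (valP F) G
  have hh : ∀ (x : Fin 2 → K) (G : MvPolynomial (Fin (N + 1)) k),
      aeval x (h G) = aeval (val F (x 0) (x 1)) G := by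
    intro x G
    have h1 := comp_aeval_apply (valP F) ((aeval x : MvPolynomial (Fin 2) K →ₐ[K] K).restrictScalars k) G
    simp only [AlgHom.coe_restrictScalars'] at h1
    rw [h1]
    congr 2
    funext i
    exact aeval_valP F x i
  let J' : Set (MvPolynomial (Fin (N + 1)) k) := {G | ∃ l, ∃ G0 ∈ J, G = X l * G0}
  let 𝔞 : Ideal (MvPolynomial (Fin 2) K) := Ideal.span (h '' J')
  have h1 : (X t : MvPolynomial (Fin 2) K) ∈ vanishingIdeal K (zeroLocus K 𝔞) := by
    intro x hx
    rw [aeval_X]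
    by_contra hne
    have h2 := hF (x 0) (x 1) (by
      fin_cases t
      · exact Or.inl hne
      · exact Or.inr hne)
    obtain ⟨h3, -, G, hG, hGx⟩ := h2
    obtain ⟨l, hl⟩ : ∃ l, val F (x 0) (x 1) l ≠ 0 := by
      by_contra hcon
      push Not at hcon
      exact h3 (funext hcon)
    have h4 := hx (h (X l * G)) (Ideal.subset_span ⟨_, ⟨l, G, hG, rfl⟩, rfl⟩)
    rw [hh, map_mul, aeval_X] at h4
    exact mul_ne_zero hl hGx h4
  rw [vanishingIdeal_zeroLocus_eq_radical] at h1
  obtain ⟨M, hM⟩ := h1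
  change X t ^ M ∈ Submodule.span (MvPolynomial (Fin 2) K) (h '' J') at hM
  rw [Submodule.mem_span_set'] at hM
  obtain ⟨n, f, g, hg⟩ := hM
  choose G hG hG2 using fun i => (g i).2
  refine ⟨M, n, f, G, hG, fun x => ?_⟩
  have h2 := congrArg (fun p => aeval x p) hg
  simp only [map_sum, map_pow, aeval_X, smul_eq_mul, map_mul] at h2
  rw [← h2]
  refine Finset.sum_congr rfl fun i _ => ?_
  rw [← hG2 i, hh]

end

end Pool.Agent.VF
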