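import Pool.Agent.Lib_MP_1858fb_w.Defs2

/-!
# Tangent tuples with prescribed values at `(1 : 0)` and `(0 : 1)`
-/

namespace Pool.Agent.VF

open MvPolynomial

section val

variable {κ R : Type} [CommSemiring R]

lemma val_cast {a b : ℕ} (h : a = b) (G : Fin (a + 1) → κ → R) (p q : R) :
    val (fun j : Fin (b + 1) => G (Fin.cast (by rw [h]) j)) p q = val G p q := by
  subst h
  rfl

/-- multiplication by the first variable -/
lemma val_snoc {e : ℕ} (G : Fin (e + 1) → κ → R) (p q : R) :
    val (d := e + 1) (Fin.snoc G (0 : κ → R)) p q = p • val G p q := by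
  funext i
  rw [val, Fin.sum_univ_castSucc]
  simp only [Fin.snoc_castSucc, Fin.snoc_last, Pi.zero_apply, zero_mul, add_zero, Pi.smul_apply,
    smul_eq_mul, val, Finset.mul_sum]
  refine Finset.sum_congr rfl fun j _ => ?_
  have : e + 1 - (j.castSucc : ℕ) = (e - j) + 1 := by
    have := j.isLt
    simp only [Fin.val_castSucc]
    omega
  rw [this, pow_succ, Fin.val_castSucc]
  ring

/-- multiplication by the second variable -/
lemma val_cons {e : ℕ} (G : Fin (e + 1) → κ → R) (p q : R) :
    val (d := e + 1) (Fin.cons (0 : κ → R) G : Fin (e + 1 + 1) → κ → R) p q = q • val G p q := by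
  funext i
  rw [val, Fin.sum_univ_succ]
  simp only [Fin.cons_zero, Fin.cons_succ, Pi.zero_apply, zero_mul, zero_add, Pi.smul_apply,
    smul_eq_mul, val, Finset.mul_sum]
  refine Finset.sum_congr rfl fun j _ => ?_
  have : e + 1 - (j.succ : ℕ) = e - j := by
    simp only [Fin.val_succ]
    omega
  rw [this, Fin.val_succ, pow_succ]
  ring

lemma val_add {e : ℕ} (G H : Fin (e + 1) → κ → R) (p q : R) :
    val (G + H) p q = val G p q + val H p q := by
  funext i
  simp only [val, Pi.add_apply, add_mul, Finset.sum_add_distrib]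

lemma val_smul {e : ℕ} (c : R) (G : Fin (e + 1) → κ → R) (p q : R) :
    val (c • G) p q = c • val G p q := by
  funext i
  simp only [val, Pi.smul_apply, smul_eq_mul, Finset.mul_sum, mul_assoc]

lemma val_one_zero {d : ℕ} (F : Fin (d + 1) → κ → R) : val F 1 0 = F 0 := by
  funext i
  rw [val, Finset.sum_eq_single 0]
  · simp
  · intro j _ hj
    have : (j : ℕ) ≠ 0 := fun h => hj (Fin.ext h)
    rw [zero_pow this, mul_zero, mul_zero]
  · intro h; exact absurd (Finset.mem_univ _) h

lemma val_zero_one {d : ℕ} (F : Fin (d + 1) → κ → R) : val F 0 1 = F (Fin.last d) := by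
  funext i
  rw [val, Finset.sum_eq_single (Fin.last d)]
  · simp
  · intro j _ hj
    have : d - (j : ℕ) ≠ 0 := by
      have h1 := j.isLt
      have h2 : (j : ℕ) ≠ d := fun h => hj (Fin.ext h)
      omega
    rw [zero_pow this, zero_mul, mul_zero]
  · intro h; exact absurd (Finset.mem_univ _) h

end val

variable {k : Type} [Field k]

/-- Tuples of degree `d - m`, tangent along `F`, with prescribed values at `(1 : 0)`, `(0 : 1)`. -/
theorem exists_section_pair {N d m : ℕ} {V : Set (Fin (N + 1) → k)}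
    {F : Fin (d + 1) → Fin (N + 1) → k} (h : Span V F (m + 1)) {w w' : Fin (N + 1) → k}
    (hw : w ∈ Tan V (F 0)) (hw' : w' ∈ Tan V (F (Fin.last d))) :
    ∃ G : Fin (d - m + 1) → Fin (N + 1) → k, IsTangent V F G ∧ val G 1 0 = w ∧ val G 0 1 = w' := by
  obtain ⟨hd, hs⟩ := h
  have hw1 : w ∈ Tan V (val F 1 0) := by rwa [val_one_zero]
  have hw2 : w' ∈ Tan V (val F 0 1) := by rwa [val_zero_one]
  obtain ⟨G1, hG1, h1⟩ := hs 1 0 (Or.inl one_ne_zero) w hw1
  obtain ⟨G2, hG2, h2⟩ := hs 0 1 (Or.inr one_ne_zero) w' hw2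
  have hdm : d - (m + 1) + 1 = d - m := by omega
  refine ⟨fun j => ((Fin.snoc G1 (0 : Fin (N + 1) → k) : Fin (d - (m + 1) + 1 + 1) → _ → k) +
      (Fin.cons (0 : Fin (N + 1) → k) G2 : Fin (d - (m + 1) + 1 + 1) → _ → k))
        (Fin.cast (by rw [hdm]) j), ?_, ?_, ?_⟩
  · intro p q
    rw [val_cast hdm, val_add, val_snoc, val_cons]
    exact Submodule.add_mem _ (Submodule.smul_mem _ _ (hG1 p q))
      (Submodule.smul_mem _ _ (hG2 p q))
  · rw [val_cast hdm, val_add, val_snoc, val_cons, h1]
    simp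
  · rw [val_cast hdm, val_add, val_snoc, val_cons, h2]
    simp

end Pool.Agent.VF
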