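import Pool.Agent.Lib_MP_1858fb_w.VanFormal
import Pool.Agent.Lib_MP_1858fb_w.SecPair
import Pool.Agent.Lib_MP_1858fb_w.Van3
import Pool.Agent.Lib_MP_1858fb_w.Bridge

/-!
# The generic deformation with fixed marks
-/

namespace Pool.Agent.VF

open MvPolynomial

variable {k : Type} [Field k]

/-- The deformation with prescribed first order values at the two marks. -/
theorem bridge [IsAlgClosed k] {N c d m : ℕ}
    {V : Set (Fin (N + 1) → k)} (hV : LocClosed V)
    (hsm : ∀ x ∈ V, SmoothAt c V x) {F0 : Fin (d + 1) → Fin (N + 1) → k} (hF0 : IsCurve V F0)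
    (cm : Fin m → k) 
    (hspan : Span V F0 (m + 1)) {r : ℕ} (G : Fin r → Fin (d - m + 1) → Fin (N + 1) → k)
    (hG : ∀ s, IsTangent V F0 (G s)) :
    ∃ F : Fin (d + 1) → Fin (N + 1) → MvPowerSeries (Fin r) k,
      (∀ j i, MvPowerSeries.constantCoeff (F j i) = F0 j i) ∧
      (∀ s i, MvPowerSeries.coeff (Finsupp.single s 1) (F 0 i) =
        (∏ l, -cm l) * val (G s) 1 0 i) ∧
      (∀ s i, MvPowerSeries.coeff (Finsupp.single s 1) (F (Fin.last d) i) = val (G s) 0 1 i) ∧
      (∀ E ∈ van V, ∀ p q : MvPowerSeries (Fin r) k, aeval (val F p q) E = 0) ∧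
      (∀ l i, val F 1 (MvPowerSeries.C (cm l)) i = MvPowerSeries.C (val F0 1 (cm l) i)) := by
  obtain ⟨F, h1, h2, h3, h4⟩ := exists_deformation hV hsm hF0 cm hspan.of_succ G hG
  refine ⟨F, h1, ?_, ?_, h3, h4⟩
  · intro s i
    have := h2 s 1 0 i
    rw [val_one_zero] at this
    simpa using this
  · intro s i
    have := h2 s 0 1 i
    rw [val_zero_one] at this
    simpa using this

lemma mem_curve {N d : ℕ} {V : Set (Fin (N + 1) → k)} {F : Fin (d + 1) → Fin (N + 1) → k}
    (hF : IsCurve V F) : F 0 ∈ V ∧ F (Fin.last d) ∈ V := by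
  constructor
  · have := hF 1 0 (Or.inl one_ne_zero)
    rwa [val_one_zero] at this
  · have := hF 0 1 (Or.inr one_ne_zero)
    rwa [val_zero_one] at this

/-- The components of a tangent vector of a product are tangent. -/
lemma tan_prod {σ τ : Type} [Fintype σ] [Fintype τ] {V : Set (σ → k)} {W : Set (τ → k)}
    {x : σ → k} {y : τ → k} {u : σ ⊕ τ → k} (hu : u ∈ Tan (prodSet V W) (Sum.elim x y)) :
    (fun i => u (Sum.inl i)) ∈ Tan V x ∧ (fun j => u (Sum.inr j)) ∈ Tan W y := by
  classical
  constructor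
  · intro E hE
    have hE' : rename Sum.inl E ∈ van (prodSet V W) := by
      intro z hz
      rw [aeval_rename]
      exact hE _ hz.1
    have h1 := hu _ hE'
    unfold dif at h1 ⊢
    rw [Fintype.sum_sum_type] at h1
    have h2 : ∀ j : τ, aeval (Sum.elim x y) (pderiv (Sum.inr j) (rename (Sum.inl : σ → σ ⊕ τ) E)) = 0 := by
      intro j
      rw [pderiv_eq_zero_of_notMem_vars, map_zero]
      intro h
      obtain ⟨i, _, hi⟩ := Finset.mem_image.mp (vars_rename _ _ h)
      exact absurd hi (by simp)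
    have h3 : ∀ i : σ, aeval (Sum.elim x y) (pderiv (Sum.inl i) (rename (Sum.inl : σ → σ ⊕ τ) E))
        = aeval x (pderiv i E) := by
      intro i
      rw [pderiv_rename Sum.inl_injective, aeval_rename]
      rfl
    simp only [h2, h3, zero_mul, Finset.sum_const_zero, add_zero] at h1
    exact h1
  · intro E hE
    have hE' : rename Sum.inr E ∈ van (prodSet V W) := by
      intro z hz
      rw [aeval_rename]
      exact hE _ hz.2
    have h1 := hu _ hE'
    unfold dif at h1 ⊢
    rw [Fintype.sum_sum_type] at h1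
    have h2 : ∀ j : σ, aeval (Sum.elim x y) (pderiv (Sum.inl j) (rename (Sum.inr : τ → σ ⊕ τ) E)) = 0 := by
      intro j
      rw [pderiv_eq_zero_of_notMem_vars, map_zero]
      intro h
      obtain ⟨i, _, hi⟩ := Finset.mem_image.mp (vars_rename _ _ h)
      exact absurd hi (by simp)
    have h3 : ∀ i : τ, aeval (Sum.elim x y) (pderiv (Sum.inr i) (rename (Sum.inr : τ → σ ⊕ τ) E))
        = aeval y (pderiv i E) := by
      intro i
      rw [pderiv_rename Sum.inr_injective, aeval_rename]
      rfl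
    simp only [h2, h3, zero_mul, Finset.sum_const_zero, zero_add] at h1
    exact h1

/-- The generic deformation with `m` marks fixed. -/
theorem exists_generic_deformation [IsAlgClosed k] {N c d m : ℕ}
    {V : Set (Fin (N + 1) → k)} (hV : LocClosed V) (hirr : Irred V)
    (hsm : ∀ x ∈ V, SmoothAt c V x) {F0 : Fin (d + 1) → Fin (N + 1) → k} (hF0 : IsCurve V F0)
    (cm : Fin m → k) (hcm : ∀ l, cm l ≠ 0) (hinj : Function.Injective cm)
    (hspan : Span V F0 (m + 1)) :
    ∃ (r : ℕ) (F : Fin (d + 1) → Fin (N + 1) → MvPowerSeries (Fin r) k),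
      (∀ j i, MvPowerSeries.constantCoeff (F j i) = F0 j i) ∧
      (∀ E ∈ van V, ∀ p q : MvPowerSeries (Fin r) k, aeval (val F p q) E = 0) ∧
      (∀ l i, val F 1 (MvPowerSeries.C (cm l)) i = MvPowerSeries.C (val F0 1 (cm l) i)) ∧
      ∀ g : MvPolynomial (Fin (N + 1) ⊕ Fin (N + 1)) k,
        aeval (Sum.elim (F 0) (F (Fin.last d))) g = 0 → g ∈ van (prodSet V V) := by
  classical
  obtain ⟨hx, hy⟩ := mem_curve hF0
  set x := F0 0 with hxdef
  set y := F0 (Fin.last d) with hydef
  set T := Tan (prodSet V V) (Sum.elim x y) with hT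
  let b := Module.finBasis k T
  have hP : (∏ l, -cm l) ≠ 0 := Finset.prod_ne_zero_iff.mpr fun l _ => neg_ne_zero.mpr (hcm l)
  have hex : ∀ s : Fin (Module.finrank k T), ∃ G : Fin (d - m + 1) → Fin (N + 1) → k,
      IsTangent V F0 G ∧ val G 1 0 = (∏ l, -cm l)⁻¹ • (fun i => ((b s : T) : Fin (N + 1) ⊕ Fin (N + 1) → k) (Sum.inl i)) ∧
        val G 0 1 = fun i => ((b s : T) : Fin (N + 1) ⊕ Fin (N + 1) → k) (Sum.inr i) := by
    intro s
    obtain ⟨h1, h2⟩ := tan_prod (b s).2
    exact exists_section_pair hspan (Submodule.smul_mem _ _ h1) h2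
  choose G hG hG1 hG2 using hex
  obtain ⟨F, hF0c, hF1, hF2, hFE, hFm⟩ := bridge hV hsm hF0 cm hspan G hG
  refine ⟨_, F, hF0c, hFE, hFm, ?_⟩
  intro g hg
  refine mem_van_of_formal (irred_prodSet hirr hirr) (v := Sum.elim x y) ⟨hx, hy⟩ b
    (Sum.elim (F 0) (F (Fin.last d))) ?_ ?_ ?_ g hg
  · rintro (i | i)
    · exact hF0c 0 i
    · exact hF0c (Fin.last d) i
  · rintro s (i | i)
    · show MvPowerSeries.coeff (Finsupp.single s 1) (F 0 i) = _
      rw [hF1, hG1, Pi.smul_apply, smul_eq_mul, mul_inv_cancel_left₀ hP]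
    · show MvPowerSeries.coeff (Finsupp.single s 1) (F (Fin.last d) i) = _
      rw [hF2, hG2]
  · intro E hE
    have hle : van (prodSet V V) ≤ RingHom.ker
        (aeval (Sum.elim (F 0) (F (Fin.last d))) :
          MvPolynomial (Fin (N + 1) ⊕ Fin (N + 1)) k →ₐ[k] _) := by
      rw [van_prodSet, sup_le_iff, Ideal.map_le_iff_le_comap, Ideal.map_le_iff_le_comap]
      constructor
      · intro E hE
        rw [Ideal.mem_comap, RingHom.mem_ker]
        have := hFE E hE 1 0
        rw [val_one_zero] at this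
        show aeval _ (rename Sum.inl E) = 0
        rw [aeval_rename]
        exact this
      · intro E hE
        rw [Ideal.mem_comap, RingHom.mem_ker]
        have := hFE E hE 0 1
        rw [val_zero_one] at this
        show aeval _ (rename Sum.inr E) = 0
        rw [aeval_rename]
        exact this
    exact hle hE

end Pool.Agent.VF
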