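import Pool.Agent.Lib_MP_1858fb_w.Defs
import Pool.Agent.Lib_MP_1858fb_w.Wiener

set_option autoImplicit false

/-!
# Piece LAURPOLY for the Wiener algebras of `Wiener.lean` (helper6)

`f i : W ω`, `i` a coordinate, with exponents in `[-D, 0]`. The tuple of binary forms of degree `D` with
coefficient `(f i).co (-j)` at `p ^ (D - j) q ^ j` has at `(t, 1)` the value `t ^ D * val t (f i)`, at
`(1, u)` the value `val u⁻¹ (f i)` (also for `u = 0`), at `(t, 1)` the value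
`val t (mono D 1 * f i)` (also for `t = 0`).
-/

namespace Pool.Agent.VF

open Finset Pool.Agent.Lib_MP_1858fb_w

variable {ω : Wt}

/-- The tuple of binary forms. -/
noncomputable def forms {κ : Type} (D : ℕ) (f : κ → W ω) : Fin (D + 1) → κ → ℂ :=
  fun j i => (f i).co (-((j : ℕ) : ℤ))

theorem wval_eq_sum (D : ℕ) {f : W ω} (hf : W.Supp (Set.Icc (-(D : ℤ)) 0) f) (t : ℂ) :
    W.val t f = ∑ j : Fin (D + 1), f.co (-((j : ℕ) : ℤ)) * t ^ (-((j : ℕ) : ℤ)) := by
  unfold W.val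
  have hinj : Function.Injective fun j : Fin (D + 1) => -((j : ℕ) : ℤ) := by
    intro i j h
    apply Fin.ext
    have : -((i : ℕ) : ℤ) = -((j : ℕ) : ℤ) := h
    omega
  rw [tsum_eq_sum (s := Finset.univ.map ⟨_, hinj⟩)]
  · rw [Finset.sum_map]
    rfl
  · intro k hk
    rw [hf k, zero_mul]
    intro hk'
    apply hk
    rw [Finset.mem_map]
    obtain ⟨h1, h2⟩ := hk'
    refine ⟨⟨(-k).toNat, by omega⟩, Finset.mem_univ _, ?_⟩
    show -(((-k).toNat : ℕ) : ℤ) = k
    omega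

/-- The value at `(1, u)`. -/
theorem val_forms_one {κ : Type} (D : ℕ) (f : κ → W ω)
    (hf : ∀ i, W.Supp (Set.Icc (-(D : ℤ)) 0) (f i)) (u : ℂ) :
    val (forms D f) 1 u = fun i => W.val u⁻¹ (f i) := by
  funext i
  rw [wval_eq_sum D (hf i)]
  unfold val forms
  refine Finset.sum_congr rfl fun j _ => ?_
  rw [one_pow, one_mul, inv_zpow, ← zpow_neg, neg_neg, zpow_natCast]

theorem co_mono_pow (D : ℕ) (f : W ω) (n : ℤ) :
    (W.mono ω (D : ℤ) 1 * f).co n = f.co (n - D) := by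
  rw [W.co_mono_mul, one_mul]

/-- The value at `(t, 1)`, also for `t = 0`. -/
theorem val_forms_zero {κ : Type} (D : ℕ) (f : κ → W ω)
    (hf : ∀ i, W.Supp (Set.Icc (-(D : ℤ)) 0) (f i)) (t : ℂ) :
    val (forms D f) t 1 = fun i => W.val t (W.mono ω (D : ℤ) 1 * f i) := by
  funext i
  have h1 : W.val t (W.mono ω (D : ℤ) 1 * f i) =
      ∑ j : Fin (D + 1), (f i).co (-((j : ℕ) : ℤ)) * t ^ (D - (j : ℕ)) := by
    unfold W.val
    have hinj : Function.Injective fun j : Fin (D + 1) => ((D - (j : ℕ) : ℕ) : ℤ) := by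
      intro i j h
      apply Fin.ext
      have h1 : ((D - (i : ℕ) : ℕ) : ℤ) = ((D - (j : ℕ) : ℕ) : ℤ) := h
      have h2 := i.isLt
      have h3 := j.isLt
      omega
    rw [tsum_eq_sum (s := Finset.univ.map ⟨_, hinj⟩)]
    · rw [Finset.sum_map]
      refine Finset.sum_congr rfl fun j _ => ?_
      show (W.mono ω (D : ℤ) 1 * f i).co ((D - (j : ℕ) : ℕ) : ℤ) * t ^ ((D - (j : ℕ) : ℕ) : ℤ) = _
      rw [co_mono_pow, zpow_natCast]
      congr 2
      have := j.isLt
      omega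
    · intro k hk
      rw [co_mono_pow, hf i (k - D), zero_mul]
      intro hk'
      apply hk
      rw [Finset.mem_map]
      obtain ⟨h1, h2⟩ := hk'
      refine ⟨⟨(D - k).toNat, by omega⟩, Finset.mem_univ _, ?_⟩
      show ((D - ((D - k).toNat) : ℕ) : ℤ) = k
      omega
  rw [h1]
  unfold val forms
  refine Finset.sum_congr rfl fun j _ => ?_
  rw [one_pow, mul_one]

/-- The value at `(t, 1)` for `t ≠ 0`. -/
theorem val_forms_ne {κ : Type} (D : ℕ) (f : κ → W ω)
    (hf : ∀ i, W.Supp (Set.Icc (-(D : ℤ)) 0) (f i)) {t : ℂ} (ht : t ≠ 0) :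
    val (forms D f) t 1 = fun i => t ^ D * W.val t (f i) := by
  funext i
  rw [wval_eq_sum D (hf i)]
  unfold val forms
  rw [Finset.mul_sum]
  refine Finset.sum_congr rfl fun j _ => ?_
  rw [one_pow, mul_one, zpow_neg, zpow_natCast]
  have hj : (j : ℕ) ≤ D := Nat.lt_succ_iff.1 j.isLt
  have h2 : t ^ D = t ^ (D - (j : ℕ)) * t ^ (j : ℕ) := by rw [← pow_add, Nat.sub_add_cancel hj]
  have h3 : t ^ (j : ℕ) ≠ 0 := pow_ne_zero _ ht
  rw [h2]
  field_simp

theorem val_smul_smul {k : Type} [Field k] {κ : Type} {d : ℕ} (F : Fin (d + 1) → κ → k)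
    (s p q : k) : val F (s * p) (s * q) = s ^ d • val F p q := by
  funext i
  unfold val
  simp only [Pi.smul_apply, smul_eq_mul]
  rw [Finset.mul_sum]
  refine Finset.sum_congr rfl fun j _ => ?_
  have hj : (j : ℕ) ≤ d := Nat.lt_succ_iff.1 j.isLt
  have h2 : s ^ d = s ^ (d - (j : ℕ)) * s ^ (j : ℕ) := by rw [← pow_add, Nat.sub_add_cancel hj]
  rw [h2, mul_pow, mul_pow]
  ring

/-- (L3) The tuple of forms of a Laurent vector with exponents in `[-D, 0]` is a curve in `V`, if the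
values of the vector on the closed annulus, outside (with the limit at infinity: `u = 0`), and inside
(after multiplication by `t ^ D`) are in `V`. -/
theorem isCurve_forms {N : ℕ} (V : Set (Fin (N + 1) → ℂ))
    (hsc : ∀ c : ℂ, c ≠ 0 → ∀ x ∈ V, c • x ∈ V) (D : ℕ) (f : Fin (N + 1) → W ω)
    (hf : ∀ i, W.Supp (Set.Icc (-(D : ℤ)) 0) (f i)) {r₁ r₂ : ℝ} (h0 : 0 < r₁) (h12 : r₁ ≤ r₂)
    (hann : ∀ t : ℂ, r₁ ≤ ‖t‖ → ‖t‖ ≤ r₂ → (fun i => W.val t (f i)) ∈ V)
    (hout : ∀ u : ℂ, ‖u‖ ≤ r₂⁻¹ → (fun i => W.val u⁻¹ (f i)) ∈ V)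
    (hin : ∀ t : ℂ, ‖t‖ ≤ r₁ → (fun i => W.val t (W.mono ω (D : ℤ) 1 * f i)) ∈ V) :
    IsCurve V (forms D f) := by
  intro p q hpq
  have hscale : ∀ s x y : ℂ, s ≠ 0 → val (forms D f) x y ∈ V → val (forms D f) (s * x) (s * y) ∈ V := by
    intro s x y hs h
    rw [val_smul_smul]
    exact hsc _ (pow_ne_zero D hs) _ h
  have hinside : ∀ t : ℂ, ‖t‖ ≤ r₁ → val (forms D f) t 1 ∈ V := fun t ht => by
    rw [val_forms_zero D f hf]; exact hin t ht
  have houtside : ∀ u : ℂ, ‖u‖ ≤ r₂⁻¹ → val (forms D f) 1 u ∈ V := fun u hu => by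
    rw [val_forms_one D f hf]; exact hout u hu
  by_cases hp : p = 0
  · have hq : q ≠ 0 := hpq.resolve_left (not_not.2 hp)
    have h1 := hscale q 0 1 hq (hinside 0 (by rw [norm_zero]; exact h0.le))
    rwa [mul_zero, mul_one, ← hp] at h1
  by_cases hq : q = 0
  · have h1 := hscale p 1 0 hp (houtside 0 (by
      rw [norm_zero]; exact inv_nonneg.2 (h0.le.trans h12)))
    rwa [mul_zero, mul_one, ← hq] at h1
  by_cases hle : ‖p / q‖ ≤ r₁
  · have h1 := hscale q (p / q) 1 hq (hinside _ hle)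
    rwa [mul_div_cancel₀ _ hq, mul_one] at h1
  by_cases hge : ‖p / q‖ ≤ r₂
  · have ht : p / q ≠ 0 := div_ne_zero hp hq
    have h2 : val (forms D f) (p / q) 1 ∈ V := by
      rw [val_forms_ne D f hf ht]
      exact hsc _ (pow_ne_zero D ht) _ (hann (p / q) (not_le.1 hle).le hge)
    have h1 := hscale q (p / q) 1 hq h2
    rwa [mul_div_cancel₀ _ hq, mul_one] at h1
  · have h4 : ‖q / p‖ ≤ r₂⁻¹ := by
      have h5 : q / p = (p / q)⁻¹ := by rw [inv_div]
      rw [h5, norm_inv]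
      exact inv_anti₀ (h0.trans_le h12) (not_le.1 hge).le
    have h5 := hscale p 1 (q / p) hp (houtside _ h4)
    rwa [mul_div_cancel₀ _ hp, mul_one] at h5

/-- Forms are homogeneous functions. -/
theorem aeval_smul_of_hom {k : Type} [Field k] {σ : Type} {R : Type} [CommRing R] [Algebra k R]
    {E : MvPolynomial σ k} {e : ℕ} (he : E.IsHomogeneous e) (c : R) (x : σ → R) :
    MvPolynomial.aeval (c • x) E = c ^ e * MvPolynomial.aeval x E := by
  rw [MvPolynomial.aeval_def, MvPolynomial.aeval_def, MvPolynomial.eval₂_eq, MvPolynomial.eval₂_eq,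
    Finset.mul_sum]
  refine Finset.sum_congr rfl fun m hm => ?_
  have h1 : m.degree = e := by
    have h4 := he (MvPolynomial.mem_support_iff.1 hm)
    rw [Finsupp.degree_eq_weight_one]
    exact h4
  have h2 : ∏ i ∈ m.support, (c • x) i ^ m i = c ^ e * ∏ i ∈ m.support, x i ^ m i := by
    have h3 : ∑ i ∈ m.support, m i = e := by rw [← h1]; rfl
    rw [← h3, ← Finset.prod_pow_eq_pow_sum, ← Finset.prod_mul_distrib]
    exact Finset.prod_congr rfl fun i _ => by rw [Pi.smul_apply, smul_eq_mul, mul_pow]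
  rw [h2]
  ring

/-- Locally closed sets of homogeneous coordinate vectors are invariant under scaling. -/
theorem LocClosed.smul {k : Type} [Field k] {N : ℕ} {V : Set (Fin (N + 1) → k)} (hV : LocClosed V)
    (c : k) (hc : c ≠ 0) (x : Fin (N + 1) → k) (hx : x ∈ V) : c • x ∈ V := by
  obtain ⟨I, J, hhom, rfl⟩ := hV
  obtain ⟨hx0, hI, G, hG, hGx⟩ := hx
  refine ⟨smul_ne_zero hc hx0, fun E hE => ?_, G, hG, ?_⟩
  · obtain ⟨e, he⟩ := hhom E (Or.inl hE)
    rw [aeval_smul_of_hom he, hI E hE, mul_zero]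
  · obtain ⟨e, he⟩ := hhom G (Or.inr hG)
    rw [aeval_smul_of_hom he]
    exact mul_ne_zero (pow_ne_zero e hc) hGx

end Pool.Agent.VF
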