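import Pool.Agent.Lib_MP_1858fb_w.Wiener

/-!
# Complements on the Wiener algebras: uniqueness, homomorphisms of closed subalgebras
-/

open scoped BigOperators
noncomputable section
namespace Pool.Agent.Lib_MP_1858fb_w
namespace W

variable {ω ω' : Wt}

/-- Change of weight on the elements with exponents in `S`, as an algebra homomorphism. -/
def liftHom (S : Set ℤ) (h0 : (0 : ℤ) ∈ S) (hS : ∀ i ∈ S, ∀ j ∈ S, i + j ∈ S)
    (h : ∀ k ∈ S, ω'.w k ≤ ω.w k) : subalg ω S h0 hS →ₐ[ℂ] subalg ω' S h0 hS :=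
  AlgHom.ofLinearMap
    { toFun := fun f => ⟨lift S h f.1, supp_lift h f.1⟩
      map_add' := fun f g => Subtype.ext (map_add (lift S h) f.1 g.1)
      map_smul' := fun c f => Subtype.ext (map_smul (lift S h) c f.1) }
    (Subtype.ext (lift_one h h0))
    (fun f g => Subtype.ext (lift_mul h hS f.2 g.2))

theorem liftHom_coe (S : Set ℤ) (h0 : (0 : ℤ) ∈ S) (hS : ∀ i ∈ S, ∀ j ∈ S, i + j ∈ S)
    (h : ∀ k ∈ S, ω'.w k ≤ ω.w k) (f : subalg ω S h0 hS) :
    (liftHom S h0 hS h f : W ω') = lift S h (f : W ω) := rfl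

theorem norm_liftHom_le (S : Set ℤ) (h0 : (0 : ℤ) ∈ S) (hS : ∀ i ∈ S, ∀ j ∈ S, i + j ∈ S)
    (h : ∀ k ∈ S, ω'.w k ≤ ω.w k) (f : subalg ω S h0 hS) : ‖liftHom S h0 hS h f‖ ≤ ‖f‖ :=
  norm_lift_le h f.1

theorem norm_lift_eq {S : Set ℤ} (h : ∀ k ∈ S, ω'.w k = ω.w k) {f : W ω} (hf : Supp S f) :
    ‖lift S (fun k hk => (h k hk).le) f‖ = ‖f‖ := by
  rw [norm_eq, norm_eq]
  refine tsum_congr fun k => ?_
  by_cases hk : k ∈ S
  · rw [co_lift_mem _ _ hk, h k hk]
  · rw [supp_lift _ _ k hk, hf k hk]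
    simp

theorem lift_res {S : Set ℤ} (h1 : ∀ k, ω'.w k ≤ ω.w k) (h2 : ∀ k ∈ S, ω.w k ≤ ω'.w k)
    {f : W ω} (hf : Supp S f) : lift S h2 (res h1 f) = f := by
  apply ext
  intro k
  rw [co_lift]
  by_cases hk : k ∈ S
  · rw [Set.indicator_of_mem hk, co_res]
  · rw [Set.indicator_of_notMem hk, hf k hk]

theorem res_lift {S : Set ℤ} (h1 : ∀ k, ω'.w k ≤ ω.w k) (h2 : ∀ k ∈ S, ω.w k ≤ ω'.w k)
    {f : W ω'} (hf : Supp S f) : res h1 (lift S h2 f) = f := by
  apply ext
  intro k
  rw [co_res, co_lift]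
  by_cases hk : k ∈ S
  · rw [Set.indicator_of_mem hk]
  · rw [Set.indicator_of_notMem hk, hf k hk]

/-- evaluation at a point of modulus at most `r` on the elements with exponents `≥ 0`. -/
theorem zpow_add_of_nonneg (t : ℂ) {i j : ℤ} (hi : 0 ≤ i) (hj : 0 ≤ j) :
    t ^ (i + j) = t ^ i * t ^ j := by
  obtain ⟨a, rfl⟩ := Int.eq_ofNat_of_zero_le hi
  obtain ⟨b, rfl⟩ := Int.eq_ofNat_of_zero_le hj
  rw [← Nat.cast_add, zpow_natCast, zpow_natCast, zpow_natCast, pow_add]

theorem val_zero_of_nonneg {f : W ω} : val 0 f = f.co 0 := by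
  unfold val
  rw [tsum_eq_single 0]
  · simp
  · intro k hk
    rw [zero_zpow k hk, mul_zero]

theorem val_sum {ι : Type*} (s : Finset ι) {S : Set ℤ} {t : ℂ}
    (hb : ∀ i ∈ S, ‖t ^ i‖ ≤ ω.w i) (f : ι → W ω) (hf : ∀ i ∈ s, Supp S (f i)) :
    val t (∑ i ∈ s, f i) = ∑ i ∈ s, val t (f i) := by
  classical
  have key : Supp S (∑ i ∈ s, f i) ∧ val t (∑ i ∈ s, f i) = ∑ i ∈ s, val t (f i) := by
    induction s using Finset.induction_on with
    | empty =>
      refine ⟨by simpa using supp_zero S, ?_⟩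
      simp [val]
    | insert a s ha ih =>
      have ih' := ih (fun i hi => hf i (Finset.mem_insert_of_mem hi))
      have h1 := hf a (Finset.mem_insert_self a s)
      rw [Finset.sum_insert ha, Finset.sum_insert ha, ← ih'.2]
      exact ⟨h1.add ih'.1, val_add hb h1 ih'.1⟩
  exact key.2

/-- The coefficients are given by Cauchy integrals. -/
theorem co_eq_circle {r : ℝ} (hr : 0 < r) (hb : ∀ k : ℤ, r ^ k ≤ ω.w k) (f : W ω) (n : ℤ) :
    (∮ z in C(0, r), val z f * z ^ (-n - 1)) = 2 * Real.pi * Complex.I * f.co n := by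
  -- the terms as continuous functions of the angle
  have hne : ∀ θ : ℝ, circleMap 0 r θ ≠ 0 := fun θ => circleMap_ne_center hr.ne'
  have hcont : ∀ m : ℤ, Continuous fun θ : ℝ => (circleMap 0 r θ) ^ m := fun m =>
    (continuous_circleMap 0 r).zpow₀ m (fun θ => Or.inl (hne θ))
  let F : ℤ → C(ℝ, ℂ) := fun k =>
    ⟨fun θ => (circleMap 0 r θ * Complex.I) * (f.co k * (circleMap 0 r θ) ^ (k - n - 1)), by
      exact ((continuous_circleMap 0 r).mul continuous_const).mul
        (continuous_const.mul (hcont _))⟩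
  have hF : ∀ k θ, F k θ = (circleMap 0 r θ * Complex.I) *
      (f.co k * (circleMap 0 r θ) ^ (k - n - 1)) := fun k θ => rfl
  have hnorm : ∀ k θ, ‖F k θ‖ ≤ r ^ (-n) * (‖f.co k‖ * ω.w k) := by
    intro k θ
    rw [hF, norm_mul, norm_mul, Complex.norm_I, mul_one, norm_mul, norm_zpow, norm_circleMap_zero,
      abs_of_pos hr]
    have e1 : r * (‖f.co k‖ * r ^ (k - n - 1)) = r ^ (-n) * (‖f.co k‖ * r ^ k) := by
      have : r ^ (k - n - 1) = r ^ (-n) * r ^ k * r⁻¹ := by
        rw [← zpow_add₀ hr.ne', ← zpow_sub_one₀ hr.ne']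
        congr 1; ring
      rw [this]
      field_simp
    rw [e1]
    exact mul_le_mul_of_nonneg_left (mul_le_mul_of_nonneg_left (hb k) (norm_nonneg _))
      (zpow_pos hr _).le
  have hsum : Summable fun k : ℤ => ‖(F k).restrict
      (⟨Set.uIcc 0 (2 * Real.pi), isCompact_uIcc⟩ : TopologicalSpace.Compacts ℝ)‖ := by
    refine Summable.of_nonneg_of_le (fun k => norm_nonneg _) (fun k => ?_)
      (f.summ.mul_left (r ^ (-n)))
    refine (ContinuousMap.norm_le _ ?_).2 fun x => hnorm k x.1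
    exact mul_nonneg (zpow_pos hr _).le (mul_nonneg (norm_nonneg _) (ω.pos k).le)
  have h1 := intervalIntegral.hasSum_intervalIntegral_of_summable_norm hsum
  have h2 : ∀ k, (∫ θ in (0 : ℝ)..2 * Real.pi, F k θ) =
      if k = n then 2 * Real.pi * Complex.I * f.co n else 0 := by
    intro k
    have e1 : (∫ θ in (0 : ℝ)..2 * Real.pi, F k θ) =
        f.co k * ∮ z in C(0, r), (z - 0) ^ (k - n - 1) := by
      rw [circleIntegral, ← intervalIntegral.integral_const_mul]
      refine intervalIntegral.integral_congr fun θ _ => ?_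
      simp only [hF, deriv_circleMap, smul_eq_mul, sub_zero]
      ring
    rw [e1]
    by_cases hk : k = n
    · rw [if_pos hk, hk, sub_self, zero_sub]
      have : (∮ z in C(0, r), (z - 0) ^ (-1 : ℤ)) = 2 * Real.pi * Complex.I := by
        simp only [zpow_neg_one]
        exact circleIntegral.integral_sub_center_inv 0 hr.ne'
      rw [this]; ring
    · rw [if_neg hk, circleIntegral.integral_sub_zpow_of_ne (by omega), mul_zero]
  have h3 : HasSum (fun k : ℤ => if k = n then 2 * Real.pi * Complex.I * f.co n else 0)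
      (2 * Real.pi * Complex.I * f.co n) := by
    have := hasSum_ite_eq n (2 * (Real.pi : ℂ) * Complex.I * f.co n)
    exact this
  simp only [h2] at h1
  have h4 := h1.unique h3
  rw [← h4, circleIntegral]
  refine intervalIntegral.integral_congr fun θ _ => ?_
  simp only [deriv_circleMap, smul_eq_mul, hF]
  unfold val
  rw [← tsum_mul_right, ← tsum_mul_left]
  refine tsum_congr fun k => ?_
  have : (circleMap 0 r θ) ^ (k - n - 1) = (circleMap 0 r θ) ^ k * (circleMap 0 r θ) ^ (-n - 1) := by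
    rw [← zpow_add₀ (hne θ)]
    congr 1; ring
  rw [this]; ring

/-- The values on one circle determine the element. -/
theorem ext_val {r : ℝ} (hr : 0 < r) (hb : ∀ k : ℤ, r ^ k ≤ ω.w k) {f g : W ω}
    (h : ∀ t : ℂ, ‖t‖ = r → val t f = val t g) : f = g := by
  apply ext
  intro n
  have h1 := co_eq_circle hr hb f n
  have h2 := co_eq_circle hr hb g n
  have h3 : (∮ z in C(0, r), val z f * z ^ (-n - 1)) = ∮ z in C(0, r), val z g * z ^ (-n - 1) := by
    rw [circleIntegral, circleIntegral]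
    refine intervalIntegral.integral_congr fun θ _ => ?_
    have : val (circleMap 0 r θ) f = val (circleMap 0 r θ) g :=
      h _ (by rw [norm_circleMap_zero, abs_of_pos hr])
    simp only [this]
  rw [h1, h2] at h3
  exact mul_left_cancel₀ Complex.two_pi_I_ne_zero h3

end W
end Pool.Agent.Lib_MP_1858fb_w
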