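import Pool.Agent.Lib_MP_1858fb_w.Defs2
import Pool.Agent.Lib_MP_1858fb_w.Wiener2
import Pool.Agent.Lib_MP_1858fb_w.LaurPolyW

set_option autoImplicit false

/-!
# MP_1858fb_ag, GLUE: definitions (dual numbers, two circles)
-/

namespace Pool.Agent.VF

open MvPolynomial Pool.Agent.Lib_MP_1858fb_w

/-- The ring `R[ε_1, …, ε_n]` with `ε_i ε_j = 0`. -/
abbrev Du (n : ℕ) (R : Type) : Type := TrivSqZeroExt R (Fin n → R)

section DuMap

variable {R R' : Type} [NormedCommRing R] [NormedAlgebra ℂ R] [NormedCommRing R']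
  [NormedAlgebra ℂ R']

/-- Functoriality of the dual numbers. -/
noncomputable def Du.map (n : ℕ) (f : R →ₐ[ℂ] R') : Du n R →ₐ[ℂ] Du n R' where
  toFun x := (f x.fst, fun i => f (x.snd i))
  map_one' := by
    ext i
    · exact map_one f
    · exact map_zero f
  map_mul' x y := by
    ext i
    · exact map_mul f _ _
    · change f (x.fst • y.snd i + MulOpposite.op y.fst • x.snd i) =
        f x.fst • f (y.snd i) + MulOpposite.op (f y.fst) • f (x.snd i)
      rw [map_add, smul_eq_mul, map_mul, op_smul_eq_mul, map_mul, smul_eq_mul, op_smul_eq_mul]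
  map_zero' := by
    ext i
    · exact map_zero f
    · exact map_zero f
  map_add' x y := by
    ext i
    · exact map_add f _ _
    · exact map_add f _ _
  commutes' c := by
    ext i
    · exact f.commutes c
    · exact map_zero f

@[simp] theorem Du.fst_map (n : ℕ) (f : R →ₐ[ℂ] R') (x : Du n R) :
    (Du.map n f x).fst = f x.fst := rfl

@[simp] theorem Du.snd_map (n : ℕ) (f : R →ₐ[ℂ] R') (x : Du n R) (i : Fin n) :
    (Du.map n f x).snd i = f (x.snd i) := rfl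

end DuMap

/-- The data of the gluing along two circles: `A` are the functions on the annulus, `A1` those
on the inner circle, `A2` those on the outer circle; `B1` extend inside, `B2` outside. -/
structure TwoCircle (A A1 A2 : Type) [NormedCommRing A] [NormedAlgebra ℂ A]
    [NormedCommRing A1] [NormedAlgebra ℂ A1] [NormedCommRing A2] [NormedAlgebra ℂ A2] where
  ρ1 : A →ₐ[ℂ] A1
  ρ2 : A →ₐ[ℂ] A2
  h1 : ∀ x, ‖ρ1 x‖ ≤ ‖x‖
  h2 : ∀ x, ‖ρ2 x‖ ≤ ‖x‖
  B1 : Subring A1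
  B2 : Subring A2
  closed1 : IsClosed (B1 : Set A1)
  closed2 : IsClosed (B2 : Set A2)
  N1 : AddSubgroup A1
  N2 : AddSubgroup A2
  le1 : ∀ x ∈ N1, x ∈ B1
  le2 : ∀ x ∈ N2, x ∈ B2
  Q1 : A1 →+ A
  Q2 : A2 →+ A
  q : ℝ
  hq : 0 ≤ q
  hQ1 : ∀ f, ‖Q1 f‖ ≤ q * ‖f‖
  hQ2 : ∀ f, ‖Q2 f‖ ≤ q * ‖f‖
  split1 : ∀ f, f - ρ1 (Q1 f) ∈ N1
  split2 : ∀ f, f - ρ2 (Q2 f) ∈ N2

/-- The Jacobian determinant of a chart. -/
noncomputable abbrev Chart.jac {k : Type} [Field k] {N c : ℕ} {V : Set (Fin (N + 1) → k)}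
    {x : Fin (N + 1) → k} (Ch : Chart c V x) : MvPolynomial (Fin (N + 1)) k :=
  Matrix.det (Matrix.of fun i j => pderiv j (Ch.Φ i))

/-- restriction to the inner circle -/
noncomputable def res1 (r1 r2 : ℝ) (h1 : 0 < r1) (h2 : 0 < r2) :
    W (Wt.ann r1 r2 h1 h2) →ₐ[ℂ] W (Wt.rad r1 h1) :=
  W.res (Wt.rad_le_ann_left h1 h2)

/-- restriction to the outer circle -/
noncomputable def res2 (r1 r2 : ℝ) (h1 : 0 < r1) (h2 : 0 < r2) :
    W (Wt.ann r1 r2 h1 h2) →ₐ[ℂ] W (Wt.rad r2 h2) :=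
  W.res (Wt.rad_le_ann_right h1 h2)

/-- the power series in the Wiener algebra of a circle -/
noncomputable abbrev PosW (r : ℝ) (h : 0 < r) : Type :=
  W.subalg (Wt.rad r h) (Set.Ici 0) Set.self_mem_Ici
    (fun _ hi _ hj => Set.mem_Ici.2 (add_nonneg hi hj))

end Pool.Agent.VF
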