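import Mathlib
import Pool.Agent.Lib_MP_1858fb_w.GlueDefs

/-!
MP_1858fb_ag: dual numbers `R[ε_1, ..., ε_n] = TrivSqZeroExt R (Fin n → R)` over commutative
(Banach) algebras (helper36): polynomials, units, functoriality, norms, subrings.
`DuT n R` is the type; it is a complete `NormedCommRing` (and `NormedAlgebra`) by instances of
Mathlib, with the norm `‖x‖ = ‖x.fst‖ + ‖x.snd‖`.
-/

open MvPolynomial TrivSqZeroExt

namespace Pool.Agent.VF

/-- the ring `R[ε_1, ..., ε_n]` with `ε_i ε_j = 0` -/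
abbrev DuT (n : ℕ) (R : Type) : Type := TrivSqZeroExt R (Fin n → R)

section algebra

variable {k : Type} [Field k] {A : Type} [CommRing A] [Algebra k A]
  {M : Type} [AddCommGroup M] [Module A M] [Module Aᵐᵒᵖ M] [IsCentralScalar A M]
  [Module k M] [IsScalarTower k A M] [IsScalarTower k Aᵐᵒᵖ M]

/-- Taylor expansion of a polynomial over the dual numbers -/
theorem aeval_dual {σ : Type} [Fintype σ] (E : MvPolynomial σ k) (x : σ → A) (y : σ → M) :
    aeval (fun i => (inl (x i) + inr (y i) : TrivSqZeroExt A M)) E =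
      inl (aeval x E) + inr (∑ j, aeval x (pderiv j E) • y j) := by
  classical
  induction E using MvPolynomial.induction_on with
  | C a =>
    simp only [aeval_C, pderiv_C, map_zero, zero_smul, Finset.sum_const_zero, inr_zero, add_zero]
    rfl
  | add p q hp hq =>
    rw [map_add, hp, hq, map_add, inl_add]
    simp only [map_add, add_smul, Finset.sum_add_distrib, inr_add]
    abel
  | mul_X p j hp =>
    rw [map_mul, hp, aeval_X, map_mul, aeval_X]
    have h1 : ∑ i, aeval x (pderiv i (p * X j)) • y i =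
        x j • ∑ i, aeval x (pderiv i p) • y i + aeval x p • y j := by
      simp only [Derivation.leibniz, pderiv_X, map_add, smul_eq_mul, map_mul, add_smul,
        Finset.sum_add_distrib, Finset.smul_sum]
      rw [add_comm]
      congr 1
      · refine Finset.sum_congr rfl fun i _ => ?_
        rw [aeval_X, mul_smul]
      · rw [Finset.sum_eq_single j]
        · simp
        · intro b _ hb
          simp [hb]
        · simp
    rw [h1]
    ext
    · simp
    · simp [add_comm]

end algebra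

section du

variable {n : ℕ} {R R' R'' : Type} [CommRing R] [CommRing R'] [CommRing R'']

/-- an element of the dual numbers from its components -/
def mkDu (a : R) (m : Fin n → R) : DuT n R := (a, m)

@[simp] theorem mkDu_fst (a : R) (m : Fin n → R) : (mkDu a m).fst = a := rfl
@[simp] theorem mkDu_snd (a : R) (m : Fin n → R) : (mkDu a m).snd = m := rfl

theorem snd_mul_apply (x y : DuT n R) (i : Fin n) :
    (x * y).snd i = x.fst * y.snd i + y.fst * x.snd i := by
  rw [snd_mul]
  simp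

/-- functoriality of the dual numbers -/
def mapDu (n : ℕ) (φ : R →+* R') : DuT n R →+* DuT n R' where
  toFun x := mkDu (φ x.fst) fun i => φ (x.snd i)
  map_one' := by
    refine TrivSqZeroExt.ext ?_ ?_
    · change φ 1 = 1
      exact map_one φ
    · funext i
      change φ 0 = 0
      exact map_zero φ
  map_mul' x y := by
    refine TrivSqZeroExt.ext ?_ ?_
    · change φ (x.fst * y.fst) = φ x.fst * φ y.fst
      exact map_mul φ _ _
    · funext i
      rw [mkDu_snd, snd_mul_apply, snd_mul_apply, map_add, map_mul, map_mul]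
      simp only [mkDu_fst, mkDu_snd]
  map_zero' := by
    refine TrivSqZeroExt.ext ?_ ?_
    · change φ 0 = 0
      exact map_zero φ
    · funext i
      change φ 0 = 0
      exact map_zero φ
  map_add' x y := by
    refine TrivSqZeroExt.ext ?_ ?_
    · change φ (x.fst + y.fst) = φ x.fst + φ y.fst
      exact map_add φ _ _
    · funext i
      change φ (x.snd i + y.snd i) = φ (x.snd i) + φ (y.snd i)
      exact map_add φ _ _

@[simp] theorem mapDu_fst (φ : R →+* R') (x : DuT n R) : (mapDu n φ x).fst = φ x.fst := rfl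
@[simp] theorem mapDu_snd (φ : R →+* R') (x : DuT n R) (i : Fin n) :
    (mapDu n φ x).snd i = φ (x.snd i) := rfl
@[simp] theorem mapDu_inl (φ : R →+* R') (x : R) : mapDu n φ (inl x) = inl (φ x) := by
  refine TrivSqZeroExt.ext rfl ?_
  funext i
  change φ 0 = 0
  exact map_zero φ
theorem mapDu_comp (φ : R →+* R') (ψ : R' →+* R'') (x : DuT n R) :
    mapDu n ψ (mapDu n φ x) = mapDu n (ψ.comp φ) x := rfl

/-- functoriality of the dual numbers for additive maps -/
def addDu (n : ℕ) (Q : R →+ R') : DuT n R →+ DuT n R' where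
  toFun x := mkDu (Q x.fst) fun i => Q (x.snd i)
  map_zero' := by
    refine TrivSqZeroExt.ext ?_ ?_
    · change Q 0 = 0
      exact map_zero Q
    · funext i
      change Q 0 = 0
      exact map_zero Q
  map_add' x y := by
    refine TrivSqZeroExt.ext ?_ ?_
    · change Q (x.fst + y.fst) = Q x.fst + Q y.fst
      exact map_add Q _ _
    · funext i
      change Q (x.snd i + y.snd i) = Q (x.snd i) + Q (y.snd i)
      exact map_add Q _ _

@[simp] theorem addDu_fst (Q : R →+ R') (x : DuT n R) : (addDu n Q x).fst = Q x.fst := rfl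
@[simp] theorem addDu_snd (Q : R →+ R') (x : DuT n R) (i : Fin n) :
    (addDu n Q x).snd i = Q (x.snd i) := rfl
@[simp] theorem addDu_inl (Q : R →+ R') (x : R) : addDu n Q (inl x) = inl (Q x) := by
  refine TrivSqZeroExt.ext rfl ?_
  funext i
  change Q 0 = 0
  exact map_zero Q

/-- the elements all of whose components lie in an additive subgroup -/
def subDuAdd (n : ℕ) (B : AddSubgroup R) : AddSubgroup (DuT n R) where
  carrier := {x | x.fst ∈ B ∧ ∀ i, x.snd i ∈ B}
  add_mem' := fun hx hy =>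
    ⟨B.add_mem hx.1 hy.1, fun i => B.add_mem (hx.2 i) (hy.2 i)⟩
  zero_mem' := ⟨B.zero_mem, fun _ => B.zero_mem⟩
  neg_mem' := fun hx => ⟨B.neg_mem hx.1, fun i => B.neg_mem (hx.2 i)⟩

theorem mem_subDuAdd {B : AddSubgroup R} {x : DuT n R} :
    x ∈ subDuAdd n B ↔ x.fst ∈ B ∧ ∀ i, x.snd i ∈ B := Iff.rfl

/-- the dual numbers over a subring -/
def subDu (n : ℕ) (B : Subring R) : Subring (DuT n R) where
  carrier := {x | x.fst ∈ B ∧ ∀ i, x.snd i ∈ B}
  add_mem' := fun hx hy =>
    ⟨B.add_mem hx.1 hy.1, fun i => B.add_mem (hx.2 i) (hy.2 i)⟩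
  zero_mem' := ⟨B.zero_mem, fun _ => B.zero_mem⟩
  neg_mem' := fun hx => ⟨B.neg_mem hx.1, fun i => B.neg_mem (hx.2 i)⟩
  one_mem' := ⟨B.one_mem, fun _ => B.zero_mem⟩
  mul_mem' := fun {x y} hx hy => by
    refine ⟨B.mul_mem hx.1 hy.1, fun i => ?_⟩
    rw [snd_mul_apply]
    exact B.add_mem (B.mul_mem hx.1 (hy.2 i)) (B.mul_mem hy.1 (hx.2 i))

theorem mem_subDu {B : Subring R} {x : DuT n R} :
    x ∈ subDu n B ↔ x.fst ∈ B ∧ ∀ i, x.snd i ∈ B := Iff.rfl

theorem inl_mem_subDu {B : Subring R} {x : R} (hx : x ∈ B) : (inl x : DuT n R) ∈ subDu n B :=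
  ⟨hx, fun _ => B.zero_mem⟩

/-- the element `ε_i` -/
def epsDu {n : ℕ} {R : Type} [CommRing R] (i : Fin n) : DuT n R := inr (Pi.single i 1)

theorem isUnit_du_iff {x : DuT n R} : IsUnit x ↔ IsUnit x.fst :=
  isUnit_iff_isUnit_fst

theorem mkDu_eq (a : R) (m : Fin n → R) : mkDu a m = inl a + inr m := by
  refine TrivSqZeroExt.ext ?_ ?_
  · simp
  · simp

variable {k : Type} [Field k] [Algebra k R]

theorem algebraMap_du (a : k) : algebraMap k (DuT n R) a = inl (algebraMap k R a) := rfl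

/-- a polynomial over the dual numbers: constant term -/
theorem aeval_du_fst {σ : Type} [Fintype σ] (E : MvPolynomial σ k) (x : σ → DuT n R) :
    (aeval x E).fst = aeval (fun j => (x j).fst) E := by
  have h : x = fun j => (inl (x j).fst + inr (x j).snd : DuT n R) := by
    funext j
    exact (inl_fst_add_inr_snd_eq (x j)).symm
  have h2 := aeval_dual (k := k) E (fun j => (x j).fst) (fun j => (x j).snd)
  rw [← h] at h2
  rw [h2]
  simp

/-- a polynomial over the dual numbers: the coefficient of `ε_l` -/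
theorem aeval_du_snd {σ : Type} [Fintype σ] (E : MvPolynomial σ k) (x : σ → DuT n R)
    (l : Fin n) :
    (aeval x E).snd l = dif E (fun j => (x j).fst) (fun j => (x j).snd l) := by
  have h : x = fun j => (inl (x j).fst + inr (x j).snd : DuT n R) := by
    funext j
    exact (inl_fst_add_inr_snd_eq (x j)).symm
  have h2 := aeval_dual (k := k) E (fun j => (x j).fst) (fun j => (x j).snd)
  rw [← h] at h2
  rw [h2]
  simp [dif, Finset.sum_apply]

/-- a polynomial over the dual numbers vanishes iff it vanishes at the constant terms and all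
the differentials vanish -/
theorem aeval_du_eq_zero_iff {σ : Type} [Fintype σ] (E : MvPolynomial σ k) (x : σ → DuT n R) :
    aeval x E = 0 ↔ aeval (fun j => (x j).fst) E = 0 ∧
      ∀ l, dif E (fun j => (x j).fst) (fun j => (x j).snd l) = 0 := by
  rw [← aeval_du_fst]
  simp only [← aeval_du_snd]
  constructor
  · intro h
    rw [h]
    exact ⟨rfl, fun l => rfl⟩
  · rintro ⟨h1, h2⟩
    exact TrivSqZeroExt.ext h1 (funext h2)

theorem sum_fst {ι : Type} (s : Finset ι) (f : ι → DuT n R) :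
    (∑ i ∈ s, f i).fst = ∑ i ∈ s, (f i).fst := by
  classical
  induction s using Finset.induction_on with
  | empty => simp
  | insert a s ha ih => rw [Finset.sum_insert ha, Finset.sum_insert ha, fst_add, ih]

theorem sum_snd {ι : Type} (s : Finset ι) (f : ι → DuT n R) (l : Fin n) :
    (∑ i ∈ s, f i).snd l = ∑ i ∈ s, (f i).snd l := by
  classical
  induction s using Finset.induction_on with
  | empty => simp
  | insert a s ha ih => rw [Finset.sum_insert ha, Finset.sum_insert ha, snd_add, Pi.add_apply, ih]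

/-- the constant term of the value of a tuple of forms -/
theorem val_du_fst {κ : Type} {d : ℕ} (F : Fin (d + 1) → κ → DuT n R) (p q : DuT n R) (i : κ) :
    (val F p q i).fst = val (fun j i => (F j i).fst) p.fst q.fst i := by
  unfold val
  rw [sum_fst]
  refine Finset.sum_congr rfl fun j _ => ?_
  rw [fst_mul, fst_mul, fst_pow, fst_pow]

/-- the coefficient of `ε_l` of the value of a tuple of forms at a point over `R` -/
theorem val_du_snd {κ : Type} {d : ℕ} (F : Fin (d + 1) → κ → DuT n R) (p q : R) (i : κ)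
    (l : Fin n) :
    (val F (inl p) (inl q) i).snd l = val (fun j i => (F j i).snd l) p q i := by
  unfold val
  rw [sum_snd]
  refine Finset.sum_congr rfl fun j _ => ?_
  have h1 : ((inl p : DuT n R) ^ (d - (j : ℕ)) * inl q ^ (j : ℕ)) =
      inl (p ^ (d - (j : ℕ)) * q ^ (j : ℕ)) := by
    rw [inl_mul, inl_pow, inl_pow]
  rw [h1, snd_mul_apply]
  simp [mul_comm]

end du

section norm

variable {n : ℕ} {R R' : Type} [NormedCommRing R] [NormedCommRing R']

theorem norm_du (x : DuT n R) : ‖x‖ = ‖x.fst‖ + ‖x.snd‖ := norm_def x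

theorem norm_fst_le (x : DuT n R) : ‖x.fst‖ ≤ ‖x‖ := by
  rw [norm_du]
  linarith [norm_nonneg x.snd]

theorem norm_snd_le (x : DuT n R) (i : Fin n) : ‖x.snd i‖ ≤ ‖x‖ := by
  rw [norm_du]
  linarith [norm_nonneg x.fst, norm_le_pi_norm x.snd i]

theorem norm_mapDu_le {φ : R →+* R'} {C : ℝ} (hC : 0 ≤ C) (hφ : ∀ x, ‖φ x‖ ≤ C * ‖x‖)
    (x : DuT n R) : ‖mapDu n φ x‖ ≤ C * ‖x‖ := by
  rw [norm_du, norm_du, mul_add]
  refine add_le_add (hφ _) ?_
  rw [pi_norm_le_iff_of_nonneg (by positivity)]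
  intro i
  exact (hφ _).trans (mul_le_mul_of_nonneg_left (norm_le_pi_norm x.snd i) hC)

theorem norm_mapDu_le_one {φ : R →+* R'} (hφ : ∀ x, ‖φ x‖ ≤ ‖x‖) (x : DuT n R) :
    ‖mapDu n φ x‖ ≤ ‖x‖ := by
  simpa using norm_mapDu_le zero_le_one (by simpa using hφ) x

theorem norm_addDu_le {Q : R →+ R'} {C : ℝ} (hC : 0 ≤ C) (hQ : ∀ x, ‖Q x‖ ≤ C * ‖x‖)
    (x : DuT n R) : ‖addDu n Q x‖ ≤ C * ‖x‖ := by
  rw [norm_du, norm_du, mul_add]
  refine add_le_add (hQ _) ?_
  rw [pi_norm_le_iff_of_nonneg (by positivity)]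
  intro i
  exact (hQ _).trans (mul_le_mul_of_nonneg_left (norm_le_pi_norm x.snd i) hC)

theorem norm_epsDu_le [NormOneClass R] (i : Fin n) : ‖(epsDu i : DuT n R)‖ ≤ 1 := by
  rw [norm_du]
  simp only [epsDu, fst_inr, norm_zero, zero_add, snd_inr]
  rw [pi_norm_le_iff_of_nonneg zero_le_one]
  intro j
  by_cases h : j = i
  · subst h; simp
  · simp [h]

theorem continuous_fst_du : Continuous fun x : DuT n R => x.fst := TrivSqZeroExt.continuous_fst
theorem continuous_snd_du (i : Fin n) : Continuous fun x : DuT n R => x.snd i :=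
  (continuous_apply i).comp TrivSqZeroExt.continuous_snd

theorem isClosed_subDuAdd {B : AddSubgroup R} (hB : IsClosed (B : Set R)) :
    IsClosed (subDuAdd n B : Set (DuT n R)) := by
  have : (subDuAdd n B : Set (DuT n R)) = (fun x : DuT n R => x.fst) ⁻¹' (B : Set R) ∩
      ⋂ i, (fun x : DuT n R => x.snd i) ⁻¹' (B : Set R) := by
    ext x
    simp [mem_subDuAdd]
  rw [this]
  exact (hB.preimage continuous_fst_du).inter
    (isClosed_iInter fun i => hB.preimage (continuous_snd_du i))

theorem isClosed_subDu {B : Subring R} (hB : IsClosed (B : Set R)) :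
    IsClosed (subDu n B : Set (DuT n R)) := by
  have : (subDu n B : Set (DuT n R)) = (fun x : DuT n R => x.fst) ⁻¹' (B : Set R) ∩
      ⋂ i, (fun x : DuT n R => x.snd i) ⁻¹' (B : Set R) := by
    ext x
    simp [mem_subDu]
  rw [this]
  exact (hB.preimage continuous_fst_du).inter
    (isClosed_iInter fun i => hB.preimage (continuous_snd_du i))

end norm

section P1

variable {R R' : Type} [NormedCommRing R] [NormedAlgebra ℂ R] [NormedCommRing R']
  [NormedAlgebra ℂ R'] {σ : Type} [Fintype σ]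

theorem Du.norm_map_le (n : ℕ) (f : R →ₐ[ℂ] R') (hf : ∀ x, ‖f x‖ ≤ ‖x‖) (x : Du n R) :
    ‖Du.map n f x‖ ≤ ‖x‖ :=
  norm_mapDu_le_one (φ := (f : R →+* R')) hf x

omit [NormedCommRing R'] [NormedAlgebra ℂ R'] in
/-- evaluation of polynomials at dual points -/
theorem Du.fst_aeval {n : ℕ} (x : σ → Du n R) (E : MvPolynomial σ ℂ) :
    (aeval x E).fst = aeval (fun i => (x i).fst) E := aeval_du_fst E x

theorem Du.snd_aeval {n : ℕ} (x : σ → Du n R) (E : MvPolynomial σ ℂ) (l : Fin n) :
    (aeval x E).snd l = dif E (fun i => (x i).fst) (fun i => (x i).snd l) := aeval_du_snd E x l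

/-- values of tuples of forms at `(inl p, inl q)` -/
theorem Du.fst_val {κ : Type} {n d : ℕ} (F : Fin (d + 1) → κ → Du n R) (p q : R) (i : κ) :
    (val F (TrivSqZeroExt.inl p) (TrivSqZeroExt.inl q) i).fst =
      val (fun j i => (F j i).fst) p q i := val_du_fst F (inl p) (inl q) i

theorem Du.snd_val {κ : Type} {n d : ℕ} (F : Fin (d + 1) → κ → Du n R) (p q : R) (i : κ)
    (l : Fin n) : (val F (TrivSqZeroExt.inl p) (TrivSqZeroExt.inl q) i).snd l =
      val (fun j i => (F j i).snd l) p q i := val_du_snd F p q i l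

theorem Du.isUnit_of_fst {n : ℕ} {x : Du n R} (h : IsUnit x.fst) : IsUnit x :=
  isUnit_du_iff.2 h

/-- the dual numbers over a two circle datum -/
theorem TwoCircle.exists_dual {A A1 A2 : Type} [NormedCommRing A] [NormedAlgebra ℂ A]
    [NormedCommRing A1] [NormedAlgebra ℂ A1] [NormedCommRing A2] [NormedAlgebra ℂ A2]
    (T : TwoCircle A A1 A2) (n : ℕ) :
    ∃ T' : TwoCircle (Du n A) (Du n A1) (Du n A2),
      (∀ x, T'.ρ1 x = Du.map n T.ρ1 x) ∧ (∀ x, T'.ρ2 x = Du.map n T.ρ2 x) ∧
      (∀ x, x ∈ T'.B1 ↔ x.fst ∈ T.B1 ∧ ∀ l, x.snd l ∈ T.B1) ∧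
      (∀ x, x ∈ T'.B2 ↔ x.fst ∈ T.B2 ∧ ∀ l, x.snd l ∈ T.B2) ∧
      (∀ x, x ∈ T'.N1 ↔ x.fst ∈ T.N1 ∧ ∀ l, x.snd l ∈ T.N1) ∧
      (∀ x, x ∈ T'.N2 ↔ x.fst ∈ T.N2 ∧ ∀ l, x.snd l ∈ T.N2) := by
  refine ⟨{
    ρ1 := Du.map n T.ρ1
    ρ2 := Du.map n T.ρ2
    h1 := fun x => Du.norm_map_le n T.ρ1 T.h1 x
    h2 := fun x => Du.norm_map_le n T.ρ2 T.h2 x
    B1 := subDu n T.B1
    B2 := subDu n T.B2
    closed1 := isClosed_subDu T.closed1
    closed2 := isClosed_subDu T.closed2
    N1 := subDuAdd n T.N1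
    N2 := subDuAdd n T.N2
    le1 := fun x hx => ⟨T.le1 _ hx.1, fun i => T.le1 _ (hx.2 i)⟩
    le2 := fun x hx => ⟨T.le2 _ hx.1, fun i => T.le2 _ (hx.2 i)⟩
    Q1 := addDu n T.Q1
    Q2 := addDu n T.Q2
    q := T.q
    hq := T.hq
    hQ1 := fun f => norm_addDu_le T.hq T.hQ1 f
    hQ2 := fun f => norm_addDu_le T.hq T.hQ2 f
    split1 := fun f => ⟨T.split1 _, fun i => T.split1 _⟩
    split2 := fun f => ⟨T.split2 _, fun i => T.split2 _⟩ }, fun _ => rfl, fun _ => rfl,
    fun _ => Iff.rfl, fun _ => Iff.rfl, fun _ => Iff.rfl, fun _ => Iff.rfl⟩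

end P1

end Pool.Agent.VF
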