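import Pool.Agent.Lib_MP_1858fb_w.FamLift
import Pool.Agent.Lib_MP_1858fb_w.FamSys
import Pool.Agent.Lib_MP_1858fb_w.Van1
import Pool.Agent.Lib_MP_1858fb_w.Van3

/-!
# MP_1858fb_ag, V8 part C: from one generic solution to the family
-/

set_option autoImplicit false

namespace Pool.Agent.VF

open MvPolynomial

/-- One solution of the system over a field that contains the coordinate ring of `V × V` gives
the algebraic family. -/
theorem family_of_solution {k : Type} [Field k] [CharZero k] [IsAlgClosed k]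
    {N d m s M : ℕ} {V : Set (Fin (N + 1) → k)}
    (hV : LocClosed V) (hirr : Irred V) (G : Fin s → MvPolynomial (Fin (N + 1)) k)
    (hG : ∀ x, x ∈ V ↔ (∀ E ∈ van V, aeval x E = 0) ∧ ∃ i, aeval x (G i) ≠ 0)
    (cm : Fin m → k) (vs : Fin m → Fin (N + 1) → k)
    (K : Type) [Field K] [Algebra k K]
    (φ : (MvPolynomial (Fin (N + 1) ⊕ Fin (N + 1)) k ⧸ van (prodSet V V)) →ₐ[k] K)
    (hφ : Function.Injective φ) (x : Fin (d + 1) → Fin (N + 1) → K)
    (c : Fin s → Fin (M + 1) → K)
    (h : Sol V G cm vs (fun i => φ (Ideal.Quotient.mk _ (X (Sum.inl i))))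
      (fun i => φ (Ideal.Quotient.mk _ (X (Sum.inr i)))) x
      (toPoly fun (n : Fin (M + 1)) (a : Fin s) => c a n)) :
    Nonempty (Family V cm vs d) := by
  classical
  obtain ⟨g, E, hE⟩ := Submodule.fg_iff_exists_fin_generating_family.1
    ((isNoetherianRing_iff_ideal_fg (MvPolynomial (Fin (N + 1)) k)).1 inferInstance (van V))
  have hE' : Ideal.span (Set.range E) = van V := hE
  let B := MvPolynomial (Fin (N + 1) ⊕ Fin (N + 1)) k
  let w0 : Fin (N + 1) → B := fun i => X (Sum.inl i)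
  let z0 : Fin (N + 1) → B := fun i => X (Sum.inr i)
  obtain ⟨D, P, Q, hD, hl, hdeg, hfam⟩ := lift_family (irred_prodSet hirr hirr)
    (sys d M E G cm vs w0 z0) (by
    intro b hb
    let φ' : B →ₐ[k] K := φ.comp (Ideal.Quotient.mkₐ k (van (prodSet V V)))
    refine ⟨K, inferInstance, (φ' : B →+* K), ?_, ?_,
      Sum.elim (fun p => x p.1 p.2) (fun p => c p.1 p.2), ?_⟩
    · intro h0
      apply hb
      apply Ideal.Quotient.eq_zero_iff_mem.1
      apply hφ
      rw [map_zero]
      exact h0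
    · intro e he
      have h1 : Ideal.Quotient.mk (van (prodSet V V)) e = 0 := Ideal.Quotient.eq_zero_iff_mem.2 he
      change φ (Ideal.Quotient.mk (van (prodSet V V)) e) = 0
      rw [h1, map_zero]
    · exact (sys_iff d M G cm vs w0 z0 hE' φ' _).2 h)
  have hsol : ∀ w ∈ V, ∀ z ∈ V, ∀ δ θ : k, aeval (Sum.elim w z) D * δ = 1 →
      evT w z θ P = 0 → evT w z θ (Polynomial.derivative P) ≠ 0 ∧
      Sol V G cm vs w z (fun j i => δ * evT w z θ (Q (Sum.inl (j, i))))
        (toPoly fun (n : Fin (M + 1)) (a : Fin s) => δ * evT w z θ (Q (Sum.inr (a, n)))) := by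
    intro w hw z hz δ θ hδ hθ
    obtain ⟨h1, h2⟩ := hfam (Sum.elim w z) ⟨hw, hz⟩ δ θ hδ hθ
    refine ⟨h1, ?_⟩
    have h3 := (sys_iff d M G cm vs w0 z0 hE' (aeval (Sum.elim w z)) _).1 h2
    have e1 : (fun i => aeval (Sum.elim w z) (w0 i)) = w := by
      funext i
      simp [w0]
    have e2 : (fun i => aeval (Sum.elim w z) (z0 i)) = z := by
      funext i
      simp [z0]
    rw [e1, e2] at h3
    exact h3
  have hsc : ∀ x ∈ V, ∀ a : k, a ≠ 0 → a • x ∈ V := fun x hx a ha =>
    smul_mem_of_locClosed hV hx ha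
  exact ⟨{
    D := D
    P := P
    Q := fun j i => Q (Sum.inl (j, i))
    hD := hD
    hlead := hl
    hdeg := hdeg
    simple := fun w hw z hz δ θ hδ hθ => (hsol w hw z hz δ θ hδ hθ).1
    curve := fun w hw z hz δ θ hδ hθ => (hsol w hw z hz δ θ hδ hθ).2.isCurve hz hsc hG
    start := fun w hw z hz δ θ hδ hθ i => (hsol w hw z hz δ θ hδ hθ).2.start i
    stop := fun w hw z hz δ θ hδ hθ i => (hsol w hw z hz δ θ hδ hθ).2.stop i
    marks := fun w hw z hz δ θ hδ hθ l =>
      funext fun i => (hsol w hw z hz δ θ hδ hθ).2.marks l i }⟩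

end Pool.Agent.VF
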