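import Pool.Agent.Lib_MP_1858fb_w.FamFormal
import Pool.Agent.Lib_MP_1858fb_w.FamOfSol
import Pool.Agent.Lib_MP_1858fb_w.Deform

/-!
# MP_1858fb_ag: the algebraic family through two general points (piece V8)

`family_of_deformation`: the conclusion of V8 from the conclusion of V7 (the generic formal
deformation with `m` marks).
-/

set_option autoImplicit false

namespace Pool.Agent.VF

open MvPolynomial

theorem family_of_deformation {k : Type} [Field k] [IsAlgClosed k] [CharZero k] {N d m r : ℕ}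
    {V : Set (Fin (N + 1) → k)} (hV : LocClosed V) (hirr : Irred V)
    {F0 : Fin (d + 1) → Fin (N + 1) → k} (hF0 : IsCurve V F0) (cm : Fin m → k)
    (F : Fin (d + 1) → Fin (N + 1) → MvPowerSeries (Fin r) k)
    (h1 : ∀ j i, MvPowerSeries.constantCoeff (F j i) = F0 j i)
    (h2 : ∀ E ∈ van V, ∀ p q : MvPowerSeries (Fin r) k, aeval (val F p q) E = 0)
    (h3 : ∀ l i, val F 1 (MvPowerSeries.C (cm l)) i = MvPowerSeries.C (val F0 1 (cm l) i))
    (h4 : ∀ g : MvPolynomial (Fin (N + 1) ⊕ Fin (N + 1)) k,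
      aeval (Sum.elim (F 0) (F (Fin.last d))) g = 0 → g ∈ van (prodSet V V)) :
    Nonempty (Family V cm (fun l => val F0 1 (cm l)) d) := by
  classical
  obtain ⟨s, G, e, hGe, -, hG⟩ := exists_open_forms hV
  obtain ⟨M, x, hx⟩ := formal_sol hF0 cm G e hGe (fun x hx => ((hG x).1 hx).2) F h1 h2 h3
  obtain ⟨φ, hφ0, hφ1, hφ2⟩ := formal_hom F h2 h4
  have hRdom : IsDomain (MvPowerSeries (Fin r) k) := NoZeroDivisors.to_isDomain _
  let ψ : (MvPolynomial (Fin (N + 1) ⊕ Fin (N + 1)) k ⧸ van (prodSet V V)) →ₐ[k]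
      FractionRing (MvPowerSeries (Fin r) k) :=
    Ideal.Quotient.liftₐ (van (prodSet V V)) φ (fun g hg => (hφ0 g).2 hg)
  have hψ : ∀ g, ψ (Ideal.Quotient.mk _ g) = φ g := fun g =>
    Ideal.Quotient.lift_mk _ _ _
  have hinj : Function.Injective ψ := by
    rw [injective_iff_map_eq_zero]
    intro b hb
    obtain ⟨g, rfl⟩ := Ideal.Quotient.mk_surjective b
    rw [hψ, hφ0] at hb
    exact Ideal.Quotient.eq_zero_iff_mem.2 hb
  refine family_of_solution hV hirr G hG cm _ (FractionRing (MvPowerSeries (Fin r) k)) ψ hinj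
    (fun j i => x (Sum.inl (j, i))) (fun a n => x (Sum.inr (a, n))) ?_
  have e1 : (fun i => ψ (Ideal.Quotient.mk _ (X (Sum.inl i)))) =
      fun i => algebraMap _ (FractionRing (MvPowerSeries (Fin r) k)) (F 0 i) := by
    funext i
    rw [hψ, hφ1]
  have e2 : (fun i => ψ (Ideal.Quotient.mk _ (X (Sum.inr i)))) =
      fun i => algebraMap _ (FractionRing (MvPowerSeries (Fin r) k)) (F (Fin.last d) i) := by
    funext i
    rw [hψ, hφ2]
  rw [e1, e2]
  exact hx

/-- The algebraic family (V8). -/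
theorem exists_family {k : Type} [Field k] [IsAlgClosed k] [CharZero k] {N c d m : ℕ}
    {V : Set (Fin (N + 1) → k)} (hV : LocClosed V) (hirr : Irred V)
    (hsm : ∀ x ∈ V, SmoothAt c V x) {F0 : Fin (d + 1) → Fin (N + 1) → k} (hF0 : IsCurve V F0)
    (cm : Fin m → k) (hcm : ∀ l, cm l ≠ 0) (hinj : Function.Injective cm)
    (hspan : Span V F0 (m + 1)) :
    Nonempty (Family V cm (fun l => val F0 1 (cm l)) d) := by
  obtain ⟨r, F, h1, h2, h3, h4⟩ :=
    exists_generic_deformation hV hirr hsm hF0 cm hcm hinj hspan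
  exact family_of_deformation hV hirr hF0 cm F h1 h2 h3 h4

end Pool.Agent.VF
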