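import Mathlib

/-!
MP_1858fb_ag: fixed points depending on a parameter, strict derivative and C^1 versions
(helper36).  No result of the project is used.
-/

open Filter Topology

namespace Pool.Agent.VF

section strict

variable {𝕜 : Type*} [NontriviallyNormedField 𝕜]
  {E : Type*} [NormedAddCommGroup E] [NormedSpace 𝕜 E]
  {P : Type*} [NormedAddCommGroup P] [NormedSpace 𝕜 P]

/-- the linear part `(x, p) ↦ (x - L p, p)` as an equivalence -/
noncomputable def shear (L : P →L[𝕜] E) : (E × P) ≃L[𝕜] (E × P) :=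
  ContinuousLinearEquiv.equivOfInverse
    ((ContinuousLinearMap.fst 𝕜 E P - L.comp (ContinuousLinearMap.snd 𝕜 E P)).prod
      (ContinuousLinearMap.snd 𝕜 E P))
    ((ContinuousLinearMap.fst 𝕜 E P + L.comp (ContinuousLinearMap.snd 𝕜 E P)).prod
      (ContinuousLinearMap.snd 𝕜 E P))
    (fun x => by ext <;> simp) (fun x => by ext <;> simp)

theorem shear_apply (L : P →L[𝕜] E) (x : E × P) : shear L x = (x.1 - L x.2, x.2) := rfl

theorem shear_symm_apply (L : P →L[𝕜] E) (x : E × P) :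
    (shear L).symm x = (x.1 + L x.2, x.2) := rfl

variable [CompleteSpace E] [CompleteSpace P]

/-- the fixed point of `T (·, p)` as a strictly differentiable function of `p`
(any complete field) -/
theorem fixPt_strict {T : E × P → E} {x₀ : E} {p₀ : P} {T' : E × P →L[𝕜] E}
    (hT : HasStrictFDerivAt T T' (x₀, p₀)) (h0 : T (x₀, p₀) = x₀)
    (hT' : ∀ x : E, T' (x, 0) = 0) :
    ∃ φ : P → E, φ p₀ = x₀ ∧ (∀ᶠ p in 𝓝 p₀, T (φ p, p) = φ p) ∧
      HasStrictFDerivAt φ (T'.comp (ContinuousLinearMap.inr 𝕜 E P)) p₀ ∧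
      (∀ᶠ z in 𝓝 (x₀, p₀), T z = z.1 → z.1 = φ z.2) := by
  set L : P →L[𝕜] E := T'.comp (ContinuousLinearMap.inr 𝕜 E P) with hL
  have hTL : ∀ z : E × P, T' z = L z.2 := by
    intro z
    have : z = (z.1, 0) + (0, z.2) := by ext <;> simp
    rw [this, map_add, hT']
    simp [hL]
  let Ψ : E × P → E × P := fun z => (z.1 - T z, z.2)
  have hΨ : HasStrictFDerivAt Ψ ((shear L : (E × P) ≃L[𝕜] (E × P)) : (E × P) →L[𝕜] (E × P))
      (x₀, p₀) := by
    have h1 : HasStrictFDerivAt Ψ ((ContinuousLinearMap.fst 𝕜 E P - T').prod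
        (ContinuousLinearMap.snd 𝕜 E P)) (x₀, p₀) :=
      (hasStrictFDerivAt_fst.sub hT).prodMk hasStrictFDerivAt_snd
    refine h1.congr_fderiv ?_
    refine ContinuousLinearMap.ext fun z => ?_
    change (z.1 - T' z, z.2) = (z.1 - L z.2, z.2)
    rw [hTL]
  have hΨ0 : Ψ (x₀, p₀) = (0, p₀) := by simp [Ψ, h0]
  have hinv := hΨ.to_localInverse
  rw [hΨ0] at hinv
  have hloc0 : hΨ.localInverse Ψ (shear L) (x₀, p₀) (0, p₀) = (x₀, p₀) := by
    rw [← hΨ0]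
    exact hΨ.localInverse_apply_image
  let ψ := hΨ.localInverse Ψ (shear L) (x₀, p₀)
  have hr : ∀ᶠ y in 𝓝 ((0 : E), p₀), Ψ (ψ y) = y := by
    have := hΨ.eventually_right_inverse
    rwa [hΨ0] at this
  have hl : ∀ᶠ z in 𝓝 (x₀, p₀), ψ (Ψ z) = z := hΨ.eventually_left_inverse
  have hι : Tendsto (fun p : P => ((0 : E), p)) (𝓝 p₀) (𝓝 (0, p₀)) :=
    (continuous_const.prodMk continuous_id).tendsto' _ _ rfl
  refine ⟨fun p => (ψ (0, p)).1, ?_, ?_, ?_, ?_⟩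
  · change (ψ (0, p₀)).1 = x₀
    rw [show ψ (0, p₀) = (x₀, p₀) from hloc0]
  · filter_upwards [hι.eventually hr] with p hp
    have h2 : (ψ (0, p)).2 = p := congrArg Prod.snd hp
    have h1 : (ψ (0, p)).1 - T (ψ (0, p)) = 0 := congrArg Prod.fst hp
    have h3 : ψ (0, p) = ((ψ (0, p)).1, p) := Prod.ext rfl h2
    rw [← h3]
    exact (sub_eq_zero.1 h1).symm
  · have h1 : HasStrictFDerivAt (fun p : P => ((0 : E), p)) (ContinuousLinearMap.inr 𝕜 E P) p₀ :=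
      (ContinuousLinearMap.inr 𝕜 E P).hasStrictFDerivAt
    have h2 := hinv.comp p₀ h1
    have h3 := (hasStrictFDerivAt_fst (𝕜 := 𝕜) (E := E) (F := P)).comp p₀ h2
    refine h3.congr_fderiv ?_
    refine ContinuousLinearMap.ext fun p => ?_
    change ((shear L).symm (0, p)).1 = L p
    rw [shear_symm_apply]
    simp
  · filter_upwards [hl] with z hz hfix
    have h1 : Ψ z = (0, z.2) := by simp [Ψ, hfix]
    rw [h1] at hz
    change z.1 = (ψ (0, z.2)).1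
    rw [hz]

end strict

section contDiff

variable {𝕜 : Type*} [RCLike 𝕜]
  {E : Type*} [NormedAddCommGroup E] [NormedSpace 𝕜 E] [CompleteSpace E]
  {P : Type*} [NormedAddCommGroup P] [NormedSpace 𝕜 P] [CompleteSpace P]

/-- the fixed point of `T (·, p)` as a `C^n` function of `p`, `n ≥ 1` -/
theorem fixPt_contDiffAt {n : WithTop ℕ∞} (hn : n ≠ 0) {T : E × P → E} {x₀ : E} {p₀ : P}
    (hT : ContDiffAt 𝕜 n T (x₀, p₀)) (h0 : T (x₀, p₀) = x₀)
    (hT' : ∀ x : E, fderiv 𝕜 T (x₀, p₀) (x, 0) = 0) :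
    ∃ φ : P → E, φ p₀ = x₀ ∧ ContDiffAt 𝕜 n φ p₀ ∧ (∀ᶠ p in 𝓝 p₀, T (φ p, p) = φ p) ∧
      (∀ p, fderiv 𝕜 φ p₀ p = fderiv 𝕜 T (x₀, p₀) (0, p)) ∧
      (∀ᶠ z in 𝓝 (x₀, p₀), T z = z.1 → z.1 = φ z.2) := by
  set T' : E × P →L[𝕜] E := fderiv 𝕜 T (x₀, p₀) with hT'def
  have hTs : HasStrictFDerivAt T T' (x₀, p₀) := hT.hasStrictFDerivAt hn
  set L : P →L[𝕜] E := T'.comp (ContinuousLinearMap.inr 𝕜 E P) with hL
  have hTL : ∀ z : E × P, T' z = L z.2 := by
    intro z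
    have : z = (z.1, 0) + (0, z.2) := by ext <;> simp
    rw [this, map_add, hT']
    simp [hL]
  let Ψ : E × P → E × P := fun z => (z.1 - T z, z.2)
  have hΨc : ContDiffAt 𝕜 n Ψ (x₀, p₀) := (contDiffAt_fst.sub hT).prodMk contDiffAt_snd
  have hΨ : HasFDerivAt Ψ ((shear L : (E × P) ≃L[𝕜] (E × P)) : (E × P) →L[𝕜] (E × P))
      (x₀, p₀) := by
    have h1 : HasFDerivAt Ψ ((ContinuousLinearMap.fst 𝕜 E P - T').prod
        (ContinuousLinearMap.snd 𝕜 E P)) (x₀, p₀) :=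
      (hasFDerivAt_fst.sub hTs.hasFDerivAt).prodMk hasFDerivAt_snd
    refine h1.congr_fderiv ?_
    refine ContinuousLinearMap.ext fun z => ?_
    change (z.1 - T' z, z.2) = (z.1 - L z.2, z.2)
    rw [hTL]
  have hΨ0 : Ψ (x₀, p₀) = (0, p₀) := by simp [Ψ, h0]
  have hinvc := hΨc.to_localInverse hΨ hn
  rw [hΨ0] at hinvc
  let ψ := hΨc.localInverse hΨ hn
  have hloc0 : ψ (0, p₀) = (x₀, p₀) := by
    rw [← hΨ0]
    exact hΨc.localInverse_apply_image hΨ hn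
  have hr : ∀ᶠ y in 𝓝 ((0 : E), p₀), Ψ (ψ y) = y := by
    have := (hΨc.hasStrictFDerivAt' hΨ hn).eventually_right_inverse
    rwa [hΨ0] at this
  have hl : ∀ᶠ z in 𝓝 (x₀, p₀), ψ (Ψ z) = z :=
    (hΨc.hasStrictFDerivAt' hΨ hn).eventually_left_inverse
  have hι : Tendsto (fun p : P => ((0 : E), p)) (𝓝 p₀) (𝓝 (0, p₀)) :=
    (continuous_const.prodMk continuous_id).tendsto' _ _ rfl
  have hψs : HasStrictFDerivAt ψ ((shear L).symm : (E × P) →L[𝕜] (E × P)) (0, p₀) := by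
    have := (hΨc.hasStrictFDerivAt' hΨ hn).to_localInverse
    rwa [hΨ0] at this
  refine ⟨fun p => (ψ (0, p)).1, ?_, ?_, ?_, ?_, ?_⟩
  · change (ψ (0, p₀)).1 = x₀
    rw [hloc0]
  · have h1 : ContDiffAt 𝕜 n (fun p : P => ((0 : E), p)) p₀ :=
      contDiffAt_const.prodMk contDiffAt_id
    have h2 : ContDiffAt 𝕜 n (fun p : P => ψ ((0 : E), p)) p₀ := hinvc.comp p₀ h1
    exact contDiffAt_fst.comp p₀ h2
  · filter_upwards [hι.eventually hr] with p hp
    have h2 : (ψ (0, p)).2 = p := congrArg Prod.snd hp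
    have h1 : (ψ (0, p)).1 - T (ψ (0, p)) = 0 := congrArg Prod.fst hp
    have h3 : ψ (0, p) = ((ψ (0, p)).1, p) := Prod.ext rfl h2
    rw [← h3]
    exact (sub_eq_zero.1 h1).symm
  · intro p
    have h1 : HasStrictFDerivAt (fun p : P => ((0 : E), p)) (ContinuousLinearMap.inr 𝕜 E P) p₀ :=
      (ContinuousLinearMap.inr 𝕜 E P).hasStrictFDerivAt
    have h2 := hψs.comp p₀ h1
    have h3 : HasStrictFDerivAt (fun p : P => (ψ (0, p)).1) _ p₀ :=
      (hasStrictFDerivAt_fst (𝕜 := 𝕜) (E := E) (F := P)).comp p₀ h2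
    rw [h3.hasFDerivAt.fderiv]
    change ((shear L).symm (0, p)).1 = T' (0, p)
    rw [shear_symm_apply]
    simp [hL]
  · filter_upwards [hl] with z hz hfix
    have h1 : Ψ z = (0, z.2) := by simp [Ψ, hfix]
    rw [h1] at hz
    change z.1 = (ψ (0, z.2)).1
    rw [hz]

end contDiff

end Pool.Agent.VF
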