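import Mathlib

/-!
# Generic solutions of systems of polynomial equations

`B` a domain of characteristic zero, `S` a finite system of polynomial equations over `B`.  If the
system is solvable generically, then it has a generic solution in polynomials in a root `t` of one
polynomial `P` over `B`, valid over every commutative ring in which the leading coefficient `D` of
`P` is invertible.
-/

namespace Pool.Agent.VFree

open Polynomial

section

variable {B : Type*} [CommRing B] [IsDomain B]

/-- common denominators of finitely many polynomials -/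
theorem common_den (s : Finset (FractionRing B)[X]) :
    ∃ D : B, D ≠ 0 ∧ ∀ g ∈ s, ∃ G : B[X],
      G.map (algebraMap B (FractionRing B)) = C (algebraMap B (FractionRing B) D) * g := by
  classical
  induction s using Finset.induction_on with
  | empty => exact ⟨1, one_ne_zero, by simp⟩
  | insert g s _ ih =>
    obtain ⟨D, hD, h⟩ := ih
    obtain ⟨b, hb, hg⟩ := IsLocalization.integerNormalization_spec (nonZeroDivisors B) g
    refine ⟨D * b, mul_ne_zero hD (nonZeroDivisors.ne_zero hb), ?_⟩
    intro g' hg'
    rw [Finset.mem_insert] at hg'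
    rcases hg' with rfl | hg'
    · refine ⟨C D * IsLocalization.integerNormalization (nonZeroDivisors B) g', ?_⟩
      rw [Polynomial.map_mul, map_C, map_mul, C_mul, mul_assoc]
      congr 1
      rw [hg, Algebra.smul_def]
      rfl
    · obtain ⟨G, hG⟩ := h g' hg'
      refine ⟨C b * G, ?_⟩
      rw [Polynomial.map_mul, map_C, hG, map_mul, C_mul]
      ring

/-- a generically solvable system is solvable in some field extension of the fraction field,
i.e. the ideal is proper -/
theorem map_ne_top {σ : Type*} (S : Finset (MvPolynomial σ B))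
    (h : ∀ b : B, b ≠ 0 → ∃ (R : Type) (_ : Field R) (φ : B →+* R), φ b ≠ 0 ∧
      ∃ x : σ → R, ∀ f ∈ S, MvPolynomial.eval₂ φ x f = 0) :
    (Ideal.span (S : Set (MvPolynomial σ B))).map
      (MvPolynomial.map (algebraMap B (FractionRing B))) ≠ ⊤ := by
  letI : Algebra (MvPolynomial σ B) (MvPolynomial σ (FractionRing B)) :=
    MvPolynomial.algebraMvPolynomial
  haveI : IsLocalization ((nonZeroDivisors B).map (MvPolynomial.C (σ := σ)))
      (MvPolynomial σ (FractionRing B)) :=
    MvPolynomial.isLocalization (nonZeroDivisors B) (FractionRing B)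
  have key := (IsLocalization.map_algebraMap_ne_top_iff_disjoint
    ((nonZeroDivisors B).map (MvPolynomial.C (σ := σ))) (MvPolynomial σ (FractionRing B))
    (Ideal.span (S : Set (MvPolynomial σ B)))).2
  refine key ?_
  rw [Set.disjoint_left]
  rintro p ⟨b, hb, rfl⟩ hp
  obtain ⟨R, _, φ, hφ, x, hx⟩ := h b (nonZeroDivisors.ne_zero hb)
  apply hφ
  have hle : Ideal.span (S : Set (MvPolynomial σ B)) ≤
      RingHom.ker (MvPolynomial.eval₂Hom φ x) := by
    rw [Ideal.span_le]
    intro f hf
    exact hx f hf
  have := hle hp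
  rw [RingHom.mem_ker] at this
  simpa using this

/-- the algebra over the fraction field -/
theorem exists_primitive [CharZero B] {σ : Type*} [Finite σ] (S : Finset (MvPolynomial σ B))
    (h : (Ideal.span (S : Set (MvPolynomial σ B))).map
      (MvPolynomial.map (algebraMap B (FractionRing B))) ≠ ⊤) :
    ∃ (p : (FractionRing B)[X]) (q : σ → (FractionRing B)[X]), p.Monic ∧ 0 < p.natDegree ∧
      IsCoprime p (derivative p) ∧ ∀ f ∈ S, p ∣
        MvPolynomial.eval₂ (C.comp (algebraMap B (FractionRing B))) q f := by
  classical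
  let K := FractionRing B
  obtain ⟨m, hm, hle⟩ := Ideal.exists_le_maximal _ h
  let F := MvPolynomial σ K ⧸ m
  letI : Field F := Ideal.Quotient.field m
  haveI : Algebra.FiniteType K F := inferInstance
  haveI : Module.Finite K F := finite_of_finite_type_of_isJacobsonRing K F
  haveI : CharZero K := inferInstance
  haveI : Algebra.IsSeparable K F := inferInstance
  obtain ⟨α, hα⟩ := Field.exists_primitive_element K F
  have hint : IsIntegral K α := Algebra.IsIntegral.isIntegral α
  have hq : ∀ y : F, ∃ q : K[X], aeval α q = y := by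
    intro y
    have hy : y ∈ IntermediateField.adjoin K {α} := by
      rw [hα]
      exact IntermediateField.mem_top
    have hy2 : y ∈ (IntermediateField.adjoin K {α}).toSubalgebra := hy
    rw [IntermediateField.adjoin_simple_toSubalgebra_of_isAlgebraic hint.isAlgebraic,
      Algebra.adjoin_singleton_eq_range_aeval] at hy2
    exact hy2
  choose q0 hq0 using hq
  refine ⟨minpoly K α, fun i => q0 (Ideal.Quotient.mk m (MvPolynomial.X i)), minpoly.monic hint,
    minpoly.natDegree_pos hint, Algebra.IsSeparable.isSeparable K α, ?_⟩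
  intro f hf
  apply minpoly.dvd
  have e1 : (aeval α : K[X] →ₐ[K] F) (MvPolynomial.eval₂ (C.comp (algebraMap B K))
      (fun i => q0 (Ideal.Quotient.mk m (MvPolynomial.X i))) f) =
      Ideal.Quotient.mk m (MvPolynomial.map (algebraMap B K) f) := by
    have e2 : ∀ f : MvPolynomial σ B,
        ((aeval α : K[X] →ₐ[K] F) : K[X] →+* F) (MvPolynomial.eval₂ (C.comp (algebraMap B K))
      (fun i => q0 (Ideal.Quotient.mk m (MvPolynomial.X i))) f) =
      ((Ideal.Quotient.mk m).comp (MvPolynomial.map (algebraMap B K))) f := by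
      intro f
      rw [MvPolynomial.eval₂_comp_left]
      induction f using MvPolynomial.induction_on with
      | C a =>
        rw [MvPolynomial.eval₂_C]
        simp only [RingHom.comp_apply, MvPolynomial.map_C, RingHom.coe_coe, aeval_C]
        rfl
      | add p q hp hq => rw [MvPolynomial.eval₂_add, hp, hq, map_add]
      | mul_X p i hp =>
        rw [MvPolynomial.eval₂_mul, hp, MvPolynomial.eval₂_X, map_mul]
        congr 1
        simp only [Function.comp, RingHom.comp_apply, MvPolynomial.map_X, RingHom.coe_coe]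
        exact hq0 _
    exact e2 f
  rw [e1]
  apply Ideal.Quotient.eq_zero_iff_mem.2
  exact hle (Ideal.mem_map_of_mem _ (Ideal.subset_span hf))

/-- generic solutions, from coprimality data over the fraction field -/
theorem family_of_data {σ : Type*} [Finite σ] (S : Finset (MvPolynomial σ B))
    (p : (FractionRing B)[X]) (q : σ → (FractionRing B)[X]) (hp : p.Monic)
    (hp0 : 0 < p.natDegree) (hcop : IsCoprime p (derivative p))
    (hS : ∀ f ∈ S, p ∣ MvPolynomial.eval₂ (C.comp (algebraMap B (FractionRing B))) q f) :
    ∃ (D : B) (P : B[X]) (Q : σ → B[X]), D ≠ 0 ∧ 0 < P.natDegree ∧ P.leadingCoeff = D ∧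
      ∀ (R : Type*) [CommRing R] (φ : B →+* R) (t : R), IsUnit (φ D) → P.eval₂ φ t = 0 →
        IsUnit ((derivative P).eval₂ φ t) ∧
        ∀ x : σ → R, (∀ i, φ D * x i = (Q i).eval₂ φ t) →
          ∀ f ∈ S, MvPolynomial.eval₂ φ x f = 0 := by
  classical
  haveI := Fintype.ofFinite σ
  let K := FractionRing B
  obtain ⟨u, v, huv⟩ := hcop
  have hS' : ∀ f : MvPolynomial σ B, ∃ w : K[X], f ∈ S →
      MvPolynomial.eval₂ (C.comp (algebraMap B K)) q f = p * w := by
    intro f
    by_cases hf : f ∈ S
    · obtain ⟨w, hw⟩ := hS f hf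
      exact ⟨w, fun _ => hw⟩
    · exact ⟨0, fun h => absurd h hf⟩
  choose w hw using hS'
  obtain ⟨D, hD, hden⟩ := common_den
    ((({p, u, v} : Finset K[X]) ∪ Finset.univ.image q) ∪ S.image w)
  have hDK : algebraMap B K D ≠ 0 := by
    intro h
    exact hD ((IsFractionRing.injective B K) (by rw [h, map_zero]))
  -- the ring with `D` inverted
  let A := Localization.Away D
  have hunit : IsUnit (algebraMap B K D) := isUnit_iff_ne_zero.2 hDK
  let j : A →+* K := IsLocalization.Away.lift D hunit
  have hj : ∀ b, j (algebraMap B A b) = algebraMap B K b := fun b =>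
    IsLocalization.Away.lift_eq D hunit b
  have hjinj : Function.Injective j := by
    rw [injective_iff_map_eq_zero]
    intro a ha
    obtain ⟨n, b, hb⟩ := IsLocalization.Away.surj D a
    have h1 : algebraMap B K b = 0 := by
      rw [← hj, ← hb, map_mul, ha, zero_mul]
    have h2 : b = 0 := (IsFractionRing.injective B K) (by rw [h1, map_zero])
    rw [h2, map_zero] at hb
    exact (IsUnit.mul_left_eq_zero ((IsLocalization.Away.algebraMap_isUnit D).pow n)).1 hb
  have hmapinj : Function.Injective (Polynomial.map j) := Polynomial.map_injective j hjinj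
  have hDA : IsUnit (algebraMap B A D) := IsLocalization.Away.algebraMap_isUnit D
  obtain ⟨e, he⟩ := hDA.exists_left_inv
  have lift : ∀ g : K[X], (∃ G : B[X], G.map (algebraMap B K) = C (algebraMap B K D) * g) →
      ∃ (G : B[X]) (g' : A[X]), g'.map j = g ∧ G.map (algebraMap B A) =
        C (algebraMap B A D) * g' ∧ G.map (algebraMap B K) = C (algebraMap B K D) * g := by
    rintro g ⟨G, hG⟩
    have h1 : (G.map (algebraMap B A)).map j = G.map (algebraMap B K) := by
      rw [Polynomial.map_map]
      congr 1
      exact RingHom.ext hj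
    refine ⟨G, C e * G.map (algebraMap B A), ?_, ?_, hG⟩
    · rw [Polynomial.map_mul, h1, hG, map_C, ← mul_assoc, ← C_mul, ← hj D, ← map_mul, he, map_one,
        C_1, one_mul]
    · rw [← mul_assoc, ← C_mul, mul_comm (algebraMap B A D), he, C_1, one_mul]
  obtain ⟨P, pA, hpA, hPA, hPK⟩ := lift p (hden p (by simp))
  obtain ⟨_, uA, huA, _, _⟩ := lift u (hden u (by simp))
  obtain ⟨_, vA, hvA, _, _⟩ := lift v (hden v (by simp))
  have hq' : ∀ i, ∃ (G : B[X]) (g' : A[X]), g'.map j = q i ∧ G.map (algebraMap B A) =
        C (algebraMap B A D) * g' := by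
    intro i
    obtain ⟨G, g', h1, h2, _⟩ := lift (q i) (hden (q i) (by simp))
    exact ⟨G, g', h1, h2⟩
  choose Q qA hqA hQA using hq'
  have hw' : ∀ f ∈ S, ∃ g' : A[X], g'.map j = w f := by
    intro f hf
    obtain ⟨_, g', h1, _, _⟩ := lift (w f) (hden (w f) (by
      rw [Finset.mem_union]
      exact Or.inr (Finset.mem_image_of_mem w hf)))
    exact ⟨g', h1⟩
  have hdeg : P.natDegree = p.natDegree := by
    rw [← Polynomial.natDegree_map_eq_of_injective (IsFractionRing.injective B K) P, hPK,
      natDegree_C_mul hDK]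
  have hlead : P.leadingCoeff = D := by
    apply IsFractionRing.injective B K
    rw [leadingCoeff, ← coeff_map, hdeg, hPK, coeff_C_mul]
    have h1 : p.coeff p.natDegree = 1 := hp
    rw [h1, mul_one]
  refine ⟨D, P, Q, hD, hdeg ▸ hp0, hlead, ?_⟩
  intro R _ φ t hφ ht
  let ψ : A →+* R := IsLocalization.Away.lift D hφ
  have hψ : ∀ b, ψ (algebraMap B A b) = φ b := fun b => IsLocalization.Away.lift_eq D hφ b
  have hψ' : ψ.comp (algebraMap B A) = φ := RingHom.ext hψ
  have hev : ∀ (G : B[X]) (g' : A[X]), G.map (algebraMap B A) = C (algebraMap B A D) * g' →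
      G.eval₂ φ t = φ D * g'.eval₂ ψ t := by
    intro G g' h
    have h1 : (G.map (algebraMap B A)).eval₂ ψ t = G.eval₂ φ t := by
      rw [Polynomial.eval₂_map, hψ']
    rw [← h1, h, eval₂_mul, eval₂_C, hψ]
  have hpt : pA.eval₂ ψ t = 0 := by
    have h1 := hev P pA hPA
    rw [ht] at h1
    exact (IsUnit.mul_right_eq_zero hφ).1 h1.symm
  refine ⟨?_, ?_⟩
  · -- the simple root
    have h1 : uA * pA + vA * derivative pA = 1 := by
      apply hmapinj
      rw [Polynomial.map_add, Polynomial.map_mul, Polynomial.map_mul, ← derivative_map, huA, hpA,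
        hvA, Polynomial.map_one, huv]
    have h2 : vA.eval₂ ψ t * (derivative pA).eval₂ ψ t = 1 := by
      have h3 := congrArg (Polynomial.eval₂ ψ t) h1
      rw [eval₂_add, eval₂_mul, eval₂_mul, hpt, mul_zero, zero_add, eval₂_one] at h3
      exact h3
    have h3 : (derivative P).map (algebraMap B A) = C (algebraMap B A D) * derivative pA := by
      rw [← derivative_map, hPA, derivative_C_mul]
    rw [hev _ _ h3]
    exact hφ.mul (IsUnit.of_mul_eq_one_right _ h2)
  · intro x hx f hf
    have hx' : ∀ i, x i = (qA i).eval₂ ψ t := by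
      intro i
      have h1 := hx i
      rw [hev _ _ (hQA i)] at h1
      exact hφ.mul_left_cancel h1
    obtain ⟨wA, hwA⟩ := hw' f hf
    have h1 : MvPolynomial.eval₂ (C.comp (algebraMap B A)) qA f = pA * wA := by
      apply hmapinj
      rw [Polynomial.map_mul, hpA, hwA, ← hw f hf]
      have h2 := MvPolynomial.eval₂_comp_left (mapRingHom j) (C.comp (algebraMap B A)) qA f
      rw [coe_mapRingHom] at h2
      rw [h2]
      congr 1
      · ext b
        simp [hj]
      · funext i
        exact hqA i
    have h2 := congrArg (Polynomial.eval₂RingHom ψ t) h1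
    rw [MvPolynomial.eval₂_comp_left, map_mul] at h2
    have h3 : (Polynomial.eval₂RingHom ψ t) pA = 0 := hpt
    rw [h3, zero_mul] at h2
    rw [← h2]
    congr 1
    · ext b
      simp [hψ]
    · funext i
      exact hx' i

/-- **Generic solutions.**  A finite system of polynomial equations over a domain `B` of
characteristic zero which has solutions `over a dense set of points` has a generic solution. -/
theorem generic_family [CharZero B] {σ : Type*} [Finite σ] (S : Finset (MvPolynomial σ B))
    (h : ∀ b : B, b ≠ 0 → ∃ (R : Type) (_ : Field R) (φ : B →+* R), φ b ≠ 0 ∧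
      ∃ x : σ → R, ∀ f ∈ S, MvPolynomial.eval₂ φ x f = 0) :
    ∃ (D : B) (P : B[X]) (Q : σ → B[X]), D ≠ 0 ∧ 0 < P.natDegree ∧ P.leadingCoeff = D ∧
      ∀ (R : Type*) [CommRing R] (φ : B →+* R) (t : R), IsUnit (φ D) → P.eval₂ φ t = 0 →
        IsUnit ((derivative P).eval₂ φ t) ∧
        ∀ x : σ → R, (∀ i, φ D * x i = (Q i).eval₂ φ t) →
          ∀ f ∈ S, MvPolynomial.eval₂ φ x f = 0 := by
  obtain ⟨p, q, h1, h2, h3, h4⟩ := exists_primitive S (map_ne_top S h)
  exact family_of_data S p q h1 h2 h3 h4

end

end Pool.Agent.VFree
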