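import Pool.Agent.Lib_MP_1858fb_w.GlueAsm

/-! Piece B2 (`Pool.Agent.VF.glue`) is proved in `GlueAsm.lean`. -/
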