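import Pool.Agent.Lib_MP_1858fb_w.Ift2
import Pool.Agent.Lib_MP_1858fb_w.Defs2

/-!
The solution operator of the gluing: points of `V` and a member of the family over a
commutative Banach algebra, as differentiable functions of small parameters.
-/

namespace Pool.Agent.VF

open Filter Topology MvPolynomial

section InvChart

variable {R : Type} [NormedCommRing R] [NormedAlgebra ℂ R] [CompleteSpace R]
variable {σ : Type} [Fintype σ] [DecidableEq σ]

omit [CompleteSpace R] [Fintype σ] [DecidableEq σ] in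
theorem eval_map_rename_inl {τ : Type} (f : MvPolynomial σ ℂ) (x : σ → R) (q : τ → R) :
    eval (Sum.elim x q) (rename Sum.inl (MvPolynomial.map (algebraMap ℂ R) f)) = aeval x f := by
  rw [eval_rename, Sum.elim_comp_inl, eval_map, aeval_def]

/-- The system whose local implicit function is the local inverse of the polynomial map `Φ`. -/
noncomputable def invSys (Φ : σ → MvPolynomial σ ℂ) (x0 : σ → R) :
    σ → MvPolynomial (σ ⊕ σ) R :=
  fun i => rename Sum.inl (MvPolynomial.map (algebraMap ℂ R) (Φ i)) -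
    C (aeval x0 (Φ i)) - X (Sum.inr i)

omit [CompleteSpace R] [Fintype σ] [DecidableEq σ] in
theorem eval_invSys (Φ : σ → MvPolynomial σ ℂ) (x0 x q : σ → R) (i : σ) :
    eval (Sum.elim x q) (invSys Φ x0 i) = aeval x (Φ i) - aeval x0 (Φ i) - q i := by
  rw [invSys, map_sub, map_sub, eval_map_rename_inl, eval_C, eval_X, Sum.elim_inr]

omit [CompleteSpace R] [Fintype σ] [DecidableEq σ] in
theorem jac_invSys (Φ : σ → MvPolynomial σ ℂ) (x0 x q : σ → R) :
    jac (invSys Φ x0) x q = Matrix.of fun i j => aeval x (pderiv j (Φ i)) := by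
  ext i j
  simp only [jac, invSys, map_sub, pderiv_C, Matrix.of_apply, sub_zero]
  rw [pderiv_rename Sum.inl_injective, pderiv_map, eval_map_rename_inl,
    pderiv_X_of_ne (by simp), map_zero, sub_zero]

/-- **The local inverse of a polynomial map** over a commutative Banach algebra. -/
theorem inv_chart (Φ : σ → MvPolynomial σ ℂ) (x0 : σ → R)
    (hJ : IsUnit (Matrix.of fun i j => aeval x0 (pderiv j (Φ i))).det) :
    ∃ (ψ : (σ → R) → (σ → R)) (ε δ L : ℝ), 0 < ε ∧ 0 < δ ∧ 0 ≤ L ∧ ψ 0 = x0 ∧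
      (∀ q, ‖q‖ < δ → ‖ψ q - x0‖ < ε ∧ (∀ i, aeval (ψ q) (Φ i) = aeval x0 (Φ i) + q i) ∧
        (∀ n : WithTop ℕ∞, ContDiffAt ℂ n ψ q) ∧
        IsUnit (Matrix.of fun i j => aeval (ψ q) (pderiv j (Φ i))).det) ∧
      (∀ q x, ‖q‖ < δ → ‖x - x0‖ < ε → (∀ i, aeval x (Φ i) = aeval x0 (Φ i) + q i) →
        x = ψ q) ∧
      (∀ q q', ‖q‖ < δ → ‖q'‖ < δ → ‖ψ q - ψ q'‖ ≤ L * ‖q - q'‖) := by
  obtain ⟨X, ε, δ, L, h⟩ := exists_locSol ℂ (invSys Φ x0) x0 0
    (fun i => by rw [eval_invSys]; simp) (by rw [jac_invSys]; exact hJ)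
  refine ⟨X, ε, δ, L, h.ε_pos, h.δ_pos, h.L_nonneg, h.base, ?_, ?_, ?_⟩
  · intro q hq
    have hq' : ‖q - 0‖ < δ := by rwa [sub_zero]
    refine ⟨h.near q hq', ?_, fun n => h.contDiffAt q hq' n, ?_⟩
    · intro i
      have := h.sol q hq' i
      rw [eval_invSys] at this
      linear_combination this
    · have := h.unit q hq'
      rwa [jac_invSys] at this
  · intro q x hq hx hE
    have hq' : ‖q - 0‖ < δ := by rwa [sub_zero]
    refine h.uniq q x hq' hx fun i => ?_
    rw [eval_invSys, hE i]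
    ring
  · intro q q' hq hq'
    exact h.lip q q' (by rwa [sub_zero]) (by rwa [sub_zero])

end InvChart

section Root

variable {R : Type} [NormedCommRing R] [NormedAlgebra ℂ R]
variable {τ : Type}

/-- A polynomial in one variable over a polynomial ring, as a polynomial in all variables. -/
noncomputable def rootPol (P : Polynomial (MvPolynomial τ ℂ)) : MvPolynomial (Unit ⊕ τ) R :=
  Polynomial.eval₂ (((rename Sum.inr : MvPolynomial τ R →ₐ[R] MvPolynomial (Unit ⊕ τ) R) :
      MvPolynomial τ R →+* MvPolynomial (Unit ⊕ τ) R).comp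
      (MvPolynomial.map (algebraMap ℂ R))) (X (Sum.inl ())) P

theorem eval_rootPol (P : Polynomial (MvPolynomial τ ℂ)) (θ : Unit → R) (u : τ → R) :
    eval (Sum.elim θ u) (rootPol (R := R) P) =
      Polynomial.eval₂ ((aeval u : MvPolynomial τ ℂ →ₐ[ℂ] R) : _ →+* R) (θ ()) P := by
  rw [rootPol, Polynomial.hom_eval₂, eval_X, Sum.elim_inl]
  congr 1
  ext f
  · simp
  · simp

theorem eval_pderiv_rootPol (P : Polynomial (MvPolynomial τ ℂ)) (θ : Unit → R) (u : τ → R) :
    eval (Sum.elim θ u) (pderiv (Sum.inl ()) (rootPol (R := R) P)) =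
      Polynomial.eval₂ ((aeval u : MvPolynomial τ ℂ →ₐ[ℂ] R) : _ →+* R) (θ ())
        (Polynomial.derivative P) := by
  classical
  have hconst : ∀ a : MvPolynomial τ R,
      pderiv (Sum.inl ()) (rename (Sum.inr : τ → Unit ⊕ τ) a) = 0 := by
    intro a
    refine pderiv_eq_zero_of_notMem_vars ?_
    intro hmem
    have := vars_rename (Sum.inr : τ → Unit ⊕ τ) a hmem
    simp at this
  induction P using Polynomial.induction_on' with
  | add p q hp hq =>
    have e : rootPol (R := R) (p + q) = rootPol p + rootPol q := by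
      simp [rootPol, Polynomial.eval₂_add]
    rw [e, map_add, map_add, hp, hq, Polynomial.derivative_add, Polynomial.eval₂_add]
  | monomial n a =>
    have e : rootPol (R := R) (Polynomial.monomial n a) =
        rename Sum.inr (MvPolynomial.map (algebraMap ℂ R) a) * X (Sum.inl ()) ^ n := by
      simp [rootPol, Polynomial.eval₂_monomial]
    rw [e, Derivation.leibniz, hconst, smul_zero, add_zero, Derivation.leibniz_pow,
      pderiv_X_self, Polynomial.derivative_monomial, Polynomial.eval₂_monomial]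
    simp only [smul_eq_mul, mul_one, map_mul, map_pow, eval_X, Sum.elim_inl, nsmul_eq_mul,
      map_natCast]
    rw [eval_rename, Sum.elim_comp_inr, eval_map]
    simp only [AlgHom.coe_toRingHom, aeval_def]
    ring

end Root

section SolOp

variable {R : Type} [NormedCommRing R] [NormedAlgebra ℂ R]

theorem contDiff_aeval {τ : Type} [Fintype τ] (D : MvPolynomial τ ℂ) (n : WithTop ℕ∞) :
    ContDiff ℂ n (fun u : τ → R => aeval u D) := by
  have h := contDiff_mvPoly ℂ (MvPolynomial.map (algebraMap ℂ R) D) n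
  simpa only [eval_map, aeval_def] using h

variable {N c d m : ℕ} {V : Set (Fin (N + 1) → ℂ)} {cm : Fin m → ℂ}
  {vs : Fin m → Fin (N + 1) → ℂ}

/-- The base point with coordinates in the algebra. -/
def cst (R : Type) [CommRing R] [Algebra ℂ R] {τ : Type} (y : τ → ℂ) : τ → R :=
  fun i => algebraMap ℂ R (y i)

theorem aeval_cst {τ : Type} (y : τ → ℂ) (f : MvPolynomial τ ℂ) :
    aeval (cst R y) f = algebraMap ℂ R (aeval y f) := by
  have : (aeval (cst R y) : MvPolynomial τ ℂ →ₐ[ℂ] R) = (Algebra.ofId ℂ R).comp (aeval y) := by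
    ext i
    simp [cst, Algebra.ofId_apply]
  rw [this]
  rfl

theorem aeval_det {τ : Type} [Fintype τ] [DecidableEq τ] (Φ : τ → MvPolynomial τ ℂ)
    (x : τ → R) : aeval x (Matrix.det (Matrix.of fun i j => pderiv j (Φ i))) =
      (Matrix.of fun i j => aeval x (pderiv j (Φ i))).det := by
  rw [AlgHom.map_det]
  rfl

/-- **The solution operator**: for small parameters `x = (q, q')` a point `w` near `y`, a point
`z` near `α` (both in `V` when the entries of `q`, `q'` outside the charts are zero) and the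
member of the family through them. -/
theorem solOp [CompleteSpace R] (Fam : Family V cm vs d) {y v : Fin (N + 1) → ℂ}
    (Cy : Chart c V y) (Ch : Chart c V v) {α : Fin (N + 1) → R} {δ0 θ0 : R}
    (hdet : IsUnit (aeval α (Matrix.det (Matrix.of fun i j => pderiv j (Ch.Φ i)))))
    (hH : IsUnit (aeval α Ch.H))
    (hD : aeval (Sum.elim (cst R y) α) Fam.D * δ0 = 1)
    (hP : evT (cst R y) α θ0 Fam.P = 0)
    (hP' : IsUnit (evT (cst R y) α θ0 (Polynomial.derivative Fam.P)))
    {ε : ℝ} (hε : 0 < ε) :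
    ∃ r > 0, ∃ (w z : (Fin (N + 1) → R) × (Fin (N + 1) → R) → (Fin (N + 1) → R))
      (de th : (Fin (N + 1) → R) × (Fin (N + 1) → R) → R),
      w 0 = cst R y ∧ z 0 = α ∧ de 0 = δ0 ∧ th 0 = θ0 ∧
      ∀ x, ‖x‖ < r →
        (∀ i, aeval (w x) (Cy.Φ i) = aeval (cst R y) (Cy.Φ i) + x.1 i) ∧
        (∀ i, aeval (z x) (Ch.Φ i) = aeval α (Ch.Φ i) + x.2 i) ∧
        aeval (Sum.elim (w x) (z x)) Fam.D * de x = 1 ∧
        evT (w x) (z x) (th x) Fam.P = 0 ∧
        ‖w x - cst R y‖ < ε ∧ ‖z x - α‖ < ε ∧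
        IsUnit (aeval (w x) Cy.H) ∧ IsUnit (aeval (z x) Ch.H) ∧
        ∀ n : WithTop ℕ∞, ContDiffAt ℂ n w x ∧ ContDiffAt ℂ n z x ∧ ContDiffAt ℂ n de x ∧
          ContDiffAt ℂ n th x := by
  classical
  have hdy : IsUnit (Matrix.of fun i j => aeval (cst R y) (pderiv j (Cy.Φ i))).det := by
    rw [← aeval_det, aeval_cst]
    exact (IsUnit.mk0 _ Cy.hdet).map (algebraMap ℂ R)
  have hdα : IsUnit (Matrix.of fun i j => aeval α (pderiv j (Ch.Φ i))).det := by
    rw [← aeval_det]; exact hdet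
  obtain ⟨ψ, ε1, δ1, L1, hε1, hδ1, -, hψ0, hψ, -, -⟩ := inv_chart Cy.Φ (cst R y) hdy
  obtain ⟨χ, ε2, δ2, L2, hε2, hδ2, -, hχ0, hχ, -, -⟩ := inv_chart Ch.Φ α hdα
  -- the root
  obtain ⟨Θ, ε3, δ3, L3, hΘ⟩ := exists_locSol ℂ
    (m := Unit) (p := Fin (N + 1) ⊕ Fin (N + 1)) (fun _ => rootPol (R := R) Fam.P)
    (fun _ => θ0) (Sum.elim (cst R y) α)
    (fun _ => by rw [eval_rootPol]; exact hP)
    (by
      have : jac (fun _ : Unit => rootPol (R := R) Fam.P) (fun _ => θ0)
          (Sum.elim (cst R y) α) = Matrix.of fun _ _ =>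
            evT (cst R y) α θ0 (Polynomial.derivative Fam.P) := by
        ext i j
        simp only [jac, Matrix.of_apply]
        rw [show (Sum.inl j : Unit ⊕ (Fin (N + 1) ⊕ Fin (N + 1))) = Sum.inl () from rfl,
          eval_pderiv_rootPol]
        rfl
      rw [this, Matrix.det_unique]
      exact hP')
  set w : (Fin (N + 1) → R) × (Fin (N + 1) → R) → (Fin (N + 1) → R) := fun x => ψ x.1 with hw
  set z : (Fin (N + 1) → R) × (Fin (N + 1) → R) → (Fin (N + 1) → R) := fun x => χ x.2 with hz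
  set u : (Fin (N + 1) → R) × (Fin (N + 1) → R) → (Fin (N + 1) ⊕ Fin (N + 1) → R) :=
    fun x => Sum.elim (w x) (z x) with hu
  set de : (Fin (N + 1) → R) × (Fin (N + 1) → R) → R :=
    fun x => Ring.inverse (aeval (u x) Fam.D) with hde
  set th : (Fin (N + 1) → R) × (Fin (N + 1) → R) → R := fun x => Θ (u x) () with hth
  have hw0 : w 0 = cst R y := hψ0
  have hz0 : z 0 = α := hχ0
  have hu0 : u 0 = Sum.elim (cst R y) α := by rw [hu]; simp only [hw0, hz0]
  have hwc : ∀ n x, ‖x.1‖ < δ1 → ContDiffAt ℂ n w x := by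
    intro n x hx
    exact ((hψ x.1 hx).2.2.1 n).comp x contDiffAt_fst
  have hzc : ∀ n x, ‖x.2‖ < δ2 → ContDiffAt ℂ n z x := by
    intro n x hx
    exact ((hχ x.2 hx).2.2.1 n).comp x contDiffAt_snd
  have huc : ∀ n x, ‖x.1‖ < δ1 → ‖x.2‖ < δ2 → ContDiffAt ℂ n u x := by
    intro n x hx hx'
    rw [contDiffAt_pi]
    intro s
    cases s with
    | inl i => exact (contDiffAt_pi.1 (hwc n x hx)) i
    | inr i => exact (contDiffAt_pi.1 (hzc n x hx')) i
  have hDunit0 : IsUnit (aeval (u 0) Fam.D) := by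
    rw [hu0]
    exact IsUnit.of_mul_eq_one _ hD
  -- continuity at zero
  have hu_cont : ContinuousAt u 0 :=
    (huc 0 0 (by simpa using hδ1) (by simpa using hδ2)).continuousAt
  have hw_cont : ContinuousAt w 0 := (hwc 0 0 (by simpa using hδ1)).continuousAt
  have hz_cont : ContinuousAt z 0 := (hzc 0 0 (by simpa using hδ2)).continuousAt
  have e1 : ∀ᶠ x : (Fin (N + 1) → R) × (Fin (N + 1) → R) in 𝓝 0, ‖x.1‖ < δ1 := by
    have : Continuous fun x : (Fin (N + 1) → R) × (Fin (N + 1) → R) => ‖x.1‖ := by fun_prop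
    exact this.continuousAt.eventually_lt continuousAt_const (by simpa using hδ1)
  have e2 : ∀ᶠ x : (Fin (N + 1) → R) × (Fin (N + 1) → R) in 𝓝 0, ‖x.2‖ < δ2 := by
    have : Continuous fun x : (Fin (N + 1) → R) × (Fin (N + 1) → R) => ‖x.2‖ := by fun_prop
    exact this.continuousAt.eventually_lt continuousAt_const (by simpa using hδ2)
  have e3 : ∀ᶠ x in 𝓝 0, IsUnit (aeval (u x) Fam.D) := by
    have h1 : ContinuousAt (fun x => aeval (u x) Fam.D) 0 :=
      ((contDiff_aeval (R := R) Fam.D 0).continuous.continuousAt).comp hu_cont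
    exact h1.eventually_mem (Units.isOpen.mem_nhds hDunit0)
  have e4 : ∀ᶠ x in 𝓝 0, ‖u x - Sum.elim (cst R y) α‖ < δ3 := by
    have h1 : ContinuousAt (fun x => ‖u x - Sum.elim (cst R y) α‖) 0 := by fun_prop
    refine h1.eventually_lt continuousAt_const ?_
    rw [hu0, sub_self, norm_zero]
    exact hΘ.δ_pos
  have e5 : ∀ᶠ x in 𝓝 0, ‖w x - cst R y‖ < ε := by
    have h1 : ContinuousAt (fun x => ‖w x - cst R y‖) 0 := by fun_prop
    refine h1.eventually_lt continuousAt_const ?_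
    rw [hw0, sub_self, norm_zero]
    exact hε
  have e6 : ∀ᶠ x in 𝓝 0, ‖z x - α‖ < ε := by
    have h1 : ContinuousAt (fun x => ‖z x - α‖) 0 := by fun_prop
    refine h1.eventually_lt continuousAt_const ?_
    rw [hz0, sub_self, norm_zero]
    exact hε
  have e7 : ∀ᶠ x in 𝓝 0, IsUnit (aeval (w x) Cy.H) := by
    have h1 : ContinuousAt (fun x => aeval (w x) Cy.H) 0 :=
      ((contDiff_aeval (R := R) Cy.H 0).continuous.continuousAt).comp hw_cont
    refine h1.eventually_mem (Units.isOpen.mem_nhds ?_)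
    rw [hw0, aeval_cst]
    exact (IsUnit.mk0 _ Cy.hH).map (algebraMap ℂ R)
  have e8 : ∀ᶠ x in 𝓝 0, IsUnit (aeval (z x) Ch.H) := by
    have h1 : ContinuousAt (fun x => aeval (z x) Ch.H) 0 :=
      ((contDiff_aeval (R := R) Ch.H 0).continuous.continuousAt).comp hz_cont
    refine h1.eventually_mem (Units.isOpen.mem_nhds ?_)
    rw [hz0]
    exact hH
  obtain ⟨r, hr, hball⟩ := Metric.eventually_nhds_iff.1
    (e1.and (e2.and (e3.and (e4.and (e5.and (e6.and (e7.and e8)))))))
  refine ⟨r, hr, w, z, de, th, hw0, hz0, ?_, ?_, ?_⟩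
  · rw [hde]
    simp only [hu0]
    exact (Ring.inverse_unit (Units.mkOfMulEqOne _ _ hD))
  · rw [hth]
    simp only [hu0]
    rw [hΘ.base]
  · intro x hx
    obtain ⟨a1, a2, a3, a4, a5, a6, a7, a8⟩ := hball (y := x) (by simpa using hx)
    refine ⟨(hψ x.1 a1).2.1, (hχ x.2 a2).2.1, Ring.mul_inverse_cancel _ a3, ?_, a5, a6, a7,
      a8, ?_⟩
    · have h1 := hΘ.sol (u x) a4 ()
      rw [eval_rootPol] at h1
      exact h1
    · intro n
      refine ⟨hwc n x a1, hzc n x a2, ?_, ?_⟩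
      · obtain ⟨t, ht⟩ := a3
        have h1 : ContDiffAt ℂ n Ring.inverse (aeval (u x) Fam.D) := by
          rw [← ht]
          exact contDiffAt_ringInverse ℂ t
        exact h1.comp x (((contDiff_aeval (R := R) Fam.D n).contDiffAt).comp x (huc n x a1 a2))
      · have h1 : ContDiffAt ℂ n Θ (u x) := hΘ.contDiffAt (u x) a4 n
        have h2 : ContDiffAt ℂ n (fun x => Θ (u x)) x := h1.comp x (huc n x a1 a2)
        exact (contDiffAt_pi.1 h2) ()

omit [NormedAlgebra ℂ R] in
theorem evT_eq_eval [NormedAlgebra ℂ R] (w z : Fin (N + 1) → R) (θ : R)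
    (P : Polynomial (MvPolynomial (Fin (N + 1) ⊕ Fin (N + 1)) ℂ)) :
    evT w z θ P = eval (Sum.elim (fun _ : Unit => θ) (Sum.elim w z)) (rootPol (R := R) P) := by
  rw [eval_rootPol]
  rfl

/-- The coefficients of the member of the family depend on the parameters as smoothly as
`w, z, δ, θ`. -/
theorem contDiffAt_coef {X : Type*} [NormedAddCommGroup X] [NormedSpace ℂ X]
    (Fam : Family V cm vs d) {w z : X → (Fin (N + 1) → R)} {de th : X → R} {x : X}
    {n : WithTop ℕ∞} (hw : ContDiffAt ℂ n w x) (hz : ContDiffAt ℂ n z x)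
    (hde : ContDiffAt ℂ n de x) (hth : ContDiffAt ℂ n th x) :
    ContDiffAt ℂ n (fun x => Fam.coef (w x) (z x) (de x) (th x)) x := by
  have h1 : ContDiffAt ℂ n (fun x => (Sum.elim (fun _ : Unit => th x)
      (Sum.elim (w x) (z x)) : Unit ⊕ (Fin (N + 1) ⊕ Fin (N + 1)) → R)) x := by
    rw [contDiffAt_pi]
    rintro (s | s | s)
    · exact hth
    · exact (contDiffAt_pi.1 hw) s
    · exact (contDiffAt_pi.1 hz) s
  rw [contDiffAt_pi]
  intro j
  rw [contDiffAt_pi]
  intro i
  have h2 : ContDiffAt ℂ n (fun x => evT (w x) (z x) (th x) (Fam.Q j i)) x := by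
    simp only [evT_eq_eval]
    exact ((contDiff_mvPoly ℂ (rootPol (R := R) (Fam.Q j i)) n).contDiffAt).comp x h1
  exact hde.mul h2

end SolOp

section Pointwise

variable {R S : Type} [CommRing R] [Algebra ℂ R] [CommRing S] [Algebra ℂ S]
variable {N c d m : ℕ} {V : Set (Fin (N + 1) → ℂ)} {cm : Fin m → ℂ}
  {vs : Fin m → Fin (N + 1) → ℂ}

theorem map_aeval {τ : Type} (χ : R →ₐ[ℂ] S) (u : τ → R) (f : MvPolynomial τ ℂ) :
    χ (aeval u f) = aeval (fun i => χ (u i)) f := by
  have : χ.comp (aeval u) = (aeval (fun i => χ (u i)) : MvPolynomial τ ℂ →ₐ[ℂ] S) := by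
    ext i
    simp
  rw [← this]
  rfl

theorem map_evT (χ : R →ₐ[ℂ] S) (w z : Fin (N + 1) → R) (θ : R)
    (P : Polynomial (MvPolynomial (Fin (N + 1) ⊕ Fin (N + 1)) ℂ)) :
    χ (evT w z θ P) = evT (fun i => χ (w i)) (fun i => χ (z i)) (χ θ) P := by
  rw [evT, evT, ← AlgHom.coe_toRingHom χ, Polynomial.hom_eval₂]
  congr 1
  ext f
  · simp
  · cases f <;> simp

theorem map_coef (Fam : Family V cm vs d) (χ : R →ₐ[ℂ] S) (w z : Fin (N + 1) → R) (δ θ : R)
    (j : Fin (d + 1)) (i : Fin (N + 1)) :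
    χ (Fam.coef w z δ θ j i) =
      Fam.coef (fun i => χ (w i)) (fun i => χ (z i)) (χ δ) (χ θ) j i := by
  rw [Family.coef, Family.coef, map_mul, map_evT]

theorem map_val {κ : Type} (χ : R →ₐ[ℂ] S) (F : Fin (d + 1) → κ → R) (p q : R) (i : κ) :
    χ (val F p q i) = val (fun j i => χ (F j i)) (χ p) (χ q) i := by
  simp only [val, map_sum, map_mul, map_pow]

/-- Over any algebra: a point of the chart satisfies all the equations of `V`. -/
theorem Chart.eq_zero {y : Fin (N + 1) → ℂ} (Cy : Chart c V y) {u : Fin (N + 1) → R}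
    (hu : ∀ i, i ∉ Cy.A → aeval u (Cy.Φ i) = 0) (hH : IsUnit (aeval u Cy.H))
    {G : MvPolynomial (Fin (N + 1)) ℂ} (hG : G ∈ van V) : aeval u G = 0 := by
  have h1 := Cy.gen G hG
  have h2 : Ideal.span (Cy.Φ '' {i | i ∉ Cy.A}) ≤
      RingHom.ker (aeval u : MvPolynomial (Fin (N + 1)) ℂ →ₐ[ℂ] R) := by
    rw [Ideal.span_le]
    rintro f ⟨i, hi, rfl⟩
    exact hu i hi
  have h3 := h2 h1
  rw [RingHom.mem_ker, map_mul] at h3
  exact (hH.mul_right_eq_zero).1 h3

/-- A complex point of the chart lies in `V`. -/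
theorem Chart.mem {y : Fin (N + 1) → ℂ} (Cy : Chart c V y) {u : Fin (N + 1) → R}
    (hu : ∀ i, i ∉ Cy.A → aeval u (Cy.Φ i) = 0) (hH : IsUnit (aeval u Cy.H))
    (χ : R →ₐ[ℂ] ℂ) : (fun i => χ (u i)) ∈ V := by
  refine Cy.good _ ?_ ?_
  · intro i hi
    rw [← map_aeval, hu i hi, map_zero]
  · rw [← map_aeval]
    exact (hH.map χ).ne_zero

/-- The pointwise properties of the member of the family, at every character. -/
theorem Family.at_char (Fam : Family V cm vs d) {w z : Fin (N + 1) → R} {δ θ : R}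
    (χ : R →ₐ[ℂ] ℂ) (hw : (fun i => χ (w i)) ∈ V) (hz : (fun i => χ (z i)) ∈ V)
    (hD : aeval (Sum.elim w z) Fam.D * δ = 1) (hP : evT w z θ Fam.P = 0) :
    IsCurve V (fun j i => χ (Fam.coef w z δ θ j i)) ∧
    (∀ i, χ (Fam.coef w z δ θ 0 i) = χ (w i)) ∧
    (∀ i, χ (Fam.coef w z δ θ (Fin.last d) i) = χ (z i)) ∧
    ∀ l, val (fun j i => χ (Fam.coef w z δ θ j i)) 1 (cm l) = vs l := by
  have hD' : aeval (Sum.elim (fun i => χ (w i)) (fun i => χ (z i))) Fam.D * χ δ = 1 := by
    have h1 : (Sum.elim (fun i => χ (w i)) (fun i => χ (z i)) :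
        Fin (N + 1) ⊕ Fin (N + 1) → ℂ) = fun s => χ (Sum.elim w z s) := by
      funext s
      cases s <;> rfl
    rw [h1, ← map_aeval, ← map_mul, hD, map_one]
  have hP' : evT (fun i => χ (w i)) (fun i => χ (z i)) (χ θ) Fam.P = 0 := by
    rw [← map_evT, hP, map_zero]
  have e : (fun j i => χ (Fam.coef w z δ θ j i)) = fun j i => χ δ *
      evT (fun i => χ (w i)) (fun i => χ (z i)) (χ θ) (Fam.Q j i) := by
    funext j i
    rw [map_coef]
    rfl
  refine ⟨?_, ?_, ?_, ?_⟩
  · rw [e]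
    exact Fam.curve _ hw _ hz _ _ hD' hP'
  · intro i
    rw [congrFun (congrFun e 0) i]
    exact Fam.start _ hw _ hz _ _ hD' hP' i
  · intro i
    rw [congrFun (congrFun e (Fin.last d)) i]
    exact Fam.stop _ hw _ hz _ _ hD' hP' i
  · intro l
    rw [e]
    exact Fam.marks _ hw _ hz _ _ hD' hP' l

end Pointwise

end Pool.Agent.VF
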