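import Pool.Agent.Lib_MP_1858fb_w.GlueC1

/-!
The gluing, differentiable form: the package of properties of the fixed point.
-/

set_option autoImplicit false

noncomputable section

namespace Pool.Agent.VF.GlueW

open Pool.Agent.Lib_MP_1858fb_w
open Pool.Agent.Lib_MP_1858fb_w.W
open Pool.Agent.VF MvPolynomial Filter Topology

theorem co_algebraMap {ω : Wt} (c : ℂ) (k : ℤ) :
    (algebraMap ℂ (W ω) c).co k = if k = 0 then c else 0 := by
  rw [Algebra.algebraMap_eq_smul_one, co_smul, co_one]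
  split_ifs <;> simp

theorem supp_algebraMap {ω : Wt} {S : Set ℤ} (h : (0 : ℤ) ∈ S) (c : ℂ) :
    Supp S (algebraMap ℂ (W ω) c) := by
  intro k hk
  rw [co_algebraMap, if_neg]
  rintro rfl
  exact hk h

theorem mu_pow_mul_val {κ : Type} {R : Type} [CommRing R] {d : ℕ} {lam mu : R}
    (h : lam * mu = 1) (F : Fin (d + 1) → κ → R) (i : κ) :
    mu ^ d * val F 1 lam i = val F mu 1 i := by
  unfold val
  rw [Finset.mul_sum]
  refine Finset.sum_congr rfl fun j _ => ?_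
  have h1 : mu ^ d = mu ^ (d - (j : ℕ)) * mu ^ (j : ℕ) := by
    rw [← pow_add]
    congr 1
    have := j.2
    omega
  have h2 : lam ^ (j : ℕ) * mu ^ (j : ℕ) = 1 := by rw [← mul_pow, h, one_pow]
  rw [h1, one_pow, one_pow]
  linear_combination (F j i * mu ^ (d - (j : ℕ))) * h2

variable {N m d c : ℕ} {V : Set (Fin (N + 1) → ℂ)} {cm : Fin m → ℂ}
  {vs : Fin m → Fin (N + 1) → ℂ}

theorem Dat.ext_char (D : Dat) {f g : D.A}
    (h : ∀ t : ℂ, ∀ (h1 : D.r₁ ≤ ‖t‖) (h2 : ‖t‖ ≤ D.r₂), D.evA t h1 h2 f = D.evA t h1 h2 g) :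
    f = g :=
  D.ext_ann fun t h1 h2 => h t h1 h2

/-- **The package.** -/
theorem exists_package (Fam : Family V cm vs d) {v y : Fin (N + 1) → ℂ} (hy : y ∈ V)
    (Cy : Chart c V y) (Ch : Chart c V v) (D : Dat) {αA : Fin (N + 1) → D.A} {θA : D.A}
    (hs : ∀ i, Supp Sge (αA i)) (hα0 : ∀ i, (αA i).co 0 = v i)
    (hαV : ∀ E ∈ van V, aeval αA E = 0)
    (hDu : IsUnit (aeval (Sum.elim (fun i => algebraMap ℂ D.A (y i)) αA) Fam.D))
    (hP : evT (fun i => algebraMap ℂ D.A (y i)) αA θA Fam.P = 0)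
    (hP' : IsUnit (evT (fun i => algebraMap ℂ D.A (y i)) αA θA (Polynomial.derivative Fam.P)))
    (hH : IsUnit (aeval αA Ch.H))
    (hdet : IsUnit (aeval αA (Matrix.det (Matrix.of fun i j => pderiv j (Ch.Φ i)))))
    {ε : ℝ} (hε : 0 < ε) :
    ∃ M₀ : ℕ, ∀ M ≥ M₀, ∃ η > 0, ∃ F : (Fin (N + 1) → ℂ) → Fin (d + 1) → Fin (N + 1) → D.A,
      DifferentiableAt ℂ F 0 ∧
      ∀ a : Fin (N + 1) → ℂ, ‖a‖ < η → (∀ i, i ∉ Cy.A → a i = 0) →
        (∀ χ : D.A →ₐ[ℂ] ℂ, IsCurve V (fun j i => χ (F a j i)) ∧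
          ∀ l, val (fun j i => χ (F a j i)) 1 (cm l) = vs l) ∧
        (∀ E ∈ van V, aeval (val (F a) 1 (D.lam M)) E = 0 ∧
          aeval (fun i => D.mu M ^ d * val (F a) 1 (D.lam M) i) E = 0) ∧
        (∀ i ∈ Cy.A, D.ρ₂ (val (F a) 1 (D.lam M) i) ∈ D.B₂ ∧
          (val (F a) 1 (D.lam M) i).co 0 = y i + a i) ∧
        (∀ i ∈ Ch.A, D.ρ₁ (D.mu M ^ d * val (F a) 1 (D.lam M) i) ∈ D.B₁ ∧
          (D.mu M ^ d * val (F a) 1 (D.lam M) i).co 0 = v i) ∧
        ‖(fun i => D.ρ₂ (val (F a) 1 (D.lam M) i)) - cst D.A₂ y‖ < ε ∧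
        ‖(fun i => D.ρ₁ (D.mu M ^ d * val (F a) 1 (D.lam M) i)) - fun i => D.ρ₁ (αA i)‖ < ε := by
  classical
  obtain ⟨δ0, hδ0⟩ := hDu.exists_right_inv
  obtain ⟨r, hr, w, z, de, th, hw0, hz0, hde0, hth0, hall⟩ :=
    solOp Fam Cy Ch hdet hH (δ0 := δ0) (θ0 := θA) hδ0 hP hP' (zero_lt_one)
  set Fc : UE D N → Fin (d + 1) → Fin (N + 1) → D.A :=
    fun x => Fam.coef (w x) (z x) (de x) (th x) with hFc
  have hFcC : ∀ x, ‖x‖ < r → ContDiffAt ℂ 1 Fc x := by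
    intro x hx
    obtain ⟨-, -, -, -, -, -, -, -, hC⟩ := hall x hx
    obtain ⟨h1, h2, h3, h4⟩ := hC 1
    exact contDiffAt_coef Fam h1 h2 h3 h4
  -- points of the variety
  have hwV : ∀ x : UE D N, ‖x‖ < r → (∀ i, i ∉ Cy.A → x.1 i = 0) →
      ∀ χ : D.A →ₐ[ℂ] ℂ, (fun i => χ (w x i)) ∈ V := by
    intro x hx hx1 χ
    obtain ⟨h1, -, -, -, -, -, h2, -, -⟩ := hall x hx
    refine Cy.mem ?_ h2 χ
    intro i hi
    rw [h1 i, hx1 i hi, aeval_cst, Cy.hΦ i hi y hy, map_zero, add_zero]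
  have hzV : ∀ x : UE D N, ‖x‖ < r → (∀ i, i ∉ Ch.A → x.2 i = 0) →
      ∀ χ : D.A →ₐ[ℂ] ℂ, (fun i => χ (z x i)) ∈ V := by
    intro x hx hx2 χ
    obtain ⟨-, h1, -, -, -, -, -, h2, -⟩ := hall x hx
    refine Ch.mem ?_ h2 χ
    intro i hi
    rw [h1 i, hx2 i hi, hαV _ (Ch.hΦ i hi), add_zero]
  have hchar : ∀ x : UE D N, ‖x‖ < r → (∀ i, i ∉ Cy.A → x.1 i = 0) →
      (∀ i, i ∉ Ch.A → x.2 i = 0) → ∀ χ : D.A →ₐ[ℂ] ℂ,
      IsCurve V (fun j i => χ (Fc x j i)) ∧ (∀ i, χ (Fc x 0 i) = χ (w x i)) ∧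
      (∀ i, χ (Fc x (Fin.last d) i) = χ (z x i)) ∧
      ∀ l, val (fun j i => χ (Fc x j i)) 1 (cm l) = vs l := by
    intro x hx hx1 hx2 χ
    obtain ⟨-, -, h1, h2, -, -, -, -, -⟩ := hall x hx
    exact Fam.at_char χ (hwV x hx hx1 χ) (hzV x hx hx2 χ) h1 h2
  have hstart : ∀ x : UE D N, ‖x‖ < r → (∀ i, i ∉ Cy.A → x.1 i = 0) →
      (∀ i, i ∉ Ch.A → x.2 i = 0) → ∀ i, Fc x 0 i = w x i := by
    intro x hx hx1 hx2 i
    exact D.ext_char fun t h1 h2 => (hchar x hx hx1 hx2 (D.evA t h1 h2)).2.1 i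
  have hstop : ∀ x : UE D N, ‖x‖ < r → (∀ i, i ∉ Cy.A → x.1 i = 0) →
      (∀ i, i ∉ Ch.A → x.2 i = 0) → ∀ i, Fc x (Fin.last d) i = z x i := by
    intro x hx hx1 hx2 i
    exact D.ext_char fun t h1 h2 => (hchar x hx hx1 hx2 (D.evA t h1 h2)).2.2.1 i
  obtain ⟨φ, hφ0, hφC, hφfix⟩ := exists_fix D Cy.A Ch.A (hFcC 0 (by simpa using hr))
  have hφcont : ContinuousAt φ 0 := (hφC.self_of_nhds).continuousAt
  have e1 : ∀ᶠ p in 𝓝 (0 : PE D N), ‖φ p‖ < r := by
    refine (hφcont.norm).eventually_lt continuousAt_const ?_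
    rw [hφ0, norm_zero]
    exact hr
  -- the two ends
  have hG2 : ContinuousAt (fun p : PE D N =>
      val (fun j i => D.R₂ (Fc (φ p) j i)) 1 p.2.1 - cst D.A₂ y) 0 := by
    have h1 : ContDiffAt ℂ 0 (fun p : PE D N => (fun (j : Fin (d + 1)) (i : Fin (N + 1)) =>
        D.R₂ (Fc (φ p) j i))) 0 := by
      have h2 : ContDiffAt ℂ 0 (fun p : PE D N => Fc (φ p)) 0 := by
        have h4 : ContDiffAt ℂ 0 Fc (φ 0) := by
          rw [hφ0]
          exact (hFcC 0 (by simpa using hr)).of_le zero_le_one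
        have h5 : ContDiffAt ℂ 0 φ 0 := (hφC.self_of_nhds).of_le zero_le_one
        exact h4.comp 0 h5
      rw [contDiffAt_pi]
      intro j
      rw [contDiffAt_pi]
      intro i
      exact (D.R₂.contDiff.contDiffAt).comp _ ((contDiffAt_pi.1 ((contDiffAt_pi.1 h2) j)) i)
    have h3 : ContDiffAt ℂ 0 (fun p : PE D N => p.2.1) 0 :=
      contDiffAt_fst.comp _ contDiffAt_snd
    exact ((contDiffAt_val h1 (contDiffAt_const (c := (1 : D.A₂))) h3).continuousAt).sub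
      continuousAt_const
  have hG1 : ContinuousAt (fun p : PE D N =>
      val (fun j i => D.R₁ (Fc (φ p) j i)) p.2.2 1 - fun i => D.ρ₁ (αA i)) 0 := by
    have h1 : ContDiffAt ℂ 0 (fun p : PE D N => (fun (j : Fin (d + 1)) (i : Fin (N + 1)) =>
        D.R₁ (Fc (φ p) j i))) 0 := by
      have h2 : ContDiffAt ℂ 0 (fun p : PE D N => Fc (φ p)) 0 := by
        have h4 : ContDiffAt ℂ 0 Fc (φ 0) := by
          rw [hφ0]
          exact (hFcC 0 (by simpa using hr)).of_le zero_le_one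
        have h5 : ContDiffAt ℂ 0 φ 0 := (hφC.self_of_nhds).of_le zero_le_one
        exact h4.comp 0 h5
      rw [contDiffAt_pi]
      intro j
      rw [contDiffAt_pi]
      intro i
      exact (D.R₁.contDiff.contDiffAt).comp _ ((contDiffAt_pi.1 ((contDiffAt_pi.1 h2) j)) i)
    have h3 : ContDiffAt ℂ 0 (fun p : PE D N => p.2.2) 0 :=
      contDiffAt_snd.comp _ contDiffAt_snd
    exact ((contDiffAt_val h1 h3 (contDiffAt_const (c := (1 : D.A₁)))).continuousAt).sub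
      continuousAt_const
  have hr0 : ‖(0 : UE D N)‖ < r := by simpa using hr
  have e2 : ∀ᶠ p in 𝓝 (0 : PE D N),
      ‖val (fun j i => D.R₂ (Fc (φ p) j i)) 1 p.2.1 - cst D.A₂ y‖ < ε := by
    refine (hG2.norm).eventually_lt continuousAt_const ?_
    have h1 : val (fun j i => D.R₂ (Fc (φ 0) j i)) 1 (0 : PE D N).2.1 = cst D.A₂ y := by
      rw [hφ0]
      have h2 : (0 : PE D N).2.1 = 0 := rfl
      rw [h2, val_one_zero]
      funext i
      rw [hstart 0 hr0 (fun _ _ => rfl) (fun _ _ => rfl) i, hw0]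
      exact D.ρ₂.commutes (y i)
    rw [h1, sub_self, norm_zero]
    exact hε
  have e3 : ∀ᶠ p in 𝓝 (0 : PE D N),
      ‖(val (fun j i => D.R₁ (Fc (φ p) j i)) p.2.2 1 - fun i => D.ρ₁ (αA i))‖ < ε := by
    refine (hG1.norm).eventually_lt continuousAt_const ?_
    have h1 : val (fun j i => D.R₁ (Fc (φ 0) j i)) (0 : PE D N).2.2 1 =
        fun i => D.ρ₁ (αA i) := by
      rw [hφ0]
      have h2 : (0 : PE D N).2.2 = 0 := rfl
      rw [h2, val_zero_one]
      funext i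
      rw [hstop 0 hr0 (fun _ _ => rfl) (fun _ _ => rfl) i, hz0]
      rfl
    rw [h1, sub_self, norm_zero]
    exact hε
  obtain ⟨η, hη, hball⟩ := Metric.eventually_nhds_iff.1
    (e1.and (e2.and (e3.and (hφC.and hφfix))))
  obtain ⟨M₀, hM₀⟩ := D.exists_small (η / 2) (half_pos hη)
  refine ⟨M₀, fun M hM => ⟨η, hη, fun a => Fc (φ (a, D.ρ₂ (D.lam M), D.ρ₁ (D.mu M))), ?_, ?_⟩⟩
  · have hp : dist ((0 : Fin (N + 1) → ℂ), D.ρ₂ (D.lam M), D.ρ₁ (D.mu M)) (0 : PE D N) < η := by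
      rw [dist_zero_right]
      refine max_lt (by simpa using hη) (max_lt ?_ ?_)
      · exact (hM₀ M hM).1.trans_lt (half_lt_self hη)
      · exact (hM₀ M hM).2.trans_lt (half_lt_self hη)
    obtain ⟨a1, -, -, a4, -⟩ := hball hp
    have h1 : DifferentiableAt ℂ (fun a : Fin (N + 1) → ℂ =>
        ((a, D.ρ₂ (D.lam M), D.ρ₁ (D.mu M)) : PE D N)) 0 :=
      differentiableAt_id.prodMk (differentiableAt_const _)
    have h2 : DifferentiableAt ℂ (fun a : Fin (N + 1) → ℂ =>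
        φ (a, D.ρ₂ (D.lam M), D.ρ₁ (D.mu M))) 0 :=
      DifferentiableAt.comp (0 : Fin (N + 1) → ℂ) (a4.differentiableAt one_ne_zero) h1
    exact DifferentiableAt.comp (0 : Fin (N + 1) → ℂ)
      ((hFcC _ a1).differentiableAt one_ne_zero) h2
  · intro a ha ha0
    set p : PE D N := (a, D.ρ₂ (D.lam M), D.ρ₁ (D.mu M)) with hpdef
    have hp : dist p (0 : PE D N) < η := by
      rw [dist_zero_right]
      refine max_lt ha (max_lt ?_ ?_)
      · exact (hM₀ M hM).1.trans_lt (half_lt_self hη)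
      · exact (hM₀ M hM).2.trans_lt (half_lt_self hη)
    obtain ⟨a1, a2, a3, -, a5⟩ := hball hp
    set x : UE D N := φ p with hxdef
    have hx1 : ∀ i, x.1 i = if i ∈ Cy.A then cstL D (a i) -
        D.Q₂ (val (fun j i => D.R₂ (Fc x j i)) 1 (D.ρ₂ (D.lam M)) i - D.R₂ (Fc x 0 i))
        else 0 := fun i => (congrFun (congrArg Prod.fst a5) i).symm
    have hx2 : ∀ i, x.2 i = if i ∈ Ch.A then -
        D.P₁ (val (fun j i => D.R₁ (Fc x j i)) (D.ρ₁ (D.mu M)) 1 i -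
          D.R₁ (Fc x (Fin.last d) i)) else 0 :=
      fun i => (congrFun (congrArg Prod.snd a5) i).symm
    have hx10 : ∀ i, i ∉ Cy.A → x.1 i = 0 := fun i hi => by rw [hx1, if_neg hi]
    have hx20 : ∀ i, i ∉ Ch.A → x.2 i = 0 := fun i hi => by rw [hx2, if_neg hi]
    have hch := hchar x a1 hx10 hx20
    have hρ2 : ∀ i, D.ρ₂ (val (Fc x) 1 (D.lam M) i) =
        val (fun j i => D.R₂ (Fc x j i)) 1 (D.ρ₂ (D.lam M)) i := by
      intro i
      rw [map_val, map_one]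
      rfl
    have hρ1 : ∀ i, D.ρ₁ (D.mu M ^ d * val (Fc x) 1 (D.lam M) i) =
        val (fun j i => D.R₁ (Fc x j i)) (D.ρ₁ (D.mu M)) 1 i := by
      intro i
      rw [mu_pow_mul_val (D.lam_mul_mu M), map_val, map_one]
      rfl
    obtain ⟨s1, s2, -, -, -, -, -, -, -⟩ := hall x a1
    refine ⟨fun χ => ⟨(hch χ).1, (hch χ).2.2.2⟩, ?_, ?_, ?_, ?_, ?_⟩
    · intro E hE
      constructor
      · refine D.ext_char fun t h1 h2 => ?_
        rw [map_aeval, map_zero]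
        have h3 : (fun i => D.evA t h1 h2 (val (Fc x) 1 (D.lam M) i)) =
            val (fun j i => D.evA t h1 h2 (Fc x j i)) 1 (D.evA t h1 h2 (D.lam M)) := by
          funext i
          rw [map_val, map_one]
        rw [h3]
        exact hE _ ((hch (D.evA t h1 h2)).1 _ _ (Or.inl one_ne_zero))
      · refine D.ext_char fun t h1 h2 => ?_
        rw [map_aeval, map_zero]
        have h3 : (fun i => D.evA t h1 h2 (D.mu M ^ d * val (Fc x) 1 (D.lam M) i)) =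
            val (fun j i => D.evA t h1 h2 (Fc x j i)) (D.evA t h1 h2 (D.mu M)) 1 := by
          funext i
          rw [mu_pow_mul_val (D.lam_mul_mu M), map_val, map_one]
        rw [h3]
        exact hE _ ((hch (D.evA t h1 h2)).1 _ _ (Or.inr one_ne_zero))
    · intro i hi
      set U := val (fun j i => D.R₂ (Fc x j i)) 1 (D.ρ₂ (D.lam M)) i - D.R₂ (Fc x 0 i) with hU
      have h1 : w x i = algebraMap ℂ D.A (y i) + x.1 i := by
        have := s1 i
        rw [Cy.hΦA i hi, aeval_X, aeval_X] at this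
        exact this
      have h2 : D.ρ₂ (val (Fc x) 1 (D.lam M) i) =
          algebraMap ℂ D.A₂ (y i + a i) + (U - D.ρ₂ (D.Q₂ U)) := by
        have h3 : D.R₂ (Fc x 0 i) = algebraMap ℂ D.A₂ (y i) +
            (algebraMap ℂ D.A₂ (a i) - D.ρ₂ (D.Q₂ U)) := by
          rw [Dat.R₂_apply, hstart x a1 hx10 hx20 i, h1, hx1, if_pos hi, cstL_apply, map_add,
            map_sub, AlgHom.commutes, AlgHom.commutes]
        have h4 : D.ρ₂ (val (Fc x) 1 (D.lam M) i) = U + D.R₂ (Fc x 0 i) := by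
          rw [hρ2, hU]; ring
        rw [h4, h3, map_add]
        ring
      have h5 : Supp Slt (U - D.ρ₂ (D.Q₂ U)) := D.sub_Q₂_mem U
      constructor
      · rw [h2]
        exact Supp.add (supp_algebraMap zero_mem_Sle _) (h5.mono_set Slt_subset)
      · rw [← D.co_ρ₂, h2, co_add, co_algebraMap, if_pos rfl, h5 0 (by
          show ¬ ((0 : ℤ) < 0)
          exact lt_irrefl _), add_zero]
    · intro i hi
      set U := val (fun j i => D.R₁ (Fc x j i)) (D.ρ₁ (D.mu M)) 1 i -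
        D.R₁ (Fc x (Fin.last d) i) with hU
      have h1 : z x i = αA i + x.2 i := by
        have := s2 i
        rw [Ch.hΦA i hi, aeval_X, aeval_X] at this
        exact this
      have h2 : D.ρ₁ (D.mu M ^ d * val (Fc x) 1 (D.lam M) i) =
          D.ρ₁ (αA i) + (U - D.ρ₁ (D.P₁ U)) := by
        have h3 : D.R₁ (Fc x (Fin.last d) i) = D.ρ₁ (αA i) - D.ρ₁ (D.P₁ U) := by
          rw [Dat.R₁_apply, hstop x a1 hx10 hx20 i, h1, hx2, if_pos hi, map_add, map_neg]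
          ring
        have h4 : D.ρ₁ (D.mu M ^ d * val (Fc x) 1 (D.lam M) i) =
            U + D.R₁ (Fc x (Fin.last d) i) := by
          rw [hρ1, hU]; ring
        rw [h4, h3]
        ring
      have h5 : Supp Sgt (U - D.ρ₁ (D.P₁ U)) := D.sub_P₁_supp U
      constructor
      · rw [h2]
        exact Supp.add (D.supp_ρ₁.2 (hs i)) (h5.mono_set Sgt_subset)
      · rw [← D.co_ρ₁, h2, co_add, D.co_ρ₁, hα0, h5 0 (by
          show ¬ ((0 : ℤ) < 0)
          exact lt_irrefl _), add_zero]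
    · have h1 : (fun i => D.ρ₂ (val (Fc x) 1 (D.lam M) i)) =
          val (fun j i => D.R₂ (Fc x j i)) 1 (D.ρ₂ (D.lam M)) := funext hρ2
      rw [h1]
      exact a2
    · have h1 : (fun i => D.ρ₁ (D.mu M ^ d * val (Fc x) 1 (D.lam M) i)) =
          val (fun j i => D.R₁ (Fc x j i)) (D.ρ₁ (D.mu M)) 1 := funext hρ1
      rw [h1]
      exact a3

end Pool.Agent.VF.GlueW
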