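import Mathlib
import Pool.Agent.Lib_MP_1858fb_w.Defs2

/-!
MP_1858fb_ag: sections along a curve from a differentiable family of curves (helper36).
-/

open MvPolynomial Filter Topology

namespace Pool.Agent.VF

/-- the value of a tuple of forms as a continuous linear function of the coefficients -/
noncomputable def valL {N d : ℕ} (p q : ℂ) (i : Fin (N + 1)) :
    (Fin (d + 1) → Fin (N + 1) → ℂ) →L[ℂ] ℂ :=
  ∑ j : Fin (d + 1), (p ^ (d - (j : ℕ)) * q ^ (j : ℕ)) •
    ((ContinuousLinearMap.proj i : (Fin (N + 1) → ℂ) →L[ℂ] ℂ).comp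
      (ContinuousLinearMap.proj j : (Fin (d + 1) → Fin (N + 1) → ℂ) →L[ℂ] (Fin (N + 1) → ℂ)))

theorem valL_apply {N d : ℕ} (p q : ℂ) (i : Fin (N + 1)) (F : Fin (d + 1) → Fin (N + 1) → ℂ) :
    valL p q i F = val F p q i := by
  unfold valL val
  simp only [sum_apply, smul_apply,
    ContinuousLinearMap.comp_apply, ContinuousLinearMap.proj_apply, smul_eq_mul]
  exact Finset.sum_congr rfl fun j _ => by ring

/-- derivative of a polynomial along a curve -/
theorem hasDerivAt_aeval {σ : Type} [Fintype σ] (E : MvPolynomial σ ℂ) {x : ℂ → σ → ℂ}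
    {x' : σ → ℂ} {s : ℂ} (hx : ∀ i, HasDerivAt (fun s => x s i) (x' i) s) :
    HasDerivAt (fun s => aeval (x s) E) (dif E (x s) x') s := by
  classical
  induction E using MvPolynomial.induction_on with
  | C a =>
    simp only [aeval_C, dif, pderiv_C, map_zero, zero_mul, Finset.sum_const_zero]
    exact hasDerivAt_const _ _
  | add p q hp hq =>
    have := hp.add hq
    simp only [dif, map_add, add_mul, Finset.sum_add_distrib] at this ⊢
    exact this
  | mul_X p j hp =>
    have h1 := hp.mul (hx j)
    simp only [map_mul, aeval_X]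
    refine h1.congr_deriv ?_
    simp only [dif, Derivation.leibniz, pderiv_X, map_add, smul_eq_mul, map_mul, aeval_X, add_mul,
      Finset.sum_add_distrib, Finset.sum_mul]
    rw [add_comm]
    congr 1
    · rw [Finset.sum_eq_single j]
      · simp
      · intro b _ hb
        simp [hb]
      · simp
    · refine Finset.sum_congr rfl fun i _ => ?_
      ring

/-- **sections from a differentiable family of curves** whose point at `(0 : 1)` is fixed and
whose point at `(1 : 0)` has prescribed chart coordinates -/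
theorem sections_of_family {N c d' : ℕ} {V : Set (Fin (N + 1) → ℂ)} {y v : Fin (N + 1) → ℂ}
    (Cy : Chart c V y) (hd' : 1 ≤ d')
    {S : ({i // i ∈ Cy.A} → ℂ) → Fin (d' + 1) → Fin (N + 1) → ℂ}
    (hS : DifferentiableAt ℂ S 0) (hc : ∀ᶠ t in 𝓝 0, IsCurve V (S t))
    (h01 : ∀ᶠ t in 𝓝 0, val (S t) 0 1 = v)
    (h10 : ∀ᶠ t in 𝓝 0, ∀ i : {i // i ∈ Cy.A}, val (S t) 1 0 i = y i + t i)
    (hdet : aeval (val (S 0) 1 0) (Matrix.det (Matrix.of fun i j => pderiv j (Cy.Φ i))) ≠ 0) :
    ∀ w ∈ Tan V (val (S 0) 1 0), ∃ G : Fin (d' + 1) → Fin (N + 1) → ℂ,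
      IsTangent V (S 0) G ∧ val G 0 1 = 0 ∧ val G 1 0 = w := by
  classical
  intro w hw
  set e : {i // i ∈ Cy.A} → ℂ := fun i => w i with he
  set D := fderiv ℂ S 0 with hD
  have hline : HasDerivAt (fun s : ℂ => S (s • e)) (D e) 0 := by
    have h1 : HasFDerivAt S D ((0 : ℂ) • e) := by
      rw [zero_smul]
      exact hS.hasFDerivAt
    have h2 : HasDerivAt (fun s : ℂ => s • e) ((1 : ℂ) • e) 0 := (hasDerivAt_id 0).smul_const e
    have := h1.comp_hasDerivAt (0 : ℂ) h2
    rwa [one_smul] at this
  have hval : ∀ p q i, HasDerivAt (fun s : ℂ => val (S (s • e)) p q i) (val (D e) p q i) 0 := by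
    intro p q i
    have h1 := (valL (N := N) (d := d') p q i).hasFDerivAt.comp_hasDerivAt (0 : ℂ) hline
    simpa only [Function.comp_def, valL_apply] using h1
  have htend : Tendsto (fun s : ℂ => s • e) (𝓝 0) (𝓝 0) := by
    have : Continuous fun s : ℂ => s • e := continuous_id.smul continuous_const
    simpa using this.tendsto 0
  have hG : IsTangent V (S 0) (D e) := by
    intro p q E hE
    by_cases hpq : p = 0 ∧ q = 0
    · obtain ⟨rfl, rfl⟩ := hpq
      have h0 : val (D e) 0 0 = 0 := by
        funext i
        unfold val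
        refine Finset.sum_eq_zero fun j _ => ?_
        by_cases hj : (j : ℕ) = 0
        · rw [hj, Nat.sub_zero, zero_pow (by omega)]
          simp
        · rw [zero_pow hj]
          simp
      rw [h0]
      simp [dif]
    · have hpq' : p ≠ 0 ∨ q ≠ 0 := by
        by_contra hcon
        push Not at hcon
        exact hpq hcon
      have h1 := hasDerivAt_aeval E (x := fun s : ℂ => val (S (s • e)) p q)
        (x' := val (D e) p q) (s := 0) (fun i => hval p q i)
      have h2 : HasDerivAt (fun s : ℂ => aeval (val (S (s • e)) p q) E) 0 0 := by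
        refine (hasDerivAt_const (0 : ℂ) (0 : ℂ)).congr_of_eventuallyEq ?_
        filter_upwards [htend.eventually hc] with s hs
        exact hE _ (hs p q hpq')
      have h3 := h1.unique h2
      simpa using h3
  refine ⟨D e, hG, ?_, ?_⟩
  · funext i
    have h2 : HasDerivAt (fun s : ℂ => val (S (s • e)) 0 1 i) 0 0 := by
      refine (hasDerivAt_const (0 : ℂ) (v i)).congr_of_eventuallyEq ?_
      filter_upwards [htend.eventually h01] with s hs
      rw [hs]
    exact (hval 0 1 i).unique h2
  · have hA : ∀ i ∈ Cy.A, val (D e) 1 0 i = w i := by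
      intro i hi
      have h2 : HasDerivAt (fun s : ℂ => val (S (s • e)) 1 0 i) (w i) 0 := by
        have h3 : HasDerivAt (fun s : ℂ => y i + s * w i) (w i) 0 := by
          simpa using ((hasDerivAt_id (0 : ℂ)).mul_const (w i)).const_add (y i)
        refine h3.congr_of_eventuallyEq ?_
        filter_upwards [htend.eventually h10] with s hs
        have := hs ⟨i, hi⟩
        simpa [he] using this
      exact (hval 1 0 i).unique h2
    have hsub : val (D e) 1 0 - w = 0 := by
      by_contra hne
      apply hdet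
      rw [AlgHom.map_det]
      refine Matrix.exists_mulVec_eq_zero_iff.1 ⟨_, hne, funext fun i => ?_⟩
      have hu : val (D e) 1 0 - w ∈ Tan V (val (S 0) 1 0) := Submodule.sub_mem _ (hG 1 0) hw
      change dif (Cy.Φ i) (val (S 0) 1 0) (val (D e) 1 0 - w) = 0
      by_cases hi : i ∈ Cy.A
      · rw [Cy.hΦA i hi]
        simp only [dif, pderiv_X]
        rw [Finset.sum_eq_single i]
        · simp [hA i hi]
        · intro j _ hj
          simp [Pi.single_eq_of_ne hj.symm]
        · simp
      · exact hu _ (Cy.hΦ i hi)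
    exact sub_eq_zero.1 hsub

end Pool.Agent.VF
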