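import Pool.Agent.Lib_MP_1858fb_w.GlueMem
import Pool.Agent.Lib_MP_1858fb_w.LaurPolyW
import Pool.Agent.Lib_MP_1858fb_w.Sect
import Pool.Agent.Lib_MP_1858fb_w.Glue1

/-!
MP_1858fb_ag, piece GLUE: the curve assembly (helper65). From a differentiable family of vectors
over the algebra of the annulus, with values in `V` on the annulus and outside and (after
multiplication by `μ ^ d`) inside, to the conclusion of the theorem `glue`.
-/

set_option autoImplicit false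

noncomputable section

namespace Pool.Agent.VF.GlueW

open Pool.Agent.Lib_MP_1858fb_w
open Pool.Agent.Lib_MP_1858fb_w.W
open Pool.Agent.VF MvPolynomial Filter Topology

/-- the coefficient at `k` as a continuous linear form -/
def coL {ω : Wt} (k : ℤ) : W ω →L[ℂ] ℂ where
  toFun := fun f => f.co k
  map_add' := fun f g => co_add f g k
  map_smul' := fun c f => co_smul c f k
  cont := continuous_co k

theorem coL_apply {ω : Wt} (k : ℤ) (f : W ω) : coL k f = f.co k := rfl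

/-- the value at zero is the constant coefficient (junk values of the negative powers are 0) -/
theorem val_zero_co {ω : Wt} (f : W ω) : W.val 0 f = f.co 0 := by
  unfold W.val
  rw [tsum_eq_single 0, zpow_zero, mul_one]
  intro k hk
  rw [zero_zpow k hk, mul_zero]

/-- the forms of a differentiable family of vectors are differentiable -/
theorem differentiableAt_forms {ω : Wt} {P : Type*} [NormedAddCommGroup P] [NormedSpace ℂ P]
    {N : ℕ} (Dd : ℕ) {f : P → Fin (N + 1) → W ω} {a : P} (hf : DifferentiableAt ℂ f a) :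
    DifferentiableAt ℂ (fun a => forms Dd (f a)) a := by
  rw [differentiableAt_pi]
  intro j
  rw [differentiableAt_pi]
  intro i
  have h1 : DifferentiableAt ℂ (fun a => f a i) a := (differentiableAt_pi.1 hf) i
  exact (coL (ω := ω) (-((j : ℕ) : ℤ))).differentiableAt.comp a h1

namespace Dat

variable (D : Dat)

theorem mu_pow_eq (hr : D.r = 1) (M d : ℕ) :
    D.mu M ^ d = mono (Wt.ann D.r₁ D.r₂ D.h₁ D.h₂) ((M * d : ℕ) : ℤ) 1 := by
  have h : ∀ d : ℕ, D.mu M ^ d = mono (Wt.ann D.r₁ D.r₂ D.h₁ D.h₂) ((M * d : ℕ) : ℤ) 1 := by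
    intro d
    induction d with
    | zero => simp [one_def]
    | succ d ih =>
      rw [pow_succ, ih]
      unfold mu
      rw [hr, mono_mul_mono]
      congr 1
      · simp
  exact h d

end Dat

/-- **The curve assembly.** -/
theorem glue_end {N c m : ℕ} {V : Set (Fin (N + 1) → ℂ)} (hV : LocClosed V)
    {vs : Fin m → Fin (N + 1) → ℂ} {v y : Fin (N + 1) → ℂ} (Ch : Chart c V v) (Cy : Chart c V y)
    (D : Dat) (hr : D.r = 1) {d M : ℕ} (hd : 1 ≤ d) (hM : 1 ≤ M)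
    {f : ({i // i ∈ Cy.A} → ℂ) → Fin (N + 1) → D.A} (hf : DifferentiableAt ℂ f 0)
    (hann : ∀ᶠ a in 𝓝 (0 : {i // i ∈ Cy.A} → ℂ), ∀ t : ℂ, D.r₁ ≤ ‖t‖ → ‖t‖ ≤ D.r₂ →
      (fun i => W.val t (f a i)) ∈ V)
    (hout : ∀ᶠ a in 𝓝 (0 : {i // i ∈ Cy.A} → ℂ), ∃ g : Fin (N + 1) → D.B₂,
      (∀ i, ((g i : D.B₂) : D.A₂) = D.ρ₂ (f a i)) ∧ (∀ i, i ∉ Cy.A → aeval g (Cy.Φ i) = 0) ∧
      IsUnit (aeval g Cy.H) ∧ ∀ i : {i // i ∈ Cy.A}, (g i).1.co 0 = y i + a i)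
    (hin : ∀ᶠ a in 𝓝 (0 : {i // i ∈ Cy.A} → ℂ), ∃ h : Fin (N + 1) → D.B₁,
      (∀ i, ((h i : D.B₁) : D.A₁) = D.ρ₁ (D.mu M ^ d * f a i)) ∧
      (∀ i, i ∉ Ch.A → aeval h (Ch.Φ i) = 0) ∧ IsUnit (aeval h Ch.H) ∧
      ∀ i, (h i).1.co 0 = v i)
    (hmark : ∀ l, ∃ t : ℂ, D.r₁ ≤ ‖t‖ ∧ ‖t‖ ≤ D.r₂ ∧ ∀ i, W.val t (f 0 i) = vs l i)
    (hdet : aeval (fun i => (f 0 i).co 0)
      (Matrix.det (Matrix.of fun i j => pderiv j (Cy.Φ i))) ≠ 0) :
    ∃ (d' : ℕ) (S : Fin (d' + 1) → Fin (N + 1) → ℂ), 1 ≤ d' ∧ IsCurve V S ∧ val S 0 1 = v ∧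
      (∀ l, ∃ q : ℂ, val S 1 q = vs l) ∧
      ∀ w ∈ Tan V (val S 1 0), ∃ G : Fin (d' + 1) → Fin (N + 1) → ℂ,
        IsTangent V S G ∧ val G 0 1 = 0 ∧ val G 1 0 = w := by
  have hdd : 1 ≤ M * d := Nat.mul_pos hM hd
  have hmu := D.mu_pow_eq hr M d
  -- the support
  have hsupp : ∀ a, (∃ g : Fin (N + 1) → D.B₂,
      (∀ i, ((g i : D.B₂) : D.A₂) = D.ρ₂ (f a i)) ∧ (∀ i, i ∉ Cy.A → aeval g (Cy.Φ i) = 0) ∧
      IsUnit (aeval g Cy.H) ∧ ∀ i : {i // i ∈ Cy.A}, (g i).1.co 0 = y i + a i) →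
      (∃ h : Fin (N + 1) → D.B₁,
      (∀ i, ((h i : D.B₁) : D.A₁) = D.ρ₁ (D.mu M ^ d * f a i)) ∧
      (∀ i, i ∉ Ch.A → aeval h (Ch.Φ i) = 0) ∧ IsUnit (aeval h Ch.H) ∧
      ∀ i, (h i).1.co 0 = v i) →
      ∀ i, Supp (Set.Icc (-((M * d : ℕ) : ℤ)) 0) (f a i) := by
    rintro a ⟨g, hg, -⟩ ⟨h, hh, -⟩ i
    exact D.supp_of_both (by rw [← hg i]; exact (g i).2) (by rw [← hh i]; exact (h i).2)
  have hval01 : ∀ a, (∃ g : Fin (N + 1) → D.B₂,
      (∀ i, ((g i : D.B₂) : D.A₂) = D.ρ₂ (f a i)) ∧ (∀ i, i ∉ Cy.A → aeval g (Cy.Φ i) = 0) ∧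
      IsUnit (aeval g Cy.H) ∧ ∀ i : {i // i ∈ Cy.A}, (g i).1.co 0 = y i + a i) →
      (∃ h : Fin (N + 1) → D.B₁,
      (∀ i, ((h i : D.B₁) : D.A₁) = D.ρ₁ (D.mu M ^ d * f a i)) ∧
      (∀ i, i ∉ Ch.A → aeval h (Ch.Φ i) = 0) ∧ IsUnit (aeval h Ch.H) ∧
      ∀ i, (h i).1.co 0 = v i) → val (forms (M * d) (f a)) 0 1 = v := by
    intro a ha hb
    rw [val_forms_zero (M * d) (f a) (hsupp a ha hb)]
    obtain ⟨h, hh, -, -, h4⟩ := hb
    funext i
    rw [val_zero_co, ← D.co_ρ₁, ← hmu, ← hh i]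
    exact h4 i
  have hval10 : ∀ a, (∃ g : Fin (N + 1) → D.B₂,
      (∀ i, ((g i : D.B₂) : D.A₂) = D.ρ₂ (f a i)) ∧ (∀ i, i ∉ Cy.A → aeval g (Cy.Φ i) = 0) ∧
      IsUnit (aeval g Cy.H) ∧ ∀ i : {i // i ∈ Cy.A}, (g i).1.co 0 = y i + a i) →
      (∃ h : Fin (N + 1) → D.B₁,
      (∀ i, ((h i : D.B₁) : D.A₁) = D.ρ₁ (D.mu M ^ d * f a i)) ∧
      (∀ i, i ∉ Ch.A → aeval h (Ch.Φ i) = 0) ∧ IsUnit (aeval h Ch.H) ∧
      ∀ i, (h i).1.co 0 = v i) → val (forms (M * d) (f a)) 1 0 = fun i => (f a i).co 0 := by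
    intro a ha hb
    rw [val_forms_one (M * d) (f a) (hsupp a ha hb)]
    funext i
    rw [inv_zero, val_zero_co]
  -- the curve
  have hcurve : ∀ᶠ a in 𝓝 (0 : {i // i ∈ Cy.A} → ℂ), IsCurve V (forms (M * d) (f a)) := by
    filter_upwards [hann, hout, hin] with a h1 h2 h3
    refine isCurve_forms V (fun c hc x hx => hV.smul c hc x hx) (M * d) (f a) (hsupp a h2 h3)
      D.h₁ D.h12 h1 ?_ ?_
    · obtain ⟨g, hg, hg1, hg2, -⟩ := h2
      intro u hu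
      by_cases hu0 : u = 0
      · have h5 := Cy.mem hg1 hg2 D.evInf
        have h6 : (fun i => W.val u⁻¹ (f a i)) = fun i => D.evInf (g i) := by
          funext i
          rw [D.evInf_apply, hg i, hu0, inv_zero, val_zero_co, D.co_ρ₂]
        rw [h6]
        exact h5
      · have hu' : D.r₂ ≤ ‖u⁻¹‖ := by
          rw [norm_inv]
          rw [← inv_inv D.r₂]
          exact inv_anti₀ (norm_pos_iff.2 hu0) hu
        have h5 := Cy.mem hg1 hg2 (D.ev₂ u⁻¹ hu')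
        have h6 : (fun i => W.val u⁻¹ (f a i)) = fun i => D.ev₂ u⁻¹ hu' (g i) := by
          funext i
          rw [D.ev₂_apply, hg i, D.val_ρ₂]
        rw [h6]
        exact h5
    · obtain ⟨h, hh, hh1, hh2, -⟩ := h3
      intro t ht
      have h5 := Ch.mem hh1 hh2 (D.ev₁ t ht)
      have h6 : (fun i => W.val t (mono (Wt.ann D.r₁ D.r₂ D.h₁ D.h₂) ((M * d : ℕ) : ℤ) 1 *
          f a i)) = fun i => D.ev₁ t ht (h i) := by
        funext i
        rw [D.ev₁_apply, hh i, D.val_ρ₁, hmu]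
      rw [h6]
      exact h5
  have h0out := hout.self_of_nhds
  have h0in := hin.self_of_nhds
  refine ⟨M * d, forms (M * d) (f 0), hdd, hcurve.self_of_nhds, hval01 0 h0out h0in, ?_, ?_⟩
  · intro l
    obtain ⟨t, ht1, ht2, ht⟩ := hmark l
    refine ⟨t⁻¹, ?_⟩
    rw [val_forms_one (M * d) (f 0) (hsupp 0 h0out h0in), inv_inv]
    exact funext ht
  · have hS : DifferentiableAt ℂ (fun a => forms (M * d) (f a)) 0 :=
      differentiableAt_forms (M * d) hf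
    refine sections_of_family (v := v) Cy hdd (S := fun a => forms (M * d) (f a)) hS hcurve ?_ ?_ ?_
    · filter_upwards [hout, hin] with a h2 h3
      exact hval01 a h2 h3
    · filter_upwards [hout, hin] with a h2 h3
      intro i
      rw [hval10 a h2 h3]
      obtain ⟨g, hg, -, -, hg4⟩ := h2
      have := hg4 i
      rw [hg, D.co_ρ₂] at this
      exact this
    · show aeval (val (forms (M * d) (f 0)) 1 0) _ ≠ 0
      rw [hval10 0 h0out h0in]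
      exact hdet

end Pool.Agent.VF.GlueW
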