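import Pool.Agent.Lib_MP_1858fb_w.GlueIO
import Pool.Agent.Lib_MP_1858fb_w.GlueEnd
import Pool.Agent.Lib_MP_1858fb_w.GlueC2

/-!
# Assembly of the gluing
-/

set_option autoImplicit false

noncomputable section

namespace Pool.Agent.VF

open MvPolynomial Filter Topology
open Pool.Agent.Lib_MP_1858fb_w Pool.Agent.VF.GlueW

/-- homogeneity of the value in the parameters, over any ring -/
theorem val_mul_mul_asm {κ R : Type} [CommRing R] {d : ℕ} (F : Fin (d + 1) → κ → R)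
    (s p q : R) (i : κ) : val F (s * p) (s * q) i = s ^ d * val F p q i := by
  unfold val
  rw [Finset.mul_sum]
  refine Finset.sum_congr rfl fun j _ => ?_
  have hj : (j : ℕ) ≤ d := Nat.lt_succ_iff.1 j.isLt
  have h2 : s ^ d = s ^ (d - (j : ℕ)) * s ^ (j : ℕ) := by rw [← pow_add, Nat.sub_add_cancel hj]
  rw [h2, mul_pow, mul_pow]
  ring

/-- the degree of the curves of a family is positive -/
theorem Family.one_le_deg {N d m : ℕ} {V : Set (Fin (N + 1) → ℂ)} (hV : LocClosed V)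
    {cm : Fin m → ℂ} {vs : Fin m → Fin (N + 1) → ℂ} (Fam : Family V cm vs d)
    {y z : Fin (N + 1) → ℂ} (hy : y ∈ V) (hz : z ∈ V)
    (hD : aeval (Sum.elim y z) Fam.D ≠ 0) : 1 ≤ d := by
  rcases Nat.eq_zero_or_pos d with h | h
  swap
  · exact h
  exfalso
  subst h
  -- a root exists
  have hroot : ∀ w z : Fin (N + 1) → ℂ, aeval (Sum.elim w z) Fam.D ≠ 0 →
      ∃ θ : ℂ, evT w z θ Fam.P = 0 := by
    intro w z h
    unfold evT
    set φ : MvPolynomial (Fin (N + 1) ⊕ Fin (N + 1)) ℂ →+* ℂ :=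
      ((aeval (Sum.elim w z) : MvPolynomial (Fin (N + 1) ⊕ Fin (N + 1)) ℂ →ₐ[ℂ] ℂ) :
        MvPolynomial (Fin (N + 1) ⊕ Fin (N + 1)) ℂ →+* ℂ) with hφ
    have h1 : φ Fam.P.leadingCoeff ≠ 0 := by
      rw [Fam.hlead]
      exact h
    have h2 : (Fam.P.map φ).natDegree = Fam.P.natDegree :=
      Polynomial.natDegree_map_of_leadingCoeff_ne_zero φ h1
    have h3 : (Fam.P.map φ).degree ≠ 0 := by
      intro h4
      have h5 := Polynomial.natDegree_eq_of_degree_eq_some h4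
      rw [h2] at h5
      exact absurd h5 Fam.hdeg.ne'
    obtain ⟨θ, hθ⟩ := IsAlgClosed.exists_root _ h3
    refine ⟨θ, ?_⟩
    rw [← Polynomial.eval_map]
    exact hθ
  have heq : ∀ w ∈ V, ∀ z ∈ V, aeval (Sum.elim w z) Fam.D ≠ 0 → w = z := by
    intro w hw z hz h
    obtain ⟨θ, hθ⟩ := hroot w z h
    have h1 := Fam.start w hw z hz _ θ (mul_inv_cancel₀ h) hθ
    have h2 := Fam.stop w hw z hz _ θ (mul_inv_cancel₀ h) hθ
    funext i
    rw [← h1 i, ← h2 i]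
    rfl
  have hyz := heq y hy z hz hD
  rw [← hyz] at hD
  have hy0 : y ≠ 0 := by
    obtain ⟨I, J, -, rfl⟩ := hV
    exact hy.1
  have hcone : ∀ a : ℂ, a ≠ 0 → a • y ∈ V := by
    intro a ha
    obtain ⟨I, J, hhom, rfl⟩ := hV
    obtain ⟨hx0, hI, G, hG, hGx⟩ := hy
    have hh : ∀ (E : MvPolynomial (Fin (N + 1)) ℂ) (e : ℕ), E.IsHomogeneous e →
        aeval (a • y) E = a ^ e * aeval y E := by
      intro E e he
      rw [MvPolynomial.aeval_def, MvPolynomial.aeval_def, MvPolynomial.eval₂_eq,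
        MvPolynomial.eval₂_eq, Finset.mul_sum]
      refine Finset.sum_congr rfl fun μ hμ => ?_
      have h1 : μ.degree = e := by
        have h4 := he (MvPolynomial.mem_support_iff.1 hμ)
        rw [Finsupp.degree_eq_weight_one]
        exact h4
      have h2 : ∏ i ∈ μ.support, (a • y) i ^ μ i = a ^ e * ∏ i ∈ μ.support, y i ^ μ i := by
        have h3 : ∑ i ∈ μ.support, μ i = e := by rw [← h1]; rfl
        rw [← h3, ← Finset.prod_pow_eq_pow_sum, ← Finset.prod_mul_distrib]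
        refine Finset.prod_congr rfl fun i _ => ?_
        rw [Pi.smul_apply, smul_eq_mul, mul_pow]
      rw [h2]
      ring
    refine ⟨smul_ne_zero ha hx0, fun E hE => ?_, G, hG, ?_⟩
    · obtain ⟨e, he⟩ := hhom E (Or.inl hE)
      rw [hh E e he, hI E hE, mul_zero]
    · obtain ⟨e, he⟩ := hhom G (Or.inr hG)
      rw [hh G e he]
      exact mul_ne_zero (pow_ne_zero e ha) hGx
  -- a scalar different from one
  have hc : Continuous fun a : ℂ => aeval (Sum.elim y (a • y)) Fam.D := by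
    have h1 : Continuous fun u : Fin (N + 1) ⊕ Fin (N + 1) → ℂ => aeval u Fam.D :=
      (contDiff_aeval (R := ℂ) Fam.D 0).continuous
    refine h1.comp (continuous_pi fun s => ?_)
    rcases s with s | s
    · exact continuous_const
    · exact (continuous_apply s).comp (continuous_id.smul continuous_const)
  have hD1 : aeval (Sum.elim y ((1 : ℂ) • y)) Fam.D ≠ 0 := by rwa [one_smul]
  have hev : ∀ᶠ a : ℂ in 𝓝 1, aeval (Sum.elim y (a • y)) Fam.D ≠ 0 ∧ a ≠ 0 :=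
    (hc.continuousAt.eventually_ne hD1).and (continuousAt_id.eventually_ne one_ne_zero)
  obtain ⟨a, ha1, ha2⟩ := ((hev.filter_mono nhdsWithin_le_nhds).and
    (eventually_mem_nhdsWithin (a := (1 : ℂ)) (s := {1}ᶜ))).exists
  have h1 := heq y hy (a • y) (hcone a ha1.2) ha1.1
  have h2 : (a - 1) • y = 0 := by
    rw [sub_smul, one_smul, ← h1, sub_self]
  rcases smul_eq_zero.1 h2 with h3 | h3
  · exact ha2 (sub_eq_zero.1 h3)
  · exact hy0 h3

/-- for large `M` the `M`-th roots of given numbers lie in the annulus -/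
theorem exists_roots_in_annulus (D : Dat) (hr : D.r = 1) {m : ℕ} (cm : Fin m → ℂ)
    (hcm : ∀ l, cm l ≠ 0) : ∃ M₀ : ℕ, ∀ M ≥ M₀, 1 ≤ M → ∀ l, ∃ t : ℂ, D.r₁ ≤ ‖t‖ ∧
      ‖t‖ ≤ D.r₂ ∧ W.val t (D.lam M) = cm l := by
  have h1 : ∀ l, ∀ᶠ M : ℕ in atTop, D.r₁ ^ M < ‖(cm l)⁻¹‖ ∧ ‖(cm l)⁻¹‖ < D.r₂ ^ M := by
    intro l
    have hr1 : D.r₁ < 1 := by rw [← hr]; exact D.h₁r
    have hr2 : 1 < D.r₂ := by rw [← hr]; exact D.hr₂
    have hpos : 0 < ‖(cm l)⁻¹‖ := norm_pos_iff.2 (inv_ne_zero (hcm l))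
    exact ((tendsto_pow_atTop_nhds_zero_of_lt_one D.h₁.le hr1).eventually
      (gt_mem_nhds hpos)).and ((tendsto_pow_atTop_atTop_of_one_lt hr2).eventually_gt_atTop _)
  obtain ⟨M₀, hM⟩ := eventually_atTop.1 (eventually_all.2 h1)
  refine ⟨M₀, fun M hM' hM1 l => ?_⟩
  obtain ⟨ha, hb⟩ := hM M hM' l
  obtain ⟨t, ht⟩ := IsAlgClosed.exists_pow_nat_eq ((cm l)⁻¹) (Nat.lt_of_lt_of_le one_pos hM1)
  have hn : ‖t‖ ^ M = ‖(cm l)⁻¹‖ := by rw [← norm_pow, ht]
  have hM0 : M ≠ 0 := by omega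
  refine ⟨t, ?_, ?_, ?_⟩
  · rw [← hn] at ha
    exact (lt_of_pow_lt_pow_left₀ M (norm_nonneg t) ha).le
  · rw [← hn] at hb
    exact (lt_of_pow_lt_pow_left₀ M D.h₂.le hb).le
  · rw [Dat.val_lam, hr]
    rw [Complex.ofReal_one, div_pow, one_pow, ht, one_div, inv_inv]

/-- **B2: the gluing.** -/
theorem glue {N c d m : ℕ} {V : Set (Fin (N + 1) → ℂ)} (hV : LocClosed V)
    (hsm : ∀ x ∈ V, SmoothAt c V x) {cm : Fin m → ℂ} (hcm : ∀ l, cm l ≠ 0)
    {vs : Fin m → Fin (N + 1) → ℂ} (Fam : Family V cm vs d) {v y : Fin (N + 1) → ℂ}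
    (hv : v ∈ V) (hy : y ∈ V) (Ch : Chart c V v) (Cy : Chart c V y)
    {ρ : ℝ} {α : ℂ → Fin (N + 1) → ℂ} {θ : ℂ → ℂ} (hρ : 1 < ρ)
    (hα : ∀ i, DifferentiableOn ℂ (fun τ => α τ i) (Metric.ball 0 ρ)) (hα0 : α 0 = v)
    (hαV : ∀ τ ∈ Metric.ball (0 : ℂ) ρ, α τ ∈ V ∧ aeval (α τ) Ch.H ≠ 0 ∧
        aeval (α τ) (Matrix.det (Matrix.of fun i j => pderiv j (Ch.Φ i))) ≠ 0)
    (hθ : DifferentiableOn ℂ θ (Metric.ball 0 ρ \ {0}))
    (hroot : ∀ τ ∈ Metric.ball (0 : ℂ) ρ, τ ≠ 0 →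
        aeval (Sum.elim y (α τ)) Fam.D ≠ 0 ∧ evT y (α τ) (θ τ) Fam.P = 0) :
    ∃ (d' : ℕ) (S : Fin (d' + 1) → Fin (N + 1) → ℂ), 1 ≤ d' ∧ IsCurve V S ∧ val S 0 1 = v ∧
      (∀ l, ∃ q : ℂ, val S 1 q = vs l) ∧
      ∀ w ∈ Tan V (val S 1 0), ∃ G : Fin (d' + 1) → Fin (N + 1) → ℂ,
        IsTangent V S G ∧ val G 0 1 = 0 ∧ val G 1 0 = w := by
  classical
  obtain ⟨D, αA, θA, hs, hr, hr2, hval, hco, hθA, hvan, uD, hP, uP, uH, udet, uH1, udet1⟩ :=
    exists_data Fam hy Ch hρ hα hα0 hαV hθ hroot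
  -- the degree
  have hd : 1 ≤ d := by
    have h1 : (1 : ℂ) ∈ Metric.ball (0 : ℂ) ρ := by
      rw [mem_ball_zero_iff, norm_one]
      exact hρ
    exact Fam.one_le_deg hV hy (hαV 1 h1).1 (hroot 1 h1 one_ne_zero).1
  -- closeness constants
  have h02 : ∀ i, i ∉ Cy.A → aeval (cst D.B₂ y) (Cy.Φ i) = 0 := by
    intro i hi
    rw [aeval_cst, Cy.hΦ i hi y hy, map_zero]
  obtain ⟨ε₂, hε₂, hout2⟩ := Cy.mem_sub D.B₂ (cst D.B₂ y) h02
    (by rw [aeval_cst]; exact (IsUnit.mk0 _ Cy.hdet).map _)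
    (by rw [aeval_cst]; exact (IsUnit.mk0 _ Cy.hH).map _)
  obtain ⟨ε₂', hε₂', hout2'⟩ := Cy.eq_of_close (u := y) (fun i hi => Cy.hΦ i hi y hy) Cy.hdet
  have h01 : ∀ i, i ∉ Ch.A →
      aeval (fun i => D.toB₁ (αA i) (hs i)) (Ch.Φ i) = 0 := by
    intro i hi
    apply Subtype.ext
    rw [Dat.coe_aeval₁]
    have h1 := congrArg D.ρ₁ (hvan _ (Ch.hΦ i hi))
    rw [hom_aeval, map_zero] at h1
    exact h1
  obtain ⟨ε₁, hε₁, hin1⟩ := Ch.mem_sub D.B₁ (fun i => D.toB₁ (αA i) (hs i)) h01 udet1 uH1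
  obtain ⟨ε₁', hε₁', hin1'⟩ := Ch.eq_of_close (u := v) (fun i hi => Ch.hΦ i hi v hv) Ch.hdet
  set ε : ℝ := min (min ε₂ ε₂') (min ε₁ ε₁') with hεdef
  have hε : 0 < ε := lt_min (lt_min hε₂ hε₂') (lt_min hε₁ hε₁')
  obtain ⟨M₀, hM₀⟩ := exists_package Fam hy Cy Ch D hs hco hvan uD hP uP uH udet hε
  obtain ⟨M₁, hM₁⟩ := exists_roots_in_annulus D hr cm hcm
  set M : ℕ := max (max M₀ M₁) 1 with hMdef
  have hM1 : 1 ≤ M := le_max_right _ _
  have hMM₀ : M₀ ≤ M := (le_max_left _ _).trans (le_max_left _ _)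
  have hMM₁ : M₁ ≤ M := (le_max_right _ _).trans (le_max_left _ _)
  obtain ⟨η, hη, F, hF, hFa⟩ := hM₀ M hMM₀
  -- the extension of the parameters by zero
  let ext : ({i // i ∈ Cy.A} → ℂ) →L[ℂ] (Fin (N + 1) → ℂ) :=
    ContinuousLinearMap.pi fun i =>
      if h : i ∈ Cy.A then ContinuousLinearMap.proj (R := ℂ) (φ := fun _ => ℂ)
        (⟨i, h⟩ : {i // i ∈ Cy.A}) else 0
  have ext_mem : ∀ a (i : {i // i ∈ Cy.A}), ext a i = a i := by
    intro a i
    show (if h : (i : Fin (N + 1)) ∈ Cy.A then ContinuousLinearMap.proj (R := ℂ)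
      (φ := fun _ => ℂ) (⟨i, h⟩ : {i // i ∈ Cy.A}) else 0) a = a i
    rw [dif_pos i.2]
    rfl
  have ext_nmem : ∀ a (i : Fin (N + 1)), i ∉ Cy.A → ext a i = 0 := by
    intro a i hi
    show (if h : i ∈ Cy.A then ContinuousLinearMap.proj (R := ℂ)
      (φ := fun _ => ℂ) (⟨i, h⟩ : {i // i ∈ Cy.A}) else 0) a = 0
    rw [dif_neg hi]
    rfl
  have hsmall : ∀ᶠ a in 𝓝 (0 : {i // i ∈ Cy.A} → ℂ), ‖ext a‖ < η := by
    have h1 : Continuous fun a => ‖ext a‖ := ext.continuous.norm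
    refine h1.continuousAt.eventually_lt continuousAt_const ?_
    rw [map_zero, norm_zero]
    exact hη
  -- the glued map
  let f : ({i // i ∈ Cy.A} → ℂ) → Fin (N + 1) → D.A := fun a => val (F (ext a)) 1 (D.lam M)
  have hfdef : ∀ a, f a = val (F (ext a)) 1 (D.lam M) := fun _ => rfl
  have hf : DifferentiableAt ℂ f 0 := by
    have h1 : DifferentiableAt ℂ (fun a => F (ext a)) 0 := by
      have h2 : DifferentiableAt ℂ F (ext 0) := by rw [map_zero]; exact hF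
      exact h2.comp 0 ext.differentiableAt
    rw [differentiableAt_pi]
    intro i
    show DifferentiableAt ℂ (fun a => ∑ j : Fin (d + 1), F (ext a) j i *
      ((1 : D.A) ^ (d - (j : ℕ)) * D.lam M ^ (j : ℕ))) 0
    refine DifferentiableAt.fun_sum fun j _ => ?_
    refine DifferentiableAt.mul_const ?_ _
    exact differentiableAt_pi.1 (differentiableAt_pi.1 h1 j) i
  -- values at characters
  have hchar : ∀ (χ : D.A →ₐ[ℂ] ℂ) a, (fun i => χ (f a i)) =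
      val (fun j i => χ (F (ext a) j i)) 1 (χ (D.lam M)) := by
    intro χ a
    funext i
    rw [hfdef, map_val, map_one]
  have ha0 : ∀ a (i : Fin (N + 1)), i ∉ Cy.A → ext a i = 0 := ext_nmem
  -- outside
  have hout : ∀ᶠ a in 𝓝 (0 : {i // i ∈ Cy.A} → ℂ), ∃ g : Fin (N + 1) → D.B₂,
      (∀ i, ((g i : D.B₂) : D.A₂) = D.ρ₂ (f a i)) ∧
      (∀ i, i ∉ Cy.A → aeval g (Cy.Φ i) = 0) ∧ IsUnit (aeval g Cy.H) ∧
      ∀ i : {i // i ∈ Cy.A}, (g i).1.co 0 = y i + a i := by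
    filter_upwards [hsmall] with a ha
    obtain ⟨-, b2, b3, -, b5, -⟩ := hFa (ext a) ha (ha0 a)
    obtain ⟨g, hg1, hg2, hg3, -⟩ := hout2 (fun i => D.ρ₂ (f a i))
      (fun i => by
        have h3 := norm_le_pi_norm ((fun i => D.ρ₂ (f a i)) - cst D.A₂ y) i
        exact (h3.trans_lt b5).trans_le ((min_le_left _ _).trans (min_le_left _ _)))
      (fun i hi => (b3 i hi).1)
      (fun i hi => by
        rw [← hom_aeval, (b2 _ (Cy.hΦ i hi)).1, map_zero])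
    refine ⟨g, hg1, hg2, hg3, fun i => ?_⟩
    rw [← ext_mem a i, ← (b3 i i.2).2, hg1, Dat.co_ρ₂]
  -- inside
  have hin : ∀ᶠ a in 𝓝 (0 : {i // i ∈ Cy.A} → ℂ), ∃ h : Fin (N + 1) → D.B₁,
      (∀ i, ((h i : D.B₁) : D.A₁) = D.ρ₁ (D.mu M ^ d * f a i)) ∧
      (∀ i, i ∉ Ch.A → aeval h (Ch.Φ i) = 0) ∧ IsUnit (aeval h Ch.H) ∧
      ∀ i, (h i).1.co 0 = v i := by
    filter_upwards [hsmall] with a ha
    obtain ⟨-, b2, -, b4, -, b6⟩ := hFa (ext a) ha (ha0 a)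
    set S1 : Fin (N + 1) → D.A₁ := fun i => D.ρ₁ (D.mu M ^ d * f a i) with hS1
    have hclose : ∀ i, ‖S1 i - D.ρ₁ (αA i)‖ < ε := fun i =>
      (norm_le_pi_norm (S1 - fun i => D.ρ₁ (αA i)) i).trans_lt b6
    obtain ⟨h, hh1, hh2, hh3, -⟩ := hin1 S1
      (fun i => (hclose i).trans_le ((min_le_right _ _).trans (min_le_left _ _)))
      (fun i hi => (b4 i hi).1)
      (fun i hi => by
        rw [hS1, ← hom_aeval]
        have h9 := (b2 _ (Ch.hΦ i hi)).2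
        rw [h9, map_zero])
    refine ⟨h, hh1, hh2, hh3, ?_⟩
    · have hco1 : (fun i => (S1 i).co 0) = v := by
        refine hin1' _ (fun i => ?_)
          (fun i hi => (D.co_ρ₁ (D.mu M ^ d * f a i) 0).trans (b4 i hi).2) (fun i hi => ?_)
        · have e1 : (S1 i).co 0 - v i = (S1 i - D.ρ₁ (αA i)).co 0 := by
            rw [W.co_sub, D.co_ρ₁ (αA i), hco]
          rw [e1]
          have h4 := W.norm_co_le (S1 i - D.ρ₁ (αA i)) 0
          rw [(Wt.rad D.r₁ D.h₁).zero, mul_one] at h4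
          exact h4.trans_lt ((hclose i).trans_le ((min_le_right _ _).trans (min_le_right _ _)))
        · have hz : ‖(0 : ℂ)‖ ≤ D.r₁ := by rw [norm_zero]; exact D.h₁.le
          have h6 := hom_aeval (D.ev₁ 0 hz) h (Ch.Φ i)
          rw [hh2 i hi, map_zero] at h6
          have e : (fun i => D.ev₁ 0 hz (h i)) = fun i => (S1 i).co 0 := by
            funext i
            rw [Dat.ev₁_zero, hh1]
          rw [e] at h6
          exact h6.symm
      intro i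
      rw [hh1]
      exact congrFun hco1 i
  -- annulus
  have hann : ∀ᶠ a in 𝓝 (0 : {i // i ∈ Cy.A} → ℂ), ∀ t : ℂ, D.r₁ ≤ ‖t‖ → ‖t‖ ≤ D.r₂ →
      (fun i => W.val t (f a i)) ∈ V := by
    filter_upwards [hsmall] with a ha t h1 h2
    obtain ⟨b1, -⟩ := hFa (ext a) ha (ha0 a)
    have h3 := (b1 (D.evA t h1 h2)).1 1 (D.evA t h1 h2 (D.lam M)) (Or.inl one_ne_zero)
    rw [← hchar] at h3
    exact h3
  -- at zero
  have hzero : ‖ext 0‖ < η := by rw [map_zero, norm_zero]; exact hη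
  have hmarks : ∀ l, ∃ t : ℂ, D.r₁ ≤ ‖t‖ ∧ ‖t‖ ≤ D.r₂ ∧ ∀ i, W.val t (f 0 i) = vs l i := by
    intro l
    obtain ⟨t, h1, h2, h3⟩ := hM₁ M hMM₁ hM1 l
    refine ⟨t, h1, h2, fun i => ?_⟩
    obtain ⟨b1, -⟩ := hFa (ext 0) hzero (ha0 0)
    have h4 := (b1 (D.evA t h1 h2)).2 l
    have h5 : D.evA t h1 h2 (D.lam M) = cm l := h3
    rw [← h5, ← hchar] at h4
    exact congrFun h4 i
  have hinf : (fun i => (f 0 i).co 0) = y := by
    obtain ⟨-, b2, b3, -, b5, -⟩ := hFa (ext 0) hzero (ha0 0)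
    set S2 : Fin (N + 1) → D.A₂ := fun i => D.ρ₂ (f 0 i) with hS2
    have hclose : ∀ i, ‖S2 i - cst D.A₂ y i‖ < ε := fun i =>
      (norm_le_pi_norm (S2 - cst D.A₂ y) i).trans_lt b5
    obtain ⟨g, hg1, hg2, -, -⟩ := hout2 S2
      (fun i => (hclose i).trans_le ((min_le_left _ _).trans (min_le_left _ _)))
      (fun i hi => (b3 i hi).1)
      (fun i hi => by
        rw [hS2, ← hom_aeval, (b2 _ (Cy.hΦ i hi)).1, map_zero])
    have hSf : ∀ i, (f 0 i).co 0 = (S2 i).co 0 := by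
      intro i
      rw [← D.co_ρ₂ (f 0 i) 0]
    have h7 : (fun i => (S2 i).co 0) = y := by
      refine hout2' _ (fun i => ?_) (fun i hi => ?_) (fun i hi => ?_)
      · have e1 : (S2 i).co 0 - y i = (S2 i - cst D.A₂ y i).co 0 := by
          rw [W.co_sub]
          congr 1
          have e2 : cst D.A₂ y i = (y i) • (1 : D.A₂) := Algebra.algebraMap_eq_smul_one _
          rw [e2, W.co_smul, W.co_one, if_pos rfl, mul_one]
        rw [e1]
        have h4 := W.norm_co_le (S2 i - cst D.A₂ y i) 0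
        rw [(Wt.rad D.r₂ D.h₂).zero, mul_one] at h4
        exact h4.trans_lt ((hclose i).trans_le ((min_le_left _ _).trans (min_le_right _ _)))
      · rw [← hSf, (b3 i hi).2, map_zero, Pi.zero_apply, add_zero]
      · have h6 := D.co_aeval₂ g (Cy.Φ i)
        rw [hg2 i hi] at h6
        have e : (fun i => ((g i : D.B₂) : D.A₂).co 0) = fun i => (S2 i).co 0 := by
          funext i
          rw [hg1]
        rw [e] at h6
        rw [← h6]
        exact W.co_zero 0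
    funext i
    rw [hSf]
    exact congrFun h7 i
  exact glue_end hV Ch Cy D hr hd hM1 hf hann hout hin hmarks (by rw [hinf]; exact Cy.hdet)

end Pool.Agent.VF
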