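import Pool.Agent.Lib_MP_1858fb_w.GlueW
import Pool.Agent.Lib_MP_1858fb_w.Defs2
import Pool.Agent.Lib_MP_1858fb_m.LaurW

/-!
# The analytic data as elements of the Wiener algebras

From the holomorphic arc `α` on a disc of radius `ρ > 1` and the holomorphic root `θ` on the
punctured disc: elements of the algebra of an annulus around the unit circle, with the units
which are needed in the implicit function theorem.
-/

set_option autoImplicit false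

noncomputable section

namespace Pool.Agent.VF.GlueW

open Pool.Agent.Lib_MP_1858fb_w
open Pool.Agent.Lib_MP_1858fb_w.W
open Pool.Agent.VF MvPolynomial

/-! ### Evaluations and polynomials -/

theorem hom_aeval {k R B σ : Type*} [CommSemiring k] [CommSemiring R] [CommSemiring B]
    [Algebra k R] [Algebra k B] (φ : R →ₐ[k] B) (x : σ → R) (E : MvPolynomial σ k) :
    φ (aeval x E) = aeval (fun i => φ (x i)) E :=
  (MvPolynomial.comp_aeval_apply (φ := φ) x E)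

theorem hom_evT {k : Type} [Field k] {N : ℕ} {R B : Type} [CommRing R] [CommRing B] [Algebra k R]
    [Algebra k B] (φ : R →ₐ[k] B) (w z : Fin (N + 1) → R) (θ : R)
    (P : Polynomial (MvPolynomial (Fin (N + 1) ⊕ Fin (N + 1)) k)) :
    φ (evT w z θ P) = evT (fun i => φ (w i)) (fun i => φ (z i)) (φ θ) P := by
  unfold evT
  have h := Polynomial.hom_eval₂ P
    ((aeval (Sum.elim w z) : MvPolynomial (Fin (N + 1) ⊕ Fin (N + 1)) k →ₐ[k] R) : _ →+* R)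
    (φ : R →+* B) θ
  have h2 : (φ : R →+* B).comp
      ((aeval (Sum.elim w z) : MvPolynomial (Fin (N + 1) ⊕ Fin (N + 1)) k →ₐ[k] R) :
        MvPolynomial (Fin (N + 1) ⊕ Fin (N + 1)) k →+* R) =
      ((aeval (Sum.elim (fun i => φ (w i)) (fun i => φ (z i))) :
        MvPolynomial (Fin (N + 1) ⊕ Fin (N + 1)) k →ₐ[k] B) :
        MvPolynomial (Fin (N + 1) ⊕ Fin (N + 1)) k →+* B) := by
    apply RingHom.ext
    intro E
    show φ (aeval (Sum.elim w z) E) =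
      aeval (Sum.elim (fun i => φ (w i)) (fun i => φ (z i))) E
    rw [hom_aeval]
    have e : (fun i => φ (Sum.elim w z i)) =
        Sum.elim (fun i => φ (w i)) (fun i => φ (z i)) := by
      funext s
      rcases s with s | s <;> rfl
    rw [e]
  rw [h2] at h
  exact h

theorem sumElim_comp {σ τ R B : Type*} (φ : R → B) (w : σ → R) (z : τ → R) :
    (fun s => φ (Sum.elim w z s)) = Sum.elim (fun i => φ (w i)) (fun i => φ (z i)) := by
  funext s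
  rcases s with s | s <;> rfl

/-! ### Holomorphic functions of one variable -/

theorem differentiableOn_aeval {σ : Type*} {U : Set ℂ} {x : ℂ → σ → ℂ}
    (hx : ∀ i, DifferentiableOn ℂ (fun t => x t i) U) (E : MvPolynomial σ ℂ) :
    DifferentiableOn ℂ (fun t => aeval (x t) E) U := by
  induction E using MvPolynomial.induction_on with
  | C a =>
    simp only [algHom_C]
    exact differentiableOn_const _
  | add p q hp hq =>
    simp only [map_add]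
    exact hp.add hq
  | mul_X p i hp =>
    simp only [map_mul, aeval_X]
    exact hp.mul (hx i)

theorem differentiableOn_evT {N : ℕ} {U : Set ℂ} {w z : ℂ → Fin (N + 1) → ℂ} {θ : ℂ → ℂ}
    (hw : ∀ i, DifferentiableOn ℂ (fun t => w t i) U)
    (hz : ∀ i, DifferentiableOn ℂ (fun t => z t i) U) (hθ : DifferentiableOn ℂ θ U)
    (P : Polynomial (MvPolynomial (Fin (N + 1) ⊕ Fin (N + 1)) ℂ)) :
    DifferentiableOn ℂ (fun t => evT (w t) (z t) (θ t) P) U := by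
  unfold evT
  simp only [Polynomial.eval₂_eq_sum_range]
  refine DifferentiableOn.fun_sum fun n _ => ?_
  refine DifferentiableOn.mul ?_ (hθ.pow n)
  refine differentiableOn_aeval (fun s => ?_) _
  rcases s with s | s
  · exact hw s
  · exact hz s

namespace Dat

variable (D : Dat)

theorem ann_le_max (k : ℤ) :
    (Wt.ann D.r₁ D.r₂ D.h₁ D.h₂).w k ≤ max (D.r₁ ^ k) (D.r₂ ^ k) := le_rfl

theorem rad_le_ann (k : ℤ) : D.r₁ ^ k ≤ (Wt.ann D.r₁ D.r₂ D.h₁ D.h₂).w k := le_max_left _ _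

/-- two elements of the annulus algebra with the same values on the inner circle are equal -/
theorem ext_circle {F G : D.A} (h : ∀ t : ℂ, ‖t‖ = D.r₁ → W.val t F = W.val t G) : F = G :=
  Pool.Agent.Lib_MP_1858fb_m.ext_val D.h₁ D.rad_le_ann h

/-- two elements of the annulus algebra with the same values on the annulus are equal -/
theorem ext_ann {F G : D.A} (h : ∀ t : ℂ, D.r₁ ≤ ‖t‖ → ‖t‖ ≤ D.r₂ → W.val t F = W.val t G) :
    F = G :=
  D.ext_circle fun t ht => h t ht.ge (ht.le.trans D.h12)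

theorem exists_disc {ρ : ℝ} (hρ : D.r₂ < ρ) {f : ℂ → ℂ}
    (hf : DifferentiableOn ℂ f (Metric.ball 0 ρ)) :
    ∃ F : D.A, Supp Sge F ∧ ∀ t : ℂ, ‖t‖ ≤ D.r₂ → W.val t F = f t := by
  obtain ⟨F, h1, -, h2⟩ := Pool.Agent.Lib_MP_1858fb_m.exists_of_disc
    (ω := Wt.ann D.r₁ D.r₂ D.h₁ D.h₂) hf D.h₂ hρ
    (fun k hk => (Wt.ann_nonneg D.h₁ D.h12 hk).le)
  exact ⟨F, h1, fun t ht => (h2 t ht).2⟩

theorem exists_ann {ρ : ℝ} (hρ : D.r₂ < ρ) {f : ℂ → ℂ}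
    (hf : DifferentiableOn ℂ f (Metric.ball 0 ρ \ {0})) :
    ∃ F : D.A, ∀ t : ℂ, D.r₁ ≤ ‖t‖ → ‖t‖ ≤ D.r₂ → W.val t F = f t := by
  have hf' : DifferentiableOn ℂ f (Pool.Agent.Lib_MP_1858fb_m.Ann 0 ρ) := by
    refine hf.mono fun t ht => ⟨?_, ?_⟩
    · rw [mem_ball_zero_iff]
      exact ht.2
    · intro h0
      have h1 : t = 0 := h0
      have h2 := ht.1
      rw [h1, norm_zero] at h2
      exact lt_irrefl _ h2
  obtain ⟨F, hF⟩ := Pool.Agent.Lib_MP_1858fb_m.exists_of_ann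
    (ω := Wt.ann D.r₁ D.r₂ D.h₁ D.h₂) le_rfl hf' D.h₁ D.h12 hρ D.ann_le_max
  exact ⟨F, fun t h1 h2 => (hF t ⟨D.h₁.trans_le h1, h2.trans_lt hρ⟩).2⟩

/-- an element whose values are those of a holomorphic function without zeros is a unit -/
theorem isUnit_ann {ρ : ℝ} (hρ : D.r₂ < ρ) {f : ℂ → ℂ}
    (hf : DifferentiableOn ℂ f (Metric.ball 0 ρ \ {0}))
    (hf0 : ∀ t ∈ Metric.ball (0 : ℂ) ρ, t ≠ 0 → f t ≠ 0) {F : D.A}
    (hF : ∀ t : ℂ, D.r₁ ≤ ‖t‖ → ‖t‖ ≤ D.r₂ → W.val t F = f t) : IsUnit F := by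
  obtain ⟨G, hG⟩ := D.exists_ann hρ (f := fun t => (f t)⁻¹)
    (hf.inv fun t ht => hf0 t ht.1 ht.2)
  refine IsUnit.of_mul_eq_one G (D.ext_ann fun t h1 h2 => ?_)
  have h3 : W.val t (F * G) = W.val t F * W.val t G := by
    rw [← D.evA_apply t h1 h2, map_mul]
    rfl
  have ht0 : t ≠ 0 := by
    rintro rfl
    rw [norm_zero] at h1
    exact absurd D.h₁ (not_lt.2 h1)
  rw [h3, hF t h1 h2, hG t h1 h2, val_one,
    mul_inv_cancel₀ (hf0 t (mem_ball_zero_iff.2 (h2.trans_lt hρ)) ht0)]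

/-- in the disc: the inverse has exponents `≥ 0` -/
theorem exists_inv_disc {ρ : ℝ} (hρ : D.r₂ < ρ) {f : ℂ → ℂ}
    (hf : DifferentiableOn ℂ f (Metric.ball 0 ρ))
    (hf0 : ∀ t ∈ Metric.ball (0 : ℂ) ρ, f t ≠ 0) {F : D.A}
    (hF : ∀ t : ℂ, D.r₁ ≤ ‖t‖ → ‖t‖ ≤ D.r₂ → W.val t F = f t) :
    ∃ G : D.A, Supp Sge G ∧ F * G = 1 := by
  obtain ⟨G, hG1, hG⟩ := D.exists_disc hρ (f := fun t => (f t)⁻¹) (hf.inv hf0)
  refine ⟨G, hG1, D.ext_ann fun t h1 h2 => ?_⟩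
  have h3 : W.val t (F * G) = W.val t F * W.val t G := by
    rw [← D.evA_apply t h1 h2, map_mul]
    rfl
  rw [h3, hF t h1 h2, hG t h2, val_one,
    mul_inv_cancel₀ (hf0 t (mem_ball_zero_iff.2 (h2.trans_lt hρ)))]

/-- the element of `B₁` given by an element of the annulus algebra with exponents `≥ 0` -/
def toB₁ (F : D.A) (hF : Supp Sge F) : D.B₁ := ⟨D.ρ₁ F, D.supp_ρ₁.2 hF⟩

/-- values in the closed annulus of a polynomial in elements of the annulus algebra -/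
theorem val_aeval {σ : Type*} (x : σ → D.A) (E : MvPolynomial σ ℂ) {t : ℂ} (h1 : D.r₁ ≤ ‖t‖)
    (h2 : ‖t‖ ≤ D.r₂) : W.val t (aeval x E) = aeval (fun i => W.val t (x i)) E :=
  hom_aeval (D.evA t h1 h2) x E

theorem val_evT {N : ℕ} (w z : Fin (N + 1) → D.A) (θ : D.A)
    (P : Polynomial (MvPolynomial (Fin (N + 1) ⊕ Fin (N + 1)) ℂ)) {t : ℂ} (h1 : D.r₁ ≤ ‖t‖)
    (h2 : ‖t‖ ≤ D.r₂) :
    W.val t (evT w z θ P) = evT (fun i => W.val t (w i)) (fun i => W.val t (z i)) (W.val t θ) P :=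
  hom_evT (D.evA t h1 h2) w z θ P

theorem val_aeval₁ {σ : Type*} (x : σ → D.B₁) (E : MvPolynomial σ ℂ) {t : ℂ} (h1 : ‖t‖ ≤ D.r₁) :
    W.val t (aeval x E : D.B₁).1 = aeval (fun i => W.val t (x i).1) E :=
  hom_aeval (D.ev₁ t h1) x E

theorem val_aeval₂ {σ : Type*} (x : σ → D.B₂) (E : MvPolynomial σ ℂ) {t : ℂ} (h2 : D.r₂ ≤ ‖t‖) :
    W.val t (aeval x E : D.B₂).1 = aeval (fun i => W.val t (x i).1) E :=
  hom_aeval (D.ev₂ t h2) x E

theorem co_aeval₂ {σ : Type*} (x : σ → D.B₂) (E : MvPolynomial σ ℂ) :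
    (aeval x E : D.B₂).1.co 0 = aeval (fun i => (x i).1.co 0) E :=
  hom_aeval D.evInf x E

theorem coe_aeval₁ {σ : Type*} (x : σ → D.B₁) (E : MvPolynomial σ ℂ) :
    ((aeval x E : D.B₁) : D.A₁) = aeval (fun i => ((x i : D.B₁) : D.A₁)) E :=
  hom_aeval D.B₁.val x E

theorem coe_aeval₂ {σ : Type*} (x : σ → D.B₂) (E : MvPolynomial σ ℂ) :
    ((aeval x E : D.B₂) : D.A₂) = aeval (fun i => ((x i : D.B₂) : D.A₂)) E :=
  hom_aeval D.B₂.val x E

theorem val_C {t : ℂ} (h1 : D.r₁ ≤ ‖t‖) (h2 : ‖t‖ ≤ D.r₂) (c : ℂ) :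
    W.val t (algebraMap ℂ D.A c) = c := (D.evA t h1 h2).commutes c

/-- a polynomial in an arc of the disc without zeros gives a unit of `B₁` -/
theorem isUnit_B₁ {σ : Type*} {ρ : ℝ} (hρ : D.r₂ < ρ) {x : ℂ → σ → ℂ}
    (hx : ∀ i, DifferentiableOn ℂ (fun t => x t i) (Metric.ball 0 ρ)) (X : σ → D.A)
    (hX : ∀ i, Supp Sge (X i)) (hXx : ∀ i t, ‖t‖ ≤ D.r₂ → W.val t (X i) = x t i)
    (E : MvPolynomial σ ℂ) (hE : ∀ t ∈ Metric.ball (0 : ℂ) ρ, aeval (x t) E ≠ 0) :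
    IsUnit (aeval (fun i => D.toB₁ (X i) (hX i)) E : D.B₁) ∧ IsUnit (aeval X E) := by
  obtain ⟨G, hG1, hG2⟩ := D.exists_inv_disc hρ (differentiableOn_aeval hx E) hE
    (F := aeval X E) (fun t h1 h2 => by
      rw [D.val_aeval X E h1 h2]
      simp only [hXx _ t h2])
  refine ⟨IsUnit.of_mul_eq_one (D.toB₁ G hG1) ?_, IsUnit.of_mul_eq_one G hG2⟩
  apply Subtype.ext
  have h1 : ((aeval (fun i => D.toB₁ (X i) (hX i)) E : D.B₁) : D.A₁) = D.ρ₁ (aeval X E) := by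
    rw [coe_aeval₁, hom_aeval]
    rfl
  show ((aeval (fun i => D.toB₁ (X i) (hX i)) E : D.B₁) : D.A₁) * D.ρ₁ G = 1
  rw [h1, ← map_mul, hG2, map_one]

end Dat

/-- **The Banach data of the gluing.** -/
theorem exists_data {N m d c : ℕ} {V : Set (Fin (N + 1) → ℂ)} {cm : Fin m → ℂ}
    {vs : Fin m → Fin (N + 1) → ℂ} (Fam : Family V cm vs d) {v y : Fin (N + 1) → ℂ}
    (hy : y ∈ V) (Ch : Chart c V v)
    {ρ : ℝ} {α : ℂ → Fin (N + 1) → ℂ} {θ : ℂ → ℂ} (hρ : 1 < ρ)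
    (hα : ∀ i, DifferentiableOn ℂ (fun τ => α τ i) (Metric.ball 0 ρ)) (hα0 : α 0 = v)
    (hαV : ∀ τ ∈ Metric.ball (0 : ℂ) ρ, α τ ∈ V ∧ aeval (α τ) Ch.H ≠ 0 ∧
        aeval (α τ) (Matrix.det (Matrix.of fun i j => pderiv j (Ch.Φ i))) ≠ 0)
    (hθ : DifferentiableOn ℂ θ (Metric.ball 0 ρ \ {0}))
    (hroot : ∀ τ ∈ Metric.ball (0 : ℂ) ρ, τ ≠ 0 →
        aeval (Sum.elim y (α τ)) Fam.D ≠ 0 ∧ evT y (α τ) (θ τ) Fam.P = 0) :
    ∃ (D : Dat) (αA : Fin (N + 1) → D.A) (θA : D.A) (hs : ∀ i, Supp Sge (αA i)),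
      D.r = 1 ∧ D.r₂ < ρ ∧
      (∀ i t, ‖t‖ ≤ D.r₂ → W.val t (αA i) = α t i) ∧
      (∀ i, (αA i).co 0 = v i) ∧
      (∀ t, D.r₁ ≤ ‖t‖ → ‖t‖ ≤ D.r₂ → W.val t θA = θ t) ∧
      (∀ E ∈ van V, aeval αA E = 0) ∧
      IsUnit (aeval (Sum.elim (fun i => algebraMap ℂ D.A (y i)) αA) Fam.D) ∧
      evT (fun i => algebraMap ℂ D.A (y i)) αA θA Fam.P = 0 ∧
      IsUnit (evT (fun i => algebraMap ℂ D.A (y i)) αA θA (Polynomial.derivative Fam.P)) ∧
      IsUnit (aeval αA Ch.H) ∧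
      IsUnit (aeval αA (Matrix.det (Matrix.of fun i j => pderiv j (Ch.Φ i)))) ∧
      IsUnit (aeval (fun i => D.toB₁ (αA i) (hs i)) Ch.H : D.B₁) ∧
      IsUnit (aeval (fun i => D.toB₁ (αA i) (hs i))
        (Matrix.det (Matrix.of fun i j => pderiv j (Ch.Φ i))) : D.B₁) := by
  have e2 : ‖(1 / 2 : ℂ)‖ = 1 / 2 := by
    rw [norm_div, norm_one, Complex.norm_ofNat]
  let D : Dat :=
    { r₁ := 1 / 2
      r := 1
      r₂ := (1 + ρ) / 2
      h₁ := by norm_num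
      h₁r := by norm_num
      hr₂ := by linarith
      t₁ := 1 / 2
      t₁0 := by norm_num
      t₁r := e2.le }
  have hDρ : D.r₂ < ρ := by
    show (1 + ρ) / 2 < ρ
    linarith
  choose αA hs hv using fun i => D.exists_disc hDρ (hα i)
  obtain ⟨θA, hθA⟩ := D.exists_ann hDρ hθ
  have hαd : ∀ i, DifferentiableOn ℂ (fun τ => α τ i) (Metric.ball 0 ρ \ {0}) := fun i =>
    (hα i).mono Set.sdiff_subset
  have hyd : ∀ i : Fin (N + 1), DifferentiableOn ℂ (fun _ : ℂ => y i) (Metric.ball 0 ρ \ {0}) :=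
    fun i => differentiableOn_const _
  have hball : ∀ t : ℂ, ‖t‖ ≤ D.r₂ → t ∈ Metric.ball (0 : ℂ) ρ := fun t ht =>
    mem_ball_zero_iff.2 (ht.trans_lt hDρ)
  have hne : ∀ t : ℂ, D.r₁ ≤ ‖t‖ → t ≠ 0 := by
    rintro t h1 rfl
    rw [norm_zero] at h1
    exact absurd D.h₁ (not_lt.2 h1)
  have hvA : ∀ t : ℂ, ‖t‖ ≤ D.r₂ → (fun i => W.val t (αA i)) = α t := fun t ht =>
    funext fun i => hv i t ht
  have hvy : ∀ t : ℂ, D.r₁ ≤ ‖t‖ → ‖t‖ ≤ D.r₂ →
      (fun i => W.val t (algebraMap ℂ D.A (y i))) = y := fun t h1 h2 =>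
    funext fun i => D.val_C h1 h2 (y i)
  have hvs : ∀ t : ℂ, D.r₁ ≤ ‖t‖ → ‖t‖ ≤ D.r₂ →
      (fun s => W.val t (Sum.elim (fun i => algebraMap ℂ D.A (y i)) αA s)) = Sum.elim y (α t) := by
    intro t h1 h2
    rw [sumElim_comp, hvA t h2, hvy t h1 h2]
  have hH := D.isUnit_B₁ hDρ hα αA hs hv Ch.H (fun t ht => (hαV t ht).2.1)
  have hJ := D.isUnit_B₁ hDρ hα αA hs hv
    (Matrix.det (Matrix.of fun i j => pderiv j (Ch.Φ i))) (fun t ht => (hαV t ht).2.2)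
  refine ⟨D, αA, θA, hs, rfl, hDρ, hv, ?_, hθA, ?_, ?_, ?_, ?_, hH.2, hJ.2, hH.1, hJ.1⟩
  · intro i
    rw [← Dat.val_zero_eq (hs i), hv i 0 (by rw [norm_zero]; exact D.h₂.le), hα0]
  · intro E hE
    refine D.ext_ann fun t h1 h2 => ?_
    rw [D.val_aeval αA E h1 h2, hvA t h2, hE _ (hαV t (hball t h2)).1]
    exact (map_zero (D.evA t h1 h2)).symm
  · refine D.isUnit_ann hDρ (f := fun t => aeval (Sum.elim y (α t)) Fam.D)
      (differentiableOn_aeval (x := fun t => Sum.elim y (α t)) (fun s => ?_) Fam.D)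
      (fun t ht h0 => (hroot t ht h0).1) (fun t h1 h2 => ?_)
    · rcases s with s | s
      · exact hyd s
      · exact hαd s
    · rw [D.val_aeval _ _ h1 h2, hvs t h1 h2]
  · refine D.ext_ann fun t h1 h2 => ?_
    rw [D.val_evT _ _ _ _ h1 h2, hvA t h2, hvy t h1 h2, hθA t h1 h2,
      (hroot t (hball t h2) (hne t h1)).2]
    exact (map_zero (D.evA t h1 h2)).symm
  · refine D.isUnit_ann hDρ (f := fun t => evT y (α t) (θ t) (Polynomial.derivative Fam.P))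
      (differentiableOn_evT hyd hαd hθ _) (fun t ht h0 => ?_) (fun t h1 h2 => ?_)
    · refine Fam.simple y hy (α t) (hαV t ht).1 _ (θ t)
        (mul_inv_cancel₀ (hroot t ht h0).1) (hroot t ht h0).2
    · rw [D.val_evT _ _ _ _ h1 h2, hvA t h2, hvy t h1 h2, hθA t h1 h2]

end Pool.Agent.VF.GlueW
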