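import Pool.Agent.Lib_MP_1858fb_w.Glue1
import Pool.Agent.Lib_MP_1858fb_w.GlueMem
import Pool.Agent.Lib_MP_1858fb_w.FixPt

/-!
The fixed point of the gluing, in the differentiable form.
-/

set_option autoImplicit false

noncomputable section

namespace Pool.Agent.VF.GlueW

open Pool.Agent.Lib_MP_1858fb_w
open Pool.Agent.Lib_MP_1858fb_w.W
open Pool.Agent.VF MvPolynomial Filter Topology

namespace Dat

variable (D : Dat)

/-- the part with powers `≤ 0` of a function on the inner circle, on the annulus -/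
def P₁ : D.A₁ →L[ℂ] D.A := lift Sle (fun _ hk => D.w_le hk)

theorem co_P₁ (f : D.A₁) (k : ℤ) : (D.P₁ f).co k = Sle.indicator f.co k := co_lift _ _ _ _

theorem sub_P₁_supp (f : D.A₁) : Supp Sgt (f - D.ρ₁ (D.P₁ f)) := by
  intro k hk
  have hk' : k ∈ Sle := by
    have h : ¬ (0 < k) := hk
    exact not_lt.1 h
  rw [co_sub, co_ρ₁, co_P₁, Set.indicator_of_mem hk', sub_self]

/-- restriction to the outer circle as a continuous linear map -/
def R₂ : D.A →L[ℂ] D.A₂ :=
  LinearMap.mkContinuous D.ρ₂.toLinearMap 1 (fun f => by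
    rw [one_mul]; exact D.norm_ρ₂_le f)

/-- restriction to the inner circle as a continuous linear map -/
def R₁ : D.A →L[ℂ] D.A₁ :=
  LinearMap.mkContinuous D.ρ₁.toLinearMap 1 (fun f => by
    rw [one_mul]; exact D.norm_ρ₁_le f)

theorem R₂_apply (f : D.A) : D.R₂ f = D.ρ₂ f := rfl
theorem R₁_apply (f : D.A) : D.R₁ f = D.ρ₁ f := rfl

end Dat

variable {N d : ℕ}

/-- values of forms are as smooth as the coefficients and the parameters -/
theorem contDiffAt_val {X : Type*} [NormedAddCommGroup X] [NormedSpace ℂ X] {R : Type}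
    [NormedCommRing R] [NormedAlgebra ℂ R] {F : X → Fin (d + 1) → Fin (N + 1) → R}
    {p q : X → R} {x : X} {n : WithTop ℕ∞} (hF : ContDiffAt ℂ n F x) (hp : ContDiffAt ℂ n p x)
    (hq : ContDiffAt ℂ n q x) : ContDiffAt ℂ n (fun x => val (F x) (p x) (q x)) x := by
  rw [contDiffAt_pi]
  intro i
  unfold val
  refine ContDiffAt.sum fun j _ => ?_
  have h1 : ContDiffAt ℂ n (fun x => F x j i) x := (contDiffAt_pi.1 ((contDiffAt_pi.1 hF) j)) i
  exact h1.mul ((hp.pow _).mul (hq.pow _))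

theorem val_one_zero {κ R : Type} [CommSemiring R] (F : Fin (d + 1) → κ → R) :
    val F 1 0 = F 0 := by
  funext i
  unfold val
  rw [Finset.sum_eq_single 0]
  · simp
  · intro j _ hj
    have : (j : ℕ) ≠ 0 := fun h => hj (Fin.ext h)
    simp [this]
  · intro h
    exact absurd (Finset.mem_univ _) h

theorem val_zero_one {κ R : Type} [CommSemiring R] (F : Fin (d + 1) → κ → R) :
    val F 0 1 = F (Fin.last d) := by
  funext i
  unfold val
  rw [Finset.sum_eq_single (Fin.last d)]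
  · simp
  · intro j _ hj
    have h1 : (j : ℕ) < d := by
      have h2 := j.2
      have h3 : (j : ℕ) ≠ d := fun h => hj (Fin.ext h)
      omega
    have : d - (j : ℕ) ≠ 0 := by omega
    simp [this]
  · intro h
    exact absurd (Finset.mem_univ _) h

/-- the space of the unknowns -/
abbrev UE (D : Dat) (N : ℕ) : Type := (Fin (N + 1) → D.A) × (Fin (N + 1) → D.A)

/-- the space of the parameters -/
abbrev PE (D : Dat) (N : ℕ) : Type := (Fin (N + 1) → ℂ) × D.A₂ × D.A₁

/-- the constants of the annulus algebra -/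
def cstL (D : Dat) : ℂ →L[ℂ] D.A :=
  (ContinuousLinearMap.id ℂ ℂ).smulRight (1 : D.A)

theorem cstL_apply (D : Dat) (c : ℂ) : cstL D c = algebraMap ℂ D.A c := by
  rw [Algebra.algebraMap_eq_smul_one]
  rfl

/-- the map whose fixed points solve the gluing problem -/
def Tmap (D : Dat) (A A' : Finset (Fin (N + 1)))
    (Fc : UE D N → Fin (d + 1) → Fin (N + 1) → D.A) (z : UE D N × PE D N) : UE D N :=
  (fun i => if i ∈ A then cstL D (z.2.1 i) -
      D.Q₂ (val (fun j i => D.R₂ (Fc z.1 j i)) 1 z.2.2.1 i - D.R₂ (Fc z.1 0 i)) else 0,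
    fun i => if i ∈ A' then -
      D.P₁ (val (fun j i => D.R₁ (Fc z.1 j i)) z.2.2.2 1 i - D.R₁ (Fc z.1 (Fin.last d) i))
      else 0)

theorem Tmap_zero (D : Dat) (A A' : Finset (Fin (N + 1)))
    (Fc : UE D N → Fin (d + 1) → Fin (N + 1) → D.A) (x : UE D N) :
    Tmap D A A' Fc (x, 0) = 0 := by
  unfold Tmap
  ext i
  · simp only [Prod.fst_zero, Prod.snd_zero, val_one_zero, sub_self, map_zero, Pi.zero_apply,
      ite_self]
  · simp only [Prod.snd_zero, val_zero_one, sub_self, map_zero, neg_zero,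
      Pi.zero_apply, ite_self]

theorem contDiffAt_Tmap (D : Dat) (A A' : Finset (Fin (N + 1)))
    {Fc : UE D N → Fin (d + 1) → Fin (N + 1) → D.A} {n : WithTop ℕ∞}
    {z : UE D N × PE D N} (hF : ContDiffAt ℂ n Fc z.1) :
    ContDiffAt ℂ n (Tmap D A A' Fc) z := by
  have hF1 : ContDiffAt ℂ n (fun z : UE D N × PE D N => Fc z.1) z :=
    hF.comp z contDiffAt_fst
  have hR2 : ContDiffAt ℂ n
      (fun z : UE D N × PE D N => (fun (j : Fin (d + 1)) (i : Fin (N + 1)) =>
        D.R₂ (Fc z.1 j i))) z := by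
    rw [contDiffAt_pi]
    intro j
    rw [contDiffAt_pi]
    intro i
    exact (D.R₂.contDiff.contDiffAt).comp z ((contDiffAt_pi.1 ((contDiffAt_pi.1 hF1) j)) i)
  have hR1 : ContDiffAt ℂ n
      (fun z : UE D N × PE D N => (fun (j : Fin (d + 1)) (i : Fin (N + 1)) =>
        D.R₁ (Fc z.1 j i))) z := by
    rw [contDiffAt_pi]
    intro j
    rw [contDiffAt_pi]
    intro i
    exact (D.R₁.contDiff.contDiffAt).comp z ((contDiffAt_pi.1 ((contDiffAt_pi.1 hF1) j)) i)
  have h2 : ContDiffAt ℂ n (fun z : UE D N × PE D N => z.2.2.1) z :=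
    contDiffAt_fst.comp z (contDiffAt_snd.comp z contDiffAt_snd)
  have h3 : ContDiffAt ℂ n (fun z : UE D N × PE D N => z.2.2.2) z :=
    contDiffAt_snd.comp z (contDiffAt_snd.comp z contDiffAt_snd)
  have h1 : ContDiffAt ℂ n (fun z : UE D N × PE D N => z.2.1) z :=
    contDiffAt_fst.comp z contDiffAt_snd
  have hv2 := contDiffAt_val hR2 (contDiffAt_const (c := (1 : D.A₂))) h2
  have hv1 := contDiffAt_val hR1 h3 (contDiffAt_const (c := (1 : D.A₁)))
  unfold Tmap
  refine ContDiffAt.prodMk ?_ ?_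
  · rw [contDiffAt_pi]
    intro i
    by_cases hi : i ∈ A
    · simp only [hi, if_true]
      refine ContDiffAt.sub ?_ ?_
      · exact ((cstL D).contDiff.contDiffAt).comp z ((contDiffAt_pi.1 h1) i)
      · exact (D.Q₂.contDiff.contDiffAt).comp z
          (((contDiffAt_pi.1 hv2) i).sub ((contDiffAt_pi.1 ((contDiffAt_pi.1 hR2) 0)) i))
    · simp only [hi, if_false]
      exact contDiffAt_const
  · rw [contDiffAt_pi]
    intro i
    by_cases hi : i ∈ A'
    · simp only [hi, if_true]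
      refine ContDiffAt.neg ?_
      exact (D.P₁.contDiff.contDiffAt).comp z
          (((contDiffAt_pi.1 hv1) i).sub
            ((contDiffAt_pi.1 ((contDiffAt_pi.1 hR1) (Fin.last d))) i))
    · simp only [hi, if_false]
      exact contDiffAt_const

/-- **the fixed point of the gluing** -/
theorem exists_fix (D : Dat) (A A' : Finset (Fin (N + 1)))
    {Fc : UE D N → Fin (d + 1) → Fin (N + 1) → D.A} (hF : ContDiffAt ℂ 1 Fc 0) :
    ∃ φ : PE D N → UE D N, φ 0 = 0 ∧ (∀ᶠ p in 𝓝 0, ContDiffAt ℂ 1 φ p) ∧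
      ∀ᶠ p in 𝓝 0, Tmap D A A' Fc (φ p, p) = φ p := by
  have hT : ContDiffAt ℂ 1 (Tmap D A A' Fc) ((0 : UE D N), (0 : PE D N)) :=
    contDiffAt_Tmap D A A' hF
  have hT' : ∀ x : UE D N, fderiv ℂ (Tmap D A A' Fc) ((0 : UE D N), (0 : PE D N)) (x, 0) = 0 := by
    intro x
    have h1 : HasFDerivAt (Tmap D A A' Fc)
        (fderiv ℂ (Tmap D A A' Fc) ((0 : UE D N), (0 : PE D N)))
        (ContinuousLinearMap.inl ℂ (UE D N) (PE D N) 0) := by
      have h0 : ContinuousLinearMap.inl ℂ (UE D N) (PE D N) 0 = (0, 0) := rfl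
      rw [h0]
      exact (hT.differentiableAt one_ne_zero).hasFDerivAt
    have h2 := h1.comp 0 (ContinuousLinearMap.inl ℂ (UE D N) (PE D N)).hasFDerivAt
    have h3 : (Tmap D A A' Fc) ∘ (ContinuousLinearMap.inl ℂ (UE D N) (PE D N)) =
        fun _ => 0 := by
      funext u
      exact Tmap_zero D A A' Fc u
    have h4 : HasFDerivAt ((Tmap D A A' Fc) ∘ (ContinuousLinearMap.inl ℂ (UE D N) (PE D N)))
        (0 : UE D N →L[ℂ] UE D N) 0 := by
      rw [h3]
      exact hasFDerivAt_const _ _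
    have h5 := h2.unique h4
    have h6 := congrArg (fun L : UE D N →L[ℂ] UE D N => L x) h5
    simpa using h6
  obtain ⟨φ, h0, hc, hfix, -, -⟩ := fixPt_contDiffAt (𝕜 := ℂ) one_ne_zero hT
    (Tmap_zero D A A' Fc 0) hT'
  exact ⟨φ, h0, hc.eventually (by simp), hfix⟩

end Pool.Agent.VF.GlueW
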