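import Pool.Agent.Lib_MP_1858fb_w.GlueC2

/-!
The gluing, differentiable form: the package in the form used by the assembly.
-/

set_option autoImplicit false

noncomputable section

namespace Pool.Agent.VF.GlueW

open Pool.Agent.Lib_MP_1858fb_w
open Pool.Agent.Lib_MP_1858fb_w.W
open Pool.Agent.VF MvPolynomial Filter Topology

theorem glueC1 (D : Dat) (_hr : D.r = 1) {N c d m : ℕ} {V : Set (Fin (N + 1) → ℂ)}
    {cm : Fin m → ℂ} {vs : Fin m → Fin (N + 1) → ℂ} (Fam : Family V cm vs d)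
    {v y : Fin (N + 1) → ℂ} (_hv : v ∈ V) (hy : y ∈ V) (Ch : Chart c V v) (Cy : Chart c V y)
    (αA : Fin (N + 1) → D.A) (θA : D.A) (hs : ∀ i, W.Supp Sge (αA i))
    (hco : ∀ i, (αA i).co 0 = v i) (hvan : ∀ E ∈ van V, aeval αA E = 0)
    (uD : IsUnit (aeval (Sum.elim (fun i => algebraMap ℂ D.A (y i)) αA) Fam.D))
    (hP : evT (fun i => algebraMap ℂ D.A (y i)) αA θA Fam.P = 0)
    (uP : IsUnit (evT (fun i => algebraMap ℂ D.A (y i)) αA θA (Polynomial.derivative Fam.P)))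
    (uH : IsUnit (aeval αA Ch.H))
    (udet : IsUnit (aeval αA (Matrix.det (Matrix.of fun i j => pderiv j (Ch.Φ i)))))
    {ε : ℝ} (hε : 0 < ε) :
    ∃ M₀ : ℕ, ∀ M ≥ M₀, ∃ η > 0, ∃ F : (Fin (N + 1) → ℂ) → Fin (d + 1) → Fin (N + 1) → D.A,
      DifferentiableAt ℂ F 0 ∧ ∀ a : Fin (N + 1) → ℂ, ‖a‖ < η → (∀ i, i ∉ Cy.A → a i = 0) →
      (∀ χ : D.A →ₐ[ℂ] ℂ, IsCurve V (fun j i => χ (F a j i)) ∧
        ∀ l, VF.val (fun j i => χ (F a j i)) 1 (cm l) = vs l) ∧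
      (∀ i, i ∈ Cy.A → VF.val (fun j i => D.ρ₂ (F a j i)) 1 (D.ρ₂ (D.lam M)) i ∈ D.B₂ ∧
        (VF.val (fun j i => D.ρ₂ (F a j i)) 1 (D.ρ₂ (D.lam M)) i).co 0 = y i + a i) ∧
      (∀ i, i ∉ Cy.A →
        aeval (VF.val (fun j i => D.ρ₂ (F a j i)) 1 (D.ρ₂ (D.lam M))) (Cy.Φ i) = 0) ∧
      ‖VF.val (fun j i => D.ρ₂ (F a j i)) 1 (D.ρ₂ (D.lam M)) - cst D.A₂ y‖ < ε ∧
      (∀ i, i ∈ Ch.A → VF.val (fun j i => D.ρ₁ (F a j i)) (D.ρ₁ (D.mu M)) 1 i ∈ D.B₁ ∧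
        (VF.val (fun j i => D.ρ₁ (F a j i)) (D.ρ₁ (D.mu M)) 1 i).co 0 = v i) ∧
      (∀ i, i ∉ Ch.A →
        aeval (VF.val (fun j i => D.ρ₁ (F a j i)) (D.ρ₁ (D.mu M)) 1) (Ch.Φ i) = 0) ∧
      ‖VF.val (fun j i => D.ρ₁ (F a j i)) (D.ρ₁ (D.mu M)) 1 - fun i => D.ρ₁ (αA i)‖ < ε := by
  obtain ⟨M₀, hM₀⟩ := exists_package Fam hy Cy Ch D hs hco hvan uD hP uP uH udet hε
  refine ⟨M₀, fun M hM => ?_⟩
  obtain ⟨η, hη, F, hF, hall⟩ := hM₀ M hM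
  refine ⟨η, hη, F, hF, fun a ha ha0 => ?_⟩
  obtain ⟨h1, h2, h3, h4, h5, h6⟩ := hall a ha ha0
  have e2 : VF.val (fun j i => D.ρ₂ (F a j i)) 1 (D.ρ₂ (D.lam M)) =
      fun i => D.ρ₂ (VF.val (F a) 1 (D.lam M) i) := by
    funext i
    rw [map_val, map_one]
  have e1 : VF.val (fun j i => D.ρ₁ (F a j i)) (D.ρ₁ (D.mu M)) 1 =
      fun i => D.ρ₁ (D.mu M ^ d * VF.val (F a) 1 (D.lam M) i) := by
    funext i
    rw [mu_pow_mul_val (D.lam_mul_mu M), map_val, map_one]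
  refine ⟨h1, ?_, ?_, ?_, ?_, ?_, ?_⟩
  · intro i hi
    rw [congrFun e2 i]
    refine ⟨(h3 i hi).1, ?_⟩
    rw [D.co_ρ₂]
    exact (h3 i hi).2
  · intro i hi
    rw [e2, ← map_aeval, (h2 _ (Cy.hΦ i hi)).1, map_zero]
  · rw [e2]
    exact h5
  · intro i hi
    rw [congrFun e1 i]
    refine ⟨(h4 i hi).1, ?_⟩
    rw [D.co_ρ₁]
    exact (h4 i hi).2
  · intro i hi
    rw [e1, ← map_aeval, (h2 _ (Ch.hΦ i hi)).2, map_zero]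
  · rw [e1]
    exact h6

end Pool.Agent.VF.GlueW
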