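import Pool.Agent.Lib_MP_1858fb_w.Glue1
import Pool.Agent.Lib_MP_1858fb_w.GlueMem

/-!
# Inside and outside: charts in closed subalgebras

`R` a complete commutative algebra, `B` a complete subalgebra, `x0` a tuple of elements of `B`
on a chart. A tuple of `R` near `x0` which satisfies the equations of the chart and whose free
coordinates belong to `B` has all its coordinates in `B`.
-/

set_option autoImplicit false

namespace Pool.Agent.VF

open MvPolynomial Filter Topology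

section general

variable {R : Type} [NormedCommRing R] [NormedAlgebra ℂ R] [CompleteSpace R]
variable {σ : Type} [Fintype σ] [DecidableEq σ]

omit [CompleteSpace R] in
theorem coe_aeval_sub (B : Subalgebra ℂ R) {τ : Type} (x : τ → B) (E : MvPolynomial τ ℂ) :
    ((aeval x E : B) : R) = aeval (fun i => (x i : R)) E :=
  GlueW.hom_aeval B.val x E

/-- A tuple near `x0` whose values under `Φ` belong to `B` belongs to `B`. -/
theorem mem_of_values (B : Subalgebra ℂ R) [CompleteSpace B] (Φ : σ → MvPolynomial σ ℂ)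
    (x0 : σ → B) (hJ : IsUnit (Matrix.of fun i j => aeval x0 (pderiv j (Φ i))).det) :
    ∃ ε > 0, ∀ x : σ → R, ‖x - (fun i => (x0 i : R))‖ < ε →
      ∀ q : σ → B, (∀ i, aeval x (Φ i) = aeval (fun i => (x0 i : R)) (Φ i) + (q i : R)) →
      ‖q‖ < ε → ∃ x' : σ → B, ∀ i, (x' i : R) = x i := by
  obtain ⟨ψ, ε₁, δ₁, L₁, hε₁, hδ₁, hL₁, hψ0, hψ, -, hψL⟩ := inv_chart Φ x0 hJ
  have hJR : IsUnit (Matrix.of fun i j =>
      aeval (fun i => (x0 i : R)) (pderiv j (Φ i))).det := by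
    have h1 := hJ.map B.val
    rw [AlgHom.map_det] at h1
    convert h1 using 2
    ext i j
    simp only [Matrix.of_apply, AlgHom.mapMatrix_apply, Matrix.map_apply]
    exact (coe_aeval_sub B x0 _).symm
  obtain ⟨φ, ε₂, δ₂, L₂, hε₂, hδ₂, hL₂, hφ0, hφ, hφu, -⟩ :=
    inv_chart Φ (fun i => (x0 i : R)) hJR
  refine ⟨min ε₂ (min δ₁ (min δ₂ (ε₂ / (L₁ + 1)))), ?_, ?_⟩
  · refine lt_min hε₂ (lt_min hδ₁ (lt_min hδ₂ (div_pos hε₂ (by linarith))))
  intro x hx q hq hqn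
  have hx2 : ‖x - (fun i => (x0 i : R))‖ < ε₂ := hx.trans_le (min_le_left _ _)
  have hq1 : ‖q‖ < δ₁ := hqn.trans_le ((min_le_right _ _).trans (min_le_left _ _))
  have hq2 : ‖q‖ < δ₂ := hqn.trans_le
    ((min_le_right _ _).trans ((min_le_right _ _).trans (min_le_left _ _)))
  have hq3 : ‖q‖ < ε₂ / (L₁ + 1) := hqn.trans_le
    ((min_le_right _ _).trans ((min_le_right _ _).trans (min_le_right _ _)))
  set qR : σ → R := fun i => (q i : R) with hqR
  have hqRn : ‖qR‖ = ‖q‖ := by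
    apply le_antisymm
    · rw [pi_norm_le_iff_of_nonneg (norm_nonneg _)]
      intro i
      exact norm_le_pi_norm q i
    · rw [pi_norm_le_iff_of_nonneg (norm_nonneg _)]
      intro i
      exact norm_le_pi_norm qR i
  have e1 : x = φ qR := hφu qR x (by rw [hqRn]; exact hq2) hx2 hq
  have hs := (hψ q hq1).2.1
  have hd : ‖ψ q - x0‖ ≤ L₁ * ‖q‖ := by
    have := hψL q 0 hq1 (by rw [norm_zero]; exact hδ₁)
    rwa [hψ0, sub_zero] at this
  have hd2 : ‖ψ q - x0‖ < ε₂ := by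
    refine hd.trans_lt ?_
    have h1 : L₁ * ‖q‖ ≤ (L₁ + 1) * ‖q‖ := by nlinarith [norm_nonneg q]
    refine h1.trans_lt ?_
    rw [lt_div_iff₀ (by linarith)] at hq3
    linarith
  have e2 : (fun i => (ψ q i : R)) = φ qR := by
    refine hφu qR _ (by rw [hqRn]; exact hq2) ?_ ?_
    · refine lt_of_le_of_lt ?_ hd2
      rw [pi_norm_le_iff_of_nonneg (norm_nonneg _)]
      intro i
      exact norm_le_pi_norm (ψ q - x0) i
    · intro i
      have h1 := congrArg (fun b : B => (b : R)) (hs i)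
      simp only [coe_aeval_sub, Subalgebra.coe_add] at h1
      exact h1
  refine ⟨ψ q, fun i => ?_⟩
  rw [e1, ← e2]

variable {N c : ℕ} {V : Set (Fin (N + 1) → ℂ)} {y : Fin (N + 1) → ℂ}

/-- **A point of the chart over `R` near `x0`, with free coordinates in `B`, is over `B`**, and
every character of `B` maps it to a point of `V`. -/
theorem Chart.mem_sub (Ch : Chart c V y) (B : Subalgebra ℂ R) [CompleteSpace B]
    (x0 : Fin (N + 1) → B) (h0 : ∀ i, i ∉ Ch.A → aeval x0 (Ch.Φ i) = 0)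
    (hdet : IsUnit (aeval x0 (Matrix.det (Matrix.of fun i j => pderiv j (Ch.Φ i)))))
    (hH : IsUnit (aeval x0 Ch.H)) :
    ∃ ε > 0, ∀ x : Fin (N + 1) → R, (∀ i, ‖x i - (x0 i : R)‖ < ε) →
      (∀ i, i ∈ Ch.A → x i ∈ B) → (∀ i, i ∉ Ch.A → aeval x (Ch.Φ i) = 0) →
      ∃ x' : Fin (N + 1) → B, (∀ i, (x' i : R) = x i) ∧
        (∀ i, i ∉ Ch.A → aeval x' (Ch.Φ i) = 0) ∧ IsUnit (aeval x' Ch.H) ∧
        ∀ χ : B →ₐ[ℂ] ℂ, (fun i => χ (x' i)) ∈ V := by
  classical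
  have hJ : IsUnit (Matrix.of fun i j => aeval x0 (pderiv j (Ch.Φ i))).det := by
    rw [← aeval_det]
    exact hdet
  obtain ⟨ε₁, hε₁, h1⟩ := mem_of_values B Ch.Φ x0 hJ
  have hcont : ∀ᶠ x : Fin (N + 1) → B in 𝓝 x0, IsUnit (aeval x Ch.H) := by
    have hc : ContinuousAt (fun x : Fin (N + 1) → B => aeval x Ch.H) x0 :=
      (contDiff_aeval (R := B) Ch.H 0).continuous.continuousAt
    exact hc.eventually_mem (Units.isOpen.mem_nhds hH)
  obtain ⟨ε₂, hε₂, h2⟩ := Metric.eventually_nhds_iff.1 hcont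
  refine ⟨min (ε₁ / 2) (ε₂ / 2), lt_min (by linarith) (by linarith), ?_⟩
  intro x hx hA hE
  have hxn : ‖x - (fun i => (x0 i : R))‖ ≤ min (ε₁ / 2) (ε₂ / 2) := by
    rw [pi_norm_le_iff_of_nonneg (le_min (by linarith) (by linarith))]
    exact fun i => (hx i).le
  -- the values of the chart
  let q : Fin (N + 1) → B := fun i => if h : i ∈ Ch.A then ⟨x i, hA i h⟩ - x0 i else 0
  have hq : ∀ i, aeval x (Ch.Φ i) = aeval (fun i => (x0 i : R)) (Ch.Φ i) + (q i : R) := by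
    intro i
    by_cases h : i ∈ Ch.A
    · simp only [q, dif_pos h]
      rw [Ch.hΦA i h, aeval_X, aeval_X]
      show x i = (x0 i : R) + (x i - (x0 i : R))
      ring
    · simp only [q, dif_neg h]
      rw [hE i h, ← coe_aeval_sub, h0 i h]
      show (0 : R) = 0 + 0
      rw [add_zero]
  have hqn : ‖q‖ ≤ min (ε₁ / 2) (ε₂ / 2) := by
    rw [pi_norm_le_iff_of_nonneg (le_min (by linarith) (by linarith))]
    intro i
    by_cases h : i ∈ Ch.A
    · simp only [q, dif_pos h]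
      exact (hx i).le
    · simp only [q, dif_neg h]
      rw [norm_zero]
      exact le_min (by linarith) (by linarith)
  have hm1 : min (ε₁ / 2) (ε₂ / 2) < ε₁ := (min_le_left _ _).trans_lt (by linarith)
  have hm2 : min (ε₁ / 2) (ε₂ / 2) < ε₂ := (min_le_right _ _).trans_lt (by linarith)
  obtain ⟨x', hx'⟩ := h1 x (hxn.trans_lt hm1) q hq (hqn.trans_lt hm1)
  have hE' : ∀ i, i ∉ Ch.A → aeval x' (Ch.Φ i) = 0 := by
    intro i hi
    apply Subtype.ext
    rw [coe_aeval_sub]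
    simp only [hx']
    exact hE i hi
  have hU : IsUnit (aeval x' Ch.H) := by
    refine h2 ?_
    rw [dist_eq_norm]
    refine lt_of_le_of_lt ?_ (hxn.trans_lt hm2)
    rw [pi_norm_le_iff_of_nonneg (norm_nonneg _)]
    intro i
    have h3 := norm_le_pi_norm (x - (fun i => (x0 i : R))) i
    have h4 : ‖(x' - x0) i‖ = ‖(x - (fun i => (x0 i : R))) i‖ := by
      show ‖((x' i - x0 i : B) : R)‖ = ‖x i - (x0 i : R)‖
      rw [Subalgebra.coe_sub, hx']
    rw [h4]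
    exact h3
  exact ⟨x', hx', hE', hU, fun χ => Ch.mem hE' hU χ⟩

/-- In the chart the free coordinates determine the point (over `ℂ`). -/
theorem Chart.eq_of_close (Ch : Chart c V y) {u : Fin (N + 1) → ℂ}
    (hu : ∀ i, i ∉ Ch.A → aeval u (Ch.Φ i) = 0)
    (hdet : aeval u (Matrix.det (Matrix.of fun i j => pderiv j (Ch.Φ i))) ≠ 0) :
    ∃ ε > 0, ∀ x : Fin (N + 1) → ℂ, (∀ i, ‖x i - u i‖ < ε) → (∀ i, i ∈ Ch.A → x i = u i) →
      (∀ i, i ∉ Ch.A → aeval x (Ch.Φ i) = 0) → x = u := by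
  have hJ : IsUnit (Matrix.of fun i j => aeval u (pderiv j (Ch.Φ i))).det := by
    rw [← aeval_det]
    exact IsUnit.mk0 _ hdet
  obtain ⟨ψ, ε, δ, L, hε, hδ, hL, hψ0, -, huq, -⟩ := inv_chart Ch.Φ u hJ
  refine ⟨ε, hε, fun x hx hA hE => ?_⟩
  rw [← hψ0]
  refine huq 0 x (by rw [norm_zero]; exact hδ) ?_ ?_
  · rw [pi_norm_lt_iff hε]
    exact hx
  · intro i
    by_cases h : i ∈ Ch.A
    · rw [Ch.hΦA i h, aeval_X, aeval_X, hA i h, Pi.zero_apply, add_zero]
    · rw [hE i h, hu i h, Pi.zero_apply, add_zero]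

end general

namespace GlueW

open Pool.Agent.Lib_MP_1858fb_w Pool.Agent.Lib_MP_1858fb_w.W

variable (D : Dat) {N c : ℕ} {V : Set (Fin (N + 1) → ℂ)}

/-- **Outside.** A tuple of the outer circle algebra near the constant point `y`, on the chart,
with free coordinates without powers `> 0`. -/
theorem Dat.outside {y : Fin (N + 1) → ℂ} (hy : y ∈ V) (Cy : Chart c V y) :
    ∃ ε > 0, ∀ x : Fin (N + 1) → D.A₂, (∀ i, ‖x i - algebraMap ℂ D.A₂ (y i)‖ < ε) →
      (∀ i, i ∈ Cy.A → x i ∈ D.B₂) → (∀ i, i ∉ Cy.A → aeval x (Cy.Φ i) = 0) →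
      (∀ i, x i ∈ D.B₂) ∧ (∀ t : ℂ, D.r₂ ≤ ‖t‖ → (fun i => W.val t (x i)) ∈ V) ∧
      (fun i => (x i).co 0) ∈ V ∧
      aeval (fun i => (x i).co 0) (Matrix.det (Matrix.of fun i j => pderiv j (Cy.Φ i))) ≠ 0 ∧
      ((∀ i, i ∈ Cy.A → (x i).co 0 = y i) → ∀ i, (x i).co 0 = y i) := by
  classical
  set x0 : Fin (N + 1) → D.B₂ := cst D.B₂ y with hx0
  have h0 : ∀ i, i ∉ Cy.A → aeval x0 (Cy.Φ i) = 0 := by
    intro i hi
    rw [hx0, aeval_cst, Cy.hΦ i hi y hy, map_zero]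
  obtain ⟨ε₁, hε₁, h1⟩ := Cy.mem_sub D.B₂ x0 h0
    (by rw [hx0, aeval_cst]; exact (IsUnit.mk0 _ Cy.hdet).map _)
    (by rw [hx0, aeval_cst]; exact (IsUnit.mk0 _ Cy.hH).map _)
  obtain ⟨ε₂, hε₂, h2⟩ := Cy.eq_of_close (u := y) (fun i hi => Cy.hΦ i hi y hy) Cy.hdet
  have h3 : ∀ᶠ u : Fin (N + 1) → ℂ in 𝓝 y,
      aeval u (Matrix.det (Matrix.of fun i j => pderiv j (Cy.Φ i))) ≠ 0 := by
    have hc : ContinuousAt (fun u : Fin (N + 1) → ℂ =>
        aeval u (Matrix.det (Matrix.of fun i j => pderiv j (Cy.Φ i)))) y :=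
      (contDiff_aeval (R := ℂ) _ 0).continuous.continuousAt
    exact hc.eventually_ne Cy.hdet
  obtain ⟨ε₃, hε₃, h3⟩ := Metric.eventually_nhds_iff.1 h3
  refine ⟨min ε₁ (min ε₂ (ε₃ / 2)), lt_min hε₁ (lt_min hε₂ (by linarith)), ?_⟩
  intro x hx hA hE
  have hc : ∀ i, ‖(x i).co 0 - y i‖ < min ε₂ (ε₃ / 2) := by
    intro i
    have e1 : (x i).co 0 - y i = (x i - algebraMap ℂ D.A₂ (y i)).co 0 := by
      rw [W.co_sub]
      congr 1
      have e2 : algebraMap ℂ D.A₂ (y i) = (y i) • (1 : D.A₂) := Algebra.algebraMap_eq_smul_one _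
      rw [e2, W.co_smul, W.co_one, if_pos rfl, mul_one]
    rw [e1]
    have h4 := W.norm_co_le (x i - algebraMap ℂ D.A₂ (y i)) 0
    rw [(Wt.rad D.r₂ D.h₂).zero, mul_one] at h4
    exact h4.trans_lt ((hx i).trans_le (min_le_right _ _))
  obtain ⟨x', hx', hE', hU, hV'⟩ := h1 x (fun i => (hx i).trans_le (min_le_left _ _)) hA hE
  refine ⟨fun i => ?_, fun t ht => ?_, ?_, ?_, ?_⟩
  · rw [← hx']
    exact (x' i).2
  · have h5 := hV' (D.ev₂ t ht)
    have e : (fun i => D.ev₂ t ht (x' i)) = fun i => W.val t (x i) := by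
      funext i
      rw [Dat.ev₂_apply, hx']
    rwa [e] at h5
  · have h5 := hV' D.evInf
    have e : (fun i => D.evInf (x' i)) = fun i => (x i).co 0 := by
      funext i
      rw [Dat.evInf_apply, hx']
    rwa [e] at h5
  · refine h3 ?_
    rw [dist_eq_norm]
    refine lt_of_le_of_lt (b := ε₃ / 2) ?_ (by linarith)
    rw [pi_norm_le_iff_of_nonneg (by linarith)]
    intro i
    exact ((hc i).trans_le (min_le_right _ _)).le
  · intro hAy
    have h5 : (fun i => (x i).co 0) = y := by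
      refine h2 _ (fun i => (hc i).trans_le (min_le_left _ _)) hAy fun i hi => ?_
      have h6 := D.co_aeval₂ x' (Cy.Φ i)
      rw [hE' i hi] at h6
      have e : (fun i => ((x' i : D.B₂) : D.A₂).co 0) = fun i => (x i).co 0 := by
        funext i
        rw [hx']
      rw [e] at h6
      rw [← h6]
      exact W.co_zero 0
    exact fun i => congrFun h5 i

/-- **Inside.** A tuple of the inner circle algebra near the arc `α`, on the chart, with free
coordinates without powers `< 0`. -/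
theorem Dat.inside {v : Fin (N + 1) → ℂ} (Ch : Chart c V v) (α₁ : Fin (N + 1) → D.B₁)
    (h0 : ∀ i, i ∉ Ch.A → aeval α₁ (Ch.Φ i) = 0)
    (hdet : IsUnit (aeval α₁ (Matrix.det (Matrix.of fun i j => pderiv j (Ch.Φ i)))))
    (hH : IsUnit (aeval α₁ Ch.H)) (hv : v ∈ V) (hα0 : ∀ i, (α₁ i).1.co 0 = v i) :
    ∃ ε > 0, ∀ x : Fin (N + 1) → D.A₁, (∀ i, ‖x i - (α₁ i).1‖ < ε) →
      (∀ i, i ∈ Ch.A → x i ∈ D.B₁) → (∀ i, i ∉ Ch.A → aeval x (Ch.Φ i) = 0) →
      (∀ i, x i ∈ D.B₁) ∧ (∀ t : ℂ, ‖t‖ ≤ D.r₁ → (fun i => W.val t (x i)) ∈ V) ∧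
      ((∀ i, i ∈ Ch.A → (x i).co 0 = v i) → ∀ i, (x i).co 0 = v i) := by
  classical
  obtain ⟨ε₁, hε₁, h1⟩ := Ch.mem_sub D.B₁ α₁ h0 hdet hH
  obtain ⟨ε₂, hε₂, h2⟩ := Ch.eq_of_close (u := v) (fun i hi => Ch.hΦ i hi v hv) Ch.hdet
  refine ⟨min ε₁ ε₂, lt_min hε₁ hε₂, ?_⟩
  intro x hx hA hE
  have hc : ∀ i, ‖(x i).co 0 - v i‖ < ε₂ := by
    intro i
    have e1 : (x i).co 0 - v i = (x i - (α₁ i).1).co 0 := by
      rw [W.co_sub, hα0]
    rw [e1]
    have h4 := W.norm_co_le (x i - (α₁ i).1) 0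
    rw [(Wt.rad D.r₁ D.h₁).zero, mul_one] at h4
    exact h4.trans_lt ((hx i).trans_le (min_le_right _ _))
  obtain ⟨x', hx', hE', hU, hV'⟩ := h1 x (fun i => (hx i).trans_le (min_le_left _ _)) hA hE
  refine ⟨fun i => ?_, fun t ht => ?_, ?_⟩
  · rw [← hx']
    exact (x' i).2
  · have h5 := hV' (D.ev₁ t ht)
    have e : (fun i => D.ev₁ t ht (x' i)) = fun i => W.val t (x i) := by
      funext i
      rw [Dat.ev₁_apply, hx']
    rwa [e] at h5
  · intro hAy
    have h5 : (fun i => (x i).co 0) = v := by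
      refine h2 _ hc hAy fun i hi => ?_
      have hz : ‖(0 : ℂ)‖ ≤ D.r₁ := by rw [norm_zero]; exact D.h₁.le
      have h6 := hom_aeval (D.ev₁ 0 hz) x' (Ch.Φ i)
      rw [hE' i hi, map_zero] at h6
      have e : (fun i => D.ev₁ 0 hz (x' i)) = fun i => (x i).co 0 := by
        funext i
        rw [Dat.ev₁_zero, hx']
      rw [e] at h6
      exact h6.symm
    exact fun i => congrFun h5 i

end GlueW

end Pool.Agent.VF
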