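import Pool.Agent.Lib_MP_1858fb_w.GlueDefs

/-! STUBS (statements only) of the pieces of GLUE. Write each in its own file, importing
`GlueDefs` (never this file), with exactly the name and statement below. -/

set_option autoImplicit false

namespace Pool.Agent.VF

open MvPolynomial Pool.Agent.Lib_MP_1858fb_w

-- P1 (file Dual.lean) ----------------------------------------------------------------------
section P1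

variable {R R' : Type} [NormedCommRing R] [NormedAlgebra ℂ R] [NormedCommRing R']
  [NormedAlgebra ℂ R'] {σ : Type} [Fintype σ]

theorem Du.norm_map_le (n : ℕ) (f : R →ₐ[ℂ] R') (hf : ∀ x, ‖f x‖ ≤ ‖x‖) (x : Du n R) :
    ‖Du.map n f x‖ ≤ ‖x‖ := sorry

/-- evaluation of polynomials at dual points -/
theorem Du.fst_aeval {n : ℕ} (x : σ → Du n R) (E : MvPolynomial σ ℂ) :
    (aeval x E).fst = aeval (fun i => (x i).fst) E := sorry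

theorem Du.snd_aeval {n : ℕ} (x : σ → Du n R) (E : MvPolynomial σ ℂ) (l : Fin n) :
    (aeval x E).snd l = dif E (fun i => (x i).fst) (fun i => (x i).snd l) := sorry

/-- values of tuples of forms at `(inl p, inl q)` -/
theorem Du.fst_val {κ : Type} {n d : ℕ} (F : Fin (d + 1) → κ → Du n R) (p q : R) (i : κ) :
    (val F (TrivSqZeroExt.inl p) (TrivSqZeroExt.inl q) i).fst =
      val (fun j i => (F j i).fst) p q i := sorry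

theorem Du.snd_val {κ : Type} {n d : ℕ} (F : Fin (d + 1) → κ → Du n R) (p q : R) (i : κ)
    (l : Fin n) : (val F (TrivSqZeroExt.inl p) (TrivSqZeroExt.inl q) i).snd l =
      val (fun j i => (F j i).snd l) p q i := sorry

theorem Du.isUnit_of_fst {n : ℕ} {x : Du n R} (h : IsUnit x.fst) : IsUnit x := sorry

/-- the dual numbers over a two circle datum -/
theorem TwoCircle.exists_dual {A A1 A2 : Type} [NormedCommRing A] [NormedAlgebra ℂ A]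
    [NormedCommRing A1] [NormedAlgebra ℂ A1] [NormedCommRing A2] [NormedAlgebra ℂ A2]
    (T : TwoCircle A A1 A2) (n : ℕ) :
    ∃ T' : TwoCircle (Du n A) (Du n A1) (Du n A2),
      (∀ x, T'.ρ1 x = Du.map n T.ρ1 x) ∧ (∀ x, T'.ρ2 x = Du.map n T.ρ2 x) ∧
      (∀ x, x ∈ T'.B1 ↔ x.fst ∈ T.B1 ∧ ∀ l, x.snd l ∈ T.B1) ∧
      (∀ x, x ∈ T'.B2 ↔ x.fst ∈ T.B2 ∧ ∀ l, x.snd l ∈ T.B2) ∧
      (∀ x, x ∈ T'.N1 ↔ x.fst ∈ T.N1 ∧ ∀ l, x.snd l ∈ T.N1) ∧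
      (∀ x, x ∈ T'.N2 ↔ x.fst ∈ T.N2 ∧ ∀ l, x.snd l ∈ T.N2) := sorry

end P1

-- P2 (file GlueW.lean) ---------------------------------------------------------------------
/-- the two circle datum of the Wiener algebras -/
theorem exists_twoCircle (r1 r2 : ℝ) (h1 : 0 < r1) (h2 : 0 < r2) (h12 : r1 ≤ r2) :
    ∃ T : TwoCircle (W (Wt.ann r1 r2 h1 h2)) (W (Wt.rad r1 h1)) (W (Wt.rad r2 h2)),
      (∀ x, T.ρ1 x = res1 r1 r2 h1 h2 x) ∧ (∀ x, T.ρ2 x = res2 r1 r2 h1 h2 x) ∧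
      (∀ x, x ∈ T.B1 ↔ W.Supp (Set.Ici 0) x) ∧ (∀ x, x ∈ T.B2 ↔ W.Supp (Set.Iic 0) x) ∧
      (∀ x, x ∈ T.N1 ↔ W.Supp (Set.Ioi 0) x) ∧ (∀ x, x ∈ T.N2 ↔ W.Supp (Set.Iio 0) x) := sorry

/-- the choice of `λ = t^(-M)`, `μ = t^M` -/
theorem exists_bigM (r1 r2 : ℝ) (h1 : 0 < r1) (h11 : r1 < 1) (h22 : 1 < r2) (h2 : 0 < r2)
    {m : ℕ} (cm : Fin m → ℂ) (hcm : ∀ l, cm l ≠ 0) (ε : ℝ) (hε : 0 < ε) :
    ∃ M : ℕ, 0 < M ∧ ‖W.mono (Wt.rad r2 h2) (-(M : ℤ)) 1‖ ≤ ε ∧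
      ‖W.mono (Wt.rad r1 h1) (M : ℤ) 1‖ ≤ ε ∧
      ∀ l, ∃ t : ℂ, r1 ≤ ‖t‖ ∧ ‖t‖ ≤ r2 ∧ t ^ (-(M : ℤ)) = cm l := sorry

-- P3 (file GlueAbs.lean, helper60) -----------------------------------------------------------
/-- the contraction and the closed subrings -/
theorem TwoCircle.exists_glue {A A1 A2 : Type} [NormedCommRing A] [NormedAlgebra ℂ A]
    [NormedCommRing A1] [NormedAlgebra ℂ A1] [NormedCommRing A2] [NormedAlgebra ℂ A2]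
    [CompleteSpace A] [CompleteSpace A1] [CompleteSpace A2]
    (T : TwoCircle A A1 A2) {N c d : ℕ} {V : Set (Fin (N + 1) → ℂ)} {y v : Fin (N + 1) → ℂ}
    (Cy : Chart c V y) (Ch : Chart c V v)
    {R1 R2 : Type} [NormedCommRing R1] [NormedAlgebra ℂ R1] [NormedCommRing R2]
    [NormedAlgebra ℂ R2] (φ1 : R1 →ₐ[ℂ] A1) (φ2 : R2 →ₐ[ℂ] A2) (hφ1 : ∀ x, ‖φ1 x‖ ≤ ‖x‖)
    (hφ2 : ∀ x, ‖φ2 x‖ ≤ ‖x‖) (hB1 : ∀ x, φ1 x ∈ T.B1) (hB2 : ∀ x, φ2 x ∈ T.B2)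
    (p1 : Fin (N + 1) → R1) (p2 : Fin (N + 1) → R2)
    (hp1 : ∀ i, i ∉ Ch.A → aeval p1 (Ch.Φ i) = 0) (hp2 : ∀ i, i ∉ Cy.A → aeval p2 (Cy.Φ i) = 0)
    (hj1 : IsUnit (aeval p1 Ch.jac)) (hj2 : IsUnit (aeval p2 Cy.jac))
    (w0 z0 : Fin (N + 1) → A) (hw0 : ∀ i, T.ρ2 (w0 i) = φ2 (p2 i))
    (hz0 : ∀ i, T.ρ1 (z0 i) = φ1 (p1 i))
    (Φ : (Fin (N + 1) → A) → (Fin (N + 1) → A) → Fin (d + 1) → Fin (N + 1) → A) {δ C : ℝ}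
    (hδ : 0 < δ) (hC : 0 ≤ C)
    (hB : ∀ a b, ‖a‖ ≤ δ → ‖b‖ ≤ δ → ∀ j s, ‖Φ a b j s‖ ≤ C)
    (hL : ∀ a b a' b', ‖a‖ ≤ δ → ‖b‖ ≤ δ → ‖a'‖ ≤ δ → ‖b'‖ ≤ δ → ∀ j s,
      ‖Φ a b j s - Φ a' b' j s‖ ≤ C * max ‖a - a'‖ ‖b - b'‖)
    (h0 : ∀ s, Φ 0 0 0 s = w0 s) (hd : ∀ s, Φ 0 0 (Fin.last d) s = z0 s)
    (h0A : ∀ a b, ‖a‖ ≤ δ → ‖b‖ ≤ δ → ∀ i ∈ Cy.A, Φ a b 0 i = w0 i + a i)
    (hdA : ∀ a b, ‖a‖ ≤ δ → ‖b‖ ≤ δ → ∀ i ∈ Ch.A, Φ a b (Fin.last d) i = z0 i + b i)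
    {η : ℝ} (hη : 0 < η) :
    ∃ ε₀ δ' : ℝ, 0 < ε₀ ∧ 0 < δ' ∧ ∀ lam mu : A, ‖T.ρ2 lam‖ ≤ ε₀ → ‖T.ρ1 mu‖ ≤ ε₀ →
      (∀ a b, ‖a‖ ≤ δ → ‖b‖ ≤ δ → ∀ i, i ∉ Cy.A → aeval (val (Φ a b) 1 lam) (Cy.Φ i) = 0) →
      (∀ a b, ‖a‖ ≤ δ → ‖b‖ ≤ δ → ∀ i, i ∉ Ch.A → aeval (val (Φ a b) mu 1) (Ch.Φ i) = 0) →
      ∀ a0 b0 : Fin (N + 1) → A, ‖a0‖ ≤ δ' → ‖b0‖ ≤ δ' → (∀ i, T.ρ2 (a0 i) ∈ T.B2) →
        (∀ i, T.ρ1 (b0 i) ∈ T.B1) →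
        ∃ a b : Fin (N + 1) → A, ‖a‖ ≤ δ ∧ ‖b‖ ≤ δ ∧
          (∀ i, T.ρ2 (val (Φ a b) 1 lam i) ∈ T.B2) ∧
          (∀ i, ‖T.ρ2 (val (Φ a b) 1 lam i) - T.ρ2 (w0 i)‖ ≤ η) ∧
          (∀ i ∈ Cy.A, T.ρ2 (val (Φ a b) 1 lam i) - T.ρ2 (w0 i + a0 i) ∈ T.N2) ∧
          (∀ i, T.ρ1 (val (Φ a b) mu 1 i) ∈ T.B1) ∧
          (∀ i, ‖T.ρ1 (val (Φ a b) mu 1 i) - T.ρ1 (z0 i)‖ ≤ η) ∧
          (∀ i ∈ Ch.A, T.ρ1 (val (Φ a b) mu 1 i) - T.ρ1 (z0 i + b0 i) ∈ T.N1) := sorry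

-- P4 (file FamFun.lean) ----------------------------------------------------------------------
/-- the family as a bounded, Lipschitz function of the chart coordinates, over a Banach algebra -/
theorem exists_familyFun {N c d m : ℕ} {V : Set (Fin (N + 1) → ℂ)} {cm : Fin m → ℂ}
    {vs : Fin m → Fin (N + 1) → ℂ} (Fam : Family V cm vs d) {y v : Fin (N + 1) → ℂ}
    (Cy : Chart c V y) (Ch : Chart c V v) {R : Type} [NormedCommRing R] [NormedAlgebra ℂ R]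
    [CompleteSpace R] (w0 z0 : Fin (N + 1) → R) (e0 θ0 : R)
    (hw : ∀ i, i ∉ Cy.A → aeval w0 (Cy.Φ i) = 0) (hz : ∀ i, i ∉ Ch.A → aeval z0 (Ch.Φ i) = 0)
    (hD : aeval (Sum.elim w0 z0) Fam.D * e0 = 1) (hP : evT w0 z0 θ0 Fam.P = 0)
    (hjw : IsUnit (aeval w0 Cy.jac)) (hjz : IsUnit (aeval z0 Ch.jac))
    (hP' : IsUnit (evT w0 z0 θ0 (Polynomial.derivative Fam.P))) {η : ℝ} (hη : 0 < η) :
    ∃ (δ C : ℝ) (w z : (Fin (N + 1) → R) → (Fin (N + 1) → R) → Fin (N + 1) → R)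
      (e θ : (Fin (N + 1) → R) → (Fin (N + 1) → R) → R), 0 < δ ∧ 0 ≤ C ∧
      w 0 0 = w0 ∧ z 0 0 = z0 ∧
      (∀ a b, ‖a‖ ≤ δ → ‖b‖ ≤ δ →
        (∀ i ∈ Cy.A, w a b i = w0 i + a i) ∧ (∀ i, i ∉ Cy.A → aeval (w a b) (Cy.Φ i) = 0) ∧
        (∀ i ∈ Ch.A, z a b i = z0 i + b i) ∧ (∀ i, i ∉ Ch.A → aeval (z a b) (Ch.Φ i) = 0) ∧
        aeval (Sum.elim (w a b) (z a b)) Fam.D * e a b = 1 ∧
        evT (w a b) (z a b) (θ a b) Fam.P = 0 ∧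
        (∀ i, ‖w a b i - w0 i‖ ≤ η) ∧ (∀ i, ‖z a b i - z0 i‖ ≤ η) ∧
        ∀ j s, ‖Fam.coef (w a b) (z a b) (e a b) (θ a b) j s‖ ≤ C) ∧
      (∀ a b a' b', ‖a‖ ≤ δ → ‖b‖ ≤ δ → ‖a'‖ ≤ δ → ‖b'‖ ≤ δ → ∀ j s,
        ‖Fam.coef (w a b) (z a b) (e a b) (θ a b) j s -
          Fam.coef (w a' b') (z a' b') (e a' b') (θ a' b') j s‖ ≤
          C * max ‖a - a'‖ ‖b - b'‖) := sorry

-- P5a (file FamPoint.lean) -------------------------------------------------------------------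
/-- a polynomial that vanishes at all the zeros of the equations near a regular zero has zero
differential along the tangent vectors -/
theorem dif_eq_zero_of_near {σ κ : Type} [Fintype σ] [Fintype κ] [DecidableEq σ] [DecidableEq κ]
    (E : κ → MvPolynomial σ ℂ) (ι : κ → σ) (hι : Function.Injective ι) (x : σ → ℂ)
    (hE : ∀ j, aeval x (E j) = 0)
    (hJ : (Matrix.of fun i j => aeval x (pderiv (ι j) (E i))).det ≠ 0)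
    (T : MvPolynomial σ ℂ)
    (hT : ∃ ε > 0, ∀ x' : σ → ℂ, (∀ s, ‖x' s - x s‖ ≤ ε) → (∀ j, aeval x' (E j) = 0) →
      aeval x' T = 0)
    (u : σ → ℂ) (hu : ∀ j, dif (E j) x u = 0) : dif T x u = 0 := sorry

/-- the identities of the family at a dual point -/
theorem family_point {N c d m n : ℕ} {V : Set (Fin (N + 1) → ℂ)} {cm : Fin m → ℂ}
    {vs : Fin m → Fin (N + 1) → ℂ} (Fam : Family V cm vs d) {y v : Fin (N + 1) → ℂ}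
    (Cy : Chart c V y) (Ch : Chart c V v) (w z : Fin (N + 1) → Du n ℂ) (e θ : Du n ℂ)
    (hw : ∀ i, i ∉ Cy.A → aeval w (Cy.Φ i) = 0) (hz : ∀ i, i ∉ Ch.A → aeval z (Ch.Φ i) = 0)
    (hD : aeval (Sum.elim w z) Fam.D * e = 1) (hP : evT w z θ Fam.P = 0)
    (hwH : aeval (fun i => (w i).fst) Cy.H ≠ 0) (hwj : aeval (fun i => (w i).fst) Cy.jac ≠ 0)
    (hzH : aeval (fun i => (z i).fst) Ch.H ≠ 0) (hzj : aeval (fun i => (z i).fst) Ch.jac ≠ 0) :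
    (∀ i, Fam.coef w z e θ 0 i = w i) ∧ (∀ i, Fam.coef w z e θ (Fin.last d) i = z i) ∧
    ∀ E ∈ van V, ∀ p q : ℂ, (p ≠ 0 ∨ q ≠ 0) →
      aeval (val (Fam.coef w z e θ) (TrivSqZeroExt.inl p) (TrivSqZeroExt.inl q)) E = 0 := sorry

-- P5b (file FamRing.lean): uses P5a and W.ext_val ---------------------------------------------
/-- the identities of the family over the dual numbers of a Wiener algebra -/
theorem family_ring {N c d m n : ℕ} {V : Set (Fin (N + 1) → ℂ)} {cm : Fin m → ℂ}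
    {vs : Fin m → Fin (N + 1) → ℂ} (Fam : Family V cm vs d) {y v : Fin (N + 1) → ℂ}
    (Cy : Chart c V y) (Ch : Chart c V v) {ω : Wt} {r : ℝ} (hr : 0 < r)
    (hω : ∀ k : ℤ, r ^ k ≤ ω.w k) (w z : Fin (N + 1) → Du n (W ω)) (e θ : Du n (W ω))
    (hw : ∀ i, i ∉ Cy.A → aeval w (Cy.Φ i) = 0) (hz : ∀ i, i ∉ Ch.A → aeval z (Ch.Φ i) = 0)
    (hD : aeval (Sum.elim w z) Fam.D * e = 1) (hP : evT w z θ Fam.P = 0)
    (hwH : ∀ t : ℂ, ‖t‖ = r → aeval (fun i => W.val t (w i).fst) Cy.H ≠ 0 ∧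
      aeval (fun i => W.val t (w i).fst) Cy.jac ≠ 0)
    (hzH : ∀ t : ℂ, ‖t‖ = r → aeval (fun i => W.val t (z i).fst) Ch.H ≠ 0 ∧
      aeval (fun i => W.val t (z i).fst) Ch.jac ≠ 0) :
    (∀ i, Fam.coef w z e θ 0 i = w i) ∧ (∀ i, Fam.coef w z e θ (Fin.last d) i = z i) ∧
    ∀ E ∈ van V, ∀ p q : W ω, (∀ t : ℂ, ‖t‖ = r → W.val t p ≠ 0 ∨ W.val t q ≠ 0) →
      aeval (val (Fam.coef w z e θ) (TrivSqZeroExt.inl p) (TrivSqZeroExt.inl q)) E = 0 := sorry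

-- P6 (file EvalW.lean) -----------------------------------------------------------------------
/-- evaluation on the annulus, outside (`u = 0` is infinity), inside -/
theorem val_aeval_ann {σ : Type} {ω : Wt} {t : ℂ} (h0 : t ≠ 0) (ht : ∀ k : ℤ, ‖t ^ k‖ ≤ ω.w k)
    (s : σ → W ω) (E : MvPolynomial σ ℂ) :
    W.val t (aeval s E) = aeval (fun i => W.val t (s i)) E := sorry

theorem val_aeval_out {σ : Type} {ω : Wt} {r2 : ℝ} (h2 : 0 < r2)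
    (hω : ∀ k : ℤ, k ≤ 0 → r2 ^ k ≤ ω.w k) {u : ℂ} (hu : ‖u‖ ≤ r2⁻¹) (s : σ → W ω)
    (hs : ∀ i, W.Supp (Set.Iic 0) (s i)) (E : MvPolynomial σ ℂ) :
    W.val u⁻¹ (aeval s E) = aeval (fun i => W.val u⁻¹ (s i)) E := sorry

theorem norm_val_out {ω : Wt} {r2 : ℝ} (h2 : 0 < r2) (hω : ∀ k : ℤ, k ≤ 0 → r2 ^ k ≤ ω.w k)
    {u : ℂ} (hu : ‖u‖ ≤ r2⁻¹) {f : W ω} (hf : W.Supp (Set.Iic 0) f) :
    ‖W.val u⁻¹ f‖ ≤ ‖f‖ := sorry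

theorem val_aeval_in {σ : Type} {ω : Wt} {r1 : ℝ} (h1 : 0 < r1)
    (hω : ∀ k : ℤ, 0 ≤ k → r1 ^ k ≤ ω.w k) {t : ℂ} (ht : ‖t‖ ≤ r1) (s : σ → W ω)
    (hs : ∀ i, W.Supp (Set.Ici 0) (s i)) (E : MvPolynomial σ ℂ) :
    W.val t (aeval s E) = aeval (fun i => W.val t (s i)) E := sorry

theorem norm_val_in {ω : Wt} {r1 : ℝ} (h1 : 0 < r1) (hω : ∀ k : ℤ, 0 ≤ k → r1 ^ k ≤ ω.w k)
    {t : ℂ} (ht : ‖t‖ ≤ r1) {f : W ω} (hf : W.Supp (Set.Ici 0) f) :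
    ‖W.val t f‖ ≤ ‖f‖ := sorry

-- P8 (file BaseData.lean) ----------------------------------------------------------------------
/-- the base point in the Wiener algebras -/
theorem exists_baseData {N c d m : ℕ} {V : Set (Fin (N + 1) → ℂ)} {cm : Fin m → ℂ}
    {vs : Fin m → Fin (N + 1) → ℂ} (Fam : Family V cm vs d) {v y : Fin (N + 1) → ℂ}
    (hy : y ∈ V) (Ch : Chart c V v) {ρ : ℝ} {α : ℂ → Fin (N + 1) → ℂ} {θ : ℂ → ℂ}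
    (hα : ∀ i, DifferentiableOn ℂ (fun τ => α τ i) (Metric.ball 0 ρ))
    (hαV : ∀ τ ∈ Metric.ball (0 : ℂ) ρ, α τ ∈ V ∧ aeval (α τ) Ch.H ≠ 0 ∧
        aeval (α τ) (Matrix.det (Matrix.of fun i j => pderiv j (Ch.Φ i))) ≠ 0)
    (hθ : DifferentiableOn ℂ θ (Metric.ball 0 ρ \ {0}))
    (hroot : ∀ τ ∈ Metric.ball (0 : ℂ) ρ, τ ≠ 0 →
        aeval (Sum.elim y (α τ)) Fam.D ≠ 0 ∧ evT y (α τ) (θ τ) Fam.P = 0)
    {r1 r2 : ℝ} (h1 : 0 < r1) (h12 : r1 < r2) (h2ρ : r2 < ρ) (h2 : 0 < r2) :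
    ∃ (αh : Fin (N + 1) → W (Wt.ann r1 r2 h1 h2)) (e θh : W (Wt.ann r1 r2 h1 h2)),
      (∀ i, W.Supp (Set.Ici 0) (αh i)) ∧
      (∀ i, ∀ t : ℂ, ‖t‖ ≤ r2 → W.val t (αh i) = α t i) ∧
      (∀ t : ℂ, r1 ≤ ‖t‖ → ‖t‖ ≤ r2 → W.val t θh = θ t) ∧
      aeval (Sum.elim (fun i => algebraMap ℂ (W (Wt.ann r1 r2 h1 h2)) (y i)) αh) Fam.D * e = 1 ∧
      evT (fun i => algebraMap ℂ (W (Wt.ann r1 r2 h1 h2)) (y i)) αh θh Fam.P = 0 ∧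
      IsUnit (evT (fun i => algebraMap ℂ (W (Wt.ann r1 r2 h1 h2)) (y i)) αh θh
        (Polynomial.derivative Fam.P)) ∧
      IsUnit (aeval αh Ch.jac) ∧ (∀ E ∈ van V, aeval αh E = 0) ∧
      ∃ p1 : Fin (N + 1) → PosW r1 h1,
        (∀ i, (p1 i : W (Wt.rad r1 h1)) = res1 r1 r2 h1 h2 (αh i)) ∧
        (∀ E ∈ van V, aeval p1 E = 0) ∧ IsUnit (aeval p1 Ch.jac) := sorry

-- P10 (file Close.lean) ------------------------------------------------------------------------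
theorem Chart.exists_close {N c : ℕ} {V : Set (Fin (N + 1) → ℂ)} {y : Fin (N + 1) → ℂ}
    (Cy : Chart c V y) : ∃ η : ℝ, 0 < η ∧ ∀ x : Fin (N + 1) → ℂ, (∀ i, ‖x i - y i‖ ≤ η) →
      aeval x Cy.H ≠ 0 ∧ aeval x Cy.jac ≠ 0 := sorry

theorem Chart.exists_close_disc {N c : ℕ} {V : Set (Fin (N + 1) → ℂ)} {v : Fin (N + 1) → ℂ}
    (Ch : Chart c V v) {ρ : ℝ} {α : ℂ → Fin (N + 1) → ℂ}
    (hα : ∀ i, DifferentiableOn ℂ (fun τ => α τ i) (Metric.ball 0 ρ))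
    (hαV : ∀ τ ∈ Metric.ball (0 : ℂ) ρ, α τ ∈ V ∧ aeval (α τ) Ch.H ≠ 0 ∧
        aeval (α τ) (Matrix.det (Matrix.of fun i j => pderiv j (Ch.Φ i))) ≠ 0)
    {r2 : ℝ} (h2ρ : r2 < ρ) :
    ∃ η : ℝ, 0 < η ∧ ∀ t : ℂ, ‖t‖ ≤ r2 → ∀ x : Fin (N + 1) → ℂ, (∀ i, ‖x i - α t i‖ ≤ η) →
      aeval x Ch.H ≠ 0 ∧ aeval x Ch.jac ≠ 0 := sorry

theorem Chart.exists_unique_near {N c : ℕ} {V : Set (Fin (N + 1) → ℂ)} {v : Fin (N + 1) → ℂ}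
    (hv : v ∈ V) (Ch : Chart c V v) : ∃ η : ℝ, 0 < η ∧ ∀ x : Fin (N + 1) → ℂ,
      (∀ i, ‖x i - v i‖ ≤ η) → (∀ i ∈ Ch.A, x i = v i) →
      (∀ i, i ∉ Ch.A → aeval x (Ch.Φ i) = 0) → x = v := sorry

/-- tangent vectors vanish if their free coordinates do, at every point of the domain of the
chart -/
theorem Chart.tan_ext_near {N c : ℕ} {V : Set (Fin (N + 1) → ℂ)} {y x : Fin (N + 1) → ℂ}
    (Cy : Chart c V y) (hj : aeval x Cy.jac ≠ 0) {w : Fin (N + 1) → ℂ} (hw : w ∈ Tan V x)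
    (h0 : ∀ i ∈ Cy.A, w i = 0) : w = 0 := sorry

-- P11 (file TanForms.lean) ---------------------------------------------------------------------
/-- tuples of forms of tangent Laurent vectors are tangent -/
theorem isTangent_forms {N : ℕ} {V : Set (Fin (N + 1) → ℂ)}
    (hsc : ∀ a : ℂ, a ≠ 0 → ∀ x ∈ V, a • x ∈ V) {ω : Wt} (D : ℕ) (s g : Fin (N + 1) → W ω)
    (hs : ∀ i, W.Supp (Set.Icc (-(D : ℤ)) 0) (s i))
    (hg : ∀ i, W.Supp (Set.Icc (-(D : ℤ)) 0) (g i))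
    (h : ∀ t : ℂ, ‖t‖ = 1 → ∀ E ∈ van V,
      dif E (fun i => W.val t (s i)) (fun i => W.val t (g i)) = 0) :
    IsTangent V (forms D s) (forms D g) := sorry

/-- linear combinations of tangent tuples -/
theorem exists_tangent_comb {N d e : ℕ} {V : Set (Fin (N + 1) → ℂ)}
    {F : Fin (d + 1) → Fin (N + 1) → ℂ} {κ : Type} [Fintype κ]
    (G : κ → Fin (e + 1) → Fin (N + 1) → ℂ) (hG : ∀ l, IsTangent V F (G l)) (a : κ → ℂ) :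
    ∃ G' : Fin (e + 1) → Fin (N + 1) → ℂ, IsTangent V F G' ∧
      ∀ p q : ℂ, val G' p q = ∑ l, a l • val (G l) p q := sorry

/-- the degree of a family is positive -/
theorem Family.one_le {N d m : ℕ} {V : Set (Fin (N + 1) → ℂ)} {cm : Fin m → ℂ}
    {vs : Fin m → Fin (N + 1) → ℂ} (hV : LocClosed V) (Fam : Family V cm vs d) : 1 ≤ d := sorry

end Pool.Agent.VF
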