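import Pool.Agent.Lib_MP_1858fb_w.Wiener

/-!
# The two circles: instance of the abstract gluing data for the Wiener algebras

`A` = annulus `r₁ ≤ |t| ≤ r₂`, `A₁` = circle `|t| = r₁`, `A₂` = circle `|t| = r₂`.
-/

set_option autoImplicit false

noncomputable section

namespace Pool.Agent.VF.GlueW

open Pool.Agent.Lib_MP_1858fb_w
open Pool.Agent.Lib_MP_1858fb_w.W

/-- nonnegative exponents -/
def Sge : Set ℤ := {k | 0 ≤ k}
/-- nonpositive exponents -/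
def Sle : Set ℤ := {k | k ≤ 0}
/-- positive exponents -/
def Sgt : Set ℤ := {k | 0 < k}
/-- negative exponents -/
def Slt : Set ℤ := {k | k < 0}

theorem zero_mem_Sge : (0 : ℤ) ∈ Sge := le_refl (0 : ℤ)
theorem zero_mem_Sle : (0 : ℤ) ∈ Sle := le_refl (0 : ℤ)
theorem add_mem_Sge : ∀ i ∈ Sge, ∀ j ∈ Sge, i + j ∈ Sge := fun i hi j hj =>
  show 0 ≤ i + j from add_nonneg (show 0 ≤ i from hi) (show 0 ≤ j from hj)
theorem add_mem_Sle : ∀ i ∈ Sle, ∀ j ∈ Sle, i + j ∈ Sle := fun i hi j hj =>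
  show i + j ≤ 0 from add_nonpos (show i ≤ 0 from hi) (show j ≤ 0 from hj)
theorem Sgt_subset : Sgt ⊆ Sge := fun k hk => show 0 ≤ k from le_of_lt (show 0 < k from hk)
theorem Slt_subset : Slt ⊆ Sle := fun k hk => show k ≤ 0 from le_of_lt (show k < 0 from hk)

/-- the radii `0 < r₁ < r < r₂` and a point `t₁ ≠ 0` with `|t₁| ≤ r₁` -/
structure Dat where
  r₁ : ℝ
  r : ℝ
  r₂ : ℝ
  h₁ : 0 < r₁
  h₁r : r₁ < r
  hr₂ : r < r₂
  t₁ : ℂ
  t₁0 : t₁ ≠ 0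
  t₁r : ‖t₁‖ ≤ r₁

namespace Dat

variable (D : Dat)

theorem hr : 0 < D.r := D.h₁.trans D.h₁r
theorem h₂ : 0 < D.r₂ := D.hr.trans D.hr₂
theorem h12 : D.r₁ ≤ D.r₂ := (D.h₁r.trans D.hr₂).le

/-- the algebra of the annulus -/
abbrev A : Type := W (Wt.ann D.r₁ D.r₂ D.h₁ D.h₂)
/-- the algebra of the inner circle -/
abbrev A₁ : Type := W (Wt.rad D.r₁ D.h₁)
/-- the algebra of the outer circle -/
abbrev A₂ : Type := W (Wt.rad D.r₂ D.h₂)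

/-- restriction to the inner circle -/
def ρ₁ : D.A →ₐ[ℂ] D.A₁ := res (fun k => Wt.rad_le_ann_left D.h₁ D.h₂ k)
/-- restriction to the outer circle -/
def ρ₂ : D.A →ₐ[ℂ] D.A₂ := res (fun k => Wt.rad_le_ann_right D.h₁ D.h₂ k)

theorem co_ρ₁ (f : D.A) (k : ℤ) : (D.ρ₁ f).co k = f.co k := co_res _ f k
theorem co_ρ₂ (f : D.A) (k : ℤ) : (D.ρ₂ f).co k = f.co k := co_res _ f k
theorem norm_ρ₁_le (f : D.A) : ‖D.ρ₁ f‖ ≤ ‖f‖ := norm_res_le _ f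
theorem norm_ρ₂_le (f : D.A) : ‖D.ρ₂ f‖ ≤ ‖f‖ := norm_res_le _ f
theorem ρ₁_injective : Function.Injective D.ρ₁ := res_injective _
theorem ρ₂_injective : Function.Injective D.ρ₂ := res_injective _
theorem supp_ρ₁ {S : Set ℤ} {f : D.A} : Supp S (D.ρ₁ f) ↔ Supp S f := supp_res _
theorem supp_ρ₂ {S : Set ℤ} {f : D.A} : Supp S (D.ρ₂ f) ↔ Supp S f := supp_res _

theorem w_ge {k : ℤ} (hk : k ∈ Sge) :
    (Wt.ann D.r₁ D.r₂ D.h₁ D.h₂).w k ≤ (Wt.rad D.r₂ D.h₂).w k :=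
  (Wt.ann_nonneg D.h₁ D.h12 hk).le

theorem w_le {k : ℤ} (hk : k ∈ Sle) :
    (Wt.ann D.r₁ D.r₂ D.h₁ D.h₂).w k ≤ (Wt.rad D.r₁ D.h₁).w k :=
  (Wt.ann_nonpos D.h₁ D.h12 hk).le

/-- the part with powers `≥ 0` of a function on the outer circle, on the annulus -/
def Q₂ : D.A₂ →L[ℂ] D.A := lift Sge (fun _ hk => D.w_ge hk)

theorem norm_Q₂_le (f : D.A₂) : ‖D.Q₂ f‖ ≤ ‖f‖ := norm_lift_le _ f

theorem co_Q₂ (f : D.A₂) (k : ℤ) : (D.Q₂ f).co k = Sge.indicator f.co k := co_lift _ _ _ _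

/-- powers `< 0` on the outer circle -/
def N₂ : AddSubgroup D.A₂ where
  carrier := {f | Supp Slt f}
  add_mem' hf hg := Supp.add hf hg
  zero_mem' := supp_zero _
  neg_mem' hf := Supp.neg hf

theorem mem_N₂ {f : D.A₂} : f ∈ D.N₂ ↔ Supp Slt f := Iff.rfl

theorem sub_Q₂_mem (f : D.A₂) : f - D.ρ₂ (D.Q₂ f) ∈ D.N₂ := by
  intro k hk
  rw [co_sub, co_ρ₂, co_Q₂, Set.indicator_of_mem, sub_self]
  have hk' : ¬ (k < 0) := hk
  exact not_lt.1 hk'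

/-- powers `≤ 0` on the outer circle: functions on `|t| ≥ r₂`, infinity included -/
def B₂ : Subalgebra ℂ D.A₂ := subalg _ Sle zero_mem_Sle add_mem_Sle

theorem mem_B₂ {f : D.A₂} : f ∈ D.B₂ ↔ Supp Sle f := Iff.rfl

theorem isClosed_B₂ : IsClosed (D.B₂ : Set D.A₂) := isClosed_subalg _ _ _ _

instance : CompleteSpace D.B₂ := inferInstanceAs (CompleteSpace (subalg _ _ _ _))

theorem N₂_le_B₂ {f : D.A₂} (hf : f ∈ D.N₂) : f ∈ D.B₂ :=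
  Supp.mono_set Slt_subset hf

/-- powers `≥ 0` on the inner circle: functions on `|t| ≤ r₁` -/
def B₁ : Subalgebra ℂ D.A₁ := subalg _ Sge zero_mem_Sge add_mem_Sge

theorem mem_B₁ {f : D.A₁} : f ∈ D.B₁ ↔ Supp Sge f := Iff.rfl

theorem isClosed_B₁ : IsClosed (D.B₁ : Set D.A₁) := isClosed_subalg _ _ _ _

instance : CompleteSpace D.B₁ := inferInstanceAs (CompleteSpace (subalg _ _ _ _))

/-! ### Evaluation outside and inside -/

theorem pow_le_rad₂ {t : ℂ} (ht : D.r₂ ≤ ‖t‖) : ∀ i ∈ Sle, ‖t ^ i‖ ≤ (Wt.rad D.r₂ D.h₂).w i := by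
  intro i hi
  have hi' : i ≤ 0 := hi
  show ‖t ^ i‖ ≤ D.r₂ ^ i
  rw [norm_zpow]
  obtain ⟨n, hn⟩ := Int.eq_ofNat_of_zero_le (neg_nonneg.2 hi')
  have hk2 : i = -(n : ℤ) := by
    have : -i = (n : ℤ) := hn
    omega
  rw [hk2, zpow_neg, zpow_neg, zpow_natCast, zpow_natCast]
  exact inv_anti₀ (pow_pos D.h₂ n) (pow_le_pow_left₀ D.h₂.le ht n)

theorem pow_le_rad₁ {t : ℂ} (ht : ‖t‖ ≤ D.r₁) : ∀ i ∈ Sge, ‖t ^ i‖ ≤ (Wt.rad D.r₁ D.h₁).w i := by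
  intro i hi
  show ‖t ^ i‖ ≤ D.r₁ ^ i
  obtain ⟨n, rfl⟩ := Int.eq_ofNat_of_zero_le hi
  rw [norm_zpow, zpow_natCast, zpow_natCast]
  exact pow_le_pow_left₀ (norm_nonneg t) ht n

theorem zpow_add_ge (t : ℂ) : ∀ i ∈ Sge, ∀ j ∈ Sge, t ^ (i + j) = t ^ i * t ^ j := by
  intro i hi j hj
  obtain ⟨m, rfl⟩ := Int.eq_ofNat_of_zero_le hi
  obtain ⟨n, rfl⟩ := Int.eq_ofNat_of_zero_le hj
  rw [← Nat.cast_add, zpow_natCast, zpow_natCast, zpow_natCast, pow_add]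

/-- the value at a point `|t| ≥ r₂`, as an algebra homomorphism -/
def ev₂ (t : ℂ) (ht : D.r₂ ≤ ‖t‖) : D.B₂ →ₐ[ℂ] ℂ :=
  AlgHom.ofLinearMap
    { toFun := fun f => val t f.1
      map_add' := fun f g => val_add (D.pow_le_rad₂ ht) f.2 g.2
      map_smul' := fun c f => val_smul t c f.1 }
    (val_one t)
    (fun f g => val_mul (fun i _ j _ => zpow_add₀ (by
      rintro rfl
      rw [norm_zero] at ht
      exact absurd D.h₂ (not_lt.2 ht)) i j) (D.pow_le_rad₂ ht) f.2 g.2)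

theorem ev₂_apply (t : ℂ) (ht : D.r₂ ≤ ‖t‖) (f : D.B₂) : D.ev₂ t ht f = val t f.1 := rfl

theorem norm_ev₂_le (t : ℂ) (ht : D.r₂ ≤ ‖t‖) (f : D.B₂) : ‖D.ev₂ t ht f‖ ≤ ‖f.1‖ :=
  norm_val_le (D.pow_le_rad₂ ht) f.2

/-- the value at infinity, as an algebra homomorphism -/
def evInf : D.B₂ →ₐ[ℂ] ℂ :=
  AlgHom.ofLinearMap
    { toFun := fun f => f.1.co 0
      map_add' := fun f g => co_add f.1 g.1 0
      map_smul' := fun c f => co_smul c f.1 0 }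
    (by
      show (1 : D.A₂).co 0 = 1
      rw [co_one, if_pos rfl])
    (fun f g => by
      show (f.1 * g.1).co 0 = f.1.co 0 * g.1.co 0
      rw [co_mul, tsum_eq_single 0, sub_zero]
      intro i hi
      rcases lt_or_gt_of_ne hi with h | h
      · rw [g.2 (0 - i) (by
          show ¬ (0 - i ≤ 0)
          omega), mul_zero]
      · rw [f.2 i (by
          show ¬ (i ≤ 0)
          omega), zero_mul])

theorem evInf_apply (f : D.B₂) : D.evInf f = f.1.co 0 := rfl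

theorem norm_evInf_le (f : D.B₂) : ‖D.evInf f‖ ≤ ‖f.1‖ := by
  have h := norm_co_le f.1 0
  rwa [(Wt.rad D.r₂ D.h₂).zero, mul_one] at h

/-- the value at a point `|t| ≤ r₁` (zero included), as an algebra homomorphism -/
def ev₁ (t : ℂ) (ht : ‖t‖ ≤ D.r₁) : D.B₁ →ₐ[ℂ] ℂ :=
  AlgHom.ofLinearMap
    { toFun := fun f => val t f.1
      map_add' := fun f g => val_add (D.pow_le_rad₁ ht) f.2 g.2
      map_smul' := fun c f => val_smul t c f.1 }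
    (val_one t)
    (fun f g => val_mul (zpow_add_ge t) (D.pow_le_rad₁ ht) f.2 g.2)

theorem ev₁_apply (t : ℂ) (ht : ‖t‖ ≤ D.r₁) (f : D.B₁) : D.ev₁ t ht f = val t f.1 := rfl

theorem norm_ev₁_le (t : ℂ) (ht : ‖t‖ ≤ D.r₁) (f : D.B₁) : ‖D.ev₁ t ht f‖ ≤ ‖f.1‖ :=
  norm_val_le (D.pow_le_rad₁ ht) f.2

/-- the value at zero is the constant coefficient -/
theorem val_zero_eq {ω : Wt} {f : W ω} (hf : Supp Sge f) : val 0 f = f.co 0 := by
  unfold val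
  rw [tsum_eq_single 0, zpow_zero, mul_one]
  intro k hk
  by_cases h : k ∈ Sge
  · rw [zero_zpow k hk, mul_zero]
  · rw [hf k h, zero_mul]

theorem ev₁_zero (f : D.B₁) (h : ‖(0 : ℂ)‖ ≤ D.r₁) : D.ev₁ 0 h f = f.1.co 0 :=
  val_zero_eq f.2

/-- the value of an element of the annulus algebra at a point of the closed annulus -/
def evA (t : ℂ) (ht1 : D.r₁ ≤ ‖t‖) (ht2 : ‖t‖ ≤ D.r₂) : D.A →ₐ[ℂ] ℂ :=
  ev t (by
    rintro rfl
    rw [norm_zero] at ht1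
    exact absurd D.h₁ (not_lt.2 ht1)) (Wt.ann_zpow_le D.h₁ D.h₂ ht1 ht2)

theorem evA_apply (t : ℂ) (ht1 : D.r₁ ≤ ‖t‖) (ht2 : ‖t‖ ≤ D.r₂) (f : D.A) :
    D.evA t ht1 ht2 f = val t f := rfl

theorem norm_evA_le (t : ℂ) (ht1 : D.r₁ ≤ ‖t‖) (ht2 : ‖t‖ ≤ D.r₂) (f : D.A) :
    ‖D.evA t ht1 ht2 f‖ ≤ ‖f‖ := norm_ev_le _ _ _ f

/-- the values only depend on the coefficients -/
theorem val_congr {ω ω' : Wt} {f : W ω} {g : W ω'} (h : ∀ k, f.co k = g.co k) (t : ℂ) :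
    val t f = val t g := by
  unfold val
  exact tsum_congr fun k => by rw [h k]

theorem val_ρ₁ (f : D.A) (t : ℂ) : val t (D.ρ₁ f) = val t f := val_congr (D.co_ρ₁ f) t
theorem val_ρ₂ (f : D.A) (t : ℂ) : val t (D.ρ₂ f) = val t f := val_congr (D.co_ρ₂ f) t

/-! ### The inner circle -/

/-- the value at `t₁` of the part with powers `> 0`, as a continuous linear form -/
def posVal : D.A₁ →L[ℂ] ℂ :=
  LinearMap.mkContinuous
    { toFun := fun f => val D.t₁ (proj Sgt f)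
      map_add' := fun f g => by
        rw [map_add]
        exact val_add (S := Sge) (D.pow_le_rad₁ D.t₁r)
          (Supp.mono_set Sgt_subset (supp_proj _ _))
          (Supp.mono_set Sgt_subset (supp_proj _ _))
      map_smul' := fun c f => by
        rw [map_smul]
        exact val_smul _ _ _ } 1 (fun f => by
    rw [one_mul]
    refine (norm_val_le (S := Sge) (D.pow_le_rad₁ D.t₁r)
      (Supp.mono_set Sgt_subset (supp_proj _ _))).trans ?_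
    exact norm_proj_le _ _)

theorem posVal_apply (f : D.A₁) : D.posVal f = val D.t₁ (proj Sgt f) := rfl

theorem norm_posVal_le (f : D.A₁) : ‖D.posVal f‖ ≤ ‖f‖ := by
  have h2 := D.posVal.le_of_opNorm_le (LinearMap.mkContinuous_norm_le _ zero_le_one _) f
  rwa [one_mul] at h2

/-- the part with powers `≤ 0` of a function on the inner circle, on the annulus, plus the
multiple of `t` which has at `t₁` the value of the part with powers `> 0` -/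
def Q₁ : D.A₁ →L[ℂ] D.A :=
  lift Sle (fun _ hk => D.w_le hk) +
    D.posVal.smulRight (mono (Wt.ann D.r₁ D.r₂ D.h₁ D.h₂) 1 (D.t₁⁻¹))

theorem Q₁_apply (f : D.A₁) : D.Q₁ f = lift Sle (fun _ hk => D.w_le hk) f +
    D.posVal f • mono (Wt.ann D.r₁ D.r₂ D.h₁ D.h₂) 1 (D.t₁⁻¹) := rfl

/-- the norm bound of `Q₁` -/
def C₁ : ℝ := 1 + D.r₂ / ‖D.t₁‖

theorem C₁_pos : 0 < D.C₁ := by
  have := norm_pos_iff.2 D.t₁0
  have := D.h₂
  unfold C₁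
  positivity

theorem norm_Q₁_le (f : D.A₁) : ‖D.Q₁ f‖ ≤ D.C₁ * ‖f‖ := by
  rw [Q₁_apply]
  refine (norm_add_le _ _).trans ?_
  have h1 := norm_lift_le (fun _ hk => D.w_le hk) f
  have h2 : ‖D.posVal f • mono (Wt.ann D.r₁ D.r₂ D.h₁ D.h₂) 1 (D.t₁⁻¹)‖
      ≤ D.r₂ / ‖D.t₁‖ * ‖f‖ := by
    rw [norm_smul, norm_mono, norm_inv]
    have h3 : (Wt.ann D.r₁ D.r₂ D.h₁ D.h₂).w 1 = D.r₂ := by
      rw [Wt.ann_nonneg D.h₁ D.h12 (zero_le_one)]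
      exact zpow_one _
    rw [h3]
    have h4 := D.norm_posVal_le f
    have h5 : 0 ≤ ‖D.t₁‖⁻¹ * D.r₂ := mul_nonneg (inv_nonneg.2 (norm_nonneg _)) D.h₂.le
    calc ‖D.posVal f‖ * (‖D.t₁‖⁻¹ * D.r₂) ≤ ‖f‖ * (‖D.t₁‖⁻¹ * D.r₂) :=
          mul_le_mul_of_nonneg_right h4 h5
      _ = D.r₂ / ‖D.t₁‖ * ‖f‖ := by ring
  unfold C₁
  linarith

theorem val_proj_gt_add {f g : D.A₁} (hf : Supp Sge f) (hg : Supp Sge g) :
    val D.t₁ (f + g) = val D.t₁ f + val D.t₁ g :=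
  val_add (S := Sge) (D.pow_le_rad₁ D.t₁r) hf hg

/-- powers `> 0` on the inner circle with value `0` at `t₁` -/
def N₁ : AddSubgroup D.A₁ where
  carrier := {f | Supp Sgt f ∧ val D.t₁ f = 0}
  add_mem' := by
    rintro f g ⟨hf, hf'⟩ ⟨hg, hg'⟩
    refine ⟨Supp.add hf hg, ?_⟩
    rw [D.val_proj_gt_add (Supp.mono_set Sgt_subset hf)
      (Supp.mono_set Sgt_subset hg), hf', hg', add_zero]
  zero_mem' := by
    refine ⟨supp_zero _, ?_⟩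
    unfold val
    simp
  neg_mem' := by
    rintro f ⟨hf, hf'⟩
    refine ⟨Supp.neg hf, ?_⟩
    have : -f = (-1 : ℂ) • f := by simp
    rw [this, val_smul, hf', mul_zero]

theorem mem_N₁ {f : D.A₁} : f ∈ D.N₁ ↔ Supp Sgt f ∧ val D.t₁ f = 0 := Iff.rfl

theorem N₁_le_B₁ {f : D.A₁} (hf : f ∈ D.N₁) : f ∈ D.B₁ :=
  Supp.mono_set Sgt_subset hf.1

theorem ρ₁_mono (k : ℤ) (c : ℂ) :
    D.ρ₁ (mono (Wt.ann D.r₁ D.r₂ D.h₁ D.h₂) k c) = mono _ k c := by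
  apply W.ext
  intro j
  rw [co_ρ₁, co_mono, co_mono]

theorem ρ₂_mono (k : ℤ) (c : ℂ) :
    D.ρ₂ (mono (Wt.ann D.r₁ D.r₂ D.h₁ D.h₂) k c) = mono _ k c := by
  apply W.ext
  intro j
  rw [co_ρ₂, co_mono, co_mono]

theorem ρ₁_Q₁ (f : D.A₁) : D.ρ₁ (D.Q₁ f) = proj Sle f +
    D.posVal f • mono (Wt.rad D.r₁ D.h₁) 1 (D.t₁⁻¹) := by
  rw [Q₁_apply, map_add, map_smul, ρ₁_mono]
  congr 1
  apply W.ext
  intro k
  rw [co_ρ₁, co_lift, co_proj]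

theorem sub_Q₁_eq (f : D.A₁) : f - D.ρ₁ (D.Q₁ f) = proj Sgt f +
    (-D.posVal f) • mono (Wt.rad D.r₁ D.h₁) 1 (D.t₁⁻¹) := by
  rw [ρ₁_Q₁]
  have h : f = proj Sle f + proj Sgt f := by
    have h1 := proj_add_compl Sle f
    have h2 : (Sle)ᶜ = Sgt := by
      ext k
      show ¬ (k ≤ 0) ↔ 0 < k
      omega
    rw [h2] at h1
    exact h1.symm
  nth_rewrite 1 [h]
  rw [neg_smul]
  abel

theorem sub_Q₁_mem (f : D.A₁) : f - D.ρ₁ (D.Q₁ f) ∈ D.N₁ := by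
  rw [sub_Q₁_eq]
  have h1 : Supp Sgt (mono (Wt.rad D.r₁ D.h₁) 1 (D.t₁⁻¹)) :=
    supp_mono (show (0 : ℤ) < 1 by norm_num) _
  refine ⟨Supp.add (supp_proj _ _) (Supp.smul _ h1), ?_⟩
  rw [D.val_proj_gt_add (Supp.mono_set Sgt_subset (supp_proj _ _))
    (Supp.mono_set Sgt_subset (Supp.smul _ h1)), val_smul, val_mono,
    zpow_one, inv_mul_cancel₀ D.t₁0, ← posVal_apply]
  ring

/-! ### The parameter of the curves -/

/-- `λ(t) = (r/t)^N` -/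
def lam (N : ℕ) : D.A := mono _ (-(N : ℤ)) ((D.r : ℂ) ^ N)
/-- `μ(t) = (t/r)^N` -/
def mu (N : ℕ) : D.A := mono _ (N : ℤ) (((D.r : ℂ) ^ N)⁻¹)

theorem mono_mul_mono {ω : Wt} (i j : ℤ) (a b : ℂ) :
    mono ω i a * mono ω j b = mono ω (i + j) (a * b) := by
  apply W.ext
  intro n
  rw [co_mono_mul, co_mono, co_mono]
  by_cases h : n - i = j
  · rw [if_pos h, if_pos (by omega)]
  · rw [if_neg h, if_neg (by omega), mul_zero]

theorem lam_mul_mu (N : ℕ) : D.lam N * D.mu N = 1 := by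
  have h0 : ((D.r : ℂ) ^ N) ≠ 0 := pow_ne_zero _ (by exact_mod_cast D.hr.ne')
  unfold lam mu
  rw [mono_mul_mono, neg_add_cancel, mul_inv_cancel₀ h0]
  rfl

theorem norm_ρ₂_lam (N : ℕ) : ‖D.ρ₂ (D.lam N)‖ = (D.r / D.r₂) ^ N := by
  unfold lam
  rw [ρ₂_mono, norm_mono]
  show ‖(D.r : ℂ) ^ N‖ * D.r₂ ^ (-(N : ℤ)) = _
  rw [norm_pow, Complex.norm_real, Real.norm_of_nonneg D.hr.le, zpow_neg, zpow_natCast,
    div_pow, div_eq_mul_inv]

theorem norm_ρ₁_mu (N : ℕ) : ‖D.ρ₁ (D.mu N)‖ = (D.r₁ / D.r) ^ N := by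
  unfold mu
  rw [ρ₁_mono, norm_mono]
  show ‖((D.r : ℂ) ^ N)⁻¹‖ * D.r₁ ^ (N : ℤ) = _
  rw [norm_inv, norm_pow, Complex.norm_real, Real.norm_of_nonneg D.hr.le, zpow_natCast,
    div_pow, div_eq_inv_mul]

/-- for large `N` both `λ` on the outer circle and `μ` on the inner circle are small -/
theorem exists_small (ε : ℝ) (hε : 0 < ε) :
    ∃ N₀ : ℕ, ∀ N ≥ N₀, ‖D.ρ₂ (D.lam N)‖ ≤ ε ∧ ‖D.ρ₁ (D.mu N)‖ ≤ ε := by
  have q2 : D.r / D.r₂ < 1 := (div_lt_one D.h₂).2 D.hr₂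
  have q1 : D.r₁ / D.r < 1 := (div_lt_one D.hr).2 D.h₁r
  have p2 : 0 ≤ D.r / D.r₂ := div_nonneg D.hr.le D.h₂.le
  have p1 : 0 ≤ D.r₁ / D.r := div_nonneg D.h₁.le D.hr.le
  have h2 := (tendsto_pow_atTop_nhds_zero_of_lt_one p2 q2).eventually (gt_mem_nhds hε)
  have h1 := (tendsto_pow_atTop_nhds_zero_of_lt_one p1 q1).eventually (gt_mem_nhds hε)
  obtain ⟨N₀, hN⟩ := Filter.eventually_atTop.1 (h2.and h1)
  refine ⟨N₀, fun N h => ?_⟩
  rw [norm_ρ₂_lam, norm_ρ₁_mu]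
  exact ⟨(hN N h).1.le, (hN N h).2.le⟩

theorem val_lam (N : ℕ) (t : ℂ) : val t (D.lam N) = ((D.r : ℂ) / t) ^ N := by
  unfold lam
  rw [val_mono, zpow_neg, zpow_natCast, div_pow, div_eq_mul_inv]

theorem val_mu (N : ℕ) (t : ℂ) : val t (D.mu N) = (t / (D.r : ℂ)) ^ N := by
  unfold mu
  rw [val_mono, zpow_natCast, div_pow, div_eq_inv_mul]

/-- the coefficients of `μ^d S`, if `S` has exponents in a set -/
theorem co_mu_pow_mul (N d : ℕ) (f : D.A) (k : ℤ) :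
    (D.mu N ^ d * f).co k = (((D.r : ℂ) ^ N)⁻¹) ^ d * f.co (k - (N * d : ℕ)) := by
  have h : ∀ d : ℕ, D.mu N ^ d = mono _ ((N * d : ℕ) : ℤ) ((((D.r : ℂ) ^ N)⁻¹) ^ d) := by
    intro d
    induction d with
    | zero => simp [one_def]
    | succ d ih =>
      rw [pow_succ, ih]
      unfold mu
      rw [mono_mul_mono]
      congr 1
  rw [h, co_mono_mul]

/-- if `S` has no powers `> 0` and `μ^d S` no powers `< 0` then `S` has exponents in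
`[-Nd, 0]` -/
theorem supp_of_both {N d : ℕ} {f : D.A} (h2 : D.ρ₂ f ∈ D.B₂)
    (h1 : D.ρ₁ (D.mu N ^ d * f) ∈ D.B₁) : Supp (Set.Icc (-((N * d : ℕ) : ℤ)) 0) f := by
  intro k hk
  by_cases hk0 : k ≤ 0
  · have hk1 : k < -((N * d : ℕ) : ℤ) := by
      by_contra hc
      exact hk ⟨not_lt.1 hc, hk0⟩
    have h3 : (D.mu N ^ d * f).co (k + (N * d : ℕ)) = 0 := by
      rw [← co_ρ₁]
      refine h1 _ ?_
      show ¬ (0 ≤ k + ((N * d : ℕ) : ℤ))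
      omega
    rw [co_mu_pow_mul, add_sub_cancel_right] at h3
    have h0 : (((D.r : ℂ) ^ N)⁻¹) ^ d ≠ 0 :=
      pow_ne_zero _ (inv_ne_zero (pow_ne_zero _ (by exact_mod_cast D.hr.ne')))
    exact (mul_eq_zero.1 h3).resolve_left h0
  · have := h2 k hk0
    rwa [co_ρ₂] at this

end Dat

end Pool.Agent.VF.GlueW
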