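import Mathlib

/-!
# A uniform implicit function theorem over commutative Banach algebras

For polynomial equations `E j (a, x) = 0` with coefficients in a normed commutative ring `W`
and a base point at which the Jacobian in `x` is invertible, the solution `x` near the base
point exists and is unique over EVERY complete normed commutative ring `W'` with a
norm-nonincreasing ring homomorphism `W → W'`, with the same radii.
-/

namespace Pool.Agent.VF

open MvPolynomial Finset

universe u v

section

variable {W : Type u} [NormedCommRing W] {σ : Type} [Fintype σ] [DecidableEq σ]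

omit [Fintype σ] [DecidableEq σ] in
theorem eval₂_comp_eval {W' : Type v} [CommRing W'] (φ : W →+* W') (p : σ → W)
    (f : MvPolynomial σ W) : eval₂ φ (fun s => φ (p s)) f = φ (eval p f) := by
  induction f using MvPolynomial.induction_on with
  | C a => simp
  | add f g hf hg => simp [eval₂_add, hf, hg]
  | mul_X f s hf => simp [eval₂_mul, hf]

/-- Strict differentiability of a polynomial at a point, with constants that do not depend on
the ring of values. -/
theorem strict (p : σ → W) (f : MvPolynomial σ W) :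
    ∃ C : ℝ, 0 ≤ C ∧ ∀ (W' : Type v) [NormedCommRing W'] (φ : W →+* W'),
      (∀ x, ‖φ x‖ ≤ ‖x‖) → ∀ (y y' : σ → W') (r d : ℝ), 0 ≤ r → r ≤ 1 → 0 ≤ d →
      (∀ s, ‖y s - φ (p s)‖ ≤ r) → (∀ s, ‖y' s - φ (p s)‖ ≤ r) → (∀ s, ‖y s - y' s‖ ≤ d) →
      ‖eval₂ φ y f - eval₂ φ y' f‖ ≤ C * d ∧
      ‖eval₂ φ y f - eval₂ φ y' f - ∑ s, φ (eval p (pderiv s f)) * (y s - y' s)‖
        ≤ C * r * d := by
  induction f using MvPolynomial.induction_on with
  | C a =>
    refine ⟨0, le_rfl, ?_⟩
    intro W' _ φ hφ y y' r d hr hr1 hd h1 h2 h3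
    simp
  | add f g hf hg =>
    obtain ⟨C, hC, hf⟩ := hf
    obtain ⟨D, hD, hg⟩ := hg
    refine ⟨C + D, by positivity, ?_⟩
    intro W' _ φ hφ y y' r d hr hr1 hd h1 h2 h3
    obtain ⟨a1, a2⟩ := hf W' φ hφ y y' r d hr hr1 hd h1 h2 h3
    obtain ⟨b1, b2⟩ := hg W' φ hφ y y' r d hr hr1 hd h1 h2 h3
    constructor
    · have e : eval₂ φ y (f + g) - eval₂ φ y' (f + g)
          = (eval₂ φ y f - eval₂ φ y' f) + (eval₂ φ y g - eval₂ φ y' g) := by
        rw [eval₂_add, eval₂_add]; ring
      rw [e]
      refine (norm_add_le _ _).trans ?_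
      linarith [add_mul C D d]
    · have e : eval₂ φ y (f + g) - eval₂ φ y' (f + g)
            - ∑ s, φ (eval p (pderiv s (f + g))) * (y s - y' s)
          = (eval₂ φ y f - eval₂ φ y' f - ∑ s, φ (eval p (pderiv s f)) * (y s - y' s))
            + (eval₂ φ y g - eval₂ φ y' g - ∑ s, φ (eval p (pderiv s g)) * (y s - y' s)) := by
        have e2 : ∑ s, φ (eval p (pderiv s (f + g))) * (y s - y' s)
            = ∑ s, φ (eval p (pderiv s f)) * (y s - y' s)
              + ∑ s, φ (eval p (pderiv s g)) * (y s - y' s) := by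
          rw [← Finset.sum_add_distrib]
          refine Finset.sum_congr rfl fun s _ => ?_
          rw [map_add, map_add, map_add]; ring
        rw [e2, eval₂_add, eval₂_add]; ring
      rw [e]
      refine (norm_add_le _ _).trans ?_
      nlinarith
  | mul_X f t hf =>
    obtain ⟨C, hC, hf⟩ := hf
    set A : ℝ := ∑ s, ‖eval p (pderiv s f)‖ with hA
    have hA0 : 0 ≤ A := Finset.sum_nonneg fun _ _ => norm_nonneg _
    refine ⟨C * (‖p t‖ + 1) + A + C + ‖eval p f‖, by positivity, ?_⟩
    intro W' _ φ hφ y y' r d hr hr1 hd h1 h2 h3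
    obtain ⟨a1, a2⟩ := hf W' φ hφ y y' r d hr hr1 hd h1 h2 h3
    have b1 := (hf W' φ hφ y' (fun s => φ (p s)) r r hr hr1 hr h2
      (fun s => by simpa using hr) h2).1
    rw [eval₂_comp_eval] at b1
    have yt : ‖y t‖ ≤ ‖p t‖ + 1 := by
      have : y t = φ (p t) + (y t - φ (p t)) := by ring
      rw [this]
      refine (norm_add_le _ _).trans (add_le_add (hφ _) ((h1 t).trans hr1))
    have fy' : ‖eval₂ φ y' f‖ ≤ C + ‖eval p f‖ := by
      have : eval₂ φ y' f = (eval₂ φ y' f - φ (eval p f)) + φ (eval p f) := by ring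
      rw [this]
      refine (norm_add_le _ _).trans (add_le_add (b1.trans ?_) (hφ _))
      nlinarith
    have lin : ‖∑ s, φ (eval p (pderiv s f)) * (y s - y' s)‖ ≤ A * d := by
      refine (norm_sum_le _ _).trans ?_
      rw [hA, Finset.sum_mul]
      refine Finset.sum_le_sum fun s _ => ?_
      refine (norm_mul_le _ _).trans (mul_le_mul (hφ _) (h3 s) (norm_nonneg _) (norm_nonneg _))
    constructor
    · have e : eval₂ φ y (f * X t) - eval₂ φ y' (f * X t)
          = (eval₂ φ y f - eval₂ φ y' f) * y t + eval₂ φ y' f * (y t - y' t) := by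
        rw [eval₂_mul, eval₂_mul, eval₂_X, eval₂_X]; ring
      rw [e]
      refine (norm_add_le _ _).trans ?_
      have c1 : ‖(eval₂ φ y f - eval₂ φ y' f) * y t‖ ≤ (C * d) * (‖p t‖ + 1) :=
        (norm_mul_le _ _).trans (mul_le_mul a1 yt (norm_nonneg _) (by positivity))
      have c2 : ‖eval₂ φ y' f * (y t - y' t)‖ ≤ (C + ‖eval p f‖) * d :=
        (norm_mul_le _ _).trans (mul_le_mul fy' (h3 t) (norm_nonneg _) (by positivity))
      nlinarith [mul_nonneg hA0 hd]
    · have e2 : ∑ s, φ (eval p (pderiv s (f * X t))) * (y s - y' s)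
          = (∑ s, φ (eval p (pderiv s f)) * (y s - y' s)) * φ (p t)
            + φ (eval p f) * (y t - y' t) := by
        have e3 : ∀ s, φ (eval p (pderiv s (f * X t))) * (y s - y' s)
            = φ (eval p (pderiv s f)) * (y s - y' s) * φ (p t)
              + (if s = t then φ (eval p f) * (y t - y' t) else 0) := by
          intro s
          rw [Derivation.leibniz, pderiv_X]
          by_cases h : s = t
          · subst h
            simp
            ring
          · simp [h]
            ring
        rw [Finset.sum_congr rfl fun s _ => e3 s, Finset.sum_add_distrib, Finset.sum_mul]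
        simp
      have e : eval₂ φ y (f * X t) - eval₂ φ y' (f * X t)
            - ∑ s, φ (eval p (pderiv s (f * X t))) * (y s - y' s)
          = (eval₂ φ y f - eval₂ φ y' f - ∑ s, φ (eval p (pderiv s f)) * (y s - y' s)) * y t
            + (∑ s, φ (eval p (pderiv s f)) * (y s - y' s)) * (y t - φ (p t))
            + (eval₂ φ y' f - φ (eval p f)) * (y t - y' t) := by
        rw [e2, eval₂_mul, eval₂_mul, eval₂_X, eval₂_X]; ring
      rw [e]
      refine (norm_add_le _ _).trans ?_
      have c0 := norm_add_le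
        ((eval₂ φ y f - eval₂ φ y' f - ∑ s, φ (eval p (pderiv s f)) * (y s - y' s)) * y t)
        ((∑ s, φ (eval p (pderiv s f)) * (y s - y' s)) * (y t - φ (p t)))
      have c1 : ‖(eval₂ φ y f - eval₂ φ y' f - ∑ s, φ (eval p (pderiv s f)) * (y s - y' s))
          * y t‖ ≤ (C * r * d) * (‖p t‖ + 1) :=
        (norm_mul_le _ _).trans (mul_le_mul a2 yt (norm_nonneg _) (by positivity))
      have c2 : ‖(∑ s, φ (eval p (pderiv s f)) * (y s - y' s)) * (y t - φ (p t))‖
          ≤ (A * d) * r :=
        (norm_mul_le _ _).trans (mul_le_mul lin (h1 t) (norm_nonneg _) (by positivity))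
      have c3 : ‖(eval₂ φ y' f - φ (eval p f)) * (y t - y' t)‖ ≤ (C * r) * d :=
        (norm_mul_le _ _).trans (mul_le_mul b1 (h3 t) (norm_nonneg _) (by positivity))
      have c4 : 0 ≤ ‖eval p f‖ * r * d := by positivity
      nlinarith
end

section

variable {W : Type u} [NormedCommRing W] {ι κ : Type} [Fintype ι] [Fintype κ]
  [DecidableEq ι] [DecidableEq κ]

/-- Uniform implicit function theorem: the radii do not depend on the Banach algebra. -/
theorem graph (E : κ → MvPolynomial (ι ⊕ κ) W) (p : ι ⊕ κ → W)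
    (hE : ∀ j, eval p (E j) = 0)
    (hJ : IsUnit (Matrix.of fun i j => eval p (pderiv (Sum.inr j) (E i)) :
      Matrix κ κ W).det) :
    ∃ ε₀ : ℝ, 0 < ε₀ ∧ ∀ ε : ℝ, 0 < ε → ε ≤ ε₀ → ∃ δ : ℝ, 0 < δ ∧ δ ≤ ε ∧
      ∀ (W' : Type v) [NormedCommRing W'] [CompleteSpace W'] (φ : W →+* W'),
      (∀ x, ‖φ x‖ ≤ ‖x‖) → ∀ a : ι → W', (∀ i, ‖a i - φ (p (Sum.inl i))‖ ≤ δ) →
      ∃! x : κ → W', (∀ j, ‖x j - φ (p (Sum.inr j))‖ ≤ ε) ∧
        ∀ j, eval₂ φ (Sum.elim a x) (E j) = 0 := by
  set J : Matrix κ κ W := Matrix.of fun i j => eval p (pderiv (Sum.inr j) (E i)) with hJdef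
  set M : Matrix κ κ W := J⁻¹ with hM
  have hMJ : M * J = 1 := Matrix.nonsing_inv_mul J hJ
  have hJM : J * M = 1 := Matrix.mul_nonsing_inv J hJ
  choose C hC0 hC using fun j => strict.{u, v} p (E j)
  set B : ℝ := ∑ i, ∑ j, ‖M i j‖ * C j with hB
  have hB0 : 0 ≤ B := Finset.sum_nonneg fun i _ => Finset.sum_nonneg fun j _ =>
    mul_nonneg (norm_nonneg _) (hC0 j)
  have hBi : ∀ i, ∑ j, ‖M i j‖ * C j ≤ B := fun i =>
    Finset.single_le_sum (f := fun i => ∑ j, ‖M i j‖ * C j)
      (fun i _ => Finset.sum_nonneg fun j _ => mul_nonneg (norm_nonneg _) (hC0 j))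
      (Finset.mem_univ i)
  refine ⟨min 1 (1 / (2 * (B + 1))), by positivity, ?_⟩
  intro ε hε hε0
  have hε1 : ε ≤ 1 := hε0.trans (min_le_left _ _)
  have hε2 : B * ε ≤ 1 / 2 := by
    have h := hε0.trans (min_le_right _ _)
    have h3 : (B + 1) * ε ≤ 1 / 2 := by
      calc (B + 1) * ε ≤ (B + 1) * (1 / (2 * (B + 1))) := by gcongr
        _ = 1 / 2 := by field_simp
    nlinarith
  refine ⟨min ε (ε / (2 * (B + 1))), by positivity, min_le_left _ _, ?_⟩
  intro W' _ _ φ hφ a ha
  have haε : ∀ i, ‖a i - φ (p (Sum.inl i))‖ ≤ ε := fun i => (ha i).trans (min_le_left _ _)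
  set x₀ : κ → W' := fun j => φ (p (Sum.inr j)) with hx₀
  set F : (κ → W') → κ → W' := fun x j => eval₂ φ (Sum.elim a x) (E j) with hF
  set T : (κ → W') → κ → W' := fun x i => x i - ∑ j, φ (M i j) * F x j with hT
  have key : ∀ x x' : κ → W', (∀ j, ‖x j - x₀ j‖ ≤ ε) → (∀ j, ‖x' j - x₀ j‖ ≤ ε) →
      ∀ d : ℝ, 0 ≤ d → (∀ j, ‖x j - x' j‖ ≤ d) → ∀ i, ‖T x i - T x' i‖ ≤ 1 / 2 * d := by
    intro x x' hx hx' d hd hd' i
    have st : ∀ j, ‖F x j - F x' j - ∑ l, φ (J j l) * (x l - x' l)‖ ≤ C j * ε * d := by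
      intro j
      have h := (hC j W' φ hφ (Sum.elim a x) (Sum.elim a x') ε d hε.le hε1 hd ?_ ?_ ?_).2
      · have e : ∑ s, φ (eval p (pderiv s (E j))) * (Sum.elim a x s - Sum.elim a x' s)
            = ∑ l, φ (J j l) * (x l - x' l) := by
          rw [Fintype.sum_sum_type]
          simp [hJdef]
        rw [e] at h
        exact h
      · rintro (s | s)
        · simpa using haε s
        · simpa using hx s
      · rintro (s | s)
        · simpa using haε s
        · simpa using hx' s
      · rintro (s | s)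
        · simpa using hd
        · simpa using hd' s
    have e1 : T x i - T x' i
        = - ∑ j, φ (M i j) * (F x j - F x' j - ∑ l, φ (J j l) * (x l - x' l)) := by
      have e2 : ∑ j, φ (M i j) * (∑ l, φ (J j l) * (x l - x' l)) = x i - x' i := by
        have e3 : ∑ j, φ (M i j) * (∑ l, φ (J j l) * (x l - x' l))
            = ∑ l, φ ((M * J) i l) * (x l - x' l) := by
          simp only [Finset.mul_sum, Matrix.mul_apply, map_sum, map_mul, Finset.sum_mul]
          rw [Finset.sum_comm]
          refine Finset.sum_congr rfl fun l _ => Finset.sum_congr rfl fun j _ => ?_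
          ring
        rw [e3, hMJ]
        simp [Matrix.one_apply]
      have e4 : ∑ j, φ (M i j) * (F x j - F x' j - ∑ l, φ (J j l) * (x l - x' l))
          = ∑ j, φ (M i j) * F x j - ∑ j, φ (M i j) * F x' j - (x i - x' i) := by
        rw [← e2, ← Finset.sum_sub_distrib, ← Finset.sum_sub_distrib]
        refine Finset.sum_congr rfl fun j _ => ?_
        ring
      rw [e4]
      simp only [hT]
      ring
    rw [e1, norm_neg]
    refine (norm_sum_le _ _).trans ?_
    calc ∑ j, ‖φ (M i j) * (F x j - F x' j - ∑ l, φ (J j l) * (x l - x' l))‖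
        ≤ ∑ j, (‖M i j‖ * C j) * (ε * d) := by
          refine Finset.sum_le_sum fun j _ => ?_
          refine (norm_mul_le _ _).trans ?_
          refine (mul_le_mul (hφ _) (st j) (norm_nonneg _) (norm_nonneg _)).trans ?_
          exact le_of_eq (by ring)
      _ = (∑ j, ‖M i j‖ * C j) * (ε * d) := by rw [Finset.sum_mul]
      _ ≤ B * (ε * d) := by gcongr; exact hBi i
      _ = (B * ε) * d := by ring
      _ ≤ 1 / 2 * d := by gcongr
  have base : ∀ i, ‖T x₀ i - x₀ i‖ ≤ ε / 2 := by
    intro i
    have st : ∀ j, ‖F x₀ j‖ ≤ C j * min ε (ε / (2 * (B + 1))) := by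
      intro j
      have h := (hC j W' φ hφ (Sum.elim a x₀) (fun s => φ (p s)) ε
        (min ε (ε / (2 * (B + 1)))) hε.le hε1 (by positivity) ?_ ?_ ?_).1
      · rw [eval₂_comp_eval, hE j, map_zero, sub_zero] at h
        exact h
      · rintro (s | s)
        · simpa using haε s
        · simpa [hx₀] using hε.le
      · intro s
        simpa using hε.le
      · rintro (s | s)
        · exact ha s
        · have h0 : (0 : ℝ) ≤ min ε (ε / (2 * (B + 1))) := by positivity
          simpa [hx₀] using h0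
    have e1 : T x₀ i - x₀ i = - ∑ j, φ (M i j) * F x₀ j := by
      simp only [hT]; ring
    rw [e1, norm_neg]
    refine (norm_sum_le _ _).trans ?_
    calc ∑ j, ‖φ (M i j) * F x₀ j‖
        ≤ ∑ j, (‖M i j‖ * C j) * min ε (ε / (2 * (B + 1))) := by
          refine Finset.sum_le_sum fun j _ => ?_
          refine (norm_mul_le _ _).trans ?_
          refine (mul_le_mul (hφ _) (st j) (norm_nonneg _) (norm_nonneg _)).trans ?_
          exact le_of_eq (by ring)
      _ = (∑ j, ‖M i j‖ * C j) * min ε (ε / (2 * (B + 1))) := by rw [Finset.sum_mul]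
      _ ≤ B * (ε / (2 * (B + 1))) := by
          have h0 : (0 : ℝ) ≤ min ε (ε / (2 * (B + 1))) := by positivity
          exact mul_le_mul (hBi i) (min_le_right _ _) h0 hB0
      _ ≤ ε / 2 := by
          rw [mul_div_assoc', div_le_div_iff₀ (by positivity) (by norm_num)]
          nlinarith
  have zero_iff : ∀ x, T x = x ↔ ∀ j, F x j = 0 := by
    intro x
    constructor
    · intro h
      have h1 : ∀ i, ∑ j, φ (M i j) * F x j = 0 := by
        intro i
        have := congrFun h i
        simp only [hT] at this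
        exact sub_eq_self.1 this
      intro l
      have h2 : ∑ i, φ (J l i) * ∑ j, φ (M i j) * F x j = F x l := by
        have e3 : ∑ i, φ (J l i) * ∑ j, φ (M i j) * F x j
            = ∑ j, φ ((J * M) l j) * F x j := by
          simp only [Finset.mul_sum, Matrix.mul_apply, map_sum, map_mul, Finset.sum_mul]
          rw [Finset.sum_comm]
          refine Finset.sum_congr rfl fun i _ => Finset.sum_congr rfl fun j _ => ?_
          ring
        rw [e3, hJM]
        simp [Matrix.one_apply]
      rw [← h2]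
      simp [h1]
    · intro h
      funext i
      simp only [hT, h]
      simp
  have memball : ∀ x : κ → W', x ∈ Metric.closedBall x₀ ε ↔ ∀ j, ‖x j - x₀ j‖ ≤ ε := by
    intro x
    rw [Metric.mem_closedBall, dist_eq_norm, pi_norm_le_iff_of_nonneg hε.le]
    simp
  have maps : Set.MapsTo T (Metric.closedBall x₀ ε) (Metric.closedBall x₀ ε) := by
    intro x hx
    rw [memball] at hx ⊢
    intro i
    have h1 := key x x₀ hx (fun j => by simpa using hε.le) ε hε.le hx i
    have h2 := base i
    have e : T x i - x₀ i = (T x i - T x₀ i) + (T x₀ i - x₀ i) := by ring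
    rw [e]
    refine (norm_add_le _ _).trans ?_
    linarith
  have contr : ContractingWith (1 / 2 : NNReal) (maps.restrict T _ _) := by
    refine ⟨by norm_num, LipschitzWith.of_dist_le_mul ?_⟩
    rintro ⟨x, hx⟩ ⟨x', hx'⟩
    have h := key x x' ((memball x).1 hx) ((memball x').1 hx') (dist x x') dist_nonneg
      (fun j => by
        rw [← dist_eq_norm]
        exact dist_le_pi_dist x x' j)
    change dist (T x) (T x') ≤ ((1 / 2 : NNReal) : ℝ) * dist x x'
    rw [dist_eq_norm, pi_norm_le_iff_of_nonneg (by positivity)]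
    intro i
    simpa using h i
  obtain ⟨x, hx, hfix, -⟩ := ContractingWith.exists_fixedPoint' (f := T)
    (Metric.isClosed_closedBall.isComplete) maps contr
    (x := x₀) (Metric.mem_closedBall_self hε.le) (edist_ne_top _ _)
  refine ⟨x, ⟨(memball x).1 hx, (zero_iff x).1 hfix⟩, ?_⟩
  rintro x' ⟨hx', hz'⟩
  have hfix' : T x' = x' := (zero_iff x').2 hz'
  have h := key x' x hx' ((memball x).1 hx) (dist x' x) dist_nonneg
      (fun j => by
        rw [← dist_eq_norm]
        exact dist_le_pi_dist x' x j)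
  have h2 : dist x' x ≤ 1 / 2 * dist x' x := by
    conv_lhs => rw [← hfix', ← hfix.eq]
    rw [dist_eq_norm, pi_norm_le_iff_of_nonneg (by positivity)]
    intro i
    simpa using h i
  have h3 : dist x' x = 0 := le_antisymm (by linarith) dist_nonneg
  exact dist_eq_zero.1 h3

end

end Pool.Agent.VF
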