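import Mathlib

/-!
The implicit function theorem for polynomial systems over a commutative Banach algebra.
-/

namespace Pool.Agent.VF

open Filter Topology

section Strict

variable {𝕜 : Type*} [NontriviallyNormedField 𝕜] {A : Type*} [NormedCommRing A]
  [NormedAlgebra 𝕜 A]

theorem hasStrictFDerivAt_mvPoly {σ : Type*} [Fintype σ] (φ : MvPolynomial σ A) (x : σ → A) :
    HasStrictFDerivAt (𝕜 := 𝕜) (fun y : σ → A => MvPolynomial.eval y φ)
      (∑ i, (MvPolynomial.eval x (MvPolynomial.pderiv i φ)) •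
        (ContinuousLinearMap.proj (R := 𝕜) (φ := fun _ : σ => A) i)) x := by
  classical
  induction φ using MvPolynomial.induction_on with
  | C a =>
    simp only [MvPolynomial.eval_C]
    refine (hasStrictFDerivAt_const (𝕜 := 𝕜) a x).congr_fderiv ?_
    ext v
    simp
  | add p q hp hq =>
    simp only [map_add]
    refine (hp.fun_add hq).congr_fderiv ?_
    ext v
    simp [add_mul, Finset.sum_add_distrib]
  | mul_X p j hp =>
    have h2 : HasStrictFDerivAt (𝕜 := 𝕜) (fun y : σ → A => y j)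
        (ContinuousLinearMap.proj (R := 𝕜) (φ := fun _ : σ => A) j) x :=
      (ContinuousLinearMap.proj (R := 𝕜) (φ := fun _ : σ => A) j).hasStrictFDerivAt
    have h3 := hp.mul h2
    simp only [map_mul, MvPolynomial.eval_X]
    refine h3.congr_fderiv ?_
    ext v
    simp only [add_apply, smul_apply,
      sum_apply, ContinuousLinearMap.proj_apply, smul_eq_mul,
      MvPolynomial.pderiv_mul, map_add, map_mul, MvPolynomial.eval_X, MvPolynomial.pderiv_X,
      add_mul, Finset.sum_add_distrib, Finset.mul_sum]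
    rw [add_comm]
    congr 1
    · refine Finset.sum_congr rfl fun i _ => ?_
      ring
    · rw [Finset.sum_eq_single j]
      · simp
      · intro b _ hb
        simp [hb.symm]
      · intro h
        exact absurd (Finset.mem_univ j) h

end Strict

section Ift

variable (𝕜 : Type*) [NontriviallyNormedField 𝕜] {A : Type*} [NormedCommRing A]
  [NormedAlgebra 𝕜 A] [CompleteSpace A]

/-- The jacobian matrix in the unknowns. -/
noncomputable def jac {m p : Type*} (E : m → MvPolynomial (m ⊕ p) A) (x : m → A) (q : p → A) :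
    Matrix m m A :=
  fun i j => MvPolynomial.eval (Sum.elim x q) (MvPolynomial.pderiv (Sum.inl j) (E i))

/-- Matrix times vector as a continuous linear map. -/
noncomputable def mulVecCLM {m : Type*} [Fintype m] (M : Matrix m m A) :
    (m → A) →L[𝕜] (m → A) :=
  ContinuousLinearMap.pi fun i =>
    ∑ j, (M i j) • (ContinuousLinearMap.proj (R := 𝕜) (φ := fun _ : m => A) j)

omit [CompleteSpace A] in
theorem mulVecCLM_apply {m : Type*} [Fintype m] (M : Matrix m m A) (v : m → A) :
    mulVecCLM 𝕜 M v = M.mulVec v := by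
  ext i
  simp [mulVecCLM, Matrix.mulVec, dotProduct]

/-- The sum of two tuples as a continuous linear map. -/
noncomputable def elimCLM (m p : Type*) : (p → A) × (m → A) →L[𝕜] (m ⊕ p → A) :=
  ContinuousLinearMap.pi fun s => Sum.casesOn s
    (fun i => (ContinuousLinearMap.proj (R := 𝕜) (φ := fun _ : m => A) i).comp
      (ContinuousLinearMap.snd 𝕜 (p → A) (m → A)))
    (fun i => (ContinuousLinearMap.proj (R := 𝕜) (φ := fun _ : p => A) i).comp
      (ContinuousLinearMap.fst 𝕜 (p → A) (m → A)))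

omit [CompleteSpace A] in
theorem elimCLM_apply (m p : Type*) (v : (p → A) × (m → A)) :
    elimCLM 𝕜 m p v = Sum.elim v.2 v.1 := by
  ext s
  cases s <;> simp [elimCLM]

include 𝕜 in
theorem ift {m p : Type*} [Fintype m] [DecidableEq m] [Fintype p]
    (E : m → MvPolynomial (m ⊕ p) A) (x0 : m → A) (p0 : p → A)
    (h0 : ∀ i, MvPolynomial.eval (Sum.elim x0 p0) (E i) = 0)
    (hJ : IsUnit (jac E x0 p0).det) :
    ∃ ε > 0, ∃ δ > 0, ∃ L : ℝ, 0 ≤ L ∧ ∃ X : (p → A) → (m → A), X p0 = x0 ∧
      (∀ q, ‖q - p0‖ < δ → ‖X q - x0‖ < ε ∧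
        (∀ i, MvPolynomial.eval (Sum.elim (X q) q) (E i) = 0) ∧ IsUnit (jac E (X q) q).det) ∧
      (∀ q, ‖q - p0‖ < δ → ∀ x, ‖x - x0‖ < ε →
        (∀ i, MvPolynomial.eval (Sum.elim x q) (E i) = 0) → x = X q) ∧
      (∀ q q', ‖q - p0‖ < δ → ‖q' - p0‖ < δ → ‖X q - X q'‖ ≤ L * ‖q - q'‖) := by
  classical
  set f : (p → A) × (m → A) → (m → A) :=
    fun v i => MvPolynomial.eval (Sum.elim v.2 v.1) (E i) with hf
  set D : m → ((m ⊕ p → A) →L[𝕜] A) := fun i =>
    ∑ s, (MvPolynomial.eval (Sum.elim x0 p0) (MvPolynomial.pderiv s (E i))) •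
        (ContinuousLinearMap.proj (R := 𝕜) (φ := fun _ : m ⊕ p => A) s) with hD
  set f' : (p → A) × (m → A) →L[𝕜] (m → A) :=
    ContinuousLinearMap.pi fun i => (D i).comp (elimCLM 𝕜 m p) with hf'
  have hstrict : HasStrictFDerivAt f f' (p0, x0) := by
    rw [hasStrictFDerivAt_pi']
    intro i
    have h1 : HasStrictFDerivAt (𝕜 := 𝕜) (fun y : (m ⊕ p) → A => MvPolynomial.eval y (E i))
        (D i) (elimCLM 𝕜 m p (p0, x0)) := by
      rw [elimCLM_apply]
      exact hasStrictFDerivAt_mvPoly (E i) (Sum.elim x0 p0)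
    have h2 := h1.comp (p0, x0) (elimCLM 𝕜 (A := A) m p).hasStrictFDerivAt
    have e1 : (fun x => MvPolynomial.eval (elimCLM 𝕜 m p x) (E i)) = fun v => f v i := by
      funext v
      simp only [elimCLM_apply, hf]
    rw [e1] at h2
    exact h2.congr_fderiv (ContinuousLinearMap.ext fun v => rfl)
  have hcomp : ∀ v, (f' ∘L .inr 𝕜 (p → A) (m → A)) v = mulVecCLM 𝕜 (jac E x0 p0) v := by
    intro v
    rw [mulVecCLM_apply]
    ext i
    simp only [hf', hD, ContinuousLinearMap.comp_apply, ContinuousLinearMap.inr_apply,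
      ContinuousLinearMap.pi_apply, elimCLM_apply]
    simp only [add_apply, sum_apply, smul_apply,
      ContinuousLinearMap.proj_apply, smul_eq_mul, Fintype.sum_sum_type, Sum.elim_inl,
      Sum.elim_inr, Pi.zero_apply, mul_zero, Finset.sum_const_zero, add_zero]
    rfl
  have hinv : (f' ∘L .inr 𝕜 (p → A) (m → A)).IsInvertible := by
    refine ⟨ContinuousLinearEquiv.equivOfInverse (mulVecCLM 𝕜 (jac E x0 p0))
      (mulVecCLM 𝕜 (jac E x0 p0)⁻¹) ?_ ?_, ?_⟩
    · intro v
      rw [mulVecCLM_apply, mulVecCLM_apply, Matrix.mulVec_mulVec,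
        Matrix.nonsing_inv_mul _ hJ, Matrix.one_mulVec]
    · intro v
      rw [mulVecCLM_apply, mulVecCLM_apply, Matrix.mulVec_mulVec,
        Matrix.mul_nonsing_inv _ hJ, Matrix.one_mulVec]
    · ext v : 1
      exact (hcomp v).symm
  set X := hstrict.implicitFunctionOfProdDomain hinv with hX
  have hf0 : f (p0, x0) = 0 := by
    funext i
    exact h0 i
  have hiff := hstrict.eventually_apply_eq_iff_implicitFunctionOfProdDomain hinv
  have hX0 : X p0 = x0 := (hiff.self_of_nhds).1 rfl
  have htend := hstrict.tendsto_implicitFunctionOfProdDomain hinv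
  have hev := hstrict.eventually_apply_implicitFunctionOfProdDomain hinv
  obtain ⟨K, s, hs, hlip⟩ :=
    (hstrict.hasStrictFDerivAt_implicitFunctionOfProdDomain hinv).exists_lipschitzOnWith
  rw [← hX] at hiff htend hev hlip
  have hdet : ∀ᶠ v : (p → A) × (m → A) in 𝓝 (p0, x0), IsUnit (jac E v.2 v.1).det := by
    have hc : Continuous (fun v : (p → A) × (m → A) => (jac E v.2 v.1).det) := by
      refine Continuous.matrix_det ?_
      refine continuous_pi fun i => continuous_pi fun j => ?_
      have h1 : Continuous (fun v : (p → A) × (m → A) => elimCLM 𝕜 m p v) :=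
        (elimCLM 𝕜 m p).continuous
      have h2 : Continuous (fun v : (p → A) × (m → A) => Sum.elim v.2 v.1) := by
        simpa only [elimCLM_apply] using h1
      exact (MvPolynomial.continuous_eval _).comp h2
    exact (hc.continuousAt (x := (p0, x0))).eventually_mem (Units.isOpen.mem_nhds hJ)
  have h4 : ∀ᶠ q in 𝓝 p0, IsUnit (jac E (X q) q).det := by
    have h5 : Tendsto (fun q => (q, X q)) (𝓝 p0) (𝓝 (p0, x0)) :=
      (tendsto_id).prodMk_nhds htend
    exact h5.eventually hdet
  rw [nhds_prod_eq, Filter.eventually_prod_iff] at hiff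
  obtain ⟨pa, hpa, pb, hpb, hab⟩ := hiff
  obtain ⟨ε, hε, hεb⟩ := Metric.eventually_nhds_iff.1 hpb
  have h6 : ∀ᶠ q in 𝓝 p0, ‖X q - x0‖ < ε := by
    have := htend.eventually (Metric.ball_mem_nhds x0 hε)
    filter_upwards [this] with q hq
    simpa [dist_eq_norm] using hq
  have h7 : ∀ᶠ q in 𝓝 p0, pa q ∧ ‖X q - x0‖ < ε ∧ IsUnit (jac E (X q) q).det ∧
      f (q, X q) = f (p0, x0) ∧ q ∈ s := by
    filter_upwards [hpa, h6, h4, hev, hs] with q a b c d e using ⟨a, b, c, d, e⟩
  obtain ⟨δ, hδ, hδb⟩ := Metric.eventually_nhds_iff.1 h7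
  refine ⟨ε, hε, δ, hδ, K, K.2, X, hX0, ?_, ?_, ?_⟩
  · intro q hq
    obtain ⟨-, b, c, d, -⟩ := hδb (y := q) (by simpa [dist_eq_norm] using hq)
    refine ⟨b, fun i => ?_, c⟩
    rw [hf0] at d
    exact congrFun d i
  · intro q hq x hx hE
    obtain ⟨a, -, -, -, -⟩ := hδb (y := q) (by simpa [dist_eq_norm] using hq)
    have := (hab a (hεb (y := x) (by simpa [dist_eq_norm] using hx))).1 (by
      rw [hf0]
      funext i
      exact hE i)
    exact this.symm
  · intro q q' hq hq'
    obtain ⟨-, -, -, -, e⟩ := hδb (y := q) (by simpa [dist_eq_norm] using hq)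
    obtain ⟨-, -, -, -, e'⟩ := hδb (y := q') (by simpa [dist_eq_norm] using hq')
    have := hlip.dist_le_mul q e q' e'
    simpa [dist_eq_norm] using this

end Ift

end Pool.Agent.VF
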