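import Mathlib

/-!
# Krull intersection and leading forms: injectivity of a parametrisation

`𝔫` is an ideal of a Noetherian domain `B ⊇ k` with `B = k + 𝔫`, generated modulo `𝔫²` by `x i`.
A ring homomorphism `φ` to a filtered ring which sends no nonzero form of degree `d` in the `x i`
to the step `d + 1` of the filtration is injective, in the strong form: `b = 0` if `φ b` lies in
every step.
-/

open MvPolynomial

namespace Pool.Agent.VF

section core

variable {k B R ι : Type*} [Field k] [CommRing B] [Algebra k B] [CommRing R]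

/-- An element of `𝔫 ^ d` is modulo `𝔫 ^ (d + 1)` a form of degree `d` in the `x i`. -/
lemma exists_form [Finite ι] (n : Ideal B) (hk : ∀ b : B, ∃ c : k, b - algebraMap k B c ∈ n)
    (x : ι → B) (hx : ∀ i, x i ∈ n) (hgen : n ≤ Ideal.span (Set.range x) ⊔ n ^ 2) (d : ℕ) :
    ∀ b ∈ n ^ d, ∃ P : MvPolynomial ι k, P.IsHomogeneous d ∧ b - aeval x P ∈ n ^ (d + 1) := by
  have _ := Fintype.ofFinite ι
  induction d with
  | zero =>
    intro b _
    obtain ⟨c, hc⟩ := hk b
    refine ⟨C c, isHomogeneous_C _ _, ?_⟩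
    simpa using hc
  | succ d ih =>
    intro b hb
    rw [pow_succ] at hb
    refine Submodule.mul_induction_on hb ?_ ?_
    · intro a ha m hm
      obtain ⟨P, hP, hPa⟩ := ih a ha
      obtain ⟨u, hu, w, hw, huw⟩ := Submodule.mem_sup.mp (hgen hm)
      obtain ⟨r, hr⟩ := (Ideal.mem_span_range_iff_exists_fun).mp hu
      choose c hc using fun i => hk (r i)
      refine ⟨P * ∑ i, C (c i) * X i, ?_, ?_⟩
      · refine hP.mul (IsHomogeneous.sum _ _ _ fun i _ => ?_)
        have := (isHomogeneous_C ι (c i)).mul (isHomogeneous_X k i)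
        simpa using this
      · have e : m = (∑ i, algebraMap k B (c i) * x i) + (w + ∑ i, (r i - algebraMap k B (c i)) * x i) := by
          rw [← huw, ← hr]
          simp only [sub_mul, Finset.sum_sub_distrib]
          ring
        have hm2 : w + ∑ i, (r i - algebraMap k B (c i)) * x i ∈ n ^ 2 := by
          refine Ideal.add_mem _ hw (Ideal.sum_mem _ fun i _ => ?_)
          rw [pow_two]
          exact Ideal.mul_mem_mul (hc i) (hx i)
        have hPn : aeval x P ∈ n ^ d := by
          have h2 : a - (a - aeval x P) ∈ n ^ d :=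
            Ideal.sub_mem _ ha (Ideal.pow_le_pow_right (Nat.le_succ d) hPa)
          simpa using h2
        have e2 : a * m - aeval x (P * ∑ i, C (c i) * X i)
            = (a - aeval x P) * m + aeval x P *
              (w + ∑ i, (r i - algebraMap k B (c i)) * x i) := by
          have e3 : aeval x (∑ i, C (c i) * X i) = ∑ i, algebraMap k B (c i) * x i := by
            simp [map_sum]
          rw [map_mul, e3]
          linear_combination (aeval x P) * e
        rw [e2]
        refine Ideal.add_mem _ ?_ ?_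
        · have := Ideal.mul_mem_mul hPa hm
          rwa [← pow_succ] at this
        · have := Ideal.mul_mem_mul hPn hm2
          rwa [← pow_add] at this
    · rintro b c ⟨P, hP, hPb⟩ ⟨Q, hQ, hQc⟩
      refine ⟨P + Q, hP.add hQ, ?_⟩
      have : b + c - aeval x (P + Q) = (b - aeval x P) + (c - aeval x Q) := by
        rw [map_add]; ring
      rw [this]
      exact Ideal.add_mem _ hPb hQc

/-- The image of `𝔫 ^ d` lies in the step `d`. -/
lemma map_pow_mem (n : Ideal B) (φ : B →+* R) (J : ℕ → AddSubgroup R)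
    (h0 : ∀ b, φ b ∈ J 0) (h1 : ∀ b ∈ n, φ b ∈ J 1)
    (hmul : ∀ p q a b, a ∈ J p → b ∈ J q → a * b ∈ J (p + q)) (d : ℕ) :
    ∀ b ∈ n ^ d, φ b ∈ J d := by
  induction d with
  | zero => intro b _; exact h0 b
  | succ d ih =>
    intro b hb
    rw [pow_succ] at hb
    refine Submodule.mul_induction_on hb ?_ ?_
    · intro a ha m hm
      rw [map_mul]
      exact hmul _ _ _ _ (ih a ha) (h1 m hm)
    · intro b c hb hc
      rw [map_add]
      exact AddSubgroup.add_mem _ hb hc

/-- The core statement. -/
theorem eq_zero_of_flat [Finite ι] [IsNoetherianRing B] [IsDomain B] (n : Ideal B) (hn : n ≠ ⊤)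
    (hk : ∀ b : B, ∃ c : k, b - algebraMap k B c ∈ n)
    (x : ι → B) (hx : ∀ i, x i ∈ n) (hgen : n ≤ Ideal.span (Set.range x) ⊔ n ^ 2)
    (φ : B →+* R) (J : ℕ → AddSubgroup R)
    (h0 : ∀ b, φ b ∈ J 0) (h1 : ∀ b ∈ n, φ b ∈ J 1)
    (hmul : ∀ p q a b, a ∈ J p → b ∈ J q → a * b ∈ J (p + q))
    (hnz : ∀ d (P : MvPolynomial ι k), P.IsHomogeneous d → φ (aeval x P) ∈ J (d + 1) → P = 0)
    (b : B) (hb : ∀ d, φ b ∈ J d) : b = 0 := by
  classical
  by_contra hne
  have hK := Ideal.iInf_pow_eq_bot_of_isDomain n hn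
  have hex : ∃ i, b ∉ n ^ i := by
    by_contra hall
    push Not at hall
    apply hne
    have : b ∈ (⨅ i, n ^ i : Ideal B) := (Ideal.mem_iInf).mpr hall
    rwa [hK, Ideal.mem_bot] at this
  obtain ⟨d, hd⟩ : ∃ d, Nat.find hex = d + 1 := by
    refine ⟨Nat.find hex - 1, ?_⟩
    have : Nat.find hex ≠ 0 := by
      intro h
      have := Nat.find_spec hex
      rw [h, pow_zero] at this
      exact this (by simp)
    omega
  have hbd : b ∈ n ^ d := by
    have := Nat.find_min hex (m := d) (by omega)
    simpa using this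
  have hbd1 : b ∉ n ^ (d + 1) := by
    have := Nat.find_spec hex
    rwa [hd] at this
  obtain ⟨P, hP, hPb⟩ := exists_form n hk x hx hgen d b hbd
  have hmem := map_pow_mem n φ J h0 h1 hmul (d + 1) _ hPb
  have : φ (aeval x P) ∈ J (d + 1) := by
    have h2 := AddSubgroup.sub_mem _ (hb (d + 1)) hmem
    rwa [map_sub, sub_sub_cancel] at h2
  have hP0 := hnz d P hP this
  rw [hP0, map_zero, sub_zero] at hPb
  exact hbd1 hPb

/-- A form of degree `d` changes by an element of the step `d + 1` if the variables of the step `1`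
are changed by elements of the step `2`. -/
lemma form_sub_mem [Algebra k R] (J : ℕ → AddSubgroup R)
    (h01 : (1 : R) ∈ J 0)
    (hmul : ∀ p q a b, a ∈ J p → b ∈ J q → a * b ∈ J (p + q))
    (hsmul : ∀ p (c : k) a, a ∈ J p → algebraMap k R c * a ∈ J p)
    (y z : ι → R) (hy : ∀ i, y i ∈ J 1) (hz : ∀ i, z i ∈ J 1) (hyz : ∀ i, y i - z i ∈ J 2)
    (d : ℕ) (P : MvPolynomial ι k) (hP : P.IsHomogeneous d) :
    aeval y P - aeval z P ∈ J (d + 1) := by
  classical
  -- monomials
  have key : ∀ s : ι →₀ ℕ, (s.prod fun i e => y i ^ e) ∈ J s.degree ∧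
      (s.prod fun i e => z i ^ e) ∈ J s.degree ∧
      (s.prod fun i e => y i ^ e) - (s.prod fun i e => z i ^ e) ∈ J (s.degree + 1) := by
    have hadd : ∀ (a a' b b' : R) (p q : ℕ), a ∈ J p → a' ∈ J p → a - a' ∈ J (p + 1) →
        b ∈ J q → b' ∈ J q → b - b' ∈ J (q + 1) →
        a * b ∈ J (p + q) ∧ a' * b' ∈ J (p + q) ∧ a * b - a' * b' ∈ J (p + q + 1) := by
      intro a a' b b' p q ha ha' haa hb hb' hbb
      refine ⟨hmul _ _ _ _ ha hb, hmul _ _ _ _ ha' hb', ?_⟩
      have e : a * b - a' * b' = a * (b - b') + (a - a') * b' := by ring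
      rw [e]
      refine AddSubgroup.add_mem _ ?_ ?_
      · have := hmul _ _ _ _ ha hbb
        rwa [show p + (q + 1) = p + q + 1 by ring] at this
      · have := hmul _ _ _ _ haa hb'
        rwa [show p + 1 + q = p + q + 1 by ring] at this
    intro s
    induction s using Finsupp.induction_linear with
    | zero => exact ⟨by simpa using h01, by simpa using h01, by simp⟩
    | add f g hf hg =>
      rw [Finsupp.prod_add_index' (fun _ => pow_zero _) (fun _ _ _ => pow_add _ _ _),
        Finsupp.prod_add_index' (fun _ => pow_zero _) (fun _ _ _ => pow_add _ _ _), map_add]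
      exact hadd _ _ _ _ _ _ hf.1 hf.2.1 hf.2.2 hg.1 hg.2.1 hg.2.2
    | single i e =>
      rw [Finsupp.prod_single_index (h := fun i e => y i ^ e) (pow_zero _),
        Finsupp.prod_single_index (h := fun i e => z i ^ e) (pow_zero _),
        Finsupp.degree_single]
      induction e with
      | zero => exact ⟨by simpa using h01, by simpa using h01, by simp⟩
      | succ e ih =>
        rw [pow_succ, pow_succ]
        exact hadd _ _ _ _ _ _ ih.1 ih.2.1 ih.2.2 (hy i) (hz i) (hyz i)
  rw [aeval_def, aeval_def, eval₂_eq, eval₂_eq, ← Finset.sum_sub_distrib]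
  refine AddSubgroup.sum_mem _ fun s hs => ?_
  rw [← mul_sub]
  refine hsmul _ _ _ ?_
  have hdeg : s.degree = d := by
    have := hP (mem_support_iff.mp hs)
    rwa [Pi.one_def, ← Finsupp.degree_eq_weight_one] at this
  have := (key s).2.2
  rw [hdeg] at this
  exact this

end core

section series

variable {k B ι : Type*} [Field k] [CommRing B] [Algebra k B]

/-- The power series all of whose terms have degree at least `p`. -/
def ordGe (k ι : Type*) [Field k] (p : ℕ) : AddSubgroup (MvPowerSeries ι k) where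
  carrier := {f | ∀ s : ι →₀ ℕ, s.degree < p → MvPowerSeries.coeff s f = 0}
  add_mem' := by
    intro a b ha hb s hs
    rw [map_add, ha s hs, hb s hs, add_zero]
  zero_mem' := by intro s _; rw [map_zero]
  neg_mem' := by
    intro a ha s hs
    rw [map_neg, ha s hs, neg_zero]

lemma mem_ordGe {p : ℕ} {f : MvPowerSeries ι k} :
    f ∈ ordGe k ι p ↔ ∀ s : ι →₀ ℕ, s.degree < p → MvPowerSeries.coeff s f = 0 := Iff.rfl

lemma ordGe_mul (p q : ℕ) (a b : MvPowerSeries ι k) (ha : a ∈ ordGe k ι p) (hb : b ∈ ordGe k ι q) :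
    a * b ∈ ordGe k ι (p + q) := by
  classical
  intro s hs
  rw [MvPowerSeries.coeff_mul]
  refine Finset.sum_eq_zero fun t ht => ?_
  rw [Finset.HasAntidiagonal.mem_antidiagonal] at ht
  have : t.1.degree + t.2.degree = s.degree := by rw [← map_add, ht]
  by_cases h : t.1.degree < p
  · rw [ha _ h, zero_mul]
  · rw [hb _ (by omega), mul_zero]

lemma ordGe_smul (p : ℕ) (c : k) (a : MvPowerSeries ι k) (ha : a ∈ ordGe k ι p) :
    algebraMap k (MvPowerSeries ι k) c * a ∈ ordGe k ι p := by
  intro s hs
  rw [← Algebra.smul_def, map_smul, ha s hs, smul_zero]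

/-- **Injectivity**, for homomorphisms to a ring of formal power series. -/
theorem injective_to_powerSeries [Finite ι] [IsNoetherianRing B] [IsDomain B] (n : Ideal B)
    (hn : n ≠ ⊤) (hk : ∀ b : B, ∃ c : k, b - algebraMap k B c ∈ n)
    (x : ι → B) (hx : ∀ i, x i ∈ n) (hgen : n ≤ Ideal.span (Set.range x) ⊔ n ^ 2)
    (φ : B →ₐ[k] MvPowerSeries ι k)
    (hφn : ∀ b ∈ n, MvPowerSeries.constantCoeff (φ b) = 0)
    (hφ : ∀ i s, s.degree = 1 → MvPowerSeries.coeff s (φ (x i)) =
      MvPowerSeries.coeff s (MvPowerSeries.X i : MvPowerSeries ι k)) :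
    Function.Injective φ := by
  classical
  rw [injective_iff_map_eq_zero]
  intro b hb
  have h0 : ∀ f : MvPowerSeries ι k, f ∈ ordGe k ι 0 := fun f s hs => absurd hs (Nat.not_lt_zero _)
  have hzero : ∀ s : ι →₀ ℕ, s.degree < 1 → s = 0 := fun s hs => by
    rwa [Nat.lt_one_iff, Finsupp.degree_eq_zero_iff] at hs
  have h1 : ∀ b ∈ n, φ b ∈ ordGe k ι 1 := by
    intro b hb s hs
    rw [hzero s hs]
    exact hφn b hb
  refine eq_zero_of_flat n hn hk x hx hgen (φ : B →+* MvPowerSeries ι k) (ordGe k ι)
    (fun b => h0 _) h1 ordGe_mul ?_ b ?_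
  · intro d P hP hmem
    have hX : ∀ i, (MvPowerSeries.X i : MvPowerSeries ι k) ∈ ordGe k ι 1 := by
      intro i s hs
      rw [hzero s hs, MvPowerSeries.coeff_zero_X]
    have hd : ∀ i, φ (x i) - MvPowerSeries.X i ∈ ordGe k ι 2 := by
      intro i s hs
      rw [map_sub]
      rcases Nat.lt_or_ge s.degree 1 with h | h
      · rw [h1 _ (hx i) s h, hX i s h, sub_zero]
      · rw [hφ i s (by omega), sub_self]
    have h2 := form_sub_mem (k := k) (ordGe k ι) (h0 1) ordGe_mul ordGe_smul
      (fun i => φ (x i)) (fun i => MvPowerSeries.X i) (fun i => h1 _ (hx i)) hX hd d P hP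
    have h3 : aeval (fun i => φ (x i)) P = φ (aeval x P) := by
      exact (comp_aeval_apply x φ P).symm
    rw [h3] at h2
    have h4 : aeval (fun i => (MvPowerSeries.X i : MvPowerSeries ι k)) P ∈ ordGe k ι (d + 1) := by
      have := AddSubgroup.sub_mem _ hmem h2
      rw [show ((φ : B →+* MvPowerSeries ι k) (aeval x P)) = φ (aeval x P) from rfl,
        sub_sub_cancel] at this
      exact this
    have h5 : aeval (fun i => (MvPowerSeries.X i : MvPowerSeries ι k)) P
        = (P : MvPowerSeries ι k) := by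
      have : (aeval (fun i => (MvPowerSeries.X i : MvPowerSeries ι k)))
          = (MvPolynomial.coeToMvPowerSeries.algHom k : MvPolynomial ι k →ₐ[k] _) := by
        apply MvPolynomial.algHom_ext
        intro i
        simp
      rw [this]
      simp
    rw [h5] at h4
    ext s
    rw [MvPolynomial.coeff_zero]
    by_contra hs
    have hdeg : s.degree = d := by
      have := hP hs
      rwa [Pi.one_def, ← Finsupp.degree_eq_weight_one] at this
    have := h4 s (by omega)
    rw [MvPolynomial.coeff_coe] at this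
    exact hs this
  · intro d
    have : (φ : B →+* MvPowerSeries ι k) b = 0 := hb
    rw [this]
    exact AddSubgroup.zero_mem _

end series

end Pool.Agent.VF
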