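import Mathlib

set_option autoImplicit false

/-!
# Laurent series whose powers are bounded on both sides (piece LAURPOLY, helper6)

Abstract form: `A` is an algebra with coefficient functionals `cf k`, an invertible element `T` (the
variable), every element being determined by its coefficients. If the coefficients of `f` vanish outside
`[-D, 0]` then `f = ∑_{j ≤ D} cf (-j) f • T⁻¹ ^ j`, and the values of `f` under all kinds of characters
(of `A`, of the nonpositive part `N₂` of the algebra of the outer circle, of the nonnegative part `N₁` of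
the algebra of the inner circle) are the values of one binary form.
-/

namespace Pool.Agent.VF

open Finset

section LaurPoly

variable {𝕜 : Type*} [Field 𝕜] {A : Type*} [CommRing A] [Algebra 𝕜 A]

/-- Coefficient functionals of an algebra of Laurent series in the variable `T`. -/
structure LaurCoeffs (𝕜 : Type*) [Field 𝕜] (A : Type*) [CommRing A] [Algebra 𝕜 A] where
  /-- the coefficients -/
  cf : ℤ → A →ₗ[𝕜] 𝕜
  /-- the variable -/
  T : Aˣ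
  ext : ∀ f : A, (∀ k, cf k f = 0) → f = 0
  cf_pow : ∀ j k : ℤ, cf k ((T ^ j : Aˣ) : A) = if j = k then 1 else 0
  cf_shift : ∀ (j k : ℤ) (f : A), cf k (((T ^ j : Aˣ) : A) * f) = cf (k - j) f

/-- The value at `(p, q)` of the binary form of degree `D` with coefficients `c 0, …, c D`
(`c j` is the coefficient of `p ^ (D - j) q ^ j`). -/
def bval (D : ℕ) (c : ℕ → 𝕜) (p q : 𝕜) : 𝕜 := ∑ j ∈ range (D + 1), c j * (p ^ (D - j) * q ^ j)

theorem bval_smul (D : ℕ) (c : ℕ → 𝕜) (s p q : 𝕜) : bval D c (s * p) (s * q) = s ^ D * bval D c p q := by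
  unfold bval
  rw [Finset.mul_sum]
  refine Finset.sum_congr rfl fun j hj => ?_
  have hj' : j ≤ D := Nat.lt_succ_iff.1 (Finset.mem_range.1 hj)
  have : s ^ D = s ^ (D - j) * s ^ j := by rw [← pow_add, Nat.sub_add_cancel hj']
  rw [mul_pow, mul_pow, this]
  ring

theorem bval_one_zero (D : ℕ) (c : ℕ → 𝕜) : bval D c 1 0 = c 0 := by
  unfold bval
  rw [Finset.sum_eq_single 0]
  · simp
  · intro j _ hj
    rw [zero_pow hj]
    ring
  · intro h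
    exact absurd (Finset.mem_range.2 (Nat.succ_pos D)) h

theorem bval_zero_one (D : ℕ) (c : ℕ → 𝕜) : bval D c 0 1 = c D := by
  unfold bval
  rw [Finset.sum_eq_single D]
  · simp
  · intro j hj hjD
    have hj' : j ≤ D := Nat.lt_succ_iff.1 (Finset.mem_range.1 hj)
    rw [zero_pow (Nat.sub_ne_zero_of_lt (lt_of_le_of_ne hj' hjD))]
    ring
  · intro h
    exact absurd (Finset.mem_range.2 (Nat.lt_succ_self D)) h

theorem LaurCoeffs.ext' (L : LaurCoeffs 𝕜 A) {f g : A} (h : ∀ k, L.cf k f = L.cf k g) : f = g := by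
  rw [← sub_eq_zero]
  exact L.ext _ fun k => by rw [map_sub, h k, sub_self]

/-- (L1) An element with powers in `[-D, 0]` is a polynomial in `T⁻¹`. -/
theorem LaurCoeffs.eq_sum (L : LaurCoeffs 𝕜 A) (f : A) (D : ℕ) (hpos : ∀ k : ℤ, 0 < k → L.cf k f = 0)
    (hneg : ∀ k : ℤ, k < -(D : ℤ) → L.cf k f = 0) :
    f = ∑ j ∈ range (D + 1), L.cf (-(j : ℤ)) f • ((L.T⁻¹ : Aˣ) : A) ^ j := by
  refine L.ext' fun k => ?_
  rw [map_sum]
  have hterm : ∀ j ∈ range (D + 1), L.cf k (L.cf (-(j : ℤ)) f • ((L.T⁻¹ : Aˣ) : A) ^ j) =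
      if (j : ℤ) = -k then L.cf k f else 0 := by
    intro j _
    have h1 : ((L.T⁻¹ : Aˣ) : A) ^ j = ((L.T ^ (-(j : ℤ)) : Aˣ) : A) := by
      rw [zpow_neg, zpow_natCast, ← inv_pow, Units.val_pow_eq_pow_val]
    rw [map_smul, h1, L.cf_pow, smul_eq_mul]
    by_cases h : (j : ℤ) = -k
    · rw [if_pos h, if_pos (by omega), mul_one]
      congr 2
      omega
    · rw [if_neg h, if_neg (by omega), mul_zero]
  rw [Finset.sum_congr rfl hterm]
  by_cases hk : 0 < k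
  · rw [hpos k hk]
    symm
    exact Finset.sum_eq_zero fun j _ => by split_ifs <;> rfl
  by_cases hk' : k < -(D : ℤ)
  · rw [hneg k hk']
    symm
    exact Finset.sum_eq_zero fun j _ => by split_ifs <;> rfl
  obtain ⟨n, hn⟩ : ∃ n : ℕ, (n : ℤ) = -k := ⟨(-k).toNat, Int.toNat_of_nonneg (by omega)⟩
  rw [Finset.sum_eq_single n]
  · rw [if_pos hn]
  · intro j _ hj
    rw [if_neg]
    intro h
    apply hj
    have := h.trans hn.symm
    exact_mod_cast this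
  · intro h
    exfalso
    apply h
    rw [Finset.mem_range]
    omega

/-- (L2, annulus) the value under a character of `A`. -/
theorem LaurCoeffs.map_eq_bval {B : Type*} [CommRing B] [Algebra 𝕜 B] (L : LaurCoeffs 𝕜 A) (f : A)
    (D : ℕ) (hpos : ∀ k : ℤ, 0 < k → L.cf k f = 0) (hneg : ∀ k : ℤ, k < -(D : ℤ) → L.cf k f = 0)
    (χ : A →ₐ[𝕜] B) :
    χ f = ∑ j ∈ range (D + 1), L.cf (-(j : ℤ)) f • χ ((L.T⁻¹ : Aˣ) : A) ^ j := by
  conv_lhs => rw [L.eq_sum f D hpos hneg]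
  rw [map_sum]
  exact Finset.sum_congr rfl fun j _ => by rw [map_smul, map_pow]

theorem LaurCoeffs.annulus (L : LaurCoeffs 𝕜 A) (f : A)
    (D : ℕ) (hpos : ∀ k : ℤ, 0 < k → L.cf k f = 0) (hneg : ∀ k : ℤ, k < -(D : ℤ) → L.cf k f = 0)
    (χ : A →ₐ[𝕜] 𝕜) : χ f = bval D (fun j => L.cf (-(j : ℤ)) f) 1 (χ ((L.T⁻¹ : Aˣ) : A)) := by
  rw [L.map_eq_bval f D hpos hneg χ]
  unfold bval
  exact Finset.sum_congr rfl fun j _ => by rw [smul_eq_mul, one_pow, one_mul]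

/-- (L2, outside) `g` is the element `f` seen in the nonpositive part `N` of the outer circle algebra. -/
theorem LaurCoeffs.outside {B : Type*} [CommRing B] [Algebra 𝕜 B] (L : LaurCoeffs 𝕜 A) (f : A)
    (D : ℕ) (hpos : ∀ k : ℤ, 0 < k → L.cf k f = 0) (hneg : ∀ k : ℤ, k < -(D : ℤ) → L.cf k f = 0)
    (ρ : A →ₐ[𝕜] B) (N : Subalgebra 𝕜 B) (u g : N) (hu : (u : B) = ρ ((L.T⁻¹ : Aˣ) : A))
    (hg : (g : B) = ρ f) (χ : N →ₐ[𝕜] 𝕜) :
    χ g = bval D (fun j => L.cf (-(j : ℤ)) f) 1 (χ u) := by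
  have h1 : g = ∑ j ∈ range (D + 1), L.cf (-(j : ℤ)) f • u ^ j := by
    apply Subtype.ext
    rw [hg, L.map_eq_bval f D hpos hneg ρ]
    push_cast
    exact Finset.sum_congr rfl fun j _ => by rw [hu]
  rw [h1, map_sum]
  unfold bval
  exact Finset.sum_congr rfl fun j _ => by rw [map_smul, map_pow, smul_eq_mul, one_pow, one_mul]

/-- (L2, inside) `g` is the element `T ^ D * f` seen in the nonnegative part `N` of the inner circle
algebra. -/
theorem LaurCoeffs.inside {B : Type*} [CommRing B] [Algebra 𝕜 B] (L : LaurCoeffs 𝕜 A) (f : A)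
    (D : ℕ) (hpos : ∀ k : ℤ, 0 < k → L.cf k f = 0) (hneg : ∀ k : ℤ, k < -(D : ℤ) → L.cf k f = 0)
    (ρ : A →ₐ[𝕜] B) (N : Subalgebra 𝕜 B) (u g : N) (hu : (u : B) = ρ (L.T : A))
    (hg : (g : B) = ρ ((L.T : A) ^ D * f)) (χ : N →ₐ[𝕜] 𝕜) :
    χ g = bval D (fun j => L.cf (-(j : ℤ)) f) (χ u) 1 := by
  have h0 : (L.T : A) ^ D * f = ∑ j ∈ range (D + 1), L.cf (-(j : ℤ)) f • (L.T : A) ^ (D - j) := by
    conv_lhs => rw [L.eq_sum f D hpos hneg]
    rw [Finset.mul_sum]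
    refine Finset.sum_congr rfl fun j hj => ?_
    have hj' : j ≤ D := Nat.lt_succ_iff.1 (Finset.mem_range.1 hj)
    rw [mul_smul_comm]
    congr 1
    have : (L.T : A) ^ D = (L.T : A) ^ (D - j) * (L.T : A) ^ j := by
      rw [← pow_add, Nat.sub_add_cancel hj']
    rw [this, mul_assoc, ← mul_pow, Units.mul_inv, one_pow, mul_one]
  have h1 : g = ∑ j ∈ range (D + 1), L.cf (-(j : ℤ)) f • u ^ (D - j) := by
    apply Subtype.ext
    rw [hg, h0, map_sum]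
    push_cast
    exact Finset.sum_congr rfl fun j _ => by rw [map_smul, map_pow, hu]
  rw [h1, map_sum]
  unfold bval
  exact Finset.sum_congr rfl fun j _ => by rw [map_smul, map_pow, smul_eq_mul, one_pow, mul_one]

/-- The bounds of the powers, read on the two circles. -/
theorem LaurCoeffs.bounds {A₁ A₂ : Type*} [CommRing A₁] [Algebra 𝕜 A₁] [CommRing A₂] [Algebra 𝕜 A₂]
    (L : LaurCoeffs 𝕜 A) (L₁ : LaurCoeffs 𝕜 A₁) (L₂ : LaurCoeffs 𝕜 A₂)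
    (ρ₁ : A →ₐ[𝕜] A₁) (ρ₂ : A →ₐ[𝕜] A₂)
    (h₁ : ∀ k f, L₁.cf k (ρ₁ f) = L.cf k f) (h₂ : ∀ k f, L₂.cf k (ρ₂ f) = L.cf k f)
    (hT₁ : ρ₁ (L.T : A) = L₁.T) (D : ℕ) (f : A)
    (hf₂ : ∀ k : ℤ, 0 < k → L₂.cf k (ρ₂ f) = 0)
    (hf₁ : ∀ k : ℤ, k < 0 → L₁.cf k (ρ₁ ((L.T : A) ^ D * f)) = 0) :
    (∀ k : ℤ, 0 < k → L.cf k f = 0) ∧ ∀ k : ℤ, k < -(D : ℤ) → L.cf k f = 0 := by
  refine ⟨fun k hk => by rw [← h₂, hf₂ k hk], fun k hk => ?_⟩
  have h3 := hf₁ (k + D) (by omega)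
  rw [map_mul, map_pow, hT₁] at h3
  have h4 : ((L₁.T : A₁)) ^ D = ((L₁.T ^ ((D : ℕ) : ℤ) : A₁ˣ) : A₁) := by
    rw [zpow_natCast, Units.val_pow_eq_pow_val]
  rw [h4, L₁.cf_shift, h₁] at h3
  rwa [add_sub_cancel_right] at h3

/-- (L3) The curve with coefficients `cf (-j) (f a)` lies in `V`: its points are values of characters of
the annulus algebra, of the nonpositive part of the outer circle algebra, of the nonnegative part of the
inner circle algebra. -/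
theorem LaurCoeffs.curve {𝕜 : Type*} [NormedField 𝕜] {A A₁ A₂ : Type*} [CommRing A] [Algebra 𝕜 A]
    [CommRing A₁] [Algebra 𝕜 A₁] [CommRing A₂] [Algebra 𝕜 A₂] (L : LaurCoeffs 𝕜 A)
    (ρ₁ : A →ₐ[𝕜] A₁) (ρ₂ : A →ₐ[𝕜] A₂) (N₁ : Subalgebra 𝕜 A₁) (N₂ : Subalgebra 𝕜 A₂)
    {M : Type*} (InV : (M → 𝕜) → Prop) (hsc : ∀ (c : 𝕜) (x : M → 𝕜), c ≠ 0 → InV x → InV fun a => c * x a)
    (f : M → A) (D : ℕ) (hpos : ∀ a, ∀ k : ℤ, 0 < k → L.cf k (f a) = 0)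
    (hneg : ∀ a, ∀ k : ℤ, k < -(D : ℤ) → L.cf k (f a) = 0)
    (u₂ : N₂) (hu₂ : (u₂ : A₂) = ρ₂ ((L.T⁻¹ : Aˣ) : A)) (g₂ : M → N₂) (hg₂ : ∀ a, (g₂ a : A₂) = ρ₂ (f a))
    (u₁ : N₁) (hu₁ : (u₁ : A₁) = ρ₁ (L.T : A)) (g₁ : M → N₁)
    (hg₁ : ∀ a, (g₁ a : A₁) = ρ₁ ((L.T : A) ^ D * f a)) (r₁ r₂ : ℝ) (h0 : 0 < r₁) (h12 : r₁ ≤ r₂)
    (hann : ∀ t : 𝕜, r₁ ≤ ‖t‖ → ‖t‖ ≤ r₂ → ∃ χ : A →ₐ[𝕜] 𝕜, χ (L.T : A) = t ∧ InV fun a => χ (f a))
    (hout : ∀ u : 𝕜, ‖u‖ ≤ r₂⁻¹ → ∃ χ : N₂ →ₐ[𝕜] 𝕜, χ u₂ = u ∧ InV fun a => χ (g₂ a))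
    (hin : ∀ t : 𝕜, ‖t‖ ≤ r₁ → ∃ χ : N₁ →ₐ[𝕜] 𝕜, χ u₁ = t ∧ InV fun a => χ (g₁ a))
    (p q : 𝕜) (hpq : ¬ (p = 0 ∧ q = 0)) :
    InV fun a => bval D (fun j => L.cf (-(j : ℤ)) (f a)) p q := by
  have hinside : ∀ t : 𝕜, ‖t‖ ≤ r₁ → InV fun a => bval D (fun j => L.cf (-(j : ℤ)) (f a)) t 1 := by
    intro t ht
    obtain ⟨χ, hχ, hV⟩ := hin t ht
    have h1 : (fun a => χ (g₁ a)) = fun a => bval D (fun j => L.cf (-(j : ℤ)) (f a)) t 1 := by
      funext a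
      rw [L.inside (f a) D (hpos a) (hneg a) ρ₁ N₁ u₁ (g₁ a) hu₁ (hg₁ a) χ, hχ]
    rw [← h1]; exact hV
  have houtside : ∀ u : 𝕜, ‖u‖ ≤ r₂⁻¹ → InV fun a => bval D (fun j => L.cf (-(j : ℤ)) (f a)) 1 u := by
    intro u hu
    obtain ⟨χ, hχ, hV⟩ := hout u hu
    have h1 : (fun a => χ (g₂ a)) = fun a => bval D (fun j => L.cf (-(j : ℤ)) (f a)) 1 u := by
      funext a
      rw [L.outside (f a) D (hpos a) (hneg a) ρ₂ N₂ u₂ (g₂ a) hu₂ (hg₂ a) χ, hχ]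
    rw [← h1]; exact hV
  have hscale : ∀ s x y : 𝕜, s ≠ 0 → (InV fun a => bval D (fun j => L.cf (-(j : ℤ)) (f a)) x y) →
      InV fun a => bval D (fun j => L.cf (-(j : ℤ)) (f a)) (s * x) (s * y) := by
    intro s x y hs h
    have h1 := hsc (s ^ D) _ (pow_ne_zero D hs) h
    have h2 : (fun a => bval D (fun j => L.cf (-(j : ℤ)) (f a)) (s * x) (s * y)) =
        fun a => s ^ D * bval D (fun j => L.cf (-(j : ℤ)) (f a)) x y := by
      funext a; rw [bval_smul]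
    rw [h2]; exact h1
  by_cases hp : p = 0
  · have hq : q ≠ 0 := fun hq => hpq ⟨hp, hq⟩
    have h1 := hscale q 0 1 hq (hinside 0 (by rw [norm_zero]; exact h0.le))
    rwa [mul_zero, mul_one, ← hp] at h1
  by_cases hq : q = 0
  · have h1 := hscale p 1 0 hp (houtside 0 (by
      rw [norm_zero]; exact inv_nonneg.2 (h0.le.trans h12)))
    rwa [mul_zero, mul_one, ← hq] at h1
  by_cases hle : ‖p / q‖ ≤ r₁
  · have h1 := hscale q (p / q) 1 hq (hinside _ hle)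
    rwa [mul_div_cancel₀ _ hq, mul_one] at h1
  by_cases hge : ‖p / q‖ ≤ r₂
  · obtain ⟨χ, hχ, hV⟩ := hann (p / q) (not_le.1 hle).le hge
    have h3 : χ ((L.T⁻¹ : Aˣ) : A) = q / p := by
      have h4 : χ ((L.T⁻¹ : Aˣ) : A) * χ (L.T : A) = 1 := by rw [← map_mul, Units.inv_mul, map_one]
      rw [hχ] at h4
      field_simp at h4
      rw [eq_div_iff hp]
      exact h4
    have h1 : (fun a => χ (f a)) = fun a => bval D (fun j => L.cf (-(j : ℤ)) (f a)) 1 (q / p) := by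
      funext a
      rw [L.annulus (f a) D (hpos a) (hneg a) χ, h3]
    rw [h1] at hV
    have h5 := hscale p 1 (q / p) hp hV
    rwa [mul_div_cancel₀ _ hp, mul_one] at h5
  · have h4 : ‖q / p‖ ≤ r₂⁻¹ := by
      have h5 : q / p = (p / q)⁻¹ := by rw [inv_div]
      rw [h5, norm_inv]
      exact inv_anti₀ (h0.trans_le h12) (not_le.1 hge).le
    have h5 := hscale p 1 (q / p) hp (houtside _ h4)
    rwa [mul_div_cancel₀ _ hp, mul_one] at h5

end LaurPoly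

end Pool.Agent.VF
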