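import Pool.Agent.Lib_MP_1858fb_w.Step
import Pool.Agent.Lib_MP_1858fb_w.Van4

/-! MP_1858fb_ag: main theorem of line C, first form (induction on the number of points). -/

namespace Pool.Agent.VF

open MvPolynomial

theorem val_mul_mul {κ : Type} {R : Type} [CommRing R] {d : ℕ} (F : Fin (d + 1) → κ → R)
    (s p q : R) : val F (s * p) (s * q) = s ^ d • val F p q := by
  funext i
  simp only [val, Pi.smul_apply, smul_eq_mul, Finset.mul_sum]
  refine Finset.sum_congr rfl fun j _ => ?_
  have hj : (j : ℕ) ≤ d := Nat.lt_succ_iff.mp j.2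
  have : s ^ d = s ^ (d - (j : ℕ)) * s ^ (j : ℕ) := by
    rw [← pow_add, Nat.sub_add_cancel hj]
  rw [this, mul_pow, mul_pow]
  ring

/-- auxiliary form: pairwise independent representatives -/
theorem main_aux {N c d : ℕ} {V : Set (Fin (N + 1) → ℂ)} (hV : LocClosed V)
    (hirr : Irred V) (hsm : ∀ x ∈ V, SmoothAt c V x) {F0 : Fin (d + 1) → Fin (N + 1) → ℂ}
    (hF0 : IsCurve V F0) (hs : Span V F0 1) {m : ℕ} (vs : Fin m → Fin (N + 1) → ℂ)
    (hvs : ∀ l, vs l ∈ V) :
    ∃ (m' : ℕ) (us : Fin m' → Fin (N + 1) → ℂ),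
      (∀ l l', l ≠ l' → LinearIndependent ℂ ![us l, us l']) ∧
      (∀ l, ∃ (l' : Fin m') (a : ℂ), a ≠ 0 ∧ vs l = a • us l') ∧
      ∃ (d' : ℕ) (F : Fin (d' + 1) → Fin (N + 1) → ℂ), IsCurve V F ∧ Span V F 1 ∧
        ∀ l, ∃ p q : ℂ, (p ≠ 0 ∨ q ≠ 0) ∧ val F p q = us l := by
  induction m with
  | zero =>
    exact ⟨0, Fin.elim0, fun l => l.elim0, fun l => l.elim0, d, F0, hF0, hs, fun l => l.elim0⟩
  | succ m ih =>
    obtain ⟨m', us, hind, hrep, d', F, hF, hFs, hpass⟩ :=
      ih (fun l => vs l.castSucc) (fun l => hvs _)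
    set v := vs (Fin.last m) with hvdef
    have hvV : v ∈ V := hvs _
    have hv0 : v ≠ 0 := by
      obtain ⟨I, J, -, hVe⟩ := hV
      rw [hVe] at hvV
      exact hvV.1
    by_cases hex : ∃ (l' : Fin m') (a : ℂ), a ≠ 0 ∧ v = a • us l'
    · refine ⟨m', us, hind, ?_, d', F, hF, hFs, hpass⟩
      intro l
      refine Fin.lastCases ?_ (fun l => ?_) l
      · exact hex
      · exact hrep l
    · push Not at hex
      obtain ⟨d'', S, hS, hSs, hSv, hSp⟩ := step hV hirr hsm hF hFs us hind hpass hvV
      have hpair : ∀ l, LinearIndependent ℂ ![v, us l] := by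
        intro l
        rw [LinearIndependent.pair_iff]
        intro s t hst
        have hu0 : us l ≠ 0 := by
          obtain ⟨p, q, hpq, hval⟩ := hpass l
          have : us l ∈ V := hval ▸ hF p q hpq
          obtain ⟨I, J, -, hVe⟩ := hV
          rw [hVe] at this
          exact this.1
        by_cases hs0 : s = 0
        · refine ⟨hs0, ?_⟩
          rw [hs0, zero_smul, zero_add] at hst
          exact (smul_eq_zero.mp hst).resolve_right hu0
        · exfalso
          have hv' : v = (-(s⁻¹ * t)) • us l := by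
            have h1 : s • v = (-t) • us l := by
              rw [neg_smul]
              exact eq_neg_of_add_eq_zero_left hst
            calc v = s⁻¹ • (s • v) := by rw [smul_smul, inv_mul_cancel₀ hs0, one_smul]
              _ = (-(s⁻¹ * t)) • us l := by rw [h1, smul_smul]; congr 1; ring
          have hne : -(s⁻¹ * t) ≠ 0 := by
            intro h0
            rw [h0, zero_smul] at hv'
            exact hv0 hv'
          exact hex l _ hne hv'
      refine ⟨m' + 1, Fin.snoc us v, ?_, ?_, d'', S, hS, hSs, ?_⟩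
      · intro l l'
        refine Fin.lastCases ?_ (fun l => ?_) l
        · refine Fin.lastCases ?_ (fun l' => ?_) l'
          · intro h; exact absurd rfl h
          · intro _
            rw [Fin.snoc_last, Fin.snoc_castSucc]
            exact hpair l'
        · refine Fin.lastCases ?_ (fun l' => ?_) l'
          · intro _
            rw [Fin.snoc_last, Fin.snoc_castSucc]
            have := hpair l
            rw [LinearIndependent.pair_iff] at this ⊢
            intro s t hst
            have h2 := this t s ((add_comm _ _).trans hst)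
            exact ⟨h2.2, h2.1⟩
          · intro h
            rw [Fin.snoc_castSucc, Fin.snoc_castSucc]
            exact hind l l' (fun h' => h (by rw [h']))
      · intro l
        refine Fin.lastCases ?_ (fun l => ?_) l
        · refine ⟨Fin.last m', 1, one_ne_zero, ?_⟩
          rw [Fin.snoc_last, one_smul]
        · obtain ⟨l', a, ha, hval⟩ := hrep l
          refine ⟨l'.castSucc, a, ha, ?_⟩
          rw [Fin.snoc_castSucc]
          exact hval
      · intro l
        refine Fin.lastCases ?_ (fun l => ?_) l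
        · rw [Fin.snoc_last]
          exact hSv
        · rw [Fin.snoc_castSucc]
          exact hSp l

/-- Main theorem, first form: in a smooth irreducible locally closed subset of projective space
over the complex numbers that contains a very free curve, any finitely many points lie on a
very free curve. -/
theorem main_points {N c d : ℕ} (hc : c < N) {V : Set (Fin (N + 1) → ℂ)} (hV : LocClosed V)
    (hirr : Irred V) (hsm : ∀ x ∈ V, SmoothAt c V x) {F0 : Fin (d + 1) → Fin (N + 1) → ℂ}
    (hF0 : IsCurve V F0) (hvf : VeryFree V F0) {m : ℕ} (vs : Fin m → Fin (N + 1) → ℂ)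
    (hvs : ∀ l, vs l ∈ V) :
    ∃ (d' : ℕ) (F : Fin (d' + 1) → Fin (N + 1) → ℂ), IsCurve V F ∧ VeryFree V F ∧
      ∀ l, ∃ p q : ℂ, (p ≠ 0 ∨ q ≠ 0) ∧ val F p q = vs l := by
  have hs := span_one_of_veryFree hc hV hsm hF0 hvf
  obtain ⟨m', us, hind, hrep, d', F, hF, hFs, hpass⟩ := main_aux hV hirr hsm hF0 hs vs hvs
  refine ⟨d', F, hF, veryFree_of_span_one hFs, ?_⟩
  intro l
  obtain ⟨l', a, ha, hval⟩ := hrep l
  obtain ⟨p, q, hpq, hpass'⟩ := hpass l'
  have hd : 0 < d' := hFs.1
  obtain ⟨s, hs'⟩ := IsAlgClosed.exists_pow_nat_eq a hd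
  have hs0 : s ≠ 0 := by
    intro h0
    rw [h0, zero_pow hd.ne'] at hs'
    exact ha hs'.symm
  refine ⟨s * p, s * q, ?_, ?_⟩
  · rcases hpq with h | h
    · exact Or.inl (mul_ne_zero hs0 h)
    · exact Or.inr (mul_ne_zero hs0 h)
  · rw [val_mul_mul, hs', hpass', hval]

end Pool.Agent.VF
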