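import Pool.Agent.Lib_MP_1858fb_w.Van5

/-!
# MP_1858fb_ag, piece B3 (algebraic part): normal form of the marks, scaling of the parameter
-/

namespace Pool.Agent.VF

section

variable {k : Type} [Field k]

/-- homogeneity of the value in the parameter -/
theorem val_smul_smul {κ : Type} {d : ℕ} (F : Fin (d + 1) → κ → k) (t p q : k) :
    val F (t * p) (t * q) = t ^ d • val F p q := by
  funext i
  simp only [val, Pi.smul_apply, smul_eq_mul]
  rw [Finset.mul_sum]
  refine Finset.sum_congr rfl fun j _ => ?_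
  have hj : (j : ℕ) ≤ d := Nat.lt_succ_iff.1 j.2
  have e : t ^ d = t ^ (d - (j : ℕ)) * t ^ (j : ℕ) := by rw [← pow_add, Nat.sub_add_cancel hj]
  rw [e, mul_pow, mul_pow]
  ring

/-- a value which is right up to a scalar is attained exactly -/
theorem exists_scale [IsAlgClosed k] {κ : Type} {d : ℕ} (hd : 1 ≤ d) {F : Fin (d + 1) → κ → k}
    {p q μ : k} {w : κ → k} (hpq : p ≠ 0 ∨ q ≠ 0) (hμ : μ ≠ 0) (h : val F p q = μ • w) :
    ∃ p' q' : k, (p' ≠ 0 ∨ q' ≠ 0) ∧ val F p' q' = w := by
  obtain ⟨t, ht⟩ := IsAlgClosed.exists_pow_nat_eq (μ⁻¹) (show 0 < d by omega)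
  have ht0 : t ≠ 0 := by
    rintro rfl
    rw [zero_pow (by omega)] at ht
    exact inv_ne_zero hμ ht.symm
  refine ⟨t * p, t * q, ?_, ?_⟩
  · rcases hpq with h | h
    · exact Or.inl (mul_ne_zero ht0 h)
    · exact Or.inr (mul_ne_zero ht0 h)
  · rw [val_smul_smul, h, smul_smul, ht, inv_mul_cancel₀ hμ, one_smul]

/-- **normal form of the marks**: after a linear change of the parameter and the cover
`(p : q) ↦ (p ^ (m + 1) : q ^ (m + 1))` the marked points are attained at `(1 : c_l)` with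
distinct nonzero `c_l`, up to nonzero factors -/
theorem exists_marks [IsAlgClosed k] {N d m : ℕ} {V : Set (Fin (N + 1) → k)}
    {F0 : Fin (d + 1) → Fin (N + 1) → k} (hF0 : IsCurve V F0) (hs : Span V F0 1)
    (vs : Fin m → Fin (N + 1) → k)
    (hind : ∀ l l', l ≠ l' → LinearIndependent k ![vs l, vs l'])
    (hpass : ∀ l, ∃ p q : k, (p ≠ 0 ∨ q ≠ 0) ∧ val F0 p q = vs l) :
    ∃ (d1 : ℕ) (F1 : Fin (d1 + 1) → Fin (N + 1) → k) (cm μ : Fin m → k),
      IsCurve V F1 ∧ Span V F1 (m + 1) ∧ (∀ l, cm l ≠ 0) ∧ Function.Injective cm ∧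
      (∀ l, μ l ≠ 0) ∧ ∀ l, val F1 1 (cm l) = μ l • vs l := by
  classical
  choose p q hpq hval using hpass
  -- two general numbers
  have hinf : Infinite k := IsAlgClosed.instInfinite
  obtain ⟨x, hx⟩ := (Finset.univ.image fun l => p l / q l).exists_notMem
  obtain ⟨z, hz⟩ := (insert x (Finset.univ.image fun l => p l / q l)).exists_notMem
  have hgen : ∀ y : k, y ∉ (Finset.univ.image fun l => p l / q l) →
      ∀ l, p l - y * q l ≠ 0 := by
    intro y hy l h0
    by_cases hq : q l = 0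
    · rw [hq, mul_zero, sub_zero] at h0
      rcases hpq l with h | h
      · exact h h0
      · exact h hq
    · apply hy
      refine Finset.mem_image.2 ⟨l, Finset.mem_univ _, ?_⟩
      rw [div_eq_iff hq]
      exact sub_eq_zero.1 h0
  have hx' := hgen x hx
  have hz' := hgen z (fun h => hz (Finset.mem_insert_of_mem h))
  have hzx : z ≠ x := fun h => hz (h ▸ Finset.mem_insert_self _ _)
  have hdet : z * 1 - 1 * x ≠ 0 := by
    rw [mul_one, one_mul]; exact sub_ne_zero.2 hzx
  have hzx' : z - x ≠ 0 := sub_ne_zero.2 hzx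
  obtain ⟨F', hF', hs', hv'⟩ := exists_reparam hF0 hs z x 1 1 hdet
  -- the new parameters of the marks
  let P : Fin m → k := fun l => (p l - x * q l) / (z - x)
  let Q : Fin m → k := fun l => (z * q l - p l) / (z - x)
  have hP : ∀ l, P l ≠ 0 := fun l => div_ne_zero (hx' l) hzx'
  have hQ : ∀ l, Q l ≠ 0 := fun l => by
    refine div_ne_zero ?_ hzx'
    intro h
    exact hz' l (by rw [← neg_eq_zero, ← h]; ring)
  have hPQ : ∀ l, val F' (P l) (Q l) = vs l := by
    intro l
    rw [hv' (P l) (Q l), ← hval l]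
    have e1 : z * P l + x * Q l = p l := by
      simp only [P, Q]; field_simp; ring
    have e2 : 1 * P l + 1 * Q l = q l := by
      simp only [P, Q]; field_simp; ring
    rw [e1, e2]
  have hC : ∀ l, val F' 1 (Q l / P l) = (P l)⁻¹ ^ d • vs l := by
    intro l
    rw [← hPQ l, ← val_smul_smul]
    congr 1
    · rw [inv_mul_cancel₀ (hP l)]
    · rw [div_eq_inv_mul]
  obtain ⟨d1, F1, hF1, hs1, hv1⟩ := exists_cover hF' hs' (m + 1) (Nat.succ_pos m)
  have hroot : ∀ l, ∃ c : k, c ^ (m + 1) = Q l / P l :=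
    fun l => IsAlgClosed.exists_pow_nat_eq _ (Nat.succ_pos m)
  choose cm hcm using hroot
  refine ⟨d1, F1, cm, fun l => (P l)⁻¹ ^ d, hF1, hs1, ?_, ?_, ?_, ?_⟩
  · intro l h0
    have := hcm l
    rw [h0, zero_pow (Nat.succ_ne_zero m)] at this
    exact div_ne_zero (hQ l) (hP l) this.symm
  · intro l l' hll
    by_contra hne
    have h1 : Q l / P l = Q l' / P l' := by rw [← hcm l, ← hcm l', hll]
    have h2 := hC l
    rw [h1, hC l'] at h2
    have h3 := hind l l' hne
    rw [LinearIndependent.pair_iff] at h3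
    have h4 := h3 ((P l)⁻¹ ^ d) (-(P l')⁻¹ ^ d) (by rw [neg_smul, h2]; exact add_neg_cancel _)
    exact pow_ne_zero d (inv_ne_zero (hP l)) h4.1
  · intro l
    exact pow_ne_zero d (inv_ne_zero (hP l))
  · intro l
    rw [hv1, one_pow, hcm l, hC l]

end

end Pool.Agent.VF
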