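import Mathlib

/-!
# MP_1858fb_ag: a root of a polynomial with holomorphic coefficients becomes holomorphic after `t = τ ^ e`

Piece (4) (monodromy) of the two circle gluing (board note 2851).
-/

set_option autoImplicit false

namespace Pool.Agent.VFMono

open Finset Filter Topology

/-- the value of `∑_(k ≤ n) a_k(t) X^k` at `x` -/
def Pv (n : ℕ) (a : ℕ → ℂ → ℂ) (t x : ℂ) : ℂ := ∑ k ∈ range (n + 1), a k t * x ^ k

/-- the value of the derivative in `x` -/
def Pd (n : ℕ) (a : ℕ → ℂ → ℂ) (t x : ℂ) : ℂ := ∑ k ∈ range (n + 1), a k t * (k * x ^ (k - 1))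

/-- the difference quotient -/
def Pq (n : ℕ) (a : ℕ → ℂ → ℂ) (t x y : ℂ) : ℂ :=
  ∑ k ∈ range (n + 1), a k t * ∑ i ∈ range k, x ^ i * y ^ (k - 1 - i)

theorem pq_self (n : ℕ) (a : ℕ → ℂ → ℂ) (t x : ℂ) : Pq n a t x x = Pd n a t x := by
  unfold Pq Pd
  simp only [geom_sum₂_self]

theorem pq_mul (n : ℕ) (a : ℕ → ℂ → ℂ) (t x y : ℂ) : Pq n a t x y * (x - y) = Pv n a t x - Pv n a t y := by
  unfold Pq Pv
  rw [sum_mul, ← sum_sub_distrib]
  refine sum_congr rfl fun k _ => ?_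
  rw [mul_assoc, (Commute.all x y).geom_sum₂_mul, mul_sub]

/-- there is a root near a point with a small value -/
theorem near_root {n : ℕ} (a : ℕ → ℂ → ℂ) (t x0 : ℂ) (ha : a n t ≠ 0) {r : ℝ} (hr : 0 < r)
    (h : ‖Pv n a t x0‖ < ‖a n t‖ * r ^ n) : ∃ x, Pv n a t x = 0 ∧ ‖x - x0‖ < r := by
  classical
  set p : Polynomial ℂ := ∑ k ∈ range (n + 1), Polynomial.C (a k t) * Polynomial.X ^ k with hp
  have hev : ∀ x, p.eval x = Pv n a t x := by
    intro x
    rw [hp, Polynomial.eval_finsetSum]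
    unfold Pv
    exact sum_congr rfl fun k _ => by simp
  have hco : p.coeff n = a n t := by
    rw [hp, Polynomial.finsetSum_coeff, sum_eq_single n]
    · simp
    · intro k hk hkn
      rw [Polynomial.coeff_C_mul_X_pow, if_neg (fun h => hkn h.symm)]
    · intro h
      exact absurd (mem_range.2 (Nat.lt_succ_self n)) h
  have hdeg : p.natDegree = n := by
    refine le_antisymm ?_ (Polynomial.le_natDegree_of_ne_zero (by rw [hco]; exact ha))
    refine Polynomial.natDegree_sum_le_of_forall_le _ _ fun k hk => ?_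
    exact (Polynomial.natDegree_C_mul_X_pow_le _ _).trans (Nat.lt_succ_iff.1 (mem_range.1 hk))
  have hsp := IsAlgClosed.splits p
  have hcard : Multiset.card p.roots = n := by
    rw [← hdeg]
    exact (Polynomial.splits_iff_card_roots.1 hsp)
  have hlc : p.leadingCoeff = a n t := by
    unfold Polynomial.leadingCoeff
    rw [hdeg, hco]
  by_contra hcon
  push Not at hcon
  have key : ∀ s : Multiset ℂ, (∀ x ∈ s, r ≤ ‖x0 - x‖) → r ^ (Multiset.card s) ≤ ‖(s.map (fun x => x0 - x)).prod‖ := by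
    intro s
    induction s using Multiset.induction_on with
    | empty => intro _; simp
    | cons b s ih =>
      intro hb
      rw [Multiset.map_cons, Multiset.prod_cons, Multiset.card_cons, pow_succ, norm_mul, mul_comm]
      exact mul_le_mul (hb b (Multiset.mem_cons_self b s)) (ih fun x hx => hb x (Multiset.mem_cons_of_mem hx))
        (by positivity) (norm_nonneg _)
  have h1 := key p.roots fun x hx => by
    have := (Polynomial.mem_roots'.1 hx).2
    rw [Polynomial.IsRoot.def, hev] at this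
    rw [norm_sub_rev]
    exact hcon x this
  rw [hcard] at h1
  have h2 := hsp.eval_eq_prod_roots x0
  rw [hev, hlc] at h2
  rw [h2, norm_mul] at h
  exact absurd (mul_le_mul_of_nonneg_left h1 (norm_nonneg (a n t))) (not_le.2 h)

/-- the sum of the absolute values of the lower coefficients over the leading one -/
noncomputable def Bd (n : ℕ) (a : ℕ → ℂ → ℂ) (t : ℂ) : ℝ := (∑ k ∈ range n, ‖a k t‖) / ‖a n t‖

/-- roots are bounded -/
theorem root_le {n : ℕ} (hn : 0 < n) (a : ℕ → ℂ → ℂ) (t x : ℂ) (ha : a n t ≠ 0) (hx : Pv n a t x = 0) :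
    ‖x‖ ≤ 1 + Bd n a t := by
  have hB : 0 ≤ Bd n a t := div_nonneg (sum_nonneg fun _ _ => norm_nonneg _) (norm_nonneg _)
  by_cases h1 : ‖x‖ ≤ 1
  · linarith
  push Not at h1
  have hpos : 0 < ‖a n t‖ := norm_pos_iff.2 ha
  unfold Pv at hx
  rw [sum_range_succ] at hx
  have h2 : ‖a n t‖ * ‖x‖ ^ n ≤ (∑ k ∈ range n, ‖a k t‖) * ‖x‖ ^ (n - 1) := by
    have : a n t * x ^ n = - ∑ k ∈ range n, a k t * x ^ k := by linear_combination hx
    rw [← norm_pow, ← norm_mul, this, norm_neg, sum_mul]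
    refine (norm_sum_le _ _).trans (sum_le_sum fun k hk => ?_)
    rw [norm_mul, norm_pow]
    refine mul_le_mul_of_nonneg_left ?_ (norm_nonneg _)
    exact pow_le_pow_right₀ h1.le (by have := mem_range.1 hk; omega)
  have h3 : ‖x‖ ^ n = ‖x‖ ^ (n - 1) * ‖x‖ := by
    rw [← pow_succ, Nat.sub_add_cancel hn]
  have h4 : 0 < ‖x‖ ^ (n - 1) := by positivity
  rw [h3] at h2
  have h5 : ‖a n t‖ * ‖x‖ ≤ ∑ k ∈ range n, ‖a k t‖ := by
    by_contra h6
    push Not at h6
    have := mul_lt_mul_of_pos_right h6 h4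
    linarith [this, h2, mul_comm (‖a n t‖) (‖x‖ ^ (n - 1) * ‖x‖)]
  have h6 : ‖x‖ ≤ Bd n a t := by
    unfold Bd
    rw [le_div_iff₀ hpos]
    linarith [mul_comm ‖a n t‖ ‖x‖]
  linarith

section

variable {n : ℕ} {a : ℕ → ℂ → ℂ} {δ : ℝ}

/-- the punctured disc -/
abbrev Dp (δ : ℝ) : Type := {t : ℂ // 0 < ‖t‖ ∧ ‖t‖ < δ}

/-- the curve over the punctured disc -/
abbrev Cv (n : ℕ) (a : ℕ → ℂ → ℂ) (δ : ℝ) : Type := {e : Dp δ × ℂ // Pv n a e.1 e.2 = 0}

/-- the projection -/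
def pr (n : ℕ) (a : ℕ → ℂ → ℂ) (δ : ℝ) (e : Cv n a δ) : Dp δ := e.1.1

/-- the assumptions -/
structure Hyp (n : ℕ) (a : ℕ → ℂ → ℂ) (δ : ℝ) : Prop where
  pos : 0 < n
  hol : ∀ k, DifferentiableOn ℂ (a k) (Metric.ball 0 δ)
  lead : ∀ t : ℂ, 0 < ‖t‖ → ‖t‖ < δ → a n t ≠ 0
  simp : ∀ t x : ℂ, 0 < ‖t‖ → ‖t‖ < δ → Pv n a t x = 0 → Pd n a t x ≠ 0

theorem Hyp.cont (H : Hyp n a δ) (k : ℕ) : Continuous (fun t : Dp δ => a k t) := by
  have h1 : ContinuousOn (a k) (Metric.ball 0 δ) := (H.hol k).continuousOn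
  refine continuousOn_iff_continuous_domRestrict.1 h1 |>.comp
    (f := fun t : Dp δ => (⟨t.1, by simpa using t.2.2⟩ : Metric.ball (0 : ℂ) δ)) ?_
  exact Continuous.subtype_mk continuous_subtype_val _

theorem Hyp.contPv (H : Hyp n a δ) : Continuous (fun e : Dp δ × ℂ => Pv n a e.1 e.2) := by
  unfold Pv
  refine continuous_finsetSum _ fun k _ => ?_
  exact ((H.cont k).comp continuous_fst).mul (continuous_snd.pow k)

theorem Hyp.contPq (H : Hyp n a δ) : Continuous (fun e : Dp δ × ℂ × ℂ => Pq n a e.1 e.2.1 e.2.2) := by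
  unfold Pq
  refine continuous_finsetSum _ fun k _ => ?_
  refine ((H.cont k).comp continuous_fst).mul (continuous_finsetSum _ fun i _ => ?_)
  exact ((continuous_fst.comp continuous_snd).pow i).mul ((continuous_snd.comp continuous_snd).pow _)

theorem continuous_pr : Continuous (pr n a δ) := continuous_fst.comp continuous_subtype_val

theorem Hyp.contBd (H : Hyp n a δ) : Continuous (fun t : Dp δ => Bd n a t) := by
  unfold Bd
  refine Continuous.div (continuous_finsetSum _ fun k _ => (H.cont k).norm) (H.cont n).norm fun t => ?_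
  exact norm_ne_zero_iff.2 (H.lead t t.2.1 t.2.2)

theorem Hyp.proper (H : Hyp n a δ) : IsProperMap (pr n a δ) := by
  rw [isProperMap_iff_isCompact_preimage]
  refine ⟨continuous_pr, fun K hK => ?_⟩
  obtain ⟨R, hR⟩ := (hK.image H.contBd).bddAbove
  have h1 : IsCompact (K ×ˢ Metric.closedBall (0 : ℂ) (1 + R)) := hK.prod (isCompact_closedBall _ _)
  have hcl : IsClosed {e : Dp δ × ℂ | Pv n a e.1 e.2 = 0} := isClosed_eq H.contPv continuous_const
  have h2 : Topology.IsClosedEmbedding (Subtype.val : Cv n a δ → Dp δ × ℂ) := hcl.isClosedEmbedding_subtypeVal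
  have h3 : pr n a δ ⁻¹' K = (Subtype.val : Cv n a δ → Dp δ × ℂ) ⁻¹' (K ×ˢ Metric.closedBall (0 : ℂ) (1 + R)) := by
    ext e
    simp only [Set.mem_preimage, Set.mem_prod, Metric.mem_closedBall, dist_zero_right]
    constructor
    · intro h
      refine ⟨h, (root_le H.pos a _ _ (H.lead _ e.1.1.2.1 e.1.1.2.2) e.2).trans ?_⟩
      have := hR (Set.mem_image_of_mem _ h)
      exact add_le_add_right this 1
    · exact fun h => h.1
  rw [h3]
  exact h2.isCompact_preimage h1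

theorem Hyp.inj (H : Hyp n a δ) (e : Cv n a δ) : ∃ U ∈ 𝓝 e, IsOpen U ∧ Set.InjOn (pr n a δ) U := by
  have h1 : Pq n a e.1.1 e.1.2 e.1.2 ≠ 0 := by
    rw [pq_self]
    exact H.simp _ _ e.1.1.2.1 e.1.1.2.2 e.2
  have h2 : ∀ᶠ x : Dp δ × ℂ × ℂ in 𝓝 (e.1.1, e.1.2, e.1.2), Pq n a x.1 x.2.1 x.2.2 ≠ 0 :=
    H.contPq.continuousAt.eventually_ne h1
  rw [nhds_prod_eq, nhds_prod_eq] at h2
  obtain ⟨A, hA, B, hB, hAB⟩ := Filter.mem_prod_iff.1 h2
  obtain ⟨B1, hB1, B2, hB2, hB12⟩ := Filter.mem_prod_iff.1 hB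
  obtain ⟨A', hA', hAo, hAe⟩ := mem_nhds_iff.1 hA
  obtain ⟨C, hC, hCo, hCe⟩ := mem_nhds_iff.1 (Filter.inter_mem hB1 hB2)
  have hopen : IsOpen {x : Cv n a δ | x.1.1 ∈ A' ∧ x.1.2 ∈ C} :=
    (hAo.preimage (continuous_fst.comp continuous_subtype_val)).inter
      (hCo.preimage (continuous_snd.comp continuous_subtype_val))
  refine ⟨{x : Cv n a δ | x.1.1 ∈ A' ∧ x.1.2 ∈ C}, hopen.mem_nhds ⟨hAe, hCe⟩, hopen, ?_⟩
  rintro ⟨⟨t, x⟩, hx⟩ ⟨h3, h4⟩ ⟨⟨s, y⟩, hy⟩ ⟨h5, h6⟩ h7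
  have hts : t = s := h7
  subst hts
  have h8 := pq_mul n a t x y
  have h9 : Pv n a t x = 0 := hx
  have h10 : Pv n a t y = 0 := hy
  rw [h9, h10, sub_zero] at h8
  have h11 : Pq n a t x y ≠ 0 := hAB (Set.mk_mem_prod (hA' h3) (hB12 (Set.mk_mem_prod (hC h4).1 (hC h6).2)))
  have h12 : x = y := sub_eq_zero.1 ((mul_eq_zero.1 h8).resolve_left h11)
  subst h12
  rfl

theorem Hyp.openMap (H : Hyp n a δ) : IsOpenMap (pr n a δ) := by
  rw [isOpenMap_iff_nhds_le]
  intro e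
  rw [Filter.le_map_iff]
  intro U hU
  obtain ⟨V, hV, hVU⟩ := mem_nhds_subtype _ _ _ |>.1 hU
  rw [nhds_prod_eq] at hV
  obtain ⟨A, hA, B, hB, hAB⟩ := Filter.mem_prod_iff.1 hV
  obtain ⟨r, hr, hrB⟩ := Metric.mem_nhds_iff.1 hB
  have h1 : Continuous (fun t : Dp δ => ‖a n t‖ * r ^ n - ‖Pv n a t e.1.2‖) :=
    ((H.cont n).norm.mul continuous_const).sub (H.contPv.comp (continuous_id.prodMk continuous_const)).norm
  have h2 : 0 < ‖a n e.1.1‖ * r ^ n - ‖Pv n a e.1.1 e.1.2‖ := by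
    rw [e.2, norm_zero, sub_zero]
    have := norm_pos_iff.2 (H.lead _ e.1.1.2.1 e.1.1.2.2)
    positivity
  have h3 : ∀ᶠ t : Dp δ in 𝓝 e.1.1, 0 < ‖a n t‖ * r ^ n - ‖Pv n a t e.1.2‖ :=
    h1.continuousAt.eventually_const_lt h2
  filter_upwards [h3, hA] with t ht htA
  obtain ⟨x, hx, hxr⟩ := near_root a t e.1.2 (H.lead t t.2.1 t.2.2) hr (by linarith)
  refine ⟨⟨(t, x), hx⟩, hVU ?_, rfl⟩
  exact hAB (Set.mk_mem_prod htA (hrB (by rwa [Metric.mem_ball, dist_eq_norm])))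

theorem Hyp.localHomeo (H : Hyp n a δ) : IsLocalHomeomorph (pr n a δ) := by
  rw [isLocalHomeomorph_iff_isOpenEmbedding_restrict]
  intro e
  obtain ⟨U, hU, hUo, hinj⟩ := H.inj e
  refine ⟨U, hU, ?_⟩
  exact Topology.IsOpenEmbedding.of_continuous_injective_isOpenMap (continuous_pr.comp continuous_subtype_val)
    (Set.injOn_iff_injective.1 hinj) (H.openMap.domRestrict hUo)

theorem Hyp.finite (H : Hyp n a δ) (t : Dp δ) : (pr n a δ ⁻¹' {t}).Finite := by
  have hc : IsCompact (pr n a δ ⁻¹' {t}) := H.proper.isCompact_preimage isCompact_singleton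
  refine hc.finite ?_
  rw [isDiscrete_iff_discreteTopology, discreteTopology_subtype_iff]
  intro e he
  obtain ⟨U, hU, -, hinj⟩ := H.inj e
  rw [Filter.inf_principal_eq_bot]
  filter_upwards [mem_nhdsWithin_of_mem_nhds hU, self_mem_nhdsWithin] with x hx hne hS
  refine hne (hinj hx (mem_of_mem_nhds hU) ?_)
  exact (Set.mem_singleton_iff.1 hS).trans (Set.mem_singleton_iff.1 he).symm

theorem Hyp.covering (H : Hyp n a δ) : IsCoveringMap (pr n a δ) := by
  rw [isCoveringMap_iff_isCoveringMapOn_univ]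
  refine H.proper.isClosedMap.isCoveringMapOn_of_isLocalHomeomorphOn (fun t _ => H.finite t) ?_
  exact H.localHomeo.isLocalHomeomorphOn

/-! ### The lift to the half plane -/

/-- the half plane over the punctured disc -/
abbrev Hp (δ : ℝ) : Type := {u : ℂ // u.re < Real.log δ}

theorem convex_hp (δ : ℝ) : Convex ℝ {u : ℂ | u.re < Real.log δ} := convex_halfSpace_re_lt _

theorem isOpen_hp (δ : ℝ) : IsOpen {u : ℂ | u.re < Real.log δ} := isOpen_lt Complex.continuous_re continuous_const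

theorem exp_mem (hδ : 0 < δ) (u : ℂ) (hu : u.re < Real.log δ) : 0 < ‖Complex.exp u‖ ∧ ‖Complex.exp u‖ < δ := by
  rw [Complex.norm_exp]
  exact ⟨Real.exp_pos _, (Real.lt_log_iff_exp_lt hδ).1 hu⟩

/-- the map to the punctured disc -/
noncomputable def ex (hδ : 0 < δ) : C(Hp δ, Dp δ) where
  toFun u := ⟨Complex.exp u, exp_mem hδ u u.2⟩
  continuous_toFun := Continuous.subtype_mk (Complex.continuous_exp.comp continuous_subtype_val) _

theorem Hyp.root_ex (H : Hyp n a δ) (t : Dp δ) : ∃ x, Pv n a t x = 0 := by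
  have h1 : 0 < ‖a n t‖ := norm_pos_iff.2 (H.lead t t.2.1 t.2.2)
  obtain ⟨r, hr⟩ := exists_gt (‖Pv n a t 0‖ / ‖a n t‖ + 1)
  have h2 : 0 ≤ ‖Pv n a t 0‖ / ‖a n t‖ := by positivity
  have h3 : 1 ≤ r := by linarith
  obtain ⟨x, hx, -⟩ := near_root a t 0 (H.lead t t.2.1 t.2.2) (r := r) (by linarith) (by
    have h4 : r ≤ r ^ n := le_self_pow₀ h3 H.pos.ne'
    have h5 : ‖Pv n a t 0‖ < ‖a n t‖ * r := by
      have := (div_lt_iff₀ h1).1 (show ‖Pv n a t 0‖ / ‖a n t‖ < r by linarith)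
      linarith [mul_comm r ‖a n t‖]
    exact lt_of_lt_of_le h5 (mul_le_mul_of_nonneg_left h4 h1.le))
  exact ⟨x, hx⟩

/-- a continuous root over the half plane which is periodic with period `2 π i e` -/
theorem Hyp.lift (H : Hyp n a δ) (hδ : 0 < δ) : ∃ g : ℂ → ℂ, ContinuousOn g {u : ℂ | u.re < Real.log δ} ∧
    (∀ u : ℂ, u.re < Real.log δ → Pv n a (Complex.exp u) (g u) = 0) ∧
    ∃ e : ℕ, 0 < e ∧ ∀ u : ℂ, u.re < Real.log δ → g (u + 2 * Real.pi * Complex.I * e) = g u := by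
  classical
  have hne : ({u : ℂ | u.re < Real.log δ}).Nonempty := ⟨((Real.log δ - 1 : ℝ) : ℂ), by
    show ((Real.log δ - 1 : ℝ) : ℂ).re < Real.log δ
    rw [Complex.ofReal_re]
    linarith⟩
  have : ContractibleSpace (Hp δ) := (convex_hp δ).contractibleSpace hne
  have : LocallyPathConnectedSpace (Hp δ) := (isOpen_hp δ).locallyPathConnectedSpace
  obtain ⟨u0, hu0⟩ := hne
  obtain ⟨x0, hx0⟩ := H.root_ex (ex hδ ⟨u0, hu0⟩)
  obtain ⟨F, ⟨-, hF⟩, -⟩ := H.covering.existsUnique_continuousMap_lifts (ex hδ) (a₀ := ⟨u0, hu0⟩)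
    (e₀ := ⟨(ex hδ ⟨u0, hu0⟩, x0), hx0⟩) rfl
  have hFu : ∀ u : Hp δ, (F u).1.1 = ex hδ u := fun u => congrFun hF u
  -- the shifts
  have hsh : ∀ (m : ℤ) (u : ℂ), u.re < Real.log δ → (u + 2 * Real.pi * Complex.I * m).re < Real.log δ := by
    intro m u hu
    have : (u + 2 * Real.pi * Complex.I * m).re = u.re := by simp
    rwa [this]
  let sh : ℤ → C(Hp δ, Hp δ) := fun m =>
    { toFun := fun u => ⟨u.1 + 2 * Real.pi * Complex.I * m, hsh m u.1 u.2⟩
      continuous_toFun := Continuous.subtype_mk (continuous_subtype_val.add continuous_const) _ }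
  have hex : ∀ (m : ℤ) (u : Hp δ), ex hδ (sh m u) = ex hδ u := by
    intro m u
    refine Subtype.ext ?_
    show Complex.exp (u.1 + 2 * Real.pi * Complex.I * m) = Complex.exp u.1
    have : (2 * Real.pi * Complex.I * m : ℂ) = m * (2 * Real.pi * Complex.I) := by ring
    rw [this, Complex.exp_add, Complex.exp_int_mul_two_pi_mul_I, mul_one]
  -- pigeonhole
  have hfin := H.finite (ex hδ ⟨u0, hu0⟩)
  have hmap : Set.MapsTo (fun m : ℤ => F (sh m ⟨u0, hu0⟩)) Set.univ (pr n a δ ⁻¹' {ex hδ ⟨u0, hu0⟩}) := by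
    intro m _
    show (F (sh m ⟨u0, hu0⟩)).1.1 = ex hδ ⟨u0, hu0⟩
    rw [hFu, hex]
  obtain ⟨m1, -, m2, -, hlt, heq⟩ := Set.infinite_univ.exists_lt_map_eq_of_mapsTo hmap hfin
  have huniq : ∀ u, F (sh m1 u) = F (sh m2 u) := by
    have h1 : (pr n a δ) ∘ (F.comp (sh m1)) = (pr n a δ) ∘ (F.comp (sh m2)) := by
      funext u
      show (F (sh m1 u)).1.1 = (F (sh m2 u)).1.1
      rw [hFu, hFu, hex, hex]
    have h2 := H.covering.eq_of_comp_eq (F.comp (sh m1)).continuous (F.comp (sh m2)).continuous h1 ⟨u0, hu0⟩ heq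
    exact fun u => congrFun h2 u
  refine ⟨fun u => if h : u.re < Real.log δ then (F ⟨u, h⟩).1.2 else 0, ?_, ?_, ?_⟩
  · rw [continuousOn_iff_continuous_domRestrict]
    have : (Set.domRestrict {u : ℂ | u.re < Real.log δ} fun u : ℂ => if h : u.re < Real.log δ then (F ⟨u, h⟩).1.2 else 0) =
        fun u : Hp δ => (F u).1.2 := by
      funext u
      exact dif_pos (show u.1.re < Real.log δ from u.2)
    rw [this]
    exact (continuous_snd.comp continuous_subtype_val).comp F.continuous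
  · intro u hu
    simp only
    rw [dif_pos hu]
    have h1 := (F ⟨u, hu⟩).2
    rw [hFu] at h1
    exact h1
  · refine ⟨(m2 - m1).toNat, by omega, fun u hu => ?_⟩
    have hc : (((m2 - m1).toNat : ℕ) : ℂ) = (m2 : ℂ) - m1 := by
      have : (((m2 - m1).toNat : ℕ) : ℤ) = m2 - m1 := Int.toNat_of_nonneg (by omega)
      exact_mod_cast congrArg (Int.cast : ℤ → ℂ) this
    have hu1 : (u + 2 * Real.pi * Complex.I * ((m2 - m1).toNat : ℕ)).re < Real.log δ := by
      have := hsh ((m2 - m1).toNat : ℕ) u hu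
      simpa using this
    simp only
    rw [dif_pos hu, dif_pos hu1]
    have h1 := huniq ⟨u + 2 * Real.pi * Complex.I * ((-m1 : ℤ) : ℂ), hsh (-m1) u hu⟩
    have e1 : sh m1 ⟨u + 2 * Real.pi * Complex.I * ((-m1 : ℤ) : ℂ), hsh (-m1) u hu⟩ = ⟨u, hu⟩ := by
      refine Subtype.ext ?_
      show u + 2 * Real.pi * Complex.I * ((-m1 : ℤ) : ℂ) + 2 * Real.pi * Complex.I * m1 = u
      push_cast
      ring
    have e2 : sh m2 ⟨u + 2 * Real.pi * Complex.I * ((-m1 : ℤ) : ℂ), hsh (-m1) u hu⟩ =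
        ⟨u + 2 * Real.pi * Complex.I * ((m2 - m1).toNat : ℕ), hu1⟩ := by
      refine Subtype.ext ?_
      show u + 2 * Real.pi * Complex.I * ((-m1 : ℤ) : ℂ) + 2 * Real.pi * Complex.I * m2 =
        u + 2 * Real.pi * Complex.I * ((m2 - m1).toNat : ℕ)
      rw [hc]
      push_cast
      ring
    rw [e1, e2] at h1
    rw [h1]

/-! ### Holomorphy -/

theorem mul_deriv {φ w : ℂ → ℂ} {φ' u0 : ℂ} (h1 : HasDerivAt φ φ' u0) (h0 : φ u0 = 0) (hw : ContinuousAt w u0) :
    HasDerivAt (fun u => φ u * w u) (φ' * w u0) u0 := by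
  rw [hasDerivAt_iff_tendsto_slope] at h1 ⊢
  have h2 : Tendsto (fun u => slope φ u0 u * w u) (𝓝[≠] u0) (𝓝 (φ' * w u0)) :=
    h1.mul (hw.tendsto.mono_left nhdsWithin_le_nhds)
  refine h2.congr fun u => ?_
  rw [slope_def_field, slope_def_field, h0]
  ring

theorem Hyp.diff (H : Hyp n a δ) (hδ : 0 < δ) {g : ℂ → ℂ} (hg : ContinuousOn g {u : ℂ | u.re < Real.log δ})
    (hr : ∀ u : ℂ, u.re < Real.log δ → Pv n a (Complex.exp u) (g u) = 0) :
    DifferentiableOn ℂ g {u : ℂ | u.re < Real.log δ} := by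
  intro u0 hu0
  have hu0' : u0.re < Real.log δ := hu0
  have hnh := (isOpen_hp δ).mem_nhds hu0
  have hgc : ContinuousAt g u0 := hg.continuousAt hnh
  have hm := exp_mem hδ u0 hu0'
  have hak : ∀ k, DifferentiableAt ℂ (fun u => a k (Complex.exp u)) u0 := by
    intro k
    have h1 : DifferentiableAt ℂ (a k) (Complex.exp u0) :=
      (H.hol k).differentiableAt (Metric.isOpen_ball.mem_nhds (by simpa using hm.2))
    exact h1.comp u0 Complex.differentiable_exp.differentiableAt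
  have hφ : DifferentiableAt ℂ (fun u => Pv n a (Complex.exp u) (g u0)) u0 := by
    unfold Pv
    exact DifferentiableAt.fun_sum fun k _ => (hak k).mul_const _
  have hc : ContinuousAt (fun u => Pq n a (Complex.exp u) (g u) (g u0)) u0 := by
    unfold Pq
    refine tendsto_finsetSum _ fun k _ => ?_
    refine Tendsto.mul (hak k).continuousAt (tendsto_finsetSum _ fun i _ => ?_)
    exact (hgc.tendsto.pow i).mul tendsto_const_nhds
  have hc0 : Pq n a (Complex.exp u0) (g u0) (g u0) ≠ 0 := by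
    rw [pq_self]
    exact H.simp _ _ hm.1 hm.2 (hr u0 hu0')
  have h1 := mul_deriv hφ.hasDerivAt (hr u0 hu0') (hc.inv₀ hc0)
  have h2 : g =ᶠ[𝓝 u0] fun u => g u0 - Pv n a (Complex.exp u) (g u0) * (Pq n a (Complex.exp u) (g u) (g u0))⁻¹ := by
    filter_upwards [hnh, hc.eventually_ne hc0] with u hu hne
    have h3 := pq_mul n a (Complex.exp u) (g u) (g u0)
    rw [hr u hu, zero_sub] at h3
    have h4 : g u - g u0 = - Pv n a (Complex.exp u) (g u0) * (Pq n a (Complex.exp u) (g u) (g u0))⁻¹ := by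
      rw [← h3]
      field_simp
    linear_combination h4
  have h5 : DifferentiableAt ℂ (fun u => g u0 - Pv n a (Complex.exp u) (g u0) *
      (Pq n a (Complex.exp u) (g u) (g u0))⁻¹) u0 := (differentiableAt_const _).sub h1.differentiableAt
  exact (h5.congr_of_eventuallyEq h2).differentiableWithinAt

/-- the root after `t = τ ^ e` -/
theorem Hyp.mono (H : Hyp n a δ) (hδ : 0 < δ) : ∃ e : ℕ, 0 < e ∧ ∃ θ : ℂ → ℂ,
    DifferentiableOn ℂ θ {τ : ℂ | 0 < ‖τ‖ ∧ ‖τ‖ ^ e < δ} ∧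
    ∀ τ : ℂ, 0 < ‖τ‖ → ‖τ‖ ^ e < δ → Pv n a (τ ^ e) (θ τ) = 0 := by
  obtain ⟨g, hgc, hgr, e, he, hper⟩ := H.lift hδ
  have hgd := H.diff hδ hgc hgr
  have he0 : (e : ℂ) ≠ 0 := by exact_mod_cast he.ne'
  -- integer periods
  have hperN : ∀ (j : ℕ) (u : ℂ), u.re < Real.log δ → g (u + 2 * Real.pi * Complex.I * e * j) = g u := by
    intro j
    induction j with
    | zero => intro u _; simp
    | succ j ih =>
      intro u hu
      have h1 : u + 2 * Real.pi * Complex.I * e * ((j + 1 : ℕ) : ℂ) =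
          (u + 2 * Real.pi * Complex.I * e * j) + 2 * Real.pi * Complex.I * e := by push_cast; ring
      rw [h1, hper _ (by
        have : (u + 2 * Real.pi * Complex.I * e * j).re = u.re := by simp
        rwa [this]), ih u hu]
  have hperZ : ∀ (j : ℤ) (u : ℂ), u.re < Real.log δ → g (u + 2 * Real.pi * Complex.I * e * j) = g u := by
    intro j u hu
    obtain ⟨m, rfl | rfl⟩ := j.eq_nat_or_neg
    · simpa using hperN m u hu
    · have h1 : (u + 2 * Real.pi * Complex.I * e * ((-(m : ℤ) : ℤ) : ℂ)).re < Real.log δ := by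
        have : (u + 2 * Real.pi * Complex.I * e * ((-(m : ℤ) : ℤ) : ℂ)).re = u.re := by simp
        rwa [this]
      have h2 := hperN m _ h1
      rw [← h2]
      congr 1
      push_cast
      ring
  have hre : ∀ τ : ℂ, 0 < ‖τ‖ → ‖τ‖ ^ e < δ → ∀ z : ℂ, Complex.exp z = τ → ((e : ℂ) * z).re < Real.log δ := by
    intro τ h1 h2 z hz
    rw [Real.lt_log_iff_exp_lt hδ]
    have : ((e : ℂ) * z).re = e * z.re := by simp
    rw [this, Real.exp_nat_mul, ← Complex.norm_exp, hz]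
    exact h2
  refine ⟨e, he, fun τ => g (e * Complex.log τ), ?_, ?_⟩
  · rintro τ0 ⟨h1, h2⟩
    have hτ0 : τ0 ≠ 0 := norm_pos_iff.1 h1
    have hopen : IsOpen {τ : ℂ | 0 < ‖τ‖ ∧ ‖τ‖ ^ e < δ} :=
      (isOpen_lt continuous_const continuous_norm).inter (isOpen_lt (continuous_norm.pow e) continuous_const)
    -- the local logarithm
    have hl1 : DifferentiableAt ℂ (fun τ : ℂ => Complex.log (τ / τ0) + Complex.log τ0) τ0 := by
      refine DifferentiableAt.add_const _ (DifferentiableAt.clog (by fun_prop) ?_)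
      rw [div_self hτ0]
      simp
    have hl2 : ∀ τ : ℂ, τ ≠ 0 → Complex.exp (Complex.log (τ / τ0) + Complex.log τ0) = τ := by
      intro τ hτ
      rw [Complex.exp_add, Complex.exp_log (div_ne_zero hτ hτ0), Complex.exp_log hτ0]
      field_simp
    have hmem : (e : ℂ) * (Complex.log (τ0 / τ0) + Complex.log τ0) ∈ {u : ℂ | u.re < Real.log δ} :=
      hre τ0 h1 h2 _ (hl2 τ0 hτ0)
    have hd : DifferentiableAt ℂ (fun τ : ℂ => g (e * (Complex.log (τ / τ0) + Complex.log τ0))) τ0 := by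
      have h3 : DifferentiableAt ℂ g (e * (Complex.log (τ0 / τ0) + Complex.log τ0)) :=
        hgd.differentiableAt ((isOpen_hp δ).mem_nhds hmem)
      exact DifferentiableAt.comp (𝕜 := ℂ) τ0 h3 (hl1.const_mul _)
    refine (hd.congr_of_eventuallyEq ?_).differentiableWithinAt
    filter_upwards [hopen.mem_nhds ⟨h1, h2⟩] with τ hτ
    have hτn : τ ≠ 0 := norm_pos_iff.1 hτ.1
    have h4 : Complex.exp (Complex.log τ) = Complex.exp (Complex.log (τ / τ0) + Complex.log τ0) := by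
      rw [hl2 τ hτn, Complex.exp_log hτn]
    obtain ⟨j, hj⟩ := Complex.exp_eq_exp_iff_exists_int.1 h4
    rw [hj]
    have h5 : (e : ℂ) * (Complex.log (τ / τ0) + Complex.log τ0 + j * (2 * Real.pi * Complex.I)) =
        (e : ℂ) * (Complex.log (τ / τ0) + Complex.log τ0) + 2 * Real.pi * Complex.I * e * j := by ring
    rw [h5]
    exact hperZ j _ (hre τ hτ.1 hτ.2 _ (hl2 τ hτn))
  · intro τ h1 h2
    have hτ : τ ≠ 0 := norm_pos_iff.1 h1
    have h3 := hgr _ (hre τ h1 h2 _ (Complex.exp_log hτ))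
    have h4 : Complex.exp ((e : ℂ) * Complex.log τ) = τ ^ e := by
      rw [Complex.exp_nat_mul, Complex.exp_log hτ]
    rwa [h4] at h3

/-- the root is meromorphic at `0` -/
theorem Hyp.mono0 (H : Hyp n a δ) (hδ : 0 < δ) : ∃ e m : ℕ, 0 < e ∧ ∃ θ : ℂ → ℂ,
    DifferentiableOn ℂ θ {τ : ℂ | ‖τ‖ ^ e < δ} ∧
    ∀ τ : ℂ, τ ≠ 0 → ‖τ‖ ^ e < δ → Pv n a (τ ^ e) (θ τ / τ ^ m) = 0 := by
  obtain ⟨e, he, θ, hd, hr⟩ := H.mono hδ
  have hball : Metric.ball (0 : ℂ) δ ∈ 𝓝 (0 : ℂ) := Metric.ball_mem_nhds 0 hδ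
  have hn0 : ¬ ∀ᶠ z in 𝓝 (0 : ℂ), a n z = 0 := by
    intro h
    have h1 : ∀ᶠ z in 𝓝[≠] (0 : ℂ), a n z = 0 := h.filter_mono nhdsWithin_le_nhds
    have h2 : ∀ᶠ z in 𝓝[≠] (0 : ℂ), z ∈ Metric.ball (0 : ℂ) δ := mem_nhdsWithin_of_mem_nhds hball
    obtain ⟨z, ⟨h3, h4⟩, h5⟩ := ((h1.and h2).and self_mem_nhdsWithin).exists
    exact H.lead z (norm_pos_iff.2 h5) (by simpa using h4) h3
  have han : AnalyticAt ℂ (a n) 0 := (H.hol n).analyticAt hball
  obtain ⟨j, h, hh, hh0, hev⟩ := han.exists_eventuallyEq_pow_smul_nonzero_iff.2 hn0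
  -- bounds near zero
  have hM : ∃ M : ℝ, 0 ≤ M ∧ ∀ᶠ t in 𝓝 (0 : ℂ), t ≠ 0 → Bd n a t ≤ M * (‖t‖ ^ j)⁻¹ := by
    have h1 : ContinuousAt (fun t : ℂ => ∑ k ∈ range n, ‖a k t‖) 0 := by
      refine tendsto_finsetSum _ fun k _ => ?_
      exact ((H.hol k).continuousOn.continuousAt hball).norm
    have h2 : ∀ᶠ t in 𝓝 (0 : ℂ), (∑ k ∈ range n, ‖a k t‖) < (∑ k ∈ range n, ‖a k 0‖) + 1 :=
      h1.eventually_lt_const (by linarith)
    have h3 : ∀ᶠ t in 𝓝 (0 : ℂ), ‖h 0‖ / 2 < ‖h t‖ :=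
      hh.continuousAt.norm.eventually_const_lt (by have := norm_pos_iff.2 hh0; linarith)
    have h0 : 0 ≤ ∑ k ∈ range n, ‖a k 0‖ := sum_nonneg fun _ _ => norm_nonneg _
    have hpos := norm_pos_iff.2 hh0
    refine ⟨((∑ k ∈ range n, ‖a k 0‖) + 1) / (‖h 0‖ / 2), by positivity, ?_⟩
    filter_upwards [h2, h3, hev] with t h4 h5 h6 ht
    have ht' : 0 < ‖t‖ := norm_pos_iff.2 ht
    unfold Bd
    rw [h6, sub_zero, smul_eq_mul, norm_mul, norm_pow]
    have h7 : 0 ≤ ∑ k ∈ range n, ‖a k t‖ := sum_nonneg fun _ _ => norm_nonneg _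
    have h8 : 0 < ‖h 0‖ / 2 := by linarith
    have h9 : (∑ k ∈ range n, ‖a k t‖) / (‖t‖ ^ j * ‖h t‖) ≤ ((∑ k ∈ range n, ‖a k 0‖) + 1) / (‖t‖ ^ j * (‖h 0‖ / 2)) := by
      refine div_le_div₀ (by linarith) h4.le (by positivity) ?_
      exact mul_le_mul_of_nonneg_left h5.le (by positivity)
    refine h9.trans (le_of_eq ?_)
    field_simp
  obtain ⟨M, hM0, hMev⟩ := hM
  refine ⟨e, e * j + 1, he, fun τ => τ ^ (e * j + 1) * θ τ, ?_, ?_⟩
  · have hs : {τ : ℂ | ‖τ‖ ^ e < δ} ∈ 𝓝 (0 : ℂ) := by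
      refine (isOpen_lt (continuous_norm.pow e) continuous_const).mem_nhds ?_
      show ‖(0 : ℂ)‖ ^ e < δ
      rw [norm_zero, zero_pow he.ne']
      exact hδ
    refine (Complex.differentiableOn_compl_singleton_and_continuousAt_iff hs).1 ⟨?_, ?_⟩
    · refine DifferentiableOn.mul (differentiable_pow _).differentiableOn (hd.mono ?_)
      rintro τ ⟨h1, h2⟩
      exact ⟨norm_pos_iff.2 h2, h1⟩
    · have h0 : (0 : ℂ) ^ (e * j + 1) * θ 0 = 0 := by rw [zero_pow (Nat.succ_ne_zero _), zero_mul]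
      show Tendsto _ _ (𝓝 ((0 : ℂ) ^ (e * j + 1) * θ 0))
      rw [h0]
      have hpow : Tendsto (fun τ : ℂ => τ ^ e) (𝓝 0) (𝓝 0) := by
        have := (continuous_pow e (M := ℂ)).tendsto 0
        rwa [zero_pow he.ne'] at this
      have h1 := hpow.eventually hMev
      refine squeeze_zero_norm' (a := fun τ : ℂ => ‖τ‖ ^ (e * j + 1) + M * ‖τ‖) ?_ ?_
      · filter_upwards [h1, hs] with τ h2 h3
        by_cases hτ : τ = 0
        · rw [hτ, h0, norm_zero]
          positivity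
        · have h4 := root_le H.pos a (τ ^ e) (θ τ) (H.lead _ (norm_pos_iff.2 (pow_ne_zero e hτ)) (by
            rw [norm_pow]
            exact h3)) (hr τ (norm_pos_iff.2 hτ) h3)
          have h5 := h2 (pow_ne_zero e hτ)
          have hτ' : 0 < ‖τ‖ := norm_pos_iff.2 hτ
          rw [norm_mul, norm_pow]
          calc ‖τ‖ ^ (e * j + 1) * ‖θ τ‖ ≤ ‖τ‖ ^ (e * j + 1) * (1 + M * (‖τ ^ e‖ ^ j)⁻¹) :=
                mul_le_mul_of_nonneg_left (h4.trans (by linarith)) (by positivity)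
            _ = ‖τ‖ ^ (e * j + 1) + M * ‖τ‖ := by
                rw [norm_pow, ← pow_mul, pow_succ]
                field_simp
      · have h2 : Tendsto (fun τ : ℂ => ‖τ‖ ^ (e * j + 1) + M * ‖τ‖) (𝓝 0)
            (𝓝 (‖(0 : ℂ)‖ ^ (e * j + 1) + M * ‖(0 : ℂ)‖)) :=
          ((continuous_norm.pow _).add (continuous_const.mul continuous_norm)).tendsto 0
        rwa [norm_zero, zero_pow (Nat.succ_ne_zero _), mul_zero, add_zero] at h2
  · intro τ hτ h1
    have h2 : τ ^ (e * j + 1) * θ τ / τ ^ (e * j + 1) = θ τ := by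
      field_simp
    simp only
    rw [h2]
    exact hr τ (norm_pos_iff.2 hτ) h1

end

end Pool.Agent.VFMono
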