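import Pool.Agent.Lib_MP_1858fb_w.ObsR
import Mathlib.RingTheory.MvPolynomial.Basic
import Mathlib.RingTheory.Noetherian.Basic
import Mathlib.RingTheory.Localization.FractionRing
import Mathlib.RingTheory.Localization.Integer
import Mathlib.RingTheory.Polynomial.Basic
import Mathlib.LinearAlgebra.Basis.VectorSpace

/-!
# The obstruction lemma over a domain, with one denominator

`O` is a domain over the field `k`, contained in an algebraically closed field `K`.  If the
obstruction lemma holds for the curve `R` over `K`, then there is a nonzero `c ∈ O` such that every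
obstruction with values in `c O[X]` is `E ↦ ∑ (∂E/∂X_i)(R) δ_i` with `δ` over `O`.
-/

set_option autoImplicit false
set_option linter.unusedSectionVars false

namespace Pool.Agent.VF.ObsR

open Polynomial

/-- A linear system over `O`: one denominator for all right hand sides for which it is solvable over
an extension field. -/
theorem solve_den {O K α β : Type*} [CommRing O] [IsDomain O] [Field K] [Algebra O K]
    [FaithfulSMul O K] [Fintype α] [Fintype β] (t : β → α → O) :
    ∃ c : O, c ≠ 0 ∧ ∀ b : β → O, (∀ i, c ∣ b i) →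
      (∃ x : α → K, ∀ i, ∑ j, algebraMap O K (t i j) * x j = algebraMap O K (b i)) →
      ∃ x : α → O, ∀ i, ∑ j, t i j * x j = b i := by
  classical
  let L := FractionRing O
  let _ : Algebra L K := FractionRing.liftAlgebra O K
  have _ : IsScalarTower O L K := inferInstance
  -- descent from `K` to `L`
  obtain ⟨π, hπ⟩ := LinearMap.exists_leftInverse_of_injective (Algebra.linearMap L K)
    (LinearMap.ker_eq_bot.mpr (algebraMap L K).injective)
  have hπ' : ∀ l : L, π (algebraMap L K l) = l := fun l => LinearMap.congr_fun hπ l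
  -- a generalised inverse over `L`
  let φ : (α → L) →ₗ[L] (β → L) :=
    LinearMap.pi fun i => ∑ j, (algebraMap O L (t i j)) • LinearMap.proj j
  have hφ : ∀ x i, φ x i = ∑ j, algebraMap O L (t i j) * x j := by
    intro x i
    simp only [φ, LinearMap.pi_apply, LinearMap.sum_apply, LinearMap.smul_apply,
      LinearMap.proj_apply, smul_eq_mul]
  obtain ⟨g, hg⟩ := LinearMap.exists_rightInverse_of_surjective φ.rangeRestrict
    (LinearMap.range_rangeRestrict φ)
  obtain ⟨ψ, hψ⟩ := LinearMap.exists_extend g
  have hψφ : ∀ b ∈ LinearMap.range φ, φ (ψ b) = b := by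
    intro b hb
    have h1 : ψ b = g ⟨b, hb⟩ := LinearMap.congr_fun hψ ⟨b, hb⟩
    rw [h1]
    have h2 := congrArg Subtype.val (LinearMap.congr_fun hg ⟨b, hb⟩)
    exact h2
  -- the denominator
  obtain ⟨c, hc⟩ := IsLocalization.exist_integer_multiples_of_finite (nonZeroDivisors O)
    (fun p : β × α => ψ (Pi.single p.1 1) p.2)
  refine ⟨c, nonZeroDivisors.coe_ne_zero c, fun b hb hx => ?_⟩
  obtain ⟨x, hx⟩ := hx
  -- solvable over `L`
  have hbL : (fun i => algebraMap O L (b i)) ∈ LinearMap.range φ := by
    refine ⟨fun j => π (x j), ?_⟩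
    ext i
    rw [hφ, ← hπ' (algebraMap O L (b i)), ← IsScalarTower.algebraMap_apply O L K, ← hx i, map_sum]
    refine Finset.sum_congr rfl fun j _ => ?_
    rw [IsScalarTower.algebraMap_apply O L K (t i j), ← Algebra.smul_def (R := L), map_smul,
      smul_eq_mul]
  choose b' hb' using hb
  choose y hy using hc
  have hint : ∀ j, ψ (fun i => algebraMap O L (b i)) j =
      algebraMap O L (∑ i, b' i * y (i, j)) := by
    intro j
    have h1 : (fun i => algebraMap O L (b i)) =
        ∑ i, algebraMap O L (b i) • (Pi.single i (1 : L) : β → L) := by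
      ext l
      rw [Finset.sum_apply]
      simp [Pi.single_apply]
    rw [h1, map_sum, Finset.sum_apply, map_sum]
    refine Finset.sum_congr rfl fun i _ => ?_
    rw [map_smul, Pi.smul_apply, map_mul, hy (i, j), hb' i, map_mul, smul_eq_mul,
      Algebra.smul_def]
    ring
  refine ⟨fun j => ∑ i, b' i * y (i, j), fun i => ?_⟩
  apply IsFractionRing.injective O L
  have h3 := congrFun (hψφ _ hbL) i
  rw [hφ] at h3
  rw [map_sum, ← h3]
  exact Finset.sum_congr rfl fun j _ => by rw [map_mul, hint]

section

variable {k O K ι w : Type*} [Field k] [CommRing O] [IsDomain O] [Algebra k O] [Field K]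
  [Algebra k K] [Algebra O K] [IsScalarTower k O K] [Fintype ι]

lemma aeval_map (R : ι → O[X]) (E : MvPolynomial ι k) :
    MvPolynomial.aeval (fun i => (R i).map (algebraMap O K)) E =
      (MvPolynomial.aeval R E).map (algebraMap O K) := by
  induction E using MvPolynomial.induction_on with
  | C a =>
    rw [MvPolynomial.aeval_C, MvPolynomial.aeval_C, Polynomial.algebraMap_apply,
      Polynomial.algebraMap_apply, map_C, ← IsScalarTower.algebraMap_apply]
  | add p q hp hq => rw [map_add, map_add, hp, hq, Polynomial.map_add]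
  | mul_X p i hp =>
    rw [map_mul, map_mul, hp, MvPolynomial.aeval_X, MvPolynomial.aeval_X, Polynomial.map_mul]

lemma dif_map (R : ι → O[X]) (E : MvPolynomial ι k) (i : ι) :
    dif (fun i => (R i).map (algebraMap O K)) E i = (dif R E i).map (algebraMap O K) :=
  aeval_map R _

/-- the degree of an obstruction -/
lemma natDegree_der_le {R : ι → O[X]} {I : Ideal (MvPolynomial ι k)}
    (hI : ∀ E ∈ I, ∀ e, MvPolynomial.homogeneousComponent e E ∈ I) {d : ℕ}
    {o : MvPolynomial ι k → O[X]} (ho : IsDer R I o)
    (hod : ∀ E ∈ I, ∀ e, E.IsHomogeneous e → (o E).natDegree ≤ d * e)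
    {E : MvPolynomial ι k} (hE : E ∈ I) : (o E).natDegree ≤ d * E.totalDegree := by
  have h1 : o E = ∑ e ∈ Finset.range (E.totalDegree + 1),
      o (MvPolynomial.homogeneousComponent e E) := by
    have h2 : ∀ s : Finset ℕ, o (∑ e ∈ s, MvPolynomial.homogeneousComponent e E) =
        ∑ e ∈ s, o (MvPolynomial.homogeneousComponent e E) := by
      intro s
      classical
      induction s using Finset.induction_on with
      | empty => simp [ho.zero]
      | insert e s he ih =>
        rw [Finset.sum_insert he, Finset.sum_insert he, ho.add _ (hI E hE e) _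
          (I.sum_mem fun l _ => hI E hE l), ih]
    rw [← h2, MvPolynomial.sum_homogeneousComponent]
  rw [h1]
  refine natDegree_sum_le_of_forall_le _ _ fun e he => ?_
  refine (hod _ (hI E hE e) e (MvPolynomial.homogeneousComponent_isHomogeneous e E)).trans ?_
  exact Nat.mul_le_mul_left _ (Nat.lt_succ_iff.mp (Finset.mem_range.mp he))

/-- The polynomial with given coefficients. -/
lemma coeff_mul_sum {A : Type*} [CommRing A] (p : A[X]) {d : ℕ} (x : Fin (d + 1) → A) (n : ℕ) :
    (p * ∑ a : Fin (d + 1), C (x a) * X ^ (a : ℕ)).coeff n =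
      ∑ a : Fin (d + 1), (p * X ^ (a : ℕ)).coeff n * x a := by
  rw [Finset.mul_sum, finsetSum_coeff]
  refine Finset.sum_congr rfl fun a _ => ?_
  rw [mul_left_comm, coeff_C_mul, mul_comm]

lemma eq_sum_fin {A : Type*} [CommRing A] {p : A[X]} {d : ℕ} (hp : p.natDegree ≤ d) :
    p = ∑ a : Fin (d + 1), C (p.coeff a) * X ^ (a : ℕ) := by
  conv_lhs => rw [p.as_sum_range' (d + 1) (Nat.lt_succ_of_le hp)]
  rw [Finset.sum_range]
  exact Finset.sum_congr rfl fun a _ => by rw [← C_mul_X_pow_eq_monomial]

/-- **The obstruction lemma over a domain, with one denominator**, with marks. -/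
theorem obs_int [FaithfulSMul O K] [Fintype w] (I : Ideal (MvPolynomial ι k))
    (hI : ∀ E ∈ I, ∀ e, MvPolynomial.homogeneousComponent e E ∈ I)
    (R : ι → O[X]) (c : w → O) (d : ℕ)
    (hR : ∀ E ∈ I, MvPolynomial.aeval R E = 0)
    (hK : ∀ o : MvPolynomial ι k → K[X], IsDer (fun i => (R i).map (algebraMap O K)) I o →
      (∀ E ∈ I, ∀ m, (o E).eval (algebraMap O K (c m)) = 0) →
      (∀ E ∈ I, ∀ e, E.IsHomogeneous e → (o E).natDegree ≤ d * e) →
      ∃ δ : ι → K[X], (∀ m, ∃ ρ : K, ∀ i, (δ i).eval (algebraMap O K (c m)) =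
          ρ * algebraMap O K ((R i).eval (c m))) ∧ (∀ i, (δ i).natDegree ≤ d) ∧
        ∀ E ∈ I, ∑ i, dif (fun i => (R i).map (algebraMap O K)) E i * δ i = o E) :
    ∃ q : O, q ≠ 0 ∧ ∀ o : MvPolynomial ι k → O[X], IsDer R I o →
      (∀ E ∈ I, ∀ m, (o E).eval (c m) = 0) →
      (∀ E ∈ I, ∀ e, E.IsHomogeneous e → (o E).natDegree ≤ d * e) →
      (∀ E ∈ I, C q ∣ o E) →
      ∃ δ : ι → O[X], (∀ m, ∃ ρ : O, ∀ i, (δ i).eval (c m) = ρ * (R i).eval (c m)) ∧
        (∀ i, (δ i).natDegree ≤ d) ∧ ∀ E ∈ I, ∑ i, dif R E i * δ i = o E := by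
  classical
  obtain ⟨S, hS⟩ := (inferInstance : IsNoetherian (MvPolynomial ι k) (MvPolynomial ι k)).noetherian I
  have hSI : ∀ E : S, (E : MvPolynomial ι k) ∈ I := fun E => hS ▸ Ideal.subset_span E.2
  -- a bound for all degrees
  set B : ℕ := ∑ E : S, (d * (E : MvPolynomial ι k).totalDegree +
    ∑ j, ((dif R (E : MvPolynomial ι k) j).natDegree)) + d + 1 with hB
  have hB1 : ∀ E : S, d * (E : MvPolynomial ι k).totalDegree < B := by
    intro E
    have h1 := Finset.single_le_sum (f := fun E : S => (d * (E : MvPolynomial ι k).totalDegree +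
      ∑ j, ((dif R (E : MvPolynomial ι k) j).natDegree))) (fun _ _ => Nat.zero_le _)
      (Finset.mem_univ E)
    have h2 : d * (E : MvPolynomial ι k).totalDegree +
      ∑ j, ((dif R (E : MvPolynomial ι k) j).natDegree) ≤ _ := h1
    omega
  have hB2 : ∀ (E : S) (j : ι), (dif R (E : MvPolynomial ι k) j).natDegree + d < B := by
    intro E j
    have h1 := Finset.single_le_sum (f := fun E : S => (d * (E : MvPolynomial ι k).totalDegree +
      ∑ j, ((dif R (E : MvPolynomial ι k) j).natDegree))) (fun _ _ => Nat.zero_le _)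
      (Finset.mem_univ E)
    have h2 : d * (E : MvPolynomial ι k).totalDegree +
      ∑ j, ((dif R (E : MvPolynomial ι k) j).natDegree) ≤ _ := h1
    have h3 := Finset.single_le_sum (f := fun j => (dif R (E : MvPolynomial ι k) j).natDegree)
      (fun _ _ => Nat.zero_le _) (Finset.mem_univ j)
    have h4 : (dif R (E : MvPolynomial ι k) j).natDegree ≤ _ := h3
    omega
  -- the matrix
  set t : (S × Fin B) ⊕ (w × ι) → (ι × Fin (d + 1)) ⊕ w → O := fun β α =>
    match β, α with
    | Sum.inl (E, n), Sum.inl (j, a) =>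
        (dif R (E : MvPolynomial ι k) j * X ^ (a : ℕ)).coeff (n : ℕ)
    | Sum.inl _, Sum.inr _ => 0
    | Sum.inr (m, i), Sum.inl (j, a) => if j = i then c m ^ (a : ℕ) else 0
    | Sum.inr (m, i), Sum.inr m' => if m' = m then - (R i).eval (c m) else 0 with ht
  obtain ⟨q, hq, hsol⟩ := solve_den (K := K) t
  refine ⟨q, hq, fun o ho hoc hod hoq => ?_⟩
  set b : (S × Fin B) ⊕ (w × ι) → O := fun β =>
    match β with
    | Sum.inl (E, n) => (o E).coeff (n : ℕ)
    | Sum.inr _ => 0 with hb
  have hqb : ∀ β, q ∣ b β := by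
    rintro (⟨E, n⟩ | _)
    · exact (C_dvd_iff_dvd_coeff _ _).mp (hoq E (hSI E)) n
    · exact dvd_zero _
  -- solvable over `K`
  obtain ⟨δK, hδm, hδd, hδ⟩ := hK (fun E => (o E).map (algebraMap O K))
    ⟨fun E hE E' hE' => by rw [ho.add E hE E' hE', Polynomial.map_add],
      fun G E hE => by rw [ho.mul G E hE, Polynomial.map_mul, aeval_map]⟩
    (fun E hE m => by
      rw [eval_map_algebraMap, aeval_algebraMap_apply, coe_aeval_eq_eval, hoc E hE m, map_zero])
    (fun E hE e he => natDegree_map_le.trans (hod E hE e he))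
  choose ρ hρ using hδm
  have hxK : ∃ x : (ι × Fin (d + 1)) ⊕ w → K, ∀ β, ∑ α, algebraMap O K (t β α) * x α =
      algebraMap O K (b β) := by
    refine ⟨fun α => match α with
      | Sum.inl (j, a) => (δK j).coeff a
      | Sum.inr m => ρ m, ?_⟩
    rintro (⟨E, n⟩ | ⟨m, i⟩)
    · rw [Fintype.sum_sum_type, Fintype.sum_prod_type]
      simp only [ht, hb, map_zero, zero_mul, Finset.sum_const_zero, add_zero]
      have h1 := congrArg (fun p => coeff p (n : ℕ)) (hδ E (hSI E))
      simp only [coeff_map] at h1
      rw [← h1, finsetSum_coeff]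
      refine Finset.sum_congr rfl fun j _ => ?_
      rw [dif_map]
      conv_rhs => rw [eq_sum_fin (hδd j), coeff_mul_sum]
      refine Finset.sum_congr rfl fun a _ => ?_
      rw [← coeff_map, Polynomial.map_mul, Polynomial.map_pow, map_X]
    · rw [Fintype.sum_sum_type, Fintype.sum_prod_type]
      simp only [ht, hb, map_zero]
      rw [Finset.sum_eq_single i, Finset.sum_eq_single m]
      · have h1 := hρ m i
        rw [eq_sum_fin (hδd i), eval_finsetSum] at h1
        simp only [if_true, map_neg, map_pow]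
        have h2 : ∑ a : Fin (d + 1), algebraMap O K (c m) ^ (a : ℕ) * (δK i).coeff a =
            ∑ a : Fin (d + 1), eval (algebraMap O K (c m)) (C ((δK i).coeff a) * X ^ (a : ℕ)) := by
          refine Finset.sum_congr rfl fun a _ => ?_
          rw [eval_mul, eval_C, eval_pow, eval_X, mul_comm]
        rw [h2, h1]
        ring
      · intro m' _ hm'
        rw [if_neg hm', map_zero, zero_mul]
      · intro h
        exact absurd (Finset.mem_univ _) h
      · intro j _ hj
        exact Finset.sum_eq_zero fun a _ => by rw [if_neg hj, map_zero, zero_mul]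
      · intro h
        exact absurd (Finset.mem_univ _) h
  obtain ⟨x, hx⟩ := hsol b hqb hxK
  set δ : ι → O[X] := fun j => ∑ a : Fin (d + 1), C (x (Sum.inl (j, a))) * X ^ (a : ℕ) with hδdef
  have hδdeg : ∀ j, (δ j).natDegree ≤ d := by
    intro j
    refine natDegree_sum_le_of_forall_le _ _ fun a _ => ?_
    exact (natDegree_C_mul_X_pow_le _ _).trans (Nat.lt_succ_iff.mp a.2)
  have hgen : ∀ E : S, ∑ i, dif R (E : MvPolynomial ι k) i * δ i = o E := by
    intro E
    ext n
    by_cases hn : n < B
    · have h1 := hx (Sum.inl (E, ⟨n, hn⟩))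
      rw [Fintype.sum_sum_type, Fintype.sum_prod_type] at h1
      simp only [ht, hb, zero_mul, Finset.sum_const_zero, add_zero] at h1
      rw [finsetSum_coeff, ← h1]
      refine Finset.sum_congr rfl fun j _ => ?_
      rw [hδdef]
      exact coeff_mul_sum _ _ _
    · rw [finsetSum_coeff, coeff_eq_zero_of_natDegree_lt (lt_of_le_of_lt
        (natDegree_der_le hI ho hod (hSI E)) (by have := hB1 E; omega))]
      refine Finset.sum_eq_zero fun j _ => coeff_eq_zero_of_natDegree_lt ?_
      refine lt_of_le_of_lt natDegree_mul_le ?_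
      have := hB2 E j
      have := hδdeg j
      omega
  refine ⟨δ, fun m => ⟨x (Sum.inr m), fun i => ?_⟩, hδdeg, fun E hE => ?_⟩
  · have h1 := hx (Sum.inr (m, i))
    rw [Fintype.sum_sum_type, Fintype.sum_prod_type] at h1
    simp only [ht, hb] at h1
    rw [Finset.sum_eq_single i, Finset.sum_eq_single m] at h1
    · simp only [if_true] at h1
      have h2 : (δ i).eval (c m) = ∑ a : Fin (d + 1), c m ^ (a : ℕ) * x (Sum.inl (i, a)) := by
        rw [hδdef, eval_finsetSum]
        refine Finset.sum_congr rfl fun a _ => ?_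
        rw [eval_mul, eval_C, eval_pow, eval_X, mul_comm]
      rw [h2]
      linear_combination h1
    · intro m' _ hm'
      rw [if_neg hm', zero_mul]
    · intro h
      exact absurd (Finset.mem_univ _) h
    · intro j _ hj
      exact Finset.sum_eq_zero fun a _ => by rw [if_neg hj, zero_mul]
    · intro h
      exact absurd (Finset.mem_univ _) h
  · have hE' : E ∈ Ideal.span (Set.range (fun E : S => (E : MvPolynomial ι k))) := by
      rw [Subtype.range_coe_subtype]
      have : {x | x ∈ S} = (S : Set (MvPolynomial ι k)) := rfl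
      rw [this]
      have h1 : E ∈ Submodule.span (MvPolynomial ι k) (S : Set (MvPolynomial ι k)) := by
        rw [hS]
        exact hE
      exact h1
    obtain ⟨G, hG⟩ := (Ideal.mem_span_range_iff_exists_fun).mp hE'
    rw [← hG, (isDer_dif hR δ).sum hSI G Finset.univ, ho.sum hSI G Finset.univ]
    exact Finset.sum_congr rfl fun E _ => by rw [hgen E]

end

end Pool.Agent.VF.ObsR
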