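import Mathlib.Algebra.MvPolynomial.PDeriv
import Mathlib.RingTheory.MvPolynomial.Homogeneous
import Mathlib.RingTheory.MvPolynomial.EulerIdentity
import Mathlib.LinearAlgebra.Matrix.NonsingularInverse
import Mathlib.Algebra.Polynomial.Roots
import Mathlib.FieldTheory.IsAlgClosed.Basic
import Mathlib.Tactic.LinearCombination

/-!
# The obstruction lemma

`F : ι → K[X]` is a curve of degree at most `d` in the cone of `I`, and `D + deg Π = d`.  An
obstruction `o : I → K[X]` (additive, `o (G E) = G(F) o(E)`, divisible by `Π`, of degree at most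
`d e` on forms of degree `e`) is of the form `E ↦ ∑ (∂E/∂X_i)(F) δ_i` with `δ` divisible by `Π` and
of degree at most `d`, if the sections of degree at most `D` of the tangent bundle of the cone along
`F` span the tangent space at every point and at infinity.
-/

set_option autoImplicit false
set_option linter.unusedSectionVars false

namespace Pool.Agent.VF.ObsR

open Polynomial

variable {k K ι : Type*} [Field k] [Field K] [Algebra k K] [Fintype ι]

section

variable {A : Type*} [CommRing A] [Algebra k A]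

/-- the differential of `E` at the point `F` with coordinates in `A` -/
noncomputable def dif (F : ι → A) (E : MvPolynomial ι k) (i : ι) : A :=
  MvPolynomial.aeval F (MvPolynomial.pderiv i E)

/-- `o` behaves like a differential along `F` on `I`. -/
structure IsDer (F : ι → A) (I : Ideal (MvPolynomial ι k))
    (o : MvPolynomial ι k → A) : Prop where
  add : ∀ E ∈ I, ∀ E' ∈ I, o (E + E') = o E + o E'
  mul : ∀ G, ∀ E ∈ I, o (G * E) = MvPolynomial.aeval F G * o E

variable {F : ι → A} {I : Ideal (MvPolynomial ι k)}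

lemma dif_add (E E' : MvPolynomial ι k) (i : ι) : dif F (E + E') i = dif F E i + dif F E' i := by
  simp [dif]

lemma dif_mul (G E : MvPolynomial ι k) (i : ι) :
    dif F (G * E) i = MvPolynomial.aeval F G * dif F E i + MvPolynomial.aeval F E * dif F G i := by
  simp only [dif, Derivation.leibniz, smul_eq_mul, map_add, map_mul]

lemma isDer_dif (hF : ∀ E ∈ I, MvPolynomial.aeval F E = 0) (δ : ι → A) :
    IsDer F I (fun E => ∑ i, dif F E i * δ i) where
  add E _ E' _ := by
    simp only [dif_add, add_mul, Finset.sum_add_distrib]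
  mul G E hE := by
    simp only [dif_mul, hF E hE, zero_mul, add_zero, Finset.mul_sum, mul_assoc]

lemma IsDer.zero {o : MvPolynomial ι k → A} (ho : IsDer F I o) : o 0 = 0 := by
  have := ho.mul 0 0 I.zero_mem
  simpa using this

lemma IsDer.smul {o : MvPolynomial ι k → A} (ho : IsDer F I o) (u : A) :
    IsDer F I (fun E => u * o E) where
  add E hE E' hE' := by
    simp only [ho.add E hE E' hE', mul_add]
  mul G E hE := by
    simp only [ho.mul G E hE]
    ring

lemma IsDer.sum {o : MvPolynomial ι k → A} (ho : IsDer F I o) {κ : Type*}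
    {E : κ → MvPolynomial ι k} (hE : ∀ j, E j ∈ I) (B : κ → MvPolynomial ι k)
    (s : Finset κ) :
    o (∑ j ∈ s, B j * E j) = ∑ j ∈ s, MvPolynomial.aeval F (B j) * o (E j) := by
  classical
  induction s using Finset.induction_on with
  | empty => simp [ho.zero]
  | insert j s hj ih =>
    rw [Finset.sum_insert hj, Finset.sum_insert hj, ho.add _ (I.mul_mem_left _ (hE j)) _
      (I.sum_mem fun l _ => I.mul_mem_left _ (hE l)), ho.mul _ _ (hE j), ih]

lemma IsDer.ext [IsDomain A] {o o' : MvPolynomial ι k → A} (ho : IsDer F I o)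
    (ho' : IsDer F I o') {r : ℕ}
    {E : Fin r → MvPolynomial ι k} (hE : ∀ j, E j ∈ I) (hag : ∀ j, o (E j) = o' (E j))
    {P G : MvPolynomial ι k} (hP : P ∈ I) (hG : MvPolynomial.aeval F G ≠ 0)
    (hGP : G * P ∈ Ideal.span (Set.range E)) : o P = o' P := by
  obtain ⟨B, hB⟩ := (Ideal.mem_span_range_iff_exists_fun).mp hGP
  apply mul_left_cancel₀ hG
  rw [← ho.mul G P hP, ← ho'.mul G P hP, ← hB, ho.sum hE, ho'.sum hE]
  exact Finset.sum_congr rfl fun j _ => by rw [hag]

end

/-- the sections of degree at most `d` of the tangent bundle of the cone of `I` along `F` -/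
def IsSec (F : ι → K[X]) (I : Ideal (MvPolynomial ι k)) (d : ℕ) (g : ι → K[X]) : Prop :=
  (∀ i, (g i).natDegree ≤ d) ∧ ∀ E ∈ I, ∑ i, dif F E i * g i = 0

/-- `I` is generated near a point of `F` by `r` elements whose differentials are independent there. -/
def LocGen (F : ι → K[X]) (I : Ideal (MvPolynomial ι k)) (r : ℕ) (a : K) : Prop :=
  ∃ E : Fin r → MvPolynomial ι k, (∀ j, E j ∈ I) ∧
    LinearIndependent K (fun j i => (dif F (E j) i).eval a) ∧
    ∀ P ∈ I, ∃ G, MvPolynomial.aeval F G ≠ 0 ∧ G * P ∈ Ideal.span (Set.range E)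

/-- Linear equations with independent rows at a point are solvable with a denominator that does not
vanish at the point. -/
lemma loc_sol {r : ℕ} (A : Fin r → ι → K[X]) (b : Fin r → K[X]) (a : K)
    (h : LinearIndependent K (fun j i => (A j i).eval a)) :
    ∃ u : K[X], u.eval a ≠ 0 ∧ ∃ δ : ι → K[X], ∀ j, ∑ i, A j i * δ i = u * b j := by
  classical
  -- a right inverse at the point
  obtain ⟨g, hg⟩ := LinearMap.exists_leftInverse_of_injective
    (Fintype.linearCombination K (fun j i => (A j i).eval a))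
    (LinearMap.ker_eq_bot.mpr h.fintypeLinearCombination_injective)
  set B : Matrix ι (Fin r) K := fun i j => g (Pi.single i 1) j with hB
  have hAB : ∀ j j', ∑ i, (A j i).eval a * B i j' = if j = j' then 1 else 0 := by
    intro j j'
    have h1 := congrArg (fun f : Fin r → K => f j') (LinearMap.congr_fun hg (Pi.single j 1))
    simp only [LinearMap.comp_apply, LinearMap.id_apply, Fintype.linearCombination_apply] at h1
    have h2 : (∑ x, (Pi.single j (1 : K) : Fin r → K) x • fun i => (A x i).eval a) =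
        ∑ i, (A j i).eval a • (Pi.single i (1 : K) : ι → K) := by
      ext l
      rw [Finset.sum_apply, Finset.sum_apply]
      simp [Pi.single_apply]
    rw [h2, map_sum] at h1
    simp only [map_smul, Finset.sum_apply, Pi.smul_apply, smul_eq_mul, Pi.single_apply] at h1
    rw [show (if j = j' then (1 : K) else 0) = if j' = j then 1 else 0 by
      simp only [eq_comm], ← h1]
  set M : Matrix (Fin r) (Fin r) K[X] := fun j j' => ∑ i, A j i * C (B i j') with hM
  refine ⟨M.det, ?_, fun i => ∑ j', C (B i j') * (M.adjugate.mulVec b) j', ?_⟩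
  · have h1 : (evalRingHom a) M.det = 1 := by
      rw [RingHom.map_det]
      have h2 : (evalRingHom a).mapMatrix M = 1 := by
        ext j j'
        rw [RingHom.mapMatrix_apply, Matrix.map_apply, hM]
        simp only [coe_evalRingHom, eval_finsetSum, eval_mul, eval_C]
        rw [hAB, Matrix.one_apply]
      rw [h2, Matrix.det_one]
    rw [coe_evalRingHom] at h1
    rw [h1]
    exact one_ne_zero
  · intro j
    have h1 : M.mulVec (M.adjugate.mulVec b) j = M.det * b j := by
      rw [Matrix.mulVec_mulVec, Matrix.mul_adjugate, Matrix.smul_mulVec, Matrix.one_mulVec,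
        Pi.smul_apply, smul_eq_mul]
    rw [← h1, Matrix.mulVec, dotProduct]
    simp only [hM, Finset.mul_sum, Finset.sum_mul]
    rw [Finset.sum_comm]
    exact Finset.sum_congr rfl fun j' _ => Finset.sum_congr rfl fun i _ => by ring

section

variable {F : ι → K[X]} {I : Ideal (MvPolynomial ι k)} {d D : ℕ}

/-- Start: a solution with a denominator. -/
lemma obs_start (hF : ∀ E ∈ I, MvPolynomial.aeval F E = 0) {r : ℕ} {a : K}
    (hloc : LocGen F I r a) {o : MvPolynomial ι k → K[X]} (ho : IsDer F I o) :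
    ∃ q : K[X], q ≠ 0 ∧ ∃ δ : ι → K[X], ∀ E ∈ I, ∑ i, dif F E i * δ i = q * o E := by
  obtain ⟨E, hE, hli, hG⟩ := hloc
  obtain ⟨u, hu, δ, hδ⟩ := loc_sol (fun j => dif F (E j)) (fun j => o (E j)) a hli
  refine ⟨u, fun h => hu (by rw [h, eval_zero]), δ, fun P hP => ?_⟩
  obtain ⟨G, hG, hGP⟩ := hG P hP
  exact (isDer_dif hF δ).ext (ho.smul u) hE hδ hP hG hGP

/-- Poles are removed one by one. -/
lemma obs_poles [IsAlgClosed K]
    (hsec : ∀ a : K, ∀ x : ι → K, (∀ E ∈ I, ∑ i, (dif F E i).eval a * x i = 0) →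
      ∃ g, IsSec F I D g ∧ ∀ i, (g i).eval a = x i)
    {o : MvPolynomial ι k → K[X]} (m : ℕ) :
    ∀ q : K[X], q ≠ 0 → q.natDegree ≤ m →
      (∃ δ : ι → K[X], ∀ E ∈ I, ∑ i, dif F E i * δ i = q * o E) →
      ∃ δ : ι → K[X], ∀ E ∈ I, ∑ i, dif F E i * δ i = o E := by
  induction m with
  | zero =>
    rintro q hq hq0 ⟨δ, hδ⟩
    obtain ⟨c, hc⟩ := natDegree_eq_zero.mp (Nat.le_zero.mp hq0)
    have hc0 : c ≠ 0 := by
      rintro rfl
      exact hq (by rw [← hc, map_zero])
    refine ⟨fun i => C c⁻¹ * δ i, fun E hE => ?_⟩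
    have h1 : ∑ i, dif F E i * (C c⁻¹ * δ i) = C c⁻¹ * ∑ i, dif F E i * δ i := by
      rw [Finset.mul_sum]
      exact Finset.sum_congr rfl fun i _ => by ring
    rw [h1, hδ E hE, ← hc, ← mul_assoc, ← C_mul, inv_mul_cancel₀ hc0, C_1, one_mul]
  | succ m ih =>
    rintro q hq hqm ⟨δ, hδ⟩
    by_cases h0 : q.natDegree ≤ m
    · exact ih q hq h0 ⟨δ, hδ⟩
    · obtain ⟨a, ha⟩ := IsAlgClosed.exists_root q (by
        intro hd
        have := natDegree_eq_of_degree_eq_some (show q.degree = ((0 : ℕ) : WithBot ℕ) from hd)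
        omega)
      obtain ⟨q', hq'⟩ := dvd_iff_isRoot.mpr ha
      obtain ⟨g, hg, hga⟩ := hsec a (fun i => (δ i).eval a) (fun E hE => by
        have := congrArg (eval a) (hδ E hE)
        rw [eval_finsetSum, eval_mul, IsRoot.def.mp ha, zero_mul] at this
        simpa only [eval_mul] using this)
      have hdvd : ∀ i, (X - C a) ∣ δ i - g i := by
        intro i
        rw [dvd_iff_isRoot, IsRoot.def, eval_sub, hga i, sub_self]
      choose δ' hδ' using hdvd
      have hq'0 : q' ≠ 0 := by
        rintro rfl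
        exact hq (by rw [hq', mul_zero])
      refine ih q' hq'0 ?_ ⟨δ', fun E hE => ?_⟩
      · have := natDegree_mul (X_sub_C_ne_zero a) hq'0
        rw [← hq', natDegree_X_sub_C] at this
        omega
      · apply mul_left_cancel₀ (X_sub_C_ne_zero a)
        calc (X - C a) * ∑ i, dif F E i * δ' i = ∑ i, dif F E i * δ i - ∑ i, dif F E i * g i := by
              rw [Finset.mul_sum, ← Finset.sum_sub_distrib]
              exact Finset.sum_congr rfl fun i _ => by
                rw [← mul_sub, hδ' i]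
                ring
          _ = (X - C a) * (q' * o E) := by
              rw [hδ E hE, hg.2 E hE, sub_zero, hq']
              ring

/-- The degree of a form along the curve. -/
lemma natDegree_aeval_le (hFd : ∀ i, (F i).natDegree ≤ d) {E : MvPolynomial ι k} {e : ℕ}
    (hE : E.IsHomogeneous e) : (MvPolynomial.aeval F E).natDegree ≤ d * e := by
  rw [MvPolynomial.aeval_def, MvPolynomial.eval₂_eq]
  refine natDegree_sum_le_of_forall_le _ _ fun s hs => ?_
  have hse : s.degree = e := by
    have := hE (MvPolynomial.mem_support_iff.mp hs)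
    rw [Finsupp.degree_eq_weight_one]
    exact this
  rw [Polynomial.algebraMap_apply]
  refine (natDegree_C_mul_le _ _).trans ?_
  refine (natDegree_prod_le _ _).trans ?_
  calc ∑ i ∈ s.support, (F i ^ s i).natDegree ≤ ∑ i ∈ s.support, s i * d := by
        refine Finset.sum_le_sum fun i _ => ?_
        exact (natDegree_pow_le).trans (Nat.mul_le_mul_left _ (hFd i))
    _ = d * e := by
        rw [← Finset.sum_mul, ← hse, Finsupp.degree_apply, mul_comm]

lemma natDegree_dif_le (hFd : ∀ i, (F i).natDegree ≤ d) {E : MvPolynomial ι k} {e : ℕ}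
    (hE : E.IsHomogeneous e) (i : ι) : (dif F E i).natDegree ≤ d * (e - 1) :=
  natDegree_aeval_le hFd hE.pderiv

/-- The degree is lowered step by step. -/
lemma obs_degree (hFd : ∀ i, (F i).natDegree ≤ d)
    (hinf : ∀ x : ι → K, (∀ E ∈ I, ∀ e, E.IsHomogeneous e →
        ∑ i, (dif F E i).coeff (d * (e - 1)) * x i = 0) →
      ∃ g, IsSec F I D g ∧ ∀ i, (g i).coeff D = x i)
    {o : MvPolynomial ι k → K[X]}
    (hod : ∀ E ∈ I, ∀ e, E.IsHomogeneous (e + 1) → (o E).natDegree ≤ d * e + D) (m : ℕ) :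
    ∀ δ : ι → K[X], (∀ i, (δ i).natDegree ≤ D + m) → (∀ E ∈ I, ∑ i, dif F E i * δ i = o E) →
      ∃ δ : ι → K[X], (∀ i, (δ i).natDegree ≤ D) ∧ ∀ E ∈ I, ∑ i, dif F E i * δ i = o E := by
  induction m with
  | zero => exact fun δ h1 h2 => ⟨δ, h1, h2⟩
  | succ m ih =>
    intro δ hδd hδ
    obtain ⟨g, hg, hgc⟩ := hinf (fun i => (δ i).coeff (D + (m + 1))) (fun E hE e he => by
      rcases Nat.eq_zero_or_pos e with rfl | hpos
      · have hz : ∀ i, dif F E i = 0 := by
          intro i
          have h1 := MvPolynomial.totalDegree_eq_zero_iff_eq_C.mp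
            (Nat.le_zero.mp he.totalDegree_le)
          rw [dif, h1, MvPolynomial.pderiv_C, map_zero]
        simp [hz]
      · have h1 : ∑ i, (dif F E i).coeff (d * (e - 1)) * (δ i).coeff (D + (m + 1)) =
            (∑ i, dif F E i * δ i).coeff (d * (e - 1) + (D + (m + 1))) := by
          rw [finsetSum_coeff]
          refine Finset.sum_congr rfl fun i _ => ?_
          rw [coeff_mul_add_eq_of_natDegree_le (natDegree_dif_le hFd he i) (hδd i)]
        rw [h1, hδ E hE]
        apply coeff_eq_zero_of_natDegree_lt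
        obtain ⟨e', rfl⟩ := Nat.exists_eq_succ_of_ne_zero hpos.ne'
        refine lt_of_le_of_lt (hod E hE e' he) ?_
        simp only [Nat.succ_eq_add_one, Nat.add_sub_cancel]
        omega)
    refine ih (fun i => δ i - X ^ (m + 1) * g i) (fun i => ?_) (fun E hE => ?_)
    · rw [natDegree_le_iff_coeff_eq_zero]
      intro n hn
      rw [coeff_sub, coeff_X_pow_mul']
      rcases Nat.lt_or_ge (D + (m + 1)) n with h | h
      · rw [coeff_eq_zero_of_natDegree_lt (lt_of_le_of_lt (hδd i) h), if_pos (by omega),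
          coeff_eq_zero_of_natDegree_lt (lt_of_le_of_lt (hg.1 i) (by omega)), sub_zero]
      · have hn' : n = D + (m + 1) := by omega
        rw [hn', if_pos (by omega), Nat.add_sub_cancel, hgc, sub_self]
    · simp only [mul_sub, Finset.sum_sub_distrib]
      rw [hδ E hE]
      have : ∑ i, dif F E i * (X ^ (m + 1) * g i) = X ^ (m + 1) * ∑ i, dif F E i * g i := by
        rw [Finset.mul_sum]
        exact Finset.sum_congr rfl fun i _ => by ring
      rw [this, hg.2 E hE, mul_zero, sub_zero]

/-- **The obstruction lemma.** -/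
theorem obs [IsAlgClosed K] (hFd : ∀ i, (F i).natDegree ≤ d)
    (hF : ∀ E ∈ I, MvPolynomial.aeval F E = 0) {r : ℕ} {a : K} (hloc : LocGen F I r a)
    (hsec : ∀ a : K, ∀ x : ι → K, (∀ E ∈ I, ∑ i, (dif F E i).eval a * x i = 0) →
      ∃ g, IsSec F I D g ∧ ∀ i, (g i).eval a = x i)
    (hinf : ∀ x : ι → K, (∀ E ∈ I, ∀ e, E.IsHomogeneous e →
        ∑ i, (dif F E i).coeff (d * (e - 1)) * x i = 0) →
      ∃ g, IsSec F I D g ∧ ∀ i, (g i).coeff D = x i)
    {o : MvPolynomial ι k → K[X]} (ho : IsDer F I o)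
    (hod : ∀ E ∈ I, ∀ e, E.IsHomogeneous (e + 1) → (o E).natDegree ≤ d * e + D) :
    ∃ δ : ι → K[X], (∀ i, (δ i).natDegree ≤ D) ∧ ∀ E ∈ I, ∑ i, dif F E i * δ i = o E := by
  obtain ⟨q, hq, δ, hδ⟩ := obs_start hF hloc ho
  obtain ⟨δ', hδ'⟩ := obs_poles hsec q.natDegree q hq le_rfl ⟨δ, hδ⟩
  refine obs_degree hFd hinf hod (∑ i, (δ' i).natDegree) δ' (fun i => ?_) hδ'
  have := Finset.single_le_sum (f := fun i => (δ' i).natDegree) (fun _ _ => Nat.zero_le _)
    (Finset.mem_univ i)
  have h2 : (δ' i).natDegree ≤ ∑ i, (δ' i).natDegree := this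
  omega

/-- **The obstruction lemma with a fixed divisor.** -/
theorem obs_div [IsAlgClosed K] (hFd : ∀ i, (F i).natDegree ≤ d)
    (hF : ∀ E ∈ I, MvPolynomial.aeval F E = 0) {r : ℕ} {a : K} (hloc : LocGen F I r a)
    (hsec : ∀ a : K, ∀ x : ι → K, (∀ E ∈ I, ∑ i, (dif F E i).eval a * x i = 0) →
      ∃ g, IsSec F I D g ∧ ∀ i, (g i).eval a = x i)
    (hinf : ∀ x : ι → K, (∀ E ∈ I, ∀ e, E.IsHomogeneous e →
        ∑ i, (dif F E i).coeff (d * (e - 1)) * x i = 0) →
      ∃ g, IsSec F I D g ∧ ∀ i, (g i).coeff D = x i)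
    {Q : K[X]} (hQ : Q ≠ 0) (hD : D + Q.natDegree = d)
    {o : MvPolynomial ι k → K[X]} (ho : IsDer F I o) (hoQ : ∀ E ∈ I, Q ∣ o E)
    (hod : ∀ E ∈ I, ∀ e, E.IsHomogeneous e → (o E).natDegree ≤ d * e) :
    ∃ δ : ι → K[X], (∀ i, (δ i).natDegree ≤ d) ∧ (∀ i, Q ∣ δ i) ∧
      ∀ E ∈ I, ∑ i, dif F E i * δ i = o E := by
  classical
  have hex : ∀ E, ∃ p : K[X], E ∈ I → o E = Q * p := fun E => by
    by_cases hE : E ∈ I
    · obtain ⟨p, hp⟩ := hoQ E hE
      exact ⟨p, fun _ => hp⟩
    · exact ⟨0, fun h => absurd h hE⟩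
  choose o' ho' using hex
  have hder : IsDer F I o' := by
    constructor
    · intro E hE E' hE'
      apply mul_left_cancel₀ hQ
      rw [← ho' _ (I.add_mem hE hE'), ho.add E hE E' hE', ho' E hE, ho' E' hE', mul_add]
    · intro G E hE
      apply mul_left_cancel₀ hQ
      rw [← ho' _ (I.mul_mem_left G hE), ho.mul G E hE, ho' E hE]
      ring
  obtain ⟨δ, hδd, hδ⟩ := obs hFd hF hloc hsec hinf hder (fun E hE e he => by
    by_cases h0 : o' E = 0
    · rw [h0, natDegree_zero]
      exact Nat.zero_le _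
    · have h1 := hod E hE _ he
      rw [ho' E hE, natDegree_mul hQ h0, Nat.mul_add, ← hD] at h1
      rw [← hD]
      omega)
  refine ⟨fun i => Q * δ i, fun i => ?_, fun i => dvd_mul_right _ _, fun E hE => ?_⟩
  · refine natDegree_mul_le.trans ?_
    have := hδd i
    omega
  · rw [ho' E hE, ← hδ E hE, Finset.mul_sum]
    exact Finset.sum_congr rfl fun i _ => by ring

end

end Pool.Agent.VF.ObsR
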