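import Mathlib

/-!
# The open condition over `K = k((q))`

`W = k⟦P, Q⟧`, `iota : k⟦q⟧ → W`, `q ↦ P Q`.  A family `J l` of polynomials in `z` over `k⟦q⟧` such
that

* (outer circle) some `J l` is a nonzero constant modulo `q`,
* (annulus) the homogenised `J l` (`z = 1 / P`) generate in `W` an ideal containing some `P ^ a Q ^ b`,
* (inner circle) some `J l (Y / q)` is, up to a constant, congruent modulo `q` to `β Y ^ D` (`β ≠ 0`,
  degree at most `D`),

has no common factor over `K`.
-/

open Polynomial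

namespace Pool.Agent.VF

section prime

variable {k : Type*} [Field k]

/-- The terms not involving the variable `X s`. -/
noncomputable def rho (s : Fin 2) (f : MvPowerSeries (Fin 2) k) : MvPowerSeries (Fin 2) k :=
  fun m => if m s = 0 then MvPowerSeries.coeff m f else 0

lemma coeff_rho (s : Fin 2) (f : MvPowerSeries (Fin 2) k) (m : Fin 2 →₀ ℕ) :
    MvPowerSeries.coeff m (rho s f) = if m s = 0 then MvPowerSeries.coeff m f else 0 := rfl

lemma rho_mul (s : Fin 2) (f g : MvPowerSeries (Fin 2) k) : rho s (f * g) = rho s f * rho s g := by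
  classical
  ext m
  rw [coeff_rho, MvPowerSeries.coeff_mul, MvPowerSeries.coeff_mul]
  split_ifs with h
  · refine Finset.sum_congr rfl fun t ht => ?_
    rw [Finset.HasAntidiagonal.mem_antidiagonal] at ht
    have h1 : t.1 s + t.2 s = m s := by rw [← Finsupp.add_apply, ht]
    rw [coeff_rho, coeff_rho, if_pos (by omega), if_pos (by omega)]
  · symm
    refine Finset.sum_eq_zero fun t ht => ?_
    rw [Finset.HasAntidiagonal.mem_antidiagonal] at ht
    have h1 : t.1 s + t.2 s = m s := by rw [← Finsupp.add_apply, ht]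
    rw [coeff_rho, coeff_rho]
    by_cases h2 : t.1 s = 0
    · rw [if_pos h2, if_neg (by omega), mul_zero]
    · rw [if_neg h2, zero_mul]

lemma rho_eq_zero_iff (s : Fin 2) (f : MvPowerSeries (Fin 2) k) :
    rho s f = 0 ↔ (MvPowerSeries.X s : MvPowerSeries (Fin 2) k) ∣ f := by
  rw [MvPowerSeries.X_dvd_iff]
  constructor
  · intro h m hm
    have := congrArg (MvPowerSeries.coeff m) h
    rwa [coeff_rho, if_pos hm, map_zero] at this
  · intro h
    ext m
    rw [coeff_rho, map_zero]
    split_ifs with hm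
    · exact h m hm
    · rfl

lemma prime_X (s : Fin 2) : Prime (MvPowerSeries.X s : MvPowerSeries (Fin 2) k) := by
  classical
  refine ⟨?_, ?_, ?_⟩
  · intro h
    have := congrArg (MvPowerSeries.coeff (Finsupp.single s 1)) h
    rw [MvPowerSeries.coeff_X, if_pos rfl, map_zero] at this
    exact one_ne_zero this
  · intro h
    have h1 := (MvPowerSeries.isUnit_iff_constantCoeff).mp h
    rw [MvPowerSeries.constantCoeff_X] at h1
    exact not_isUnit_zero h1
  · intro f g h
    rw [← rho_eq_zero_iff, rho_mul] at h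
    rcases mul_eq_zero.mp h with h | h
    · exact Or.inl ((rho_eq_zero_iff s f).mp h)
    · exact Or.inr ((rho_eq_zero_iff s g).mp h)

/-- A divisor of `p ^ a * q ^ b`, `p` and `q` prime. -/
lemma eq_of_dvd_pow_mul_pow {M : Type*} [CommRing M] [IsDomain M] {p q : M} (hp : Prime p)
    (hq : Prime q) : ∀ (a b : ℕ) (H : M), H ∣ p ^ a * q ^ b → ∃ (i j : ℕ) (u : Mˣ),
      H = u * p ^ i * q ^ j := by
  intro a
  induction a with
  | zero =>
    intro b
    induction b with
    | zero =>
      intro H h
      obtain ⟨u, hu⟩ := isUnit_of_dvd_one (by simpa using h)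
      exact ⟨0, 0, u, by simp [hu]⟩
    | succ b ih =>
      rintro H ⟨H', h⟩
      have h1 : q ∣ H * H' := by
        rw [← h]; exact ⟨p ^ 0 * q ^ b, by ring⟩
      rcases hq.dvd_or_dvd h1 with ⟨H1, rfl⟩ | ⟨H1, rfl⟩
      · have h2 : p ^ 0 * q ^ b = H1 * H' := mul_left_cancel₀ hq.ne_zero (by linear_combination h)
        obtain ⟨i, j, u, hu⟩ := ih H1 ⟨H', h2⟩
        exact ⟨i, j + 1, u, by rw [hu]; ring⟩
      · have h2 : p ^ 0 * q ^ b = H * H1 := mul_left_cancel₀ hq.ne_zero (by linear_combination h)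
        exact ih H ⟨H1, h2⟩
  | succ a ih =>
    rintro b H ⟨H', h⟩
    have h1 : p ∣ H * H' := by
      rw [← h]; exact ⟨p ^ a * q ^ b, by ring⟩
    rcases hp.dvd_or_dvd h1 with ⟨H1, rfl⟩ | ⟨H1, rfl⟩
    · have h2 : p ^ a * q ^ b = H1 * H' := mul_left_cancel₀ hp.ne_zero (by linear_combination h)
      obtain ⟨i, j, u, hu⟩ := ih b H1 ⟨H', h2⟩
      exact ⟨i + 1, j, u, by rw [hu]; ring⟩
    · have h2 : p ^ a * q ^ b = H * H1 := mul_left_cancel₀ hp.ne_zero (by linear_combination h)
      exact ih b H ⟨H1, h2⟩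

end prime

section iota

variable {k : Type*} [Field k]

/-- `P Q` -/
noncomputable def pq (k : Type*) [Field k] : MvPowerSeries (Fin 2) k :=
  MvPowerSeries.X 0 * MvPowerSeries.X 1

lemma hasSubst_pq : PowerSeries.HasSubst (pq k) :=
  PowerSeries.HasSubst.of_constantCoeff_zero (by simp [pq])

/-- `k⟦q⟧ → k⟦P, Q⟧`, `q ↦ P Q` -/
noncomputable def iota (k : Type*) [Field k] : PowerSeries k →ₐ[k] MvPowerSeries (Fin 2) k :=
  PowerSeries.substAlgHom hasSubst_pq

lemma pq_pow (d : ℕ) : pq k ^ d = MvPowerSeries.monomial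
    (Finsupp.single 0 d + Finsupp.single 1 d) 1 := by
  rw [pq, mul_pow, MvPowerSeries.X_pow_eq, MvPowerSeries.X_pow_eq,
    MvPowerSeries.monomial_mul_monomial, one_mul]

lemma coeff_iota (f : PowerSeries k) (m : Fin 2 →₀ ℕ) :
    MvPowerSeries.coeff m (iota k f) = if m 0 = m 1 then PowerSeries.coeff (m 0) f else 0 := by
  classical
  rw [iota, PowerSeries.coe_substAlgHom, PowerSeries.coeff_subst hasSubst_pq]
  have key : ∀ d, MvPowerSeries.coeff m (pq k ^ d) = if m 0 = d ∧ m 1 = d then 1 else 0 := by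
    intro d
    rw [pq_pow, MvPowerSeries.coeff_monomial]
    congr 1
    apply propext
    constructor
    · intro h
      rw [h]
      simp
    · rintro ⟨h0, h1⟩
      ext i
      fin_cases i
      · simpa using h0
      · simpa using h1
  simp only [key]
  split_ifs with h
  · rw [finsum_eq_single _ (m 0)]
    · rw [if_pos ⟨rfl, h.symm⟩]; simp
    · intro d hd
      rw [if_neg (fun h' => hd h'.1.symm), smul_zero]
  · rw [finsum_eq_zero_of_forall_eq_zero]
    intro d
    rw [if_neg (fun h' => h (h'.1.trans h'.2.symm)), smul_zero]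

/-- The homogenisation `∑ h_j(PQ) P ^ (D - j)`, that is `P ^ D h(1 / P)`. -/
noncomputable def hom (D : ℕ) (h : (PowerSeries k)[X]) : MvPowerSeries (Fin 2) k :=
  ∑ j ∈ Finset.range (D + 1), iota k (h.coeff j) * MvPowerSeries.X 0 ^ (D - j)

/-- Multiplicativity: it is the evaluation in a localisation. -/
lemma hom_mul (D E : ℕ) (f g : (PowerSeries k)[X]) (hf : f.natDegree ≤ D) (hg : g.natDegree ≤ E) :
    hom (D + E) (f * g) = hom D f * hom E g := by
  classical
  set P : MvPowerSeries (Fin 2) k := MvPowerSeries.X 0 with hP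
  -- compare in the polynomial ring over `W`: reflect
  have h1 : ∀ (D : ℕ) (f : (PowerSeries k)[X]), f.natDegree ≤ D →
      hom D f = ((f.map (iota k : PowerSeries k →+* MvPowerSeries (Fin 2) k)).reflect D).eval P := by
    intro D f hf
    rw [eval_eq_sum_range' (n := D + 1)]
    · rw [hom, ← Finset.sum_range_reflect]
      refine Finset.sum_congr rfl fun j hj => ?_
      rw [Finset.mem_range] at hj
      rw [coeff_reflect, revAt_le (by omega), coeff_map]
      have e1 : D + 1 - 1 - j = D - j := by omega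
      have e2 : D - (D - j) = j := by omega
      rw [e1, e2]
      rfl
    · have : (f.map (iota k : PowerSeries k →+* MvPowerSeries (Fin 2) k)).natDegree ≤ D :=
        (natDegree_map_le).trans hf
      have h2 := natDegree_reflect_le (p := f.map (iota k : PowerSeries k →+* MvPowerSeries (Fin 2) k)) (N := D)
      omega
  rw [h1 (D + E) _ (natDegree_mul_le.trans (by omega)), h1 D f hf, h1 E g hg, Polynomial.map_mul,
    reflect_mul _ _ ((natDegree_map_le).trans hf) ((natDegree_map_le).trans hg), eval_mul]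

/-- The coefficients of the homogenisation. -/
lemma coeff_hom (D : ℕ) (h : (PowerSeries k)[X]) (m : Fin 2 →₀ ℕ) :
    MvPowerSeries.coeff m (hom D h) =
      if m 1 ≤ m 0 ∧ m 0 ≤ m 1 + D then PowerSeries.coeff (m 1) (h.coeff (m 1 + D - m 0))
      else 0 := by
  classical
  have key : ∀ j ∈ Finset.range (D + 1), MvPowerSeries.coeff m
      (iota k (h.coeff j) * MvPowerSeries.X 0 ^ (D - j)) =
      if D - j ≤ m 0 ∧ m 0 - (D - j) = m 1 then PowerSeries.coeff (m 1) (h.coeff j) else 0 := by
    intro j _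
    rw [MvPowerSeries.X_pow_eq, MvPowerSeries.coeff_mul_monomial, mul_one]
    have hle : Finsupp.single (0 : Fin 2) (D - j) ≤ m ↔ D - j ≤ m 0 := by
      rw [Finsupp.single_le_iff]
    by_cases h1 : D - j ≤ m 0
    · rw [if_pos (hle.mpr h1), coeff_iota]
      have e0 : (m - Finsupp.single (0 : Fin 2) (D - j)) 0 = m 0 - (D - j) := by simp
      have e1 : (m - Finsupp.single (0 : Fin 2) (D - j)) 1 = m 1 := by simp
      rw [e0, e1]
      by_cases h2 : m 0 - (D - j) = m 1
      · rw [if_pos h2, if_pos ⟨h1, h2⟩, h2]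
      · rw [if_neg h2, if_neg (fun h => h2 h.2)]
    · rw [if_neg (fun h => h1 (hle.mp h)), if_neg (fun h => h1 h.1)]
  rw [hom, map_sum, Finset.sum_congr rfl key]
  split_ifs with hm
  · rw [Finset.sum_eq_single (m 1 + D - m 0)]
    · rw [if_pos (by omega)]
    · intro j hj hne
      rw [Finset.mem_range] at hj
      rw [if_neg (by omega)]
    · intro h
      rw [Finset.mem_range] at h
      omega
  · refine Finset.sum_eq_zero fun j hj => ?_
    rw [Finset.mem_range] at hj
    rw [if_neg (by omega)]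

end iota

section main

variable {k : Type*} [Field k]

/-- The annulus: if `h` is constant modulo `q` and its homogenisation divides some `P ^ a Q ^ b`,
then `q ^ j` divides the coefficient of index `j`. -/
lemma dvd_coeff (h : (PowerSeries k)[X]) (D : ℕ) (hD : h.natDegree = D)
    (h0 : PowerSeries.constantCoeff (h.coeff 0) ≠ 0)
    (hj : ∀ j, 0 < j → PowerSeries.constantCoeff (h.coeff j) = 0) (a b : ℕ)
    (hdvd : hom D h ∣ (MvPowerSeries.X 0 : MvPowerSeries (Fin 2) k) ^ a * MvPowerSeries.X 1 ^ b)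
    (j : ℕ) : (PowerSeries.X : PowerSeries k) ^ j ∣ h.coeff j := by
  classical
  have _ : IsDomain (MvPowerSeries (Fin 2) k) := NoZeroDivisors.to_isDomain _
  obtain ⟨i, l, u, hu⟩ := eq_of_dvd_pow_mul_pow (prime_X (k := k) 0) (prime_X 1) a b _ hdvd
  -- coefficients at `(c, 0)`
  have hc : ∀ c, c ≤ D → MvPowerSeries.coeff (Finsupp.single 0 c) (hom D h) =
      PowerSeries.constantCoeff (h.coeff (D - c)) := by
    intro c hc
    rw [coeff_hom]
    have e0 : (Finsupp.single (0 : Fin 2) c) 0 = c := by simp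
    have e1 : (Finsupp.single (0 : Fin 2) c) 1 = 0 := by simp
    rw [e0, e1, if_pos (by omega), Nat.zero_add, PowerSeries.coeff_zero_eq_constantCoeff_apply]
  have hD0 : MvPowerSeries.coeff (Finsupp.single 0 D) (hom D h) ≠ 0 := by
    rw [hc D le_rfl, Nat.sub_self]
    exact h0
  have hl : l = 0 := by
    by_contra hl
    have h1 : (MvPowerSeries.X 1 : MvPowerSeries (Fin 2) k) ∣ hom D h := by
      rw [hu]
      exact Dvd.dvd.mul_left (dvd_pow_self _ hl) _
    rw [MvPowerSeries.X_dvd_iff] at h1
    exact hD0 (h1 _ (by simp))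
  have hu' : hom D h = (u : MvPowerSeries (Fin 2) k) * (MvPowerSeries.X 0) ^ i := by
    rw [hu, hl, pow_zero, mul_one]
  have hi1 : i ≤ D := by
    by_contra hi
    have h1 : (MvPowerSeries.X 0 : MvPowerSeries (Fin 2) k) ^ i ∣ hom D h := by
      rw [hu']; exact dvd_mul_left _ _
    rw [MvPowerSeries.X_pow_dvd_iff] at h1
    exact hD0 (h1 _ (by simp; omega))
  have hi2 : i = D := by
    by_contra hi
    have h1 := hc i hi1
    rw [hj _ (by omega), hu', MvPowerSeries.X_pow_eq, MvPowerSeries.coeff_mul_monomial,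
      if_pos le_rfl, tsub_self, mul_one, MvPowerSeries.coeff_zero_eq_constantCoeff_apply] at h1
    have h2 : IsUnit (MvPowerSeries.constantCoeff (u : MvPowerSeries (Fin 2) k)) :=
      (MvPowerSeries.isUnit_iff_constantCoeff).mp u.isUnit
    exact h2.ne_zero h1
  have hdv : (MvPowerSeries.X 0 : MvPowerSeries (Fin 2) k) ^ D ∣ hom D h := by
    rw [hu', hi2]; exact dvd_mul_left _ _
  rw [MvPowerSeries.X_pow_dvd_iff] at hdv
  rw [PowerSeries.X_pow_dvd_iff]
  intro m hm
  by_cases hjD : j ≤ D
  · have h1 := hdv (Finsupp.single 0 (m + D - j) + Finsupp.single 1 m) (by simp; omega)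
    rw [coeff_hom] at h1
    have e0 : (Finsupp.single (0 : Fin 2) (m + D - j) + Finsupp.single 1 m : Fin 2 →₀ ℕ) 0 =
        m + D - j := by
      simp
    have e1 : (Finsupp.single (0 : Fin 2) (m + D - j) + Finsupp.single 1 m : Fin 2 →₀ ℕ) 1 =
        m := by simp
    rw [e0, e1, if_pos (by omega)] at h1
    have e2 : m + D - (m + D - j) = j := by omega
    rwa [e2] at h1
  · rw [coeff_eq_zero_of_natDegree_lt (by omega), map_zero]

variable {K : Type*} [Field K] [Algebra (PowerSeries k) K] [IsFractionRing (PowerSeries k) K]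

/-- **No common factor.** -/
theorem no_common_factor (h : (PowerSeries k)[X]) (hd : 0 < h.natDegree)
    (A : (PowerSeries k)[X]) (hA : h ∣ A) (c : k) (hc : c ≠ 0)
    (hAc : A.map PowerSeries.constantCoeff = C c) (a b : ℕ)
    (hmid : hom h.natDegree h ∣
      (MvPowerSeries.X 0 : MvPowerSeries (Fin 2) k) ^ a * MvPowerSeries.X 1 ^ b)
    (B : (PowerSeries k)[X]) (D : ℕ) (β : k) (hβ : β ≠ 0) (hBD : B.natDegree ≤ D)
    (hBβ : B.map PowerSeries.constantCoeff = C β * X ^ D)
    (hB : (h.map (algebraMap (PowerSeries k) K)).comp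
      (C (algebraMap (PowerSeries k) K PowerSeries.X)⁻¹ * X) ∣ B.map (algebraMap (PowerSeries k) K)) :
    False := by
  classical
  -- outer circle
  obtain ⟨h', hh'⟩ := hA
  have h1 : h.map PowerSeries.constantCoeff * h'.map PowerSeries.constantCoeff = C c := by
    rw [← Polynomial.map_mul, ← hh', hAc]
  have h2 : (h.map (PowerSeries.constantCoeff (R := k))).natDegree = 0 := by
    have h3 : IsUnit (h.map (PowerSeries.constantCoeff (R := k))) := by
      refine isUnit_of_mul_isUnit_left (y := h'.map PowerSeries.constantCoeff) ?_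
      rw [h1]
      exact isUnit_C.mpr (isUnit_iff_ne_zero.mpr hc)
    exact natDegree_eq_zero_of_isUnit h3
  have hj : ∀ j, 0 < j → PowerSeries.constantCoeff (h.coeff j) = 0 := by
    intro j hj
    rw [← coeff_map]
    exact coeff_eq_zero_of_natDegree_lt (by omega)
  have h0 : PowerSeries.constantCoeff (h.coeff 0) ≠ 0 := by
    intro h3
    have h4 : h.map (PowerSeries.constantCoeff (R := k)) = 0 := by
      rw [eq_C_of_natDegree_eq_zero h2, coeff_map, h3, C_0]
    rw [h4, zero_mul] at h1
    exact hc (C_eq_zero.mp h1.symm)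
  -- annulus
  have hdv := dvd_coeff h _ rfl h0 hj a b hmid
  choose g hg using hdv
  -- the polynomial `G = h(Y / q)`
  set G : (PowerSeries k)[X] := ∑ j ∈ Finset.range (h.natDegree + 1), monomial j (g j) with hG
  have hGc : ∀ j, j ≤ h.natDegree → G.coeff j = g j := by
    intro j hj
    rw [hG, finsetSum_coeff, Finset.sum_eq_single j]
    · rw [coeff_monomial, if_pos rfl]
    · intro i _ hi
      rw [coeff_monomial, if_neg hi]
    · intro h; rw [Finset.mem_range] at h; omega
  have hGc' : ∀ j, h.natDegree < j → G.coeff j = 0 := by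
    intro j hj
    rw [hG, finsetSum_coeff]
    refine Finset.sum_eq_zero fun i hi => ?_
    rw [Finset.mem_range] at hi
    rw [coeff_monomial, if_neg (by omega)]
  have hq : (algebraMap (PowerSeries k) K PowerSeries.X) ≠ 0 := by
    rw [Ne, FaithfulSMul.algebraMap_eq_zero_iff]
    exact PowerSeries.X_ne_zero
  have hGmap : G.map (algebraMap (PowerSeries k) K) =
      (h.map (algebraMap (PowerSeries k) K)).comp
        (C (algebraMap (PowerSeries k) K PowerSeries.X)⁻¹ * X) := by
    ext j
    rw [coeff_map, comp_C_mul_X_coeff, coeff_map]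
    by_cases hjn : j ≤ h.natDegree
    · rw [hGc j hjn]
      conv_rhs => rw [hg j]
      rw [map_mul, map_pow, inv_pow]
      field_simp
    · rw [hGc' j (by omega), coeff_eq_zero_of_natDegree_lt (by omega), map_zero, zero_mul]
  have hg0 : IsUnit (g 0) := by
    rw [PowerSeries.isUnit_iff_constantCoeff, isUnit_iff_ne_zero]
    have := hg 0
    rw [pow_zero, one_mul] at this
    rwa [← this]
  have hGprim : G.IsPrimitive := by
    intro r hr
    obtain ⟨G', hG'⟩ := hr
    have h3 : g 0 = r * G'.coeff 0 := by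
      rw [← hGc 0 (Nat.zero_le _), hG', coeff_C_mul]
    exact isUnit_of_mul_isUnit_left (h3 ▸ hg0)
  have hGB : G ∣ B := by
    apply hGprim.dvd_of_fraction_map_dvd_fraction_map (K := K)
    rw [hGmap]
    exact hB
  obtain ⟨B', hB'⟩ := hGB
  -- the leading coefficient of `G` is a unit
  have hBlead : IsUnit (B.coeff D) := by
    rw [PowerSeries.isUnit_iff_constantCoeff, isUnit_iff_ne_zero, ← coeff_map, hBβ, coeff_C_mul,
      coeff_X_pow, if_pos rfl, mul_one]
    exact hβ
  have hBdeg : B.natDegree = D := by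
    refine le_antisymm hBD (le_natDegree_of_ne_zero hBlead.ne_zero)
  have hGdeg : G.natDegree = h.natDegree := by
    refine le_antisymm ?_ ?_
    · rw [natDegree_le_iff_coeff_eq_zero]
      exact hGc'
    · apply le_natDegree_of_ne_zero
      rw [hGc _ le_rfl]
      intro h3
      have h4 := hg h.natDegree
      rw [h3, mul_zero] at h4
      rw [coeff_natDegree, leadingCoeff_eq_zero] at h4
      rw [h4, natDegree_zero] at hd
      exact lt_irrefl _ hd
  have hGlead : IsUnit (g h.natDegree) := by
    have h3 : B.leadingCoeff = G.leadingCoeff * B'.leadingCoeff := by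
      rw [hB', leadingCoeff_mul]
    have h4 : IsUnit B.leadingCoeff := by rwa [leadingCoeff, hBdeg]
    have h5 := isUnit_of_mul_isUnit_left (h3 ▸ h4)
    rwa [leadingCoeff, hGdeg, hGc _ le_rfl] at h5
  -- the reduction of `G` divides `β X ^ D`
  have h6 : G.map PowerSeries.constantCoeff ∣ C β * X ^ D := by
    rw [← hBβ, hB', Polynomial.map_mul]
    exact dvd_mul_right _ _
  have h7 : G.map (PowerSeries.constantCoeff (R := k)) ∣ X ^ D := by
    obtain ⟨t, ht⟩ := h6
    refine ⟨C β⁻¹ * t, ?_⟩
    calc X ^ D = C β⁻¹ * (C β * X ^ D) := by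
          rw [← mul_assoc, ← C_mul, inv_mul_cancel₀ hβ, C_1, one_mul]
      _ = _ := by rw [ht]; ring
  obtain ⟨i, _, hi⟩ := (dvd_prime_pow Polynomial.prime_X D).mp h7
  rcases Nat.eq_zero_or_pos i with h8 | h8
  · rw [h8, pow_zero] at hi
    have h9 : IsUnit (G.map (PowerSeries.constantCoeff (R := k))) :=
      associated_one_iff_isUnit.mp hi
    have h10 := natDegree_eq_zero_of_isUnit h9
    have h11 : (G.map (PowerSeries.constantCoeff (R := k))).coeff h.natDegree ≠ 0 := by
      rw [coeff_map, hGc _ le_rfl]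
      exact ((PowerSeries.isUnit_iff_constantCoeff).mp hGlead).ne_zero
    exact h11 (coeff_eq_zero_of_natDegree_lt (by omega))
  · have h9 : (X : k[X]) ∣ G.map (PowerSeries.constantCoeff (R := k)) :=
      (dvd_pow_self X h8.ne').trans hi.symm.dvd
    rw [X_dvd_iff, coeff_map, hGc 0 (Nat.zero_le _)] at h9
    exact ((PowerSeries.isUnit_iff_constantCoeff).mp hg0).ne_zero h9

end main

end Pool.Agent.VF
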