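import Mathlib

/-!
MP_1858fb_ag: implicit functions for polynomial systems in a commutative Banach algebra
(helper36).  No result of the project is used.
-/

open MvPolynomial Filter Topology

namespace VFpoly

/-- the abstract contraction lemma on a closed ball -/
theorem exists_fixed {E : Type*} [NormedAddCommGroup E] [CompleteSpace E] {Φ : E → E} {x₀ : E}
    {ρ : ℝ} (hρ : 0 ≤ ρ)
    (hΦ : ∀ x y, ‖x - x₀‖ ≤ ρ → ‖y - x₀‖ ≤ ρ → ‖Φ x - Φ y‖ ≤ 1 / 2 * ‖x - y‖)
    (h0 : ‖Φ x₀ - x₀‖ ≤ ρ / 2) : ∃ x, ‖x - x₀‖ ≤ ρ ∧ Φ x = x := by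
  have hmaps : Set.MapsTo Φ (Metric.closedBall x₀ ρ) (Metric.closedBall x₀ ρ) := by
    intro x hx
    rw [Metric.mem_closedBall, dist_eq_norm] at hx ⊢
    have h1 := hΦ x x₀ hx (by simpa using hρ)
    calc ‖Φ x - x₀‖ = ‖(Φ x - Φ x₀) + (Φ x₀ - x₀)‖ := by congr 1; abel
      _ ≤ ‖Φ x - Φ x₀‖ + ‖Φ x₀ - x₀‖ := norm_add_le _ _
      _ ≤ 1 / 2 * ρ + ρ / 2 := by gcongr; linarith
      _ = ρ := by ring
  have hc : ContractingWith (1 / 2 : NNReal) (hmaps.restrict Φ _ _) := by
    refine ⟨by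
      rw [← NNReal.coe_lt_coe]; norm_num, ?_⟩
    refine LipschitzWith.of_dist_le_mul fun x y => ?_
    have hx := x.2
    have hy := y.2
    rw [Metric.mem_closedBall, dist_eq_norm] at hx hy
    have h1 := hΦ x.1 y.1 hx hy
    rw [Subtype.dist_eq, Subtype.dist_eq, dist_eq_norm, dist_eq_norm]
    simpa using h1
  obtain ⟨x, hx, hfix, -⟩ := hc.exists_fixedPoint' (Metric.isClosed_closedBall.isComplete)
    hmaps (x := x₀) (Metric.mem_closedBall_self hρ) (edist_ne_top _ _)
  refine ⟨x, ?_, hfix⟩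
  rwa [Metric.mem_closedBall, dist_eq_norm] at hx

variable (𝕜 : Type*) [NontriviallyNormedField 𝕜] {A : Type*} [NormedCommRing A]
  [NormedAlgebra 𝕜 A]

/-- strict derivative of the evaluation of a polynomial -/
theorem exists_hasStrictFDerivAt {σ : Type*} [Fintype σ] (p : MvPolynomial σ A) (x : σ → A) :
    ∃ D : (σ → A) →L[𝕜] A, (∀ v, D v = ∑ i, MvPolynomial.eval x (pderiv i p) * v i) ∧
      HasStrictFDerivAt (𝕜 := 𝕜) (fun x : σ → A => MvPolynomial.eval x p) D x := by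
  classical
  induction p using MvPolynomial.induction_on with
  | C a => exact ⟨0, fun v => by simp, by simpa using hasStrictFDerivAt_const (𝕜 := 𝕜) a x⟩
  | add p q hp hq =>
    obtain ⟨D, hD, h1⟩ := hp
    obtain ⟨D', hD', h1'⟩ := hq
    refine ⟨D + D', fun v => ?_, ?_⟩
    · simp only [add_apply, hD, hD', map_add, add_mul,
        Finset.sum_add_distrib]
    · simp only [map_add]
      exact h1.add h1'
  | mul_X p j hp =>
    obtain ⟨D, hD, h1⟩ := hp
    have h2 : HasStrictFDerivAt (𝕜 := 𝕜) (fun x : σ → A => x j)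
        (ContinuousLinearMap.proj (R := 𝕜) j : (σ → A) →L[𝕜] A) x :=
      (ContinuousLinearMap.proj (R := 𝕜) j : (σ → A) →L[𝕜] A).hasStrictFDerivAt
    have h3 := h1.mul h2
    refine ⟨MvPolynomial.eval x p • (ContinuousLinearMap.proj (R := 𝕜) j : (σ → A) →L[𝕜] A) +
      x j • D, fun v => ?_, ?_⟩
    swap
    · simp only [map_mul, eval_X]
      exact h3
    simp only [add_apply, smul_apply, hD,
      ContinuousLinearMap.proj_apply, smul_eq_mul,
      Derivation.leibniz, pderiv_X, map_add, map_mul, eval_X, add_mul, Finset.sum_add_distrib,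
      Finset.mul_sum]
    congr 1
    · rw [Finset.sum_eq_single j]
      · simp
      · intro b _ hb
        simp [hb]
      · simp
    · refine Finset.sum_congr rfl fun i _ => ?_
      ring

variable [CompleteSpace A]

include 𝕜 in
/-- **implicit functions for polynomial systems in a commutative Banach algebra**, with
uniqueness and a Lipschitz constant -/
theorem implicit {κ μ : Type*} [Fintype κ] [Fintype μ] [DecidableEq κ]
    (G : κ → MvPolynomial (κ ⊕ μ) A) (u₀ : κ → A) (v₀ : μ → A)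
    (h0 : ∀ i, MvPolynomial.eval (Sum.elim u₀ v₀) (G i) = 0)
    (hJ : IsUnit (Matrix.of fun i j : κ =>
      MvPolynomial.eval (Sum.elim u₀ v₀) (pderiv (Sum.inl j) (G i))).det) :
    ∃ ε > 0, ∃ δ > 0, ∃ C > 0, ∃ φ : (μ → A) → (κ → A), φ v₀ = u₀ ∧
      (∀ v, ‖v - v₀‖ < δ → ‖φ v - u₀‖ < ε ∧
        ∀ i, MvPolynomial.eval (Sum.elim (φ v) v) (G i) = 0) ∧
      (∀ v v', ‖v - v₀‖ < δ → ‖v' - v₀‖ < δ → ‖φ v - φ v'‖ ≤ C * ‖v - v'‖) ∧
      (∀ u v, ‖u - u₀‖ < ε → ‖v - v₀‖ < δ →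
        (∀ i, MvPolynomial.eval (Sum.elim u v) (G i) = 0) → u = φ v) := by
  classical
  set J : Matrix κ κ A := Matrix.of fun i j : κ =>
      MvPolynomial.eval (Sum.elim u₀ v₀) (pderiv (Sum.inl j) (G i)) with hJdef
  -- the preconditioned system
  let H : κ → MvPolynomial (κ ⊕ μ) A := fun i => ∑ j, MvPolynomial.C (J⁻¹ i j) * G j
  have hHe : ∀ (x : κ ⊕ μ → A) i, MvPolynomial.eval x (H i) =
      ∑ j, J⁻¹ i j * MvPolynomial.eval x (G j) := by
    intro x i
    simp [H]
  have hHG : ∀ x : κ ⊕ μ → A, (∀ i, MvPolynomial.eval x (H i) = 0) ↔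
      (∀ i, MvPolynomial.eval x (G i) = 0) := by
    intro x
    constructor
    · intro h i
      have h1 : J.mulVec (J⁻¹.mulVec fun j => MvPolynomial.eval x (G j)) = 0 := by
        have : (J⁻¹.mulVec fun j => MvPolynomial.eval x (G j)) = 0 := by
          funext i
          rw [Pi.zero_apply, ← h i, hHe]
          rfl
        rw [this, Matrix.mulVec_zero]
      rw [Matrix.mulVec_mulVec, Matrix.mul_nonsing_inv _ hJ, Matrix.one_mulVec] at h1
      exact congrFun h1 i
    · intro h i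
      rw [hHe]
      simp [h]
  have hHJ : ∀ i j, MvPolynomial.eval (Sum.elim u₀ v₀) (pderiv (Sum.inl j) (H i)) =
      if i = j then 1 else 0 := by
    intro i j
    have h1 : MvPolynomial.eval (Sum.elim u₀ v₀) (pderiv (Sum.inl j) (H i)) =
        (J⁻¹ * J) i j := by
      rw [Matrix.mul_apply]
      simp only [H, map_sum]
      refine Finset.sum_congr rfl fun k _ => ?_
      rw [Derivation.leibniz, pderiv_C, smul_zero, add_zero, smul_eq_mul, map_mul, eval_C]
      rfl
    rw [h1, Matrix.nonsing_inv_mul _ hJ, Matrix.one_apply]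
  -- the maps N(u, v) = u - H(u, v)
  choose D hD hDs using fun i => exists_hasStrictFDerivAt 𝕜 (H i) (Sum.elim u₀ v₀)
  have hD2 : ∀ i x y, D i (Sum.elim x y) = x i + D i (Sum.elim 0 y) := by
    intro i x y
    rw [hD, hD, Fintype.sum_sum_type, Fintype.sum_sum_type]
    simp only [Sum.elim_inl, Sum.elim_inr, hHJ, Pi.zero_apply, mul_zero, Finset.sum_const_zero,
      zero_add, ite_mul, one_mul, zero_mul, Finset.sum_ite_eq, Finset.mem_univ, if_true]
  have hev : ∀ᶠ q : (κ ⊕ μ → A) × (κ ⊕ μ → A) in 𝓝 (Sum.elim u₀ v₀, Sum.elim u₀ v₀),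
      ∀ i, ‖MvPolynomial.eval q.1 (H i) - MvPolynomial.eval q.2 (H i) - D i (q.1 - q.2)‖ ≤
        1 / 2 * ‖q.1 - q.2‖ := by
    rw [eventually_all]
    intro i
    exact (hDs i).isLittleO.def (by norm_num)
  obtain ⟨ρ, hρ, hball⟩ := Metric.eventually_nhds_iff.1 hev
  set C₀ : ℝ := 1 / 2 + ∑ i, ‖D i‖ with hC₀
  have hC₀pos : 0 < C₀ := by
    have : 0 ≤ ∑ i, ‖D i‖ := Finset.sum_nonneg fun i _ => norm_nonneg _
    rw [hC₀]; linarith
  have hDC : ∀ i, ‖D i‖ ≤ ∑ i, ‖D i‖ := fun i =>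
    Finset.single_le_sum (f := fun i => ‖D i‖) (fun i _ => norm_nonneg _) (Finset.mem_univ i)
  let N : (κ → A) → (μ → A) → (κ → A) := fun u v i =>
    u i - MvPolynomial.eval (Sum.elim u v) (H i)
  have helim : ∀ (u u' : κ → A) (v v' : μ → A),
      Sum.elim u v - Sum.elim u' v' = Sum.elim (u - u') (v - v') := by
    intro u u' v v'
    funext s
    cases s <;> rfl
  have hnorm : ∀ (u : κ → A) (v : μ → A) (R : ℝ), ‖u‖ ≤ R → ‖v‖ ≤ R → 0 ≤ R →
      ‖(Sum.elim u v : κ ⊕ μ → A)‖ ≤ R := by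
    intro u v R hu hv hR
    rw [pi_norm_le_iff_of_nonneg hR]
    intro s
    cases s with
    | inl i => exact (norm_le_pi_norm u i).trans hu
    | inr i => exact (norm_le_pi_norm v i).trans hv
  have hNLip : ∀ u u' v v', ‖u - u₀‖ < ρ → ‖u' - u₀‖ < ρ → ‖v - v₀‖ < ρ → ‖v' - v₀‖ < ρ →
      ‖N u v - N u' v'‖ ≤ 1 / 2 * ‖u - u'‖ + C₀ * ‖v - v'‖ := by
    intro u u' v v' hu hu' hv hv'
    have hlt : ∀ (u : κ → A) (v : μ → A), ‖u - u₀‖ < ρ → ‖v - v₀‖ < ρ →
        dist (Sum.elim u v : κ ⊕ μ → A) (Sum.elim u₀ v₀) < ρ := by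
      intro u v hu hv
      rw [dist_eq_norm, helim]
      refine lt_of_le_of_lt (hnorm _ _ (max ‖u - u₀‖ ‖v - v₀‖) (le_max_left _ _)
        (le_max_right _ _) (le_max_of_le_left (norm_nonneg _))) (max_lt hu hv)
    have h1 := @hball (Sum.elim u v, Sum.elim u' v')
      (by rw [Prod.dist_eq]; exact max_lt (hlt u v hu hv) (hlt u' v' hu' hv'))
    rw [pi_norm_le_iff_of_nonneg (by positivity)]
    intro i
    have h2 := h1 i
    simp only at h2
    rw [helim] at h2
    have hnn : ‖(Sum.elim (u - u') (v - v') : κ ⊕ μ → A)‖ ≤ ‖u - u'‖ + ‖v - v'‖ :=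
      hnorm _ _ _ (by linarith [norm_nonneg (v - v')]) (by linarith [norm_nonneg (u - u')])
        (by positivity)
    have h3 : (N u v - N u' v') i = -(MvPolynomial.eval (Sum.elim u v) (H i) -
        MvPolynomial.eval (Sum.elim u' v') (H i) - D i (Sum.elim (u - u') (v - v'))) -
        D i (Sum.elim 0 (v - v')) := by
      rw [hD2 i (u - u') (v - v')]
      simp only [N, Pi.sub_apply]
      abel
    rw [h3]
    calc _ ≤ ‖MvPolynomial.eval (Sum.elim u v) (H i) -
        MvPolynomial.eval (Sum.elim u' v') (H i) - D i (Sum.elim (u - u') (v - v'))‖ +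
        ‖D i (Sum.elim 0 (v - v'))‖ := by
          refine (norm_sub_le _ _).trans ?_
          rw [norm_neg]
      _ ≤ 1 / 2 * (‖u - u'‖ + ‖v - v'‖) + (∑ i, ‖D i‖) * ‖v - v'‖ := by
          refine add_le_add (h2.trans (by gcongr)) ?_
          refine ((D i).le_opNorm _).trans ?_
          refine mul_le_mul (hDC i) (hnorm _ _ _ (by simp) le_rfl (norm_nonneg _))
            (norm_nonneg _) (Finset.sum_nonneg fun i _ => norm_nonneg _)
      _ = 1 / 2 * ‖u - u'‖ + C₀ * ‖v - v'‖ := by rw [hC₀]; ring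
  have hN0 : N u₀ v₀ = u₀ := by
    funext i
    simp only [N]
    rw [(hHG _).2 h0 i, sub_zero]
  have hfix : ∀ u v, N u v = u ↔ ∀ i, MvPolynomial.eval (Sum.elim u v) (G i) = 0 := by
    intro u v
    rw [← hHG]
    constructor
    · intro h i
      have := congrFun h i
      simp only [N] at this
      simpa using this
    · intro h
      funext i
      simp only [N, h i, sub_zero]
  -- constants
  have hδ : 0 < min ρ (ρ / (4 * C₀)) := by positivity
  have hδC : ∀ x : ℝ, x < min ρ (ρ / (4 * C₀)) → C₀ * x ≤ ρ / 4 := by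
    intro x hx
    have h1 : x < ρ / (4 * C₀) := hx.trans_le (min_le_right _ _)
    rw [lt_div_iff₀ (by positivity)] at h1
    nlinarith
  have hex : ∀ v, ‖v - v₀‖ < min ρ (ρ / (4 * C₀)) → ∃ u, ‖u - u₀‖ ≤ ρ / 2 ∧ N u v = u := by
    intro v hv
    have hvρ : ‖v - v₀‖ < ρ := hv.trans_le (min_le_left _ _)
    refine exists_fixed (by positivity) (fun x y hx hy => ?_) ?_
    · have := hNLip x y v v (by linarith) (by linarith) hvρ hvρ
      simpa using this
    · have := hNLip u₀ u₀ v v₀ (by simpa using hρ) (by simpa using hρ) hvρ (by simpa using hρ)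
      rw [hN0] at this
      simp only [sub_self, norm_zero, mul_zero, zero_add] at this
      have h2 := hδC _ hv
      linarith
  classical
  choose! φ hφ1 hφ2 using hex
  have huniq : ∀ u v, ‖u - u₀‖ < ρ → ‖v - v₀‖ < min ρ (ρ / (4 * C₀)) → N u v = u →
      u = φ v := by
    intro u v hu hv h
    have hvρ : ‖v - v₀‖ < ρ := hv.trans_le (min_le_left _ _)
    have h1 := hφ1 v hv
    have := hNLip u (φ v) v v hu (by linarith) hvρ hvρ
    rw [h, hφ2 v hv] at this
    simp only [sub_self, norm_zero, mul_zero, add_zero] at this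
    have h3 : ‖u - φ v‖ = 0 := by linarith [norm_nonneg (u - φ v)]
    exact sub_eq_zero.1 (norm_eq_zero.1 h3)
  refine ⟨ρ, hρ, min ρ (ρ / (4 * C₀)), hδ, 2 * C₀, by positivity, φ, ?_, ?_, ?_, ?_⟩
  · exact (huniq u₀ v₀ (by simpa using hρ) (by simpa using hδ) hN0).symm
  · intro v hv
    exact ⟨by linarith [hφ1 v hv], (hfix _ _).1 (hφ2 v hv)⟩
  · intro v v' hv hv'
    have hvρ : ‖v - v₀‖ < ρ := hv.trans_le (min_le_left _ _)
    have hvρ' : ‖v' - v₀‖ < ρ := hv'.trans_le (min_le_left _ _)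
    have := hNLip (φ v) (φ v') v v' (by linarith [hφ1 v hv]) (by linarith [hφ1 v' hv']) hvρ hvρ'
    rw [hφ2 v hv, hφ2 v' hv'] at this
    linarith
  · intro u v hu hv h
    exact huniq u v hu hv ((hfix _ _).2 h)

end VFpoly
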