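import Pool.Agent.Lib_MP_1858fb_w.Defs

/-!
# Specialization

`k` algebraically closed, `K` a nonzero `k`-algebra: finitely many elements of `K` can be
specialized to `k`; if `K` is a field also the coordinates of a point.  Coefficientwise application of a `k`-linear
functional `K → k` to polynomials.
-/

namespace Pool.Agent.VF

open MvPolynomial

/-- finitely many elements of a nonzero `k`-algebra `K` can be specialized to `k` -/
theorem exists_spec {k K : Type} [Field k] [IsAlgClosed k] [CommRing K] [Nontrivial K] [Algebra k K]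
    (T : Set K) (hT : T.Finite) : Nonempty (Algebra.adjoin k T →ₐ[k] k) := by
  let A := Algebra.adjoin k T
  have : Algebra.FiniteType k A :=
    (Subalgebra.fg_iff_finiteType _).1 ⟨hT.toFinset, by rw [hT.coe_toFinset]⟩
  obtain ⟨m, hm⟩ := Ideal.exists_maximal A
  let _ : Field (A ⧸ m) := Ideal.Quotient.field m
  have : Module.Finite k (A ⧸ m) := finite_of_finite_type_of_isJacobsonRing k (A ⧸ m)
  have hb : Function.Bijective (algebraMap k (A ⧸ m)) :=
    IsAlgClosed.algebraMap_bijective_of_isIntegral
  let e : k ≃ₐ[k] (A ⧸ m) := AlgEquiv.ofBijective (Algebra.ofId k (A ⧸ m)) hb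
  exact ⟨e.symm.toAlgHom.comp (Ideal.Quotient.mkₐ k m)⟩

section

variable {k K : Type} [Field k] [Field K] [Algebra k K]

/-- the coordinates of a point can be specialized -/
theorem spec_points [IsAlgClosed k] {τ : Type} [Finite τ] (x : τ → K) (g : MvPolynomial τ k)
    (hg : aeval x g ≠ 0) :
    ∃ x0 : τ → k, (∀ f : MvPolynomial τ k, aeval x f = 0 → aeval x0 f = 0) ∧ aeval x0 g ≠ 0 := by
  let P : Ideal (MvPolynomial τ k) := RingHom.ker (aeval x : MvPolynomial τ k →ₐ[k] K)
  have hP : P.IsPrime := RingHom.ker_isPrime _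
  have h1 : g ∉ vanishingIdeal k (zeroLocus k P) := by
    rw [IsPrime.vanishingIdeal_zeroLocus]
    exact hg
  rw [mem_vanishingIdeal_iff] at h1
  push Not at h1
  obtain ⟨x0, hx0, h2⟩ := h1
  exact ⟨x0, fun f hf => hx0 f hf, h2⟩

variable {σ : Type}

/-- a `k`-linear functional applied to the coefficients -/
noncomputable def co (φ : K →ₗ[k] k) (f : MvPolynomial σ K) : MvPolynomial σ k :=
  ∑ m ∈ f.support, monomial m (φ (coeff m f))

theorem coeff_co (φ : K →ₗ[k] k) (f : MvPolynomial σ K) (m : σ →₀ ℕ) :
    coeff m (co φ f) = φ (coeff m f) := by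
  classical
  rw [co, coeff_sum]
  simp only [coeff_monomial]
  rw [Finset.sum_ite_eq']
  split_ifs with h
  · rfl
  · rw [notMem_support_iff.1 h, map_zero]

theorem co_add (φ : K →ₗ[k] k) (f g : MvPolynomial σ K) : co φ (f + g) = co φ f + co φ g := by
  ext m
  rw [coeff_add, coeff_co, coeff_co, coeff_co, coeff_add, map_add]

theorem co_sum {ι : Type} (φ : K →ₗ[k] k) (s : Finset ι) (f : ι → MvPolynomial σ K) :
    co φ (∑ i ∈ s, f i) = ∑ i ∈ s, co φ (f i) := by
  ext m
  rw [coeff_co, coeff_sum, coeff_sum, map_sum]
  exact Finset.sum_congr rfl fun i _ => (coeff_co _ _ _).symm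

theorem co_map_mul (φ : K →ₗ[k] k) (f : MvPolynomial σ k) (g : MvPolynomial σ K) :
    co φ (MvPolynomial.map (algebraMap k K) f * g) = f * co φ g := by
  classical
  ext m
  rw [coeff_co, coeff_mul, coeff_mul, map_sum]
  refine Finset.sum_congr rfl fun a _ => ?_
  rw [coeff_map, coeff_co, ← Algebra.smul_def, map_smul, smul_eq_mul]

theorem co_map (φ : K →ₗ[k] k) (hφ : φ 1 = 1) (f : MvPolynomial σ k) :
    co φ (MvPolynomial.map (algebraMap k K) f) = f := by
  ext m
  rw [coeff_co, coeff_map, Algebra.algebraMap_eq_smul_one, map_smul, hφ, smul_eq_mul, mul_one]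

theorem aeval_co (φ : K →ₗ[k] k) (f : MvPolynomial σ K) (x : σ → k) :
    aeval x (co φ f) = φ (aeval (fun i => algebraMap k K (x i)) f) := by
  conv_rhs => rw [f.as_sum, map_sum, map_sum]
  rw [co, map_sum]
  refine Finset.sum_congr rfl fun m _ => ?_
  rw [aeval_monomial, aeval_monomial, Algebra.algebraMap_self_apply, Algebra.algebraMap_self_apply]
  have h : (m.prod fun i e => (algebraMap k K (x i)) ^ e) = algebraMap k K (m.prod fun i e => x i ^ e) := by
    rw [Finsupp.prod, Finsupp.prod, map_prod]
    simp only [map_pow]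
  rw [h, mul_comm (coeff m f), ← Algebra.smul_def, map_smul, smul_eq_mul, mul_comm]

theorem exists_retraction : ∃ φ : K →ₗ[k] k, φ 1 = 1 := by
  obtain ⟨g, hg⟩ := LinearMap.exists_leftInverse_of_injective (Algebra.linearMap k K)
    (LinearMap.ker_eq_bot.2 (algebraMap k K).injective)
  refine ⟨g, ?_⟩
  have := LinearMap.congr_fun hg 1
  simpa using this

/-- descent of ideal membership -/
theorem mem_span_of_map {S : Set (MvPolynomial σ k)} {f : MvPolynomial σ k}
    (h : MvPolynomial.map (algebraMap k K) f ∈
      Ideal.span (MvPolynomial.map (algebraMap k K) '' S)) : f ∈ Ideal.span S := by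
  obtain ⟨φ, hφ⟩ := exists_retraction (k := k) (K := K)
  have key : ∀ g ∈ Ideal.span (MvPolynomial.map (algebraMap k K) '' S),
      ∀ a : MvPolynomial σ K, co φ (a * g) ∈ Ideal.span S := by
    intro g hg
    induction hg using Submodule.span_induction with
    | mem x hx =>
      intro a
      obtain ⟨s, hs, rfl⟩ := hx
      rw [mul_comm, co_map_mul]
      exact Ideal.mul_mem_right _ _ (Ideal.subset_span hs)
    | zero =>
      intro a
      rw [mul_zero]
      have : co φ (0 : MvPolynomial σ K) = 0 := by
        ext m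
        rw [coeff_co, coeff_zero, coeff_zero, map_zero]
      rw [this]
      exact zero_mem _
    | add x y _ _ hx hy =>
      intro a
      rw [mul_add, co_add]
      exact add_mem (hx a) (hy a)
    | smul b x _ hx =>
      intro a
      rw [smul_eq_mul, ← mul_assoc]
      exact hx (a * b)
  have := key _ h 1
  rwa [one_mul, co_map φ hφ] at this

/-- a polynomial over `K` is a combination of polynomials obtained from it by linear functionals -/
theorem mem_span_co (E : MvPolynomial σ K) {S : Set (MvPolynomial σ k)}
    (h : ∀ φ : K →ₗ[k] k, co φ E ∈ S) :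
    E ∈ Ideal.span (MvPolynomial.map (algebraMap k K) '' S) := by
  classical
  let b := Module.Basis.ofVectorSpace k K
  let s : Finset _ := E.support.biUnion fun m => (b.repr (coeff m E)).support
  have hE : E = ∑ i ∈ s, C (b i) * MvPolynomial.map (algebraMap k K) (co (b.coord i) E) := by
    ext m
    rw [coeff_sum]
    simp only [coeff_C_mul, coeff_map, coeff_co]
    by_cases hm : m ∈ E.support
    · conv_lhs => rw [← b.linearCombination_repr (coeff m E)]
      rw [Finsupp.linearCombination_apply, Finsupp.sum_of_support_subset (s := s)]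
      · refine Finset.sum_congr rfl fun i _ => ?_
        rw [Algebra.smul_def, mul_comm]
        rfl
      · intro i hi
        exact Finset.mem_biUnion.2 ⟨m, hm, hi⟩
      · intro i _
        rw [zero_smul]
    · rw [notMem_support_iff.1 hm]
      simp
  rw [hE]
  refine Ideal.sum_mem _ fun i _ => Ideal.mul_mem_left _ _ (Ideal.subset_span ⟨_, h _, rfl⟩)

end

end Pool.Agent.VF
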