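import Pool.Agent.Lib_MP_1858fb_w.Marks
import Pool.Agent.Lib_MP_1858fb_w.Van2
import Pool.Agent.Lib_MP_1858fb_w.Van6
import Pool.Agent.Lib_MP_1858fb_w.FamilyOf
import Pool.Agent.Lib_MP_1858fb_w.Base
import Pool.Agent.Lib_MP_1858fb_w.Glue

/-!
# MP_1858fb_ag, piece B3: the step of the induction
-/

namespace Pool.Agent.VF

open MvPolynomial

theorem step {N c d m : ℕ} {V : Set (Fin (N + 1) → ℂ)} (hV : LocClosed V) (hirr : Irred V)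
    (hsm : ∀ x ∈ V, SmoothAt c V x) {F0 : Fin (d + 1) → Fin (N + 1) → ℂ} (hF0 : IsCurve V F0)
    (hs : Span V F0 1) (vs : Fin m → Fin (N + 1) → ℂ)
    (hind : ∀ l l', l ≠ l' → LinearIndependent ℂ ![vs l, vs l'])
    (hpass : ∀ l, ∃ p q : ℂ, (p ≠ 0 ∨ q ≠ 0) ∧ val F0 p q = vs l)
    {v : Fin (N + 1) → ℂ} (hv : v ∈ V) :
    ∃ (d' : ℕ) (S : Fin (d' + 1) → Fin (N + 1) → ℂ), IsCurve V S ∧ Span V S 1 ∧
      (∃ p q : ℂ, (p ≠ 0 ∨ q ≠ 0) ∧ val S p q = v) ∧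
      ∀ l, ∃ p q : ℂ, (p ≠ 0 ∨ q ≠ 0) ∧ val S p q = vs l := by
  obtain ⟨d1, F1, cm, μ, hF1, hs1, hcm, hinj, hμ, hval⟩ := exists_marks hF0 hs vs hind hpass
  obtain ⟨Fam⟩ := exists_family hV hirr hsm hF1 cm hcm hinj hs1
  obtain ⟨Ch⟩ := exists_chart hV hv (hsm v hv)
  obtain ⟨y, hy, ρ, α, θ, hρ, hα, hα0, hαV, hθ, hroot⟩ := exists_base hV hirr hsm Fam hv Ch
  obtain ⟨Cy⟩ := exists_chart hV hy (hsm y hy)
  obtain ⟨d', S, hd', hS, hSv, hSm, hSG⟩ :=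
    glue hV hsm hcm Fam hv hy Ch Cy hρ hα hα0 hαV hθ hroot
  refine ⟨d', S, hS, span_one_of_sections hsm hS hSG hd',
    ⟨0, 1, Or.inr one_ne_zero, hSv⟩, fun l => ?_⟩
  obtain ⟨q, hq⟩ := hSm l
  exact exists_scale hd' (Or.inl one_ne_zero) (hμ l) (hq.trans (hval l))

end Pool.Agent.VF
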