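import Pool.Agent.Lib_MP_1858fb_w.Defs2

/-! STUBS (statements) of the analytic pieces over the complex numbers, and of the end. -/

namespace Pool.Agent.VF

open MvPolynomial

-- B1: BASE ---------------------------------------------------------------------------------
/-- An analytic disc `α` in `V` through `v`, already pulled back by `t = τ^e` and rescaled, and a
holomorphic root `θ` on the punctured disc. -/
theorem exists_base {N c d m : ℕ} {V : Set (Fin (N + 1) → ℂ)} (hV : LocClosed V)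
    (hirr : Irred V) (hsm : ∀ x ∈ V, SmoothAt c V x) {cm : Fin m → ℂ}
    {vs : Fin m → Fin (N + 1) → ℂ} (Fam : Family V cm vs d) {v : Fin (N + 1) → ℂ} (hv : v ∈ V)
    (Ch : Chart c V v) :
    ∃ y ∈ V, ∃ (ρ : ℝ) (α : ℂ → Fin (N + 1) → ℂ) (θ : ℂ → ℂ), 1 < ρ ∧
      (∀ i, DifferentiableOn ℂ (fun τ => α τ i) (Metric.ball 0 ρ)) ∧ α 0 = v ∧
      (∀ τ ∈ Metric.ball (0 : ℂ) ρ, α τ ∈ V ∧ aeval (α τ) Ch.H ≠ 0 ∧
        aeval (α τ) (Matrix.det (Matrix.of fun i j => pderiv j (Ch.Φ i))) ≠ 0) ∧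
      DifferentiableOn ℂ θ (Metric.ball 0 ρ \ {0}) ∧
      ∀ τ ∈ Metric.ball (0 : ℂ) ρ, τ ≠ 0 →
        aeval (Sum.elim y (α τ)) Fam.D ≠ 0 ∧ evT y (α τ) (θ τ) Fam.P = 0 := sorry

-- B2: GLUE ---------------------------------------------------------------------------------
/-- The gluing: a curve `S` in `V` with `S(0,1) = v` through all the marked points, with
sections that vanish at `(0 : 1)` and span at `(1 : 0)`. (With `r1 < 1 < r2 < ρ`,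
`λ = τ^(-M)`, `μ = τ^M`, `M` large.) -/
theorem glue {N c d m : ℕ} {V : Set (Fin (N + 1) → ℂ)} (hV : LocClosed V)
    (hsm : ∀ x ∈ V, SmoothAt c V x) {cm : Fin m → ℂ} (hcm : ∀ l, cm l ≠ 0)
    {vs : Fin m → Fin (N + 1) → ℂ} (Fam : Family V cm vs d) {v y : Fin (N + 1) → ℂ}
    (hv : v ∈ V) (hy : y ∈ V) (Ch : Chart c V v) (Cy : Chart c V y)
    {ρ : ℝ} {α : ℂ → Fin (N + 1) → ℂ} {θ : ℂ → ℂ} (hρ : 1 < ρ)
    (hα : ∀ i, DifferentiableOn ℂ (fun τ => α τ i) (Metric.ball 0 ρ)) (hα0 : α 0 = v)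
    (hαV : ∀ τ ∈ Metric.ball (0 : ℂ) ρ, α τ ∈ V ∧ aeval (α τ) Ch.H ≠ 0 ∧
        aeval (α τ) (Matrix.det (Matrix.of fun i j => pderiv j (Ch.Φ i))) ≠ 0)
    (hθ : DifferentiableOn ℂ θ (Metric.ball 0 ρ \ {0}))
    (hroot : ∀ τ ∈ Metric.ball (0 : ℂ) ρ, τ ≠ 0 →
        aeval (Sum.elim y (α τ)) Fam.D ≠ 0 ∧ evT y (α τ) (θ τ) Fam.P = 0) :
    ∃ (d' : ℕ) (S : Fin (d' + 1) → Fin (N + 1) → ℂ), 1 ≤ d' ∧ IsCurve V S ∧ val S 0 1 = v ∧
      (∀ l, ∃ q : ℂ, val S 1 q = vs l) ∧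
      ∀ w ∈ Tan V (val S 1 0), ∃ G : Fin (d' + 1) → Fin (N + 1) → ℂ,
        IsTangent V S G ∧ val G 0 1 = 0 ∧ val G 1 0 = w := sorry

-- B3: the step of the induction -------------------------------------------------------------
theorem step {N c d m : ℕ} {V : Set (Fin (N + 1) → ℂ)} (hV : LocClosed V) (hirr : Irred V)
    (hsm : ∀ x ∈ V, SmoothAt c V x) {F0 : Fin (d + 1) → Fin (N + 1) → ℂ} (hF0 : IsCurve V F0)
    (hs : Span V F0 1) (vs : Fin m → Fin (N + 1) → ℂ)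
    (hind : ∀ l l', l ≠ l' → LinearIndependent ℂ ![vs l, vs l'])
    (hpass : ∀ l, ∃ p q : ℂ, (p ≠ 0 ∨ q ≠ 0) ∧ val F0 p q = vs l)
    {v : Fin (N + 1) → ℂ} (hv : v ∈ V) :
    ∃ (d' : ℕ) (S : Fin (d' + 1) → Fin (N + 1) → ℂ), IsCurve V S ∧ Span V S 1 ∧
      (∃ p q : ℂ, (p ≠ 0 ∨ q ≠ 0) ∧ val S p q = v) ∧
      ∀ l, ∃ p q : ℂ, (p ≠ 0 ∨ q ≠ 0) ∧ val S p q = vs l := sorry

-- B4: the main theorem (first form) ----------------------------------------------------------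
theorem main {N c d : ℕ} (hc : c < N) {V : Set (Fin (N + 1) → ℂ)} (hV : LocClosed V)
    (hirr : Irred V) (hsm : ∀ x ∈ V, SmoothAt c V x) {F0 : Fin (d + 1) → Fin (N + 1) → ℂ}
    (hF0 : IsCurve V F0) (hvf : VeryFree V F0) {m : ℕ} (vs : Fin m → Fin (N + 1) → ℂ)
    (hvs : ∀ l, vs l ∈ V) :
    ∃ (d' : ℕ) (F : Fin (d' + 1) → Fin (N + 1) → ℂ), IsCurve V F ∧ VeryFree V F ∧
      ∀ l, ∃ p q : ℂ, (p ≠ 0 ∨ q ≠ 0) ∧ val F p q = vs l := sorry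

end Pool.Agent.VF
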