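import Pool.Agent.Lib_MP_1858fb_w.Defs2

/-! STUBS (statements) of the basic pieces on `van V`, charts and products. -/

namespace Pool.Agent.VF

open MvPolynomial

section

variable {k : Type} [Field k]

-- V1 ---------------------------------------------------------------------------------------
theorem smul_mem_of_locClosed {N : ℕ} {V : Set (Fin (N + 1) → k)} (hV : LocClosed V)
    {x : Fin (N + 1) → k} (hx : x ∈ V) {a : k} (ha : a ≠ 0) : a • x ∈ V := sorry

theorem van_homogeneousComponent [Infinite k] {N : ℕ} {V : Set (Fin (N + 1) → k)}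
    (hV : LocClosed V) {E : MvPolynomial (Fin (N + 1)) k} (hE : E ∈ van V) (n : ℕ) :
    homogeneousComponent n E ∈ van V := sorry

/-- finitely many forms that define the open part of `V` (they all vanish at `0`) -/
theorem exists_open_forms {N : ℕ} {V : Set (Fin (N + 1) → k)} (hV : LocClosed V) :
    ∃ (s : ℕ) (G : Fin s → MvPolynomial (Fin (N + 1)) k) (e : Fin s → ℕ),
      (∀ i, (G i).IsHomogeneous (e i)) ∧ (∀ i, 0 < e i) ∧
      ∀ x, x ∈ V ↔ (∀ E ∈ van V, aeval x E = 0) ∧ ∃ i, aeval x (G i) ≠ 0 := sorry

-- V2 ---------------------------------------------------------------------------------------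
theorem finrank_tan {σ : Type} [Fintype σ] {c : ℕ} {V : Set (σ → k)} {x : σ → k}
    (hx : x ∈ V) (hs : SmoothAt c V x) :
    Module.finrank k (Tan V x) + c = Fintype.card σ := sorry

theorem exists_chart {N c : ℕ} {V : Set (Fin (N + 1) → k)} (hV : LocClosed V)
    {x : Fin (N + 1) → k} (hx : x ∈ V) (hs : SmoothAt c V x) : Nonempty (Chart c V x) := sorry

/-- a tangent vector whose free coordinates vanish is zero -/
theorem Chart.tan_ext {N c : ℕ} {V : Set (Fin (N + 1) → k)} {x : Fin (N + 1) → k}
    (Ch : Chart c V x) {w : Fin (N + 1) → k} (hw : w ∈ Tan V x) (h0 : ∀ i ∈ Ch.A, w i = 0) :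
    w = 0 := sorry

-- V3 ---------------------------------------------------------------------------------------
theorem van_prodSet {σ τ : Type} (V : Set (σ → k)) (W : Set (τ → k)) :
    van (prodSet V W) = Ideal.map (rename Sum.inl : _ →ₐ[k] MvPolynomial (σ ⊕ τ) k) (van V) ⊔
      Ideal.map (rename Sum.inr : _ →ₐ[k] MvPolynomial (σ ⊕ τ) k) (van W) := sorry

theorem irred_prodSet {σ τ : Type} {V : Set (σ → k)} {W : Set (τ → k)} (hV : Irred V)
    (hW : Irred W) : Irred (prodSet V W) := sorry

theorem smoothAt_prodSet {σ τ : Type} [Fintype σ] [Fintype τ] {c c' : ℕ} {V : Set (σ → k)}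
    {W : Set (τ → k)} {x : σ → k} {y : τ → k} (hx : SmoothAt c V x) (hy : SmoothAt c' W y) :
    SmoothAt (c + c') (prodSet V W) (Sum.elim x y) := sorry

-- V4 ---------------------------------------------------------------------------------------
/-- very free (pairs of points, modulo the radial direction) implies that the tuples of forms
of degree `d - 1` tangent to the cone span (uses `gl_2` for the radial directions) -/
theorem span_one_of_veryFree [CharZero k] {N c d : ℕ} (hc : c < N)
    {V : Set (Fin (N + 1) → k)} (hV : LocClosed V) (hsm : ∀ x ∈ V, SmoothAt c V x)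
    {F : Fin (d + 1) → Fin (N + 1) → k} (hF : IsCurve V F) (hvf : VeryFree V F) :
    Span V F 1 := sorry

theorem veryFree_of_span_one {N d : ℕ} {V : Set (Fin (N + 1) → k)}
    {F : Fin (d + 1) → Fin (N + 1) → k} (h : Span V F 1) : VeryFree V F := sorry

-- V5 ---------------------------------------------------------------------------------------
/-- linear change of the parameter -/
theorem exists_reparam {N d : ℕ} {V : Set (Fin (N + 1) → k)}
    {F : Fin (d + 1) → Fin (N + 1) → k} (hF : IsCurve V F) {e : ℕ} (hs : Span V F e)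
    (a b a' b' : k) (hdet : a * b' - a' * b ≠ 0) :
    ∃ F' : Fin (d + 1) → Fin (N + 1) → k, IsCurve V F' ∧ Span V F' e ∧
      ∀ p q : k, val F' p q = val F (a * p + b * q) (a' * p + b' * q) := sorry

/-- composition with the cover `(p : q) ↦ (p^e : q^e)` -/
theorem exists_cover {N d : ℕ} {V : Set (Fin (N + 1) → k)}
    {F : Fin (d + 1) → Fin (N + 1) → k} (hF : IsCurve V F) (hs : Span V F 1)
    (e : ℕ) (he : 0 < e) :
    ∃ (d' : ℕ) (F' : Fin (d' + 1) → Fin (N + 1) → k), IsCurve V F' ∧ Span V F' e ∧
      ∀ p q : k, val F' p q = val F (p ^ e) (q ^ e) := sorry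

-- V6 ---------------------------------------------------------------------------------------
/-- sections of degree `d` that vanish at `(0 : 1)` and span at `(1 : 0)` give `Span V F 1` -/
theorem span_one_of_sections [IsAlgClosed k] {N c d : ℕ} {V : Set (Fin (N + 1) → k)}
    (hsm : ∀ x ∈ V, SmoothAt c V x) {F : Fin (d + 1) → Fin (N + 1) → k} (hF : IsCurve V F)
    (hG : ∀ w ∈ Tan V (val F 1 0), ∃ G : Fin (d + 1) → Fin (N + 1) → k,
      IsTangent V F G ∧ val G 0 1 = 0 ∧ val G 1 0 = w) : 1 ≤ d → Span V F 1 := sorry

-- V7 ---------------------------------------------------------------------------------------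
/-- The generic deformation with `m` marks fixed (from the formal deformation and INJ). -/
theorem exists_generic_deformation [IsAlgClosed k] {N c d m : ℕ}
    {V : Set (Fin (N + 1) → k)} (hV : LocClosed V) (hirr : Irred V)
    (hsm : ∀ x ∈ V, SmoothAt c V x) {F0 : Fin (d + 1) → Fin (N + 1) → k} (hF0 : IsCurve V F0)
    (cm : Fin m → k) (hcm : ∀ l, cm l ≠ 0) (hinj : Function.Injective cm)
    (hspan : Span V F0 (m + 1)) :
    ∃ (r : ℕ) (F : Fin (d + 1) → Fin (N + 1) → MvPowerSeries (Fin r) k),
      (∀ j i, MvPowerSeries.constantCoeff (F j i) = F0 j i) ∧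
      (∀ E ∈ van V, ∀ p q : MvPowerSeries (Fin r) k, aeval (val F p q) E = 0) ∧
      (∀ l i, val F 1 (MvPowerSeries.C (cm l)) i = MvPowerSeries.C (val F0 1 (cm l) i)) ∧
      ∀ g : MvPolynomial (Fin (N + 1) ⊕ Fin (N + 1)) k,
        aeval (Sum.elim (F 0) (F (Fin.last d))) g = 0 → g ∈ van (prodSet V V) := sorry

-- V8 ---------------------------------------------------------------------------------------
/-- The family (from V7, `generic_family` and the Nullstellensatz certificates). -/
theorem exists_family [IsAlgClosed k] [CharZero k] {N c d m : ℕ}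
    {V : Set (Fin (N + 1) → k)} (hV : LocClosed V) (hirr : Irred V)
    (hsm : ∀ x ∈ V, SmoothAt c V x) {F0 : Fin (d + 1) → Fin (N + 1) → k} (hF0 : IsCurve V F0)
    (cm : Fin m → k) (hcm : ∀ l, cm l ≠ 0) (hinj : Function.Injective cm)
    (hspan : Span V F0 (m + 1)) :
    Nonempty (Family V cm (fun l => val F0 1 (cm l)) d) := sorry

end

end Pool.Agent.VF
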