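import Pool.Agent.Lib_MP_1858fb_w.GlueDefs

set_option autoImplicit false

/-!
# Piece P11 of GLUE (helper6): tuples of forms of tangent Laurent vectors are tangent
-/

namespace Pool.Agent.VF

open MvPolynomial Pool.Agent.Lib_MP_1858fb_w

namespace TanF

section scale

variable {k : Type} [Field k] {σ : Type}

/-- The polynomial `E(a x)`. -/
noncomputable def scalePol (a : k) (E : MvPolynomial σ k) : MvPolynomial σ k :=
  aeval (fun i => C a * X i : σ → MvPolynomial σ k) E

theorem aeval_scalePol {R : Type} [CommRing R] [Algebra k R] (a : k) (E : MvPolynomial σ k)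
    (x : σ → R) : aeval x (scalePol a E) = aeval (a • x) E := by
  unfold scalePol
  induction E using MvPolynomial.induction_on with
  | C b => simp [algHom_C]
  | add p q hp hq => rw [map_add, map_add, map_add, hp, hq]
  | mul_X p i hp =>
    have h1 : (a • x) i = algebraMap k R a * x i := by
      rw [Pi.smul_apply, Algebra.smul_def]
    rw [map_mul, map_mul, map_mul, hp, aeval_X, aeval_X, map_mul, aeval_X, algHom_C, h1]

theorem pderiv_scalePol (a : k) (E : MvPolynomial σ k) (j : σ) :
    pderiv j (scalePol a E) = C a * scalePol a (pderiv j E) := by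
  classical
  unfold scalePol
  induction E using MvPolynomial.induction_on with
  | C b => simp [algHom_C]
  | add p q hp hq => rw [map_add, map_add, map_add, map_add, hp, hq, mul_add]
  | mul_X p i hp =>
    have e1 : pderiv j (C a * X i : MvPolynomial σ k) = C a * pderiv j (X i) := by
      rw [pderiv_mul, pderiv_C, zero_mul, zero_add]
    have e2 : (aeval (fun i => C a * X i : σ → MvPolynomial σ k)) (pderiv j (p * X i)) =
        aeval (fun i => C a * X i : σ → MvPolynomial σ k) (pderiv j p) * (C a * X i) +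
          aeval (fun i => C a * X i : σ → MvPolynomial σ k) p *
            aeval (fun i => C a * X i : σ → MvPolynomial σ k) (pderiv j (X i : MvPolynomial σ k)) := by
      rw [pderiv_mul, map_add, map_mul, map_mul, aeval_X]
    rw [map_mul, aeval_X, pderiv_mul, hp, e1, e2]
    by_cases h : j = i
    · subst h
      rw [pderiv_X_self, map_one]
      ring
    · rw [pderiv_X_of_ne (Ne.symm h), map_zero]
      ring

theorem dif_smul_smul [Fintype σ] {R : Type} [CommRing R] [Algebra k R] (a : k)
    (E : MvPolynomial σ k) (x w : σ → R) : dif E (a • x) (a • w) = dif (scalePol a E) x w := by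
  unfold dif
  refine Finset.sum_congr rfl fun j _ => ?_
  have h1 : (a • w) j = algebraMap k R a * w j := by
    rw [Pi.smul_apply, Algebra.smul_def]
  rw [pderiv_scalePol, map_mul, aeval_scalePol, algHom_C, h1]
  ring

theorem scalePol_mem {V : Set (σ → k)} {a : k} (hsc : ∀ x ∈ V, a • x ∈ V)
    {E : MvPolynomial σ k} (hE : E ∈ van V) : scalePol a E ∈ van V := fun x hx => by
  rw [aeval_scalePol]
  exact hE _ (hsc x hx)

theorem map_dif [Fintype σ] {R R' : Type} [CommRing R] [Algebra k R] [CommRing R'] [Algebra k R']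
    (φ : R →ₐ[k] R') (E : MvPolynomial σ k) (x w : σ → R) :
    φ (dif E x w) = dif E (fun i => φ (x i)) (fun i => φ (w i)) := by
  unfold dif
  rw [map_sum]
  refine Finset.sum_congr rfl fun j _ => ?_
  rw [map_mul]
  congr 1
  exact MvPolynomial.comp_aeval_apply (φ := φ) x _

end scale

/-- The differential along tuples of forms is a polynomial in a parameter. -/
theorem exists_poly_dif {σ : Type} [Fintype σ] {d e : ℕ} (E : MvPolynomial σ ℂ)
    (F : Fin (d + 1) → σ → ℂ) (G : Fin (e + 1) → σ → ℂ) (P Q : Polynomial ℂ) :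
    ∃ R : Polynomial ℂ, ∀ x : ℂ, R.eval x =
      dif E (val F (P.eval x) (Q.eval x)) (val G (P.eval x) (Q.eval x)) := by
  refine ⟨dif E (val (fun j i => Polynomial.C (F j i)) P Q)
    (val (fun j i => Polynomial.C (G j i)) P Q), fun x => ?_⟩
  have hv : ∀ {n : ℕ} (H : Fin (n + 1) → σ → ℂ) (i : σ),
      (Polynomial.aeval x : Polynomial ℂ →ₐ[ℂ] ℂ) (val (fun j i => Polynomial.C (H j i)) P Q i) =
        val H (P.eval x) (Q.eval x) i := by
    intro n H i
    unfold val
    rw [map_sum]
    refine Finset.sum_congr rfl fun j _ => ?_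
    rw [map_mul, map_mul, map_pow, map_pow, Polynomial.aeval_C]
    rfl
  have h1 := map_dif (Polynomial.aeval x : Polynomial ℂ →ₐ[ℂ] ℂ) E
    (val (fun j i => Polynomial.C (F j i)) P Q) (val (fun j i => Polynomial.C (G j i)) P Q)
  simp only [hv] at h1
  exact h1

theorem infinite_circle {q : ℂ} (hq : q ≠ 0) : {p : ℂ | ‖p‖ = ‖q‖}.Infinite := by
  have h1 : IsPreconnected (Metric.sphere (0 : ℂ) ‖q‖) := by
    refine isPreconnected_sphere ?_ 0 ‖q‖
    rw [Complex.rank_real_complex]
    norm_num
  have h2 : (Metric.sphere (0 : ℂ) ‖q‖).Nontrivial := by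
    refine ⟨q, by simp, -q, by simp, fun h => hq ?_⟩
    have : (2 : ℂ) * q = 0 := by linear_combination h
    simpa using this
  have h3 := h1.infinite_of_nontrivial h2
  refine h3.mono fun p hp => ?_
  rwa [mem_sphere_zero_iff_norm] at hp

end TanF

open TanF in
/-- tuples of forms of tangent Laurent vectors are tangent -/
theorem isTangent_forms {N : ℕ} {V : Set (Fin (N + 1) → ℂ)}
    (hsc : ∀ a : ℂ, a ≠ 0 → ∀ x ∈ V, a • x ∈ V) {ω : Wt} (D : ℕ) (s g : Fin (N + 1) → W ω)
    (hs : ∀ i, W.Supp (Set.Icc (-(D : ℤ)) 0) (s i))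
    (hg : ∀ i, W.Supp (Set.Icc (-(D : ℤ)) 0) (g i))
    (h : ∀ t : ℂ, ‖t‖ = 1 → ∀ E ∈ van V,
      dif E (fun i => W.val t (s i)) (fun i => W.val t (g i)) = 0) :
    IsTangent V (forms D s) (forms D g) := by
  intro p q E hE
  -- on the circle
  have key : ∀ p q : ℂ, q ≠ 0 → ‖p‖ = ‖q‖ →
      dif E (val (forms D s) p q) (val (forms D g) p q) = 0 := by
    intro p q hq hpq
    have hp : p ≠ 0 := by
      rw [← norm_pos_iff, hpq]
      exact norm_pos_iff.2 hq
    have ht : p / q ≠ 0 := div_ne_zero hp hq
    have ht1 : ‖p / q‖ = 1 := by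
      rw [norm_div, hpq]
      exact div_self (norm_ne_zero_iff.2 hq)
    have hval : ∀ f : Fin (N + 1) → W ω, (∀ i, W.Supp (Set.Icc (-(D : ℤ)) 0) (f i)) →
        val (forms D f) p q = (q ^ D * (p / q) ^ D) • fun i => W.val (p / q) (f i) := by
      intro f hf
      have h1 := val_smul_smul (forms D f) q (p / q) 1
      rw [mul_div_cancel₀ _ hq, mul_one, val_forms_ne D f hf ht] at h1
      rw [h1]
      funext i
      simp only [Pi.smul_apply, smul_eq_mul]
      ring
    rw [hval s hs, hval g hg, dif_smul_smul]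
    refine h _ ht1 _ (scalePol_mem (fun x hx => hsc _ ?_ x hx) hE)
    exact mul_ne_zero (pow_ne_zero _ hq) (pow_ne_zero _ ht)
  -- all `p`, and `q ≠ 0`
  have key2 : ∀ p q : ℂ, q ≠ 0 → dif E (val (forms D s) p q) (val (forms D g) p q) = 0 := by
    intro p q hq
    obtain ⟨R, hR⟩ := exists_poly_dif E (forms D s) (forms D g) Polynomial.X (Polynomial.C q)
    simp only [Polynomial.eval_X, Polynomial.eval_C] at hR
    have h0 : R = 0 := Polynomial.eq_zero_of_infinite_isRoot R
      ((infinite_circle hq).mono fun x hx => by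
        show R.eval x = 0
        rw [hR, key x q hq hx])
    rw [← hR, h0, Polynomial.eval_zero]
  obtain ⟨R, hR⟩ := exists_poly_dif E (forms D s) (forms D g) (Polynomial.C p) Polynomial.X
  simp only [Polynomial.eval_X, Polynomial.eval_C] at hR
  have h0 : R = 0 := Polynomial.eq_zero_of_infinite_isRoot R
    ((Set.Finite.infinite_compl (Set.finite_singleton (0 : ℂ))).mono fun x hx => by
      show R.eval x = 0
      rw [hR, key2 p x hx])
  rw [← hR, h0, Polynomial.eval_zero]

/-- linear combinations of tangent tuples -/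
theorem exists_tangent_comb {N d e : ℕ} {V : Set (Fin (N + 1) → ℂ)}
    {F : Fin (d + 1) → Fin (N + 1) → ℂ} {κ : Type} [Fintype κ]
    (G : κ → Fin (e + 1) → Fin (N + 1) → ℂ) (hG : ∀ l, IsTangent V F (G l)) (a : κ → ℂ) :
    ∃ G' : Fin (e + 1) → Fin (N + 1) → ℂ, IsTangent V F G' ∧
      ∀ p q : ℂ, val G' p q = ∑ l, a l • val (G l) p q := by
  have hval : ∀ p q : ℂ, val (fun j i => ∑ l, a l * G l j i : Fin (e + 1) → Fin (N + 1) → ℂ) p q =
      ∑ l, a l • val (G l) p q := by
    intro p q
    funext i
    rw [Finset.sum_apply]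
    simp only [Pi.smul_apply, smul_eq_mul, val]
    simp only [Finset.mul_sum, Finset.sum_mul]
    rw [Finset.sum_comm]
    refine Finset.sum_congr rfl fun l _ => Finset.sum_congr rfl fun j _ => ?_
    ring
  refine ⟨fun j i => ∑ l, a l * G l j i, fun p q => ?_, hval⟩
  rw [hval]
  exact Submodule.sum_mem _ fun l _ => Submodule.smul_mem _ _ (hG l p q)

end Pool.Agent.VF
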