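import Pool.Agent.Lib_MP_1858fb_w.Defs2

/-!
# MP_1858fb_ag, piece V5: change of the parameter of a curve
-/

namespace Pool.Agent.VF

section

variable {k : Type} [Field k]

/-- `f` is a binary form of degree `n` -/
private def FormN (n : ℕ) (f : k → k → k) : Prop :=
  ∃ c : ℕ → k, ∀ p q, f p q = ∑ j ∈ Finset.range (n + 1), c j * (p ^ (n - j) * q ^ j)

private theorem FormN.zero (n : ℕ) : FormN n (fun _ _ : k => (0 : k)) :=
  ⟨fun _ => 0, fun p q => by simp⟩

private theorem FormN.add {n : ℕ} {f g : k → k → k} (hf : FormN n f) (hg : FormN n g) :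
    FormN n (fun p q => f p q + g p q) := by
  obtain ⟨c, hc⟩ := hf
  obtain ⟨c', hc'⟩ := hg
  refine ⟨fun j => c j + c' j, fun p q => ?_⟩
  beta_reduce
  rw [hc, hc', ← Finset.sum_add_distrib]
  exact Finset.sum_congr rfl fun j _ => by ring

private theorem FormN.smul {n : ℕ} {f : k → k → k} (a : k) (hf : FormN n f) :
    FormN n (fun p q => a * f p q) := by
  obtain ⟨c, hc⟩ := hf
  refine ⟨fun j => a * c j, fun p q => ?_⟩
  beta_reduce
  rw [hc, Finset.mul_sum]
  exact Finset.sum_congr rfl fun j _ => by ring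

private theorem FormN.sum {ι : Type} {n : ℕ} {f : ι → k → k → k} (s : Finset ι)
    (h : ∀ i ∈ s, FormN n (f i)) : FormN n (fun p q => ∑ i ∈ s, f i p q) := by
  classical
  induction s using Finset.induction_on with
  | empty => simpa using FormN.zero (k := k) n
  | insert a s ha ih =>
    simp only [Finset.sum_insert ha]
    exact FormN.add (h a (Finset.mem_insert_self a s))
      (ih fun i hi => h i (Finset.mem_insert_of_mem hi))

private theorem FormN.mono (n : ℕ) {i : ℕ} (hi : i ≤ n) :
    FormN n (fun p q : k => p ^ (n - i) * q ^ i) := by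
  refine ⟨fun j => if j = i then 1 else 0, fun p q => ?_⟩
  rw [Finset.sum_eq_single i]
  · simp
  · intro j _ hj
    simp [hj]
  · intro h
    exact absurd (Finset.mem_range.2 (by omega)) h

private theorem FormN.mulP {n : ℕ} {f : k → k → k} (hf : FormN n f) :
    FormN (n + 1) (fun p q => p * f p q) := by
  obtain ⟨c, hc⟩ := hf
  have h : (fun p q : k => p * f p q) =
      fun p q => ∑ j ∈ Finset.range (n + 1), c j * (p ^ (n + 1 - j) * q ^ j) := by
    funext p q
    rw [hc, Finset.mul_sum]
    refine Finset.sum_congr rfl fun j hj => ?_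
    have : n + 1 - j = (n - j) + 1 := by
      have := Finset.mem_range.1 hj
      omega
    rw [this, pow_succ]
    ring
  rw [h]
  exact FormN.sum _ fun j hj => FormN.smul _
    (FormN.mono (n + 1) (by have := Finset.mem_range.1 hj; omega))

private theorem FormN.mulQ {n : ℕ} {f : k → k → k} (hf : FormN n f) :
    FormN (n + 1) (fun p q => q * f p q) := by
  obtain ⟨c, hc⟩ := hf
  have h : (fun p q : k => q * f p q) =
      fun p q => ∑ j ∈ Finset.range (n + 1), c j * (p ^ (n + 1 - (j + 1)) * q ^ (j + 1)) := by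
    funext p q
    rw [hc, Finset.mul_sum]
    refine Finset.sum_congr rfl fun j hj => ?_
    have : n + 1 - (j + 1) = n - j := by omega
    rw [this, pow_succ]
    ring
  rw [h]
  exact FormN.sum _ fun j hj => FormN.smul _
    (FormN.mono (n + 1) (by have := Finset.mem_range.1 hj; omega))

private theorem FormN.linear {n : ℕ} {f : k → k → k} (a b : k) (hf : FormN n f) :
    FormN (n + 1) (fun p q => (a * p + b * q) * f p q) := by
  have h : (fun p q : k => (a * p + b * q) * f p q) =
      fun p q => a * (p * f p q) + b * (q * f p q) := by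
    funext p q
    ring
  rw [h]
  exact FormN.add (FormN.smul a hf.mulP) (FormN.smul b hf.mulQ)

private theorem FormN.powlin (a b a' b' : k) (i j : ℕ) :
    FormN (i + j) (fun p q => (a * p + b * q) ^ i * (a' * p + b' * q) ^ j) := by
  induction i with
  | zero =>
    induction j with
    | zero =>
      refine ⟨fun _ => 1, fun p q => ?_⟩
      simp
    | succ j ih =>
      have h := FormN.linear a' b' ih
      refine h.imp fun c hc p q => ?_
      rw [← Nat.add_assoc, ← hc p q]
      ring
  | succ i ih =>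
    have h := FormN.linear a b ih
    rw [show i + 1 + j = i + j + 1 by omega]
    refine h.imp fun c hc p q => ?_
    rw [← hc p q]
    ring

private theorem exists_val_of_form {κ : Type} (n : ℕ) (φ : k → k → κ → k)
    (h : ∀ i, FormN n (fun p q => φ p q i)) :
    ∃ F : Fin (n + 1) → κ → k, ∀ p q, val F p q = φ p q := by
  choose c hc using h
  refine ⟨fun j i => c i j, fun p q => ?_⟩
  funext i
  have h := hc i p q
  beta_reduce at h
  rw [h, Finset.sum_range]
  rfl

private theorem exists_linear {κ : Type} {d : ℕ} (F : Fin (d + 1) → κ → k) (a b a' b' : k) :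
    ∃ F' : Fin (d + 1) → κ → k,
      ∀ p q, val F' p q = val F (a * p + b * q) (a' * p + b' * q) := by
  refine exists_val_of_form d _ fun i => ?_
  have h : (fun p q : k => val F (a * p + b * q) (a' * p + b' * q) i) =
      fun p q => ∑ j : Fin (d + 1), F j i *
        ((a * p + b * q) ^ (d - (j : ℕ)) * (a' * p + b' * q) ^ (j : ℕ)) := rfl
  rw [h]
  refine FormN.sum _ fun j _ => FormN.smul _ ?_
  have h2 := FormN.powlin a b a' b' (d - (j : ℕ)) (j : ℕ)
  rwa [Nat.sub_add_cancel (Nat.lt_succ_iff.1 j.2)] at h2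

private theorem exists_power {κ : Type} {d : ℕ} (F : Fin (d + 1) → κ → k) (e : ℕ) :
    ∃ F' : Fin (d * e + 1) → κ → k, ∀ p q, val F' p q = val F (p ^ e) (q ^ e) := by
  refine exists_val_of_form (d * e) _ fun i => ?_
  have h : (fun p q : k => val F (p ^ e) (q ^ e) i) =
      fun p q => ∑ j : Fin (d + 1), F j i *
        (p ^ (d * e - (j : ℕ) * e) * q ^ ((j : ℕ) * e)) := by
    funext p q
    unfold val
    refine Finset.sum_congr rfl fun j _ => ?_
    rw [← pow_mul, ← pow_mul, ← Nat.sub_mul, Nat.mul_comm e, Nat.mul_comm e]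
  rw [h]
  exact FormN.sum _ fun j _ => FormN.smul _
    (FormN.mono (d * e) (Nat.mul_le_mul_right e (Nat.lt_succ_iff.1 j.2)))

/-- linear change of the parameter -/
theorem exists_reparam {N d : ℕ} {V : Set (Fin (N + 1) → k)}
    {F : Fin (d + 1) → Fin (N + 1) → k} (hF : IsCurve V F) {e : ℕ} (hs : Span V F e)
    (a b a' b' : k) (hdet : a * b' - a' * b ≠ 0) :
    ∃ F' : Fin (d + 1) → Fin (N + 1) → k, IsCurve V F' ∧ Span V F' e ∧
      ∀ p q : k, val F' p q = val F (a * p + b * q) (a' * p + b' * q) := by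
  obtain ⟨F', hF'⟩ := exists_linear F a b a' b'
  have hne : ∀ p q : k, (p ≠ 0 ∨ q ≠ 0) → (a * p + b * q ≠ 0 ∨ a' * p + b' * q ≠ 0) := by
    intro p q hpq
    by_contra hcon
    push Not at hcon
    obtain ⟨h1, h2⟩ := hcon
    have h3 : (a * b' - a' * b) * p = 0 := by
      linear_combination b' * h1 - b * h2
    have h4 : (a * b' - a' * b) * q = 0 := by
      linear_combination a * h2 - a' * h1
    rcases hpq with hp | hq
    · exact hp ((mul_eq_zero.1 h3).resolve_left hdet)
    · exact hq ((mul_eq_zero.1 h4).resolve_left hdet)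
  refine ⟨F', fun p q hpq => ?_, ⟨hs.1, fun p q hpq w hw => ?_⟩, hF'⟩
  · rw [hF']
    exact hF _ _ (hne p q hpq)
  · rw [hF'] at hw
    obtain ⟨G, hG, hGw⟩ := hs.2 _ _ (hne p q hpq) w hw
    obtain ⟨G', hG'⟩ := exists_linear G a b a' b'
    refine ⟨G', fun p' q' => ?_, ?_⟩
    · rw [hG', hF']
      exact hG _ _
    · rw [hG', hGw]

/-- composition with the cover `(p : q) ↦ (p^e : q^e)` -/
theorem exists_cover {N d : ℕ} {V : Set (Fin (N + 1) → k)}
    {F : Fin (d + 1) → Fin (N + 1) → k} (hF : IsCurve V F) (hs : Span V F 1)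
    (e : ℕ) (he : 0 < e) :
    ∃ (d' : ℕ) (F' : Fin (d' + 1) → Fin (N + 1) → k), IsCurve V F' ∧ Span V F' e ∧
      ∀ p q : k, val F' p q = val F (p ^ e) (q ^ e) := by
  obtain ⟨F', hF'⟩ := exists_power F e
  have hne : ∀ p q : k, (p ≠ 0 ∨ q ≠ 0) → (p ^ e ≠ 0 ∨ q ^ e ≠ 0) := by
    intro p q hpq
    exact hpq.imp (pow_ne_zero e) (pow_ne_zero e)
  refine ⟨d * e, F', fun p q hpq => ?_,
    ⟨Nat.le_mul_of_pos_left e hs.1, fun p q hpq w hw => ?_⟩, hF'⟩
  · rw [hF']
    exact hF _ _ (hne p q hpq)
  · rw [hF'] at hw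
    obtain ⟨G, hG, hGw⟩ := hs.2 _ _ (hne p q hpq) w hw
    obtain ⟨G', hG'⟩ := exists_power G e
    have hdeg : (d - 1) * e = d * e - e := by rw [Nat.sub_mul, Nat.one_mul]
    rw [← hdeg]
    refine ⟨G', fun p' q' => ?_, ?_⟩
    · rw [hG', hF']
      exact hG _ _
    · rw [hG', hGw]

end

end Pool.Agent.VF
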