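import Pool.Agent.Lib_MP_1858fb_w.Defs2
import Pool.Agent.Lib_MP_1858fb_w.Inj2

/-!
# A formal deformation with bijective differential is generic
-/

namespace Pool.Agent.VF

open MvPolynomial

variable {k : Type} [Field k]

lemma mem_van {σ : Type} {U : Set (σ → k)} {E : MvPolynomial σ k} :
    E ∈ van U ↔ ∀ x ∈ U, aeval x E = 0 := Iff.rfl

lemma van_isPrime {σ : Type} {U : Set (σ → k)} (h : Irred U) : (van U).IsPrime := by
  constructor
  · intro htop
    obtain ⟨x, hx⟩ := h.1
    have h1 : (1 : MvPolynomial σ k) ∈ van U := by rw [htop]; trivial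
    have h2 := h1 x hx
    rw [map_one] at h2
    exact one_ne_zero h2
  · intro E G hEG
    exact h.2 E G hEG

/-- A parametrisation by formal power series whose linear part is a basis of the tangent space
is generic: the polynomials that vanish at it vanish on `U`. -/
theorem mem_van_of_formal {σ : Type} [Fintype σ] {U : Set (σ → k)} (hirr : Irred U) {v : σ → k}
    (hv : v ∈ U) {r : ℕ} (b : Module.Basis (Fin r) k (Tan U v))
    (Ψ : σ → MvPowerSeries (Fin r) k) (h0 : ∀ l, MvPowerSeries.constantCoeff (Ψ l) = v l)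
    (h1 : ∀ j l, MvPowerSeries.coeff (Finsupp.single j 1) (Ψ l) = (b j : σ → k) l)
    (hI : ∀ E ∈ van U, aeval Ψ E = 0) (g : MvPolynomial σ k) (hg : aeval Ψ g = 0) :
    g ∈ van U := by
  classical
  have _ := van_isPrime hirr
  -- linear functionals dual to the basis
  obtain ⟨P, hP⟩ := (Tan U v).exists_isCompl
  let pr : (σ → k) →ₗ[k] Tan U v := Submodule.projectionOnto _ _ hP
  have hpr : ∀ w : Tan U v, pr w = w := fun w => Submodule.projectionOnto_apply_left hP w
  let ℓ : Fin r → (σ → k) →ₗ[k] k := fun i => (b.coord i).comp pr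
  have hℓ : ∀ i j, ℓ i (b j : σ → k) = if j = i then 1 else 0 := by
    intro i j
    simp only [ℓ, LinearMap.comp_apply, hpr, Module.Basis.coord_apply, Module.Basis.repr_self]
    rw [Finsupp.single_apply]
  have hℓsum : ∀ i (w : σ → k), ℓ i w = ∑ l, ℓ i (Pi.single l 1) * w l := by
    intro i w
    conv_lhs => rw [pi_eq_sum_univ' w]
    rw [map_sum]
    refine Finset.sum_congr rfl fun l _ => ?_
    rw [map_smul, smul_eq_mul, mul_comm]
  let x : Fin r → MvPolynomial σ k := fun i => ∑ l, C (ℓ i (Pi.single l 1)) * (X l - C (v l))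
  have hxv : ∀ i, eval v (x i) = 0 := by
    intro i
    simp [x, map_sum]
  have hgrad : ∀ i, grad v (x i) = fun l => ℓ i (Pi.single l 1) := by
    intro i
    funext l
    show eval v (pderiv l (x i)) = _
    simp only [x, map_sum]
    rw [Finset.sum_eq_single l]
    · simp [pderiv_mul, pderiv_X]
    · intro l' _ hl'
      rw [pderiv_mul, pderiv_C, zero_mul, zero_add, map_sub, pderiv_C, sub_zero, pderiv_X,
        Pi.single_eq_of_ne hl']
      simp
    · intro h; exact absurd (Finset.mem_univ _) h
  have hspan : Submodule.span k (Set.range (fun i => grad v (x i)) ∪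
      grad v '' (van U : Set (MvPolynomial σ k))) = ⊤ := by
    by_contra hne
    obtain ⟨f, hf0, hf⟩ := Submodule.exists_le_ker_of_lt_top _ (lt_top_iff_ne_top.mpr hne)
    apply hf0
    -- the vector of `f`
    set w : σ → k := fun l => f (Pi.single l 1) with hw
    have hfw : ∀ u : σ → k, f u = ∑ l, u l * w l := by
      intro u
      conv_lhs => rw [pi_eq_sum_univ' u]
      rw [map_sum]
      refine Finset.sum_congr rfl fun l _ => ?_
      rw [map_smul, smul_eq_mul]
    have hwT : w ∈ Tan U v := by
      intro E hE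
      have h2 : grad v E ∈ Submodule.span k (Set.range (fun i => grad v (x i)) ∪
          grad v '' (van U : Set (MvPolynomial σ k))) :=
        Submodule.subset_span (Or.inr ⟨E, hE, rfl⟩)
      have h3 := hf h2
      rw [LinearMap.mem_ker, hfw] at h3
      exact h3
    have hwℓ : ∀ i, ℓ i w = 0 := by
      intro i
      have h2 : grad v (x i) ∈ Submodule.span k (Set.range (fun i => grad v (x i)) ∪
          grad v '' (van U : Set (MvPolynomial σ k))) :=
        Submodule.subset_span (Or.inl ⟨i, rfl⟩)
      have h3 := hf h2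
      rw [LinearMap.mem_ker, hfw, hgrad] at h3
      rw [hℓsum]
      exact h3
    have hw0 : (⟨w, hwT⟩ : Tan U v) = 0 := by
      apply b.ext_elem
      intro i
      have h2 := hwℓ i
      simp only [ℓ, LinearMap.comp_apply] at h2
      have h3 : pr w = ⟨w, hwT⟩ := hpr ⟨w, hwT⟩
      rw [h3, Module.Basis.coord_apply] at h2
      rw [h2, map_zero, Finsupp.zero_apply]
    have hw0' : w = 0 := congrArg Subtype.val hw0
    ext l
    have : f (Pi.single l 1) = 0 := congrFun hw0' l
    simpa using this
  refine mem_of_vanish_formal (van U) v (fun E hE => by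
      have := hE v hv
      rwa [aeval_eq_eval] at this) x hxv
    (gen_of_grad (van U) v (fun E hE => by
      have := hE v hv
      rwa [aeval_eq_eval] at this) x hxv hspan) Ψ h0 ?_ hI g hg
  intro i s hs
  obtain ⟨j, rfl⟩ : ∃ j, s = Finsupp.single j 1 := by
    have h2 : s ≠ 0 := by
      rintro rfl
      rw [map_zero] at hs
      exact zero_ne_one hs
    obtain ⟨j, hj⟩ := Finsupp.ne_iff.mp h2
    rw [Finsupp.coe_zero, Pi.zero_apply] at hj
    refine ⟨j, ?_⟩
    have h3 : s = Finsupp.single j (s j) + s.erase j := (Finsupp.single_add_erase j s).symm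
    have h4 : s.degree = s j + (s.erase j).degree := by
      conv_lhs => rw [h3]
      rw [map_add, Finsupp.degree_single]
    have h5 : s.erase j = 0 := (Finsupp.degree_eq_zero_iff _).mp (by omega)
    have h6 : s j = 1 := by omega
    rw [h5, add_zero, h6] at h3
    exact h3
  have e1 : aeval Ψ (x i) = ∑ l, (algebraMap k (MvPowerSeries (Fin r) k)) (ℓ i (Pi.single l 1)) *
      (Ψ l - algebraMap k (MvPowerSeries (Fin r) k) (v l)) := by
    simp [x, map_sum]
  rw [e1, map_sum]
  have e2 : ∀ l, MvPowerSeries.coeff (Finsupp.single j 1)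
      ((algebraMap k (MvPowerSeries (Fin r) k)) (ℓ i (Pi.single l 1)) *
        (Ψ l - algebraMap k (MvPowerSeries (Fin r) k) (v l)))
      = ℓ i (Pi.single l 1) * (b j : σ → k) l := by
    intro l
    rw [← Algebra.smul_def, map_smul, smul_eq_mul, map_sub, h1, MvPowerSeries.algebraMap_apply]
    simp [MvPowerSeries.coeff_C, Finsupp.single_eq_zero]
  simp only [e2]
  rw [← hℓsum, hℓ, MvPowerSeries.coeff_X]
  congr 1
  rw [eq_iff_iff]
  constructor
  · rintro rfl; rfl
  · intro h
    exact (Finsupp.single_left_inj one_ne_zero).mp h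

end Pool.Agent.VF
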