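import Mathlib
set_option autoImplicit false
/-!
Wiener-Hopf factorisation in a commutative Banach algebra with a splitting
`A = A₊ + A₋` (abstract version, to be used in weighted algebras of Laurent series).
-/
open scoped BigOperators
open Filter Topology

namespace Pool.Agent.VFree

section units

variable {𝕜 A : Type*} [NontriviallyNormedField 𝕜] [NormedCommRing A] [NormedAlgebra 𝕜 A]
  [CompleteSpace A]

/-- In a closed subalgebra the elements close to `1` are invertible. -/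
theorem inv_mem_of_close (S : Subalgebra 𝕜 A) (hS : IsClosed (S : Set A)) (u : Aˣ)
    (hu : (u : A) ∈ S) (h : ‖1 - (u : A)‖ < 1) : ((u⁻¹ : Aˣ) : A) ∈ S := by
  have e : u = Units.oneSub (1 - (u : A)) h := by
    apply Units.ext; simp
  have h2 : ((u⁻¹ : Aˣ) : A) = ∑' n : ℕ, (1 - (u : A)) ^ n := by
    have : ((u⁻¹ : Aˣ) : A) = (((Units.oneSub (1 - (u : A)) h)⁻¹ : Aˣ) : A) := by rw [← e]
    rw [this]; rfl
  rw [h2]
  exact tsum_mem (s := S) hS fun n => S.pow_mem (S.sub_mem S.one_mem hu) n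

/-- units of `A` contained in the subalgebra together with the inverse -/
def unitsOf (S : Subalgebra 𝕜 A) : Subgroup Aˣ := S.toSubmonoid.units

omit [CompleteSpace A] in
theorem mem_unitsOf {S : Subalgebra 𝕜 A} {u : Aˣ} :
    u ∈ unitsOf S ↔ (u : A) ∈ S ∧ ((u⁻¹ : Aˣ) : A) ∈ S := Iff.rfl

theorem exists_unit_of_close (S : Subalgebra 𝕜 A) (hS : IsClosed (S : Set A)) (x : A)
    (hx : x ∈ S) (h : ‖1 - x‖ < 1) : ∃ u : Aˣ, u ∈ unitsOf S ∧ (u : A) = x := by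
  have e : ((Units.oneSub (1 - x) h : Aˣ) : A) = x := by simp
  exact ⟨Units.oneSub (1 - x) h, ⟨by simpa [e] using hx,
    inv_mem_of_close S hS _ (by rw [e]; exact hx) (by rw [e]; exact h)⟩, e⟩

/-- **Small Wiener-Hopf factorisation**. -/
theorem small_factor (P : A →L[𝕜] A) (Ap Am : Subalgebra 𝕜 A) (hAp : IsClosed (Ap : Set A))
    (hAm : IsClosed (Am : Set A)) (hP : ∀ x, P x ∈ Ap) (hQ : ∀ x, x - P x ∈ Am) :
    ∃ δ > (0 : ℝ), ∃ C : ℝ, 0 ≤ C ∧ ∀ ε : A, ‖ε‖ < δ → ∃ u v : Aˣ, u ∈ unitsOf Ap ∧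
      v ∈ unitsOf Am ∧ 1 + ε = (u : A) * v ∧ ‖((u⁻¹ : Aˣ) : A) - 1‖ ≤ C * ‖ε‖ ∧
      ‖(v : A) - 1‖ ≤ C * ‖ε‖ ∧ ‖(u : A) - 1‖ ≤ C * ‖ε‖ := by
  classical
  have h1 : (0 : ℝ) ≤ ‖(1 : A)‖ := norm_nonneg _
  have hPn : (0 : ℝ) ≤ ‖P‖ := norm_nonneg _
  set K : ℝ := (1 + ‖P‖) * (1 + ‖(1 : A)‖) with hK
  have hK1 : 1 ≤ K := by nlinarith
  have hKP : ‖P‖ ≤ K := by nlinarith [mul_nonneg hPn h1]
  have hKP1 : ‖P‖ * ‖(1 : A)‖ ≤ K := by nlinarith [mul_nonneg hPn h1]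
  have hKQ1 : (1 + ‖P‖) * ‖(1 : A)‖ ≤ K := by nlinarith [mul_nonneg hPn h1]
  have hK11 : ‖(1 : A)‖ ≤ K := by nlinarith [mul_nonneg hPn h1]
  refine ⟨1 / (8 * K), by positivity, 4 * K ^ 2, by positivity, fun ε hε => ?_⟩
  have hεK : K * ‖ε‖ < 1 / 8 := by
    rw [lt_div_iff₀ (by positivity)] at hε
    nlinarith
  have hε0 : 0 ≤ ‖ε‖ := norm_nonneg _
  -- the operator
  let E : A →L[𝕜] A := -(P ∘L (ContinuousLinearMap.mul 𝕜 A ε))
  have hEx : ∀ x, E x = -P (ε * x) := fun x => rfl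
  have hEn : ‖E‖ ≤ 1 / 2 := by
    refine ContinuousLinearMap.opNorm_le_bound _ (by norm_num) fun x => ?_
    rw [hEx, norm_neg]
    calc ‖P (ε * x)‖ ≤ ‖P‖ * ‖ε * x‖ := P.le_opNorm _
      _ ≤ ‖P‖ * (‖ε‖ * ‖x‖) := by gcongr; exact norm_mul_le _ _
      _ = (‖P‖ * ‖ε‖) * ‖x‖ := by ring
      _ ≤ 1 / 2 * ‖x‖ := by
        gcongr
        nlinarith
  have hE1 : ‖E‖ < 1 := lt_of_le_of_lt hEn (by norm_num)
  let U : (A →L[𝕜] A)ˣ := Units.oneSub E hE1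
  let x : A := ((U⁻¹ : (A →L[𝕜] A)ˣ) : A →L[𝕜] A) 1
  have hUx : (U : A →L[𝕜] A) x = 1 := by
    have : ((U : A →L[𝕜] A) * ((U⁻¹ : (A →L[𝕜] A)ˣ) : A →L[𝕜] A)) 1 = 1 := by
      rw [Units.mul_inv]; rfl
    exact this
  have hxE : x + P (ε * x) = 1 := by
    have e : (U : A →L[𝕜] A) = 1 - E := rfl
    rw [e] at hUx
    have h3 : (1 - E) x = x - E x := rfl
    rw [h3, hEx] at hUx
    simpa using hUx
  have hx : x = 1 - P (ε * x) := eq_sub_of_add_eq hxE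
  have hxn : ‖x‖ ≤ 2 * ‖(1 : A)‖ := by
    have : ‖x‖ ≤ ‖(1 : A)‖ + 1 / 2 * ‖x‖ := by
      calc ‖x‖ = ‖1 - P (ε * x)‖ := by rw [← hx]
        _ ≤ ‖(1 : A)‖ + ‖P (ε * x)‖ := norm_sub_le _ _
        _ ≤ ‖(1 : A)‖ + 1 / 2 * ‖x‖ := by
          gcongr
          have := E.le_opNorm x
          rw [hEx, norm_neg] at this
          refine this.trans ?_
          gcongr
    linarith
  have hPx : ‖P (ε * x)‖ ≤ 2 * K * ‖ε‖ := by
    calc ‖P (ε * x)‖ ≤ ‖P‖ * ‖ε * x‖ := P.le_opNorm _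
      _ ≤ ‖P‖ * (‖ε‖ * (2 * ‖(1 : A)‖)) := by
        gcongr; exact (norm_mul_le _ _).trans (by gcongr)
      _ = 2 * (‖P‖ * ‖(1 : A)‖) * ‖ε‖ := by ring
      _ ≤ 2 * K * ‖ε‖ := by gcongr
  have hxAp : x ∈ Ap := by
    rw [hx]; exact Ap.sub_mem Ap.one_mem (hP _)
  have hx1 : ‖1 - x‖ ≤ 2 * K * ‖ε‖ := by
    have : 1 - x = P (ε * x) := by rw [← hxE]; ring
    rw [this]; exact hPx
  obtain ⟨ux, hux, hux'⟩ := exists_unit_of_close Ap hAp x hxAp (by nlinarith)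
  set y : A := (1 + ε) * x with hy
  have hy' : y = 1 + (ε * x - P (ε * x)) := by
    rw [hy]
    have : x = 1 - P (ε * x) := hx
    linear_combination hxE
  have hyAm : y ∈ Am := by
    rw [hy']; exact Am.add_mem Am.one_mem (hQ _)
  have hy1 : ‖1 - y‖ ≤ 4 * K * ‖ε‖ := by
    have e1 : 1 - y = P (ε * x) - ε * x := by rw [hy']; ring
    rw [e1]
    calc ‖P (ε * x) - ε * x‖ ≤ ‖P (ε * x)‖ + ‖ε * x‖ := norm_sub_le _ _
      _ ≤ 2 * K * ‖ε‖ + ‖ε‖ * (2 * ‖(1 : A)‖) := by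
        gcongr; exact (norm_mul_le _ _).trans (by gcongr)
      _ ≤ 4 * K * ‖ε‖ := by nlinarith
  obtain ⟨uy, huy, huy'⟩ := exists_unit_of_close Am hAm y hyAm (by nlinarith)
  have hK2 : K ≤ K ^ 2 := by nlinarith
  refine ⟨ux⁻¹, uy, (unitsOf Ap).inv_mem hux, huy, ?_, ?_, ?_, ?_⟩
  · rw [huy', hy, ← hux', mul_comm (1 + ε), ← mul_assoc, Units.inv_mul, one_mul]
  · rw [inv_inv, hux', norm_sub_rev]
    refine hx1.trans ?_
    nlinarith
  · rw [huy', norm_sub_rev]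
    refine hy1.trans ?_
    nlinarith
  · have hb : ‖((ux⁻¹ : Aˣ) : A)‖ ≤ 2 * ‖(1 : A)‖ := by
      have e2 : ((ux⁻¹ : Aˣ) : A) = 1 + ((ux⁻¹ : Aˣ) : A) * (1 - x) := by
        rw [mul_sub, mul_one, ← hux', Units.inv_mul]; ring
      have : ‖((ux⁻¹ : Aˣ) : A)‖ ≤ ‖(1 : A)‖ + ‖((ux⁻¹ : Aˣ) : A)‖ * (1 / 2) := by
        calc ‖((ux⁻¹ : Aˣ) : A)‖ = ‖1 + ((ux⁻¹ : Aˣ) : A) * (1 - x)‖ := by rw [← e2]
          _ ≤ ‖(1 : A)‖ + ‖((ux⁻¹ : Aˣ) : A) * (1 - x)‖ := norm_add_le _ _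
          _ ≤ ‖(1 : A)‖ + ‖((ux⁻¹ : Aˣ) : A)‖ * (1 / 2) := by
            gcongr
            refine (norm_mul_le _ _).trans ?_
            gcongr
            nlinarith
      linarith
    have e2 : ((ux⁻¹ : Aˣ) : A) - 1 = ((ux⁻¹ : Aˣ) : A) * (1 - x) := by
      rw [mul_sub, mul_one, ← hux', Units.inv_mul]
    rw [e2]
    calc ‖((ux⁻¹ : Aˣ) : A) * (1 - x)‖ ≤ ‖((ux⁻¹ : Aˣ) : A)‖ * ‖1 - x‖ := norm_mul_le _ _
      _ ≤ (2 * ‖(1 : A)‖) * (2 * K * ‖ε‖) := by gcongr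
      _ = 4 * (‖(1 : A)‖ * K) * ‖ε‖ := by ring
      _ ≤ 4 * K ^ 2 * ‖ε‖ := by
        gcongr
        nlinarith

end units

section algClosed

variable {𝕜 A : Type*} [NontriviallyNormedField 𝕜] [NormedCommRing A] [NormedAlgebra 𝕜 A]
  [CompleteSpace A]

/-- the group of products `T^k u v` -/
def facG (T : Aˣ) (Ap Am : Subalgebra 𝕜 A) : Subgroup Aˣ :=
  Subgroup.zpowers T ⊔ (unitsOf Ap ⊔ unitsOf Am)

omit [CompleteSpace A] in
theorem mem_facG {T : Aˣ} {Ap Am : Subalgebra 𝕜 A} {c : Aˣ} :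
    c ∈ facG T Ap Am ↔ ∃ k : ℤ, ∃ u ∈ unitsOf Ap, ∃ v ∈ unitsOf Am, c = T ^ k * u * v := by
  unfold facG
  constructor
  · intro h
    obtain ⟨y, hy, z, hz, rfl⟩ := Subgroup.mem_sup.1 h
    obtain ⟨k, rfl⟩ := Subgroup.mem_zpowers_iff.1 hy
    obtain ⟨u, hu, v, hv, rfl⟩ := Subgroup.mem_sup.1 hz
    exact ⟨k, u, hu, v, hv, by rw [mul_assoc]⟩
  · rintro ⟨k, u, hu, v, hv, rfl⟩
    rw [mul_assoc]
    exact Subgroup.mul_mem_sup (Subgroup.mem_zpowers_iff.2 ⟨k, rfl⟩) (Subgroup.mul_mem_sup hu hv)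

omit [CompleteSpace A] in
/-- an element of the span of the powers of `T` is, up to a power of `T`, a polynomial in `T` -/
theorem exists_poly_of_mem_span (T : Aˣ) (R : A)
    (hR : R ∈ Submodule.span 𝕜 (Set.range fun k : ℤ => ((T ^ k : Aˣ) : A))) :
    ∃ M : ℕ, ∃ p : Polynomial 𝕜, (T : A) ^ M * R = Polynomial.aeval (T : A) p := by
  induction hR using Submodule.span_induction with
  | mem x hx =>
    obtain ⟨k, rfl⟩ := hx
    refine ⟨k.natAbs, Polynomial.X ^ (k.natAbs + k).toNat, ?_⟩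
    have hk : (((k.natAbs + k).toNat : ℕ) : ℤ) = k.natAbs + k := by
      rw [Int.toNat_of_nonneg]; omega
    have : (T ^ (k.natAbs : ℕ) * T ^ k : Aˣ) = T ^ ((k.natAbs + k).toNat : ℕ) := by
      rw [← zpow_natCast, ← zpow_natCast, hk, zpow_add]
    have h2 := congrArg (fun u : Aˣ => (u : A)) this
    simpa using h2
  | zero => exact ⟨0, 0, by simp⟩
  | add x y _ _ hx hy =>
    obtain ⟨M, p, h1⟩ := hx
    obtain ⟨M', p', h2⟩ := hy
    refine ⟨M + M', Polynomial.X ^ M' * p + Polynomial.X ^ M * p', ?_⟩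
    rw [map_add, map_mul, map_mul, ← h1, ← h2]
    simp only [map_pow, Polynomial.aeval_X]
    ring
  | smul a x _ hx =>
    obtain ⟨M, p, h1⟩ := hx
    refine ⟨M, a • p, ?_⟩
    rw [map_smul, ← h1, mul_smul_comm]

/-- a linear factor `T - ρ` which is a unit lies in `facG` -/
theorem linear_mem_facG (T : Aˣ) (Ap Am : Subalgebra 𝕜 A) (hAp : IsClosed (Ap : Set A))
    (hAm : IsClosed (Am : Set A)) (hTp : (T : A) ∈ Ap) (hTm : ((T⁻¹ : Aˣ) : A) ∈ Am)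
    (r1 r2 : ℝ) (h0 : 0 < r1) (h12 : r1 ≤ r2) (hn1 : ‖((T⁻¹ : Aˣ) : A)‖ ≤ 1 / r1)
    (hn2 : ‖(T : A)‖ ≤ r2)
    (hev : ∀ ρ : 𝕜, r1 ≤ ‖ρ‖ → ‖ρ‖ ≤ r2 → ∃ φ : A →ₐ[𝕜] 𝕜, φ (T : A) = ρ)
    (ρ : 𝕜) (L : Aˣ) (hL : (L : A) = (T : A) - algebraMap 𝕜 A ρ) : L ∈ facG T Ap Am := by
  rw [mem_facG]
  rcases lt_or_ge ‖ρ‖ r1 with h | h
  · -- inside
    have hn : ‖1 - (1 - algebraMap 𝕜 A ρ * ((T⁻¹ : Aˣ) : A))‖ < 1 := by
      rw [sub_sub_cancel, ← Algebra.smul_def]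
      calc ‖ρ • ((T⁻¹ : Aˣ) : A)‖ ≤ ‖ρ‖ * ‖((T⁻¹ : Aˣ) : A)‖ := norm_smul_le _ _
        _ ≤ ‖ρ‖ * (1 / r1) := by gcongr
        _ < 1 := by rw [mul_one_div, div_lt_one h0]; exact h
    obtain ⟨v, hv, hv'⟩ := exists_unit_of_close Am hAm (1 - algebraMap 𝕜 A ρ * ((T⁻¹ : Aˣ) : A))
      (Am.sub_mem Am.one_mem (Am.mul_mem (Am.algebraMap_mem ρ) hTm)) hn
    refine ⟨1, 1, (unitsOf Ap).one_mem, v, hv, ?_⟩
    apply Units.ext
    rw [zpow_one, mul_one, Units.val_mul, hv', hL, mul_sub, mul_one, mul_left_comm, Units.mul_inv,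
      mul_one]
  · rcases le_or_gt ‖ρ‖ r2 with h' | h'
    · -- not a unit
      exfalso
      obtain ⟨φ, hφ⟩ := hev ρ h h'
      have h3 : φ (L : A) = 0 := by
        rw [hL, map_sub, hφ, AlgHom.commutes]; simp
      have h4 : IsUnit (φ (L : A)) := L.isUnit.map φ
      rw [h3] at h4
      exact not_isUnit_zero h4
    · -- outside
      have hρ0 : ρ ≠ 0 := by
        rintro rfl
        rw [norm_zero] at h'
        linarith
      have hn : ‖1 - (1 - algebraMap 𝕜 A ρ⁻¹ * (T : A))‖ < 1 := by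
        rw [sub_sub_cancel, ← Algebra.smul_def]
        calc ‖ρ⁻¹ • (T : A)‖ ≤ ‖ρ⁻¹‖ * ‖(T : A)‖ := norm_smul_le _ _
          _ ≤ ‖ρ⁻¹‖ * r2 := by gcongr
          _ < 1 := by
            rw [norm_inv, inv_mul_lt_iff₀ (by linarith), mul_one]; exact h'
      obtain ⟨u, hu, hu'⟩ := exists_unit_of_close Ap hAp (1 - algebraMap 𝕜 A ρ⁻¹ * (T : A))
        (Ap.sub_mem Ap.one_mem (Ap.mul_mem (Ap.algebraMap_mem _) hTp)) hn
      let c : Aˣ := Units.map (algebraMap 𝕜 A).toMonoidHom (Units.mk0 (-ρ) (neg_ne_zero.2 hρ0))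
      have hc : (c : A) = algebraMap 𝕜 A (-ρ) := rfl
      have hc' : ((c⁻¹ : Aˣ) : A) = algebraMap 𝕜 A ((-ρ)⁻¹) := rfl
      have hcm : c ∈ unitsOf Ap := mem_unitsOf.2 ⟨by rw [hc]; exact Ap.algebraMap_mem _,
        by rw [hc']; exact Ap.algebraMap_mem _⟩
      refine ⟨0, c * u, (unitsOf Ap).mul_mem hcm hu, 1, (unitsOf Am).one_mem, ?_⟩
      apply Units.ext
      rw [zpow_zero, one_mul, mul_one, Units.val_mul, hu', hL, hc, mul_sub, mul_one, ← mul_assoc,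
        ← map_mul, neg_mul, mul_inv_cancel₀ hρ0]
      simp [sub_eq_add_neg, add_comm]

/-- **Wiener-Hopf factorisation** of the units. -/
theorem wiener_hopf [IsAlgClosed 𝕜] (P : A →L[𝕜] A) (T : Aˣ) (Ap Am : Subalgebra 𝕜 A)
    (hAp : IsClosed (Ap : Set A)) (hAm : IsClosed (Am : Set A)) (hP : ∀ x, P x ∈ Ap)
    (hQ : ∀ x, x - P x ∈ Am) (hTp : (T : A) ∈ Ap) (hTm : ((T⁻¹ : Aˣ) : A) ∈ Am)
    (r1 r2 : ℝ) (h0 : 0 < r1) (h12 : r1 ≤ r2) (hn1 : ‖((T⁻¹ : Aˣ) : A)‖ ≤ 1 / r1)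
    (hn2 : ‖(T : A)‖ ≤ r2)
    (hev : ∀ ρ : 𝕜, r1 ≤ ‖ρ‖ → ‖ρ‖ ≤ r2 → ∃ φ : A →ₐ[𝕜] 𝕜, φ (T : A) = ρ)
    (hd : Dense (Submodule.span 𝕜 (Set.range fun k : ℤ => ((T ^ k : Aˣ) : A)) : Set A))
    (c : Aˣ) :
    ∃ k : ℤ, ∃ u v : Aˣ, (u : A) ∈ Ap ∧ ((u⁻¹ : Aˣ) : A) ∈ Ap ∧ (v : A) ∈ Am ∧
      ((v⁻¹ : Aˣ) : A) ∈ Am ∧ c = T ^ k * u * v := by
  classical
  -- it is enough to show that `c` is in `facG`
  suffices h : c ∈ facG T Ap Am by
    obtain ⟨k, u, hu, v, hv, e⟩ := mem_facG.1 h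
    exact ⟨k, u, v, hu.1, hu.2, hv.1, hv.2, e⟩
  rcases subsingleton_or_nontrivial A with hA | hA
  · have : c = 1 := Units.ext (Subsingleton.elim _ _)
    rw [this]; exact (facG T Ap Am).one_mem
  obtain ⟨δ, hδ, C, hC, hsm⟩ := small_factor P Ap Am hAp hAm hP hQ
  -- approximate inverse
  have hopen : IsOpen {R : A | ‖(c : A) * R - 1‖ < δ} :=
    isOpen_lt (by fun_prop) continuous_const
  obtain ⟨R, hR1, hR2⟩ := hd.inter_open_nonempty _ hopen ⟨((c⁻¹ : Aˣ) : A), by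
    simpa using hδ⟩
  obtain ⟨u, v, hu, hv, huv, -, -, -⟩ := hsm ((c : A) * R - 1) hR1
  have hcR : (c : A) * R = ((u * v : Aˣ) : A) := by
    rw [Units.val_mul, ← huv]; ring
  let Ru : Aˣ := c⁻¹ * (u * v)
  have hRu : (Ru : A) = R := by
    change ((c⁻¹ * (u * v) : Aˣ) : A) = R
    rw [Units.val_mul, ← hcR, ← mul_assoc, Units.inv_mul, one_mul]
  obtain ⟨M, p, hp⟩ := exists_poly_of_mem_span T R hR2
  have hpu : IsUnit (Polynomial.aeval (T : A) p) := by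
    rw [← hp, ← hRu]
    exact ⟨T ^ M * Ru, by simp⟩
  have hsplit : p = Polynomial.C p.leadingCoeff *
      (p.roots.map fun a => Polynomial.X - Polynomial.C a).prod :=
    (IsAlgClosed.splits p).eq_prod_roots
  have hp0 : p ≠ 0 := by
    rintro rfl
    rw [map_zero] at hpu
    exact not_isUnit_zero hpu
  -- every product of linear factors which is a unit lies in `facG`
  have key : ∀ s : Multiset 𝕜, ∀ L : Aˣ,
      (L : A) = Polynomial.aeval (T : A) (s.map fun a => Polynomial.X - Polynomial.C a).prod →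
      L ∈ facG T Ap Am := by
    intro s
    induction s using Multiset.induction_on with
    | empty =>
      intro L hL
      have : L = 1 := Units.ext (by rw [hL]; simp)
      rw [this]; exact (facG T Ap Am).one_mem
    | cons a s ih =>
      intro L hL
      rw [Multiset.map_cons, Multiset.prod_cons, map_mul] at hL
      have hun : IsUnit (Polynomial.aeval (T : A) (Polynomial.X - Polynomial.C a) *
          Polynomial.aeval (T : A) (s.map fun a => Polynomial.X - Polynomial.C a).prod) := by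
        rw [← hL]; exact L.isUnit
      obtain ⟨⟨L1, h1⟩, ⟨L2, h2⟩⟩ := IsUnit.mul_iff.1 hun
      have e : L = L1 * L2 := Units.ext (by rw [hL, Units.val_mul, h1, h2])
      rw [e]
      refine (facG T Ap Am).mul_mem ?_ (ih L2 h2)
      refine linear_mem_facG T Ap Am hAp hAm hTp hTm r1 r2 h0 h12 hn1 hn2 hev a L1 ?_
      rw [h1]; simp
  have hlc : p.leadingCoeff ≠ 0 := Polynomial.leadingCoeff_ne_zero.2 hp0
  let a : Aˣ := Units.map (algebraMap 𝕜 A).toMonoidHom (Units.mk0 p.leadingCoeff hlc)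
  have ha : (a : A) = algebraMap 𝕜 A p.leadingCoeff := rfl
  have ha' : ((a⁻¹ : Aˣ) : A) = algebraMap 𝕜 A (p.leadingCoeff⁻¹) := rfl
  have ham : a ∈ facG T Ap Am := mem_facG.2 ⟨0, a, mem_unitsOf.2 ⟨by
    rw [ha]; exact Ap.algebraMap_mem _, by rw [ha']; exact Ap.algebraMap_mem _⟩, 1,
    (unitsOf Am).one_mem, by simp⟩
  have hTm' : T ∈ facG T Ap Am := mem_facG.2 ⟨1, 1, (unitsOf Ap).one_mem, 1,
    (unitsOf Am).one_mem, by simp⟩
  have hprod : (a⁻¹ * (T ^ M * Ru) : Aˣ) ∈ facG T Ap Am := by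
    apply key p.roots
    rw [Units.val_mul, Units.val_mul, hRu, Units.val_pow_eq_pow_val, hp]
    conv_lhs => rw [hsplit]
    rw [map_mul, Polynomial.aeval_C, ← mul_assoc, ha', ← map_mul, inv_mul_cancel₀ hlc, map_one,
      one_mul]
  have hRG : Ru ∈ facG T Ap Am := by
    have e : Ru = (T ^ M)⁻¹ * (a * (a⁻¹ * (T ^ M * Ru))) := by group
    rw [e]
    exact (facG T Ap Am).mul_mem ((facG T Ap Am).inv_mem ((facG T Ap Am).pow_mem hTm' M))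
      ((facG T Ap Am).mul_mem ham hprod)
  have huvG : u * v ∈ facG T Ap Am := mem_facG.2 ⟨0, u, hu, v, hv, by simp⟩
  have e : c = (u * v) * Ru⁻¹ := by
    change c = (u * v) * (c⁻¹ * (u * v))⁻¹
    group
  rw [e]
  exact (facG T Ap Am).mul_mem huvG ((facG T Ap Am).inv_mem hRG)

end algClosed

end Pool.Agent.VFree
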